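import Pool.Agent.Helper6.TOP.Br2

set_option autoImplicit false
set_option linter.all false
set_option maxRecDepth 100000

namespace Pool.Agent.TOPR.R6042

open Helper10.PC hiding V3
open Helper80.CW.DL Pool.Agent.Helper6.TOP

/-- `p` scaled by `2 ^ mu`, degree in `p` at most `dp`, degree in `u` at most `Kd` -/
def mu : ℕ := 12
def dp : ℕ := 6
def Kd : ℕ := 10

/-- exponents of `u` -/
def AL : List Al := [(0, 0, 0), (0, 0, 2), (0, 0, 4), (0, 0, 5), (0, 0, 6), (0, 0, 7), (0, 0, 8), (0, 0, 9), (0, 0, 10), (0, 1, 1), (0, 1, 3), (0, 1, 4), (0, 1, 5), (0, 1, 6), (0, 1, 7), (0, 1, 8), (0, 1, 9), (0, 2, 0), (0, 2, 2), (0, 2, 3), (0, 2, 4), (0, 2, 5), (0, 2, 6), (0, 2, 7), (0, 2, 8), (0, 3, 1), (0, 3, 2), (0, 3, 3), (0, 3, 4), (0, 3, 5), (0, 3, 6), (0, 3, 7), (0, 4, 0), (0, 4, 1), (0, 4, 2), (0, 4, 3), (0, 4, 4), (0, 4, 5), (0, 4, 6), (0, 5, 0), (0, 5, 1), (0, 5, 2), (0, 5, 3), (0, 5, 4), (0, 5, 5), (0, 6, 0), (0, 6, 1), (0, 6, 2), (0, 6, 3), (0, 6, 4), (0, 7, 0),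 (0, 7, 1), (0, 7, 2), (0, 7, 3), (0, 8, 0), (0, 8, 1), (0, 8, 2), (0, 9, 0), (0, 9, 1), (0, 10, 0), (1, 0, 3), (1, 0, 4), (1, 0, 5), (1, 0, 6), (1, 0, 7), (1, 0, 8), (1, 0, 9), (1, 1, 2), (1, 1, 3), (1, 1, 4), (1, 1, 5), (1, 1, 6), (1, 1, 7), (1, 1, 8), (1, 2, 1), (1, 2, 2), (1, 2, 3), (1, 2, 4), (1, 2, 5), (1, 2, 6), (1, 2, 7), (1, 3, 0), (1, 3, 1), (1, 3, 2), (1, 3, 3), (1, 3, 4), (1, 3, 5), (1, 3, 6), (1, 4, 0), (1, 4, 1), (1, 4, 2), (1, 4, 3), (1, 4, 4), (1, 4, 5), (1, 5, 0), (1, 5, 1), (1, 5, 2), (1, 5, 3), (1, 5, 4), (1, 6, 0), (1, 6, 1), (1, 6, 2), (1, 6, 3), (1, 7, 0), (1, 7, 1), (1, 7, 2), (1, 8, 0), (1, 8, 1), (1, 9, 0), (2, 0, 0), (2, 0, 2), (2, 0, 3), (2, 0, 4), (2, 0, 5), (2, 0, 6), (2, 0, 7), (2, 0, 8), (2, 1, 1), (2, 1, 2), (2, 1, 3), (2, 1, 4), (2, 1, 5), (2, 1, 6), (2, 1, 7), (2, 2, 0), (2, 2, 1), (2, 2, 2), (2, 2, 3), (2, 2, 4), (2, 2, 5), (2, 2, 6), (2, 3, 0), (2, 3, 1), (2, 3, 2), (2, 3, 3), (2, 3, 4), (2, 3, 5), (2, 4, 0), (2, 4, 1),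 (2, 4, 2), (2, 4, 3), (2, 4, 4), (2, 5, 0), (2, 5, 1), (2, 5, 2), (2, 5, 3), (2, 6, 0), (2, 6, 1), (2, 6, 2), (2, 7, 0), (2, 7, 1), (2, 8, 0), (3, 0, 1), (3, 0, 2), (3, 0, 3), (3, 0, 4), (3, 0, 5), (3, 0, 6), (3, 0, 7), (3, 1, 0), (3, 1, 1), (3, 1, 2), (3, 1, 3), (3, 1, 4), (3, 1, 5), (3, 1, 6), (3, 2, 0), (3, 2, 1), (3, 2, 2), (3, 2, 3), (3, 2, 4), (3, 2, 5), (3, 3, 0), (3, 3, 1), (3, 3, 2), (3, 3, 3), (3, 3, 4), (3, 4, 0), (3, 4, 1), (3, 4, 2), (3, 4, 3), (3, 5, 0), (3, 5, 1), (3, 5, 2), (3, 6, 0), (3, 6, 1), (3, 7, 0), (4, 0, 0), (4, 0, 1), (4, 0, 2), (4, 0, 3), (4, 0, 4), (4, 0, 5), (4, 0, 6), (4, 1, 0), (4, 1, 1), (4, 1, 2), (4, 1, 3), (4, 1, 4), (4, 1, 5), (4, 2, 0), (4, 2, 1), (4, 2, 2), (4, 2, 3), (4, 2, 4), (4, 3, 0), (4, 3, 1), (4, 3, 2), (4, 3, 3), (4, 4, 0), (4, 4, 1), (4, 4, 2), (4, 5, 0), (4, 5, 1), (4, 6, 0), (5, 0, 0), (5, 0, 1), (5, 0, 2), (5, 0, 3), (5, 0, 4), (5, 0, 5), (5, 1, 0), (5, 1, 1), (5, 1, 2), (5, 1, 3), (5, 1, 4), (5, 2, 0), (5,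 2, 1), (5, 2, 2), (5, 2, 3), (5, 3, 0), (5, 3, 1), (5, 3, 2), (5, 4, 0), (5, 4, 1), (5, 5, 0), (6, 0, 0), (6, 0, 1), (6, 0, 2), (6, 0, 3), (6, 0, 4), (6, 1, 0), (6, 1, 1), (6, 1, 2), (6, 1, 3), (6, 2, 0), (6, 2, 1), (6, 2, 2), (6, 3, 0), (6, 3, 1), (6, 4, 0), (7, 0, 0), (7, 0, 1), (7, 0, 2), (7, 0, 3), (7, 1, 0), (7, 1, 1), (7, 1, 2), (7, 2, 0), (7, 2, 1), (7, 3, 0), (8, 0, 0), (8, 0, 1), (8, 0, 2), (8, 1, 0), (8, 1, 1), (8, 2, 0), (9, 0, 0), (9, 0, 1), (9, 1, 0), (10, 0, 0)]


def lQp_0 : List (T ℤ) := [(P (nat_lit 5034231565398356583608483840000)), (P (nat_lit 0)), (T.h (T.h (T.h (P (nat_lit 96674775480032858528316129280)) (T.h (P (nat_lit 0)) (T.h (M (nat_lit 1539936402037090780446719)) (T.h (P (nat_lit 0)) (M (nat_lit 86536408218468351)))))) (T.h (P (nat_lit 0)) (T.h (T.h (M (nat_lit 817570893295480970674175)) (T.h (P (nat_lit 0)) (P (nat_lit 712178620038119424)))) (T.h (P (nat_lit 0)) (M (nat_lit 692532370447794175)))))) (T.h (T.h (P (nat_lit 0)) (T.h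 (T.h (P (nat_lit 0)) (T.h (M (nat_lit 2618989352391739965439)) (T.h (P (nat_lit 0)) (M (nat_lit 294768566599679))))) (T.h (P (nat_lit 0)) (T.h (T.h (P (nat_lit 0)) (M (nat_lit 129461949038591))) (P (nat_lit 0)))))) (T.h (T.h (T.h (M (nat_lit 817570893295480970674175)) (T.h (P (nat_lit 0)) (P (nat_lit 712178620038119424)))) (T.h (P (nat_lit 0)) (P (nat_lit 3310063201005076480)))) (T.h (T.h (P (nat_lit 0)) (T.h (T.h (P (nat_lit 0)) (M (nat_lit 129461949038591))) (P (nat_lit 0)))) (M (nat_lit 692532370447794175)))))), (T.h (T.h (T.h (P (nat_lit 0)) (T.h (M (nat_lit 1109688626837800921969197055)) (T.h (P (nat_lit 0)) (T.h (P (nat_lit 1632973904196313022464)) (T.h (P (nat_lit 0)) (M (nat_lit 1548350442700799))))))) (T.h (P (nat_lit 0)) (T.h (T.h (P (nat_lit 0)) (T.h (M (nat_lit 1012050865393395302399)) (T.h (P (nat_lit 0)) (M (nat_lit 2515445769142271))))) (T.h (P (nat_lit 0)) (T.h (T.h (P (nat_lit 0)) (P (nat_lit 119998737022976))) (P (nat_lit 0))))))) (T.h (T.h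 (P (nat_lit 0)) (T.h (T.h (M (nat_lit 1240065049510957740457983)) (T.h (P (nat_lit 0)) (P (nat_lit 5646720424898199552)))) (T.h (P (nat_lit 0)) (P (nat_lit 170667393696137216))))) (T.h (T.h (T.h (P (nat_lit 0)) (T.h (M (nat_lit 1012050865393395302399)) (T.h (P (nat_lit 0)) (M (nat_lit 2515445769142271))))) (T.h (P (nat_lit 0)) (T.h (T.h (P (nat_lit 0)) (M (nat_lit 10794187433312255))) (P (nat_lit 0))))) (T.h (T.h (P (nat_lit 0)) (P (nat_lit 170667393696137216))) (T.h (T.h (T.h (P (nat_lit 0)) (P (nat_lit 119998737022976))) (P (nat_lit 0))) (P (nat_lit 0))))))), (T.h (T.h (T.h (M (nat_lit 5102271648357133609590386065407)) (T.h (P (nat_lit 0)) (T.h (P (nat_lit 3670530845706316062654464)) (T.h (P (nat_lit 0)) (M (nat_lit 1509074362290929663)))))) (T.h (P (nat_lit 0)) (T.h (T.h (P (nat_lit 762840448463898280984576)) (T.h (P (nat_lit 0)) (M (nat_lit 992840272415031295)))) (T.h (P (nat_lit 0)) (P (nat_lit 675307117015465984)))))) (T.h (T.h (P (nat_lit 0)) (T.h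 (T.h (P (nat_lit 0)) (P (nat_lit 2099872552613090164736))) (P (nat_lit 0)))) (T.h (T.h (T.h (P (nat_lit 762840448463898280984576)) (T.h (P (nat_lit 0)) (M (nat_lit 992840272415031295)))) (T.h (P (nat_lit 0)) (M (nat_lit 6886114660404166655)))) (T.h (P (nat_lit 0)) (P (nat_lit 675307117015465984)))))), (T.h (T.h (T.h (P (nat_lit 0)) (P (nat_lit 1261515900548784767341953024))) (P (nat_lit 0))) (T.h (T.h (P (nat_lit 0)) (P (nat_lit 1072738038739656689844224))) (T.h (T.h (P (nat_lit 0)) (T.h (P (nat_lit 0)) (T.h (T.h (P (nat_lit 0)) (P (nat_lit 14392249911083008))) (P (nat_lit 0))))) (P (nat_lit 0))))), (T.h (P (nat_lit 0)) (T.h (P (nat_lit 0)) (T.h (T.h (P (nat_lit 0)) (T.h (P (nat_lit 0)) (P (nat_lit 3684415977237250048)))) (P (nat_lit 0))))), (P (nat_lit 0))]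
def lQp_1 : List (T ℤ) := [(P (nat_lit 0)), (P (nat_lit 0)), (T.h (T.h (P (nat_lit 0)) (T.h (T.h (P (nat_lit 0)) (T.h (M (nat_lit 9930660340720679142817791)) (T.h (P (nat_lit 0)) (P (nat_lit 5817303471073787904))))) (T.h (P (nat_lit 0)) (T.h (T.h (P (nat_lit 0)) (P (nat_lit 4498897606964936704))) (P (nat_lit 0)))))) (T.h (T.h (T.h (P (nat_lit 2874759264551899117903675392)) (T.h (P (nat_lit 0)) (T.h (P (nat_lit 7643476739830000386048)) (T.h (P (nat_lit 0)) (M (nat_lit 5476709220483071)))))) (T.h (P (nat_lit 0)) (T.h (T.h (P (nat_lit 1940289171074890858496)) (T.h (P (nat_lit 0)) (M (nat_lit 2788580132061183)))) (T.h (P (nat_lit 0)) (M (nat_lit 1082473110175743)))))) (T.h (T.h (P (nat_lit 0)) (T.h (T.h (P (nat_lit 0)) (M (nat_lit 717555307059871743))) (P (nat_lit 0)))) (T.h (T.h (T.h (M (nat_lit 738474885769798352895)) (T.h (P (nat_lit 0)) (P (nat_lit 4065623452418048)))) (T.h (P (nat_lit 0)) (P (nat_lit 622586800177152)))) (T.h (P (nat_lit 0)) (M (nat_lit 853826605940735))))))),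 (T.h (T.h (P (nat_lit 0)) (T.h (T.h (P (nat_lit 53881732118352720053892284416)) (T.h (P (nat_lit 0)) (T.h (P (nat_lit 4044796161900521979904)) (T.h (P (nat_lit 0)) (P (nat_lit 7839521280917504)))))) (T.h (P (nat_lit 0)) (T.h (T.h (M (nat_lit 1138092656815090171903)) (T.h (P (nat_lit 0)) (M (nat_lit 4746482182750207)))) (T.h (P (nat_lit 0)) (P (nat_lit 453536361119744))))))) (T.h (T.h (T.h (P (nat_lit 0)) (T.h (P (nat_lit 6257322254999635160465408)) (T.h (P (nat_lit 0)) (M (nat_lit 18700725765254676479))))) (T.h (P (nat_lit 0)) (T.h (T.h (P (nat_lit 0)) (M (nat_lit 778044669081681919))) (P (nat_lit 0))))) (T.h (T.h (P (nat_lit 0)) (T.h (T.h (P (nat_lit 1180029681764931731456)) (T.h (P (nat_lit 0)) (M (nat_lit 12727986820939775)))) (T.h (P (nat_lit 0)) (P (nat_lit 444352593395712))))) (T.h (T.h (T.h (P (nat_lit 0)) (P (nat_lit 6181027965124476928))) (P (nat_lit 0))) (T.h (T.h (P (nat_lit 0)) (P (nat_lit 430876221964288))) (P (nat_lit 0))))))), (T.h (T.h (P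 (nat_lit 0)) (T.h (T.h (P (nat_lit 0)) (T.h (P (nat_lit 12476825063754065334239232)) (T.h (P (nat_lit 0)) (M (nat_lit 486026124057378815))))) (T.h (P (nat_lit 0)) (T.h (T.h (P (nat_lit 0)) (M (nat_lit 739178953956130815))) (P (nat_lit 0)))))) (T.h (T.h (T.h (M (nat_lit 3383368649401081921863155711)) (T.h (P (nat_lit 0)) (T.h (M (nat_lit 12643918027596247334911)) (T.h (P (nat_lit 0)) (P (nat_lit 9250554945142784)))))) (T.h (P (nat_lit 0)) (T.h (T.h (M (nat_lit 4611647519577497141247)) (T.h (P (nat_lit 0)) (M (nat_lit 8840244534575103)))) (T.h (P (nat_lit 0)) (M (nat_lit 109270719660031)))))) (T.h (T.h (P (nat_lit 0)) (T.h (T.h (P (nat_lit 0)) (M (nat_lit 3731576025025347583))) (P (nat_lit 0)))) (T.h (T.h (T.h (P (nat_lit 1055328876714705027072)) (T.h (P (nat_lit 0)) (M (nat_lit 4362756073783295)))) (T.h (P (nat_lit 0)) (M (nat_lit 237439028822015)))) (T.h (P (nat_lit 0)) (P (nat_lit 969414783074304))))))), (T.h (T.h (P (nat_lit 0)) (T.h (T.h (M (nat_lit 53919904888201650914528854015))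 (T.h (P (nat_lit 0)) (T.h (M (nat_lit 9395881727339121344511)) (T.h (P (nat_lit 0)) (M (nat_lit 7551664551362559)))))) (T.h (P (nat_lit 0)) (T.h (T.h (P (nat_lit 873530666480291545088)) (T.h (P (nat_lit 0)) (P (nat_lit 2256434608734208)))) (T.h (P (nat_lit 0)) (M (nat_lit 336720620421119))))))) (T.h (T.h (T.h (P (nat_lit 0)) (T.h (M (nat_lit 1668310685256554960125951)) (T.h (P (nat_lit 0)) (P (nat_lit 20098914546582814720))))) (T.h (P (nat_lit 0)) (T.h (T.h (P (nat_lit 0)) (M (nat_lit 3642813229240942591))) (P (nat_lit 0))))) (T.h (T.h (P (nat_lit 0)) (T.h (T.h (M (nat_lit 2539739606505924591615)) (T.h (P (nat_lit 0)) (M (nat_lit 2891021512081407)))) (T.h (P (nat_lit 0)) (M (nat_lit 932545441562623))))) (T.h (T.h (T.h (P (nat_lit 0)) (M (nat_lit 2552835554030911487))) (P (nat_lit 0))) (T.h (T.h (P (nat_lit 0)) (P (nat_lit 420597048541184))) (P (nat_lit 0))))))), (T.h (T.h (P (nat_lit 0)) (T.h (T.h (P (nat_lit 0)) (T.h (M (nat_lit 1514619882854388970029055))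 (T.h (P (nat_lit 0)) (M (nat_lit 7732904500595261439))))) (T.h (P (nat_lit 0)) (T.h (T.h (P (nat_lit 0)) (P (nat_lit 1155294519671914496))) (P (nat_lit 0)))))) (T.h (T.h (T.h (P (nat_lit 471536197744369659130413056)) (T.h (P (nat_lit 0)) (P (nat_lit 7121757884211567525888)))) (T.h (P (nat_lit 0)) (P (nat_lit 391678135183836446720)))) (T.h (T.h (P (nat_lit 0)) (T.h (T.h (P (nat_lit 0)) (P (nat_lit 5888628940288819200))) (P (nat_lit 0)))) (P (nat_lit 0))))), (P (nat_lit 0))]
def lQp_2 : List (T ℤ) := [(P (nat_lit 0)), (P (nat_lit 0)), (T.h (T.h (T.h (M (nat_lit 460972935309887569520215719935)) (T.h (P (nat_lit 0)) (T.h (M (nat_lit 2029091353749028599758847)) (T.h (P (nat_lit 0)) (M (nat_lit 1526433197796098047)))))) (T.h (P (nat_lit 0)) (T.h (T.h (M (nat_lit 2029091353749028599758847)) (T.h (P (nat_lit 0)) (P (nat_lit 3990713706295066624)))) (T.h (P (nat_lit 0)) (M (nat_lit 1526433197796098047)))))) (T.h (T.h (P (nat_lit 0)) (T.h (T.h (P (nat_lit 0)) (T.h (M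 (nat_lit 38255836290387560890367)) (T.h (P (nat_lit 0)) (M (nat_lit 15267448728518655))))) (T.h (P (nat_lit 0)) (T.h (T.h (P (nat_lit 0)) (M (nat_lit 15267448728518655))) (P (nat_lit 0)))))) (T.h (T.h (T.h (P (nat_lit 0)) (T.h (P (nat_lit 0)) (P (nat_lit 2998689982794694656)))) (T.h (P (nat_lit 0)) (P (nat_lit 2998689982794694656)))) (T.h (T.h (P (nat_lit 0)) (T.h (T.h (P (nat_lit 0)) (M (nat_lit 14346539850792959))) (P (nat_lit 0)))) (P (nat_lit 0)))))), (T.h (T.h (T.h (P (nat_lit 0)) (T.h (M (nat_lit 2893234167580437187150217215)) (T.h (P (nat_lit 0)) (T.h (P (nat_lit 4887624969485354532864)) (T.h (P (nat_lit 0)) (M (nat_lit 842086408290303))))))) (T.h (P (nat_lit 0)) (T.h (T.h (P (nat_lit 0)) (T.h (P (nat_lit 13617996589596695068672)) (T.h (P (nat_lit 0)) (M (nat_lit 6314639862071295))))) (T.h (P (nat_lit 0)) (T.h (T.h (P (nat_lit 0)) (M (nat_lit 2004594498371583))) (P (nat_lit 0))))))) (T.h (T.h (P (nat_lit 0)) (T.h (T.h (M (nat_lit 6345143623172862576164863))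 (T.h (P (nat_lit 0)) (M (nat_lit 50860561505563181055)))) (T.h (P (nat_lit 0)) (M (nat_lit 7388629735611301887))))) (T.h (T.h (T.h (P (nat_lit 0)) (T.h (M (nat_lit 11824404982278817579007)) (T.h (P (nat_lit 0)) (M (nat_lit 1940300321947647))))) (T.h (P (nat_lit 0)) (T.h (T.h (P (nat_lit 0)) (M (nat_lit 6806374653853695))) (P (nat_lit 0))))) (T.h (T.h (P (nat_lit 0)) (M (nat_lit 7924019583034327039))) (T.h (T.h (T.h (P (nat_lit 0)) (M (nat_lit 1027658480451583))) (P (nat_lit 0))) (P (nat_lit 0))))))), (T.h (T.h (T.h (M (nat_lit 338361714180115004849106452479)) (T.h (P (nat_lit 0)) (T.h (P (nat_lit 2603676508804139699929088)) (T.h (P (nat_lit 0)) (P (nat_lit 287525050649673728)))))) (T.h (P (nat_lit 0)) (T.h (T.h (P (nat_lit 7992072388334565537611776)) (T.h (P (nat_lit 0)) (P (nat_lit 621163191484809216)))) (T.h (P (nat_lit 0)) (P (nat_lit 3286178180813029376)))))) (T.h (T.h (P (nat_lit 0)) (T.h (T.h (P (nat_lit 0)) (T.h (P (nat_lit 44631809005452154372096))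 (T.h (P (nat_lit 0)) (P (nat_lit 21157774929887232))))) (T.h (P (nat_lit 0)) (T.h (T.h (P (nat_lit 0)) (P (nat_lit 3431794116395008))) (P (nat_lit 0)))))) (T.h (T.h (T.h (P (nat_lit 0)) (T.h (P (nat_lit 0)) (M (nat_lit 25365486172786130943)))) (T.h (P (nat_lit 0)) (M (nat_lit 5653982591758368767)))) (T.h (T.h (P (nat_lit 0)) (T.h (T.h (P (nat_lit 0)) (P (nat_lit 14212069352800256))) (P (nat_lit 0)))) (P (nat_lit 823250967452450816)))))), (T.h (T.h (T.h (P (nat_lit 0)) (T.h (P (nat_lit 3735944699976290291876364288)) (T.h (P (nat_lit 0)) (T.h (M (nat_lit 12711068152419347070975)) (T.h (P (nat_lit 0)) (P (nat_lit 6193401770803200))))))) (T.h (P (nat_lit 0)) (T.h (T.h (P (nat_lit 0)) (T.h (P (nat_lit 3434406944769488977920)) (T.h (P (nat_lit 0)) (P (nat_lit 5875308216451072))))) (T.h (P (nat_lit 0)) (T.h (T.h (P (nat_lit 0)) (P (nat_lit 1249966879408128))) (P (nat_lit 0))))))) (T.h (T.h (P (nat_lit 0)) (T.h (T.h (P (nat_lit 13141655625837937975885824)) (T.h (P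 (nat_lit 0)) (P (nat_lit 32193241223916421120)))) (T.h (P (nat_lit 0)) (P (nat_lit 876166944988856320))))) (T.h (T.h (T.h (P (nat_lit 0)) (T.h (M (nat_lit 5909524652010437083135)) (T.h (P (nat_lit 0)) (P (nat_lit 19208907123326976))))) (P (nat_lit 0))) (T.h (T.h (P (nat_lit 0)) (P (nat_lit 4788280243653705728))) (T.h (T.h (T.h (P (nat_lit 0)) (M (nat_lit 2209956775591935))) (P (nat_lit 0))) (P (nat_lit 0))))))), (T.h (T.h (T.h (M (nat_lit 14856572718678401679984347316223)) (T.h (P (nat_lit 0)) (T.h (M (nat_lit 9143594504065898468343807)) (T.h (P (nat_lit 0)) (P (nat_lit 5994328141479280640)))))) (T.h (P (nat_lit 0)) (T.h (T.h (P (nat_lit 146258586246510312161280)) (T.h (P (nat_lit 0)) (P (nat_lit 6245178489742295040)))) (T.h (P (nat_lit 0)) (M (nat_lit 111010873010552831)))))) (T.h (T.h (P (nat_lit 0)) (T.h (T.h (P (nat_lit 0)) (P (nat_lit 10406685990088444215296))) (P (nat_lit 0)))) (T.h (T.h (T.h (M (nat_lit 430512853632606770561023)) (T.h (P (nat_lit 0))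 (P (nat_lit 14012339163622277120)))) (T.h (P (nat_lit 0)) (M (nat_lit 716194899120095231)))) (T.h (P (nat_lit 0)) (M (nat_lit 458076090124992511)))))), (P (nat_lit 0))]
def lQp_3 : List (T ℤ) := [(P (nat_lit 0)), (T.h (T.h (P (nat_lit 0)) (T.h (T.h (P (nat_lit 0)) (T.h (M (nat_lit 9930660340720679142817791)) (T.h (P (nat_lit 0)) (P (nat_lit 4498897606964936704))))) (T.h (P (nat_lit 0)) (T.h (T.h (P (nat_lit 0)) (P (nat_lit 5817303471073787904))) (P (nat_lit 0)))))) (T.h (T.h (T.h (P (nat_lit 2874759264551899117903675392)) (T.h (P (nat_lit 0)) (T.h (P (nat_lit 1940289171074890858496)) (T.h (P (nat_lit 0)) (M (nat_lit 1082473110175743)))))) (T.h (P (nat_lit 0)) (T.h (T.h (P (nat_lit 7643476739830000386048)) (T.h (P (nat_lit 0)) (M (nat_lit 2788580132061183)))) (T.h (P (nat_lit 0)) (M (nat_lit 5476709220483071)))))) (T.h (T.h (P (nat_lit 0)) (T.h (T.h (P (nat_lit 0)) (M (nat_lit 717555307059871743))) (P (nat_lit 0)))) (T.h (T.h (T.h (M (nat_lit 738474885769798352895))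 (T.h (P (nat_lit 0)) (P (nat_lit 622586800177152)))) (T.h (P (nat_lit 0)) (P (nat_lit 4065623452418048)))) (T.h (P (nat_lit 0)) (M (nat_lit 853826605940735))))))), (T.h (T.h (P (nat_lit 0)) (T.h (T.h (M (nat_lit 2893234167580437187150217215)) (T.h (P (nat_lit 0)) (T.h (P (nat_lit 13617996589596695068672)) (T.h (P (nat_lit 0)) (M (nat_lit 2004594498371583)))))) (T.h (P (nat_lit 0)) (T.h (T.h (P (nat_lit 4887624969485354532864)) (T.h (P (nat_lit 0)) (M (nat_lit 6314639862071295)))) (T.h (P (nat_lit 0)) (M (nat_lit 842086408290303))))))) (T.h (T.h (T.h (P (nat_lit 0)) (T.h (M (nat_lit 6345143623172862576164863)) (T.h (P (nat_lit 0)) (M (nat_lit 7388629735611301887))))) (T.h (P (nat_lit 0)) (T.h (T.h (P (nat_lit 0)) (M (nat_lit 50860561505563181055))) (P (nat_lit 0))))) (T.h (T.h (P (nat_lit 0)) (T.h (T.h (M (nat_lit 11824404982278817579007)) (T.h (P (nat_lit 0)) (M (nat_lit 6806374653853695)))) (T.h (P (nat_lit 0)) (M (nat_lit 1940300321947647))))) (T.h (T.h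 (T.h (P (nat_lit 0)) (M (nat_lit 7924019583034327039))) (P (nat_lit 0))) (T.h (T.h (P (nat_lit 0)) (M (nat_lit 1027658480451583))) (P (nat_lit 0))))))), (T.h (T.h (P (nat_lit 0)) (T.h (T.h (P (nat_lit 0)) (T.h (P (nat_lit 21119259783786610263326720)) (T.h (P (nat_lit 0)) (M (nat_lit 6992613337276088319))))) (T.h (P (nat_lit 0)) (T.h (T.h (P (nat_lit 0)) (M (nat_lit 6992613337276088319))) (P (nat_lit 0)))))) (T.h (T.h (T.h (P (nat_lit 895513046034761536558333952)) (T.h (P (nat_lit 0)) (T.h (M (nat_lit 6463124172456798978047)) (T.h (P (nat_lit 0)) (P (nat_lit 3126952219639808)))))) (T.h (P (nat_lit 0)) (T.h (T.h (M (nat_lit 6463124172456798978047)) (T.h (P (nat_lit 0)) (P (nat_lit 12393691856896000)))) (T.h (P (nat_lit 0)) (P (nat_lit 3126952219639808)))))) (T.h (T.h (P (nat_lit 0)) (T.h (T.h (P (nat_lit 0)) (M (nat_lit 40155659876563943423))) (P (nat_lit 0)))) (T.h (T.h (T.h (M (nat_lit 8232267397385362079743)) (T.h (P (nat_lit 0)) (M (nat_lit 2953990688538623))))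 (T.h (P (nat_lit 0)) (M (nat_lit 2953990688538623)))) (T.h (P (nat_lit 0)) (P (nat_lit 2099127109287936))))))), (T.h (T.h (P (nat_lit 0)) (T.h (T.h (M (nat_lit 45104481563519293712781803519)) (T.h (P (nat_lit 0)) (T.h (M (nat_lit 15760965022728488747007)) (T.h (P (nat_lit 0)) (P (nat_lit 314325677375488)))))) (T.h (P (nat_lit 0)) (T.h (T.h (P (nat_lit 6284115532348582264832)) (T.h (P (nat_lit 0)) (P (nat_lit 9176005225218048)))) (T.h (P (nat_lit 0)) (P (nat_lit 278797762428928))))))) (T.h (T.h (T.h (P (nat_lit 0)) (T.h (P (nat_lit 29437568468312463620702208)) (T.h (P (nat_lit 0)) (P (nat_lit 13596485790493310976))))) (T.h (P (nat_lit 0)) (T.h (T.h (P (nat_lit 0)) (P (nat_lit 27921786404926914560))) (P (nat_lit 0))))) (T.h (T.h (P (nat_lit 0)) (T.h (T.h (M (nat_lit 452581749181831446527)) (T.h (P (nat_lit 0)) (P (nat_lit 66998657318125568)))) (T.h (P (nat_lit 0)) (P (nat_lit 629802396286976))))) (T.h (T.h (T.h (P (nat_lit 0)) (P (nat_lit 17039829687691378688)))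 (P (nat_lit 0))) (T.h (T.h (P (nat_lit 0)) (M (nat_lit 1633424815423487))) (P (nat_lit 0))))))), (T.h (T.h (P (nat_lit 0)) (T.h (T.h (P (nat_lit 0)) (T.h (M (nat_lit 6774779893922198139699199)) (T.h (P (nat_lit 0)) (P (nat_lit 3330027300455448576))))) (T.h (P (nat_lit 0)) (T.h (T.h (P (nat_lit 0)) (P (nat_lit 5978080759825563648))) (P (nat_lit 0)))))) (T.h (T.h (T.h (P (nat_lit 4847912892436371908541284352)) (T.h (P (nat_lit 0)) (P (nat_lit 7689282402489485754368)))) (T.h (P (nat_lit 0)) (P (nat_lit 4520338283428990418944)))) (T.h (T.h (P (nat_lit 0)) (T.h (T.h (P (nat_lit 0)) (P (nat_lit 34303312546880290816))) (P (nat_lit 0)))) (P (nat_lit 3937142110085665783808))))), (P (nat_lit 0)), (P (nat_lit 0))]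
def lQp_4 : List (T ℤ) := [(T.h (T.h (T.h (P (nat_lit 96674775480032858528316129280)) (T.h (P (nat_lit 0)) (T.h (M (nat_lit 817570893295480970674175)) (T.h (P (nat_lit 0)) (M (nat_lit 692532370447794175)))))) (T.h (P (nat_lit 0)) (T.h (T.h (M (nat_lit 1539936402037090780446719)) (T.h (P (nat_lit 0)) (P (nat_lit 712178620038119424)))) (T.h (P (nat_lit 0)) (M (nat_lit 86536408218468351)))))) (T.h (T.h (P (nat_lit 0)) (T.h (T.h (P (nat_lit 0)) (T.h (M (nat_lit 2618989352391739965439)) (T.h (P (nat_lit 0)) (M (nat_lit 129461949038591))))) (T.h (P (nat_lit 0)) (T.h (T.h (P (nat_lit 0)) (M (nat_lit 294768566599679))) (P (nat_lit 0)))))) (T.h (T.h (T.h (M (nat_lit 817570893295480970674175)) (T.h (P (nat_lit 0)) (P (nat_lit 3310063201005076480)))) (T.h (P (nat_lit 0)) (P (nat_lit 712178620038119424)))) (T.h (T.h (P (nat_lit 0)) (T.h (T.h (P (nat_lit 0)) (M (nat_lit 129461949038591))) (P (nat_lit 0)))) (M (nat_lit 692532370447794175)))))), (T.h (T.h (T.h (P (nat_lit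 0)) (T.h (P (nat_lit 53881732118352720053892284416)) (T.h (P (nat_lit 0)) (T.h (M (nat_lit 1138092656815090171903)) (T.h (P (nat_lit 0)) (P (nat_lit 453536361119744))))))) (T.h (P (nat_lit 0)) (T.h (T.h (P (nat_lit 0)) (T.h (P (nat_lit 4044796161900521979904)) (T.h (P (nat_lit 0)) (M (nat_lit 4746482182750207))))) (T.h (P (nat_lit 0)) (T.h (T.h (P (nat_lit 0)) (P (nat_lit 7839521280917504))) (P (nat_lit 0))))))) (T.h (T.h (P (nat_lit 0)) (T.h (T.h (P (nat_lit 6257322254999635160465408)) (T.h (P (nat_lit 0)) (M (nat_lit 778044669081681919)))) (T.h (P (nat_lit 0)) (M (nat_lit 18700725765254676479))))) (T.h (T.h (T.h (P (nat_lit 0)) (T.h (P (nat_lit 1180029681764931731456)) (T.h (P (nat_lit 0)) (P (nat_lit 444352593395712))))) (T.h (P (nat_lit 0)) (T.h (T.h (P (nat_lit 0)) (M (nat_lit 12727986820939775))) (P (nat_lit 0))))) (T.h (T.h (P (nat_lit 0)) (P (nat_lit 6181027965124476928))) (T.h (T.h (T.h (P (nat_lit 0)) (P (nat_lit 430876221964288))) (P (nat_lit 0)))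 (P (nat_lit 0))))))), (T.h (T.h (T.h (M (nat_lit 338361714180115004849106452479)) (T.h (P (nat_lit 0)) (T.h (P (nat_lit 7992072388334565537611776)) (T.h (P (nat_lit 0)) (P (nat_lit 3286178180813029376)))))) (T.h (P (nat_lit 0)) (T.h (T.h (P (nat_lit 2603676508804139699929088)) (T.h (P (nat_lit 0)) (P (nat_lit 621163191484809216)))) (T.h (P (nat_lit 0)) (P (nat_lit 287525050649673728)))))) (T.h (T.h (P (nat_lit 0)) (T.h (T.h (P (nat_lit 0)) (T.h (P (nat_lit 44631809005452154372096)) (T.h (P (nat_lit 0)) (P (nat_lit 3431794116395008))))) (T.h (P (nat_lit 0)) (T.h (T.h (P (nat_lit 0)) (P (nat_lit 21157774929887232))) (P (nat_lit 0)))))) (T.h (T.h (T.h (P (nat_lit 0)) (T.h (P (nat_lit 0)) (M (nat_lit 5653982591758368767)))) (T.h (P (nat_lit 0)) (M (nat_lit 25365486172786130943)))) (T.h (T.h (P (nat_lit 0)) (T.h (T.h (P (nat_lit 0)) (P (nat_lit 14212069352800256))) (P (nat_lit 0)))) (P (nat_lit 823250967452450816)))))), (T.h (T.h (T.h (P (nat_lit 0)) (T.h (M (nat_lit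 45104481563519293712781803519)) (T.h (P (nat_lit 0)) (T.h (P (nat_lit 6284115532348582264832)) (T.h (P (nat_lit 0)) (P (nat_lit 278797762428928))))))) (T.h (P (nat_lit 0)) (T.h (T.h (P (nat_lit 0)) (T.h (M (nat_lit 15760965022728488747007)) (T.h (P (nat_lit 0)) (P (nat_lit 9176005225218048))))) (T.h (P (nat_lit 0)) (T.h (T.h (P (nat_lit 0)) (P (nat_lit 314325677375488))) (P (nat_lit 0))))))) (T.h (T.h (P (nat_lit 0)) (T.h (T.h (P (nat_lit 29437568468312463620702208)) (T.h (P (nat_lit 0)) (P (nat_lit 27921786404926914560)))) (T.h (P (nat_lit 0)) (P (nat_lit 13596485790493310976))))) (T.h (T.h (T.h (P (nat_lit 0)) (T.h (M (nat_lit 452581749181831446527)) (T.h (P (nat_lit 0)) (P (nat_lit 629802396286976))))) (T.h (P (nat_lit 0)) (T.h (T.h (P (nat_lit 0)) (P (nat_lit 66998657318125568))) (P (nat_lit 0))))) (T.h (T.h (P (nat_lit 0)) (P (nat_lit 17039829687691378688))) (T.h (T.h (T.h (P (nat_lit 0)) (M (nat_lit 1633424815423487))) (P (nat_lit 0))) (P (nat_lit 0))))))),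 (T.h (T.h (T.h (M (nat_lit 27591110730411258944789057372159)) (T.h (P (nat_lit 0)) (T.h (M (nat_lit 1194656571771072035160063)) (T.h (P (nat_lit 0)) (P (nat_lit 437328509317152768)))))) (T.h (P (nat_lit 0)) (T.h (T.h (M (nat_lit 1194656571771072035160063)) (T.h (P (nat_lit 0)) (P (nat_lit 14094344025934921728)))) (T.h (P (nat_lit 0)) (P (nat_lit 437328509317152768)))))) (T.h (T.h (P (nat_lit 0)) (T.h (T.h (P (nat_lit 0)) (P (nat_lit 18081353133715961675776))) (P (nat_lit 0)))) (T.h (T.h (T.h (P (nat_lit 2432566270557964294160384)) (T.h (P (nat_lit 0)) (P (nat_lit 17635344513788542976)))) (T.h (P (nat_lit 0)) (P (nat_lit 17635344513788542976)))) (T.h (P (nat_lit 0)) (M (nat_lit 836313505496825855)))))), (P (nat_lit 0)), (P (nat_lit 0)), (T.h (T.h (P (nat_lit 0)) (T.h (T.h (M (nat_lit 1109688626837800921969197055)) (T.h (P (nat_lit 0)) (T.h (M (nat_lit 1012050865393395302399)) (T.h (P (nat_lit 0)) (P (nat_lit 119998737022976)))))) (T.h (P (nat_lit 0)) (T.h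 (T.h (P (nat_lit 1632973904196313022464)) (T.h (P (nat_lit 0)) (M (nat_lit 2515445769142271)))) (T.h (P (nat_lit 0)) (M (nat_lit 1548350442700799))))))) (T.h (T.h (T.h (P (nat_lit 0)) (T.h (M (nat_lit 1240065049510957740457983)) (T.h (P (nat_lit 0)) (P (nat_lit 170667393696137216))))) (T.h (P (nat_lit 0)) (T.h (T.h (P (nat_lit 0)) (P (nat_lit 5646720424898199552))) (P (nat_lit 0))))) (T.h (T.h (P (nat_lit 0)) (T.h (T.h (M (nat_lit 1012050865393395302399)) (T.h (P (nat_lit 0)) (M (nat_lit 10794187433312255)))) (T.h (P (nat_lit 0)) (M (nat_lit 2515445769142271))))) (T.h (T.h (T.h (P (nat_lit 0)) (P (nat_lit 170667393696137216))) (P (nat_lit 0))) (T.h (T.h (P (nat_lit 0)) (P (nat_lit 119998737022976))) (P (nat_lit 0)))))))]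
def lQp_5 : List (T ℤ) := [(T.h (T.h (P (nat_lit 0)) (T.h (T.h (P (nat_lit 0)) (T.h (P (nat_lit 12476825063754065334239232)) (T.h (P (nat_lit 0)) (M (nat_lit 739178953956130815))))) (T.h (P (nat_lit 0)) (T.h (T.h (P (nat_lit 0)) (M (nat_lit 486026124057378815))) (P (nat_lit 0)))))) (T.h (T.h (T.h (M (nat_lit 3383368649401081921863155711)) (T.h (P (nat_lit 0)) (T.h (M (nat_lit 4611647519577497141247)) (T.h (P (nat_lit 0)) (M (nat_lit 109270719660031)))))) (T.h (P (nat_lit 0)) (T.h (T.h (M (nat_lit 12643918027596247334911)) (T.h (P (nat_lit 0)) (M (nat_lit 8840244534575103)))) (T.h (P (nat_lit 0)) (P (nat_lit 9250554945142784)))))) (T.h (T.h (P (nat_lit 0)) (T.h (T.h (P (nat_lit 0)) (M (nat_lit 3731576025025347583))) (P (nat_lit 0)))) (T.h (T.h (T.h (P (nat_lit 1055328876714705027072)) (T.h (P (nat_lit 0)) (M (nat_lit 237439028822015)))) (T.h (P (nat_lit 0)) (M (nat_lit 4362756073783295)))) (T.h (P (nat_lit 0)) (P (nat_lit 969414783074304))))))), (T.h (T.h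 (P (nat_lit 0)) (T.h (T.h (P (nat_lit 3735944699976290291876364288)) (T.h (P (nat_lit 0)) (T.h (P (nat_lit 3434406944769488977920)) (T.h (P (nat_lit 0)) (P (nat_lit 1249966879408128)))))) (T.h (P (nat_lit 0)) (T.h (T.h (M (nat_lit 12711068152419347070975)) (T.h (P (nat_lit 0)) (P (nat_lit 5875308216451072)))) (T.h (P (nat_lit 0)) (P (nat_lit 6193401770803200))))))) (T.h (T.h (T.h (P (nat_lit 0)) (T.h (P (nat_lit 13141655625837937975885824)) (T.h (P (nat_lit 0)) (P (nat_lit 876166944988856320))))) (T.h (P (nat_lit 0)) (T.h (T.h (P (nat_lit 0)) (P (nat_lit 32193241223916421120))) (P (nat_lit 0))))) (T.h (T.h (P (nat_lit 0)) (T.h (M (nat_lit 5909524652010437083135)) (T.h (P (nat_lit 0)) (P (nat_lit 19208907123326976))))) (T.h (T.h (T.h (P (nat_lit 0)) (P (nat_lit 4788280243653705728))) (P (nat_lit 0))) (T.h (T.h (P (nat_lit 0)) (M (nat_lit 2209956775591935))) (P (nat_lit 0))))))), (T.h (T.h (P (nat_lit 0)) (T.h (T.h (P (nat_lit 0)) (T.h (M (nat_lit 6774779893922198139699199))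 (T.h (P (nat_lit 0)) (P (nat_lit 5978080759825563648))))) (T.h (P (nat_lit 0)) (T.h (T.h (P (nat_lit 0)) (P (nat_lit 3330027300455448576))) (P (nat_lit 0)))))) (T.h (T.h (T.h (P (nat_lit 4847912892436371908541284352)) (T.h (P (nat_lit 0)) (P (nat_lit 4520338283428990418944)))) (T.h (P (nat_lit 0)) (P (nat_lit 7689282402489485754368)))) (T.h (T.h (P (nat_lit 0)) (T.h (T.h (P (nat_lit 0)) (P (nat_lit 34303312546880290816))) (P (nat_lit 0)))) (P (nat_lit 3937142110085665783808))))), (P (nat_lit 0)), (P (nat_lit 0)), (T.h (T.h (T.h (M (nat_lit 5102271648357133609590386065407)) (T.h (P (nat_lit 0)) (T.h (P (nat_lit 762840448463898280984576)) (T.h (P (nat_lit 0)) (P (nat_lit 675307117015465984)))))) (T.h (P (nat_lit 0)) (T.h (T.h (P (nat_lit 3670530845706316062654464)) (T.h (P (nat_lit 0)) (M (nat_lit 992840272415031295)))) (T.h (P (nat_lit 0)) (M (nat_lit 1509074362290929663)))))) (T.h (T.h (P (nat_lit 0)) (T.h (T.h (P (nat_lit 0)) (P (nat_lit 2099872552613090164736)))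 (P (nat_lit 0)))) (T.h (T.h (T.h (P (nat_lit 762840448463898280984576)) (T.h (P (nat_lit 0)) (M (nat_lit 6886114660404166655)))) (T.h (P (nat_lit 0)) (M (nat_lit 992840272415031295)))) (T.h (P (nat_lit 0)) (P (nat_lit 675307117015465984)))))), (T.h (T.h (T.h (P (nat_lit 0)) (T.h (M (nat_lit 53919904888201650914528854015)) (T.h (P (nat_lit 0)) (T.h (P (nat_lit 873530666480291545088)) (T.h (P (nat_lit 0)) (M (nat_lit 336720620421119))))))) (T.h (P (nat_lit 0)) (T.h (T.h (P (nat_lit 0)) (T.h (M (nat_lit 9395881727339121344511)) (T.h (P (nat_lit 0)) (P (nat_lit 2256434608734208))))) (T.h (P (nat_lit 0)) (T.h (T.h (P (nat_lit 0)) (M (nat_lit 7551664551362559))) (P (nat_lit 0))))))) (T.h (T.h (P (nat_lit 0)) (T.h (T.h (M (nat_lit 1668310685256554960125951)) (T.h (P (nat_lit 0)) (M (nat_lit 3642813229240942591)))) (T.h (P (nat_lit 0)) (P (nat_lit 20098914546582814720))))) (T.h (T.h (T.h (P (nat_lit 0)) (T.h (M (nat_lit 2539739606505924591615)) (T.h (P (nat_lit 0))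 (M (nat_lit 932545441562623))))) (T.h (P (nat_lit 0)) (T.h (T.h (P (nat_lit 0)) (M (nat_lit 2891021512081407))) (P (nat_lit 0))))) (T.h (T.h (P (nat_lit 0)) (M (nat_lit 2552835554030911487))) (T.h (T.h (T.h (P (nat_lit 0)) (P (nat_lit 420597048541184))) (P (nat_lit 0))) (P (nat_lit 0))))))), (T.h (T.h (T.h (M (nat_lit 14856572718678401679984347316223)) (T.h (P (nat_lit 0)) (T.h (P (nat_lit 146258586246510312161280)) (T.h (P (nat_lit 0)) (M (nat_lit 111010873010552831)))))) (T.h (P (nat_lit 0)) (T.h (T.h (M (nat_lit 9143594504065898468343807)) (T.h (P (nat_lit 0)) (P (nat_lit 6245178489742295040)))) (T.h (P (nat_lit 0)) (P (nat_lit 5994328141479280640)))))) (T.h (T.h (P (nat_lit 0)) (T.h (T.h (P (nat_lit 0)) (P (nat_lit 10406685990088444215296))) (P (nat_lit 0)))) (T.h (T.h (T.h (M (nat_lit 430512853632606770561023)) (T.h (P (nat_lit 0)) (M (nat_lit 716194899120095231)))) (T.h (P (nat_lit 0)) (P (nat_lit 14012339163622277120)))) (T.h (P (nat_lit 0)) (M (nat_lit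 458076090124992511))))))]
def lQp_6 : List (T ℤ) := [(P (nat_lit 0)), (P (nat_lit 0)), (T.h (T.h (P (nat_lit 0)) (P (nat_lit 1261515900548784767341953024))) (T.h (T.h (T.h (P (nat_lit 0)) (P (nat_lit 1072738038739656689844224))) (P (nat_lit 0))) (T.h (T.h (P (nat_lit 0)) (T.h (T.h (P (nat_lit 0)) (T.h (P (nat_lit 0)) (P (nat_lit 14392249911083008)))) (P (nat_lit 0)))) (P (nat_lit 0))))), (T.h (T.h (P (nat_lit 0)) (T.h (T.h (P (nat_lit 0)) (T.h (M (nat_lit 1514619882854388970029055)) (T.h (P (nat_lit 0)) (P (nat_lit 1155294519671914496))))) (T.h (P (nat_lit 0)) (T.h (T.h (P (nat_lit 0)) (M (nat_lit 7732904500595261439))) (P (nat_lit 0)))))) (T.h (T.h (T.h (P (nat_lit 471536197744369659130413056)) (T.h (P (nat_lit 0)) (P (nat_lit 391678135183836446720)))) (T.h (P (nat_lit 0)) (P (nat_lit 7121757884211567525888)))) (T.h (T.h (P (nat_lit 0)) (T.h (T.h (P (nat_lit 0)) (P (nat_lit 5888628940288819200))) (P (nat_lit 0)))) (P (nat_lit 0))))), (P (nat_lit 0)), (P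 (nat_lit 0)), (T.h (P (nat_lit 0)) (T.h (P (nat_lit 0)) (T.h (T.h (T.h (P (nat_lit 0)) (T.h (P (nat_lit 0)) (P (nat_lit 3684415977237250048)))) (P (nat_lit 0))) (P (nat_lit 0))))), (P (nat_lit 0))]
def lQp_7 : List (T ℤ) := [(P (nat_lit 0)), (P (nat_lit 0)), (P (nat_lit 0)), (P (nat_lit 0)), (T.h (T.h (P (nat_lit 0)) (T.h (T.h (P (nat_lit 2874759264551899117903675392)) (T.h (P (nat_lit 0)) (T.h (P (nat_lit 7643476739830000386048)) (T.h (P (nat_lit 0)) (M (nat_lit 5476709220483071)))))) (T.h (P (nat_lit 0)) (T.h (T.h (M (nat_lit 738474885769798352895)) (T.h (P (nat_lit 0)) (P (nat_lit 4065623452418048)))) (T.h (P (nat_lit 0)) (M (nat_lit 853826605940735))))))) (T.h (T.h (T.h (P (nat_lit 0)) (T.h (M (nat_lit 9930660340720679142817791)) (T.h (P (nat_lit 0)) (P (nat_lit 5817303471073787904))))) (T.h (P (nat_lit 0)) (T.h (T.h (P (nat_lit 0)) (M (nat_lit 717555307059871743))) (P (nat_lit 0))))) (T.h (T.h (P (nat_lit 0)) (T.h (T.h (P (nat_lit 1940289171074890858496))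 (T.h (P (nat_lit 0)) (M (nat_lit 2788580132061183)))) (T.h (P (nat_lit 0)) (P (nat_lit 622586800177152))))) (T.h (T.h (T.h (P (nat_lit 0)) (P (nat_lit 4498897606964936704))) (P (nat_lit 0))) (T.h (T.h (P (nat_lit 0)) (M (nat_lit 1082473110175743))) (P (nat_lit 0))))))), (T.h (T.h (P (nat_lit 0)) (T.h (T.h (P (nat_lit 0)) (T.h (P (nat_lit 6257322254999635160465408)) (T.h (P (nat_lit 0)) (M (nat_lit 18700725765254676479))))) (T.h (P (nat_lit 0)) (T.h (T.h (P (nat_lit 0)) (P (nat_lit 6181027965124476928))) (P (nat_lit 0)))))) (T.h (T.h (T.h (P (nat_lit 53881732118352720053892284416)) (T.h (P (nat_lit 0)) (T.h (P (nat_lit 4044796161900521979904)) (T.h (P (nat_lit 0)) (P (nat_lit 7839521280917504)))))) (T.h (P (nat_lit 0)) (T.h (T.h (P (nat_lit 1180029681764931731456)) (T.h (P (nat_lit 0)) (M (nat_lit 12727986820939775)))) (T.h (P (nat_lit 0)) (P (nat_lit 430876221964288)))))) (T.h (T.h (P (nat_lit 0)) (T.h (T.h (P (nat_lit 0)) (M (nat_lit 778044669081681919)))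 (P (nat_lit 0)))) (T.h (T.h (T.h (M (nat_lit 1138092656815090171903)) (T.h (P (nat_lit 0)) (M (nat_lit 4746482182750207)))) (T.h (P (nat_lit 0)) (P (nat_lit 444352593395712)))) (T.h (P (nat_lit 0)) (P (nat_lit 453536361119744))))))), (T.h (T.h (P (nat_lit 0)) (T.h (T.h (M (nat_lit 3383368649401081921863155711)) (T.h (P (nat_lit 0)) (T.h (M (nat_lit 12643918027596247334911)) (T.h (P (nat_lit 0)) (P (nat_lit 9250554945142784)))))) (T.h (P (nat_lit 0)) (T.h (T.h (P (nat_lit 1055328876714705027072)) (T.h (P (nat_lit 0)) (M (nat_lit 4362756073783295)))) (T.h (P (nat_lit 0)) (P (nat_lit 969414783074304))))))) (T.h (T.h (T.h (P (nat_lit 0)) (T.h (P (nat_lit 12476825063754065334239232)) (T.h (P (nat_lit 0)) (M (nat_lit 486026124057378815))))) (T.h (P (nat_lit 0)) (T.h (T.h (P (nat_lit 0)) (M (nat_lit 3731576025025347583))) (P (nat_lit 0))))) (T.h (T.h (P (nat_lit 0)) (T.h (T.h (M (nat_lit 4611647519577497141247)) (T.h (P (nat_lit 0)) (M (nat_lit 8840244534575103))))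 (T.h (P (nat_lit 0)) (M (nat_lit 237439028822015))))) (T.h (T.h (T.h (P (nat_lit 0)) (M (nat_lit 739178953956130815))) (P (nat_lit 0))) (T.h (T.h (P (nat_lit 0)) (M (nat_lit 109270719660031))) (P (nat_lit 0))))))), (T.h (T.h (P (nat_lit 0)) (T.h (T.h (P (nat_lit 0)) (T.h (M (nat_lit 1668310685256554960125951)) (T.h (P (nat_lit 0)) (P (nat_lit 20098914546582814720))))) (T.h (P (nat_lit 0)) (T.h (T.h (P (nat_lit 0)) (M (nat_lit 2552835554030911487))) (P (nat_lit 0)))))) (T.h (T.h (T.h (M (nat_lit 53919904888201650914528854015)) (T.h (P (nat_lit 0)) (T.h (M (nat_lit 9395881727339121344511)) (T.h (P (nat_lit 0)) (M (nat_lit 7551664551362559)))))) (T.h (P (nat_lit 0)) (T.h (T.h (M (nat_lit 2539739606505924591615)) (T.h (P (nat_lit 0)) (M (nat_lit 2891021512081407)))) (T.h (P (nat_lit 0)) (P (nat_lit 420597048541184)))))) (T.h (T.h (P (nat_lit 0)) (T.h (T.h (P (nat_lit 0)) (M (nat_lit 3642813229240942591))) (P (nat_lit 0)))) (T.h (T.h (T.h (P (nat_lit 873530666480291545088))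 (T.h (P (nat_lit 0)) (P (nat_lit 2256434608734208)))) (T.h (P (nat_lit 0)) (M (nat_lit 932545441562623)))) (T.h (P (nat_lit 0)) (M (nat_lit 336720620421119)))))))]
def lQp_8 : List (T ℤ) := [(T.h (T.h (P (nat_lit 0)) (T.h (T.h (P (nat_lit 471536197744369659130413056)) (T.h (P (nat_lit 0)) (P (nat_lit 7121757884211567525888)))) (P (nat_lit 0)))) (T.h (T.h (T.h (P (nat_lit 0)) (T.h (M (nat_lit 1514619882854388970029055)) (T.h (P (nat_lit 0)) (M (nat_lit 7732904500595261439))))) (T.h (P (nat_lit 0)) (T.h (T.h (P (nat_lit 0)) (P (nat_lit 5888628940288819200))) (P (nat_lit 0))))) (T.h (T.h (P (nat_lit 0)) (P (nat_lit 391678135183836446720))) (T.h (T.h (T.h (P (nat_lit 0)) (P (nat_lit 1155294519671914496))) (P (nat_lit 0))) (P (nat_lit 0)))))), (P (nat_lit 0)), (P (nat_lit 0)), (T.h (T.h (T.h (P (nat_lit 0)) (T.h (P (nat_lit 0)) (T.h (P (nat_lit 0)) (T.h (P (nat_lit 0)) (T.h (P (nat_lit 0)) (M (nat_lit 955482939457535))))))) (T.h (P (nat_lit 0)) (T.h (T.h (P (nat_lit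 0)) (T.h (M (nat_lit 4023288376355572416511)) (T.h (P (nat_lit 0)) (P (nat_lit 17746068228407296))))) (T.h (P (nat_lit 0)) (T.h (T.h (P (nat_lit 0)) (M (nat_lit 5123191855120383))) (P (nat_lit 0))))))) (T.h (T.h (P (nat_lit 0)) (T.h (T.h (P (nat_lit 64503246115057485794508800)) (T.h (P (nat_lit 0)) (P (nat_lit 12938633457344446464)))) (T.h (P (nat_lit 0)) (P (nat_lit 795046254307442688))))) (T.h (T.h (T.h (P (nat_lit 0)) (T.h (M (nat_lit 4023288376355572416511)) (T.h (P (nat_lit 0)) (P (nat_lit 17746068228407296))))) (T.h (P (nat_lit 0)) (T.h (T.h (P (nat_lit 0)) (M (nat_lit 8245414944309247))) (P (nat_lit 0))))) (T.h (T.h (P (nat_lit 0)) (P (nat_lit 795046254307442688))) (T.h (T.h (T.h (P (nat_lit 0)) (M (nat_lit 5123191855120383))) (P (nat_lit 0))) (P (nat_lit 0))))))), (T.h (T.h (T.h (M (nat_lit 11038097195991371679654739967)) (T.h (P (nat_lit 0)) (T.h (P (nat_lit 13123897115103883742412800)) (T.h (P (nat_lit 0)) (M (nat_lit 15962821450868457471))))))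 (T.h (P (nat_lit 0)) (T.h (T.h (M (nat_lit 1931505742482698280108031)) (T.h (P (nat_lit 0)) (M (nat_lit 29470118660504813567)))) (T.h (P (nat_lit 0)) (M (nat_lit 2150600115193118719)))))) (T.h (T.h (P (nat_lit 0)) (T.h (T.h (P (nat_lit 0)) (T.h (P (nat_lit 23138019382606574911488)) (T.h (P (nat_lit 0)) (M (nat_lit 3540630147170303))))) (T.h (P (nat_lit 0)) (T.h (T.h (P (nat_lit 0)) (M (nat_lit 12785404002697215))) (P (nat_lit 0)))))) (T.h (T.h (T.h (M (nat_lit 1931505742482698280108031)) (T.h (P (nat_lit 0)) (M (nat_lit 29470118660504813567)))) (T.h (P (nat_lit 0)) (P (nat_lit 6272402667423662080)))) (T.h (T.h (P (nat_lit 0)) (T.h (T.h (P (nat_lit 0)) (M (nat_lit 12785404002697215))) (P (nat_lit 0)))) (M (nat_lit 2150600115193118719)))))), (T.h (T.h (T.h (P (nat_lit 0)) (T.h (P (nat_lit 8247066503751675425415233536)) (T.h (P (nat_lit 0)) (T.h (M (nat_lit 17156229624079432286207)) (T.h (P (nat_lit 0)) (P (nat_lit 5558297383403520))))))) (T.h (P (nat_lit 0))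 (T.h (T.h (P (nat_lit 0)) (T.h (M (nat_lit 26038473945571815063551)) (T.h (P (nat_lit 0)) (M (nat_lit 5994255547105279))))) (T.h (P (nat_lit 0)) (T.h (T.h (P (nat_lit 0)) (P (nat_lit 4390270459445248))) (P (nat_lit 0))))))) (T.h (T.h (P (nat_lit 0)) (T.h (T.h (M (nat_lit 51384193130259596913410047)) (T.h (P (nat_lit 0)) (M (nat_lit 16527390372616208383)))) (T.h (P (nat_lit 0)) (P (nat_lit 3553031887867871232))))) (T.h (T.h (T.h (P (nat_lit 0)) (T.h (M (nat_lit 26038473945571815063551)) (T.h (P (nat_lit 0)) (M (nat_lit 5994255547105279))))) (T.h (P (nat_lit 0)) (T.h (T.h (P (nat_lit 0)) (P (nat_lit 2683627399806976))) (P (nat_lit 0))))) (T.h (T.h (P (nat_lit 0)) (P (nat_lit 3553031887867871232))) (T.h (T.h (T.h (P (nat_lit 0)) (P (nat_lit 4390270459445248))) (P (nat_lit 0))) (P (nat_lit 0))))))), (T.h (T.h (T.h (P (nat_lit 390739483125010976643779395584)) (T.h (P (nat_lit 0)) (T.h (P (nat_lit 3434534724486922686693376)) (T.h (P (nat_lit 0)) (P (nat_lit 31059065407270813696))))))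 (T.h (P (nat_lit 0)) (T.h (T.h (P (nat_lit 3482884771107621891473408)) (T.h (P (nat_lit 0)) (P (nat_lit 24715385350375079936)))) (T.h (P (nat_lit 0)) (P (nat_lit 3546182552257560576)))))) (T.h (T.h (P (nat_lit 0)) (T.h (T.h (P (nat_lit 0)) (T.h (P (nat_lit 2245742729472155582464)) (T.h (P (nat_lit 0)) (P (nat_lit 6987273630908416))))) (T.h (P (nat_lit 0)) (T.h (T.h (P (nat_lit 0)) (P (nat_lit 7612935747665920))) (P (nat_lit 0)))))) (T.h (T.h (T.h (P (nat_lit 3482884771107621891473408)) (T.h (P (nat_lit 0)) (P (nat_lit 24715385350375079936)))) (T.h (P (nat_lit 0)) (P (nat_lit 954916973173538816)))) (T.h (T.h (P (nat_lit 0)) (T.h (T.h (P (nat_lit 0)) (P (nat_lit 7612935747665920))) (P (nat_lit 0)))) (P (nat_lit 3546182552257560576)))))), (T.h (T.h (T.h (P (nat_lit 0)) (T.h (P (nat_lit 4932787182799620835601547264)) (T.h (P (nat_lit 0)) (P (nat_lit 22683376998001198235648))))) (T.h (P (nat_lit 0)) (T.h (T.h (P (nat_lit 0)) (P (nat_lit 19024528249610334896128)))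 (P (nat_lit 0))))) (T.h (T.h (P (nat_lit 0)) (T.h (T.h (M (nat_lit 469854802530439322927103)) (T.h (P (nat_lit 0)) (P (nat_lit 2405820120166301696)))) (T.h (P (nat_lit 0)) (P (nat_lit 1902139663028584448))))) (T.h (T.h (T.h (P (nat_lit 0)) (P (nat_lit 19024528249610334896128))) (P (nat_lit 0))) (T.h (T.h (P (nat_lit 0)) (P (nat_lit 1902139663028584448))) (P (nat_lit 0))))))]
def lQp_9 : List (T ℤ) := [(P (nat_lit 0)), (P (nat_lit 0)), (T.h (T.h (P (nat_lit 0)) (T.h (T.h (P (nat_lit 0)) (T.h (P (nat_lit 0)) (T.h (M (nat_lit 4023288376355572416511)) (T.h (P (nat_lit 0)) (M (nat_lit 5123191855120383)))))) (T.h (P (nat_lit 0)) (T.h (T.h (P (nat_lit 0)) (T.h (P (nat_lit 0)) (P (nat_lit 17746068228407296)))) (T.h (P (nat_lit 0)) (M (nat_lit 955482939457535))))))) (T.h (T.h (T.h (P (nat_lit 0)) (T.h (P (nat_lit 64503246115057485794508800)) (T.h (P (nat_lit 0)) (P (nat_lit 795046254307442688))))) (T.h (P (nat_lit 0)) (T.h (T.h (P (nat_lit 0)) (P (nat_lit 12938633457344446464)))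 (P (nat_lit 0))))) (T.h (T.h (P (nat_lit 0)) (T.h (T.h (M (nat_lit 4023288376355572416511)) (T.h (P (nat_lit 0)) (M (nat_lit 8245414944309247)))) (T.h (P (nat_lit 0)) (P (nat_lit 17746068228407296))))) (T.h (T.h (T.h (P (nat_lit 0)) (P (nat_lit 795046254307442688))) (P (nat_lit 0))) (T.h (T.h (P (nat_lit 0)) (M (nat_lit 5123191855120383))) (P (nat_lit 0))))))), (T.h (T.h (P (nat_lit 0)) (T.h (T.h (P (nat_lit 0)) (T.h (M (nat_lit 9105435660923275306860543)) (T.h (P (nat_lit 0)) (M (nat_lit 41250178240859865087))))) (T.h (P (nat_lit 0)) (T.h (T.h (P (nat_lit 0)) (M (nat_lit 41250178240859865087))) (P (nat_lit 0)))))) (T.h (T.h (T.h (P (nat_lit 59438437438531874729649766400)) (T.h (P (nat_lit 0)) (T.h (P (nat_lit 28922456933748552237056)) (T.h (P (nat_lit 0)) (M (nat_lit 1374646771777535)))))) (T.h (P (nat_lit 0)) (T.h (T.h (P (nat_lit 28922456933748552237056)) (T.h (P (nat_lit 0)) (P (nat_lit 67137797805441024)))) (T.h (P (nat_lit 0)) (M (nat_lit 1374646771777535))))))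 (T.h (T.h (P (nat_lit 0)) (T.h (T.h (P (nat_lit 0)) (M (nat_lit 34228791505093394431))) (P (nat_lit 0)))) (T.h (T.h (T.h (M (nat_lit 894942791215089713151)) (T.h (P (nat_lit 0)) (P (nat_lit 9245941462695936)))) (T.h (P (nat_lit 0)) (P (nat_lit 9245941462695936)))) (T.h (P (nat_lit 0)) (P (nat_lit 361981759193088))))))), (T.h (T.h (P (nat_lit 0)) (T.h (T.h (M (nat_lit 320690170914270682791542783)) (T.h (P (nat_lit 0)) (T.h (M (nat_lit 124582449805231692709887)) (T.h (P (nat_lit 0)) (P (nat_lit 24021546090364928)))))) (T.h (P (nat_lit 0)) (T.h (T.h (M (nat_lit 17314552546378270113791)) (T.h (P (nat_lit 0)) (M (nat_lit 2130561984954367)))) (T.h (P (nat_lit 0)) (P (nat_lit 533129381019648))))))) (T.h (T.h (T.h (P (nat_lit 0)) (T.h (M (nat_lit 22031725547448854453944319)) (T.h (P (nat_lit 0)) (M (nat_lit 24256595937586053119))))) (T.h (P (nat_lit 0)) (T.h (T.h (P (nat_lit 0)) (P (nat_lit 27009049552740155392))) (P (nat_lit 0))))) (T.h (T.h (P (nat_lit 0)) (T.h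 (T.h (M (nat_lit 434863121499244462079)) (T.h (P (nat_lit 0)) (P (nat_lit 47943131333328896)))) (T.h (P (nat_lit 0)) (M (nat_lit 15861830619299839))))) (T.h (T.h (T.h (P (nat_lit 0)) (M (nat_lit 18945553778490736639))) (P (nat_lit 0))) (T.h (T.h (P (nat_lit 0)) (P (nat_lit 9953874026299392))) (P (nat_lit 0))))))), (T.h (T.h (P (nat_lit 0)) (T.h (T.h (P (nat_lit 0)) (T.h (M (nat_lit 24532106935627370756833279)) (T.h (P (nat_lit 0)) (P (nat_lit 106263290849559314432))))) (T.h (P (nat_lit 0)) (T.h (T.h (P (nat_lit 0)) (P (nat_lit 31353808992878985216))) (P (nat_lit 0)))))) (T.h (T.h (T.h (M (nat_lit 97581074448007982481961648127)) (T.h (P (nat_lit 0)) (T.h (M (nat_lit 64802820902210039185407)) (T.h (P (nat_lit 0)) (M (nat_lit 1884083773767679)))))) (T.h (P (nat_lit 0)) (T.h (T.h (M (nat_lit 15349521856242152112127)) (T.h (P (nat_lit 0)) (M (nat_lit 61369225453240319)))) (T.h (P (nat_lit 0)) (P (nat_lit 3645269363130368)))))) (T.h (T.h (P (nat_lit 0)) (T.h (T.h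 (P (nat_lit 0)) (P (nat_lit 17944080516516937728))) (P (nat_lit 0)))) (T.h (T.h (T.h (M (nat_lit 17261519124186831781887)) (T.h (P (nat_lit 0)) (P (nat_lit 23220420041244672)))) (T.h (P (nat_lit 0)) (M (nat_lit 7192874682679295)))) (T.h (P (nat_lit 0)) (M (nat_lit 2818515274301439))))))), (T.h (T.h (P (nat_lit 0)) (T.h (T.h (M (nat_lit 719817474826572681220980735)) (T.h (P (nat_lit 0)) (P (nat_lit 81404364450585477382144)))) (T.h (P (nat_lit 0)) (P (nat_lit 7669978220490651598848))))) (T.h (T.h (T.h (P (nat_lit 0)) (T.h (M (nat_lit 23740425189703612127772671)) (T.h (P (nat_lit 0)) (P (nat_lit 9694400712317861888))))) (T.h (P (nat_lit 0)) (T.h (T.h (P (nat_lit 0)) (M (nat_lit 25574308777851617279))) (P (nat_lit 0))))) (T.h (T.h (P (nat_lit 0)) (M (nat_lit 5292361548524716818431))) (T.h (T.h (T.h (P (nat_lit 0)) (P (nat_lit 11574770874313605120))) (P (nat_lit 0))) (P (nat_lit 0)))))), (P (nat_lit 0))]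
def lQp_10 : List (T ℤ) := [(P (nat_lit 0)), (T.h (T.h (T.h (P (nat_lit 0)) (T.h (P (nat_lit 2874759264551899117903675392)) (T.h (P (nat_lit 0)) (T.h (M (nat_lit 738474885769798352895)) (T.h (P (nat_lit 0)) (M (nat_lit 853826605940735))))))) (T.h (P (nat_lit 0)) (T.h (T.h (P (nat_lit 0)) (T.h (P (nat_lit 7643476739830000386048)) (T.h (P (nat_lit 0)) (P (nat_lit 4065623452418048))))) (T.h (P (nat_lit 0)) (T.h (T.h (P (nat_lit 0)) (M (nat_lit 5476709220483071))) (P (nat_lit 0))))))) (T.h (T.h (P (nat_lit 0)) (T.h (T.h (M (nat_lit 9930660340720679142817791)) (T.h (P (nat_lit 0)) (M (nat_lit 717555307059871743)))) (T.h (P (nat_lit 0)) (P (nat_lit 5817303471073787904))))) (T.h (T.h (T.h (P (nat_lit 0)) (T.h (P (nat_lit 1940289171074890858496)) (T.h (P (nat_lit 0)) (P (nat_lit 622586800177152))))) (T.h (P (nat_lit 0)) (T.h (T.h (P (nat_lit 0)) (M (nat_lit 2788580132061183))) (P (nat_lit 0))))) (T.h (T.h (P (nat_lit 0)) (P (nat_lit 4498897606964936704))) (T.h (T.h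 (T.h (P (nat_lit 0)) (M (nat_lit 1082473110175743))) (P (nat_lit 0))) (P (nat_lit 0))))))), (T.h (T.h (T.h (M (nat_lit 11038097195991371679654739967)) (T.h (P (nat_lit 0)) (T.h (M (nat_lit 1931505742482698280108031)) (T.h (P (nat_lit 0)) (M (nat_lit 2150600115193118719)))))) (T.h (P (nat_lit 0)) (T.h (T.h (P (nat_lit 13123897115103883742412800)) (T.h (P (nat_lit 0)) (M (nat_lit 29470118660504813567)))) (T.h (P (nat_lit 0)) (M (nat_lit 15962821450868457471)))))) (T.h (T.h (P (nat_lit 0)) (T.h (T.h (P (nat_lit 0)) (T.h (P (nat_lit 23138019382606574911488)) (T.h (P (nat_lit 0)) (M (nat_lit 12785404002697215))))) (T.h (P (nat_lit 0)) (T.h (T.h (P (nat_lit 0)) (M (nat_lit 3540630147170303))) (P (nat_lit 0)))))) (T.h (T.h (T.h (M (nat_lit 1931505742482698280108031)) (T.h (P (nat_lit 0)) (P (nat_lit 6272402667423662080)))) (T.h (P (nat_lit 0)) (M (nat_lit 29470118660504813567)))) (T.h (T.h (P (nat_lit 0)) (T.h (T.h (P (nat_lit 0)) (M (nat_lit 12785404002697215)))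 (P (nat_lit 0)))) (M (nat_lit 2150600115193118719)))))), (T.h (T.h (T.h (P (nat_lit 0)) (T.h (M (nat_lit 320690170914270682791542783)) (T.h (P (nat_lit 0)) (T.h (M (nat_lit 17314552546378270113791)) (T.h (P (nat_lit 0)) (P (nat_lit 533129381019648))))))) (T.h (P (nat_lit 0)) (T.h (T.h (P (nat_lit 0)) (T.h (M (nat_lit 124582449805231692709887)) (T.h (P (nat_lit 0)) (M (nat_lit 2130561984954367))))) (T.h (P (nat_lit 0)) (T.h (T.h (P (nat_lit 0)) (P (nat_lit 24021546090364928))) (P (nat_lit 0))))))) (T.h (T.h (P (nat_lit 0)) (T.h (T.h (M (nat_lit 22031725547448854453944319)) (T.h (P (nat_lit 0)) (P (nat_lit 27009049552740155392)))) (T.h (P (nat_lit 0)) (M (nat_lit 24256595937586053119))))) (T.h (T.h (T.h (P (nat_lit 0)) (T.h (M (nat_lit 434863121499244462079)) (T.h (P (nat_lit 0)) (M (nat_lit 15861830619299839))))) (T.h (P (nat_lit 0)) (T.h (T.h (P (nat_lit 0)) (P (nat_lit 47943131333328896))) (P (nat_lit 0))))) (T.h (T.h (P (nat_lit 0)) (M (nat_lit 18945553778490736639)))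 (T.h (T.h (T.h (P (nat_lit 0)) (P (nat_lit 9953874026299392))) (P (nat_lit 0))) (P (nat_lit 0))))))), (T.h (T.h (T.h (M (nat_lit 5650569602416018221516063768575)) (T.h (P (nat_lit 0)) (T.h (M (nat_lit 36619332756341022001201151)) (T.h (P (nat_lit 0)) (P (nat_lit 8722767057218699264)))))) (T.h (P (nat_lit 0)) (T.h (T.h (M (nat_lit 36619332756341022001201151)) (T.h (P (nat_lit 0)) (P (nat_lit 139330404219585822720)))) (T.h (P (nat_lit 0)) (P (nat_lit 8722767057218699264)))))) (T.h (T.h (P (nat_lit 0)) (T.h (T.h (P (nat_lit 0)) (T.h (M (nat_lit 74030274246512526491647)) (T.h (P (nat_lit 0)) (P (nat_lit 22571703364485120))))) (T.h (P (nat_lit 0)) (T.h (T.h (P (nat_lit 0)) (P (nat_lit 22571703364485120))) (P (nat_lit 0)))))) (T.h (T.h (T.h (P (nat_lit 21754681419217188406951936)) (T.h (P (nat_lit 0)) (M (nat_lit 2488124734957420543)))) (T.h (P (nat_lit 0)) (M (nat_lit 2488124734957420543)))) (T.h (T.h (P (nat_lit 0)) (T.h (T.h (P (nat_lit 0)) (P (nat_lit 64873962961108992)))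 (P (nat_lit 0)))) (P (nat_lit 23002432904995274752)))))), (T.h (T.h (T.h (P (nat_lit 0)) (T.h (M (nat_lit 7305124718430585802427727871)) (T.h (P (nat_lit 0)) (P (nat_lit 20279155672975897788416))))) (T.h (P (nat_lit 0)) (T.h (T.h (P (nat_lit 0)) (P (nat_lit 96236064664401412620288))) (P (nat_lit 0))))) (T.h (T.h (P (nat_lit 0)) (T.h (T.h (M (nat_lit 19257407832285331475922943)) (T.h (P (nat_lit 0)) (P (nat_lit 20217337298745819136)))) (T.h (P (nat_lit 0)) (P (nat_lit 9833570716052619264))))) (T.h (T.h (T.h (P (nat_lit 0)) (P (nat_lit 5037294177271444144128))) (P (nat_lit 0))) (T.h (T.h (P (nat_lit 0)) (P (nat_lit 11252355669518450688))) (P (nat_lit 0)))))), (P (nat_lit 0)), (P (nat_lit 0))]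
def lQp_11 : List (T ℤ) := [(T.h (T.h (P (nat_lit 0)) (T.h (T.h (P (nat_lit 0)) (T.h (P (nat_lit 6257322254999635160465408)) (T.h (P (nat_lit 0)) (P (nat_lit 6181027965124476928))))) (T.h (P (nat_lit 0)) (T.h (T.h (P (nat_lit 0)) (M (nat_lit 18700725765254676479))) (P (nat_lit 0)))))) (T.h (T.h (T.h (P (nat_lit 53881732118352720053892284416)) (T.h (P (nat_lit 0)) (T.h (P (nat_lit 1180029681764931731456)) (T.h (P (nat_lit 0)) (P (nat_lit 430876221964288)))))) (T.h (P (nat_lit 0)) (T.h (T.h (P (nat_lit 4044796161900521979904)) (T.h (P (nat_lit 0)) (M (nat_lit 12727986820939775)))) (T.h (P (nat_lit 0)) (P (nat_lit 7839521280917504)))))) (T.h (T.h (P (nat_lit 0)) (T.h (T.h (P (nat_lit 0)) (M (nat_lit 778044669081681919))) (P (nat_lit 0)))) (T.h (T.h (T.h (M (nat_lit 1138092656815090171903)) (T.h (P (nat_lit 0)) (P (nat_lit 444352593395712)))) (T.h (P (nat_lit 0)) (M (nat_lit 4746482182750207)))) (T.h (P (nat_lit 0)) (P (nat_lit 453536361119744))))))), (T.h (T.h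 (P (nat_lit 0)) (T.h (T.h (P (nat_lit 8247066503751675425415233536)) (T.h (P (nat_lit 0)) (T.h (M (nat_lit 26038473945571815063551)) (T.h (P (nat_lit 0)) (P (nat_lit 4390270459445248)))))) (T.h (P (nat_lit 0)) (T.h (T.h (M (nat_lit 17156229624079432286207)) (T.h (P (nat_lit 0)) (M (nat_lit 5994255547105279)))) (T.h (P (nat_lit 0)) (P (nat_lit 5558297383403520))))))) (T.h (T.h (T.h (P (nat_lit 0)) (T.h (M (nat_lit 51384193130259596913410047)) (T.h (P (nat_lit 0)) (P (nat_lit 3553031887867871232))))) (T.h (P (nat_lit 0)) (T.h (T.h (P (nat_lit 0)) (M (nat_lit 16527390372616208383))) (P (nat_lit 0))))) (T.h (T.h (P (nat_lit 0)) (T.h (T.h (M (nat_lit 26038473945571815063551)) (T.h (P (nat_lit 0)) (P (nat_lit 2683627399806976)))) (T.h (P (nat_lit 0)) (M (nat_lit 5994255547105279))))) (T.h (T.h (T.h (P (nat_lit 0)) (P (nat_lit 3553031887867871232))) (P (nat_lit 0))) (T.h (T.h (P (nat_lit 0)) (P (nat_lit 4390270459445248))) (P (nat_lit 0))))))), (T.h (T.h (P (nat_lit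 0)) (T.h (T.h (P (nat_lit 0)) (T.h (M (nat_lit 24532106935627370756833279)) (T.h (P (nat_lit 0)) (P (nat_lit 31353808992878985216))))) (T.h (P (nat_lit 0)) (T.h (T.h (P (nat_lit 0)) (P (nat_lit 106263290849559314432))) (P (nat_lit 0)))))) (T.h (T.h (T.h (M (nat_lit 97581074448007982481961648127)) (T.h (P (nat_lit 0)) (T.h (M (nat_lit 15349521856242152112127)) (T.h (P (nat_lit 0)) (P (nat_lit 3645269363130368)))))) (T.h (P (nat_lit 0)) (T.h (T.h (M (nat_lit 64802820902210039185407)) (T.h (P (nat_lit 0)) (M (nat_lit 61369225453240319)))) (T.h (P (nat_lit 0)) (M (nat_lit 1884083773767679)))))) (T.h (T.h (P (nat_lit 0)) (T.h (T.h (P (nat_lit 0)) (P (nat_lit 17944080516516937728))) (P (nat_lit 0)))) (T.h (T.h (T.h (M (nat_lit 17261519124186831781887)) (T.h (P (nat_lit 0)) (M (nat_lit 7192874682679295)))) (T.h (P (nat_lit 0)) (P (nat_lit 23220420041244672)))) (T.h (P (nat_lit 0)) (M (nat_lit 2818515274301439))))))), (T.h (T.h (P (nat_lit 0)) (T.h (T.h (M (nat_lit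 7305124718430585802427727871)) (T.h (P (nat_lit 0)) (P (nat_lit 96236064664401412620288)))) (T.h (P (nat_lit 0)) (P (nat_lit 20279155672975897788416))))) (T.h (T.h (T.h (P (nat_lit 0)) (T.h (M (nat_lit 19257407832285331475922943)) (T.h (P (nat_lit 0)) (P (nat_lit 9833570716052619264))))) (T.h (P (nat_lit 0)) (T.h (T.h (P (nat_lit 0)) (P (nat_lit 20217337298745819136))) (P (nat_lit 0))))) (T.h (T.h (P (nat_lit 0)) (P (nat_lit 5037294177271444144128))) (T.h (T.h (T.h (P (nat_lit 0)) (P (nat_lit 11252355669518450688))) (P (nat_lit 0))) (P (nat_lit 0)))))), (P (nat_lit 0)), (P (nat_lit 0)), (T.h (T.h (T.h (P (nat_lit 0)) (T.h (M (nat_lit 3383368649401081921863155711)) (T.h (P (nat_lit 0)) (T.h (P (nat_lit 1055328876714705027072)) (T.h (P (nat_lit 0)) (P (nat_lit 969414783074304))))))) (T.h (P (nat_lit 0)) (T.h (T.h (P (nat_lit 0)) (T.h (M (nat_lit 12643918027596247334911)) (T.h (P (nat_lit 0)) (M (nat_lit 4362756073783295))))) (T.h (P (nat_lit 0)) (T.h (T.h (P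 (nat_lit 0)) (P (nat_lit 9250554945142784))) (P (nat_lit 0))))))) (T.h (T.h (P (nat_lit 0)) (T.h (T.h (P (nat_lit 12476825063754065334239232)) (T.h (P (nat_lit 0)) (M (nat_lit 3731576025025347583)))) (T.h (P (nat_lit 0)) (M (nat_lit 486026124057378815))))) (T.h (T.h (T.h (P (nat_lit 0)) (T.h (M (nat_lit 4611647519577497141247)) (T.h (P (nat_lit 0)) (M (nat_lit 237439028822015))))) (T.h (P (nat_lit 0)) (T.h (T.h (P (nat_lit 0)) (M (nat_lit 8840244534575103))) (P (nat_lit 0))))) (T.h (T.h (P (nat_lit 0)) (M (nat_lit 739178953956130815))) (T.h (T.h (T.h (P (nat_lit 0)) (M (nat_lit 109270719660031))) (P (nat_lit 0))) (P (nat_lit 0))))))), (T.h (T.h (T.h (P (nat_lit 390739483125010976643779395584)) (T.h (P (nat_lit 0)) (T.h (P (nat_lit 3482884771107621891473408)) (T.h (P (nat_lit 0)) (P (nat_lit 3546182552257560576)))))) (T.h (P (nat_lit 0)) (T.h (T.h (P (nat_lit 3434534724486922686693376)) (T.h (P (nat_lit 0)) (P (nat_lit 24715385350375079936)))) (T.h (P (nat_lit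 0)) (P (nat_lit 31059065407270813696)))))) (T.h (T.h (P (nat_lit 0)) (T.h (T.h (P (nat_lit 0)) (T.h (P (nat_lit 2245742729472155582464)) (T.h (P (nat_lit 0)) (P (nat_lit 7612935747665920))))) (T.h (P (nat_lit 0)) (T.h (T.h (P (nat_lit 0)) (P (nat_lit 6987273630908416))) (P (nat_lit 0)))))) (T.h (T.h (T.h (P (nat_lit 3482884771107621891473408)) (T.h (P (nat_lit 0)) (P (nat_lit 954916973173538816)))) (T.h (P (nat_lit 0)) (P (nat_lit 24715385350375079936)))) (T.h (T.h (P (nat_lit 0)) (T.h (T.h (P (nat_lit 0)) (P (nat_lit 7612935747665920))) (P (nat_lit 0)))) (P (nat_lit 3546182552257560576))))))]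
def lQp_12 : List (T ℤ) := [(T.h (T.h (T.h (P (nat_lit 0)) (T.h (M (nat_lit 719817474826572681220980735)) (T.h (P (nat_lit 0)) (P (nat_lit 7669978220490651598848))))) (T.h (P (nat_lit 0)) (T.h (T.h (P (nat_lit 0)) (P (nat_lit 81404364450585477382144))) (P (nat_lit 0))))) (T.h (T.h (P (nat_lit 0)) (T.h (T.h (M (nat_lit 23740425189703612127772671)) (T.h (P (nat_lit 0)) (M (nat_lit 25574308777851617279)))) (T.h (P (nat_lit 0)) (P (nat_lit 9694400712317861888))))) (T.h (T.h (T.h (P (nat_lit 0)) (M (nat_lit 5292361548524716818431))) (P (nat_lit 0))) (T.h (T.h (P (nat_lit 0)) (P (nat_lit 11574770874313605120))) (P (nat_lit 0)))))), (P (nat_lit 0)), (P (nat_lit 0)), (T.h (T.h (P (nat_lit 0)) (T.h (T.h (P (nat_lit 0)) (T.h (M (nat_lit 1668310685256554960125951)) (T.h (P (nat_lit 0)) (M (nat_lit 2552835554030911487))))) (T.h (P (nat_lit 0)) (T.h (T.h (P (nat_lit 0)) (P (nat_lit 20098914546582814720))) (P (nat_lit 0)))))) (T.h (T.h (T.h (M (nat_lit 53919904888201650914528854015))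 (T.h (P (nat_lit 0)) (T.h (M (nat_lit 2539739606505924591615)) (T.h (P (nat_lit 0)) (P (nat_lit 420597048541184)))))) (T.h (P (nat_lit 0)) (T.h (T.h (M (nat_lit 9395881727339121344511)) (T.h (P (nat_lit 0)) (M (nat_lit 2891021512081407)))) (T.h (P (nat_lit 0)) (M (nat_lit 7551664551362559)))))) (T.h (T.h (P (nat_lit 0)) (T.h (T.h (P (nat_lit 0)) (M (nat_lit 3642813229240942591))) (P (nat_lit 0)))) (T.h (T.h (T.h (P (nat_lit 873530666480291545088)) (T.h (P (nat_lit 0)) (M (nat_lit 932545441562623)))) (T.h (P (nat_lit 0)) (P (nat_lit 2256434608734208)))) (T.h (P (nat_lit 0)) (M (nat_lit 336720620421119))))))), (T.h (T.h (P (nat_lit 0)) (T.h (T.h (P (nat_lit 4932787182799620835601547264)) (T.h (P (nat_lit 0)) (P (nat_lit 19024528249610334896128)))) (T.h (P (nat_lit 0)) (P (nat_lit 22683376998001198235648))))) (T.h (T.h (T.h (P (nat_lit 0)) (T.h (M (nat_lit 469854802530439322927103)) (T.h (P (nat_lit 0)) (P (nat_lit 1902139663028584448))))) (T.h (P (nat_lit 0))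 (T.h (T.h (P (nat_lit 0)) (P (nat_lit 2405820120166301696))) (P (nat_lit 0))))) (T.h (T.h (P (nat_lit 0)) (P (nat_lit 19024528249610334896128))) (T.h (T.h (T.h (P (nat_lit 0)) (P (nat_lit 1902139663028584448))) (P (nat_lit 0))) (P (nat_lit 0)))))), (P (nat_lit 0)), (P (nat_lit 0)), (T.h (T.h (T.h (P (nat_lit 0)) (P (nat_lit 471536197744369659130413056))) (T.h (P (nat_lit 0)) (T.h (T.h (P (nat_lit 0)) (P (nat_lit 7121757884211567525888))) (P (nat_lit 0))))) (T.h (T.h (P (nat_lit 0)) (T.h (T.h (M (nat_lit 1514619882854388970029055)) (T.h (P (nat_lit 0)) (P (nat_lit 5888628940288819200)))) (T.h (P (nat_lit 0)) (M (nat_lit 7732904500595261439))))) (T.h (T.h (T.h (P (nat_lit 0)) (P (nat_lit 391678135183836446720))) (P (nat_lit 0))) (T.h (T.h (P (nat_lit 0)) (P (nat_lit 1155294519671914496))) (P (nat_lit 0))))))]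
def lQp_13 : List (T ℤ) := [(P (nat_lit 0)), (P (nat_lit 0)), (P (nat_lit 0)), (P (nat_lit 0)), (P (nat_lit 0)), (P (nat_lit 0)), (T.h (T.h (T.h (M (nat_lit 460972935309887569520215719935)) (T.h (P (nat_lit 0)) (T.h (M (nat_lit 2029091353749028599758847)) (T.h (P (nat_lit 0)) (M (nat_lit 1526433197796098047)))))) (T.h (P (nat_lit 0)) (T.h (T.h (P (nat_lit 0)) (T.h (P (nat_lit 0)) (P (nat_lit 2998689982794694656)))) (P (nat_lit 0))))) (T.h (T.h (P (nat_lit 0)) (T.h (T.h (P (nat_lit 0)) (T.h (M (nat_lit 38255836290387560890367)) (T.h (P (nat_lit 0)) (M (nat_lit 15267448728518655))))) (T.h (P (nat_lit 0)) (T.h (T.h (P (nat_lit 0)) (M (nat_lit 14346539850792959))) (P (nat_lit 0)))))) (T.h (T.h (T.h (M (nat_lit 2029091353749028599758847)) (T.h (P (nat_lit 0)) (P (nat_lit 3990713706295066624)))) (T.h (P (nat_lit 0)) (P (nat_lit 2998689982794694656)))) (T.h (T.h (P (nat_lit 0)) (T.h (T.h (P (nat_lit 0)) (M (nat_lit 15267448728518655))) (P (nat_lit 0)))) (M (nat_lit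 1526433197796098047)))))), (T.h (T.h (T.h (P (nat_lit 0)) (T.h (M (nat_lit 2893234167580437187150217215)) (T.h (P (nat_lit 0)) (T.h (P (nat_lit 4887624969485354532864)) (T.h (P (nat_lit 0)) (M (nat_lit 842086408290303))))))) (T.h (P (nat_lit 0)) (T.h (T.h (P (nat_lit 0)) (T.h (M (nat_lit 11824404982278817579007)) (T.h (P (nat_lit 0)) (M (nat_lit 1940300321947647))))) (T.h (P (nat_lit 0)) (T.h (T.h (P (nat_lit 0)) (M (nat_lit 1027658480451583))) (P (nat_lit 0))))))) (T.h (T.h (P (nat_lit 0)) (T.h (T.h (M (nat_lit 6345143623172862576164863)) (T.h (P (nat_lit 0)) (M (nat_lit 50860561505563181055)))) (T.h (P (nat_lit 0)) (M (nat_lit 7924019583034327039))))) (T.h (T.h (T.h (P (nat_lit 0)) (T.h (P (nat_lit 13617996589596695068672)) (T.h (P (nat_lit 0)) (M (nat_lit 6314639862071295))))) (T.h (P (nat_lit 0)) (T.h (T.h (P (nat_lit 0)) (M (nat_lit 6806374653853695))) (P (nat_lit 0))))) (T.h (T.h (P (nat_lit 0)) (M (nat_lit 7388629735611301887))) (T.h (T.h (T.h (P (nat_lit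 0)) (M (nat_lit 2004594498371583))) (P (nat_lit 0))) (P (nat_lit 0)))))))]
def lQp_14 : List (T ℤ) := [(T.h (T.h (T.h (M (nat_lit 338361714180115004849106452479)) (T.h (P (nat_lit 0)) (T.h (P (nat_lit 2603676508804139699929088)) (T.h (P (nat_lit 0)) (P (nat_lit 287525050649673728)))))) (T.h (P (nat_lit 0)) (T.h (T.h (P (nat_lit 0)) (T.h (P (nat_lit 0)) (M (nat_lit 25365486172786130943)))) (T.h (P (nat_lit 0)) (P (nat_lit 823250967452450816)))))) (T.h (T.h (P (nat_lit 0)) (T.h (T.h (P (nat_lit 0)) (T.h (P (nat_lit 44631809005452154372096)) (T.h (P (nat_lit 0)) (P (nat_lit 21157774929887232))))) (T.h (P (nat_lit 0)) (T.h (T.h (P (nat_lit 0)) (P (nat_lit 14212069352800256))) (P (nat_lit 0)))))) (T.h (T.h (T.h (P (nat_lit 7992072388334565537611776)) (T.h (P (nat_lit 0)) (P (nat_lit 621163191484809216)))) (T.h (P (nat_lit 0)) (M (nat_lit 5653982591758368767)))) (T.h (T.h (P (nat_lit 0)) (T.h (T.h (P (nat_lit 0)) (P (nat_lit 3431794116395008))) (P (nat_lit 0))))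 (P (nat_lit 3286178180813029376)))))), (T.h (T.h (T.h (P (nat_lit 0)) (T.h (P (nat_lit 3735944699976290291876364288)) (T.h (P (nat_lit 0)) (T.h (M (nat_lit 12711068152419347070975)) (T.h (P (nat_lit 0)) (P (nat_lit 6193401770803200))))))) (T.h (P (nat_lit 0)) (T.h (T.h (P (nat_lit 0)) (T.h (M (nat_lit 5909524652010437083135)) (T.h (P (nat_lit 0)) (P (nat_lit 19208907123326976))))) (T.h (P (nat_lit 0)) (T.h (T.h (P (nat_lit 0)) (M (nat_lit 2209956775591935))) (P (nat_lit 0))))))) (T.h (T.h (P (nat_lit 0)) (T.h (T.h (P (nat_lit 13141655625837937975885824)) (T.h (P (nat_lit 0)) (P (nat_lit 32193241223916421120)))) (T.h (P (nat_lit 0)) (P (nat_lit 4788280243653705728))))) (T.h (T.h (T.h (P (nat_lit 0)) (T.h (P (nat_lit 3434406944769488977920)) (T.h (P (nat_lit 0)) (P (nat_lit 5875308216451072))))) (P (nat_lit 0))) (T.h (T.h (P (nat_lit 0)) (P (nat_lit 876166944988856320))) (T.h (T.h (T.h (P (nat_lit 0)) (P (nat_lit 1249966879408128))) (P (nat_lit 0))) (P (nat_lit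 0))))))), (T.h (T.h (T.h (M (nat_lit 14856572718678401679984347316223)) (T.h (P (nat_lit 0)) (T.h (M (nat_lit 9143594504065898468343807)) (T.h (P (nat_lit 0)) (P (nat_lit 5994328141479280640)))))) (T.h (P (nat_lit 0)) (T.h (T.h (M (nat_lit 430512853632606770561023)) (T.h (P (nat_lit 0)) (P (nat_lit 14012339163622277120)))) (T.h (P (nat_lit 0)) (M (nat_lit 458076090124992511)))))) (T.h (T.h (P (nat_lit 0)) (T.h (T.h (P (nat_lit 0)) (P (nat_lit 10406685990088444215296))) (P (nat_lit 0)))) (T.h (T.h (T.h (P (nat_lit 146258586246510312161280)) (T.h (P (nat_lit 0)) (P (nat_lit 6245178489742295040)))) (T.h (P (nat_lit 0)) (M (nat_lit 716194899120095231)))) (T.h (P (nat_lit 0)) (M (nat_lit 111010873010552831)))))), (P (nat_lit 0)), (P (nat_lit 0)), (T.h (T.h (P (nat_lit 0)) (T.h (T.h (P (nat_lit 0)) (T.h (P (nat_lit 64503246115057485794508800)) (T.h (P (nat_lit 0)) (P (nat_lit 795046254307442688))))) (T.h (P (nat_lit 0)) (T.h (T.h (P (nat_lit 0)) (P (nat_lit 795046254307442688)))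 (P (nat_lit 0)))))) (T.h (T.h (T.h (P (nat_lit 0)) (T.h (P (nat_lit 0)) (T.h (M (nat_lit 4023288376355572416511)) (T.h (P (nat_lit 0)) (M (nat_lit 5123191855120383)))))) (T.h (P (nat_lit 0)) (T.h (T.h (M (nat_lit 4023288376355572416511)) (T.h (P (nat_lit 0)) (M (nat_lit 8245414944309247)))) (T.h (P (nat_lit 0)) (M (nat_lit 5123191855120383)))))) (T.h (T.h (P (nat_lit 0)) (T.h (T.h (P (nat_lit 0)) (P (nat_lit 12938633457344446464))) (P (nat_lit 0)))) (T.h (T.h (T.h (P (nat_lit 0)) (T.h (P (nat_lit 0)) (P (nat_lit 17746068228407296)))) (T.h (P (nat_lit 0)) (P (nat_lit 17746068228407296)))) (T.h (P (nat_lit 0)) (M (nat_lit 955482939457535))))))), (T.h (T.h (P (nat_lit 0)) (T.h (T.h (P (nat_lit 59438437438531874729649766400)) (T.h (P (nat_lit 0)) (T.h (P (nat_lit 28922456933748552237056)) (T.h (P (nat_lit 0)) (M (nat_lit 1374646771777535)))))) (T.h (P (nat_lit 0)) (T.h (T.h (M (nat_lit 894942791215089713151)) (T.h (P (nat_lit 0)) (P (nat_lit 9245941462695936))))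 (T.h (P (nat_lit 0)) (P (nat_lit 361981759193088))))))) (T.h (T.h (T.h (P (nat_lit 0)) (T.h (M (nat_lit 9105435660923275306860543)) (T.h (P (nat_lit 0)) (M (nat_lit 41250178240859865087))))) (T.h (P (nat_lit 0)) (T.h (T.h (P (nat_lit 0)) (M (nat_lit 34228791505093394431))) (P (nat_lit 0))))) (T.h (T.h (P (nat_lit 0)) (T.h (T.h (P (nat_lit 28922456933748552237056)) (T.h (P (nat_lit 0)) (P (nat_lit 67137797805441024)))) (T.h (P (nat_lit 0)) (P (nat_lit 9245941462695936))))) (T.h (T.h (T.h (P (nat_lit 0)) (M (nat_lit 41250178240859865087))) (P (nat_lit 0))) (T.h (T.h (P (nat_lit 0)) (M (nat_lit 1374646771777535))) (P (nat_lit 0))))))), (T.h (T.h (P (nat_lit 0)) (T.h (T.h (P (nat_lit 0)) (T.h (M (nat_lit 22031725547448854453944319)) (T.h (P (nat_lit 0)) (M (nat_lit 24256595937586053119))))) (T.h (P (nat_lit 0)) (T.h (T.h (P (nat_lit 0)) (M (nat_lit 18945553778490736639))) (P (nat_lit 0)))))) (T.h (T.h (T.h (M (nat_lit 320690170914270682791542783)) (T.h (P (nat_lit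 0)) (T.h (M (nat_lit 124582449805231692709887)) (T.h (P (nat_lit 0)) (P (nat_lit 24021546090364928)))))) (T.h (P (nat_lit 0)) (T.h (T.h (M (nat_lit 434863121499244462079)) (T.h (P (nat_lit 0)) (P (nat_lit 47943131333328896)))) (T.h (P (nat_lit 0)) (P (nat_lit 9953874026299392)))))) (T.h (T.h (P (nat_lit 0)) (T.h (T.h (P (nat_lit 0)) (P (nat_lit 27009049552740155392))) (P (nat_lit 0)))) (T.h (T.h (T.h (M (nat_lit 17314552546378270113791)) (T.h (P (nat_lit 0)) (M (nat_lit 2130561984954367)))) (T.h (P (nat_lit 0)) (M (nat_lit 15861830619299839)))) (T.h (P (nat_lit 0)) (P (nat_lit 533129381019648)))))))]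
def lQp_15 : List (T ℤ) := [(T.h (T.h (P (nat_lit 0)) (T.h (T.h (M (nat_lit 97581074448007982481961648127)) (T.h (P (nat_lit 0)) (T.h (M (nat_lit 64802820902210039185407)) (T.h (P (nat_lit 0)) (M (nat_lit 1884083773767679)))))) (T.h (P (nat_lit 0)) (T.h (T.h (M (nat_lit 17261519124186831781887)) (T.h (P (nat_lit 0)) (P (nat_lit 23220420041244672)))) (T.h (P (nat_lit 0)) (M (nat_lit 2818515274301439))))))) (T.h (T.h (T.h (P (nat_lit 0)) (T.h (M (nat_lit 24532106935627370756833279)) (T.h (P (nat_lit 0)) (P (nat_lit 106263290849559314432))))) (T.h (P (nat_lit 0)) (T.h (T.h (P (nat_lit 0)) (P (nat_lit 17944080516516937728))) (P (nat_lit 0))))) (T.h (T.h (P (nat_lit 0)) (T.h (T.h (M (nat_lit 15349521856242152112127)) (T.h (P (nat_lit 0)) (M (nat_lit 61369225453240319)))) (T.h (P (nat_lit 0)) (M (nat_lit 7192874682679295))))) (T.h (T.h (T.h (P (nat_lit 0)) (P (nat_lit 31353808992878985216))) (P (nat_lit 0))) (T.h (T.h (P (nat_lit 0)) (P (nat_lit 3645269363130368)))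 (P (nat_lit 0))))))), (T.h (T.h (P (nat_lit 0)) (T.h (T.h (P (nat_lit 0)) (T.h (M (nat_lit 23740425189703612127772671)) (T.h (P (nat_lit 0)) (P (nat_lit 9694400712317861888))))) (T.h (P (nat_lit 0)) (T.h (T.h (P (nat_lit 0)) (P (nat_lit 11574770874313605120))) (P (nat_lit 0)))))) (T.h (T.h (T.h (M (nat_lit 719817474826572681220980735)) (T.h (P (nat_lit 0)) (P (nat_lit 81404364450585477382144)))) (T.h (P (nat_lit 0)) (M (nat_lit 5292361548524716818431)))) (T.h (T.h (P (nat_lit 0)) (T.h (T.h (P (nat_lit 0)) (M (nat_lit 25574308777851617279))) (P (nat_lit 0)))) (P (nat_lit 7669978220490651598848))))), (P (nat_lit 0)), (P (nat_lit 0)), (T.h (T.h (M (nat_lit 460972935309887569520215719935)) (T.h (P (nat_lit 0)) (T.h (T.h (M (nat_lit 2029091353749028599758847)) (T.h (P (nat_lit 0)) (P (nat_lit 2998689982794694656)))) (T.h (P (nat_lit 0)) (M (nat_lit 1526433197796098047)))))) (T.h (T.h (P (nat_lit 0)) (T.h (T.h (P (nat_lit 0)) (T.h (M (nat_lit 38255836290387560890367))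 (T.h (P (nat_lit 0)) (M (nat_lit 14346539850792959))))) (T.h (P (nat_lit 0)) (T.h (T.h (P (nat_lit 0)) (M (nat_lit 15267448728518655))) (P (nat_lit 0)))))) (T.h (T.h (T.h (M (nat_lit 2029091353749028599758847)) (T.h (P (nat_lit 0)) (P (nat_lit 2998689982794694656)))) (T.h (P (nat_lit 0)) (P (nat_lit 3990713706295066624)))) (T.h (T.h (P (nat_lit 0)) (T.h (T.h (P (nat_lit 0)) (M (nat_lit 15267448728518655))) (P (nat_lit 0)))) (M (nat_lit 1526433197796098047)))))), (T.h (T.h (T.h (P (nat_lit 0)) (T.h (P (nat_lit 59438437438531874729649766400)) (T.h (P (nat_lit 0)) (T.h (M (nat_lit 894942791215089713151)) (T.h (P (nat_lit 0)) (P (nat_lit 361981759193088))))))) (T.h (P (nat_lit 0)) (T.h (T.h (P (nat_lit 0)) (T.h (P (nat_lit 28922456933748552237056)) (T.h (P (nat_lit 0)) (P (nat_lit 9245941462695936))))) (T.h (P (nat_lit 0)) (T.h (T.h (P (nat_lit 0)) (M (nat_lit 1374646771777535))) (P (nat_lit 0))))))) (T.h (T.h (P (nat_lit 0)) (T.h (T.h (M (nat_lit 9105435660923275306860543))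 (T.h (P (nat_lit 0)) (M (nat_lit 34228791505093394431)))) (T.h (P (nat_lit 0)) (M (nat_lit 41250178240859865087))))) (T.h (T.h (T.h (P (nat_lit 0)) (T.h (P (nat_lit 28922456933748552237056)) (T.h (P (nat_lit 0)) (P (nat_lit 9245941462695936))))) (T.h (P (nat_lit 0)) (T.h (T.h (P (nat_lit 0)) (P (nat_lit 67137797805441024))) (P (nat_lit 0))))) (T.h (T.h (P (nat_lit 0)) (M (nat_lit 41250178240859865087))) (T.h (T.h (T.h (P (nat_lit 0)) (M (nat_lit 1374646771777535))) (P (nat_lit 0))) (P (nat_lit 0))))))), (T.h (T.h (T.h (M (nat_lit 10634355942349996543979965906943)) (T.h (P (nat_lit 0)) (T.h (P (nat_lit 23341089722715176819490816)) (T.h (P (nat_lit 0)) (P (nat_lit 13361158055803224064)))))) (T.h (P (nat_lit 0)) (T.h (T.h (P (nat_lit 23341089722715176819490816)) (T.h (P (nat_lit 0)) (M (nat_lit 7709039167459557375)))) (T.h (P (nat_lit 0)) (P (nat_lit 13361158055803224064)))))) (T.h (T.h (P (nat_lit 0)) (T.h (T.h (P (nat_lit 0)) (T.h (M (nat_lit 106550364359565647020031))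 (T.h (P (nat_lit 0)) (P (nat_lit 92987772518531072))))) (T.h (P (nat_lit 0)) (T.h (T.h (P (nat_lit 0)) (P (nat_lit 92987772518531072))) (P (nat_lit 0)))))) (T.h (T.h (T.h (P (nat_lit 23341089722715176819490816)) (T.h (P (nat_lit 0)) (M (nat_lit 7709039167459557375)))) (T.h (P (nat_lit 0)) (M (nat_lit 7709039167459557375)))) (T.h (T.h (P (nat_lit 0)) (T.h (T.h (P (nat_lit 0)) (P (nat_lit 92987772518531072))) (P (nat_lit 0)))) (P (nat_lit 13361158055803224064)))))), (T.h (T.h (T.h (P (nat_lit 0)) (T.h (P (nat_lit 15538004633748538418060591104)) (T.h (P (nat_lit 0)) (T.h (M (nat_lit 31971531381454745370623)) (T.h (P (nat_lit 0)) (P (nat_lit 10352668921298944))))))) (T.h (P (nat_lit 0)) (T.h (T.h (P (nat_lit 0)) (T.h (M (nat_lit 90150105672051010306047)) (T.h (P (nat_lit 0)) (P (nat_lit 6628034860548096))))) (T.h (P (nat_lit 0)) (T.h (T.h (P (nat_lit 0)) (P (nat_lit 14893299958284288))) (P (nat_lit 0))))))) (T.h (T.h (P (nat_lit 0)) (T.h (T.h (M (nat_lit 38752044008928701728161791))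 (T.h (P (nat_lit 0)) (P (nat_lit 327214950102354362368)))) (T.h (P (nat_lit 0)) (P (nat_lit 53066877284871307264))))) (T.h (T.h (T.h (P (nat_lit 0)) (T.h (M (nat_lit 90150105672051010306047)) (T.h (P (nat_lit 0)) (P (nat_lit 6628034860548096))))) (T.h (P (nat_lit 0)) (T.h (T.h (P (nat_lit 0)) (M (nat_lit 34651051960303615))) (P (nat_lit 0))))) (T.h (T.h (P (nat_lit 0)) (P (nat_lit 53066877284871307264))) (T.h (T.h (T.h (P (nat_lit 0)) (P (nat_lit 14893299958284288))) (P (nat_lit 0))) (P (nat_lit 0)))))))]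
def lQp_16 : List (T ℤ) := [(T.h (T.h (T.h (M (nat_lit 24904608913243075430215017562111)) (T.h (P (nat_lit 0)) (T.h (M (nat_lit 47557352681751995377254399)) (T.h (P (nat_lit 0)) (P (nat_lit 12286765327093596160)))))) (T.h (P (nat_lit 0)) (T.h (T.h (M (nat_lit 28558369388848621637599231)) (T.h (P (nat_lit 0)) (P (nat_lit 7213091648547323904)))) (T.h (P (nat_lit 0)) (P (nat_lit 1138174195176308736)))))) (T.h (T.h (P (nat_lit 0)) (T.h (T.h (P (nat_lit 0)) (P (nat_lit 72285802493233286086656))) (P (nat_lit 0)))) (T.h (T.h (T.h (M (nat_lit 28558369388848621637599231)) (T.h (P (nat_lit 0)) (P (nat_lit 7213091648547323904)))) (T.h (P (nat_lit 0)) (M (nat_lit 19918924814433124351)))) (T.h (P (nat_lit 0)) (P (nat_lit 1138174195176308736)))))), (P (nat_lit 0)), (P (nat_lit 0)), (T.h (T.h (P (nat_lit 0)) (T.h (T.h (M (nat_lit 2893234167580437187150217215)) (T.h (P (nat_lit 0)) (T.h (M (nat_lit 11824404982278817579007)) (T.h (P (nat_lit 0)) (M (nat_lit 1027658480451583))))))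 (T.h (P (nat_lit 0)) (T.h (T.h (P (nat_lit 4887624969485354532864)) (T.h (P (nat_lit 0)) (M (nat_lit 1940300321947647)))) (T.h (P (nat_lit 0)) (M (nat_lit 842086408290303))))))) (T.h (T.h (T.h (P (nat_lit 0)) (T.h (M (nat_lit 6345143623172862576164863)) (T.h (P (nat_lit 0)) (M (nat_lit 7924019583034327039))))) (T.h (P (nat_lit 0)) (T.h (T.h (P (nat_lit 0)) (M (nat_lit 50860561505563181055))) (P (nat_lit 0))))) (T.h (T.h (P (nat_lit 0)) (T.h (T.h (P (nat_lit 13617996589596695068672)) (T.h (P (nat_lit 0)) (M (nat_lit 6806374653853695)))) (T.h (P (nat_lit 0)) (M (nat_lit 6314639862071295))))) (T.h (T.h (T.h (P (nat_lit 0)) (M (nat_lit 7388629735611301887))) (P (nat_lit 0))) (T.h (T.h (P (nat_lit 0)) (M (nat_lit 2004594498371583))) (P (nat_lit 0))))))), (T.h (T.h (P (nat_lit 0)) (T.h (T.h (P (nat_lit 0)) (T.h (M (nat_lit 22031725547448854453944319)) (T.h (P (nat_lit 0)) (M (nat_lit 18945553778490736639))))) (T.h (P (nat_lit 0)) (T.h (T.h (P (nat_lit 0)) (M (nat_lit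 24256595937586053119))) (P (nat_lit 0)))))) (T.h (T.h (T.h (M (nat_lit 320690170914270682791542783)) (T.h (P (nat_lit 0)) (T.h (M (nat_lit 434863121499244462079)) (T.h (P (nat_lit 0)) (P (nat_lit 9953874026299392)))))) (T.h (P (nat_lit 0)) (T.h (T.h (M (nat_lit 124582449805231692709887)) (T.h (P (nat_lit 0)) (P (nat_lit 47943131333328896)))) (T.h (P (nat_lit 0)) (P (nat_lit 24021546090364928)))))) (T.h (T.h (P (nat_lit 0)) (T.h (T.h (P (nat_lit 0)) (P (nat_lit 27009049552740155392))) (P (nat_lit 0)))) (T.h (T.h (T.h (M (nat_lit 17314552546378270113791)) (T.h (P (nat_lit 0)) (M (nat_lit 15861830619299839)))) (T.h (P (nat_lit 0)) (M (nat_lit 2130561984954367)))) (T.h (P (nat_lit 0)) (P (nat_lit 533129381019648))))))), (T.h (T.h (P (nat_lit 0)) (T.h (T.h (P (nat_lit 15538004633748538418060591104)) (T.h (P (nat_lit 0)) (T.h (M (nat_lit 90150105672051010306047)) (T.h (P (nat_lit 0)) (P (nat_lit 14893299958284288)))))) (T.h (P (nat_lit 0)) (T.h (T.h (M (nat_lit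 31971531381454745370623)) (T.h (P (nat_lit 0)) (P (nat_lit 6628034860548096)))) (T.h (P (nat_lit 0)) (P (nat_lit 10352668921298944))))))) (T.h (T.h (T.h (P (nat_lit 0)) (T.h (M (nat_lit 38752044008928701728161791)) (T.h (P (nat_lit 0)) (P (nat_lit 53066877284871307264))))) (T.h (P (nat_lit 0)) (T.h (T.h (P (nat_lit 0)) (P (nat_lit 327214950102354362368))) (P (nat_lit 0))))) (T.h (T.h (P (nat_lit 0)) (T.h (T.h (M (nat_lit 90150105672051010306047)) (T.h (P (nat_lit 0)) (M (nat_lit 34651051960303615)))) (T.h (P (nat_lit 0)) (P (nat_lit 6628034860548096))))) (T.h (T.h (T.h (P (nat_lit 0)) (P (nat_lit 53066877284871307264))) (P (nat_lit 0))) (T.h (T.h (P (nat_lit 0)) (P (nat_lit 14893299958284288))) (P (nat_lit 0))))))), (T.h (T.h (P (nat_lit 0)) (T.h (T.h (P (nat_lit 0)) (T.h (M (nat_lit 77059904737505692864217087)) (T.h (P (nat_lit 0)) (P (nat_lit 24422649067191926784))))) (T.h (P (nat_lit 0)) (T.h (T.h (P (nat_lit 0)) (P (nat_lit 24422649067191926784))) (P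 (nat_lit 0)))))) (T.h (T.h (T.h (M (nat_lit 8311803618084416168113733631)) (T.h (P (nat_lit 0)) (P (nat_lit 66553013382877638819840)))) (T.h (P (nat_lit 0)) (P (nat_lit 66553013382877638819840)))) (T.h (T.h (P (nat_lit 0)) (T.h (T.h (P (nat_lit 0)) (P (nat_lit 14340526346780803072))) (P (nat_lit 0)))) (P (nat_lit 26474708591003599634432))))), (P (nat_lit 0))]
def lQp_17 : List (T ℤ) := [(P (nat_lit 0)), (T.h (T.h (T.h (M (nat_lit 338361714180115004849106452479)) (T.h (P (nat_lit 0)) (T.h (P (nat_lit 0)) (T.h (P (nat_lit 0)) (P (nat_lit 823250967452450816)))))) (T.h (P (nat_lit 0)) (T.h (T.h (P (nat_lit 2603676508804139699929088)) (T.h (P (nat_lit 0)) (M (nat_lit 25365486172786130943)))) (T.h (P (nat_lit 0)) (P (nat_lit 287525050649673728)))))) (T.h (T.h (P (nat_lit 0)) (T.h (T.h (P (nat_lit 0)) (T.h (P (nat_lit 44631809005452154372096)) (T.h (P (nat_lit 0)) (P (nat_lit 14212069352800256))))) (T.h (P (nat_lit 0)) (T.h (T.h (P (nat_lit 0)) (P (nat_lit 21157774929887232)))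 (P (nat_lit 0)))))) (T.h (T.h (T.h (P (nat_lit 7992072388334565537611776)) (T.h (P (nat_lit 0)) (M (nat_lit 5653982591758368767)))) (T.h (P (nat_lit 0)) (P (nat_lit 621163191484809216)))) (T.h (T.h (P (nat_lit 0)) (T.h (T.h (P (nat_lit 0)) (P (nat_lit 3431794116395008))) (P (nat_lit 0)))) (P (nat_lit 3286178180813029376)))))), (T.h (T.h (T.h (P (nat_lit 0)) (T.h (M (nat_lit 97581074448007982481961648127)) (T.h (P (nat_lit 0)) (T.h (M (nat_lit 17261519124186831781887)) (T.h (P (nat_lit 0)) (M (nat_lit 2818515274301439))))))) (T.h (P (nat_lit 0)) (T.h (T.h (P (nat_lit 0)) (T.h (M (nat_lit 64802820902210039185407)) (T.h (P (nat_lit 0)) (P (nat_lit 23220420041244672))))) (T.h (P (nat_lit 0)) (T.h (T.h (P (nat_lit 0)) (M (nat_lit 1884083773767679))) (P (nat_lit 0))))))) (T.h (T.h (P (nat_lit 0)) (T.h (T.h (M (nat_lit 24532106935627370756833279)) (T.h (P (nat_lit 0)) (P (nat_lit 17944080516516937728)))) (T.h (P (nat_lit 0)) (P (nat_lit 106263290849559314432)))))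 (T.h (T.h (T.h (P (nat_lit 0)) (T.h (M (nat_lit 15349521856242152112127)) (T.h (P (nat_lit 0)) (M (nat_lit 7192874682679295))))) (T.h (P (nat_lit 0)) (T.h (T.h (P (nat_lit 0)) (M (nat_lit 61369225453240319))) (P (nat_lit 0))))) (T.h (T.h (P (nat_lit 0)) (P (nat_lit 31353808992878985216))) (T.h (T.h (T.h (P (nat_lit 0)) (P (nat_lit 3645269363130368))) (P (nat_lit 0))) (P (nat_lit 0))))))), (T.h (T.h (T.h (M (nat_lit 24904608913243075430215017562111)) (T.h (P (nat_lit 0)) (T.h (M (nat_lit 28558369388848621637599231)) (T.h (P (nat_lit 0)) (P (nat_lit 1138174195176308736)))))) (T.h (P (nat_lit 0)) (T.h (T.h (M (nat_lit 47557352681751995377254399)) (T.h (P (nat_lit 0)) (P (nat_lit 7213091648547323904)))) (T.h (P (nat_lit 0)) (P (nat_lit 12286765327093596160)))))) (T.h (T.h (P (nat_lit 0)) (T.h (T.h (P (nat_lit 0)) (P (nat_lit 72285802493233286086656))) (P (nat_lit 0)))) (T.h (T.h (T.h (M (nat_lit 28558369388848621637599231)) (T.h (P (nat_lit 0)) (M (nat_lit 19918924814433124351))))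 (T.h (P (nat_lit 0)) (P (nat_lit 7213091648547323904)))) (T.h (P (nat_lit 0)) (P (nat_lit 1138174195176308736)))))), (P (nat_lit 0)), (P (nat_lit 0)), (T.h (T.h (P (nat_lit 0)) (T.h (T.h (P (nat_lit 3735944699976290291876364288)) (T.h (P (nat_lit 0)) (T.h (M (nat_lit 5909524652010437083135)) (T.h (P (nat_lit 0)) (M (nat_lit 2209956775591935)))))) (T.h (P (nat_lit 0)) (T.h (T.h (M (nat_lit 12711068152419347070975)) (T.h (P (nat_lit 0)) (P (nat_lit 19208907123326976)))) (T.h (P (nat_lit 0)) (P (nat_lit 6193401770803200))))))) (T.h (T.h (T.h (P (nat_lit 0)) (T.h (P (nat_lit 13141655625837937975885824)) (T.h (P (nat_lit 0)) (P (nat_lit 4788280243653705728))))) (T.h (P (nat_lit 0)) (T.h (T.h (P (nat_lit 0)) (P (nat_lit 32193241223916421120))) (P (nat_lit 0))))) (T.h (T.h (P (nat_lit 0)) (T.h (P (nat_lit 3434406944769488977920)) (T.h (P (nat_lit 0)) (P (nat_lit 5875308216451072))))) (T.h (T.h (T.h (P (nat_lit 0)) (P (nat_lit 876166944988856320))) (P (nat_lit 0)))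 (T.h (T.h (P (nat_lit 0)) (P (nat_lit 1249966879408128))) (P (nat_lit 0))))))), (T.h (T.h (P (nat_lit 0)) (T.h (T.h (P (nat_lit 0)) (T.h (M (nat_lit 23740425189703612127772671)) (T.h (P (nat_lit 0)) (P (nat_lit 11574770874313605120))))) (T.h (P (nat_lit 0)) (T.h (T.h (P (nat_lit 0)) (P (nat_lit 9694400712317861888))) (P (nat_lit 0)))))) (T.h (T.h (T.h (M (nat_lit 719817474826572681220980735)) (T.h (P (nat_lit 0)) (M (nat_lit 5292361548524716818431)))) (T.h (P (nat_lit 0)) (P (nat_lit 81404364450585477382144)))) (T.h (T.h (P (nat_lit 0)) (T.h (T.h (P (nat_lit 0)) (M (nat_lit 25574308777851617279))) (P (nat_lit 0)))) (P (nat_lit 7669978220490651598848)))))]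
def lQp_18 : List (T ℤ) := [(P (nat_lit 0)), (P (nat_lit 0)), (T.h (T.h (T.h (M (nat_lit 14856572718678401679984347316223)) (T.h (P (nat_lit 0)) (T.h (M (nat_lit 430512853632606770561023)) (T.h (P (nat_lit 0)) (M (nat_lit 458076090124992511)))))) (T.h (P (nat_lit 0)) (T.h (T.h (M (nat_lit 9143594504065898468343807)) (T.h (P (nat_lit 0)) (P (nat_lit 14012339163622277120)))) (T.h (P (nat_lit 0)) (P (nat_lit 5994328141479280640)))))) (T.h (T.h (P (nat_lit 0)) (T.h (T.h (P (nat_lit 0)) (P (nat_lit 10406685990088444215296))) (P (nat_lit 0)))) (T.h (T.h (T.h (P (nat_lit 146258586246510312161280)) (T.h (P (nat_lit 0)) (M (nat_lit 716194899120095231)))) (T.h (P (nat_lit 0)) (P (nat_lit 6245178489742295040)))) (T.h (P (nat_lit 0)) (M (nat_lit 111010873010552831)))))), (P (nat_lit 0)), (P (nat_lit 0)), (P (nat_lit 0)), (P (nat_lit 0)), (P (nat_lit 0))]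
def lQp_19 : List (T ℤ) := [(T.h (T.h (P (nat_lit 0)) (T.h (T.h (P (nat_lit 2874759264551899117903675392)) (T.h (P (nat_lit 0)) (T.h (P (nat_lit 1940289171074890858496)) (T.h (P (nat_lit 0)) (M (nat_lit 1082473110175743)))))) (T.h (P (nat_lit 0)) (T.h (T.h (M (nat_lit 738474885769798352895)) (T.h (P (nat_lit 0)) (P (nat_lit 622586800177152)))) (T.h (P (nat_lit 0)) (M (nat_lit 853826605940735))))))) (T.h (T.h (T.h (P (nat_lit 0)) (T.h (M (nat_lit 9930660340720679142817791)) (T.h (P (nat_lit 0)) (P (nat_lit 4498897606964936704))))) (T.h (P (nat_lit 0)) (T.h (T.h (P (nat_lit 0)) (M (nat_lit 717555307059871743))) (P (nat_lit 0))))) (T.h (T.h (P (nat_lit 0)) (T.h (T.h (P (nat_lit 7643476739830000386048)) (T.h (P (nat_lit 0)) (M (nat_lit 2788580132061183)))) (T.h (P (nat_lit 0)) (P (nat_lit 4065623452418048))))) (T.h (T.h (T.h (P (nat_lit 0)) (P (nat_lit 5817303471073787904))) (P (nat_lit 0))) (T.h (T.h (P (nat_lit 0)) (M (nat_lit 5476709220483071))) (P (nat_lit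 0))))))), (T.h (T.h (P (nat_lit 0)) (T.h (T.h (P (nat_lit 0)) (T.h (M (nat_lit 6345143623172862576164863)) (T.h (P (nat_lit 0)) (M (nat_lit 7388629735611301887))))) (T.h (P (nat_lit 0)) (T.h (T.h (P (nat_lit 0)) (M (nat_lit 7924019583034327039))) (P (nat_lit 0)))))) (T.h (T.h (T.h (M (nat_lit 2893234167580437187150217215)) (T.h (P (nat_lit 0)) (T.h (P (nat_lit 13617996589596695068672)) (T.h (P (nat_lit 0)) (M (nat_lit 2004594498371583)))))) (T.h (P (nat_lit 0)) (T.h (T.h (M (nat_lit 11824404982278817579007)) (T.h (P (nat_lit 0)) (M (nat_lit 6806374653853695)))) (T.h (P (nat_lit 0)) (M (nat_lit 1027658480451583)))))) (T.h (T.h (P (nat_lit 0)) (T.h (T.h (P (nat_lit 0)) (M (nat_lit 50860561505563181055))) (P (nat_lit 0)))) (T.h (T.h (T.h (P (nat_lit 4887624969485354532864)) (T.h (P (nat_lit 0)) (M (nat_lit 6314639862071295)))) (T.h (P (nat_lit 0)) (M (nat_lit 1940300321947647)))) (T.h (P (nat_lit 0)) (M (nat_lit 842086408290303))))))), (T.h (T.h (P (nat_lit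 0)) (T.h (T.h (P (nat_lit 895513046034761536558333952)) (T.h (P (nat_lit 0)) (T.h (M (nat_lit 6463124172456798978047)) (T.h (P (nat_lit 0)) (P (nat_lit 3126952219639808)))))) (T.h (P (nat_lit 0)) (T.h (T.h (M (nat_lit 8232267397385362079743)) (T.h (P (nat_lit 0)) (M (nat_lit 2953990688538623)))) (T.h (P (nat_lit 0)) (P (nat_lit 2099127109287936))))))) (T.h (T.h (T.h (P (nat_lit 0)) (T.h (P (nat_lit 21119259783786610263326720)) (T.h (P (nat_lit 0)) (M (nat_lit 6992613337276088319))))) (T.h (P (nat_lit 0)) (T.h (T.h (P (nat_lit 0)) (M (nat_lit 40155659876563943423))) (P (nat_lit 0))))) (T.h (T.h (P (nat_lit 0)) (T.h (T.h (M (nat_lit 6463124172456798978047)) (T.h (P (nat_lit 0)) (P (nat_lit 12393691856896000)))) (T.h (P (nat_lit 0)) (M (nat_lit 2953990688538623))))) (T.h (T.h (T.h (P (nat_lit 0)) (M (nat_lit 6992613337276088319))) (P (nat_lit 0))) (T.h (T.h (P (nat_lit 0)) (P (nat_lit 3126952219639808))) (P (nat_lit 0))))))), (T.h (T.h (P (nat_lit 0)) (T.h (T.h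 (P (nat_lit 0)) (T.h (P (nat_lit 29437568468312463620702208)) (T.h (P (nat_lit 0)) (P (nat_lit 13596485790493310976))))) (T.h (P (nat_lit 0)) (T.h (T.h (P (nat_lit 0)) (P (nat_lit 17039829687691378688))) (P (nat_lit 0)))))) (T.h (T.h (T.h (M (nat_lit 45104481563519293712781803519)) (T.h (P (nat_lit 0)) (T.h (M (nat_lit 15760965022728488747007)) (T.h (P (nat_lit 0)) (P (nat_lit 314325677375488)))))) (T.h (P (nat_lit 0)) (T.h (T.h (M (nat_lit 452581749181831446527)) (T.h (P (nat_lit 0)) (P (nat_lit 66998657318125568)))) (T.h (P (nat_lit 0)) (M (nat_lit 1633424815423487)))))) (T.h (T.h (P (nat_lit 0)) (T.h (T.h (P (nat_lit 0)) (P (nat_lit 27921786404926914560))) (P (nat_lit 0)))) (T.h (T.h (T.h (P (nat_lit 6284115532348582264832)) (T.h (P (nat_lit 0)) (P (nat_lit 9176005225218048)))) (T.h (P (nat_lit 0)) (P (nat_lit 629802396286976)))) (T.h (P (nat_lit 0)) (P (nat_lit 278797762428928))))))), (T.h (T.h (P (nat_lit 0)) (T.h (T.h (P (nat_lit 4847912892436371908541284352))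 (T.h (P (nat_lit 0)) (P (nat_lit 7689282402489485754368)))) (T.h (P (nat_lit 0)) (P (nat_lit 3937142110085665783808))))) (T.h (T.h (T.h (P (nat_lit 0)) (T.h (M (nat_lit 6774779893922198139699199)) (T.h (P (nat_lit 0)) (P (nat_lit 3330027300455448576))))) (T.h (P (nat_lit 0)) (T.h (T.h (P (nat_lit 0)) (P (nat_lit 34303312546880290816))) (P (nat_lit 0))))) (T.h (T.h (P (nat_lit 0)) (P (nat_lit 4520338283428990418944))) (T.h (T.h (T.h (P (nat_lit 0)) (P (nat_lit 5978080759825563648))) (P (nat_lit 0))) (P (nat_lit 0)))))), (P (nat_lit 0)), (P (nat_lit 0)), (T.h (T.h (T.h (P (nat_lit 0)) (T.h (P (nat_lit 2874759264551899117903675392)) (T.h (P (nat_lit 0)) (T.h (M (nat_lit 738474885769798352895)) (T.h (P (nat_lit 0)) (M (nat_lit 853826605940735))))))) (T.h (P (nat_lit 0)) (T.h (T.h (P (nat_lit 0)) (T.h (P (nat_lit 1940289171074890858496)) (T.h (P (nat_lit 0)) (P (nat_lit 622586800177152))))) (T.h (P (nat_lit 0)) (T.h (T.h (P (nat_lit 0)) (M (nat_lit 1082473110175743)))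 (P (nat_lit 0))))))) (T.h (T.h (P (nat_lit 0)) (T.h (T.h (M (nat_lit 9930660340720679142817791)) (T.h (P (nat_lit 0)) (M (nat_lit 717555307059871743)))) (T.h (P (nat_lit 0)) (P (nat_lit 4498897606964936704))))) (T.h (T.h (T.h (P (nat_lit 0)) (T.h (P (nat_lit 7643476739830000386048)) (T.h (P (nat_lit 0)) (P (nat_lit 4065623452418048))))) (T.h (P (nat_lit 0)) (T.h (T.h (P (nat_lit 0)) (M (nat_lit 2788580132061183))) (P (nat_lit 0))))) (T.h (T.h (P (nat_lit 0)) (P (nat_lit 5817303471073787904))) (T.h (T.h (T.h (P (nat_lit 0)) (M (nat_lit 5476709220483071))) (P (nat_lit 0))) (P (nat_lit 0)))))))]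
def lQp_20 : List (T ℤ) := [(T.h (T.h (T.h (M (nat_lit 11038097195991371679654739967)) (T.h (P (nat_lit 0)) (T.h (M (nat_lit 1931505742482698280108031)) (T.h (P (nat_lit 0)) (M (nat_lit 2150600115193118719)))))) (T.h (P (nat_lit 0)) (T.h (T.h (M (nat_lit 1931505742482698280108031)) (T.h (P (nat_lit 0)) (P (nat_lit 6272402667423662080)))) (T.h (P (nat_lit 0)) (M (nat_lit 2150600115193118719)))))) (T.h (T.h (P (nat_lit 0)) (T.h (T.h (P (nat_lit 0)) (T.h (P (nat_lit 23138019382606574911488)) (T.h (P (nat_lit 0)) (M (nat_lit 12785404002697215))))) (T.h (P (nat_lit 0)) (T.h (T.h (P (nat_lit 0)) (M (nat_lit 12785404002697215))) (P (nat_lit 0)))))) (T.h (T.h (T.h (P (nat_lit 13123897115103883742412800)) (T.h (P (nat_lit 0)) (M (nat_lit 29470118660504813567)))) (T.h (P (nat_lit 0)) (M (nat_lit 29470118660504813567)))) (T.h (T.h (P (nat_lit 0)) (T.h (T.h (P (nat_lit 0)) (M (nat_lit 3540630147170303))) (P (nat_lit 0)))) (M (nat_lit 15962821450868457471)))))), (T.h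 (T.h (T.h (P (nat_lit 0)) (T.h (M (nat_lit 320690170914270682791542783)) (T.h (P (nat_lit 0)) (T.h (M (nat_lit 17314552546378270113791)) (T.h (P (nat_lit 0)) (P (nat_lit 533129381019648))))))) (T.h (P (nat_lit 0)) (T.h (T.h (P (nat_lit 0)) (T.h (M (nat_lit 434863121499244462079)) (T.h (P (nat_lit 0)) (M (nat_lit 15861830619299839))))) (T.h (P (nat_lit 0)) (T.h (T.h (P (nat_lit 0)) (P (nat_lit 9953874026299392))) (P (nat_lit 0))))))) (T.h (T.h (P (nat_lit 0)) (T.h (T.h (M (nat_lit 22031725547448854453944319)) (T.h (P (nat_lit 0)) (P (nat_lit 27009049552740155392)))) (T.h (P (nat_lit 0)) (M (nat_lit 18945553778490736639))))) (T.h (T.h (T.h (P (nat_lit 0)) (T.h (M (nat_lit 124582449805231692709887)) (T.h (P (nat_lit 0)) (M (nat_lit 2130561984954367))))) (T.h (P (nat_lit 0)) (T.h (T.h (P (nat_lit 0)) (P (nat_lit 47943131333328896))) (P (nat_lit 0))))) (T.h (T.h (P (nat_lit 0)) (M (nat_lit 24256595937586053119))) (T.h (T.h (T.h (P (nat_lit 0)) (P (nat_lit 24021546090364928)))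 (P (nat_lit 0))) (P (nat_lit 0))))))), (T.h (T.h (T.h (M (nat_lit 5650569602416018221516063768575)) (T.h (P (nat_lit 0)) (T.h (M (nat_lit 36619332756341022001201151)) (T.h (P (nat_lit 0)) (P (nat_lit 8722767057218699264)))))) (T.h (P (nat_lit 0)) (T.h (T.h (P (nat_lit 21754681419217188406951936)) (T.h (P (nat_lit 0)) (M (nat_lit 2488124734957420543)))) (T.h (P (nat_lit 0)) (P (nat_lit 23002432904995274752)))))) (T.h (T.h (P (nat_lit 0)) (T.h (T.h (P (nat_lit 0)) (T.h (M (nat_lit 74030274246512526491647)) (T.h (P (nat_lit 0)) (P (nat_lit 22571703364485120))))) (T.h (P (nat_lit 0)) (T.h (T.h (P (nat_lit 0)) (P (nat_lit 64873962961108992))) (P (nat_lit 0)))))) (T.h (T.h (T.h (M (nat_lit 36619332756341022001201151)) (T.h (P (nat_lit 0)) (P (nat_lit 139330404219585822720)))) (T.h (P (nat_lit 0)) (M (nat_lit 2488124734957420543)))) (T.h (T.h (P (nat_lit 0)) (T.h (T.h (P (nat_lit 0)) (P (nat_lit 22571703364485120))) (P (nat_lit 0)))) (P (nat_lit 8722767057218699264)))))),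 (T.h (T.h (T.h (P (nat_lit 0)) (T.h (M (nat_lit 7305124718430585802427727871)) (T.h (P (nat_lit 0)) (P (nat_lit 20279155672975897788416))))) (T.h (P (nat_lit 0)) (T.h (T.h (P (nat_lit 0)) (P (nat_lit 5037294177271444144128))) (P (nat_lit 0))))) (T.h (T.h (P (nat_lit 0)) (T.h (T.h (M (nat_lit 19257407832285331475922943)) (T.h (P (nat_lit 0)) (P (nat_lit 20217337298745819136)))) (T.h (P (nat_lit 0)) (P (nat_lit 11252355669518450688))))) (T.h (T.h (T.h (P (nat_lit 0)) (P (nat_lit 96236064664401412620288))) (P (nat_lit 0))) (T.h (T.h (P (nat_lit 0)) (P (nat_lit 9833570716052619264))) (P (nat_lit 0)))))), (P (nat_lit 0)), (P (nat_lit 0)), (T.h (T.h (P (nat_lit 0)) (T.h (T.h (P (nat_lit 0)) (T.h (M (nat_lit 6345143623172862576164863)) (T.h (P (nat_lit 0)) (M (nat_lit 7924019583034327039))))) (T.h (P (nat_lit 0)) (T.h (T.h (P (nat_lit 0)) (M (nat_lit 7388629735611301887))) (P (nat_lit 0)))))) (T.h (T.h (T.h (M (nat_lit 2893234167580437187150217215)) (T.h (P (nat_lit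 0)) (T.h (M (nat_lit 11824404982278817579007)) (T.h (P (nat_lit 0)) (M (nat_lit 1027658480451583)))))) (T.h (P (nat_lit 0)) (T.h (T.h (P (nat_lit 13617996589596695068672)) (T.h (P (nat_lit 0)) (M (nat_lit 6806374653853695)))) (T.h (P (nat_lit 0)) (M (nat_lit 2004594498371583)))))) (T.h (T.h (P (nat_lit 0)) (T.h (T.h (P (nat_lit 0)) (M (nat_lit 50860561505563181055))) (P (nat_lit 0)))) (T.h (T.h (T.h (P (nat_lit 4887624969485354532864)) (T.h (P (nat_lit 0)) (M (nat_lit 1940300321947647)))) (T.h (P (nat_lit 0)) (M (nat_lit 6314639862071295)))) (T.h (P (nat_lit 0)) (M (nat_lit 842086408290303))))))), (T.h (T.h (P (nat_lit 0)) (T.h (T.h (M (nat_lit 320690170914270682791542783)) (T.h (P (nat_lit 0)) (T.h (M (nat_lit 434863121499244462079)) (T.h (P (nat_lit 0)) (P (nat_lit 9953874026299392)))))) (T.h (P (nat_lit 0)) (T.h (T.h (M (nat_lit 17314552546378270113791)) (T.h (P (nat_lit 0)) (M (nat_lit 15861830619299839)))) (T.h (P (nat_lit 0)) (P (nat_lit 533129381019648)))))))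 (T.h (T.h (T.h (P (nat_lit 0)) (T.h (M (nat_lit 22031725547448854453944319)) (T.h (P (nat_lit 0)) (M (nat_lit 18945553778490736639))))) (T.h (P (nat_lit 0)) (T.h (T.h (P (nat_lit 0)) (P (nat_lit 27009049552740155392))) (P (nat_lit 0))))) (T.h (T.h (P (nat_lit 0)) (T.h (T.h (M (nat_lit 124582449805231692709887)) (T.h (P (nat_lit 0)) (P (nat_lit 47943131333328896)))) (T.h (P (nat_lit 0)) (M (nat_lit 2130561984954367))))) (T.h (T.h (T.h (P (nat_lit 0)) (M (nat_lit 24256595937586053119))) (P (nat_lit 0))) (T.h (T.h (P (nat_lit 0)) (P (nat_lit 24021546090364928))) (P (nat_lit 0)))))))]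
def lQp_21 : List (T ℤ) := [(T.h (T.h (P (nat_lit 0)) (T.h (T.h (P (nat_lit 0)) (T.h (M (nat_lit 38752044008928701728161791)) (T.h (P (nat_lit 0)) (P (nat_lit 53066877284871307264))))) (T.h (P (nat_lit 0)) (T.h (T.h (P (nat_lit 0)) (P (nat_lit 53066877284871307264))) (P (nat_lit 0)))))) (T.h (T.h (T.h (P (nat_lit 15538004633748538418060591104)) (T.h (P (nat_lit 0)) (T.h (M (nat_lit 90150105672051010306047)) (T.h (P (nat_lit 0)) (P (nat_lit 14893299958284288)))))) (T.h (P (nat_lit 0)) (T.h (T.h (M (nat_lit 90150105672051010306047)) (T.h (P (nat_lit 0)) (M (nat_lit 34651051960303615)))) (T.h (P (nat_lit 0)) (P (nat_lit 14893299958284288)))))) (T.h (T.h (P (nat_lit 0)) (T.h (T.h (P (nat_lit 0)) (P (nat_lit 327214950102354362368))) (P (nat_lit 0)))) (T.h (T.h (T.h (M (nat_lit 31971531381454745370623)) (T.h (P (nat_lit 0)) (P (nat_lit 6628034860548096)))) (T.h (P (nat_lit 0)) (P (nat_lit 6628034860548096)))) (T.h (P (nat_lit 0)) (P (nat_lit 10352668921298944))))))),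 (T.h (T.h (P (nat_lit 0)) (T.h (T.h (M (nat_lit 8311803618084416168113733631)) (T.h (P (nat_lit 0)) (P (nat_lit 66553013382877638819840)))) (T.h (P (nat_lit 0)) (P (nat_lit 26474708591003599634432))))) (T.h (T.h (T.h (P (nat_lit 0)) (T.h (M (nat_lit 77059904737505692864217087)) (T.h (P (nat_lit 0)) (P (nat_lit 24422649067191926784))))) (T.h (P (nat_lit 0)) (T.h (T.h (P (nat_lit 0)) (P (nat_lit 14340526346780803072))) (P (nat_lit 0))))) (T.h (T.h (P (nat_lit 0)) (P (nat_lit 66553013382877638819840))) (T.h (T.h (T.h (P (nat_lit 0)) (P (nat_lit 24422649067191926784))) (P (nat_lit 0))) (P (nat_lit 0)))))), (P (nat_lit 0)), (P (nat_lit 0)), (T.h (T.h (T.h (P (nat_lit 0)) (T.h (P (nat_lit 895513046034761536558333952)) (T.h (P (nat_lit 0)) (T.h (M (nat_lit 8232267397385362079743)) (T.h (P (nat_lit 0)) (P (nat_lit 2099127109287936))))))) (T.h (P (nat_lit 0)) (T.h (T.h (P (nat_lit 0)) (T.h (M (nat_lit 6463124172456798978047)) (T.h (P (nat_lit 0)) (M (nat_lit 2953990688538623)))))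 (T.h (P (nat_lit 0)) (T.h (T.h (P (nat_lit 0)) (P (nat_lit 3126952219639808))) (P (nat_lit 0))))))) (T.h (T.h (P (nat_lit 0)) (T.h (T.h (P (nat_lit 21119259783786610263326720)) (T.h (P (nat_lit 0)) (M (nat_lit 40155659876563943423)))) (T.h (P (nat_lit 0)) (M (nat_lit 6992613337276088319))))) (T.h (T.h (T.h (P (nat_lit 0)) (T.h (M (nat_lit 6463124172456798978047)) (T.h (P (nat_lit 0)) (M (nat_lit 2953990688538623))))) (T.h (P (nat_lit 0)) (T.h (T.h (P (nat_lit 0)) (P (nat_lit 12393691856896000))) (P (nat_lit 0))))) (T.h (T.h (P (nat_lit 0)) (M (nat_lit 6992613337276088319))) (T.h (T.h (T.h (P (nat_lit 0)) (P (nat_lit 3126952219639808))) (P (nat_lit 0))) (P (nat_lit 0))))))), (T.h (T.h (T.h (M (nat_lit 5650569602416018221516063768575)) (T.h (P (nat_lit 0)) (T.h (P (nat_lit 21754681419217188406951936)) (T.h (P (nat_lit 0)) (P (nat_lit 23002432904995274752)))))) (T.h (P (nat_lit 0)) (T.h (T.h (M (nat_lit 36619332756341022001201151)) (T.h (P (nat_lit 0)) (M (nat_lit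 2488124734957420543)))) (T.h (P (nat_lit 0)) (P (nat_lit 8722767057218699264)))))) (T.h (T.h (P (nat_lit 0)) (T.h (T.h (P (nat_lit 0)) (T.h (M (nat_lit 74030274246512526491647)) (T.h (P (nat_lit 0)) (P (nat_lit 64873962961108992))))) (T.h (P (nat_lit 0)) (T.h (T.h (P (nat_lit 0)) (P (nat_lit 22571703364485120))) (P (nat_lit 0)))))) (T.h (T.h (T.h (M (nat_lit 36619332756341022001201151)) (T.h (P (nat_lit 0)) (M (nat_lit 2488124734957420543)))) (T.h (P (nat_lit 0)) (P (nat_lit 139330404219585822720)))) (T.h (T.h (P (nat_lit 0)) (T.h (T.h (P (nat_lit 0)) (P (nat_lit 22571703364485120))) (P (nat_lit 0)))) (P (nat_lit 8722767057218699264)))))), (T.h (T.h (T.h (P (nat_lit 0)) (T.h (M (nat_lit 8311803618084416168113733631)) (T.h (P (nat_lit 0)) (P (nat_lit 26474708591003599634432))))) (T.h (P (nat_lit 0)) (T.h (T.h (P (nat_lit 0)) (P (nat_lit 66553013382877638819840))) (P (nat_lit 0))))) (T.h (T.h (P (nat_lit 0)) (T.h (T.h (M (nat_lit 77059904737505692864217087))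 (T.h (P (nat_lit 0)) (P (nat_lit 14340526346780803072)))) (T.h (P (nat_lit 0)) (P (nat_lit 24422649067191926784))))) (T.h (T.h (T.h (P (nat_lit 0)) (P (nat_lit 66553013382877638819840))) (P (nat_lit 0))) (T.h (T.h (P (nat_lit 0)) (P (nat_lit 24422649067191926784))) (P (nat_lit 0)))))), (P (nat_lit 0))]
def lQp_22 : List (T ℤ) := [(P (nat_lit 0)), (T.h (T.h (P (nat_lit 0)) (T.h (T.h (P (nat_lit 0)) (T.h (P (nat_lit 29437568468312463620702208)) (T.h (P (nat_lit 0)) (P (nat_lit 17039829687691378688))))) (T.h (P (nat_lit 0)) (T.h (T.h (P (nat_lit 0)) (P (nat_lit 13596485790493310976))) (P (nat_lit 0)))))) (T.h (T.h (T.h (M (nat_lit 45104481563519293712781803519)) (T.h (P (nat_lit 0)) (T.h (M (nat_lit 452581749181831446527)) (T.h (P (nat_lit 0)) (M (nat_lit 1633424815423487)))))) (T.h (P (nat_lit 0)) (T.h (T.h (M (nat_lit 15760965022728488747007)) (T.h (P (nat_lit 0)) (P (nat_lit 66998657318125568)))) (T.h (P (nat_lit 0)) (P (nat_lit 314325677375488)))))) (T.h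 (T.h (P (nat_lit 0)) (T.h (T.h (P (nat_lit 0)) (P (nat_lit 27921786404926914560))) (P (nat_lit 0)))) (T.h (T.h (T.h (P (nat_lit 6284115532348582264832)) (T.h (P (nat_lit 0)) (P (nat_lit 629802396286976)))) (T.h (P (nat_lit 0)) (P (nat_lit 9176005225218048)))) (T.h (P (nat_lit 0)) (P (nat_lit 278797762428928))))))), (T.h (T.h (P (nat_lit 0)) (T.h (T.h (M (nat_lit 7305124718430585802427727871)) (T.h (P (nat_lit 0)) (P (nat_lit 5037294177271444144128)))) (T.h (P (nat_lit 0)) (P (nat_lit 20279155672975897788416))))) (T.h (T.h (T.h (P (nat_lit 0)) (T.h (M (nat_lit 19257407832285331475922943)) (T.h (P (nat_lit 0)) (P (nat_lit 11252355669518450688))))) (T.h (P (nat_lit 0)) (T.h (T.h (P (nat_lit 0)) (P (nat_lit 20217337298745819136))) (P (nat_lit 0))))) (T.h (T.h (P (nat_lit 0)) (P (nat_lit 96236064664401412620288))) (T.h (T.h (T.h (P (nat_lit 0)) (P (nat_lit 9833570716052619264))) (P (nat_lit 0))) (P (nat_lit 0)))))), (P (nat_lit 0)), (P (nat_lit 0)), (T.h (T.h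 (T.h (P (nat_lit 0)) (T.h (P (nat_lit 4847912892436371908541284352)) (T.h (P (nat_lit 0)) (P (nat_lit 3937142110085665783808))))) (T.h (P (nat_lit 0)) (T.h (T.h (P (nat_lit 0)) (P (nat_lit 7689282402489485754368))) (P (nat_lit 0))))) (T.h (T.h (P (nat_lit 0)) (T.h (T.h (M (nat_lit 6774779893922198139699199)) (T.h (P (nat_lit 0)) (P (nat_lit 34303312546880290816)))) (T.h (P (nat_lit 0)) (P (nat_lit 3330027300455448576))))) (T.h (T.h (T.h (P (nat_lit 0)) (P (nat_lit 4520338283428990418944))) (P (nat_lit 0))) (T.h (T.h (P (nat_lit 0)) (P (nat_lit 5978080759825563648))) (P (nat_lit 0)))))), (P (nat_lit 0)), (P (nat_lit 0))]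
def lQp_23 : List (T ℤ) := [(P (nat_lit 0)), (P (nat_lit 0)), (P (nat_lit 0)), (T.h (T.h (T.h (P (nat_lit 96674775480032858528316129280)) (T.h (P (nat_lit 0)) (T.h (M (nat_lit 817570893295480970674175)) (T.h (P (nat_lit 0)) (M (nat_lit 692532370447794175)))))) (T.h (P (nat_lit 0)) (T.h (T.h (M (nat_lit 817570893295480970674175)) (T.h (P (nat_lit 0)) (P (nat_lit 3310063201005076480)))) (T.h (P (nat_lit 0)) (M (nat_lit 692532370447794175)))))) (T.h (T.h (P (nat_lit 0)) (T.h (T.h (P (nat_lit 0)) (T.h (M (nat_lit 2618989352391739965439)) (T.h (P (nat_lit 0)) (M (nat_lit 129461949038591))))) (T.h (P (nat_lit 0)) (T.h (T.h (P (nat_lit 0)) (M (nat_lit 129461949038591))) (P (nat_lit 0)))))) (T.h (T.h (T.h (M (nat_lit 1539936402037090780446719)) (T.h (P (nat_lit 0)) (P (nat_lit 712178620038119424)))) (T.h (P (nat_lit 0)) (P (nat_lit 712178620038119424)))) (T.h (T.h (P (nat_lit 0)) (T.h (T.h (P (nat_lit 0)) (M (nat_lit 294768566599679))) (P (nat_lit 0)))) (M (nat_lit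 86536408218468351)))))), (T.h (T.h (T.h (P (nat_lit 0)) (T.h (P (nat_lit 53881732118352720053892284416)) (T.h (P (nat_lit 0)) (T.h (M (nat_lit 1138092656815090171903)) (T.h (P (nat_lit 0)) (P (nat_lit 453536361119744))))))) (T.h (P (nat_lit 0)) (T.h (T.h (P (nat_lit 0)) (T.h (P (nat_lit 1180029681764931731456)) (T.h (P (nat_lit 0)) (P (nat_lit 444352593395712))))) (T.h (P (nat_lit 0)) (T.h (T.h (P (nat_lit 0)) (P (nat_lit 430876221964288))) (P (nat_lit 0))))))) (T.h (T.h (P (nat_lit 0)) (T.h (T.h (P (nat_lit 6257322254999635160465408)) (T.h (P (nat_lit 0)) (M (nat_lit 778044669081681919)))) (T.h (P (nat_lit 0)) (P (nat_lit 6181027965124476928))))) (T.h (T.h (T.h (P (nat_lit 0)) (T.h (P (nat_lit 4044796161900521979904)) (T.h (P (nat_lit 0)) (M (nat_lit 4746482182750207))))) (T.h (P (nat_lit 0)) (T.h (T.h (P (nat_lit 0)) (M (nat_lit 12727986820939775))) (P (nat_lit 0))))) (T.h (T.h (P (nat_lit 0)) (M (nat_lit 18700725765254676479))) (T.h (T.h (T.h (P (nat_lit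 0)) (P (nat_lit 7839521280917504))) (P (nat_lit 0))) (P (nat_lit 0))))))), (T.h (T.h (T.h (M (nat_lit 338361714180115004849106452479)) (T.h (P (nat_lit 0)) (T.h (P (nat_lit 7992072388334565537611776)) (T.h (P (nat_lit 0)) (P (nat_lit 3286178180813029376)))))) (T.h (P (nat_lit 0)) (T.h (T.h (P (nat_lit 0)) (T.h (P (nat_lit 0)) (M (nat_lit 5653982591758368767)))) (T.h (P (nat_lit 0)) (P (nat_lit 823250967452450816)))))) (T.h (T.h (P (nat_lit 0)) (T.h (T.h (P (nat_lit 0)) (T.h (P (nat_lit 44631809005452154372096)) (T.h (P (nat_lit 0)) (P (nat_lit 3431794116395008))))) (T.h (P (nat_lit 0)) (T.h (T.h (P (nat_lit 0)) (P (nat_lit 14212069352800256))) (P (nat_lit 0)))))) (T.h (T.h (T.h (P (nat_lit 2603676508804139699929088)) (T.h (P (nat_lit 0)) (P (nat_lit 621163191484809216)))) (T.h (P (nat_lit 0)) (M (nat_lit 25365486172786130943)))) (T.h (T.h (P (nat_lit 0)) (T.h (T.h (P (nat_lit 0)) (P (nat_lit 21157774929887232))) (P (nat_lit 0)))) (P (nat_lit 287525050649673728)))))),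 (T.h (T.h (T.h (P (nat_lit 0)) (T.h (M (nat_lit 45104481563519293712781803519)) (T.h (P (nat_lit 0)) (T.h (P (nat_lit 6284115532348582264832)) (T.h (P (nat_lit 0)) (P (nat_lit 278797762428928))))))) (T.h (P (nat_lit 0)) (T.h (T.h (P (nat_lit 0)) (T.h (M (nat_lit 452581749181831446527)) (T.h (P (nat_lit 0)) (P (nat_lit 629802396286976))))) (T.h (P (nat_lit 0)) (T.h (T.h (P (nat_lit 0)) (M (nat_lit 1633424815423487))) (P (nat_lit 0))))))) (T.h (T.h (P (nat_lit 0)) (T.h (T.h (P (nat_lit 29437568468312463620702208)) (T.h (P (nat_lit 0)) (P (nat_lit 27921786404926914560)))) (T.h (P (nat_lit 0)) (P (nat_lit 17039829687691378688))))) (T.h (T.h (T.h (P (nat_lit 0)) (T.h (M (nat_lit 15760965022728488747007)) (T.h (P (nat_lit 0)) (P (nat_lit 9176005225218048))))) (T.h (P (nat_lit 0)) (T.h (T.h (P (nat_lit 0)) (P (nat_lit 66998657318125568))) (P (nat_lit 0))))) (T.h (T.h (P (nat_lit 0)) (P (nat_lit 13596485790493310976))) (T.h (T.h (T.h (P (nat_lit 0)) (P (nat_lit 314325677375488)))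 (P (nat_lit 0))) (P (nat_lit 0))))))), (T.h (T.h (T.h (M (nat_lit 27591110730411258944789057372159)) (T.h (P (nat_lit 0)) (T.h (M (nat_lit 1194656571771072035160063)) (T.h (P (nat_lit 0)) (P (nat_lit 437328509317152768)))))) (T.h (P (nat_lit 0)) (T.h (T.h (P (nat_lit 2432566270557964294160384)) (T.h (P (nat_lit 0)) (P (nat_lit 17635344513788542976)))) (T.h (P (nat_lit 0)) (M (nat_lit 836313505496825855)))))) (T.h (T.h (P (nat_lit 0)) (T.h (T.h (P (nat_lit 0)) (P (nat_lit 18081353133715961675776))) (P (nat_lit 0)))) (T.h (T.h (T.h (M (nat_lit 1194656571771072035160063)) (T.h (P (nat_lit 0)) (P (nat_lit 14094344025934921728)))) (T.h (P (nat_lit 0)) (P (nat_lit 17635344513788542976)))) (T.h (P (nat_lit 0)) (P (nat_lit 437328509317152768))))))]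
def lQp_24 : List (T ℤ) := [(P (nat_lit 0)), (P (nat_lit 0)), (T.h (T.h (P (nat_lit 0)) (T.h (T.h (P (nat_lit 53881732118352720053892284416)) (T.h (P (nat_lit 0)) (T.h (P (nat_lit 1180029681764931731456)) (T.h (P (nat_lit 0)) (P (nat_lit 430876221964288)))))) (T.h (P (nat_lit 0)) (T.h (T.h (M (nat_lit 1138092656815090171903)) (T.h (P (nat_lit 0)) (P (nat_lit 444352593395712)))) (T.h (P (nat_lit 0)) (P (nat_lit 453536361119744))))))) (T.h (T.h (T.h (P (nat_lit 0)) (T.h (P (nat_lit 6257322254999635160465408)) (T.h (P (nat_lit 0)) (P (nat_lit 6181027965124476928))))) (T.h (P (nat_lit 0)) (T.h (T.h (P (nat_lit 0)) (M (nat_lit 778044669081681919))) (P (nat_lit 0))))) (T.h (T.h (P (nat_lit 0)) (T.h (T.h (P (nat_lit 4044796161900521979904)) (T.h (P (nat_lit 0)) (M (nat_lit 12727986820939775)))) (T.h (P (nat_lit 0)) (M (nat_lit 4746482182750207))))) (T.h (T.h (T.h (P (nat_lit 0)) (M (nat_lit 18700725765254676479))) (P (nat_lit 0))) (T.h (T.h (P (nat_lit 0)) (P (nat_lit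 7839521280917504))) (P (nat_lit 0))))))), (T.h (T.h (P (nat_lit 0)) (T.h (T.h (P (nat_lit 0)) (T.h (M (nat_lit 51384193130259596913410047)) (T.h (P (nat_lit 0)) (P (nat_lit 3553031887867871232))))) (T.h (P (nat_lit 0)) (T.h (T.h (P (nat_lit 0)) (P (nat_lit 3553031887867871232))) (P (nat_lit 0)))))) (T.h (T.h (T.h (P (nat_lit 8247066503751675425415233536)) (T.h (P (nat_lit 0)) (T.h (M (nat_lit 26038473945571815063551)) (T.h (P (nat_lit 0)) (P (nat_lit 4390270459445248)))))) (T.h (P (nat_lit 0)) (T.h (T.h (M (nat_lit 26038473945571815063551)) (T.h (P (nat_lit 0)) (P (nat_lit 2683627399806976)))) (T.h (P (nat_lit 0)) (P (nat_lit 4390270459445248)))))) (T.h (T.h (P (nat_lit 0)) (T.h (T.h (P (nat_lit 0)) (M (nat_lit 16527390372616208383))) (P (nat_lit 0)))) (T.h (T.h (T.h (M (nat_lit 17156229624079432286207)) (T.h (P (nat_lit 0)) (M (nat_lit 5994255547105279)))) (T.h (P (nat_lit 0)) (M (nat_lit 5994255547105279)))) (T.h (P (nat_lit 0)) (P (nat_lit 5558297383403520))))))),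 (T.h (T.h (P (nat_lit 0)) (T.h (T.h (M (nat_lit 97581074448007982481961648127)) (T.h (P (nat_lit 0)) (T.h (M (nat_lit 15349521856242152112127)) (T.h (P (nat_lit 0)) (P (nat_lit 3645269363130368)))))) (T.h (P (nat_lit 0)) (T.h (T.h (M (nat_lit 17261519124186831781887)) (T.h (P (nat_lit 0)) (M (nat_lit 7192874682679295)))) (T.h (P (nat_lit 0)) (M (nat_lit 2818515274301439))))))) (T.h (T.h (T.h (P (nat_lit 0)) (T.h (M (nat_lit 24532106935627370756833279)) (T.h (P (nat_lit 0)) (P (nat_lit 31353808992878985216))))) (T.h (P (nat_lit 0)) (T.h (T.h (P (nat_lit 0)) (P (nat_lit 17944080516516937728))) (P (nat_lit 0))))) (T.h (T.h (P (nat_lit 0)) (T.h (T.h (M (nat_lit 64802820902210039185407)) (T.h (P (nat_lit 0)) (M (nat_lit 61369225453240319)))) (T.h (P (nat_lit 0)) (P (nat_lit 23220420041244672))))) (T.h (T.h (T.h (P (nat_lit 0)) (P (nat_lit 106263290849559314432))) (P (nat_lit 0))) (T.h (T.h (P (nat_lit 0)) (M (nat_lit 1884083773767679))) (P (nat_lit 0))))))), (T.h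 (T.h (P (nat_lit 0)) (T.h (T.h (P (nat_lit 0)) (T.h (M (nat_lit 19257407832285331475922943)) (T.h (P (nat_lit 0)) (P (nat_lit 9833570716052619264))))) (T.h (P (nat_lit 0)) (T.h (T.h (P (nat_lit 0)) (P (nat_lit 11252355669518450688))) (P (nat_lit 0)))))) (T.h (T.h (T.h (M (nat_lit 7305124718430585802427727871)) (T.h (P (nat_lit 0)) (P (nat_lit 96236064664401412620288)))) (T.h (P (nat_lit 0)) (P (nat_lit 5037294177271444144128)))) (T.h (T.h (P (nat_lit 0)) (T.h (T.h (P (nat_lit 0)) (P (nat_lit 20217337298745819136))) (P (nat_lit 0)))) (P (nat_lit 20279155672975897788416))))), (P (nat_lit 0)), (P (nat_lit 0))]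
def lQp_25 : List (T ℤ) := [(T.h (T.h (T.h (M (nat_lit 338361714180115004849106452479)) (T.h (P (nat_lit 0)) (T.h (P (nat_lit 0)) (T.h (P (nat_lit 0)) (P (nat_lit 823250967452450816)))))) (T.h (P (nat_lit 0)) (T.h (T.h (P (nat_lit 7992072388334565537611776)) (T.h (P (nat_lit 0)) (M (nat_lit 5653982591758368767)))) (T.h (P (nat_lit 0)) (P (nat_lit 3286178180813029376)))))) (T.h (T.h (P (nat_lit 0)) (T.h (T.h (P (nat_lit 0)) (T.h (P (nat_lit 44631809005452154372096)) (T.h (P (nat_lit 0)) (P (nat_lit 14212069352800256))))) (T.h (P (nat_lit 0)) (T.h (T.h (P (nat_lit 0)) (P (nat_lit 3431794116395008))) (P (nat_lit 0)))))) (T.h (T.h (T.h (P (nat_lit 2603676508804139699929088)) (T.h (P (nat_lit 0)) (M (nat_lit 25365486172786130943)))) (T.h (P (nat_lit 0)) (P (nat_lit 621163191484809216)))) (T.h (T.h (P (nat_lit 0)) (T.h (T.h (P (nat_lit 0)) (P (nat_lit 21157774929887232))) (P (nat_lit 0)))) (P (nat_lit 287525050649673728)))))), (T.h (T.h (T.h (P (nat_lit 0)) (T.h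 (M (nat_lit 97581074448007982481961648127)) (T.h (P (nat_lit 0)) (T.h (M (nat_lit 17261519124186831781887)) (T.h (P (nat_lit 0)) (M (nat_lit 2818515274301439))))))) (T.h (P (nat_lit 0)) (T.h (T.h (P (nat_lit 0)) (T.h (M (nat_lit 15349521856242152112127)) (T.h (P (nat_lit 0)) (M (nat_lit 7192874682679295))))) (T.h (P (nat_lit 0)) (T.h (T.h (P (nat_lit 0)) (P (nat_lit 3645269363130368))) (P (nat_lit 0))))))) (T.h (T.h (P (nat_lit 0)) (T.h (T.h (M (nat_lit 24532106935627370756833279)) (T.h (P (nat_lit 0)) (P (nat_lit 17944080516516937728)))) (T.h (P (nat_lit 0)) (P (nat_lit 31353808992878985216))))) (T.h (T.h (T.h (P (nat_lit 0)) (T.h (M (nat_lit 64802820902210039185407)) (T.h (P (nat_lit 0)) (P (nat_lit 23220420041244672))))) (T.h (P (nat_lit 0)) (T.h (T.h (P (nat_lit 0)) (M (nat_lit 61369225453240319))) (P (nat_lit 0))))) (T.h (T.h (P (nat_lit 0)) (P (nat_lit 106263290849559314432))) (T.h (T.h (T.h (P (nat_lit 0)) (M (nat_lit 1884083773767679))) (P (nat_lit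 0))) (P (nat_lit 0))))))), (T.h (T.h (T.h (M (nat_lit 24904608913243075430215017562111)) (T.h (P (nat_lit 0)) (T.h (M (nat_lit 28558369388848621637599231)) (T.h (P (nat_lit 0)) (P (nat_lit 1138174195176308736)))))) (T.h (P (nat_lit 0)) (T.h (T.h (M (nat_lit 28558369388848621637599231)) (T.h (P (nat_lit 0)) (M (nat_lit 19918924814433124351)))) (T.h (P (nat_lit 0)) (P (nat_lit 1138174195176308736)))))) (T.h (T.h (P (nat_lit 0)) (T.h (T.h (P (nat_lit 0)) (P (nat_lit 72285802493233286086656))) (P (nat_lit 0)))) (T.h (T.h (T.h (M (nat_lit 47557352681751995377254399)) (T.h (P (nat_lit 0)) (P (nat_lit 7213091648547323904)))) (T.h (P (nat_lit 0)) (P (nat_lit 7213091648547323904)))) (T.h (P (nat_lit 0)) (P (nat_lit 12286765327093596160)))))), (P (nat_lit 0)), (P (nat_lit 0)), (T.h (T.h (P (nat_lit 0)) (T.h (T.h (M (nat_lit 45104481563519293712781803519)) (T.h (P (nat_lit 0)) (T.h (M (nat_lit 452581749181831446527)) (T.h (P (nat_lit 0)) (M (nat_lit 1633424815423487))))))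 (T.h (P (nat_lit 0)) (T.h (T.h (P (nat_lit 6284115532348582264832)) (T.h (P (nat_lit 0)) (P (nat_lit 629802396286976)))) (T.h (P (nat_lit 0)) (P (nat_lit 278797762428928))))))) (T.h (T.h (T.h (P (nat_lit 0)) (T.h (P (nat_lit 29437568468312463620702208)) (T.h (P (nat_lit 0)) (P (nat_lit 17039829687691378688))))) (T.h (P (nat_lit 0)) (T.h (T.h (P (nat_lit 0)) (P (nat_lit 27921786404926914560))) (P (nat_lit 0))))) (T.h (T.h (P (nat_lit 0)) (T.h (T.h (M (nat_lit 15760965022728488747007)) (T.h (P (nat_lit 0)) (P (nat_lit 66998657318125568)))) (T.h (P (nat_lit 0)) (P (nat_lit 9176005225218048))))) (T.h (T.h (T.h (P (nat_lit 0)) (P (nat_lit 13596485790493310976))) (P (nat_lit 0))) (T.h (T.h (P (nat_lit 0)) (P (nat_lit 314325677375488))) (P (nat_lit 0))))))), (T.h (T.h (P (nat_lit 0)) (T.h (T.h (P (nat_lit 0)) (T.h (M (nat_lit 19257407832285331475922943)) (T.h (P (nat_lit 0)) (P (nat_lit 11252355669518450688))))) (T.h (P (nat_lit 0)) (T.h (T.h (P (nat_lit 0)) (P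 (nat_lit 9833570716052619264))) (P (nat_lit 0)))))) (T.h (T.h (T.h (M (nat_lit 7305124718430585802427727871)) (T.h (P (nat_lit 0)) (P (nat_lit 5037294177271444144128)))) (T.h (P (nat_lit 0)) (P (nat_lit 96236064664401412620288)))) (T.h (T.h (P (nat_lit 0)) (T.h (T.h (P (nat_lit 0)) (P (nat_lit 20217337298745819136))) (P (nat_lit 0)))) (P (nat_lit 20279155672975897788416))))), (P (nat_lit 0))]
def lQp_26 : List (T ℤ) := [(P (nat_lit 0)), (T.h (T.h (T.h (M (nat_lit 27591110730411258944789057372159)) (T.h (P (nat_lit 0)) (T.h (P (nat_lit 2432566270557964294160384)) (T.h (P (nat_lit 0)) (M (nat_lit 836313505496825855)))))) (T.h (P (nat_lit 0)) (T.h (T.h (M (nat_lit 1194656571771072035160063)) (T.h (P (nat_lit 0)) (P (nat_lit 17635344513788542976)))) (T.h (P (nat_lit 0)) (P (nat_lit 437328509317152768)))))) (T.h (T.h (P (nat_lit 0)) (T.h (T.h (P (nat_lit 0)) (P (nat_lit 18081353133715961675776))) (P (nat_lit 0)))) (T.h (T.h (T.h (M (nat_lit 1194656571771072035160063))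 (T.h (P (nat_lit 0)) (P (nat_lit 17635344513788542976)))) (T.h (P (nat_lit 0)) (P (nat_lit 14094344025934921728)))) (T.h (P (nat_lit 0)) (P (nat_lit 437328509317152768)))))), (P (nat_lit 0)), (P (nat_lit 0)), (P (nat_lit 0)), (P (nat_lit 0)), (P (nat_lit 0)), (T.h (T.h (P (nat_lit 0)) (T.h (T.h (P (nat_lit 0)) (T.h (M (nat_lit 1240065049510957740457983)) (T.h (P (nat_lit 0)) (P (nat_lit 170667393696137216))))) (T.h (P (nat_lit 0)) (T.h (T.h (P (nat_lit 0)) (P (nat_lit 170667393696137216))) (P (nat_lit 0)))))) (T.h (T.h (T.h (M (nat_lit 1109688626837800921969197055)) (T.h (P (nat_lit 0)) (T.h (M (nat_lit 1012050865393395302399)) (T.h (P (nat_lit 0)) (P (nat_lit 119998737022976)))))) (T.h (P (nat_lit 0)) (T.h (T.h (M (nat_lit 1012050865393395302399)) (T.h (P (nat_lit 0)) (M (nat_lit 10794187433312255)))) (T.h (P (nat_lit 0)) (P (nat_lit 119998737022976)))))) (T.h (T.h (P (nat_lit 0)) (T.h (T.h (P (nat_lit 0)) (P (nat_lit 5646720424898199552))) (P (nat_lit 0))))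 (T.h (T.h (T.h (P (nat_lit 1632973904196313022464)) (T.h (P (nat_lit 0)) (M (nat_lit 2515445769142271)))) (T.h (P (nat_lit 0)) (M (nat_lit 2515445769142271)))) (T.h (P (nat_lit 0)) (M (nat_lit 1548350442700799)))))))]
def lQp_27 : List (T ℤ) := [(T.h (T.h (P (nat_lit 0)) (T.h (T.h (M (nat_lit 3383368649401081921863155711)) (T.h (P (nat_lit 0)) (T.h (M (nat_lit 4611647519577497141247)) (T.h (P (nat_lit 0)) (M (nat_lit 109270719660031)))))) (T.h (P (nat_lit 0)) (T.h (T.h (P (nat_lit 1055328876714705027072)) (T.h (P (nat_lit 0)) (M (nat_lit 237439028822015)))) (T.h (P (nat_lit 0)) (P (nat_lit 969414783074304))))))) (T.h (T.h (T.h (P (nat_lit 0)) (T.h (P (nat_lit 12476825063754065334239232)) (T.h (P (nat_lit 0)) (M (nat_lit 739178953956130815))))) (T.h (P (nat_lit 0)) (T.h (T.h (P (nat_lit 0)) (M (nat_lit 3731576025025347583))) (P (nat_lit 0))))) (T.h (T.h (P (nat_lit 0)) (T.h (T.h (M (nat_lit 12643918027596247334911)) (T.h (P (nat_lit 0)) (M (nat_lit 8840244534575103))))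 (T.h (P (nat_lit 0)) (M (nat_lit 4362756073783295))))) (T.h (T.h (T.h (P (nat_lit 0)) (M (nat_lit 486026124057378815))) (P (nat_lit 0))) (T.h (T.h (P (nat_lit 0)) (P (nat_lit 9250554945142784))) (P (nat_lit 0))))))), (T.h (T.h (P (nat_lit 0)) (T.h (T.h (P (nat_lit 0)) (T.h (P (nat_lit 13141655625837937975885824)) (T.h (P (nat_lit 0)) (P (nat_lit 876166944988856320))))) (T.h (P (nat_lit 0)) (T.h (T.h (P (nat_lit 0)) (P (nat_lit 4788280243653705728))) (P (nat_lit 0)))))) (T.h (T.h (T.h (P (nat_lit 3735944699976290291876364288)) (T.h (P (nat_lit 0)) (T.h (P (nat_lit 3434406944769488977920)) (T.h (P (nat_lit 0)) (P (nat_lit 1249966879408128)))))) (T.h (P (nat_lit 0)) (T.h (M (nat_lit 5909524652010437083135)) (T.h (P (nat_lit 0)) (M (nat_lit 2209956775591935)))))) (T.h (T.h (P (nat_lit 0)) (T.h (T.h (P (nat_lit 0)) (P (nat_lit 32193241223916421120))) (P (nat_lit 0)))) (T.h (T.h (T.h (M (nat_lit 12711068152419347070975)) (T.h (P (nat_lit 0)) (P (nat_lit 5875308216451072))))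 (T.h (P (nat_lit 0)) (P (nat_lit 19208907123326976)))) (T.h (P (nat_lit 0)) (P (nat_lit 6193401770803200))))))), (T.h (T.h (P (nat_lit 0)) (T.h (T.h (P (nat_lit 4847912892436371908541284352)) (T.h (P (nat_lit 0)) (P (nat_lit 4520338283428990418944)))) (T.h (P (nat_lit 0)) (P (nat_lit 3937142110085665783808))))) (T.h (T.h (T.h (P (nat_lit 0)) (T.h (M (nat_lit 6774779893922198139699199)) (T.h (P (nat_lit 0)) (P (nat_lit 5978080759825563648))))) (T.h (P (nat_lit 0)) (T.h (T.h (P (nat_lit 0)) (P (nat_lit 34303312546880290816))) (P (nat_lit 0))))) (T.h (T.h (P (nat_lit 0)) (P (nat_lit 7689282402489485754368))) (T.h (T.h (T.h (P (nat_lit 0)) (P (nat_lit 3330027300455448576))) (P (nat_lit 0))) (P (nat_lit 0)))))), (P (nat_lit 0)), (P (nat_lit 0)), (T.h (T.h (T.h (P (nat_lit 0)) (T.h (M (nat_lit 3383368649401081921863155711)) (T.h (P (nat_lit 0)) (T.h (P (nat_lit 1055328876714705027072)) (T.h (P (nat_lit 0)) (P (nat_lit 969414783074304))))))) (T.h (P (nat_lit 0))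 (T.h (T.h (P (nat_lit 0)) (T.h (M (nat_lit 4611647519577497141247)) (T.h (P (nat_lit 0)) (M (nat_lit 237439028822015))))) (T.h (P (nat_lit 0)) (T.h (T.h (P (nat_lit 0)) (M (nat_lit 109270719660031))) (P (nat_lit 0))))))) (T.h (T.h (P (nat_lit 0)) (T.h (T.h (P (nat_lit 12476825063754065334239232)) (T.h (P (nat_lit 0)) (M (nat_lit 3731576025025347583)))) (T.h (P (nat_lit 0)) (M (nat_lit 739178953956130815))))) (T.h (T.h (T.h (P (nat_lit 0)) (T.h (M (nat_lit 12643918027596247334911)) (T.h (P (nat_lit 0)) (M (nat_lit 4362756073783295))))) (T.h (P (nat_lit 0)) (T.h (T.h (P (nat_lit 0)) (M (nat_lit 8840244534575103))) (P (nat_lit 0))))) (T.h (T.h (P (nat_lit 0)) (M (nat_lit 486026124057378815))) (T.h (T.h (T.h (P (nat_lit 0)) (P (nat_lit 9250554945142784))) (P (nat_lit 0))) (P (nat_lit 0))))))), (T.h (T.h (T.h (P (nat_lit 390739483125010976643779395584)) (T.h (P (nat_lit 0)) (T.h (P (nat_lit 3482884771107621891473408)) (T.h (P (nat_lit 0)) (P (nat_lit 3546182552257560576))))))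 (T.h (P (nat_lit 0)) (T.h (T.h (P (nat_lit 3482884771107621891473408)) (T.h (P (nat_lit 0)) (P (nat_lit 954916973173538816)))) (T.h (P (nat_lit 0)) (P (nat_lit 3546182552257560576)))))) (T.h (T.h (P (nat_lit 0)) (T.h (T.h (P (nat_lit 0)) (T.h (P (nat_lit 2245742729472155582464)) (T.h (P (nat_lit 0)) (P (nat_lit 7612935747665920))))) (T.h (P (nat_lit 0)) (T.h (T.h (P (nat_lit 0)) (P (nat_lit 7612935747665920))) (P (nat_lit 0)))))) (T.h (T.h (T.h (P (nat_lit 3434534724486922686693376)) (T.h (P (nat_lit 0)) (P (nat_lit 24715385350375079936)))) (T.h (P (nat_lit 0)) (P (nat_lit 24715385350375079936)))) (T.h (T.h (P (nat_lit 0)) (T.h (T.h (P (nat_lit 0)) (P (nat_lit 6987273630908416))) (P (nat_lit 0)))) (P (nat_lit 31059065407270813696)))))), (T.h (T.h (T.h (P (nat_lit 0)) (T.h (M (nat_lit 719817474826572681220980735)) (T.h (P (nat_lit 0)) (P (nat_lit 7669978220490651598848))))) (T.h (P (nat_lit 0)) (T.h (T.h (P (nat_lit 0)) (M (nat_lit 5292361548524716818431)))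 (P (nat_lit 0))))) (T.h (T.h (P (nat_lit 0)) (T.h (T.h (M (nat_lit 23740425189703612127772671)) (T.h (P (nat_lit 0)) (M (nat_lit 25574308777851617279)))) (T.h (P (nat_lit 0)) (P (nat_lit 11574770874313605120))))) (T.h (T.h (T.h (P (nat_lit 0)) (P (nat_lit 81404364450585477382144))) (P (nat_lit 0))) (T.h (T.h (P (nat_lit 0)) (P (nat_lit 9694400712317861888))) (P (nat_lit 0))))))]
def lQp_28 : List (T ℤ) := [(P (nat_lit 0)), (P (nat_lit 0)), (T.h (T.h (P (nat_lit 0)) (T.h (T.h (P (nat_lit 0)) (T.h (P (nat_lit 13141655625837937975885824)) (T.h (P (nat_lit 0)) (P (nat_lit 4788280243653705728))))) (T.h (P (nat_lit 0)) (T.h (T.h (P (nat_lit 0)) (P (nat_lit 876166944988856320))) (P (nat_lit 0)))))) (T.h (T.h (T.h (P (nat_lit 3735944699976290291876364288)) (T.h (P (nat_lit 0)) (T.h (M (nat_lit 5909524652010437083135)) (T.h (P (nat_lit 0)) (M (nat_lit 2209956775591935)))))) (T.h (P (nat_lit 0)) (T.h (P (nat_lit 3434406944769488977920)) (T.h (P (nat_lit 0)) (P (nat_lit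 1249966879408128)))))) (T.h (T.h (P (nat_lit 0)) (T.h (T.h (P (nat_lit 0)) (P (nat_lit 32193241223916421120))) (P (nat_lit 0)))) (T.h (T.h (T.h (M (nat_lit 12711068152419347070975)) (T.h (P (nat_lit 0)) (P (nat_lit 19208907123326976)))) (T.h (P (nat_lit 0)) (P (nat_lit 5875308216451072)))) (T.h (P (nat_lit 0)) (P (nat_lit 6193401770803200))))))), (T.h (T.h (P (nat_lit 0)) (T.h (T.h (M (nat_lit 719817474826572681220980735)) (T.h (P (nat_lit 0)) (M (nat_lit 5292361548524716818431)))) (T.h (P (nat_lit 0)) (P (nat_lit 7669978220490651598848))))) (T.h (T.h (T.h (P (nat_lit 0)) (T.h (M (nat_lit 23740425189703612127772671)) (T.h (P (nat_lit 0)) (P (nat_lit 11574770874313605120))))) (T.h (P (nat_lit 0)) (T.h (T.h (P (nat_lit 0)) (M (nat_lit 25574308777851617279))) (P (nat_lit 0))))) (T.h (T.h (P (nat_lit 0)) (P (nat_lit 81404364450585477382144))) (T.h (T.h (T.h (P (nat_lit 0)) (P (nat_lit 9694400712317861888))) (P (nat_lit 0))) (P (nat_lit 0)))))), (P (nat_lit 0)),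 (P (nat_lit 0)), (T.h (T.h (T.h (P (nat_lit 0)) (T.h (P (nat_lit 4847912892436371908541284352)) (T.h (P (nat_lit 0)) (P (nat_lit 3937142110085665783808))))) (T.h (P (nat_lit 0)) (T.h (T.h (P (nat_lit 0)) (P (nat_lit 4520338283428990418944))) (P (nat_lit 0))))) (T.h (T.h (P (nat_lit 0)) (T.h (T.h (M (nat_lit 6774779893922198139699199)) (T.h (P (nat_lit 0)) (P (nat_lit 34303312546880290816)))) (T.h (P (nat_lit 0)) (P (nat_lit 5978080759825563648))))) (T.h (T.h (T.h (P (nat_lit 0)) (P (nat_lit 7689282402489485754368))) (P (nat_lit 0))) (T.h (T.h (P (nat_lit 0)) (P (nat_lit 3330027300455448576))) (P (nat_lit 0)))))), (P (nat_lit 0))]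
def lQp_29 : List (T ℤ) := [(P (nat_lit 0)), (P (nat_lit 0)), (P (nat_lit 0)), (P (nat_lit 0)), (T.h (T.h (T.h (M (nat_lit 5102271648357133609590386065407)) (T.h (P (nat_lit 0)) (T.h (P (nat_lit 762840448463898280984576)) (T.h (P (nat_lit 0)) (P (nat_lit 675307117015465984)))))) (T.h (P (nat_lit 0)) (T.h (T.h (P (nat_lit 762840448463898280984576)) (T.h (P (nat_lit 0)) (M (nat_lit 6886114660404166655)))) (T.h (P (nat_lit 0)) (P (nat_lit 675307117015465984)))))) (T.h (T.h (P (nat_lit 0)) (T.h (T.h (P (nat_lit 0)) (P (nat_lit 2099872552613090164736))) (P (nat_lit 0)))) (T.h (T.h (T.h (P (nat_lit 3670530845706316062654464)) (T.h (P (nat_lit 0)) (M (nat_lit 992840272415031295)))) (T.h (P (nat_lit 0)) (M (nat_lit 992840272415031295)))) (T.h (P (nat_lit 0)) (M (nat_lit 1509074362290929663)))))), (T.h (T.h (T.h (P (nat_lit 0)) (T.h (M (nat_lit 53919904888201650914528854015)) (T.h (P (nat_lit 0)) (T.h (P (nat_lit 873530666480291545088)) (T.h (P (nat_lit 0)) (M (nat_lit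 336720620421119))))))) (T.h (P (nat_lit 0)) (T.h (T.h (P (nat_lit 0)) (T.h (M (nat_lit 2539739606505924591615)) (T.h (P (nat_lit 0)) (M (nat_lit 932545441562623))))) (T.h (P (nat_lit 0)) (T.h (T.h (P (nat_lit 0)) (P (nat_lit 420597048541184))) (P (nat_lit 0))))))) (T.h (T.h (P (nat_lit 0)) (T.h (T.h (M (nat_lit 1668310685256554960125951)) (T.h (P (nat_lit 0)) (M (nat_lit 3642813229240942591)))) (T.h (P (nat_lit 0)) (M (nat_lit 2552835554030911487))))) (T.h (T.h (T.h (P (nat_lit 0)) (T.h (M (nat_lit 9395881727339121344511)) (T.h (P (nat_lit 0)) (P (nat_lit 2256434608734208))))) (T.h (P (nat_lit 0)) (T.h (T.h (P (nat_lit 0)) (M (nat_lit 2891021512081407))) (P (nat_lit 0))))) (T.h (T.h (P (nat_lit 0)) (P (nat_lit 20098914546582814720))) (T.h (T.h (T.h (P (nat_lit 0)) (M (nat_lit 7551664551362559))) (P (nat_lit 0))) (P (nat_lit 0))))))), (T.h (T.h (T.h (M (nat_lit 14856572718678401679984347316223)) (T.h (P (nat_lit 0)) (T.h (P (nat_lit 146258586246510312161280))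 (T.h (P (nat_lit 0)) (M (nat_lit 111010873010552831)))))) (T.h (P (nat_lit 0)) (T.h (T.h (M (nat_lit 430512853632606770561023)) (T.h (P (nat_lit 0)) (M (nat_lit 716194899120095231)))) (T.h (P (nat_lit 0)) (M (nat_lit 458076090124992511)))))) (T.h (T.h (P (nat_lit 0)) (T.h (T.h (P (nat_lit 0)) (P (nat_lit 10406685990088444215296))) (P (nat_lit 0)))) (T.h (T.h (T.h (M (nat_lit 9143594504065898468343807)) (T.h (P (nat_lit 0)) (P (nat_lit 6245178489742295040)))) (T.h (P (nat_lit 0)) (P (nat_lit 14012339163622277120)))) (T.h (P (nat_lit 0)) (P (nat_lit 5994328141479280640)))))), (P (nat_lit 0))]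
def lQp_30 : List (T ℤ) := [(P (nat_lit 0)), (T.h (T.h (P (nat_lit 0)) (T.h (T.h (M (nat_lit 53919904888201650914528854015)) (T.h (P (nat_lit 0)) (T.h (M (nat_lit 2539739606505924591615)) (T.h (P (nat_lit 0)) (P (nat_lit 420597048541184)))))) (T.h (P (nat_lit 0)) (T.h (T.h (P (nat_lit 873530666480291545088)) (T.h (P (nat_lit 0)) (M (nat_lit 932545441562623)))) (T.h (P (nat_lit 0)) (M (nat_lit 336720620421119))))))) (T.h (T.h (T.h (P (nat_lit 0)) (T.h (M (nat_lit 1668310685256554960125951)) (T.h (P (nat_lit 0)) (M (nat_lit 2552835554030911487))))) (T.h (P (nat_lit 0)) (T.h (T.h (P (nat_lit 0)) (M (nat_lit 3642813229240942591))) (P (nat_lit 0))))) (T.h (T.h (P (nat_lit 0)) (T.h (T.h (M (nat_lit 9395881727339121344511)) (T.h (P (nat_lit 0)) (M (nat_lit 2891021512081407)))) (T.h (P (nat_lit 0)) (P (nat_lit 2256434608734208))))) (T.h (T.h (T.h (P (nat_lit 0)) (P (nat_lit 20098914546582814720))) (P (nat_lit 0))) (T.h (T.h (P (nat_lit 0)) (M (nat_lit 7551664551362559)))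 (P (nat_lit 0))))))), (T.h (T.h (P (nat_lit 0)) (T.h (T.h (P (nat_lit 0)) (T.h (M (nat_lit 469854802530439322927103)) (T.h (P (nat_lit 0)) (P (nat_lit 1902139663028584448))))) (T.h (P (nat_lit 0)) (T.h (T.h (P (nat_lit 0)) (P (nat_lit 1902139663028584448))) (P (nat_lit 0)))))) (T.h (T.h (T.h (P (nat_lit 4932787182799620835601547264)) (T.h (P (nat_lit 0)) (P (nat_lit 19024528249610334896128)))) (T.h (P (nat_lit 0)) (P (nat_lit 19024528249610334896128)))) (T.h (T.h (P (nat_lit 0)) (T.h (T.h (P (nat_lit 0)) (P (nat_lit 2405820120166301696))) (P (nat_lit 0)))) (P (nat_lit 22683376998001198235648))))), (P (nat_lit 0)), (P (nat_lit 0)), (T.h (T.h (T.h (M (nat_lit 14856572718678401679984347316223)) (T.h (P (nat_lit 0)) (T.h (M (nat_lit 430512853632606770561023)) (T.h (P (nat_lit 0)) (M (nat_lit 458076090124992511)))))) (T.h (P (nat_lit 0)) (T.h (T.h (P (nat_lit 146258586246510312161280)) (T.h (P (nat_lit 0)) (M (nat_lit 716194899120095231)))) (T.h (P (nat_lit 0))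 (M (nat_lit 111010873010552831)))))) (T.h (T.h (P (nat_lit 0)) (T.h (T.h (P (nat_lit 0)) (P (nat_lit 10406685990088444215296))) (P (nat_lit 0)))) (T.h (T.h (T.h (M (nat_lit 9143594504065898468343807)) (T.h (P (nat_lit 0)) (P (nat_lit 14012339163622277120)))) (T.h (P (nat_lit 0)) (P (nat_lit 6245178489742295040)))) (T.h (P (nat_lit 0)) (P (nat_lit 5994328141479280640)))))), (P (nat_lit 0)), (P (nat_lit 0))]
def lQp_31 : List (T ℤ) := [(P (nat_lit 0)), (P (nat_lit 0)), (P (nat_lit 0)), (T.h (T.h (P (nat_lit 0)) (T.h (T.h (P (nat_lit 0)) (P (nat_lit 1072738038739656689844224))) (P (nat_lit 0)))) (T.h (T.h (P (nat_lit 1261515900548784767341953024)) (T.h (P (nat_lit 0)) (T.h (T.h (P (nat_lit 0)) (T.h (P (nat_lit 0)) (P (nat_lit 14392249911083008)))) (P (nat_lit 0))))) (P (nat_lit 0)))), (T.h (T.h (P (nat_lit 0)) (T.h (T.h (P (nat_lit 471536197744369659130413056)) (T.h (P (nat_lit 0)) (P (nat_lit 391678135183836446720)))) (P (nat_lit 0)))) (T.h (T.h (T.h (P (nat_lit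 0)) (T.h (M (nat_lit 1514619882854388970029055)) (T.h (P (nat_lit 0)) (P (nat_lit 1155294519671914496))))) (T.h (P (nat_lit 0)) (T.h (T.h (P (nat_lit 0)) (P (nat_lit 5888628940288819200))) (P (nat_lit 0))))) (T.h (T.h (P (nat_lit 0)) (P (nat_lit 7121757884211567525888))) (T.h (T.h (T.h (P (nat_lit 0)) (M (nat_lit 7732904500595261439))) (P (nat_lit 0))) (P (nat_lit 0)))))), (P (nat_lit 0)), (P (nat_lit 0)), (T.h (T.h (T.h (P (nat_lit 0)) (P (nat_lit 471536197744369659130413056))) (T.h (P (nat_lit 0)) (T.h (T.h (P (nat_lit 0)) (P (nat_lit 391678135183836446720))) (P (nat_lit 0))))) (T.h (T.h (P (nat_lit 0)) (T.h (T.h (M (nat_lit 1514619882854388970029055)) (T.h (P (nat_lit 0)) (P (nat_lit 5888628940288819200)))) (T.h (P (nat_lit 0)) (P (nat_lit 1155294519671914496))))) (T.h (T.h (T.h (P (nat_lit 0)) (P (nat_lit 7121757884211567525888))) (P (nat_lit 0))) (T.h (T.h (P (nat_lit 0)) (M (nat_lit 7732904500595261439))) (P (nat_lit 0))))))]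
def lQp_32 : List (T ℤ) := [(P (nat_lit 0)), (P (nat_lit 0)), (P (nat_lit 0)), (P (nat_lit 0)), (P (nat_lit 0)), (T.h (T.h (P (nat_lit 0)) (T.h (P (nat_lit 0)) (T.h (T.h (P (nat_lit 0)) (T.h (P (nat_lit 0)) (P (nat_lit 3684415977237250048)))) (P (nat_lit 0))))) (P (nat_lit 0))), (P (nat_lit 0)), (P (nat_lit 0))]
def lQp_33 : List (T ℤ) := [(P (nat_lit 0)), (P (nat_lit 0)), (P (nat_lit 0)), (P (nat_lit 0)), (P (nat_lit 0)), (P (nat_lit 0)), (P (nat_lit 0))]

def CQp : List (T ℤ) := lQp_0 ++ (lQp_1 ++ (lQp_2 ++ (lQp_3 ++ (lQp_4 ++ (lQp_5 ++ (lQp_6 ++ (lQp_7 ++ (lQp_8 ++ (lQp_9 ++ (lQp_10 ++ (lQp_11 ++ (lQp_12 ++ (lQp_13 ++ (lQp_14 ++ (lQp_15 ++ (lQp_16 ++ (lQp_17 ++ (lQp_18 ++ (lQp_19 ++ (lQp_20 ++ (lQp_21 ++ (lQp_22 ++ (lQp_23 ++ (lQp_24 ++ (lQp_25 ++ (lQp_26 ++ (lQp_27 ++ (lQp_28 ++ (lQp_29 ++ (lQp_30 ++ (lQp_31 ++ (lQp_32 ++ (lQp_33)))))))))))))))))))))))))))))))))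

/-- norms at radius 1536 -/
def NQp : List ℕ := [(nat_lit 5034231565398356583608483840000), (nat_lit 0), (nat_lit 56356923892648744447542462251008), (nat_lit 201805458060049021286171289845760), (nat_lit 90272052234205004316612902256640), (nat_lit 127519488071371178842269287448576), (nat_lit 20508482180713654728318221549568), (nat_lit 0), (nat_lit 0), (nat_lit 0), (nat_lit 253973338971515930342234366410752), (nat_lit 491203516948979386956269179895808), (nat_lit 331806725141922021264964492197888), (nat_lit 402561632777530113936378631815168), (nat_lit 113777423361434251459957899657216), (nat_lit 0), (nat_lit 0), (nat_lit 0), (nat_lit 604986961073511986915772091858944), (nat_lit 659560979905725986460640990986240), (nat_lit 719418680663611085839094842916864), (nat_lit 624393623068146857977735664369664), (nat_lit 228781657724013018077053130375168), (nat_lit 0), (nat_lit 0), (nat_lit 253973338971515930342234366410752), (nat_lit 659560979905725986460640990986240),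 (nat_lit 657133651049611343777964182470656), (nat_lit 1221911418855492375993248410238976), (nat_lit 324697288678183930659515224031232), (nat_lit 0), (nat_lit 0), (nat_lit 56356923892648744447542462251008), (nat_lit 491203516948979386956269179895808), (nat_lit 719418680663611085839094842916864), (nat_lit 1221911418855492375993248410238976), (nat_lit 388795196646809713370666756997120), (nat_lit 0), (nat_lit 0), (nat_lit 201805458060049021286171289845760), (nat_lit 331806725141922021264964492197888), (nat_lit 624393623068146857977735664369664), (nat_lit 324697288678183930659515224031232), (nat_lit 0), (nat_lit 0), (nat_lit 90272052234205004316612902256640), (nat_lit 402561632777530113936378631815168), (nat_lit 228781657724013018077053130375168), (nat_lit 0), (nat_lit 0), (nat_lit 127519488071371178842269287448576), (nat_lit 113777423361434251459957899657216), (nat_lit 0), (nat_lit 0), (nat_lit 20508482180713654728318221549568), (nat_lit 0), (nat_lit 0), (nat_lit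 0), (nat_lit 0), (nat_lit 0), (nat_lit 253973338971515930342234366410752), (nat_lit 491203516948979386956269179895808), (nat_lit 331806725141922021264964492197888), (nat_lit 402561632777530113936378631815168), (nat_lit 113777423361434251459957899657216), (nat_lit 0), (nat_lit 0), (nat_lit 731934159693721513838822270435328), (nat_lit 848621430998222103226531367092224), (nat_lit 764379136104987013582779051933696), (nat_lit 715806615893325026554107534508032), (nat_lit 263339394684755857721812775337984), (nat_lit 0), (nat_lit 0), (nat_lit 731934159693721513838822270435328), (nat_lit 1734110454604410426537015867604992), (nat_lit 1817857360161002049024441930743808), (nat_lit 2282770801509457457574998729293824), (nat_lit 659833631278547047872015064104960), (nat_lit 0), (nat_lit 0), (nat_lit 253973338971515930342234366410752), (nat_lit 848621430998222103226531367092224), (nat_lit 1817857360161002049024441930743808), (nat_lit 2467067006771692788325135882911744), (nat_lit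 727051591867252990889850166050816), (nat_lit 0), (nat_lit 0), (nat_lit 491203516948979386956269179895808), (nat_lit 764379136104987013582779051933696), (nat_lit 2282770801509457457574998729293824), (nat_lit 727051591867252990889850166050816), (nat_lit 0), (nat_lit 0), (nat_lit 331806725141922021264964492197888), (nat_lit 715806615893325026554107534508032), (nat_lit 659833631278547047872015064104960), (nat_lit 0), (nat_lit 0), (nat_lit 402561632777530113936378631815168), (nat_lit 263339394684755857721812775337984), (nat_lit 0), (nat_lit 0), (nat_lit 113777423361434251459957899657216), (nat_lit 0), (nat_lit 0), (nat_lit 0), (nat_lit 0), (nat_lit 0), (nat_lit 0), (nat_lit 604986961073511986915772091858944), (nat_lit 659560979905725986460640990986240), (nat_lit 719418680663611085839094842916864), (nat_lit 624393623068146857977735664369664), (nat_lit 228781657724013018077053130375168), (nat_lit 0), (nat_lit 0), (nat_lit 731934159693721513838822270435328), (nat_lit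 1734110454604410426537015867604992), (nat_lit 1817857360161002049024441930743808), (nat_lit 2282770801509457457574998729293824), (nat_lit 659833631278547047872015064104960), (nat_lit 0), (nat_lit 0), (nat_lit 604986961073511986915772091858944), (nat_lit 1734110454604410426537015867604992), (nat_lit 3298894514325389200541244645703680), (nat_lit 4049459392368446121939694686044160), (nat_lit 806053491370415236442152515928064), (nat_lit 0), (nat_lit 0), (nat_lit 659560979905725986460640990986240), (nat_lit 1817857360161002049024441930743808), (nat_lit 4049459392368446121939694686044160), (nat_lit 1124585116566847220342967093952512), (nat_lit 0), (nat_lit 0), (nat_lit 719418680663611085839094842916864), (nat_lit 2282770801509457457574998729293824), (nat_lit 806053491370415236442152515928064), (nat_lit 0), (nat_lit 0), (nat_lit 624393623068146857977735664369664), (nat_lit 659833631278547047872015064104960), (nat_lit 0), (nat_lit 0), (nat_lit 228781657724013018077053130375168),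 (nat_lit 0), (nat_lit 0), (nat_lit 0), (nat_lit 0), (nat_lit 0), (nat_lit 253973338971515930342234366410752), (nat_lit 659560979905725986460640990986240), (nat_lit 657133651049611343777964182470656), (nat_lit 1221911418855492375993248410238976), (nat_lit 324697288678183930659515224031232), (nat_lit 0), (nat_lit 0), (nat_lit 253973338971515930342234366410752), (nat_lit 848621430998222103226531367092224), (nat_lit 1817857360161002049024441930743808), (nat_lit 2467067006771692788325135882911744), (nat_lit 727051591867252990889850166050816), (nat_lit 0), (nat_lit 0), (nat_lit 659560979905725986460640990986240), (nat_lit 1817857360161002049024441930743808), (nat_lit 4049459392368446121939694686044160), (nat_lit 1124585116566847220342967093952512), (nat_lit 0), (nat_lit 0), (nat_lit 657133651049611343777964182470656), (nat_lit 2467067006771692788325135882911744), (nat_lit 1124585116566847220342967093952512), (nat_lit 0), (nat_lit 0), (nat_lit 1221911418855492375993248410238976),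 (nat_lit 727051591867252990889850166050816), (nat_lit 0), (nat_lit 0), (nat_lit 324697288678183930659515224031232), (nat_lit 0), (nat_lit 0), (nat_lit 0), (nat_lit 0), (nat_lit 0), (nat_lit 56356923892648744447542462251008), (nat_lit 491203516948979386956269179895808), (nat_lit 719418680663611085839094842916864), (nat_lit 1221911418855492375993248410238976), (nat_lit 388795196646809713370666756997120), (nat_lit 0), (nat_lit 0), (nat_lit 491203516948979386956269179895808), (nat_lit 764379136104987013582779051933696), (nat_lit 2282770801509457457574998729293824), (nat_lit 727051591867252990889850166050816), (nat_lit 0), (nat_lit 0), (nat_lit 719418680663611085839094842916864), (nat_lit 2282770801509457457574998729293824), (nat_lit 806053491370415236442152515928064), (nat_lit 0), (nat_lit 0), (nat_lit 1221911418855492375993248410238976), (nat_lit 727051591867252990889850166050816), (nat_lit 0), (nat_lit 0), (nat_lit 388795196646809713370666756997120), (nat_lit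 0), (nat_lit 0), (nat_lit 0), (nat_lit 0), (nat_lit 0), (nat_lit 201805458060049021286171289845760), (nat_lit 331806725141922021264964492197888), (nat_lit 624393623068146857977735664369664), (nat_lit 324697288678183930659515224031232), (nat_lit 0), (nat_lit 0), (nat_lit 331806725141922021264964492197888), (nat_lit 715806615893325026554107534508032), (nat_lit 659833631278547047872015064104960), (nat_lit 0), (nat_lit 0), (nat_lit 624393623068146857977735664369664), (nat_lit 659833631278547047872015064104960), (nat_lit 0), (nat_lit 0), (nat_lit 324697288678183930659515224031232), (nat_lit 0), (nat_lit 0), (nat_lit 0), (nat_lit 0), (nat_lit 0), (nat_lit 90272052234205004316612902256640), (nat_lit 402561632777530113936378631815168), (nat_lit 228781657724013018077053130375168), (nat_lit 0), (nat_lit 0), (nat_lit 402561632777530113936378631815168), (nat_lit 263339394684755857721812775337984), (nat_lit 0), (nat_lit 0), (nat_lit 228781657724013018077053130375168),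 (nat_lit 0), (nat_lit 0), (nat_lit 0), (nat_lit 0), (nat_lit 0), (nat_lit 127519488071371178842269287448576), (nat_lit 113777423361434251459957899657216), (nat_lit 0), (nat_lit 0), (nat_lit 113777423361434251459957899657216), (nat_lit 0), (nat_lit 0), (nat_lit 0), (nat_lit 0), (nat_lit 0), (nat_lit 20508482180713654728318221549568), (nat_lit 0), (nat_lit 0), (nat_lit 0), (nat_lit 0), (nat_lit 0), (nat_lit 0), (nat_lit 0), (nat_lit 0), (nat_lit 0)]


def lQm_0 : List (T ℤ) := [(P (nat_lit 5034231565398356583608483840000)), (P (nat_lit 0)), (T.h (T.h (T.h (P (nat_lit 96674775480032858528316129280)) (T.h (P (nat_lit 0)) (T.h (M (nat_lit 1539936402037090780446719)) (T.h (P (nat_lit 0)) (M (nat_lit 86536408218468351)))))) (T.h (P (nat_lit 0)) (T.h (T.h (M (nat_lit 817570893295480970674175)) (T.h (P (nat_lit 0)) (P (nat_lit 712178620038119424)))) (T.h (P (nat_lit 0)) (M (nat_lit 692532370447794175)))))) (T.h (T.h (P (nat_lit 0)) (T.h (T.h (P (nat_lit 0)) (T.h (M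 (nat_lit 2618989352391739965439)) (T.h (P (nat_lit 0)) (M (nat_lit 294768566599679))))) (T.h (P (nat_lit 0)) (T.h (T.h (P (nat_lit 0)) (M (nat_lit 129461949038591))) (P (nat_lit 0)))))) (T.h (T.h (T.h (M (nat_lit 817570893295480970674175)) (T.h (P (nat_lit 0)) (P (nat_lit 712178620038119424)))) (T.h (P (nat_lit 0)) (P (nat_lit 3310063201005076480)))) (T.h (T.h (P (nat_lit 0)) (T.h (T.h (P (nat_lit 0)) (M (nat_lit 129461949038591))) (P (nat_lit 0)))) (M (nat_lit 692532370447794175)))))), (T.h (T.h (T.h (P (nat_lit 0)) (T.h (P (nat_lit 1109688626837800921969197056)) (T.h (P (nat_lit 0)) (T.h (M (nat_lit 1632973904196313022463)) (T.h (P (nat_lit 0)) (P (nat_lit 1548350442700800))))))) (T.h (P (nat_lit 0)) (T.h (T.h (P (nat_lit 0)) (T.h (P (nat_lit 1012050865393395302400)) (T.h (P (nat_lit 0)) (P (nat_lit 2515445769142272))))) (T.h (P (nat_lit 0)) (T.h (T.h (P (nat_lit 0)) (M (nat_lit 119998737022975))) (P (nat_lit 0))))))) (T.h (T.h (P (nat_lit 0)) (T.h (T.h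 (P (nat_lit 1240065049510957740457984)) (T.h (P (nat_lit 0)) (M (nat_lit 5646720424898199551)))) (T.h (P (nat_lit 0)) (M (nat_lit 170667393696137215))))) (T.h (T.h (T.h (P (nat_lit 0)) (T.h (P (nat_lit 1012050865393395302400)) (T.h (P (nat_lit 0)) (P (nat_lit 2515445769142272))))) (T.h (P (nat_lit 0)) (T.h (T.h (P (nat_lit 0)) (P (nat_lit 10794187433312256))) (P (nat_lit 0))))) (T.h (T.h (P (nat_lit 0)) (M (nat_lit 170667393696137215))) (T.h (T.h (T.h (P (nat_lit 0)) (M (nat_lit 119998737022975))) (P (nat_lit 0))) (P (nat_lit 0))))))), (T.h (T.h (T.h (M (nat_lit 5102271648357133609590386065407)) (T.h (P (nat_lit 0)) (T.h (P (nat_lit 3670530845706316062654464)) (T.h (P (nat_lit 0)) (M (nat_lit 1509074362290929663)))))) (T.h (P (nat_lit 0)) (T.h (T.h (P (nat_lit 762840448463898280984576)) (T.h (P (nat_lit 0)) (M (nat_lit 992840272415031295)))) (T.h (P (nat_lit 0)) (P (nat_lit 675307117015465984)))))) (T.h (T.h (P (nat_lit 0)) (T.h (T.h (P (nat_lit 0)) (P (nat_lit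 2099872552613090164736))) (P (nat_lit 0)))) (T.h (T.h (T.h (P (nat_lit 762840448463898280984576)) (T.h (P (nat_lit 0)) (M (nat_lit 992840272415031295)))) (T.h (P (nat_lit 0)) (M (nat_lit 6886114660404166655)))) (T.h (P (nat_lit 0)) (P (nat_lit 675307117015465984)))))), (T.h (T.h (T.h (P (nat_lit 0)) (M (nat_lit 1261515900548784767341953023))) (P (nat_lit 0))) (T.h (T.h (P (nat_lit 0)) (M (nat_lit 1072738038739656689844223))) (T.h (T.h (P (nat_lit 0)) (T.h (P (nat_lit 0)) (T.h (T.h (P (nat_lit 0)) (M (nat_lit 14392249911083007))) (P (nat_lit 0))))) (P (nat_lit 0))))), (T.h (P (nat_lit 0)) (T.h (P (nat_lit 0)) (T.h (T.h (P (nat_lit 0)) (T.h (P (nat_lit 0)) (P (nat_lit 3684415977237250048)))) (P (nat_lit 0))))), (P (nat_lit 0))]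
def lQm_1 : List (T ℤ) := [(P (nat_lit 0)), (P (nat_lit 0)), (T.h (T.h (P (nat_lit 0)) (T.h (T.h (P (nat_lit 0)) (T.h (M (nat_lit 9930660340720679142817791)) (T.h (P (nat_lit 0)) (P (nat_lit 5817303471073787904))))) (T.h (P (nat_lit 0)) (T.h (T.h (P (nat_lit 0)) (P (nat_lit 4498897606964936704))) (P (nat_lit 0)))))) (T.h (T.h (T.h (P (nat_lit 2874759264551899117903675392)) (T.h (P (nat_lit 0)) (T.h (P (nat_lit 7643476739830000386048)) (T.h (P (nat_lit 0)) (M (nat_lit 5476709220483071)))))) (T.h (P (nat_lit 0)) (T.h (T.h (P (nat_lit 1940289171074890858496)) (T.h (P (nat_lit 0)) (M (nat_lit 2788580132061183)))) (T.h (P (nat_lit 0)) (M (nat_lit 1082473110175743)))))) (T.h (T.h (P (nat_lit 0)) (T.h (T.h (P (nat_lit 0)) (M (nat_lit 717555307059871743))) (P (nat_lit 0)))) (T.h (T.h (T.h (M (nat_lit 738474885769798352895)) (T.h (P (nat_lit 0)) (P (nat_lit 4065623452418048)))) (T.h (P (nat_lit 0)) (P (nat_lit 622586800177152)))) (T.h (P (nat_lit 0)) (M (nat_lit 853826605940735))))))),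 (T.h (T.h (P (nat_lit 0)) (T.h (T.h (M (nat_lit 53881732118352720053892284415)) (T.h (P (nat_lit 0)) (T.h (M (nat_lit 4044796161900521979903)) (T.h (P (nat_lit 0)) (M (nat_lit 7839521280917503)))))) (T.h (P (nat_lit 0)) (T.h (T.h (P (nat_lit 1138092656815090171904)) (T.h (P (nat_lit 0)) (P (nat_lit 4746482182750208)))) (T.h (P (nat_lit 0)) (M (nat_lit 453536361119743))))))) (T.h (T.h (T.h (P (nat_lit 0)) (T.h (M (nat_lit 6257322254999635160465407)) (T.h (P (nat_lit 0)) (P (nat_lit 18700725765254676480))))) (T.h (P (nat_lit 0)) (T.h (T.h (P (nat_lit 0)) (P (nat_lit 778044669081681920))) (P (nat_lit 0))))) (T.h (T.h (P (nat_lit 0)) (T.h (T.h (M (nat_lit 1180029681764931731455)) (T.h (P (nat_lit 0)) (P (nat_lit 12727986820939776)))) (T.h (P (nat_lit 0)) (M (nat_lit 444352593395711))))) (T.h (T.h (T.h (P (nat_lit 0)) (M (nat_lit 6181027965124476927))) (P (nat_lit 0))) (T.h (T.h (P (nat_lit 0)) (M (nat_lit 430876221964287))) (P (nat_lit 0))))))), (T.h (T.h (P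 (nat_lit 0)) (T.h (T.h (P (nat_lit 0)) (T.h (P (nat_lit 12476825063754065334239232)) (T.h (P (nat_lit 0)) (M (nat_lit 486026124057378815))))) (T.h (P (nat_lit 0)) (T.h (T.h (P (nat_lit 0)) (M (nat_lit 739178953956130815))) (P (nat_lit 0)))))) (T.h (T.h (T.h (M (nat_lit 3383368649401081921863155711)) (T.h (P (nat_lit 0)) (T.h (M (nat_lit 12643918027596247334911)) (T.h (P (nat_lit 0)) (P (nat_lit 9250554945142784)))))) (T.h (P (nat_lit 0)) (T.h (T.h (M (nat_lit 4611647519577497141247)) (T.h (P (nat_lit 0)) (M (nat_lit 8840244534575103)))) (T.h (P (nat_lit 0)) (M (nat_lit 109270719660031)))))) (T.h (T.h (P (nat_lit 0)) (T.h (T.h (P (nat_lit 0)) (M (nat_lit 3731576025025347583))) (P (nat_lit 0)))) (T.h (T.h (T.h (P (nat_lit 1055328876714705027072)) (T.h (P (nat_lit 0)) (M (nat_lit 4362756073783295)))) (T.h (P (nat_lit 0)) (M (nat_lit 237439028822015)))) (T.h (P (nat_lit 0)) (P (nat_lit 969414783074304))))))), (T.h (T.h (P (nat_lit 0)) (T.h (T.h (P (nat_lit 53919904888201650914528854016))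 (T.h (P (nat_lit 0)) (T.h (P (nat_lit 9395881727339121344512)) (T.h (P (nat_lit 0)) (P (nat_lit 7551664551362560)))))) (T.h (P (nat_lit 0)) (T.h (T.h (M (nat_lit 873530666480291545087)) (T.h (P (nat_lit 0)) (M (nat_lit 2256434608734207)))) (T.h (P (nat_lit 0)) (P (nat_lit 336720620421120))))))) (T.h (T.h (T.h (P (nat_lit 0)) (T.h (P (nat_lit 1668310685256554960125952)) (T.h (P (nat_lit 0)) (M (nat_lit 20098914546582814719))))) (T.h (P (nat_lit 0)) (T.h (T.h (P (nat_lit 0)) (P (nat_lit 3642813229240942592))) (P (nat_lit 0))))) (T.h (T.h (P (nat_lit 0)) (T.h (T.h (P (nat_lit 2539739606505924591616)) (T.h (P (nat_lit 0)) (P (nat_lit 2891021512081408)))) (T.h (P (nat_lit 0)) (P (nat_lit 932545441562624))))) (T.h (T.h (T.h (P (nat_lit 0)) (P (nat_lit 2552835554030911488))) (P (nat_lit 0))) (T.h (T.h (P (nat_lit 0)) (M (nat_lit 420597048541183))) (P (nat_lit 0))))))), (T.h (T.h (P (nat_lit 0)) (T.h (T.h (P (nat_lit 0)) (T.h (M (nat_lit 1514619882854388970029055))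 (T.h (P (nat_lit 0)) (M (nat_lit 7732904500595261439))))) (T.h (P (nat_lit 0)) (T.h (T.h (P (nat_lit 0)) (P (nat_lit 1155294519671914496))) (P (nat_lit 0)))))) (T.h (T.h (T.h (P (nat_lit 471536197744369659130413056)) (T.h (P (nat_lit 0)) (P (nat_lit 7121757884211567525888)))) (T.h (P (nat_lit 0)) (P (nat_lit 391678135183836446720)))) (T.h (T.h (P (nat_lit 0)) (T.h (T.h (P (nat_lit 0)) (P (nat_lit 5888628940288819200))) (P (nat_lit 0)))) (P (nat_lit 0))))), (P (nat_lit 0))]
def lQm_2 : List (T ℤ) := [(P (nat_lit 0)), (P (nat_lit 0)), (T.h (T.h (T.h (M (nat_lit 460972935309887569520215719935)) (T.h (P (nat_lit 0)) (T.h (M (nat_lit 2029091353749028599758847)) (T.h (P (nat_lit 0)) (M (nat_lit 1526433197796098047)))))) (T.h (P (nat_lit 0)) (T.h (T.h (M (nat_lit 2029091353749028599758847)) (T.h (P (nat_lit 0)) (P (nat_lit 3990713706295066624)))) (T.h (P (nat_lit 0)) (M (nat_lit 1526433197796098047)))))) (T.h (T.h (P (nat_lit 0)) (T.h (T.h (P (nat_lit 0)) (T.h (M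 (nat_lit 38255836290387560890367)) (T.h (P (nat_lit 0)) (M (nat_lit 15267448728518655))))) (T.h (P (nat_lit 0)) (T.h (T.h (P (nat_lit 0)) (M (nat_lit 15267448728518655))) (P (nat_lit 0)))))) (T.h (T.h (T.h (P (nat_lit 0)) (T.h (P (nat_lit 0)) (P (nat_lit 2998689982794694656)))) (T.h (P (nat_lit 0)) (P (nat_lit 2998689982794694656)))) (T.h (T.h (P (nat_lit 0)) (T.h (T.h (P (nat_lit 0)) (M (nat_lit 14346539850792959))) (P (nat_lit 0)))) (P (nat_lit 0)))))), (T.h (T.h (T.h (P (nat_lit 0)) (T.h (P (nat_lit 2893234167580437187150217216)) (T.h (P (nat_lit 0)) (T.h (M (nat_lit 4887624969485354532863)) (T.h (P (nat_lit 0)) (P (nat_lit 842086408290304))))))) (T.h (P (nat_lit 0)) (T.h (T.h (P (nat_lit 0)) (T.h (M (nat_lit 13617996589596695068671)) (T.h (P (nat_lit 0)) (P (nat_lit 6314639862071296))))) (T.h (P (nat_lit 0)) (T.h (T.h (P (nat_lit 0)) (P (nat_lit 2004594498371584))) (P (nat_lit 0))))))) (T.h (T.h (P (nat_lit 0)) (T.h (T.h (P (nat_lit 6345143623172862576164864))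 (T.h (P (nat_lit 0)) (P (nat_lit 50860561505563181056)))) (T.h (P (nat_lit 0)) (P (nat_lit 7388629735611301888))))) (T.h (T.h (T.h (P (nat_lit 0)) (T.h (P (nat_lit 11824404982278817579008)) (T.h (P (nat_lit 0)) (P (nat_lit 1940300321947648))))) (T.h (P (nat_lit 0)) (T.h (T.h (P (nat_lit 0)) (P (nat_lit 6806374653853696))) (P (nat_lit 0))))) (T.h (T.h (P (nat_lit 0)) (P (nat_lit 7924019583034327040))) (T.h (T.h (T.h (P (nat_lit 0)) (P (nat_lit 1027658480451584))) (P (nat_lit 0))) (P (nat_lit 0))))))), (T.h (T.h (T.h (M (nat_lit 338361714180115004849106452479)) (T.h (P (nat_lit 0)) (T.h (P (nat_lit 2603676508804139699929088)) (T.h (P (nat_lit 0)) (P (nat_lit 287525050649673728)))))) (T.h (P (nat_lit 0)) (T.h (T.h (P (nat_lit 7992072388334565537611776)) (T.h (P (nat_lit 0)) (P (nat_lit 621163191484809216)))) (T.h (P (nat_lit 0)) (P (nat_lit 3286178180813029376)))))) (T.h (T.h (P (nat_lit 0)) (T.h (T.h (P (nat_lit 0)) (T.h (P (nat_lit 44631809005452154372096))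 (T.h (P (nat_lit 0)) (P (nat_lit 21157774929887232))))) (T.h (P (nat_lit 0)) (T.h (T.h (P (nat_lit 0)) (P (nat_lit 3431794116395008))) (P (nat_lit 0)))))) (T.h (T.h (T.h (P (nat_lit 0)) (T.h (P (nat_lit 0)) (M (nat_lit 25365486172786130943)))) (T.h (P (nat_lit 0)) (M (nat_lit 5653982591758368767)))) (T.h (T.h (P (nat_lit 0)) (T.h (T.h (P (nat_lit 0)) (P (nat_lit 14212069352800256))) (P (nat_lit 0)))) (P (nat_lit 823250967452450816)))))), (T.h (T.h (T.h (P (nat_lit 0)) (T.h (M (nat_lit 3735944699976290291876364287)) (T.h (P (nat_lit 0)) (T.h (P (nat_lit 12711068152419347070976)) (T.h (P (nat_lit 0)) (M (nat_lit 6193401770803199))))))) (T.h (P (nat_lit 0)) (T.h (T.h (P (nat_lit 0)) (T.h (M (nat_lit 3434406944769488977919)) (T.h (P (nat_lit 0)) (M (nat_lit 5875308216451071))))) (T.h (P (nat_lit 0)) (T.h (T.h (P (nat_lit 0)) (M (nat_lit 1249966879408127))) (P (nat_lit 0))))))) (T.h (T.h (P (nat_lit 0)) (T.h (T.h (M (nat_lit 13141655625837937975885823)) (T.h (P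 (nat_lit 0)) (M (nat_lit 32193241223916421119)))) (T.h (P (nat_lit 0)) (M (nat_lit 876166944988856319))))) (T.h (T.h (T.h (P (nat_lit 0)) (T.h (P (nat_lit 5909524652010437083136)) (T.h (P (nat_lit 0)) (M (nat_lit 19208907123326975))))) (P (nat_lit 0))) (T.h (T.h (P (nat_lit 0)) (M (nat_lit 4788280243653705727))) (T.h (T.h (T.h (P (nat_lit 0)) (P (nat_lit 2209956775591936))) (P (nat_lit 0))) (P (nat_lit 0))))))), (T.h (T.h (T.h (M (nat_lit 14856572718678401679984347316223)) (T.h (P (nat_lit 0)) (T.h (M (nat_lit 9143594504065898468343807)) (T.h (P (nat_lit 0)) (P (nat_lit 5994328141479280640)))))) (T.h (P (nat_lit 0)) (T.h (T.h (P (nat_lit 146258586246510312161280)) (T.h (P (nat_lit 0)) (P (nat_lit 6245178489742295040)))) (T.h (P (nat_lit 0)) (M (nat_lit 111010873010552831)))))) (T.h (T.h (P (nat_lit 0)) (T.h (T.h (P (nat_lit 0)) (P (nat_lit 10406685990088444215296))) (P (nat_lit 0)))) (T.h (T.h (T.h (M (nat_lit 430512853632606770561023)) (T.h (P (nat_lit 0))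 (P (nat_lit 14012339163622277120)))) (T.h (P (nat_lit 0)) (M (nat_lit 716194899120095231)))) (T.h (P (nat_lit 0)) (M (nat_lit 458076090124992511)))))), (P (nat_lit 0))]
def lQm_3 : List (T ℤ) := [(P (nat_lit 0)), (T.h (T.h (P (nat_lit 0)) (T.h (T.h (P (nat_lit 0)) (T.h (M (nat_lit 9930660340720679142817791)) (T.h (P (nat_lit 0)) (P (nat_lit 4498897606964936704))))) (T.h (P (nat_lit 0)) (T.h (T.h (P (nat_lit 0)) (P (nat_lit 5817303471073787904))) (P (nat_lit 0)))))) (T.h (T.h (T.h (P (nat_lit 2874759264551899117903675392)) (T.h (P (nat_lit 0)) (T.h (P (nat_lit 1940289171074890858496)) (T.h (P (nat_lit 0)) (M (nat_lit 1082473110175743)))))) (T.h (P (nat_lit 0)) (T.h (T.h (P (nat_lit 7643476739830000386048)) (T.h (P (nat_lit 0)) (M (nat_lit 2788580132061183)))) (T.h (P (nat_lit 0)) (M (nat_lit 5476709220483071)))))) (T.h (T.h (P (nat_lit 0)) (T.h (T.h (P (nat_lit 0)) (M (nat_lit 717555307059871743))) (P (nat_lit 0)))) (T.h (T.h (T.h (M (nat_lit 738474885769798352895))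 (T.h (P (nat_lit 0)) (P (nat_lit 622586800177152)))) (T.h (P (nat_lit 0)) (P (nat_lit 4065623452418048)))) (T.h (P (nat_lit 0)) (M (nat_lit 853826605940735))))))), (T.h (T.h (P (nat_lit 0)) (T.h (T.h (P (nat_lit 2893234167580437187150217216)) (T.h (P (nat_lit 0)) (T.h (M (nat_lit 13617996589596695068671)) (T.h (P (nat_lit 0)) (P (nat_lit 2004594498371584)))))) (T.h (P (nat_lit 0)) (T.h (T.h (M (nat_lit 4887624969485354532863)) (T.h (P (nat_lit 0)) (P (nat_lit 6314639862071296)))) (T.h (P (nat_lit 0)) (P (nat_lit 842086408290304))))))) (T.h (T.h (T.h (P (nat_lit 0)) (T.h (P (nat_lit 6345143623172862576164864)) (T.h (P (nat_lit 0)) (P (nat_lit 7388629735611301888))))) (T.h (P (nat_lit 0)) (T.h (T.h (P (nat_lit 0)) (P (nat_lit 50860561505563181056))) (P (nat_lit 0))))) (T.h (T.h (P (nat_lit 0)) (T.h (T.h (P (nat_lit 11824404982278817579008)) (T.h (P (nat_lit 0)) (P (nat_lit 6806374653853696)))) (T.h (P (nat_lit 0)) (P (nat_lit 1940300321947648))))) (T.h (T.h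 (T.h (P (nat_lit 0)) (P (nat_lit 7924019583034327040))) (P (nat_lit 0))) (T.h (T.h (P (nat_lit 0)) (P (nat_lit 1027658480451584))) (P (nat_lit 0))))))), (T.h (T.h (P (nat_lit 0)) (T.h (T.h (P (nat_lit 0)) (T.h (P (nat_lit 21119259783786610263326720)) (T.h (P (nat_lit 0)) (M (nat_lit 6992613337276088319))))) (T.h (P (nat_lit 0)) (T.h (T.h (P (nat_lit 0)) (M (nat_lit 6992613337276088319))) (P (nat_lit 0)))))) (T.h (T.h (T.h (P (nat_lit 895513046034761536558333952)) (T.h (P (nat_lit 0)) (T.h (M (nat_lit 6463124172456798978047)) (T.h (P (nat_lit 0)) (P (nat_lit 3126952219639808)))))) (T.h (P (nat_lit 0)) (T.h (T.h (M (nat_lit 6463124172456798978047)) (T.h (P (nat_lit 0)) (P (nat_lit 12393691856896000)))) (T.h (P (nat_lit 0)) (P (nat_lit 3126952219639808)))))) (T.h (T.h (P (nat_lit 0)) (T.h (T.h (P (nat_lit 0)) (M (nat_lit 40155659876563943423))) (P (nat_lit 0)))) (T.h (T.h (T.h (M (nat_lit 8232267397385362079743)) (T.h (P (nat_lit 0)) (M (nat_lit 2953990688538623))))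 (T.h (P (nat_lit 0)) (M (nat_lit 2953990688538623)))) (T.h (P (nat_lit 0)) (P (nat_lit 2099127109287936))))))), (T.h (T.h (P (nat_lit 0)) (T.h (T.h (P (nat_lit 45104481563519293712781803520)) (T.h (P (nat_lit 0)) (T.h (P (nat_lit 15760965022728488747008)) (T.h (P (nat_lit 0)) (M (nat_lit 314325677375487)))))) (T.h (P (nat_lit 0)) (T.h (T.h (M (nat_lit 6284115532348582264831)) (T.h (P (nat_lit 0)) (M (nat_lit 9176005225218047)))) (T.h (P (nat_lit 0)) (M (nat_lit 278797762428927))))))) (T.h (T.h (T.h (P (nat_lit 0)) (T.h (M (nat_lit 29437568468312463620702207)) (T.h (P (nat_lit 0)) (M (nat_lit 13596485790493310975))))) (T.h (P (nat_lit 0)) (T.h (T.h (P (nat_lit 0)) (M (nat_lit 27921786404926914559))) (P (nat_lit 0))))) (T.h (T.h (P (nat_lit 0)) (T.h (T.h (P (nat_lit 452581749181831446528)) (T.h (P (nat_lit 0)) (M (nat_lit 66998657318125567)))) (T.h (P (nat_lit 0)) (M (nat_lit 629802396286975))))) (T.h (T.h (T.h (P (nat_lit 0)) (M (nat_lit 17039829687691378687)))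 (P (nat_lit 0))) (T.h (T.h (P (nat_lit 0)) (P (nat_lit 1633424815423488))) (P (nat_lit 0))))))), (T.h (T.h (P (nat_lit 0)) (T.h (T.h (P (nat_lit 0)) (T.h (M (nat_lit 6774779893922198139699199)) (T.h (P (nat_lit 0)) (P (nat_lit 3330027300455448576))))) (T.h (P (nat_lit 0)) (T.h (T.h (P (nat_lit 0)) (P (nat_lit 5978080759825563648))) (P (nat_lit 0)))))) (T.h (T.h (T.h (P (nat_lit 4847912892436371908541284352)) (T.h (P (nat_lit 0)) (P (nat_lit 7689282402489485754368)))) (T.h (P (nat_lit 0)) (P (nat_lit 4520338283428990418944)))) (T.h (T.h (P (nat_lit 0)) (T.h (T.h (P (nat_lit 0)) (P (nat_lit 34303312546880290816))) (P (nat_lit 0)))) (P (nat_lit 3937142110085665783808))))), (P (nat_lit 0)), (P (nat_lit 0))]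
def lQm_4 : List (T ℤ) := [(T.h (T.h (T.h (P (nat_lit 96674775480032858528316129280)) (T.h (P (nat_lit 0)) (T.h (M (nat_lit 817570893295480970674175)) (T.h (P (nat_lit 0)) (M (nat_lit 692532370447794175)))))) (T.h (P (nat_lit 0)) (T.h (T.h (M (nat_lit 1539936402037090780446719)) (T.h (P (nat_lit 0)) (P (nat_lit 712178620038119424)))) (T.h (P (nat_lit 0)) (M (nat_lit 86536408218468351)))))) (T.h (T.h (P (nat_lit 0)) (T.h (T.h (P (nat_lit 0)) (T.h (M (nat_lit 2618989352391739965439)) (T.h (P (nat_lit 0)) (M (nat_lit 129461949038591))))) (T.h (P (nat_lit 0)) (T.h (T.h (P (nat_lit 0)) (M (nat_lit 294768566599679))) (P (nat_lit 0)))))) (T.h (T.h (T.h (M (nat_lit 817570893295480970674175)) (T.h (P (nat_lit 0)) (P (nat_lit 3310063201005076480)))) (T.h (P (nat_lit 0)) (P (nat_lit 712178620038119424)))) (T.h (T.h (P (nat_lit 0)) (T.h (T.h (P (nat_lit 0)) (M (nat_lit 129461949038591))) (P (nat_lit 0)))) (M (nat_lit 692532370447794175)))))), (T.h (T.h (T.h (P (nat_lit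 0)) (T.h (M (nat_lit 53881732118352720053892284415)) (T.h (P (nat_lit 0)) (T.h (P (nat_lit 1138092656815090171904)) (T.h (P (nat_lit 0)) (M (nat_lit 453536361119743))))))) (T.h (P (nat_lit 0)) (T.h (T.h (P (nat_lit 0)) (T.h (M (nat_lit 4044796161900521979903)) (T.h (P (nat_lit 0)) (P (nat_lit 4746482182750208))))) (T.h (P (nat_lit 0)) (T.h (T.h (P (nat_lit 0)) (M (nat_lit 7839521280917503))) (P (nat_lit 0))))))) (T.h (T.h (P (nat_lit 0)) (T.h (T.h (M (nat_lit 6257322254999635160465407)) (T.h (P (nat_lit 0)) (P (nat_lit 778044669081681920)))) (T.h (P (nat_lit 0)) (P (nat_lit 18700725765254676480))))) (T.h (T.h (T.h (P (nat_lit 0)) (T.h (M (nat_lit 1180029681764931731455)) (T.h (P (nat_lit 0)) (M (nat_lit 444352593395711))))) (T.h (P (nat_lit 0)) (T.h (T.h (P (nat_lit 0)) (P (nat_lit 12727986820939776))) (P (nat_lit 0))))) (T.h (T.h (P (nat_lit 0)) (M (nat_lit 6181027965124476927))) (T.h (T.h (T.h (P (nat_lit 0)) (M (nat_lit 430876221964287))) (P (nat_lit 0)))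 (P (nat_lit 0))))))), (T.h (T.h (T.h (M (nat_lit 338361714180115004849106452479)) (T.h (P (nat_lit 0)) (T.h (P (nat_lit 7992072388334565537611776)) (T.h (P (nat_lit 0)) (P (nat_lit 3286178180813029376)))))) (T.h (P (nat_lit 0)) (T.h (T.h (P (nat_lit 2603676508804139699929088)) (T.h (P (nat_lit 0)) (P (nat_lit 621163191484809216)))) (T.h (P (nat_lit 0)) (P (nat_lit 287525050649673728)))))) (T.h (T.h (P (nat_lit 0)) (T.h (T.h (P (nat_lit 0)) (T.h (P (nat_lit 44631809005452154372096)) (T.h (P (nat_lit 0)) (P (nat_lit 3431794116395008))))) (T.h (P (nat_lit 0)) (T.h (T.h (P (nat_lit 0)) (P (nat_lit 21157774929887232))) (P (nat_lit 0)))))) (T.h (T.h (T.h (P (nat_lit 0)) (T.h (P (nat_lit 0)) (M (nat_lit 5653982591758368767)))) (T.h (P (nat_lit 0)) (M (nat_lit 25365486172786130943)))) (T.h (T.h (P (nat_lit 0)) (T.h (T.h (P (nat_lit 0)) (P (nat_lit 14212069352800256))) (P (nat_lit 0)))) (P (nat_lit 823250967452450816)))))), (T.h (T.h (T.h (P (nat_lit 0)) (T.h (P (nat_lit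 45104481563519293712781803520)) (T.h (P (nat_lit 0)) (T.h (M (nat_lit 6284115532348582264831)) (T.h (P (nat_lit 0)) (M (nat_lit 278797762428927))))))) (T.h (P (nat_lit 0)) (T.h (T.h (P (nat_lit 0)) (T.h (P (nat_lit 15760965022728488747008)) (T.h (P (nat_lit 0)) (M (nat_lit 9176005225218047))))) (T.h (P (nat_lit 0)) (T.h (T.h (P (nat_lit 0)) (M (nat_lit 314325677375487))) (P (nat_lit 0))))))) (T.h (T.h (P (nat_lit 0)) (T.h (T.h (M (nat_lit 29437568468312463620702207)) (T.h (P (nat_lit 0)) (M (nat_lit 27921786404926914559)))) (T.h (P (nat_lit 0)) (M (nat_lit 13596485790493310975))))) (T.h (T.h (T.h (P (nat_lit 0)) (T.h (P (nat_lit 452581749181831446528)) (T.h (P (nat_lit 0)) (M (nat_lit 629802396286975))))) (T.h (P (nat_lit 0)) (T.h (T.h (P (nat_lit 0)) (M (nat_lit 66998657318125567))) (P (nat_lit 0))))) (T.h (T.h (P (nat_lit 0)) (M (nat_lit 17039829687691378687))) (T.h (T.h (T.h (P (nat_lit 0)) (P (nat_lit 1633424815423488))) (P (nat_lit 0))) (P (nat_lit 0))))))),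 (T.h (T.h (T.h (M (nat_lit 27591110730411258944789057372159)) (T.h (P (nat_lit 0)) (T.h (M (nat_lit 1194656571771072035160063)) (T.h (P (nat_lit 0)) (P (nat_lit 437328509317152768)))))) (T.h (P (nat_lit 0)) (T.h (T.h (M (nat_lit 1194656571771072035160063)) (T.h (P (nat_lit 0)) (P (nat_lit 14094344025934921728)))) (T.h (P (nat_lit 0)) (P (nat_lit 437328509317152768)))))) (T.h (T.h (P (nat_lit 0)) (T.h (T.h (P (nat_lit 0)) (P (nat_lit 18081353133715961675776))) (P (nat_lit 0)))) (T.h (T.h (T.h (P (nat_lit 2432566270557964294160384)) (T.h (P (nat_lit 0)) (P (nat_lit 17635344513788542976)))) (T.h (P (nat_lit 0)) (P (nat_lit 17635344513788542976)))) (T.h (P (nat_lit 0)) (M (nat_lit 836313505496825855)))))), (P (nat_lit 0)), (P (nat_lit 0)), (T.h (T.h (P (nat_lit 0)) (T.h (T.h (P (nat_lit 1109688626837800921969197056)) (T.h (P (nat_lit 0)) (T.h (P (nat_lit 1012050865393395302400)) (T.h (P (nat_lit 0)) (M (nat_lit 119998737022975)))))) (T.h (P (nat_lit 0)) (T.h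 (T.h (M (nat_lit 1632973904196313022463)) (T.h (P (nat_lit 0)) (P (nat_lit 2515445769142272)))) (T.h (P (nat_lit 0)) (P (nat_lit 1548350442700800))))))) (T.h (T.h (T.h (P (nat_lit 0)) (T.h (P (nat_lit 1240065049510957740457984)) (T.h (P (nat_lit 0)) (M (nat_lit 170667393696137215))))) (T.h (P (nat_lit 0)) (T.h (T.h (P (nat_lit 0)) (M (nat_lit 5646720424898199551))) (P (nat_lit 0))))) (T.h (T.h (P (nat_lit 0)) (T.h (T.h (P (nat_lit 1012050865393395302400)) (T.h (P (nat_lit 0)) (P (nat_lit 10794187433312256)))) (T.h (P (nat_lit 0)) (P (nat_lit 2515445769142272))))) (T.h (T.h (T.h (P (nat_lit 0)) (M (nat_lit 170667393696137215))) (P (nat_lit 0))) (T.h (T.h (P (nat_lit 0)) (M (nat_lit 119998737022975))) (P (nat_lit 0)))))))]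
def lQm_5 : List (T ℤ) := [(T.h (T.h (P (nat_lit 0)) (T.h (T.h (P (nat_lit 0)) (T.h (P (nat_lit 12476825063754065334239232)) (T.h (P (nat_lit 0)) (M (nat_lit 739178953956130815))))) (T.h (P (nat_lit 0)) (T.h (T.h (P (nat_lit 0)) (M (nat_lit 486026124057378815))) (P (nat_lit 0)))))) (T.h (T.h (T.h (M (nat_lit 3383368649401081921863155711)) (T.h (P (nat_lit 0)) (T.h (M (nat_lit 4611647519577497141247)) (T.h (P (nat_lit 0)) (M (nat_lit 109270719660031)))))) (T.h (P (nat_lit 0)) (T.h (T.h (M (nat_lit 12643918027596247334911)) (T.h (P (nat_lit 0)) (M (nat_lit 8840244534575103)))) (T.h (P (nat_lit 0)) (P (nat_lit 9250554945142784)))))) (T.h (T.h (P (nat_lit 0)) (T.h (T.h (P (nat_lit 0)) (M (nat_lit 3731576025025347583))) (P (nat_lit 0)))) (T.h (T.h (T.h (P (nat_lit 1055328876714705027072)) (T.h (P (nat_lit 0)) (M (nat_lit 237439028822015)))) (T.h (P (nat_lit 0)) (M (nat_lit 4362756073783295)))) (T.h (P (nat_lit 0)) (P (nat_lit 969414783074304))))))), (T.h (T.h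 (P (nat_lit 0)) (T.h (T.h (M (nat_lit 3735944699976290291876364287)) (T.h (P (nat_lit 0)) (T.h (M (nat_lit 3434406944769488977919)) (T.h (P (nat_lit 0)) (M (nat_lit 1249966879408127)))))) (T.h (P (nat_lit 0)) (T.h (T.h (P (nat_lit 12711068152419347070976)) (T.h (P (nat_lit 0)) (M (nat_lit 5875308216451071)))) (T.h (P (nat_lit 0)) (M (nat_lit 6193401770803199))))))) (T.h (T.h (T.h (P (nat_lit 0)) (T.h (M (nat_lit 13141655625837937975885823)) (T.h (P (nat_lit 0)) (M (nat_lit 876166944988856319))))) (T.h (P (nat_lit 0)) (T.h (T.h (P (nat_lit 0)) (M (nat_lit 32193241223916421119))) (P (nat_lit 0))))) (T.h (T.h (P (nat_lit 0)) (T.h (P (nat_lit 5909524652010437083136)) (T.h (P (nat_lit 0)) (M (nat_lit 19208907123326975))))) (T.h (T.h (T.h (P (nat_lit 0)) (M (nat_lit 4788280243653705727))) (P (nat_lit 0))) (T.h (T.h (P (nat_lit 0)) (P (nat_lit 2209956775591936))) (P (nat_lit 0))))))), (T.h (T.h (P (nat_lit 0)) (T.h (T.h (P (nat_lit 0)) (T.h (M (nat_lit 6774779893922198139699199))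 (T.h (P (nat_lit 0)) (P (nat_lit 5978080759825563648))))) (T.h (P (nat_lit 0)) (T.h (T.h (P (nat_lit 0)) (P (nat_lit 3330027300455448576))) (P (nat_lit 0)))))) (T.h (T.h (T.h (P (nat_lit 4847912892436371908541284352)) (T.h (P (nat_lit 0)) (P (nat_lit 4520338283428990418944)))) (T.h (P (nat_lit 0)) (P (nat_lit 7689282402489485754368)))) (T.h (T.h (P (nat_lit 0)) (T.h (T.h (P (nat_lit 0)) (P (nat_lit 34303312546880290816))) (P (nat_lit 0)))) (P (nat_lit 3937142110085665783808))))), (P (nat_lit 0)), (P (nat_lit 0)), (T.h (T.h (T.h (M (nat_lit 5102271648357133609590386065407)) (T.h (P (nat_lit 0)) (T.h (P (nat_lit 762840448463898280984576)) (T.h (P (nat_lit 0)) (P (nat_lit 675307117015465984)))))) (T.h (P (nat_lit 0)) (T.h (T.h (P (nat_lit 3670530845706316062654464)) (T.h (P (nat_lit 0)) (M (nat_lit 992840272415031295)))) (T.h (P (nat_lit 0)) (M (nat_lit 1509074362290929663)))))) (T.h (T.h (P (nat_lit 0)) (T.h (T.h (P (nat_lit 0)) (P (nat_lit 2099872552613090164736)))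 (P (nat_lit 0)))) (T.h (T.h (T.h (P (nat_lit 762840448463898280984576)) (T.h (P (nat_lit 0)) (M (nat_lit 6886114660404166655)))) (T.h (P (nat_lit 0)) (M (nat_lit 992840272415031295)))) (T.h (P (nat_lit 0)) (P (nat_lit 675307117015465984)))))), (T.h (T.h (T.h (P (nat_lit 0)) (T.h (P (nat_lit 53919904888201650914528854016)) (T.h (P (nat_lit 0)) (T.h (M (nat_lit 873530666480291545087)) (T.h (P (nat_lit 0)) (P (nat_lit 336720620421120))))))) (T.h (P (nat_lit 0)) (T.h (T.h (P (nat_lit 0)) (T.h (P (nat_lit 9395881727339121344512)) (T.h (P (nat_lit 0)) (M (nat_lit 2256434608734207))))) (T.h (P (nat_lit 0)) (T.h (T.h (P (nat_lit 0)) (P (nat_lit 7551664551362560))) (P (nat_lit 0))))))) (T.h (T.h (P (nat_lit 0)) (T.h (T.h (P (nat_lit 1668310685256554960125952)) (T.h (P (nat_lit 0)) (P (nat_lit 3642813229240942592)))) (T.h (P (nat_lit 0)) (M (nat_lit 20098914546582814719))))) (T.h (T.h (T.h (P (nat_lit 0)) (T.h (P (nat_lit 2539739606505924591616)) (T.h (P (nat_lit 0))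 (P (nat_lit 932545441562624))))) (T.h (P (nat_lit 0)) (T.h (T.h (P (nat_lit 0)) (P (nat_lit 2891021512081408))) (P (nat_lit 0))))) (T.h (T.h (P (nat_lit 0)) (P (nat_lit 2552835554030911488))) (T.h (T.h (T.h (P (nat_lit 0)) (M (nat_lit 420597048541183))) (P (nat_lit 0))) (P (nat_lit 0))))))), (T.h (T.h (T.h (M (nat_lit 14856572718678401679984347316223)) (T.h (P (nat_lit 0)) (T.h (P (nat_lit 146258586246510312161280)) (T.h (P (nat_lit 0)) (M (nat_lit 111010873010552831)))))) (T.h (P (nat_lit 0)) (T.h (T.h (M (nat_lit 9143594504065898468343807)) (T.h (P (nat_lit 0)) (P (nat_lit 6245178489742295040)))) (T.h (P (nat_lit 0)) (P (nat_lit 5994328141479280640)))))) (T.h (T.h (P (nat_lit 0)) (T.h (T.h (P (nat_lit 0)) (P (nat_lit 10406685990088444215296))) (P (nat_lit 0)))) (T.h (T.h (T.h (M (nat_lit 430512853632606770561023)) (T.h (P (nat_lit 0)) (M (nat_lit 716194899120095231)))) (T.h (P (nat_lit 0)) (P (nat_lit 14012339163622277120)))) (T.h (P (nat_lit 0)) (M (nat_lit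 458076090124992511))))))]
def lQm_6 : List (T ℤ) := [(P (nat_lit 0)), (P (nat_lit 0)), (T.h (T.h (P (nat_lit 0)) (M (nat_lit 1261515900548784767341953023))) (T.h (T.h (T.h (P (nat_lit 0)) (M (nat_lit 1072738038739656689844223))) (P (nat_lit 0))) (T.h (T.h (P (nat_lit 0)) (T.h (T.h (P (nat_lit 0)) (T.h (P (nat_lit 0)) (M (nat_lit 14392249911083007)))) (P (nat_lit 0)))) (P (nat_lit 0))))), (T.h (T.h (P (nat_lit 0)) (T.h (T.h (P (nat_lit 0)) (T.h (M (nat_lit 1514619882854388970029055)) (T.h (P (nat_lit 0)) (P (nat_lit 1155294519671914496))))) (T.h (P (nat_lit 0)) (T.h (T.h (P (nat_lit 0)) (M (nat_lit 7732904500595261439))) (P (nat_lit 0)))))) (T.h (T.h (T.h (P (nat_lit 471536197744369659130413056)) (T.h (P (nat_lit 0)) (P (nat_lit 391678135183836446720)))) (T.h (P (nat_lit 0)) (P (nat_lit 7121757884211567525888)))) (T.h (T.h (P (nat_lit 0)) (T.h (T.h (P (nat_lit 0)) (P (nat_lit 5888628940288819200))) (P (nat_lit 0)))) (P (nat_lit 0))))), (P (nat_lit 0)), (P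 (nat_lit 0)), (T.h (P (nat_lit 0)) (T.h (P (nat_lit 0)) (T.h (T.h (T.h (P (nat_lit 0)) (T.h (P (nat_lit 0)) (P (nat_lit 3684415977237250048)))) (P (nat_lit 0))) (P (nat_lit 0))))), (P (nat_lit 0))]
def lQm_7 : List (T ℤ) := [(P (nat_lit 0)), (P (nat_lit 0)), (P (nat_lit 0)), (P (nat_lit 0)), (T.h (T.h (P (nat_lit 0)) (T.h (T.h (P (nat_lit 2874759264551899117903675392)) (T.h (P (nat_lit 0)) (T.h (P (nat_lit 7643476739830000386048)) (T.h (P (nat_lit 0)) (M (nat_lit 5476709220483071)))))) (T.h (P (nat_lit 0)) (T.h (T.h (M (nat_lit 738474885769798352895)) (T.h (P (nat_lit 0)) (P (nat_lit 4065623452418048)))) (T.h (P (nat_lit 0)) (M (nat_lit 853826605940735))))))) (T.h (T.h (T.h (P (nat_lit 0)) (T.h (M (nat_lit 9930660340720679142817791)) (T.h (P (nat_lit 0)) (P (nat_lit 5817303471073787904))))) (T.h (P (nat_lit 0)) (T.h (T.h (P (nat_lit 0)) (M (nat_lit 717555307059871743))) (P (nat_lit 0))))) (T.h (T.h (P (nat_lit 0)) (T.h (T.h (P (nat_lit 1940289171074890858496))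 (T.h (P (nat_lit 0)) (M (nat_lit 2788580132061183)))) (T.h (P (nat_lit 0)) (P (nat_lit 622586800177152))))) (T.h (T.h (T.h (P (nat_lit 0)) (P (nat_lit 4498897606964936704))) (P (nat_lit 0))) (T.h (T.h (P (nat_lit 0)) (M (nat_lit 1082473110175743))) (P (nat_lit 0))))))), (T.h (T.h (P (nat_lit 0)) (T.h (T.h (P (nat_lit 0)) (T.h (M (nat_lit 6257322254999635160465407)) (T.h (P (nat_lit 0)) (P (nat_lit 18700725765254676480))))) (T.h (P (nat_lit 0)) (T.h (T.h (P (nat_lit 0)) (M (nat_lit 6181027965124476927))) (P (nat_lit 0)))))) (T.h (T.h (T.h (M (nat_lit 53881732118352720053892284415)) (T.h (P (nat_lit 0)) (T.h (M (nat_lit 4044796161900521979903)) (T.h (P (nat_lit 0)) (M (nat_lit 7839521280917503)))))) (T.h (P (nat_lit 0)) (T.h (T.h (M (nat_lit 1180029681764931731455)) (T.h (P (nat_lit 0)) (P (nat_lit 12727986820939776)))) (T.h (P (nat_lit 0)) (M (nat_lit 430876221964287)))))) (T.h (T.h (P (nat_lit 0)) (T.h (T.h (P (nat_lit 0)) (P (nat_lit 778044669081681920)))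 (P (nat_lit 0)))) (T.h (T.h (T.h (P (nat_lit 1138092656815090171904)) (T.h (P (nat_lit 0)) (P (nat_lit 4746482182750208)))) (T.h (P (nat_lit 0)) (M (nat_lit 444352593395711)))) (T.h (P (nat_lit 0)) (M (nat_lit 453536361119743))))))), (T.h (T.h (P (nat_lit 0)) (T.h (T.h (M (nat_lit 3383368649401081921863155711)) (T.h (P (nat_lit 0)) (T.h (M (nat_lit 12643918027596247334911)) (T.h (P (nat_lit 0)) (P (nat_lit 9250554945142784)))))) (T.h (P (nat_lit 0)) (T.h (T.h (P (nat_lit 1055328876714705027072)) (T.h (P (nat_lit 0)) (M (nat_lit 4362756073783295)))) (T.h (P (nat_lit 0)) (P (nat_lit 969414783074304))))))) (T.h (T.h (T.h (P (nat_lit 0)) (T.h (P (nat_lit 12476825063754065334239232)) (T.h (P (nat_lit 0)) (M (nat_lit 486026124057378815))))) (T.h (P (nat_lit 0)) (T.h (T.h (P (nat_lit 0)) (M (nat_lit 3731576025025347583))) (P (nat_lit 0))))) (T.h (T.h (P (nat_lit 0)) (T.h (T.h (M (nat_lit 4611647519577497141247)) (T.h (P (nat_lit 0)) (M (nat_lit 8840244534575103))))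 (T.h (P (nat_lit 0)) (M (nat_lit 237439028822015))))) (T.h (T.h (T.h (P (nat_lit 0)) (M (nat_lit 739178953956130815))) (P (nat_lit 0))) (T.h (T.h (P (nat_lit 0)) (M (nat_lit 109270719660031))) (P (nat_lit 0))))))), (T.h (T.h (P (nat_lit 0)) (T.h (T.h (P (nat_lit 0)) (T.h (P (nat_lit 1668310685256554960125952)) (T.h (P (nat_lit 0)) (M (nat_lit 20098914546582814719))))) (T.h (P (nat_lit 0)) (T.h (T.h (P (nat_lit 0)) (P (nat_lit 2552835554030911488))) (P (nat_lit 0)))))) (T.h (T.h (T.h (P (nat_lit 53919904888201650914528854016)) (T.h (P (nat_lit 0)) (T.h (P (nat_lit 9395881727339121344512)) (T.h (P (nat_lit 0)) (P (nat_lit 7551664551362560)))))) (T.h (P (nat_lit 0)) (T.h (T.h (P (nat_lit 2539739606505924591616)) (T.h (P (nat_lit 0)) (P (nat_lit 2891021512081408)))) (T.h (P (nat_lit 0)) (M (nat_lit 420597048541183)))))) (T.h (T.h (P (nat_lit 0)) (T.h (T.h (P (nat_lit 0)) (P (nat_lit 3642813229240942592))) (P (nat_lit 0)))) (T.h (T.h (T.h (M (nat_lit 873530666480291545087))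 (T.h (P (nat_lit 0)) (M (nat_lit 2256434608734207)))) (T.h (P (nat_lit 0)) (P (nat_lit 932545441562624)))) (T.h (P (nat_lit 0)) (P (nat_lit 336720620421120)))))))]
def lQm_8 : List (T ℤ) := [(T.h (T.h (P (nat_lit 0)) (T.h (T.h (P (nat_lit 471536197744369659130413056)) (T.h (P (nat_lit 0)) (P (nat_lit 7121757884211567525888)))) (P (nat_lit 0)))) (T.h (T.h (T.h (P (nat_lit 0)) (T.h (M (nat_lit 1514619882854388970029055)) (T.h (P (nat_lit 0)) (M (nat_lit 7732904500595261439))))) (T.h (P (nat_lit 0)) (T.h (T.h (P (nat_lit 0)) (P (nat_lit 5888628940288819200))) (P (nat_lit 0))))) (T.h (T.h (P (nat_lit 0)) (P (nat_lit 391678135183836446720))) (T.h (T.h (T.h (P (nat_lit 0)) (P (nat_lit 1155294519671914496))) (P (nat_lit 0))) (P (nat_lit 0)))))), (P (nat_lit 0)), (P (nat_lit 0)), (T.h (T.h (T.h (P (nat_lit 0)) (T.h (P (nat_lit 0)) (T.h (P (nat_lit 0)) (T.h (P (nat_lit 0)) (T.h (P (nat_lit 0)) (M (nat_lit 955482939457535))))))) (T.h (P (nat_lit 0)) (T.h (T.h (P (nat_lit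 0)) (T.h (M (nat_lit 4023288376355572416511)) (T.h (P (nat_lit 0)) (P (nat_lit 17746068228407296))))) (T.h (P (nat_lit 0)) (T.h (T.h (P (nat_lit 0)) (M (nat_lit 5123191855120383))) (P (nat_lit 0))))))) (T.h (T.h (P (nat_lit 0)) (T.h (T.h (P (nat_lit 64503246115057485794508800)) (T.h (P (nat_lit 0)) (P (nat_lit 12938633457344446464)))) (T.h (P (nat_lit 0)) (P (nat_lit 795046254307442688))))) (T.h (T.h (T.h (P (nat_lit 0)) (T.h (M (nat_lit 4023288376355572416511)) (T.h (P (nat_lit 0)) (P (nat_lit 17746068228407296))))) (T.h (P (nat_lit 0)) (T.h (T.h (P (nat_lit 0)) (M (nat_lit 8245414944309247))) (P (nat_lit 0))))) (T.h (T.h (P (nat_lit 0)) (P (nat_lit 795046254307442688))) (T.h (T.h (T.h (P (nat_lit 0)) (M (nat_lit 5123191855120383))) (P (nat_lit 0))) (P (nat_lit 0))))))), (T.h (T.h (T.h (P (nat_lit 11038097195991371679654739968)) (T.h (P (nat_lit 0)) (T.h (M (nat_lit 13123897115103883742412799)) (T.h (P (nat_lit 0)) (P (nat_lit 15962821450868457472))))))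 (T.h (P (nat_lit 0)) (T.h (T.h (P (nat_lit 1931505742482698280108032)) (T.h (P (nat_lit 0)) (P (nat_lit 29470118660504813568)))) (T.h (P (nat_lit 0)) (P (nat_lit 2150600115193118720)))))) (T.h (T.h (P (nat_lit 0)) (T.h (T.h (P (nat_lit 0)) (T.h (M (nat_lit 23138019382606574911487)) (T.h (P (nat_lit 0)) (P (nat_lit 3540630147170304))))) (T.h (P (nat_lit 0)) (T.h (T.h (P (nat_lit 0)) (P (nat_lit 12785404002697216))) (P (nat_lit 0)))))) (T.h (T.h (T.h (P (nat_lit 1931505742482698280108032)) (T.h (P (nat_lit 0)) (P (nat_lit 29470118660504813568)))) (T.h (P (nat_lit 0)) (M (nat_lit 6272402667423662079)))) (T.h (T.h (P (nat_lit 0)) (T.h (T.h (P (nat_lit 0)) (P (nat_lit 12785404002697216))) (P (nat_lit 0)))) (P (nat_lit 2150600115193118720)))))), (T.h (T.h (T.h (P (nat_lit 0)) (T.h (P (nat_lit 8247066503751675425415233536)) (T.h (P (nat_lit 0)) (T.h (M (nat_lit 17156229624079432286207)) (T.h (P (nat_lit 0)) (P (nat_lit 5558297383403520))))))) (T.h (P (nat_lit 0))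 (T.h (T.h (P (nat_lit 0)) (T.h (M (nat_lit 26038473945571815063551)) (T.h (P (nat_lit 0)) (M (nat_lit 5994255547105279))))) (T.h (P (nat_lit 0)) (T.h (T.h (P (nat_lit 0)) (P (nat_lit 4390270459445248))) (P (nat_lit 0))))))) (T.h (T.h (P (nat_lit 0)) (T.h (T.h (M (nat_lit 51384193130259596913410047)) (T.h (P (nat_lit 0)) (M (nat_lit 16527390372616208383)))) (T.h (P (nat_lit 0)) (P (nat_lit 3553031887867871232))))) (T.h (T.h (T.h (P (nat_lit 0)) (T.h (M (nat_lit 26038473945571815063551)) (T.h (P (nat_lit 0)) (M (nat_lit 5994255547105279))))) (T.h (P (nat_lit 0)) (T.h (T.h (P (nat_lit 0)) (P (nat_lit 2683627399806976))) (P (nat_lit 0))))) (T.h (T.h (P (nat_lit 0)) (P (nat_lit 3553031887867871232))) (T.h (T.h (T.h (P (nat_lit 0)) (P (nat_lit 4390270459445248))) (P (nat_lit 0))) (P (nat_lit 0))))))), (T.h (T.h (T.h (M (nat_lit 390739483125010976643779395583)) (T.h (P (nat_lit 0)) (T.h (M (nat_lit 3434534724486922686693375)) (T.h (P (nat_lit 0)) (M (nat_lit 31059065407270813695))))))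 (T.h (P (nat_lit 0)) (T.h (T.h (M (nat_lit 3482884771107621891473407)) (T.h (P (nat_lit 0)) (M (nat_lit 24715385350375079935)))) (T.h (P (nat_lit 0)) (M (nat_lit 3546182552257560575)))))) (T.h (T.h (P (nat_lit 0)) (T.h (T.h (P (nat_lit 0)) (T.h (M (nat_lit 2245742729472155582463)) (T.h (P (nat_lit 0)) (M (nat_lit 6987273630908415))))) (T.h (P (nat_lit 0)) (T.h (T.h (P (nat_lit 0)) (M (nat_lit 7612935747665919))) (P (nat_lit 0)))))) (T.h (T.h (T.h (M (nat_lit 3482884771107621891473407)) (T.h (P (nat_lit 0)) (M (nat_lit 24715385350375079935)))) (T.h (P (nat_lit 0)) (M (nat_lit 954916973173538815)))) (T.h (T.h (P (nat_lit 0)) (T.h (T.h (P (nat_lit 0)) (M (nat_lit 7612935747665919))) (P (nat_lit 0)))) (M (nat_lit 3546182552257560575)))))), (T.h (T.h (T.h (P (nat_lit 0)) (T.h (P (nat_lit 4932787182799620835601547264)) (T.h (P (nat_lit 0)) (P (nat_lit 22683376998001198235648))))) (T.h (P (nat_lit 0)) (T.h (T.h (P (nat_lit 0)) (P (nat_lit 19024528249610334896128)))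 (P (nat_lit 0))))) (T.h (T.h (P (nat_lit 0)) (T.h (T.h (M (nat_lit 469854802530439322927103)) (T.h (P (nat_lit 0)) (P (nat_lit 2405820120166301696)))) (T.h (P (nat_lit 0)) (P (nat_lit 1902139663028584448))))) (T.h (T.h (T.h (P (nat_lit 0)) (P (nat_lit 19024528249610334896128))) (P (nat_lit 0))) (T.h (T.h (P (nat_lit 0)) (P (nat_lit 1902139663028584448))) (P (nat_lit 0))))))]
def lQm_9 : List (T ℤ) := [(P (nat_lit 0)), (P (nat_lit 0)), (T.h (T.h (P (nat_lit 0)) (T.h (T.h (P (nat_lit 0)) (T.h (P (nat_lit 0)) (T.h (M (nat_lit 4023288376355572416511)) (T.h (P (nat_lit 0)) (M (nat_lit 5123191855120383)))))) (T.h (P (nat_lit 0)) (T.h (T.h (P (nat_lit 0)) (T.h (P (nat_lit 0)) (P (nat_lit 17746068228407296)))) (T.h (P (nat_lit 0)) (M (nat_lit 955482939457535))))))) (T.h (T.h (T.h (P (nat_lit 0)) (T.h (P (nat_lit 64503246115057485794508800)) (T.h (P (nat_lit 0)) (P (nat_lit 795046254307442688))))) (T.h (P (nat_lit 0)) (T.h (T.h (P (nat_lit 0)) (P (nat_lit 12938633457344446464)))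 (P (nat_lit 0))))) (T.h (T.h (P (nat_lit 0)) (T.h (T.h (M (nat_lit 4023288376355572416511)) (T.h (P (nat_lit 0)) (M (nat_lit 8245414944309247)))) (T.h (P (nat_lit 0)) (P (nat_lit 17746068228407296))))) (T.h (T.h (T.h (P (nat_lit 0)) (P (nat_lit 795046254307442688))) (P (nat_lit 0))) (T.h (T.h (P (nat_lit 0)) (M (nat_lit 5123191855120383))) (P (nat_lit 0))))))), (T.h (T.h (P (nat_lit 0)) (T.h (T.h (P (nat_lit 0)) (T.h (P (nat_lit 9105435660923275306860544)) (T.h (P (nat_lit 0)) (P (nat_lit 41250178240859865088))))) (T.h (P (nat_lit 0)) (T.h (T.h (P (nat_lit 0)) (P (nat_lit 41250178240859865088))) (P (nat_lit 0)))))) (T.h (T.h (T.h (M (nat_lit 59438437438531874729649766399)) (T.h (P (nat_lit 0)) (T.h (M (nat_lit 28922456933748552237055)) (T.h (P (nat_lit 0)) (P (nat_lit 1374646771777536)))))) (T.h (P (nat_lit 0)) (T.h (T.h (M (nat_lit 28922456933748552237055)) (T.h (P (nat_lit 0)) (M (nat_lit 67137797805441023)))) (T.h (P (nat_lit 0)) (P (nat_lit 1374646771777536))))))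 (T.h (T.h (P (nat_lit 0)) (T.h (T.h (P (nat_lit 0)) (P (nat_lit 34228791505093394432))) (P (nat_lit 0)))) (T.h (T.h (T.h (P (nat_lit 894942791215089713152)) (T.h (P (nat_lit 0)) (M (nat_lit 9245941462695935)))) (T.h (P (nat_lit 0)) (M (nat_lit 9245941462695935)))) (T.h (P (nat_lit 0)) (M (nat_lit 361981759193087))))))), (T.h (T.h (P (nat_lit 0)) (T.h (T.h (M (nat_lit 320690170914270682791542783)) (T.h (P (nat_lit 0)) (T.h (M (nat_lit 124582449805231692709887)) (T.h (P (nat_lit 0)) (P (nat_lit 24021546090364928)))))) (T.h (P (nat_lit 0)) (T.h (T.h (M (nat_lit 17314552546378270113791)) (T.h (P (nat_lit 0)) (M (nat_lit 2130561984954367)))) (T.h (P (nat_lit 0)) (P (nat_lit 533129381019648))))))) (T.h (T.h (T.h (P (nat_lit 0)) (T.h (M (nat_lit 22031725547448854453944319)) (T.h (P (nat_lit 0)) (M (nat_lit 24256595937586053119))))) (T.h (P (nat_lit 0)) (T.h (T.h (P (nat_lit 0)) (P (nat_lit 27009049552740155392))) (P (nat_lit 0))))) (T.h (T.h (P (nat_lit 0)) (T.h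 (T.h (M (nat_lit 434863121499244462079)) (T.h (P (nat_lit 0)) (P (nat_lit 47943131333328896)))) (T.h (P (nat_lit 0)) (M (nat_lit 15861830619299839))))) (T.h (T.h (T.h (P (nat_lit 0)) (M (nat_lit 18945553778490736639))) (P (nat_lit 0))) (T.h (T.h (P (nat_lit 0)) (P (nat_lit 9953874026299392))) (P (nat_lit 0))))))), (T.h (T.h (P (nat_lit 0)) (T.h (T.h (P (nat_lit 0)) (T.h (P (nat_lit 24532106935627370756833280)) (T.h (P (nat_lit 0)) (M (nat_lit 106263290849559314431))))) (T.h (P (nat_lit 0)) (T.h (T.h (P (nat_lit 0)) (M (nat_lit 31353808992878985215))) (P (nat_lit 0)))))) (T.h (T.h (T.h (P (nat_lit 97581074448007982481961648128)) (T.h (P (nat_lit 0)) (T.h (P (nat_lit 64802820902210039185408)) (T.h (P (nat_lit 0)) (P (nat_lit 1884083773767680)))))) (T.h (P (nat_lit 0)) (T.h (T.h (P (nat_lit 15349521856242152112128)) (T.h (P (nat_lit 0)) (P (nat_lit 61369225453240320)))) (T.h (P (nat_lit 0)) (M (nat_lit 3645269363130367)))))) (T.h (T.h (P (nat_lit 0)) (T.h (T.h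 (P (nat_lit 0)) (M (nat_lit 17944080516516937727))) (P (nat_lit 0)))) (T.h (T.h (T.h (P (nat_lit 17261519124186831781888)) (T.h (P (nat_lit 0)) (M (nat_lit 23220420041244671)))) (T.h (P (nat_lit 0)) (P (nat_lit 7192874682679296)))) (T.h (P (nat_lit 0)) (P (nat_lit 2818515274301440))))))), (T.h (T.h (P (nat_lit 0)) (T.h (T.h (M (nat_lit 719817474826572681220980735)) (T.h (P (nat_lit 0)) (P (nat_lit 81404364450585477382144)))) (T.h (P (nat_lit 0)) (P (nat_lit 7669978220490651598848))))) (T.h (T.h (T.h (P (nat_lit 0)) (T.h (M (nat_lit 23740425189703612127772671)) (T.h (P (nat_lit 0)) (P (nat_lit 9694400712317861888))))) (T.h (P (nat_lit 0)) (T.h (T.h (P (nat_lit 0)) (M (nat_lit 25574308777851617279))) (P (nat_lit 0))))) (T.h (T.h (P (nat_lit 0)) (M (nat_lit 5292361548524716818431))) (T.h (T.h (T.h (P (nat_lit 0)) (P (nat_lit 11574770874313605120))) (P (nat_lit 0))) (P (nat_lit 0)))))), (P (nat_lit 0))]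
def lQm_10 : List (T ℤ) := [(P (nat_lit 0)), (T.h (T.h (T.h (P (nat_lit 0)) (T.h (P (nat_lit 2874759264551899117903675392)) (T.h (P (nat_lit 0)) (T.h (M (nat_lit 738474885769798352895)) (T.h (P (nat_lit 0)) (M (nat_lit 853826605940735))))))) (T.h (P (nat_lit 0)) (T.h (T.h (P (nat_lit 0)) (T.h (P (nat_lit 7643476739830000386048)) (T.h (P (nat_lit 0)) (P (nat_lit 4065623452418048))))) (T.h (P (nat_lit 0)) (T.h (T.h (P (nat_lit 0)) (M (nat_lit 5476709220483071))) (P (nat_lit 0))))))) (T.h (T.h (P (nat_lit 0)) (T.h (T.h (M (nat_lit 9930660340720679142817791)) (T.h (P (nat_lit 0)) (M (nat_lit 717555307059871743)))) (T.h (P (nat_lit 0)) (P (nat_lit 5817303471073787904))))) (T.h (T.h (T.h (P (nat_lit 0)) (T.h (P (nat_lit 1940289171074890858496)) (T.h (P (nat_lit 0)) (P (nat_lit 622586800177152))))) (T.h (P (nat_lit 0)) (T.h (T.h (P (nat_lit 0)) (M (nat_lit 2788580132061183))) (P (nat_lit 0))))) (T.h (T.h (P (nat_lit 0)) (P (nat_lit 4498897606964936704))) (T.h (T.h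 (T.h (P (nat_lit 0)) (M (nat_lit 1082473110175743))) (P (nat_lit 0))) (P (nat_lit 0))))))), (T.h (T.h (T.h (P (nat_lit 11038097195991371679654739968)) (T.h (P (nat_lit 0)) (T.h (P (nat_lit 1931505742482698280108032)) (T.h (P (nat_lit 0)) (P (nat_lit 2150600115193118720)))))) (T.h (P (nat_lit 0)) (T.h (T.h (M (nat_lit 13123897115103883742412799)) (T.h (P (nat_lit 0)) (P (nat_lit 29470118660504813568)))) (T.h (P (nat_lit 0)) (P (nat_lit 15962821450868457472)))))) (T.h (T.h (P (nat_lit 0)) (T.h (T.h (P (nat_lit 0)) (T.h (M (nat_lit 23138019382606574911487)) (T.h (P (nat_lit 0)) (P (nat_lit 12785404002697216))))) (T.h (P (nat_lit 0)) (T.h (T.h (P (nat_lit 0)) (P (nat_lit 3540630147170304))) (P (nat_lit 0)))))) (T.h (T.h (T.h (P (nat_lit 1931505742482698280108032)) (T.h (P (nat_lit 0)) (M (nat_lit 6272402667423662079)))) (T.h (P (nat_lit 0)) (P (nat_lit 29470118660504813568)))) (T.h (T.h (P (nat_lit 0)) (T.h (T.h (P (nat_lit 0)) (P (nat_lit 12785404002697216)))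 (P (nat_lit 0)))) (P (nat_lit 2150600115193118720)))))), (T.h (T.h (T.h (P (nat_lit 0)) (T.h (M (nat_lit 320690170914270682791542783)) (T.h (P (nat_lit 0)) (T.h (M (nat_lit 17314552546378270113791)) (T.h (P (nat_lit 0)) (P (nat_lit 533129381019648))))))) (T.h (P (nat_lit 0)) (T.h (T.h (P (nat_lit 0)) (T.h (M (nat_lit 124582449805231692709887)) (T.h (P (nat_lit 0)) (M (nat_lit 2130561984954367))))) (T.h (P (nat_lit 0)) (T.h (T.h (P (nat_lit 0)) (P (nat_lit 24021546090364928))) (P (nat_lit 0))))))) (T.h (T.h (P (nat_lit 0)) (T.h (T.h (M (nat_lit 22031725547448854453944319)) (T.h (P (nat_lit 0)) (P (nat_lit 27009049552740155392)))) (T.h (P (nat_lit 0)) (M (nat_lit 24256595937586053119))))) (T.h (T.h (T.h (P (nat_lit 0)) (T.h (M (nat_lit 434863121499244462079)) (T.h (P (nat_lit 0)) (M (nat_lit 15861830619299839))))) (T.h (P (nat_lit 0)) (T.h (T.h (P (nat_lit 0)) (P (nat_lit 47943131333328896))) (P (nat_lit 0))))) (T.h (T.h (P (nat_lit 0)) (M (nat_lit 18945553778490736639)))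 (T.h (T.h (T.h (P (nat_lit 0)) (P (nat_lit 9953874026299392))) (P (nat_lit 0))) (P (nat_lit 0))))))), (T.h (T.h (T.h (P (nat_lit 5650569602416018221516063768576)) (T.h (P (nat_lit 0)) (T.h (P (nat_lit 36619332756341022001201152)) (T.h (P (nat_lit 0)) (M (nat_lit 8722767057218699263)))))) (T.h (P (nat_lit 0)) (T.h (T.h (P (nat_lit 36619332756341022001201152)) (T.h (P (nat_lit 0)) (M (nat_lit 139330404219585822719)))) (T.h (P (nat_lit 0)) (M (nat_lit 8722767057218699263)))))) (T.h (T.h (P (nat_lit 0)) (T.h (T.h (P (nat_lit 0)) (T.h (P (nat_lit 74030274246512526491648)) (T.h (P (nat_lit 0)) (M (nat_lit 22571703364485119))))) (T.h (P (nat_lit 0)) (T.h (T.h (P (nat_lit 0)) (M (nat_lit 22571703364485119))) (P (nat_lit 0)))))) (T.h (T.h (T.h (M (nat_lit 21754681419217188406951935)) (T.h (P (nat_lit 0)) (P (nat_lit 2488124734957420544)))) (T.h (P (nat_lit 0)) (P (nat_lit 2488124734957420544)))) (T.h (T.h (P (nat_lit 0)) (T.h (T.h (P (nat_lit 0)) (M (nat_lit 64873962961108991)))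 (P (nat_lit 0)))) (M (nat_lit 23002432904995274751)))))), (T.h (T.h (T.h (P (nat_lit 0)) (T.h (M (nat_lit 7305124718430585802427727871)) (T.h (P (nat_lit 0)) (P (nat_lit 20279155672975897788416))))) (T.h (P (nat_lit 0)) (T.h (T.h (P (nat_lit 0)) (P (nat_lit 96236064664401412620288))) (P (nat_lit 0))))) (T.h (T.h (P (nat_lit 0)) (T.h (T.h (M (nat_lit 19257407832285331475922943)) (T.h (P (nat_lit 0)) (P (nat_lit 20217337298745819136)))) (T.h (P (nat_lit 0)) (P (nat_lit 9833570716052619264))))) (T.h (T.h (T.h (P (nat_lit 0)) (P (nat_lit 5037294177271444144128))) (P (nat_lit 0))) (T.h (T.h (P (nat_lit 0)) (P (nat_lit 11252355669518450688))) (P (nat_lit 0)))))), (P (nat_lit 0)), (P (nat_lit 0))]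
def lQm_11 : List (T ℤ) := [(T.h (T.h (P (nat_lit 0)) (T.h (T.h (P (nat_lit 0)) (T.h (M (nat_lit 6257322254999635160465407)) (T.h (P (nat_lit 0)) (M (nat_lit 6181027965124476927))))) (T.h (P (nat_lit 0)) (T.h (T.h (P (nat_lit 0)) (P (nat_lit 18700725765254676480))) (P (nat_lit 0)))))) (T.h (T.h (T.h (M (nat_lit 53881732118352720053892284415)) (T.h (P (nat_lit 0)) (T.h (M (nat_lit 1180029681764931731455)) (T.h (P (nat_lit 0)) (M (nat_lit 430876221964287)))))) (T.h (P (nat_lit 0)) (T.h (T.h (M (nat_lit 4044796161900521979903)) (T.h (P (nat_lit 0)) (P (nat_lit 12727986820939776)))) (T.h (P (nat_lit 0)) (M (nat_lit 7839521280917503)))))) (T.h (T.h (P (nat_lit 0)) (T.h (T.h (P (nat_lit 0)) (P (nat_lit 778044669081681920))) (P (nat_lit 0)))) (T.h (T.h (T.h (P (nat_lit 1138092656815090171904)) (T.h (P (nat_lit 0)) (M (nat_lit 444352593395711)))) (T.h (P (nat_lit 0)) (P (nat_lit 4746482182750208)))) (T.h (P (nat_lit 0)) (M (nat_lit 453536361119743))))))), (T.h (T.h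 (P (nat_lit 0)) (T.h (T.h (P (nat_lit 8247066503751675425415233536)) (T.h (P (nat_lit 0)) (T.h (M (nat_lit 26038473945571815063551)) (T.h (P (nat_lit 0)) (P (nat_lit 4390270459445248)))))) (T.h (P (nat_lit 0)) (T.h (T.h (M (nat_lit 17156229624079432286207)) (T.h (P (nat_lit 0)) (M (nat_lit 5994255547105279)))) (T.h (P (nat_lit 0)) (P (nat_lit 5558297383403520))))))) (T.h (T.h (T.h (P (nat_lit 0)) (T.h (M (nat_lit 51384193130259596913410047)) (T.h (P (nat_lit 0)) (P (nat_lit 3553031887867871232))))) (T.h (P (nat_lit 0)) (T.h (T.h (P (nat_lit 0)) (M (nat_lit 16527390372616208383))) (P (nat_lit 0))))) (T.h (T.h (P (nat_lit 0)) (T.h (T.h (M (nat_lit 26038473945571815063551)) (T.h (P (nat_lit 0)) (P (nat_lit 2683627399806976)))) (T.h (P (nat_lit 0)) (M (nat_lit 5994255547105279))))) (T.h (T.h (T.h (P (nat_lit 0)) (P (nat_lit 3553031887867871232))) (P (nat_lit 0))) (T.h (T.h (P (nat_lit 0)) (P (nat_lit 4390270459445248))) (P (nat_lit 0))))))), (T.h (T.h (P (nat_lit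 0)) (T.h (T.h (P (nat_lit 0)) (T.h (P (nat_lit 24532106935627370756833280)) (T.h (P (nat_lit 0)) (M (nat_lit 31353808992878985215))))) (T.h (P (nat_lit 0)) (T.h (T.h (P (nat_lit 0)) (M (nat_lit 106263290849559314431))) (P (nat_lit 0)))))) (T.h (T.h (T.h (P (nat_lit 97581074448007982481961648128)) (T.h (P (nat_lit 0)) (T.h (P (nat_lit 15349521856242152112128)) (T.h (P (nat_lit 0)) (M (nat_lit 3645269363130367)))))) (T.h (P (nat_lit 0)) (T.h (T.h (P (nat_lit 64802820902210039185408)) (T.h (P (nat_lit 0)) (P (nat_lit 61369225453240320)))) (T.h (P (nat_lit 0)) (P (nat_lit 1884083773767680)))))) (T.h (T.h (P (nat_lit 0)) (T.h (T.h (P (nat_lit 0)) (M (nat_lit 17944080516516937727))) (P (nat_lit 0)))) (T.h (T.h (T.h (P (nat_lit 17261519124186831781888)) (T.h (P (nat_lit 0)) (P (nat_lit 7192874682679296)))) (T.h (P (nat_lit 0)) (M (nat_lit 23220420041244671)))) (T.h (P (nat_lit 0)) (P (nat_lit 2818515274301440))))))), (T.h (T.h (P (nat_lit 0)) (T.h (T.h (M (nat_lit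 7305124718430585802427727871)) (T.h (P (nat_lit 0)) (P (nat_lit 96236064664401412620288)))) (T.h (P (nat_lit 0)) (P (nat_lit 20279155672975897788416))))) (T.h (T.h (T.h (P (nat_lit 0)) (T.h (M (nat_lit 19257407832285331475922943)) (T.h (P (nat_lit 0)) (P (nat_lit 9833570716052619264))))) (T.h (P (nat_lit 0)) (T.h (T.h (P (nat_lit 0)) (P (nat_lit 20217337298745819136))) (P (nat_lit 0))))) (T.h (T.h (P (nat_lit 0)) (P (nat_lit 5037294177271444144128))) (T.h (T.h (T.h (P (nat_lit 0)) (P (nat_lit 11252355669518450688))) (P (nat_lit 0))) (P (nat_lit 0)))))), (P (nat_lit 0)), (P (nat_lit 0)), (T.h (T.h (T.h (P (nat_lit 0)) (T.h (M (nat_lit 3383368649401081921863155711)) (T.h (P (nat_lit 0)) (T.h (P (nat_lit 1055328876714705027072)) (T.h (P (nat_lit 0)) (P (nat_lit 969414783074304))))))) (T.h (P (nat_lit 0)) (T.h (T.h (P (nat_lit 0)) (T.h (M (nat_lit 12643918027596247334911)) (T.h (P (nat_lit 0)) (M (nat_lit 4362756073783295))))) (T.h (P (nat_lit 0)) (T.h (T.h (P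 (nat_lit 0)) (P (nat_lit 9250554945142784))) (P (nat_lit 0))))))) (T.h (T.h (P (nat_lit 0)) (T.h (T.h (P (nat_lit 12476825063754065334239232)) (T.h (P (nat_lit 0)) (M (nat_lit 3731576025025347583)))) (T.h (P (nat_lit 0)) (M (nat_lit 486026124057378815))))) (T.h (T.h (T.h (P (nat_lit 0)) (T.h (M (nat_lit 4611647519577497141247)) (T.h (P (nat_lit 0)) (M (nat_lit 237439028822015))))) (T.h (P (nat_lit 0)) (T.h (T.h (P (nat_lit 0)) (M (nat_lit 8840244534575103))) (P (nat_lit 0))))) (T.h (T.h (P (nat_lit 0)) (M (nat_lit 739178953956130815))) (T.h (T.h (T.h (P (nat_lit 0)) (M (nat_lit 109270719660031))) (P (nat_lit 0))) (P (nat_lit 0))))))), (T.h (T.h (T.h (M (nat_lit 390739483125010976643779395583)) (T.h (P (nat_lit 0)) (T.h (M (nat_lit 3482884771107621891473407)) (T.h (P (nat_lit 0)) (M (nat_lit 3546182552257560575)))))) (T.h (P (nat_lit 0)) (T.h (T.h (M (nat_lit 3434534724486922686693375)) (T.h (P (nat_lit 0)) (M (nat_lit 24715385350375079935)))) (T.h (P (nat_lit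 0)) (M (nat_lit 31059065407270813695)))))) (T.h (T.h (P (nat_lit 0)) (T.h (T.h (P (nat_lit 0)) (T.h (M (nat_lit 2245742729472155582463)) (T.h (P (nat_lit 0)) (M (nat_lit 7612935747665919))))) (T.h (P (nat_lit 0)) (T.h (T.h (P (nat_lit 0)) (M (nat_lit 6987273630908415))) (P (nat_lit 0)))))) (T.h (T.h (T.h (M (nat_lit 3482884771107621891473407)) (T.h (P (nat_lit 0)) (M (nat_lit 954916973173538815)))) (T.h (P (nat_lit 0)) (M (nat_lit 24715385350375079935)))) (T.h (T.h (P (nat_lit 0)) (T.h (T.h (P (nat_lit 0)) (M (nat_lit 7612935747665919))) (P (nat_lit 0)))) (M (nat_lit 3546182552257560575))))))]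
def lQm_12 : List (T ℤ) := [(T.h (T.h (T.h (P (nat_lit 0)) (T.h (M (nat_lit 719817474826572681220980735)) (T.h (P (nat_lit 0)) (P (nat_lit 7669978220490651598848))))) (T.h (P (nat_lit 0)) (T.h (T.h (P (nat_lit 0)) (P (nat_lit 81404364450585477382144))) (P (nat_lit 0))))) (T.h (T.h (P (nat_lit 0)) (T.h (T.h (M (nat_lit 23740425189703612127772671)) (T.h (P (nat_lit 0)) (M (nat_lit 25574308777851617279)))) (T.h (P (nat_lit 0)) (P (nat_lit 9694400712317861888))))) (T.h (T.h (T.h (P (nat_lit 0)) (M (nat_lit 5292361548524716818431))) (P (nat_lit 0))) (T.h (T.h (P (nat_lit 0)) (P (nat_lit 11574770874313605120))) (P (nat_lit 0)))))), (P (nat_lit 0)), (P (nat_lit 0)), (T.h (T.h (P (nat_lit 0)) (T.h (T.h (P (nat_lit 0)) (T.h (P (nat_lit 1668310685256554960125952)) (T.h (P (nat_lit 0)) (P (nat_lit 2552835554030911488))))) (T.h (P (nat_lit 0)) (T.h (T.h (P (nat_lit 0)) (M (nat_lit 20098914546582814719))) (P (nat_lit 0)))))) (T.h (T.h (T.h (P (nat_lit 53919904888201650914528854016))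 (T.h (P (nat_lit 0)) (T.h (P (nat_lit 2539739606505924591616)) (T.h (P (nat_lit 0)) (M (nat_lit 420597048541183)))))) (T.h (P (nat_lit 0)) (T.h (T.h (P (nat_lit 9395881727339121344512)) (T.h (P (nat_lit 0)) (P (nat_lit 2891021512081408)))) (T.h (P (nat_lit 0)) (P (nat_lit 7551664551362560)))))) (T.h (T.h (P (nat_lit 0)) (T.h (T.h (P (nat_lit 0)) (P (nat_lit 3642813229240942592))) (P (nat_lit 0)))) (T.h (T.h (T.h (M (nat_lit 873530666480291545087)) (T.h (P (nat_lit 0)) (P (nat_lit 932545441562624)))) (T.h (P (nat_lit 0)) (M (nat_lit 2256434608734207)))) (T.h (P (nat_lit 0)) (P (nat_lit 336720620421120))))))), (T.h (T.h (P (nat_lit 0)) (T.h (T.h (P (nat_lit 4932787182799620835601547264)) (T.h (P (nat_lit 0)) (P (nat_lit 19024528249610334896128)))) (T.h (P (nat_lit 0)) (P (nat_lit 22683376998001198235648))))) (T.h (T.h (T.h (P (nat_lit 0)) (T.h (M (nat_lit 469854802530439322927103)) (T.h (P (nat_lit 0)) (P (nat_lit 1902139663028584448))))) (T.h (P (nat_lit 0))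 (T.h (T.h (P (nat_lit 0)) (P (nat_lit 2405820120166301696))) (P (nat_lit 0))))) (T.h (T.h (P (nat_lit 0)) (P (nat_lit 19024528249610334896128))) (T.h (T.h (T.h (P (nat_lit 0)) (P (nat_lit 1902139663028584448))) (P (nat_lit 0))) (P (nat_lit 0)))))), (P (nat_lit 0)), (P (nat_lit 0)), (T.h (T.h (T.h (P (nat_lit 0)) (P (nat_lit 471536197744369659130413056))) (T.h (P (nat_lit 0)) (T.h (T.h (P (nat_lit 0)) (P (nat_lit 7121757884211567525888))) (P (nat_lit 0))))) (T.h (T.h (P (nat_lit 0)) (T.h (T.h (M (nat_lit 1514619882854388970029055)) (T.h (P (nat_lit 0)) (P (nat_lit 5888628940288819200)))) (T.h (P (nat_lit 0)) (M (nat_lit 7732904500595261439))))) (T.h (T.h (T.h (P (nat_lit 0)) (P (nat_lit 391678135183836446720))) (P (nat_lit 0))) (T.h (T.h (P (nat_lit 0)) (P (nat_lit 1155294519671914496))) (P (nat_lit 0))))))]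
def lQm_13 : List (T ℤ) := [(P (nat_lit 0)), (P (nat_lit 0)), (P (nat_lit 0)), (P (nat_lit 0)), (P (nat_lit 0)), (P (nat_lit 0)), (T.h (T.h (T.h (M (nat_lit 460972935309887569520215719935)) (T.h (P (nat_lit 0)) (T.h (M (nat_lit 2029091353749028599758847)) (T.h (P (nat_lit 0)) (M (nat_lit 1526433197796098047)))))) (T.h (P (nat_lit 0)) (T.h (T.h (P (nat_lit 0)) (T.h (P (nat_lit 0)) (P (nat_lit 2998689982794694656)))) (P (nat_lit 0))))) (T.h (T.h (P (nat_lit 0)) (T.h (T.h (P (nat_lit 0)) (T.h (M (nat_lit 38255836290387560890367)) (T.h (P (nat_lit 0)) (M (nat_lit 15267448728518655))))) (T.h (P (nat_lit 0)) (T.h (T.h (P (nat_lit 0)) (M (nat_lit 14346539850792959))) (P (nat_lit 0)))))) (T.h (T.h (T.h (M (nat_lit 2029091353749028599758847)) (T.h (P (nat_lit 0)) (P (nat_lit 3990713706295066624)))) (T.h (P (nat_lit 0)) (P (nat_lit 2998689982794694656)))) (T.h (T.h (P (nat_lit 0)) (T.h (T.h (P (nat_lit 0)) (M (nat_lit 15267448728518655))) (P (nat_lit 0)))) (M (nat_lit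 1526433197796098047)))))), (T.h (T.h (T.h (P (nat_lit 0)) (T.h (P (nat_lit 2893234167580437187150217216)) (T.h (P (nat_lit 0)) (T.h (M (nat_lit 4887624969485354532863)) (T.h (P (nat_lit 0)) (P (nat_lit 842086408290304))))))) (T.h (P (nat_lit 0)) (T.h (T.h (P (nat_lit 0)) (T.h (P (nat_lit 11824404982278817579008)) (T.h (P (nat_lit 0)) (P (nat_lit 1940300321947648))))) (T.h (P (nat_lit 0)) (T.h (T.h (P (nat_lit 0)) (P (nat_lit 1027658480451584))) (P (nat_lit 0))))))) (T.h (T.h (P (nat_lit 0)) (T.h (T.h (P (nat_lit 6345143623172862576164864)) (T.h (P (nat_lit 0)) (P (nat_lit 50860561505563181056)))) (T.h (P (nat_lit 0)) (P (nat_lit 7924019583034327040))))) (T.h (T.h (T.h (P (nat_lit 0)) (T.h (M (nat_lit 13617996589596695068671)) (T.h (P (nat_lit 0)) (P (nat_lit 6314639862071296))))) (T.h (P (nat_lit 0)) (T.h (T.h (P (nat_lit 0)) (P (nat_lit 6806374653853696))) (P (nat_lit 0))))) (T.h (T.h (P (nat_lit 0)) (P (nat_lit 7388629735611301888))) (T.h (T.h (T.h (P (nat_lit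 0)) (P (nat_lit 2004594498371584))) (P (nat_lit 0))) (P (nat_lit 0)))))))]
def lQm_14 : List (T ℤ) := [(T.h (T.h (T.h (M (nat_lit 338361714180115004849106452479)) (T.h (P (nat_lit 0)) (T.h (P (nat_lit 2603676508804139699929088)) (T.h (P (nat_lit 0)) (P (nat_lit 287525050649673728)))))) (T.h (P (nat_lit 0)) (T.h (T.h (P (nat_lit 0)) (T.h (P (nat_lit 0)) (M (nat_lit 25365486172786130943)))) (T.h (P (nat_lit 0)) (P (nat_lit 823250967452450816)))))) (T.h (T.h (P (nat_lit 0)) (T.h (T.h (P (nat_lit 0)) (T.h (P (nat_lit 44631809005452154372096)) (T.h (P (nat_lit 0)) (P (nat_lit 21157774929887232))))) (T.h (P (nat_lit 0)) (T.h (T.h (P (nat_lit 0)) (P (nat_lit 14212069352800256))) (P (nat_lit 0)))))) (T.h (T.h (T.h (P (nat_lit 7992072388334565537611776)) (T.h (P (nat_lit 0)) (P (nat_lit 621163191484809216)))) (T.h (P (nat_lit 0)) (M (nat_lit 5653982591758368767)))) (T.h (T.h (P (nat_lit 0)) (T.h (T.h (P (nat_lit 0)) (P (nat_lit 3431794116395008))) (P (nat_lit 0))))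 (P (nat_lit 3286178180813029376)))))), (T.h (T.h (T.h (P (nat_lit 0)) (T.h (M (nat_lit 3735944699976290291876364287)) (T.h (P (nat_lit 0)) (T.h (P (nat_lit 12711068152419347070976)) (T.h (P (nat_lit 0)) (M (nat_lit 6193401770803199))))))) (T.h (P (nat_lit 0)) (T.h (T.h (P (nat_lit 0)) (T.h (P (nat_lit 5909524652010437083136)) (T.h (P (nat_lit 0)) (M (nat_lit 19208907123326975))))) (T.h (P (nat_lit 0)) (T.h (T.h (P (nat_lit 0)) (P (nat_lit 2209956775591936))) (P (nat_lit 0))))))) (T.h (T.h (P (nat_lit 0)) (T.h (T.h (M (nat_lit 13141655625837937975885823)) (T.h (P (nat_lit 0)) (M (nat_lit 32193241223916421119)))) (T.h (P (nat_lit 0)) (M (nat_lit 4788280243653705727))))) (T.h (T.h (T.h (P (nat_lit 0)) (T.h (M (nat_lit 3434406944769488977919)) (T.h (P (nat_lit 0)) (M (nat_lit 5875308216451071))))) (P (nat_lit 0))) (T.h (T.h (P (nat_lit 0)) (M (nat_lit 876166944988856319))) (T.h (T.h (T.h (P (nat_lit 0)) (M (nat_lit 1249966879408127))) (P (nat_lit 0))) (P (nat_lit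 0))))))), (T.h (T.h (T.h (M (nat_lit 14856572718678401679984347316223)) (T.h (P (nat_lit 0)) (T.h (M (nat_lit 9143594504065898468343807)) (T.h (P (nat_lit 0)) (P (nat_lit 5994328141479280640)))))) (T.h (P (nat_lit 0)) (T.h (T.h (M (nat_lit 430512853632606770561023)) (T.h (P (nat_lit 0)) (P (nat_lit 14012339163622277120)))) (T.h (P (nat_lit 0)) (M (nat_lit 458076090124992511)))))) (T.h (T.h (P (nat_lit 0)) (T.h (T.h (P (nat_lit 0)) (P (nat_lit 10406685990088444215296))) (P (nat_lit 0)))) (T.h (T.h (T.h (P (nat_lit 146258586246510312161280)) (T.h (P (nat_lit 0)) (P (nat_lit 6245178489742295040)))) (T.h (P (nat_lit 0)) (M (nat_lit 716194899120095231)))) (T.h (P (nat_lit 0)) (M (nat_lit 111010873010552831)))))), (P (nat_lit 0)), (P (nat_lit 0)), (T.h (T.h (P (nat_lit 0)) (T.h (T.h (P (nat_lit 0)) (T.h (P (nat_lit 64503246115057485794508800)) (T.h (P (nat_lit 0)) (P (nat_lit 795046254307442688))))) (T.h (P (nat_lit 0)) (T.h (T.h (P (nat_lit 0)) (P (nat_lit 795046254307442688)))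 (P (nat_lit 0)))))) (T.h (T.h (T.h (P (nat_lit 0)) (T.h (P (nat_lit 0)) (T.h (M (nat_lit 4023288376355572416511)) (T.h (P (nat_lit 0)) (M (nat_lit 5123191855120383)))))) (T.h (P (nat_lit 0)) (T.h (T.h (M (nat_lit 4023288376355572416511)) (T.h (P (nat_lit 0)) (M (nat_lit 8245414944309247)))) (T.h (P (nat_lit 0)) (M (nat_lit 5123191855120383)))))) (T.h (T.h (P (nat_lit 0)) (T.h (T.h (P (nat_lit 0)) (P (nat_lit 12938633457344446464))) (P (nat_lit 0)))) (T.h (T.h (T.h (P (nat_lit 0)) (T.h (P (nat_lit 0)) (P (nat_lit 17746068228407296)))) (T.h (P (nat_lit 0)) (P (nat_lit 17746068228407296)))) (T.h (P (nat_lit 0)) (M (nat_lit 955482939457535))))))), (T.h (T.h (P (nat_lit 0)) (T.h (T.h (M (nat_lit 59438437438531874729649766399)) (T.h (P (nat_lit 0)) (T.h (M (nat_lit 28922456933748552237055)) (T.h (P (nat_lit 0)) (P (nat_lit 1374646771777536)))))) (T.h (P (nat_lit 0)) (T.h (T.h (P (nat_lit 894942791215089713152)) (T.h (P (nat_lit 0)) (M (nat_lit 9245941462695935))))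 (T.h (P (nat_lit 0)) (M (nat_lit 361981759193087))))))) (T.h (T.h (T.h (P (nat_lit 0)) (T.h (P (nat_lit 9105435660923275306860544)) (T.h (P (nat_lit 0)) (P (nat_lit 41250178240859865088))))) (T.h (P (nat_lit 0)) (T.h (T.h (P (nat_lit 0)) (P (nat_lit 34228791505093394432))) (P (nat_lit 0))))) (T.h (T.h (P (nat_lit 0)) (T.h (T.h (M (nat_lit 28922456933748552237055)) (T.h (P (nat_lit 0)) (M (nat_lit 67137797805441023)))) (T.h (P (nat_lit 0)) (M (nat_lit 9245941462695935))))) (T.h (T.h (T.h (P (nat_lit 0)) (P (nat_lit 41250178240859865088))) (P (nat_lit 0))) (T.h (T.h (P (nat_lit 0)) (P (nat_lit 1374646771777536))) (P (nat_lit 0))))))), (T.h (T.h (P (nat_lit 0)) (T.h (T.h (P (nat_lit 0)) (T.h (M (nat_lit 22031725547448854453944319)) (T.h (P (nat_lit 0)) (M (nat_lit 24256595937586053119))))) (T.h (P (nat_lit 0)) (T.h (T.h (P (nat_lit 0)) (M (nat_lit 18945553778490736639))) (P (nat_lit 0)))))) (T.h (T.h (T.h (M (nat_lit 320690170914270682791542783)) (T.h (P (nat_lit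 0)) (T.h (M (nat_lit 124582449805231692709887)) (T.h (P (nat_lit 0)) (P (nat_lit 24021546090364928)))))) (T.h (P (nat_lit 0)) (T.h (T.h (M (nat_lit 434863121499244462079)) (T.h (P (nat_lit 0)) (P (nat_lit 47943131333328896)))) (T.h (P (nat_lit 0)) (P (nat_lit 9953874026299392)))))) (T.h (T.h (P (nat_lit 0)) (T.h (T.h (P (nat_lit 0)) (P (nat_lit 27009049552740155392))) (P (nat_lit 0)))) (T.h (T.h (T.h (M (nat_lit 17314552546378270113791)) (T.h (P (nat_lit 0)) (M (nat_lit 2130561984954367)))) (T.h (P (nat_lit 0)) (M (nat_lit 15861830619299839)))) (T.h (P (nat_lit 0)) (P (nat_lit 533129381019648)))))))]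
def lQm_15 : List (T ℤ) := [(T.h (T.h (P (nat_lit 0)) (T.h (T.h (P (nat_lit 97581074448007982481961648128)) (T.h (P (nat_lit 0)) (T.h (P (nat_lit 64802820902210039185408)) (T.h (P (nat_lit 0)) (P (nat_lit 1884083773767680)))))) (T.h (P (nat_lit 0)) (T.h (T.h (P (nat_lit 17261519124186831781888)) (T.h (P (nat_lit 0)) (M (nat_lit 23220420041244671)))) (T.h (P (nat_lit 0)) (P (nat_lit 2818515274301440))))))) (T.h (T.h (T.h (P (nat_lit 0)) (T.h (P (nat_lit 24532106935627370756833280)) (T.h (P (nat_lit 0)) (M (nat_lit 106263290849559314431))))) (T.h (P (nat_lit 0)) (T.h (T.h (P (nat_lit 0)) (M (nat_lit 17944080516516937727))) (P (nat_lit 0))))) (T.h (T.h (P (nat_lit 0)) (T.h (T.h (P (nat_lit 15349521856242152112128)) (T.h (P (nat_lit 0)) (P (nat_lit 61369225453240320)))) (T.h (P (nat_lit 0)) (P (nat_lit 7192874682679296))))) (T.h (T.h (T.h (P (nat_lit 0)) (M (nat_lit 31353808992878985215))) (P (nat_lit 0))) (T.h (T.h (P (nat_lit 0)) (M (nat_lit 3645269363130367)))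 (P (nat_lit 0))))))), (T.h (T.h (P (nat_lit 0)) (T.h (T.h (P (nat_lit 0)) (T.h (M (nat_lit 23740425189703612127772671)) (T.h (P (nat_lit 0)) (P (nat_lit 9694400712317861888))))) (T.h (P (nat_lit 0)) (T.h (T.h (P (nat_lit 0)) (P (nat_lit 11574770874313605120))) (P (nat_lit 0)))))) (T.h (T.h (T.h (M (nat_lit 719817474826572681220980735)) (T.h (P (nat_lit 0)) (P (nat_lit 81404364450585477382144)))) (T.h (P (nat_lit 0)) (M (nat_lit 5292361548524716818431)))) (T.h (T.h (P (nat_lit 0)) (T.h (T.h (P (nat_lit 0)) (M (nat_lit 25574308777851617279))) (P (nat_lit 0)))) (P (nat_lit 7669978220490651598848))))), (P (nat_lit 0)), (P (nat_lit 0)), (T.h (T.h (M (nat_lit 460972935309887569520215719935)) (T.h (P (nat_lit 0)) (T.h (T.h (M (nat_lit 2029091353749028599758847)) (T.h (P (nat_lit 0)) (P (nat_lit 2998689982794694656)))) (T.h (P (nat_lit 0)) (M (nat_lit 1526433197796098047)))))) (T.h (T.h (P (nat_lit 0)) (T.h (T.h (P (nat_lit 0)) (T.h (M (nat_lit 38255836290387560890367))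 (T.h (P (nat_lit 0)) (M (nat_lit 14346539850792959))))) (T.h (P (nat_lit 0)) (T.h (T.h (P (nat_lit 0)) (M (nat_lit 15267448728518655))) (P (nat_lit 0)))))) (T.h (T.h (T.h (M (nat_lit 2029091353749028599758847)) (T.h (P (nat_lit 0)) (P (nat_lit 2998689982794694656)))) (T.h (P (nat_lit 0)) (P (nat_lit 3990713706295066624)))) (T.h (T.h (P (nat_lit 0)) (T.h (T.h (P (nat_lit 0)) (M (nat_lit 15267448728518655))) (P (nat_lit 0)))) (M (nat_lit 1526433197796098047)))))), (T.h (T.h (T.h (P (nat_lit 0)) (T.h (M (nat_lit 59438437438531874729649766399)) (T.h (P (nat_lit 0)) (T.h (P (nat_lit 894942791215089713152)) (T.h (P (nat_lit 0)) (M (nat_lit 361981759193087))))))) (T.h (P (nat_lit 0)) (T.h (T.h (P (nat_lit 0)) (T.h (M (nat_lit 28922456933748552237055)) (T.h (P (nat_lit 0)) (M (nat_lit 9245941462695935))))) (T.h (P (nat_lit 0)) (T.h (T.h (P (nat_lit 0)) (P (nat_lit 1374646771777536))) (P (nat_lit 0))))))) (T.h (T.h (P (nat_lit 0)) (T.h (T.h (P (nat_lit 9105435660923275306860544))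 (T.h (P (nat_lit 0)) (P (nat_lit 34228791505093394432)))) (T.h (P (nat_lit 0)) (P (nat_lit 41250178240859865088))))) (T.h (T.h (T.h (P (nat_lit 0)) (T.h (M (nat_lit 28922456933748552237055)) (T.h (P (nat_lit 0)) (M (nat_lit 9245941462695935))))) (T.h (P (nat_lit 0)) (T.h (T.h (P (nat_lit 0)) (M (nat_lit 67137797805441023))) (P (nat_lit 0))))) (T.h (T.h (P (nat_lit 0)) (P (nat_lit 41250178240859865088))) (T.h (T.h (T.h (P (nat_lit 0)) (P (nat_lit 1374646771777536))) (P (nat_lit 0))) (P (nat_lit 0))))))), (T.h (T.h (T.h (M (nat_lit 10634355942349996543979965906943)) (T.h (P (nat_lit 0)) (T.h (P (nat_lit 23341089722715176819490816)) (T.h (P (nat_lit 0)) (P (nat_lit 13361158055803224064)))))) (T.h (P (nat_lit 0)) (T.h (T.h (P (nat_lit 23341089722715176819490816)) (T.h (P (nat_lit 0)) (M (nat_lit 7709039167459557375)))) (T.h (P (nat_lit 0)) (P (nat_lit 13361158055803224064)))))) (T.h (T.h (P (nat_lit 0)) (T.h (T.h (P (nat_lit 0)) (T.h (M (nat_lit 106550364359565647020031))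 (T.h (P (nat_lit 0)) (P (nat_lit 92987772518531072))))) (T.h (P (nat_lit 0)) (T.h (T.h (P (nat_lit 0)) (P (nat_lit 92987772518531072))) (P (nat_lit 0)))))) (T.h (T.h (T.h (P (nat_lit 23341089722715176819490816)) (T.h (P (nat_lit 0)) (M (nat_lit 7709039167459557375)))) (T.h (P (nat_lit 0)) (M (nat_lit 7709039167459557375)))) (T.h (T.h (P (nat_lit 0)) (T.h (T.h (P (nat_lit 0)) (P (nat_lit 92987772518531072))) (P (nat_lit 0)))) (P (nat_lit 13361158055803224064)))))), (T.h (T.h (T.h (P (nat_lit 0)) (T.h (M (nat_lit 15538004633748538418060591103)) (T.h (P (nat_lit 0)) (T.h (P (nat_lit 31971531381454745370624)) (T.h (P (nat_lit 0)) (M (nat_lit 10352668921298943))))))) (T.h (P (nat_lit 0)) (T.h (T.h (P (nat_lit 0)) (T.h (P (nat_lit 90150105672051010306048)) (T.h (P (nat_lit 0)) (M (nat_lit 6628034860548095))))) (T.h (P (nat_lit 0)) (T.h (T.h (P (nat_lit 0)) (M (nat_lit 14893299958284287))) (P (nat_lit 0))))))) (T.h (T.h (P (nat_lit 0)) (T.h (T.h (P (nat_lit 38752044008928701728161792))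 (T.h (P (nat_lit 0)) (M (nat_lit 327214950102354362367)))) (T.h (P (nat_lit 0)) (M (nat_lit 53066877284871307263))))) (T.h (T.h (T.h (P (nat_lit 0)) (T.h (P (nat_lit 90150105672051010306048)) (T.h (P (nat_lit 0)) (M (nat_lit 6628034860548095))))) (T.h (P (nat_lit 0)) (T.h (T.h (P (nat_lit 0)) (P (nat_lit 34651051960303616))) (P (nat_lit 0))))) (T.h (T.h (P (nat_lit 0)) (M (nat_lit 53066877284871307263))) (T.h (T.h (T.h (P (nat_lit 0)) (M (nat_lit 14893299958284287))) (P (nat_lit 0))) (P (nat_lit 0)))))))]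
def lQm_16 : List (T ℤ) := [(T.h (T.h (T.h (M (nat_lit 24904608913243075430215017562111)) (T.h (P (nat_lit 0)) (T.h (M (nat_lit 47557352681751995377254399)) (T.h (P (nat_lit 0)) (P (nat_lit 12286765327093596160)))))) (T.h (P (nat_lit 0)) (T.h (T.h (M (nat_lit 28558369388848621637599231)) (T.h (P (nat_lit 0)) (P (nat_lit 7213091648547323904)))) (T.h (P (nat_lit 0)) (P (nat_lit 1138174195176308736)))))) (T.h (T.h (P (nat_lit 0)) (T.h (T.h (P (nat_lit 0)) (P (nat_lit 72285802493233286086656))) (P (nat_lit 0)))) (T.h (T.h (T.h (M (nat_lit 28558369388848621637599231)) (T.h (P (nat_lit 0)) (P (nat_lit 7213091648547323904)))) (T.h (P (nat_lit 0)) (M (nat_lit 19918924814433124351)))) (T.h (P (nat_lit 0)) (P (nat_lit 1138174195176308736)))))), (P (nat_lit 0)), (P (nat_lit 0)), (T.h (T.h (P (nat_lit 0)) (T.h (T.h (P (nat_lit 2893234167580437187150217216)) (T.h (P (nat_lit 0)) (T.h (P (nat_lit 11824404982278817579008)) (T.h (P (nat_lit 0)) (P (nat_lit 1027658480451584))))))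 (T.h (P (nat_lit 0)) (T.h (T.h (M (nat_lit 4887624969485354532863)) (T.h (P (nat_lit 0)) (P (nat_lit 1940300321947648)))) (T.h (P (nat_lit 0)) (P (nat_lit 842086408290304))))))) (T.h (T.h (T.h (P (nat_lit 0)) (T.h (P (nat_lit 6345143623172862576164864)) (T.h (P (nat_lit 0)) (P (nat_lit 7924019583034327040))))) (T.h (P (nat_lit 0)) (T.h (T.h (P (nat_lit 0)) (P (nat_lit 50860561505563181056))) (P (nat_lit 0))))) (T.h (T.h (P (nat_lit 0)) (T.h (T.h (M (nat_lit 13617996589596695068671)) (T.h (P (nat_lit 0)) (P (nat_lit 6806374653853696)))) (T.h (P (nat_lit 0)) (P (nat_lit 6314639862071296))))) (T.h (T.h (T.h (P (nat_lit 0)) (P (nat_lit 7388629735611301888))) (P (nat_lit 0))) (T.h (T.h (P (nat_lit 0)) (P (nat_lit 2004594498371584))) (P (nat_lit 0))))))), (T.h (T.h (P (nat_lit 0)) (T.h (T.h (P (nat_lit 0)) (T.h (M (nat_lit 22031725547448854453944319)) (T.h (P (nat_lit 0)) (M (nat_lit 18945553778490736639))))) (T.h (P (nat_lit 0)) (T.h (T.h (P (nat_lit 0)) (M (nat_lit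 24256595937586053119))) (P (nat_lit 0)))))) (T.h (T.h (T.h (M (nat_lit 320690170914270682791542783)) (T.h (P (nat_lit 0)) (T.h (M (nat_lit 434863121499244462079)) (T.h (P (nat_lit 0)) (P (nat_lit 9953874026299392)))))) (T.h (P (nat_lit 0)) (T.h (T.h (M (nat_lit 124582449805231692709887)) (T.h (P (nat_lit 0)) (P (nat_lit 47943131333328896)))) (T.h (P (nat_lit 0)) (P (nat_lit 24021546090364928)))))) (T.h (T.h (P (nat_lit 0)) (T.h (T.h (P (nat_lit 0)) (P (nat_lit 27009049552740155392))) (P (nat_lit 0)))) (T.h (T.h (T.h (M (nat_lit 17314552546378270113791)) (T.h (P (nat_lit 0)) (M (nat_lit 15861830619299839)))) (T.h (P (nat_lit 0)) (M (nat_lit 2130561984954367)))) (T.h (P (nat_lit 0)) (P (nat_lit 533129381019648))))))), (T.h (T.h (P (nat_lit 0)) (T.h (T.h (M (nat_lit 15538004633748538418060591103)) (T.h (P (nat_lit 0)) (T.h (P (nat_lit 90150105672051010306048)) (T.h (P (nat_lit 0)) (M (nat_lit 14893299958284287)))))) (T.h (P (nat_lit 0)) (T.h (T.h (P (nat_lit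 31971531381454745370624)) (T.h (P (nat_lit 0)) (M (nat_lit 6628034860548095)))) (T.h (P (nat_lit 0)) (M (nat_lit 10352668921298943))))))) (T.h (T.h (T.h (P (nat_lit 0)) (T.h (P (nat_lit 38752044008928701728161792)) (T.h (P (nat_lit 0)) (M (nat_lit 53066877284871307263))))) (T.h (P (nat_lit 0)) (T.h (T.h (P (nat_lit 0)) (M (nat_lit 327214950102354362367))) (P (nat_lit 0))))) (T.h (T.h (P (nat_lit 0)) (T.h (T.h (P (nat_lit 90150105672051010306048)) (T.h (P (nat_lit 0)) (P (nat_lit 34651051960303616)))) (T.h (P (nat_lit 0)) (M (nat_lit 6628034860548095))))) (T.h (T.h (T.h (P (nat_lit 0)) (M (nat_lit 53066877284871307263))) (P (nat_lit 0))) (T.h (T.h (P (nat_lit 0)) (M (nat_lit 14893299958284287))) (P (nat_lit 0))))))), (T.h (T.h (P (nat_lit 0)) (T.h (T.h (P (nat_lit 0)) (T.h (M (nat_lit 77059904737505692864217087)) (T.h (P (nat_lit 0)) (P (nat_lit 24422649067191926784))))) (T.h (P (nat_lit 0)) (T.h (T.h (P (nat_lit 0)) (P (nat_lit 24422649067191926784))) (P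 (nat_lit 0)))))) (T.h (T.h (T.h (M (nat_lit 8311803618084416168113733631)) (T.h (P (nat_lit 0)) (P (nat_lit 66553013382877638819840)))) (T.h (P (nat_lit 0)) (P (nat_lit 66553013382877638819840)))) (T.h (T.h (P (nat_lit 0)) (T.h (T.h (P (nat_lit 0)) (P (nat_lit 14340526346780803072))) (P (nat_lit 0)))) (P (nat_lit 26474708591003599634432))))), (P (nat_lit 0))]
def lQm_17 : List (T ℤ) := [(P (nat_lit 0)), (T.h (T.h (T.h (M (nat_lit 338361714180115004849106452479)) (T.h (P (nat_lit 0)) (T.h (P (nat_lit 0)) (T.h (P (nat_lit 0)) (P (nat_lit 823250967452450816)))))) (T.h (P (nat_lit 0)) (T.h (T.h (P (nat_lit 2603676508804139699929088)) (T.h (P (nat_lit 0)) (M (nat_lit 25365486172786130943)))) (T.h (P (nat_lit 0)) (P (nat_lit 287525050649673728)))))) (T.h (T.h (P (nat_lit 0)) (T.h (T.h (P (nat_lit 0)) (T.h (P (nat_lit 44631809005452154372096)) (T.h (P (nat_lit 0)) (P (nat_lit 14212069352800256))))) (T.h (P (nat_lit 0)) (T.h (T.h (P (nat_lit 0)) (P (nat_lit 21157774929887232)))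 (P (nat_lit 0)))))) (T.h (T.h (T.h (P (nat_lit 7992072388334565537611776)) (T.h (P (nat_lit 0)) (M (nat_lit 5653982591758368767)))) (T.h (P (nat_lit 0)) (P (nat_lit 621163191484809216)))) (T.h (T.h (P (nat_lit 0)) (T.h (T.h (P (nat_lit 0)) (P (nat_lit 3431794116395008))) (P (nat_lit 0)))) (P (nat_lit 3286178180813029376)))))), (T.h (T.h (T.h (P (nat_lit 0)) (T.h (P (nat_lit 97581074448007982481961648128)) (T.h (P (nat_lit 0)) (T.h (P (nat_lit 17261519124186831781888)) (T.h (P (nat_lit 0)) (P (nat_lit 2818515274301440))))))) (T.h (P (nat_lit 0)) (T.h (T.h (P (nat_lit 0)) (T.h (P (nat_lit 64802820902210039185408)) (T.h (P (nat_lit 0)) (M (nat_lit 23220420041244671))))) (T.h (P (nat_lit 0)) (T.h (T.h (P (nat_lit 0)) (P (nat_lit 1884083773767680))) (P (nat_lit 0))))))) (T.h (T.h (P (nat_lit 0)) (T.h (T.h (P (nat_lit 24532106935627370756833280)) (T.h (P (nat_lit 0)) (M (nat_lit 17944080516516937727)))) (T.h (P (nat_lit 0)) (M (nat_lit 106263290849559314431)))))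 (T.h (T.h (T.h (P (nat_lit 0)) (T.h (P (nat_lit 15349521856242152112128)) (T.h (P (nat_lit 0)) (P (nat_lit 7192874682679296))))) (T.h (P (nat_lit 0)) (T.h (T.h (P (nat_lit 0)) (P (nat_lit 61369225453240320))) (P (nat_lit 0))))) (T.h (T.h (P (nat_lit 0)) (M (nat_lit 31353808992878985215))) (T.h (T.h (T.h (P (nat_lit 0)) (M (nat_lit 3645269363130367))) (P (nat_lit 0))) (P (nat_lit 0))))))), (T.h (T.h (T.h (M (nat_lit 24904608913243075430215017562111)) (T.h (P (nat_lit 0)) (T.h (M (nat_lit 28558369388848621637599231)) (T.h (P (nat_lit 0)) (P (nat_lit 1138174195176308736)))))) (T.h (P (nat_lit 0)) (T.h (T.h (M (nat_lit 47557352681751995377254399)) (T.h (P (nat_lit 0)) (P (nat_lit 7213091648547323904)))) (T.h (P (nat_lit 0)) (P (nat_lit 12286765327093596160)))))) (T.h (T.h (P (nat_lit 0)) (T.h (T.h (P (nat_lit 0)) (P (nat_lit 72285802493233286086656))) (P (nat_lit 0)))) (T.h (T.h (T.h (M (nat_lit 28558369388848621637599231)) (T.h (P (nat_lit 0)) (M (nat_lit 19918924814433124351))))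 (T.h (P (nat_lit 0)) (P (nat_lit 7213091648547323904)))) (T.h (P (nat_lit 0)) (P (nat_lit 1138174195176308736)))))), (P (nat_lit 0)), (P (nat_lit 0)), (T.h (T.h (P (nat_lit 0)) (T.h (T.h (M (nat_lit 3735944699976290291876364287)) (T.h (P (nat_lit 0)) (T.h (P (nat_lit 5909524652010437083136)) (T.h (P (nat_lit 0)) (P (nat_lit 2209956775591936)))))) (T.h (P (nat_lit 0)) (T.h (T.h (P (nat_lit 12711068152419347070976)) (T.h (P (nat_lit 0)) (M (nat_lit 19208907123326975)))) (T.h (P (nat_lit 0)) (M (nat_lit 6193401770803199))))))) (T.h (T.h (T.h (P (nat_lit 0)) (T.h (M (nat_lit 13141655625837937975885823)) (T.h (P (nat_lit 0)) (M (nat_lit 4788280243653705727))))) (T.h (P (nat_lit 0)) (T.h (T.h (P (nat_lit 0)) (M (nat_lit 32193241223916421119))) (P (nat_lit 0))))) (T.h (T.h (P (nat_lit 0)) (T.h (M (nat_lit 3434406944769488977919)) (T.h (P (nat_lit 0)) (M (nat_lit 5875308216451071))))) (T.h (T.h (T.h (P (nat_lit 0)) (M (nat_lit 876166944988856319))) (P (nat_lit 0)))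 (T.h (T.h (P (nat_lit 0)) (M (nat_lit 1249966879408127))) (P (nat_lit 0))))))), (T.h (T.h (P (nat_lit 0)) (T.h (T.h (P (nat_lit 0)) (T.h (M (nat_lit 23740425189703612127772671)) (T.h (P (nat_lit 0)) (P (nat_lit 11574770874313605120))))) (T.h (P (nat_lit 0)) (T.h (T.h (P (nat_lit 0)) (P (nat_lit 9694400712317861888))) (P (nat_lit 0)))))) (T.h (T.h (T.h (M (nat_lit 719817474826572681220980735)) (T.h (P (nat_lit 0)) (M (nat_lit 5292361548524716818431)))) (T.h (P (nat_lit 0)) (P (nat_lit 81404364450585477382144)))) (T.h (T.h (P (nat_lit 0)) (T.h (T.h (P (nat_lit 0)) (M (nat_lit 25574308777851617279))) (P (nat_lit 0)))) (P (nat_lit 7669978220490651598848)))))]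
def lQm_18 : List (T ℤ) := [(P (nat_lit 0)), (P (nat_lit 0)), (T.h (T.h (T.h (M (nat_lit 14856572718678401679984347316223)) (T.h (P (nat_lit 0)) (T.h (M (nat_lit 430512853632606770561023)) (T.h (P (nat_lit 0)) (M (nat_lit 458076090124992511)))))) (T.h (P (nat_lit 0)) (T.h (T.h (M (nat_lit 9143594504065898468343807)) (T.h (P (nat_lit 0)) (P (nat_lit 14012339163622277120)))) (T.h (P (nat_lit 0)) (P (nat_lit 5994328141479280640)))))) (T.h (T.h (P (nat_lit 0)) (T.h (T.h (P (nat_lit 0)) (P (nat_lit 10406685990088444215296))) (P (nat_lit 0)))) (T.h (T.h (T.h (P (nat_lit 146258586246510312161280)) (T.h (P (nat_lit 0)) (M (nat_lit 716194899120095231)))) (T.h (P (nat_lit 0)) (P (nat_lit 6245178489742295040)))) (T.h (P (nat_lit 0)) (M (nat_lit 111010873010552831)))))), (P (nat_lit 0)), (P (nat_lit 0)), (P (nat_lit 0)), (P (nat_lit 0)), (P (nat_lit 0))]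
def lQm_19 : List (T ℤ) := [(T.h (T.h (P (nat_lit 0)) (T.h (T.h (P (nat_lit 2874759264551899117903675392)) (T.h (P (nat_lit 0)) (T.h (P (nat_lit 1940289171074890858496)) (T.h (P (nat_lit 0)) (M (nat_lit 1082473110175743)))))) (T.h (P (nat_lit 0)) (T.h (T.h (M (nat_lit 738474885769798352895)) (T.h (P (nat_lit 0)) (P (nat_lit 622586800177152)))) (T.h (P (nat_lit 0)) (M (nat_lit 853826605940735))))))) (T.h (T.h (T.h (P (nat_lit 0)) (T.h (M (nat_lit 9930660340720679142817791)) (T.h (P (nat_lit 0)) (P (nat_lit 4498897606964936704))))) (T.h (P (nat_lit 0)) (T.h (T.h (P (nat_lit 0)) (M (nat_lit 717555307059871743))) (P (nat_lit 0))))) (T.h (T.h (P (nat_lit 0)) (T.h (T.h (P (nat_lit 7643476739830000386048)) (T.h (P (nat_lit 0)) (M (nat_lit 2788580132061183)))) (T.h (P (nat_lit 0)) (P (nat_lit 4065623452418048))))) (T.h (T.h (T.h (P (nat_lit 0)) (P (nat_lit 5817303471073787904))) (P (nat_lit 0))) (T.h (T.h (P (nat_lit 0)) (M (nat_lit 5476709220483071))) (P (nat_lit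 0))))))), (T.h (T.h (P (nat_lit 0)) (T.h (T.h (P (nat_lit 0)) (T.h (P (nat_lit 6345143623172862576164864)) (T.h (P (nat_lit 0)) (P (nat_lit 7388629735611301888))))) (T.h (P (nat_lit 0)) (T.h (T.h (P (nat_lit 0)) (P (nat_lit 7924019583034327040))) (P (nat_lit 0)))))) (T.h (T.h (T.h (P (nat_lit 2893234167580437187150217216)) (T.h (P (nat_lit 0)) (T.h (M (nat_lit 13617996589596695068671)) (T.h (P (nat_lit 0)) (P (nat_lit 2004594498371584)))))) (T.h (P (nat_lit 0)) (T.h (T.h (P (nat_lit 11824404982278817579008)) (T.h (P (nat_lit 0)) (P (nat_lit 6806374653853696)))) (T.h (P (nat_lit 0)) (P (nat_lit 1027658480451584)))))) (T.h (T.h (P (nat_lit 0)) (T.h (T.h (P (nat_lit 0)) (P (nat_lit 50860561505563181056))) (P (nat_lit 0)))) (T.h (T.h (T.h (M (nat_lit 4887624969485354532863)) (T.h (P (nat_lit 0)) (P (nat_lit 6314639862071296)))) (T.h (P (nat_lit 0)) (P (nat_lit 1940300321947648)))) (T.h (P (nat_lit 0)) (P (nat_lit 842086408290304))))))), (T.h (T.h (P (nat_lit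 0)) (T.h (T.h (P (nat_lit 895513046034761536558333952)) (T.h (P (nat_lit 0)) (T.h (M (nat_lit 6463124172456798978047)) (T.h (P (nat_lit 0)) (P (nat_lit 3126952219639808)))))) (T.h (P (nat_lit 0)) (T.h (T.h (M (nat_lit 8232267397385362079743)) (T.h (P (nat_lit 0)) (M (nat_lit 2953990688538623)))) (T.h (P (nat_lit 0)) (P (nat_lit 2099127109287936))))))) (T.h (T.h (T.h (P (nat_lit 0)) (T.h (P (nat_lit 21119259783786610263326720)) (T.h (P (nat_lit 0)) (M (nat_lit 6992613337276088319))))) (T.h (P (nat_lit 0)) (T.h (T.h (P (nat_lit 0)) (M (nat_lit 40155659876563943423))) (P (nat_lit 0))))) (T.h (T.h (P (nat_lit 0)) (T.h (T.h (M (nat_lit 6463124172456798978047)) (T.h (P (nat_lit 0)) (P (nat_lit 12393691856896000)))) (T.h (P (nat_lit 0)) (M (nat_lit 2953990688538623))))) (T.h (T.h (T.h (P (nat_lit 0)) (M (nat_lit 6992613337276088319))) (P (nat_lit 0))) (T.h (T.h (P (nat_lit 0)) (P (nat_lit 3126952219639808))) (P (nat_lit 0))))))), (T.h (T.h (P (nat_lit 0)) (T.h (T.h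 (P (nat_lit 0)) (T.h (M (nat_lit 29437568468312463620702207)) (T.h (P (nat_lit 0)) (M (nat_lit 13596485790493310975))))) (T.h (P (nat_lit 0)) (T.h (T.h (P (nat_lit 0)) (M (nat_lit 17039829687691378687))) (P (nat_lit 0)))))) (T.h (T.h (T.h (P (nat_lit 45104481563519293712781803520)) (T.h (P (nat_lit 0)) (T.h (P (nat_lit 15760965022728488747008)) (T.h (P (nat_lit 0)) (M (nat_lit 314325677375487)))))) (T.h (P (nat_lit 0)) (T.h (T.h (P (nat_lit 452581749181831446528)) (T.h (P (nat_lit 0)) (M (nat_lit 66998657318125567)))) (T.h (P (nat_lit 0)) (P (nat_lit 1633424815423488)))))) (T.h (T.h (P (nat_lit 0)) (T.h (T.h (P (nat_lit 0)) (M (nat_lit 27921786404926914559))) (P (nat_lit 0)))) (T.h (T.h (T.h (M (nat_lit 6284115532348582264831)) (T.h (P (nat_lit 0)) (M (nat_lit 9176005225218047)))) (T.h (P (nat_lit 0)) (M (nat_lit 629802396286975)))) (T.h (P (nat_lit 0)) (M (nat_lit 278797762428927))))))), (T.h (T.h (P (nat_lit 0)) (T.h (T.h (P (nat_lit 4847912892436371908541284352))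 (T.h (P (nat_lit 0)) (P (nat_lit 7689282402489485754368)))) (T.h (P (nat_lit 0)) (P (nat_lit 3937142110085665783808))))) (T.h (T.h (T.h (P (nat_lit 0)) (T.h (M (nat_lit 6774779893922198139699199)) (T.h (P (nat_lit 0)) (P (nat_lit 3330027300455448576))))) (T.h (P (nat_lit 0)) (T.h (T.h (P (nat_lit 0)) (P (nat_lit 34303312546880290816))) (P (nat_lit 0))))) (T.h (T.h (P (nat_lit 0)) (P (nat_lit 4520338283428990418944))) (T.h (T.h (T.h (P (nat_lit 0)) (P (nat_lit 5978080759825563648))) (P (nat_lit 0))) (P (nat_lit 0)))))), (P (nat_lit 0)), (P (nat_lit 0)), (T.h (T.h (T.h (P (nat_lit 0)) (T.h (P (nat_lit 2874759264551899117903675392)) (T.h (P (nat_lit 0)) (T.h (M (nat_lit 738474885769798352895)) (T.h (P (nat_lit 0)) (M (nat_lit 853826605940735))))))) (T.h (P (nat_lit 0)) (T.h (T.h (P (nat_lit 0)) (T.h (P (nat_lit 1940289171074890858496)) (T.h (P (nat_lit 0)) (P (nat_lit 622586800177152))))) (T.h (P (nat_lit 0)) (T.h (T.h (P (nat_lit 0)) (M (nat_lit 1082473110175743)))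 (P (nat_lit 0))))))) (T.h (T.h (P (nat_lit 0)) (T.h (T.h (M (nat_lit 9930660340720679142817791)) (T.h (P (nat_lit 0)) (M (nat_lit 717555307059871743)))) (T.h (P (nat_lit 0)) (P (nat_lit 4498897606964936704))))) (T.h (T.h (T.h (P (nat_lit 0)) (T.h (P (nat_lit 7643476739830000386048)) (T.h (P (nat_lit 0)) (P (nat_lit 4065623452418048))))) (T.h (P (nat_lit 0)) (T.h (T.h (P (nat_lit 0)) (M (nat_lit 2788580132061183))) (P (nat_lit 0))))) (T.h (T.h (P (nat_lit 0)) (P (nat_lit 5817303471073787904))) (T.h (T.h (T.h (P (nat_lit 0)) (M (nat_lit 5476709220483071))) (P (nat_lit 0))) (P (nat_lit 0)))))))]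
def lQm_20 : List (T ℤ) := [(T.h (T.h (T.h (P (nat_lit 11038097195991371679654739968)) (T.h (P (nat_lit 0)) (T.h (P (nat_lit 1931505742482698280108032)) (T.h (P (nat_lit 0)) (P (nat_lit 2150600115193118720)))))) (T.h (P (nat_lit 0)) (T.h (T.h (P (nat_lit 1931505742482698280108032)) (T.h (P (nat_lit 0)) (M (nat_lit 6272402667423662079)))) (T.h (P (nat_lit 0)) (P (nat_lit 2150600115193118720)))))) (T.h (T.h (P (nat_lit 0)) (T.h (T.h (P (nat_lit 0)) (T.h (M (nat_lit 23138019382606574911487)) (T.h (P (nat_lit 0)) (P (nat_lit 12785404002697216))))) (T.h (P (nat_lit 0)) (T.h (T.h (P (nat_lit 0)) (P (nat_lit 12785404002697216))) (P (nat_lit 0)))))) (T.h (T.h (T.h (M (nat_lit 13123897115103883742412799)) (T.h (P (nat_lit 0)) (P (nat_lit 29470118660504813568)))) (T.h (P (nat_lit 0)) (P (nat_lit 29470118660504813568)))) (T.h (T.h (P (nat_lit 0)) (T.h (T.h (P (nat_lit 0)) (P (nat_lit 3540630147170304))) (P (nat_lit 0)))) (P (nat_lit 15962821450868457472)))))), (T.h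 (T.h (T.h (P (nat_lit 0)) (T.h (M (nat_lit 320690170914270682791542783)) (T.h (P (nat_lit 0)) (T.h (M (nat_lit 17314552546378270113791)) (T.h (P (nat_lit 0)) (P (nat_lit 533129381019648))))))) (T.h (P (nat_lit 0)) (T.h (T.h (P (nat_lit 0)) (T.h (M (nat_lit 434863121499244462079)) (T.h (P (nat_lit 0)) (M (nat_lit 15861830619299839))))) (T.h (P (nat_lit 0)) (T.h (T.h (P (nat_lit 0)) (P (nat_lit 9953874026299392))) (P (nat_lit 0))))))) (T.h (T.h (P (nat_lit 0)) (T.h (T.h (M (nat_lit 22031725547448854453944319)) (T.h (P (nat_lit 0)) (P (nat_lit 27009049552740155392)))) (T.h (P (nat_lit 0)) (M (nat_lit 18945553778490736639))))) (T.h (T.h (T.h (P (nat_lit 0)) (T.h (M (nat_lit 124582449805231692709887)) (T.h (P (nat_lit 0)) (M (nat_lit 2130561984954367))))) (T.h (P (nat_lit 0)) (T.h (T.h (P (nat_lit 0)) (P (nat_lit 47943131333328896))) (P (nat_lit 0))))) (T.h (T.h (P (nat_lit 0)) (M (nat_lit 24256595937586053119))) (T.h (T.h (T.h (P (nat_lit 0)) (P (nat_lit 24021546090364928)))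 (P (nat_lit 0))) (P (nat_lit 0))))))), (T.h (T.h (T.h (P (nat_lit 5650569602416018221516063768576)) (T.h (P (nat_lit 0)) (T.h (P (nat_lit 36619332756341022001201152)) (T.h (P (nat_lit 0)) (M (nat_lit 8722767057218699263)))))) (T.h (P (nat_lit 0)) (T.h (T.h (M (nat_lit 21754681419217188406951935)) (T.h (P (nat_lit 0)) (P (nat_lit 2488124734957420544)))) (T.h (P (nat_lit 0)) (M (nat_lit 23002432904995274751)))))) (T.h (T.h (P (nat_lit 0)) (T.h (T.h (P (nat_lit 0)) (T.h (P (nat_lit 74030274246512526491648)) (T.h (P (nat_lit 0)) (M (nat_lit 22571703364485119))))) (T.h (P (nat_lit 0)) (T.h (T.h (P (nat_lit 0)) (M (nat_lit 64873962961108991))) (P (nat_lit 0)))))) (T.h (T.h (T.h (P (nat_lit 36619332756341022001201152)) (T.h (P (nat_lit 0)) (M (nat_lit 139330404219585822719)))) (T.h (P (nat_lit 0)) (P (nat_lit 2488124734957420544)))) (T.h (T.h (P (nat_lit 0)) (T.h (T.h (P (nat_lit 0)) (M (nat_lit 22571703364485119))) (P (nat_lit 0)))) (M (nat_lit 8722767057218699263)))))),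 (T.h (T.h (T.h (P (nat_lit 0)) (T.h (M (nat_lit 7305124718430585802427727871)) (T.h (P (nat_lit 0)) (P (nat_lit 20279155672975897788416))))) (T.h (P (nat_lit 0)) (T.h (T.h (P (nat_lit 0)) (P (nat_lit 5037294177271444144128))) (P (nat_lit 0))))) (T.h (T.h (P (nat_lit 0)) (T.h (T.h (M (nat_lit 19257407832285331475922943)) (T.h (P (nat_lit 0)) (P (nat_lit 20217337298745819136)))) (T.h (P (nat_lit 0)) (P (nat_lit 11252355669518450688))))) (T.h (T.h (T.h (P (nat_lit 0)) (P (nat_lit 96236064664401412620288))) (P (nat_lit 0))) (T.h (T.h (P (nat_lit 0)) (P (nat_lit 9833570716052619264))) (P (nat_lit 0)))))), (P (nat_lit 0)), (P (nat_lit 0)), (T.h (T.h (P (nat_lit 0)) (T.h (T.h (P (nat_lit 0)) (T.h (P (nat_lit 6345143623172862576164864)) (T.h (P (nat_lit 0)) (P (nat_lit 7924019583034327040))))) (T.h (P (nat_lit 0)) (T.h (T.h (P (nat_lit 0)) (P (nat_lit 7388629735611301888))) (P (nat_lit 0)))))) (T.h (T.h (T.h (P (nat_lit 2893234167580437187150217216)) (T.h (P (nat_lit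 0)) (T.h (P (nat_lit 11824404982278817579008)) (T.h (P (nat_lit 0)) (P (nat_lit 1027658480451584)))))) (T.h (P (nat_lit 0)) (T.h (T.h (M (nat_lit 13617996589596695068671)) (T.h (P (nat_lit 0)) (P (nat_lit 6806374653853696)))) (T.h (P (nat_lit 0)) (P (nat_lit 2004594498371584)))))) (T.h (T.h (P (nat_lit 0)) (T.h (T.h (P (nat_lit 0)) (P (nat_lit 50860561505563181056))) (P (nat_lit 0)))) (T.h (T.h (T.h (M (nat_lit 4887624969485354532863)) (T.h (P (nat_lit 0)) (P (nat_lit 1940300321947648)))) (T.h (P (nat_lit 0)) (P (nat_lit 6314639862071296)))) (T.h (P (nat_lit 0)) (P (nat_lit 842086408290304))))))), (T.h (T.h (P (nat_lit 0)) (T.h (T.h (M (nat_lit 320690170914270682791542783)) (T.h (P (nat_lit 0)) (T.h (M (nat_lit 434863121499244462079)) (T.h (P (nat_lit 0)) (P (nat_lit 9953874026299392)))))) (T.h (P (nat_lit 0)) (T.h (T.h (M (nat_lit 17314552546378270113791)) (T.h (P (nat_lit 0)) (M (nat_lit 15861830619299839)))) (T.h (P (nat_lit 0)) (P (nat_lit 533129381019648)))))))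 (T.h (T.h (T.h (P (nat_lit 0)) (T.h (M (nat_lit 22031725547448854453944319)) (T.h (P (nat_lit 0)) (M (nat_lit 18945553778490736639))))) (T.h (P (nat_lit 0)) (T.h (T.h (P (nat_lit 0)) (P (nat_lit 27009049552740155392))) (P (nat_lit 0))))) (T.h (T.h (P (nat_lit 0)) (T.h (T.h (M (nat_lit 124582449805231692709887)) (T.h (P (nat_lit 0)) (P (nat_lit 47943131333328896)))) (T.h (P (nat_lit 0)) (M (nat_lit 2130561984954367))))) (T.h (T.h (T.h (P (nat_lit 0)) (M (nat_lit 24256595937586053119))) (P (nat_lit 0))) (T.h (T.h (P (nat_lit 0)) (P (nat_lit 24021546090364928))) (P (nat_lit 0)))))))]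
def lQm_21 : List (T ℤ) := [(T.h (T.h (P (nat_lit 0)) (T.h (T.h (P (nat_lit 0)) (T.h (P (nat_lit 38752044008928701728161792)) (T.h (P (nat_lit 0)) (M (nat_lit 53066877284871307263))))) (T.h (P (nat_lit 0)) (T.h (T.h (P (nat_lit 0)) (M (nat_lit 53066877284871307263))) (P (nat_lit 0)))))) (T.h (T.h (T.h (M (nat_lit 15538004633748538418060591103)) (T.h (P (nat_lit 0)) (T.h (P (nat_lit 90150105672051010306048)) (T.h (P (nat_lit 0)) (M (nat_lit 14893299958284287)))))) (T.h (P (nat_lit 0)) (T.h (T.h (P (nat_lit 90150105672051010306048)) (T.h (P (nat_lit 0)) (P (nat_lit 34651051960303616)))) (T.h (P (nat_lit 0)) (M (nat_lit 14893299958284287)))))) (T.h (T.h (P (nat_lit 0)) (T.h (T.h (P (nat_lit 0)) (M (nat_lit 327214950102354362367))) (P (nat_lit 0)))) (T.h (T.h (T.h (P (nat_lit 31971531381454745370624)) (T.h (P (nat_lit 0)) (M (nat_lit 6628034860548095)))) (T.h (P (nat_lit 0)) (M (nat_lit 6628034860548095)))) (T.h (P (nat_lit 0)) (M (nat_lit 10352668921298943))))))),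 (T.h (T.h (P (nat_lit 0)) (T.h (T.h (M (nat_lit 8311803618084416168113733631)) (T.h (P (nat_lit 0)) (P (nat_lit 66553013382877638819840)))) (T.h (P (nat_lit 0)) (P (nat_lit 26474708591003599634432))))) (T.h (T.h (T.h (P (nat_lit 0)) (T.h (M (nat_lit 77059904737505692864217087)) (T.h (P (nat_lit 0)) (P (nat_lit 24422649067191926784))))) (T.h (P (nat_lit 0)) (T.h (T.h (P (nat_lit 0)) (P (nat_lit 14340526346780803072))) (P (nat_lit 0))))) (T.h (T.h (P (nat_lit 0)) (P (nat_lit 66553013382877638819840))) (T.h (T.h (T.h (P (nat_lit 0)) (P (nat_lit 24422649067191926784))) (P (nat_lit 0))) (P (nat_lit 0)))))), (P (nat_lit 0)), (P (nat_lit 0)), (T.h (T.h (T.h (P (nat_lit 0)) (T.h (P (nat_lit 895513046034761536558333952)) (T.h (P (nat_lit 0)) (T.h (M (nat_lit 8232267397385362079743)) (T.h (P (nat_lit 0)) (P (nat_lit 2099127109287936))))))) (T.h (P (nat_lit 0)) (T.h (T.h (P (nat_lit 0)) (T.h (M (nat_lit 6463124172456798978047)) (T.h (P (nat_lit 0)) (M (nat_lit 2953990688538623)))))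 (T.h (P (nat_lit 0)) (T.h (T.h (P (nat_lit 0)) (P (nat_lit 3126952219639808))) (P (nat_lit 0))))))) (T.h (T.h (P (nat_lit 0)) (T.h (T.h (P (nat_lit 21119259783786610263326720)) (T.h (P (nat_lit 0)) (M (nat_lit 40155659876563943423)))) (T.h (P (nat_lit 0)) (M (nat_lit 6992613337276088319))))) (T.h (T.h (T.h (P (nat_lit 0)) (T.h (M (nat_lit 6463124172456798978047)) (T.h (P (nat_lit 0)) (M (nat_lit 2953990688538623))))) (T.h (P (nat_lit 0)) (T.h (T.h (P (nat_lit 0)) (P (nat_lit 12393691856896000))) (P (nat_lit 0))))) (T.h (T.h (P (nat_lit 0)) (M (nat_lit 6992613337276088319))) (T.h (T.h (T.h (P (nat_lit 0)) (P (nat_lit 3126952219639808))) (P (nat_lit 0))) (P (nat_lit 0))))))), (T.h (T.h (T.h (P (nat_lit 5650569602416018221516063768576)) (T.h (P (nat_lit 0)) (T.h (M (nat_lit 21754681419217188406951935)) (T.h (P (nat_lit 0)) (M (nat_lit 23002432904995274751)))))) (T.h (P (nat_lit 0)) (T.h (T.h (P (nat_lit 36619332756341022001201152)) (T.h (P (nat_lit 0)) (P (nat_lit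 2488124734957420544)))) (T.h (P (nat_lit 0)) (M (nat_lit 8722767057218699263)))))) (T.h (T.h (P (nat_lit 0)) (T.h (T.h (P (nat_lit 0)) (T.h (P (nat_lit 74030274246512526491648)) (T.h (P (nat_lit 0)) (M (nat_lit 64873962961108991))))) (T.h (P (nat_lit 0)) (T.h (T.h (P (nat_lit 0)) (M (nat_lit 22571703364485119))) (P (nat_lit 0)))))) (T.h (T.h (T.h (P (nat_lit 36619332756341022001201152)) (T.h (P (nat_lit 0)) (P (nat_lit 2488124734957420544)))) (T.h (P (nat_lit 0)) (M (nat_lit 139330404219585822719)))) (T.h (T.h (P (nat_lit 0)) (T.h (T.h (P (nat_lit 0)) (M (nat_lit 22571703364485119))) (P (nat_lit 0)))) (M (nat_lit 8722767057218699263)))))), (T.h (T.h (T.h (P (nat_lit 0)) (T.h (M (nat_lit 8311803618084416168113733631)) (T.h (P (nat_lit 0)) (P (nat_lit 26474708591003599634432))))) (T.h (P (nat_lit 0)) (T.h (T.h (P (nat_lit 0)) (P (nat_lit 66553013382877638819840))) (P (nat_lit 0))))) (T.h (T.h (P (nat_lit 0)) (T.h (T.h (M (nat_lit 77059904737505692864217087))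 (T.h (P (nat_lit 0)) (P (nat_lit 14340526346780803072)))) (T.h (P (nat_lit 0)) (P (nat_lit 24422649067191926784))))) (T.h (T.h (T.h (P (nat_lit 0)) (P (nat_lit 66553013382877638819840))) (P (nat_lit 0))) (T.h (T.h (P (nat_lit 0)) (P (nat_lit 24422649067191926784))) (P (nat_lit 0)))))), (P (nat_lit 0))]
def lQm_22 : List (T ℤ) := [(P (nat_lit 0)), (T.h (T.h (P (nat_lit 0)) (T.h (T.h (P (nat_lit 0)) (T.h (M (nat_lit 29437568468312463620702207)) (T.h (P (nat_lit 0)) (M (nat_lit 17039829687691378687))))) (T.h (P (nat_lit 0)) (T.h (T.h (P (nat_lit 0)) (M (nat_lit 13596485790493310975))) (P (nat_lit 0)))))) (T.h (T.h (T.h (P (nat_lit 45104481563519293712781803520)) (T.h (P (nat_lit 0)) (T.h (P (nat_lit 452581749181831446528)) (T.h (P (nat_lit 0)) (P (nat_lit 1633424815423488)))))) (T.h (P (nat_lit 0)) (T.h (T.h (P (nat_lit 15760965022728488747008)) (T.h (P (nat_lit 0)) (M (nat_lit 66998657318125567)))) (T.h (P (nat_lit 0)) (M (nat_lit 314325677375487)))))) (T.h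 (T.h (P (nat_lit 0)) (T.h (T.h (P (nat_lit 0)) (M (nat_lit 27921786404926914559))) (P (nat_lit 0)))) (T.h (T.h (T.h (M (nat_lit 6284115532348582264831)) (T.h (P (nat_lit 0)) (M (nat_lit 629802396286975)))) (T.h (P (nat_lit 0)) (M (nat_lit 9176005225218047)))) (T.h (P (nat_lit 0)) (M (nat_lit 278797762428927))))))), (T.h (T.h (P (nat_lit 0)) (T.h (T.h (M (nat_lit 7305124718430585802427727871)) (T.h (P (nat_lit 0)) (P (nat_lit 5037294177271444144128)))) (T.h (P (nat_lit 0)) (P (nat_lit 20279155672975897788416))))) (T.h (T.h (T.h (P (nat_lit 0)) (T.h (M (nat_lit 19257407832285331475922943)) (T.h (P (nat_lit 0)) (P (nat_lit 11252355669518450688))))) (T.h (P (nat_lit 0)) (T.h (T.h (P (nat_lit 0)) (P (nat_lit 20217337298745819136))) (P (nat_lit 0))))) (T.h (T.h (P (nat_lit 0)) (P (nat_lit 96236064664401412620288))) (T.h (T.h (T.h (P (nat_lit 0)) (P (nat_lit 9833570716052619264))) (P (nat_lit 0))) (P (nat_lit 0)))))), (P (nat_lit 0)), (P (nat_lit 0)), (T.h (T.h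 (T.h (P (nat_lit 0)) (T.h (P (nat_lit 4847912892436371908541284352)) (T.h (P (nat_lit 0)) (P (nat_lit 3937142110085665783808))))) (T.h (P (nat_lit 0)) (T.h (T.h (P (nat_lit 0)) (P (nat_lit 7689282402489485754368))) (P (nat_lit 0))))) (T.h (T.h (P (nat_lit 0)) (T.h (T.h (M (nat_lit 6774779893922198139699199)) (T.h (P (nat_lit 0)) (P (nat_lit 34303312546880290816)))) (T.h (P (nat_lit 0)) (P (nat_lit 3330027300455448576))))) (T.h (T.h (T.h (P (nat_lit 0)) (P (nat_lit 4520338283428990418944))) (P (nat_lit 0))) (T.h (T.h (P (nat_lit 0)) (P (nat_lit 5978080759825563648))) (P (nat_lit 0)))))), (P (nat_lit 0)), (P (nat_lit 0))]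
def lQm_23 : List (T ℤ) := [(P (nat_lit 0)), (P (nat_lit 0)), (P (nat_lit 0)), (T.h (T.h (T.h (P (nat_lit 96674775480032858528316129280)) (T.h (P (nat_lit 0)) (T.h (M (nat_lit 817570893295480970674175)) (T.h (P (nat_lit 0)) (M (nat_lit 692532370447794175)))))) (T.h (P (nat_lit 0)) (T.h (T.h (M (nat_lit 817570893295480970674175)) (T.h (P (nat_lit 0)) (P (nat_lit 3310063201005076480)))) (T.h (P (nat_lit 0)) (M (nat_lit 692532370447794175)))))) (T.h (T.h (P (nat_lit 0)) (T.h (T.h (P (nat_lit 0)) (T.h (M (nat_lit 2618989352391739965439)) (T.h (P (nat_lit 0)) (M (nat_lit 129461949038591))))) (T.h (P (nat_lit 0)) (T.h (T.h (P (nat_lit 0)) (M (nat_lit 129461949038591))) (P (nat_lit 0)))))) (T.h (T.h (T.h (M (nat_lit 1539936402037090780446719)) (T.h (P (nat_lit 0)) (P (nat_lit 712178620038119424)))) (T.h (P (nat_lit 0)) (P (nat_lit 712178620038119424)))) (T.h (T.h (P (nat_lit 0)) (T.h (T.h (P (nat_lit 0)) (M (nat_lit 294768566599679))) (P (nat_lit 0)))) (M (nat_lit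 86536408218468351)))))), (T.h (T.h (T.h (P (nat_lit 0)) (T.h (M (nat_lit 53881732118352720053892284415)) (T.h (P (nat_lit 0)) (T.h (P (nat_lit 1138092656815090171904)) (T.h (P (nat_lit 0)) (M (nat_lit 453536361119743))))))) (T.h (P (nat_lit 0)) (T.h (T.h (P (nat_lit 0)) (T.h (M (nat_lit 1180029681764931731455)) (T.h (P (nat_lit 0)) (M (nat_lit 444352593395711))))) (T.h (P (nat_lit 0)) (T.h (T.h (P (nat_lit 0)) (M (nat_lit 430876221964287))) (P (nat_lit 0))))))) (T.h (T.h (P (nat_lit 0)) (T.h (T.h (M (nat_lit 6257322254999635160465407)) (T.h (P (nat_lit 0)) (P (nat_lit 778044669081681920)))) (T.h (P (nat_lit 0)) (M (nat_lit 6181027965124476927))))) (T.h (T.h (T.h (P (nat_lit 0)) (T.h (M (nat_lit 4044796161900521979903)) (T.h (P (nat_lit 0)) (P (nat_lit 4746482182750208))))) (T.h (P (nat_lit 0)) (T.h (T.h (P (nat_lit 0)) (P (nat_lit 12727986820939776))) (P (nat_lit 0))))) (T.h (T.h (P (nat_lit 0)) (P (nat_lit 18700725765254676480))) (T.h (T.h (T.h (P (nat_lit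 0)) (M (nat_lit 7839521280917503))) (P (nat_lit 0))) (P (nat_lit 0))))))), (T.h (T.h (T.h (M (nat_lit 338361714180115004849106452479)) (T.h (P (nat_lit 0)) (T.h (P (nat_lit 7992072388334565537611776)) (T.h (P (nat_lit 0)) (P (nat_lit 3286178180813029376)))))) (T.h (P (nat_lit 0)) (T.h (T.h (P (nat_lit 0)) (T.h (P (nat_lit 0)) (M (nat_lit 5653982591758368767)))) (T.h (P (nat_lit 0)) (P (nat_lit 823250967452450816)))))) (T.h (T.h (P (nat_lit 0)) (T.h (T.h (P (nat_lit 0)) (T.h (P (nat_lit 44631809005452154372096)) (T.h (P (nat_lit 0)) (P (nat_lit 3431794116395008))))) (T.h (P (nat_lit 0)) (T.h (T.h (P (nat_lit 0)) (P (nat_lit 14212069352800256))) (P (nat_lit 0)))))) (T.h (T.h (T.h (P (nat_lit 2603676508804139699929088)) (T.h (P (nat_lit 0)) (P (nat_lit 621163191484809216)))) (T.h (P (nat_lit 0)) (M (nat_lit 25365486172786130943)))) (T.h (T.h (P (nat_lit 0)) (T.h (T.h (P (nat_lit 0)) (P (nat_lit 21157774929887232))) (P (nat_lit 0)))) (P (nat_lit 287525050649673728)))))),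 (T.h (T.h (T.h (P (nat_lit 0)) (T.h (P (nat_lit 45104481563519293712781803520)) (T.h (P (nat_lit 0)) (T.h (M (nat_lit 6284115532348582264831)) (T.h (P (nat_lit 0)) (M (nat_lit 278797762428927))))))) (T.h (P (nat_lit 0)) (T.h (T.h (P (nat_lit 0)) (T.h (P (nat_lit 452581749181831446528)) (T.h (P (nat_lit 0)) (M (nat_lit 629802396286975))))) (T.h (P (nat_lit 0)) (T.h (T.h (P (nat_lit 0)) (P (nat_lit 1633424815423488))) (P (nat_lit 0))))))) (T.h (T.h (P (nat_lit 0)) (T.h (T.h (M (nat_lit 29437568468312463620702207)) (T.h (P (nat_lit 0)) (M (nat_lit 27921786404926914559)))) (T.h (P (nat_lit 0)) (M (nat_lit 17039829687691378687))))) (T.h (T.h (T.h (P (nat_lit 0)) (T.h (P (nat_lit 15760965022728488747008)) (T.h (P (nat_lit 0)) (M (nat_lit 9176005225218047))))) (T.h (P (nat_lit 0)) (T.h (T.h (P (nat_lit 0)) (M (nat_lit 66998657318125567))) (P (nat_lit 0))))) (T.h (T.h (P (nat_lit 0)) (M (nat_lit 13596485790493310975))) (T.h (T.h (T.h (P (nat_lit 0)) (M (nat_lit 314325677375487)))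 (P (nat_lit 0))) (P (nat_lit 0))))))), (T.h (T.h (T.h (M (nat_lit 27591110730411258944789057372159)) (T.h (P (nat_lit 0)) (T.h (M (nat_lit 1194656571771072035160063)) (T.h (P (nat_lit 0)) (P (nat_lit 437328509317152768)))))) (T.h (P (nat_lit 0)) (T.h (T.h (P (nat_lit 2432566270557964294160384)) (T.h (P (nat_lit 0)) (P (nat_lit 17635344513788542976)))) (T.h (P (nat_lit 0)) (M (nat_lit 836313505496825855)))))) (T.h (T.h (P (nat_lit 0)) (T.h (T.h (P (nat_lit 0)) (P (nat_lit 18081353133715961675776))) (P (nat_lit 0)))) (T.h (T.h (T.h (M (nat_lit 1194656571771072035160063)) (T.h (P (nat_lit 0)) (P (nat_lit 14094344025934921728)))) (T.h (P (nat_lit 0)) (P (nat_lit 17635344513788542976)))) (T.h (P (nat_lit 0)) (P (nat_lit 437328509317152768))))))]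
def lQm_24 : List (T ℤ) := [(P (nat_lit 0)), (P (nat_lit 0)), (T.h (T.h (P (nat_lit 0)) (T.h (T.h (M (nat_lit 53881732118352720053892284415)) (T.h (P (nat_lit 0)) (T.h (M (nat_lit 1180029681764931731455)) (T.h (P (nat_lit 0)) (M (nat_lit 430876221964287)))))) (T.h (P (nat_lit 0)) (T.h (T.h (P (nat_lit 1138092656815090171904)) (T.h (P (nat_lit 0)) (M (nat_lit 444352593395711)))) (T.h (P (nat_lit 0)) (M (nat_lit 453536361119743))))))) (T.h (T.h (T.h (P (nat_lit 0)) (T.h (M (nat_lit 6257322254999635160465407)) (T.h (P (nat_lit 0)) (M (nat_lit 6181027965124476927))))) (T.h (P (nat_lit 0)) (T.h (T.h (P (nat_lit 0)) (P (nat_lit 778044669081681920))) (P (nat_lit 0))))) (T.h (T.h (P (nat_lit 0)) (T.h (T.h (M (nat_lit 4044796161900521979903)) (T.h (P (nat_lit 0)) (P (nat_lit 12727986820939776)))) (T.h (P (nat_lit 0)) (P (nat_lit 4746482182750208))))) (T.h (T.h (T.h (P (nat_lit 0)) (P (nat_lit 18700725765254676480))) (P (nat_lit 0))) (T.h (T.h (P (nat_lit 0)) (M (nat_lit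 7839521280917503))) (P (nat_lit 0))))))), (T.h (T.h (P (nat_lit 0)) (T.h (T.h (P (nat_lit 0)) (T.h (M (nat_lit 51384193130259596913410047)) (T.h (P (nat_lit 0)) (P (nat_lit 3553031887867871232))))) (T.h (P (nat_lit 0)) (T.h (T.h (P (nat_lit 0)) (P (nat_lit 3553031887867871232))) (P (nat_lit 0)))))) (T.h (T.h (T.h (P (nat_lit 8247066503751675425415233536)) (T.h (P (nat_lit 0)) (T.h (M (nat_lit 26038473945571815063551)) (T.h (P (nat_lit 0)) (P (nat_lit 4390270459445248)))))) (T.h (P (nat_lit 0)) (T.h (T.h (M (nat_lit 26038473945571815063551)) (T.h (P (nat_lit 0)) (P (nat_lit 2683627399806976)))) (T.h (P (nat_lit 0)) (P (nat_lit 4390270459445248)))))) (T.h (T.h (P (nat_lit 0)) (T.h (T.h (P (nat_lit 0)) (M (nat_lit 16527390372616208383))) (P (nat_lit 0)))) (T.h (T.h (T.h (M (nat_lit 17156229624079432286207)) (T.h (P (nat_lit 0)) (M (nat_lit 5994255547105279)))) (T.h (P (nat_lit 0)) (M (nat_lit 5994255547105279)))) (T.h (P (nat_lit 0)) (P (nat_lit 5558297383403520))))))),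 (T.h (T.h (P (nat_lit 0)) (T.h (T.h (P (nat_lit 97581074448007982481961648128)) (T.h (P (nat_lit 0)) (T.h (P (nat_lit 15349521856242152112128)) (T.h (P (nat_lit 0)) (M (nat_lit 3645269363130367)))))) (T.h (P (nat_lit 0)) (T.h (T.h (P (nat_lit 17261519124186831781888)) (T.h (P (nat_lit 0)) (P (nat_lit 7192874682679296)))) (T.h (P (nat_lit 0)) (P (nat_lit 2818515274301440))))))) (T.h (T.h (T.h (P (nat_lit 0)) (T.h (P (nat_lit 24532106935627370756833280)) (T.h (P (nat_lit 0)) (M (nat_lit 31353808992878985215))))) (T.h (P (nat_lit 0)) (T.h (T.h (P (nat_lit 0)) (M (nat_lit 17944080516516937727))) (P (nat_lit 0))))) (T.h (T.h (P (nat_lit 0)) (T.h (T.h (P (nat_lit 64802820902210039185408)) (T.h (P (nat_lit 0)) (P (nat_lit 61369225453240320)))) (T.h (P (nat_lit 0)) (M (nat_lit 23220420041244671))))) (T.h (T.h (T.h (P (nat_lit 0)) (M (nat_lit 106263290849559314431))) (P (nat_lit 0))) (T.h (T.h (P (nat_lit 0)) (P (nat_lit 1884083773767680))) (P (nat_lit 0))))))), (T.h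 (T.h (P (nat_lit 0)) (T.h (T.h (P (nat_lit 0)) (T.h (M (nat_lit 19257407832285331475922943)) (T.h (P (nat_lit 0)) (P (nat_lit 9833570716052619264))))) (T.h (P (nat_lit 0)) (T.h (T.h (P (nat_lit 0)) (P (nat_lit 11252355669518450688))) (P (nat_lit 0)))))) (T.h (T.h (T.h (M (nat_lit 7305124718430585802427727871)) (T.h (P (nat_lit 0)) (P (nat_lit 96236064664401412620288)))) (T.h (P (nat_lit 0)) (P (nat_lit 5037294177271444144128)))) (T.h (T.h (P (nat_lit 0)) (T.h (T.h (P (nat_lit 0)) (P (nat_lit 20217337298745819136))) (P (nat_lit 0)))) (P (nat_lit 20279155672975897788416))))), (P (nat_lit 0)), (P (nat_lit 0))]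
def lQm_25 : List (T ℤ) := [(T.h (T.h (T.h (M (nat_lit 338361714180115004849106452479)) (T.h (P (nat_lit 0)) (T.h (P (nat_lit 0)) (T.h (P (nat_lit 0)) (P (nat_lit 823250967452450816)))))) (T.h (P (nat_lit 0)) (T.h (T.h (P (nat_lit 7992072388334565537611776)) (T.h (P (nat_lit 0)) (M (nat_lit 5653982591758368767)))) (T.h (P (nat_lit 0)) (P (nat_lit 3286178180813029376)))))) (T.h (T.h (P (nat_lit 0)) (T.h (T.h (P (nat_lit 0)) (T.h (P (nat_lit 44631809005452154372096)) (T.h (P (nat_lit 0)) (P (nat_lit 14212069352800256))))) (T.h (P (nat_lit 0)) (T.h (T.h (P (nat_lit 0)) (P (nat_lit 3431794116395008))) (P (nat_lit 0)))))) (T.h (T.h (T.h (P (nat_lit 2603676508804139699929088)) (T.h (P (nat_lit 0)) (M (nat_lit 25365486172786130943)))) (T.h (P (nat_lit 0)) (P (nat_lit 621163191484809216)))) (T.h (T.h (P (nat_lit 0)) (T.h (T.h (P (nat_lit 0)) (P (nat_lit 21157774929887232))) (P (nat_lit 0)))) (P (nat_lit 287525050649673728)))))), (T.h (T.h (T.h (P (nat_lit 0)) (T.h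 (P (nat_lit 97581074448007982481961648128)) (T.h (P (nat_lit 0)) (T.h (P (nat_lit 17261519124186831781888)) (T.h (P (nat_lit 0)) (P (nat_lit 2818515274301440))))))) (T.h (P (nat_lit 0)) (T.h (T.h (P (nat_lit 0)) (T.h (P (nat_lit 15349521856242152112128)) (T.h (P (nat_lit 0)) (P (nat_lit 7192874682679296))))) (T.h (P (nat_lit 0)) (T.h (T.h (P (nat_lit 0)) (M (nat_lit 3645269363130367))) (P (nat_lit 0))))))) (T.h (T.h (P (nat_lit 0)) (T.h (T.h (P (nat_lit 24532106935627370756833280)) (T.h (P (nat_lit 0)) (M (nat_lit 17944080516516937727)))) (T.h (P (nat_lit 0)) (M (nat_lit 31353808992878985215))))) (T.h (T.h (T.h (P (nat_lit 0)) (T.h (P (nat_lit 64802820902210039185408)) (T.h (P (nat_lit 0)) (M (nat_lit 23220420041244671))))) (T.h (P (nat_lit 0)) (T.h (T.h (P (nat_lit 0)) (P (nat_lit 61369225453240320))) (P (nat_lit 0))))) (T.h (T.h (P (nat_lit 0)) (M (nat_lit 106263290849559314431))) (T.h (T.h (T.h (P (nat_lit 0)) (P (nat_lit 1884083773767680))) (P (nat_lit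 0))) (P (nat_lit 0))))))), (T.h (T.h (T.h (M (nat_lit 24904608913243075430215017562111)) (T.h (P (nat_lit 0)) (T.h (M (nat_lit 28558369388848621637599231)) (T.h (P (nat_lit 0)) (P (nat_lit 1138174195176308736)))))) (T.h (P (nat_lit 0)) (T.h (T.h (M (nat_lit 28558369388848621637599231)) (T.h (P (nat_lit 0)) (M (nat_lit 19918924814433124351)))) (T.h (P (nat_lit 0)) (P (nat_lit 1138174195176308736)))))) (T.h (T.h (P (nat_lit 0)) (T.h (T.h (P (nat_lit 0)) (P (nat_lit 72285802493233286086656))) (P (nat_lit 0)))) (T.h (T.h (T.h (M (nat_lit 47557352681751995377254399)) (T.h (P (nat_lit 0)) (P (nat_lit 7213091648547323904)))) (T.h (P (nat_lit 0)) (P (nat_lit 7213091648547323904)))) (T.h (P (nat_lit 0)) (P (nat_lit 12286765327093596160)))))), (P (nat_lit 0)), (P (nat_lit 0)), (T.h (T.h (P (nat_lit 0)) (T.h (T.h (P (nat_lit 45104481563519293712781803520)) (T.h (P (nat_lit 0)) (T.h (P (nat_lit 452581749181831446528)) (T.h (P (nat_lit 0)) (P (nat_lit 1633424815423488))))))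 (T.h (P (nat_lit 0)) (T.h (T.h (M (nat_lit 6284115532348582264831)) (T.h (P (nat_lit 0)) (M (nat_lit 629802396286975)))) (T.h (P (nat_lit 0)) (M (nat_lit 278797762428927))))))) (T.h (T.h (T.h (P (nat_lit 0)) (T.h (M (nat_lit 29437568468312463620702207)) (T.h (P (nat_lit 0)) (M (nat_lit 17039829687691378687))))) (T.h (P (nat_lit 0)) (T.h (T.h (P (nat_lit 0)) (M (nat_lit 27921786404926914559))) (P (nat_lit 0))))) (T.h (T.h (P (nat_lit 0)) (T.h (T.h (P (nat_lit 15760965022728488747008)) (T.h (P (nat_lit 0)) (M (nat_lit 66998657318125567)))) (T.h (P (nat_lit 0)) (M (nat_lit 9176005225218047))))) (T.h (T.h (T.h (P (nat_lit 0)) (M (nat_lit 13596485790493310975))) (P (nat_lit 0))) (T.h (T.h (P (nat_lit 0)) (M (nat_lit 314325677375487))) (P (nat_lit 0))))))), (T.h (T.h (P (nat_lit 0)) (T.h (T.h (P (nat_lit 0)) (T.h (M (nat_lit 19257407832285331475922943)) (T.h (P (nat_lit 0)) (P (nat_lit 11252355669518450688))))) (T.h (P (nat_lit 0)) (T.h (T.h (P (nat_lit 0)) (P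 (nat_lit 9833570716052619264))) (P (nat_lit 0)))))) (T.h (T.h (T.h (M (nat_lit 7305124718430585802427727871)) (T.h (P (nat_lit 0)) (P (nat_lit 5037294177271444144128)))) (T.h (P (nat_lit 0)) (P (nat_lit 96236064664401412620288)))) (T.h (T.h (P (nat_lit 0)) (T.h (T.h (P (nat_lit 0)) (P (nat_lit 20217337298745819136))) (P (nat_lit 0)))) (P (nat_lit 20279155672975897788416))))), (P (nat_lit 0))]
def lQm_26 : List (T ℤ) := [(P (nat_lit 0)), (T.h (T.h (T.h (M (nat_lit 27591110730411258944789057372159)) (T.h (P (nat_lit 0)) (T.h (P (nat_lit 2432566270557964294160384)) (T.h (P (nat_lit 0)) (M (nat_lit 836313505496825855)))))) (T.h (P (nat_lit 0)) (T.h (T.h (M (nat_lit 1194656571771072035160063)) (T.h (P (nat_lit 0)) (P (nat_lit 17635344513788542976)))) (T.h (P (nat_lit 0)) (P (nat_lit 437328509317152768)))))) (T.h (T.h (P (nat_lit 0)) (T.h (T.h (P (nat_lit 0)) (P (nat_lit 18081353133715961675776))) (P (nat_lit 0)))) (T.h (T.h (T.h (M (nat_lit 1194656571771072035160063))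 (T.h (P (nat_lit 0)) (P (nat_lit 17635344513788542976)))) (T.h (P (nat_lit 0)) (P (nat_lit 14094344025934921728)))) (T.h (P (nat_lit 0)) (P (nat_lit 437328509317152768)))))), (P (nat_lit 0)), (P (nat_lit 0)), (P (nat_lit 0)), (P (nat_lit 0)), (P (nat_lit 0)), (T.h (T.h (P (nat_lit 0)) (T.h (T.h (P (nat_lit 0)) (T.h (P (nat_lit 1240065049510957740457984)) (T.h (P (nat_lit 0)) (M (nat_lit 170667393696137215))))) (T.h (P (nat_lit 0)) (T.h (T.h (P (nat_lit 0)) (M (nat_lit 170667393696137215))) (P (nat_lit 0)))))) (T.h (T.h (T.h (P (nat_lit 1109688626837800921969197056)) (T.h (P (nat_lit 0)) (T.h (P (nat_lit 1012050865393395302400)) (T.h (P (nat_lit 0)) (M (nat_lit 119998737022975)))))) (T.h (P (nat_lit 0)) (T.h (T.h (P (nat_lit 1012050865393395302400)) (T.h (P (nat_lit 0)) (P (nat_lit 10794187433312256)))) (T.h (P (nat_lit 0)) (M (nat_lit 119998737022975)))))) (T.h (T.h (P (nat_lit 0)) (T.h (T.h (P (nat_lit 0)) (M (nat_lit 5646720424898199551))) (P (nat_lit 0))))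 (T.h (T.h (T.h (M (nat_lit 1632973904196313022463)) (T.h (P (nat_lit 0)) (P (nat_lit 2515445769142272)))) (T.h (P (nat_lit 0)) (P (nat_lit 2515445769142272)))) (T.h (P (nat_lit 0)) (P (nat_lit 1548350442700800)))))))]
def lQm_27 : List (T ℤ) := [(T.h (T.h (P (nat_lit 0)) (T.h (T.h (M (nat_lit 3383368649401081921863155711)) (T.h (P (nat_lit 0)) (T.h (M (nat_lit 4611647519577497141247)) (T.h (P (nat_lit 0)) (M (nat_lit 109270719660031)))))) (T.h (P (nat_lit 0)) (T.h (T.h (P (nat_lit 1055328876714705027072)) (T.h (P (nat_lit 0)) (M (nat_lit 237439028822015)))) (T.h (P (nat_lit 0)) (P (nat_lit 969414783074304))))))) (T.h (T.h (T.h (P (nat_lit 0)) (T.h (P (nat_lit 12476825063754065334239232)) (T.h (P (nat_lit 0)) (M (nat_lit 739178953956130815))))) (T.h (P (nat_lit 0)) (T.h (T.h (P (nat_lit 0)) (M (nat_lit 3731576025025347583))) (P (nat_lit 0))))) (T.h (T.h (P (nat_lit 0)) (T.h (T.h (M (nat_lit 12643918027596247334911)) (T.h (P (nat_lit 0)) (M (nat_lit 8840244534575103))))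 (T.h (P (nat_lit 0)) (M (nat_lit 4362756073783295))))) (T.h (T.h (T.h (P (nat_lit 0)) (M (nat_lit 486026124057378815))) (P (nat_lit 0))) (T.h (T.h (P (nat_lit 0)) (P (nat_lit 9250554945142784))) (P (nat_lit 0))))))), (T.h (T.h (P (nat_lit 0)) (T.h (T.h (P (nat_lit 0)) (T.h (M (nat_lit 13141655625837937975885823)) (T.h (P (nat_lit 0)) (M (nat_lit 876166944988856319))))) (T.h (P (nat_lit 0)) (T.h (T.h (P (nat_lit 0)) (M (nat_lit 4788280243653705727))) (P (nat_lit 0)))))) (T.h (T.h (T.h (M (nat_lit 3735944699976290291876364287)) (T.h (P (nat_lit 0)) (T.h (M (nat_lit 3434406944769488977919)) (T.h (P (nat_lit 0)) (M (nat_lit 1249966879408127)))))) (T.h (P (nat_lit 0)) (T.h (P (nat_lit 5909524652010437083136)) (T.h (P (nat_lit 0)) (P (nat_lit 2209956775591936)))))) (T.h (T.h (P (nat_lit 0)) (T.h (T.h (P (nat_lit 0)) (M (nat_lit 32193241223916421119))) (P (nat_lit 0)))) (T.h (T.h (T.h (P (nat_lit 12711068152419347070976)) (T.h (P (nat_lit 0)) (M (nat_lit 5875308216451071))))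 (T.h (P (nat_lit 0)) (M (nat_lit 19208907123326975)))) (T.h (P (nat_lit 0)) (M (nat_lit 6193401770803199))))))), (T.h (T.h (P (nat_lit 0)) (T.h (T.h (P (nat_lit 4847912892436371908541284352)) (T.h (P (nat_lit 0)) (P (nat_lit 4520338283428990418944)))) (T.h (P (nat_lit 0)) (P (nat_lit 3937142110085665783808))))) (T.h (T.h (T.h (P (nat_lit 0)) (T.h (M (nat_lit 6774779893922198139699199)) (T.h (P (nat_lit 0)) (P (nat_lit 5978080759825563648))))) (T.h (P (nat_lit 0)) (T.h (T.h (P (nat_lit 0)) (P (nat_lit 34303312546880290816))) (P (nat_lit 0))))) (T.h (T.h (P (nat_lit 0)) (P (nat_lit 7689282402489485754368))) (T.h (T.h (T.h (P (nat_lit 0)) (P (nat_lit 3330027300455448576))) (P (nat_lit 0))) (P (nat_lit 0)))))), (P (nat_lit 0)), (P (nat_lit 0)), (T.h (T.h (T.h (P (nat_lit 0)) (T.h (M (nat_lit 3383368649401081921863155711)) (T.h (P (nat_lit 0)) (T.h (P (nat_lit 1055328876714705027072)) (T.h (P (nat_lit 0)) (P (nat_lit 969414783074304))))))) (T.h (P (nat_lit 0))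 (T.h (T.h (P (nat_lit 0)) (T.h (M (nat_lit 4611647519577497141247)) (T.h (P (nat_lit 0)) (M (nat_lit 237439028822015))))) (T.h (P (nat_lit 0)) (T.h (T.h (P (nat_lit 0)) (M (nat_lit 109270719660031))) (P (nat_lit 0))))))) (T.h (T.h (P (nat_lit 0)) (T.h (T.h (P (nat_lit 12476825063754065334239232)) (T.h (P (nat_lit 0)) (M (nat_lit 3731576025025347583)))) (T.h (P (nat_lit 0)) (M (nat_lit 739178953956130815))))) (T.h (T.h (T.h (P (nat_lit 0)) (T.h (M (nat_lit 12643918027596247334911)) (T.h (P (nat_lit 0)) (M (nat_lit 4362756073783295))))) (T.h (P (nat_lit 0)) (T.h (T.h (P (nat_lit 0)) (M (nat_lit 8840244534575103))) (P (nat_lit 0))))) (T.h (T.h (P (nat_lit 0)) (M (nat_lit 486026124057378815))) (T.h (T.h (T.h (P (nat_lit 0)) (P (nat_lit 9250554945142784))) (P (nat_lit 0))) (P (nat_lit 0))))))), (T.h (T.h (T.h (M (nat_lit 390739483125010976643779395583)) (T.h (P (nat_lit 0)) (T.h (M (nat_lit 3482884771107621891473407)) (T.h (P (nat_lit 0)) (M (nat_lit 3546182552257560575))))))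 (T.h (P (nat_lit 0)) (T.h (T.h (M (nat_lit 3482884771107621891473407)) (T.h (P (nat_lit 0)) (M (nat_lit 954916973173538815)))) (T.h (P (nat_lit 0)) (M (nat_lit 3546182552257560575)))))) (T.h (T.h (P (nat_lit 0)) (T.h (T.h (P (nat_lit 0)) (T.h (M (nat_lit 2245742729472155582463)) (T.h (P (nat_lit 0)) (M (nat_lit 7612935747665919))))) (T.h (P (nat_lit 0)) (T.h (T.h (P (nat_lit 0)) (M (nat_lit 7612935747665919))) (P (nat_lit 0)))))) (T.h (T.h (T.h (M (nat_lit 3434534724486922686693375)) (T.h (P (nat_lit 0)) (M (nat_lit 24715385350375079935)))) (T.h (P (nat_lit 0)) (M (nat_lit 24715385350375079935)))) (T.h (T.h (P (nat_lit 0)) (T.h (T.h (P (nat_lit 0)) (M (nat_lit 6987273630908415))) (P (nat_lit 0)))) (M (nat_lit 31059065407270813695)))))), (T.h (T.h (T.h (P (nat_lit 0)) (T.h (M (nat_lit 719817474826572681220980735)) (T.h (P (nat_lit 0)) (P (nat_lit 7669978220490651598848))))) (T.h (P (nat_lit 0)) (T.h (T.h (P (nat_lit 0)) (M (nat_lit 5292361548524716818431)))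 (P (nat_lit 0))))) (T.h (T.h (P (nat_lit 0)) (T.h (T.h (M (nat_lit 23740425189703612127772671)) (T.h (P (nat_lit 0)) (M (nat_lit 25574308777851617279)))) (T.h (P (nat_lit 0)) (P (nat_lit 11574770874313605120))))) (T.h (T.h (T.h (P (nat_lit 0)) (P (nat_lit 81404364450585477382144))) (P (nat_lit 0))) (T.h (T.h (P (nat_lit 0)) (P (nat_lit 9694400712317861888))) (P (nat_lit 0))))))]
def lQm_28 : List (T ℤ) := [(P (nat_lit 0)), (P (nat_lit 0)), (T.h (T.h (P (nat_lit 0)) (T.h (T.h (P (nat_lit 0)) (T.h (M (nat_lit 13141655625837937975885823)) (T.h (P (nat_lit 0)) (M (nat_lit 4788280243653705727))))) (T.h (P (nat_lit 0)) (T.h (T.h (P (nat_lit 0)) (M (nat_lit 876166944988856319))) (P (nat_lit 0)))))) (T.h (T.h (T.h (M (nat_lit 3735944699976290291876364287)) (T.h (P (nat_lit 0)) (T.h (P (nat_lit 5909524652010437083136)) (T.h (P (nat_lit 0)) (P (nat_lit 2209956775591936)))))) (T.h (P (nat_lit 0)) (T.h (M (nat_lit 3434406944769488977919)) (T.h (P (nat_lit 0)) (M (nat_lit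 1249966879408127)))))) (T.h (T.h (P (nat_lit 0)) (T.h (T.h (P (nat_lit 0)) (M (nat_lit 32193241223916421119))) (P (nat_lit 0)))) (T.h (T.h (T.h (P (nat_lit 12711068152419347070976)) (T.h (P (nat_lit 0)) (M (nat_lit 19208907123326975)))) (T.h (P (nat_lit 0)) (M (nat_lit 5875308216451071)))) (T.h (P (nat_lit 0)) (M (nat_lit 6193401770803199))))))), (T.h (T.h (P (nat_lit 0)) (T.h (T.h (M (nat_lit 719817474826572681220980735)) (T.h (P (nat_lit 0)) (M (nat_lit 5292361548524716818431)))) (T.h (P (nat_lit 0)) (P (nat_lit 7669978220490651598848))))) (T.h (T.h (T.h (P (nat_lit 0)) (T.h (M (nat_lit 23740425189703612127772671)) (T.h (P (nat_lit 0)) (P (nat_lit 11574770874313605120))))) (T.h (P (nat_lit 0)) (T.h (T.h (P (nat_lit 0)) (M (nat_lit 25574308777851617279))) (P (nat_lit 0))))) (T.h (T.h (P (nat_lit 0)) (P (nat_lit 81404364450585477382144))) (T.h (T.h (T.h (P (nat_lit 0)) (P (nat_lit 9694400712317861888))) (P (nat_lit 0))) (P (nat_lit 0)))))), (P (nat_lit 0)),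 (P (nat_lit 0)), (T.h (T.h (T.h (P (nat_lit 0)) (T.h (P (nat_lit 4847912892436371908541284352)) (T.h (P (nat_lit 0)) (P (nat_lit 3937142110085665783808))))) (T.h (P (nat_lit 0)) (T.h (T.h (P (nat_lit 0)) (P (nat_lit 4520338283428990418944))) (P (nat_lit 0))))) (T.h (T.h (P (nat_lit 0)) (T.h (T.h (M (nat_lit 6774779893922198139699199)) (T.h (P (nat_lit 0)) (P (nat_lit 34303312546880290816)))) (T.h (P (nat_lit 0)) (P (nat_lit 5978080759825563648))))) (T.h (T.h (T.h (P (nat_lit 0)) (P (nat_lit 7689282402489485754368))) (P (nat_lit 0))) (T.h (T.h (P (nat_lit 0)) (P (nat_lit 3330027300455448576))) (P (nat_lit 0)))))), (P (nat_lit 0))]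
def lQm_29 : List (T ℤ) := [(P (nat_lit 0)), (P (nat_lit 0)), (P (nat_lit 0)), (P (nat_lit 0)), (T.h (T.h (T.h (M (nat_lit 5102271648357133609590386065407)) (T.h (P (nat_lit 0)) (T.h (P (nat_lit 762840448463898280984576)) (T.h (P (nat_lit 0)) (P (nat_lit 675307117015465984)))))) (T.h (P (nat_lit 0)) (T.h (T.h (P (nat_lit 762840448463898280984576)) (T.h (P (nat_lit 0)) (M (nat_lit 6886114660404166655)))) (T.h (P (nat_lit 0)) (P (nat_lit 675307117015465984)))))) (T.h (T.h (P (nat_lit 0)) (T.h (T.h (P (nat_lit 0)) (P (nat_lit 2099872552613090164736))) (P (nat_lit 0)))) (T.h (T.h (T.h (P (nat_lit 3670530845706316062654464)) (T.h (P (nat_lit 0)) (M (nat_lit 992840272415031295)))) (T.h (P (nat_lit 0)) (M (nat_lit 992840272415031295)))) (T.h (P (nat_lit 0)) (M (nat_lit 1509074362290929663)))))), (T.h (T.h (T.h (P (nat_lit 0)) (T.h (P (nat_lit 53919904888201650914528854016)) (T.h (P (nat_lit 0)) (T.h (M (nat_lit 873530666480291545087)) (T.h (P (nat_lit 0)) (P (nat_lit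 336720620421120))))))) (T.h (P (nat_lit 0)) (T.h (T.h (P (nat_lit 0)) (T.h (P (nat_lit 2539739606505924591616)) (T.h (P (nat_lit 0)) (P (nat_lit 932545441562624))))) (T.h (P (nat_lit 0)) (T.h (T.h (P (nat_lit 0)) (M (nat_lit 420597048541183))) (P (nat_lit 0))))))) (T.h (T.h (P (nat_lit 0)) (T.h (T.h (P (nat_lit 1668310685256554960125952)) (T.h (P (nat_lit 0)) (P (nat_lit 3642813229240942592)))) (T.h (P (nat_lit 0)) (P (nat_lit 2552835554030911488))))) (T.h (T.h (T.h (P (nat_lit 0)) (T.h (P (nat_lit 9395881727339121344512)) (T.h (P (nat_lit 0)) (M (nat_lit 2256434608734207))))) (T.h (P (nat_lit 0)) (T.h (T.h (P (nat_lit 0)) (P (nat_lit 2891021512081408))) (P (nat_lit 0))))) (T.h (T.h (P (nat_lit 0)) (M (nat_lit 20098914546582814719))) (T.h (T.h (T.h (P (nat_lit 0)) (P (nat_lit 7551664551362560))) (P (nat_lit 0))) (P (nat_lit 0))))))), (T.h (T.h (T.h (M (nat_lit 14856572718678401679984347316223)) (T.h (P (nat_lit 0)) (T.h (P (nat_lit 146258586246510312161280))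 (T.h (P (nat_lit 0)) (M (nat_lit 111010873010552831)))))) (T.h (P (nat_lit 0)) (T.h (T.h (M (nat_lit 430512853632606770561023)) (T.h (P (nat_lit 0)) (M (nat_lit 716194899120095231)))) (T.h (P (nat_lit 0)) (M (nat_lit 458076090124992511)))))) (T.h (T.h (P (nat_lit 0)) (T.h (T.h (P (nat_lit 0)) (P (nat_lit 10406685990088444215296))) (P (nat_lit 0)))) (T.h (T.h (T.h (M (nat_lit 9143594504065898468343807)) (T.h (P (nat_lit 0)) (P (nat_lit 6245178489742295040)))) (T.h (P (nat_lit 0)) (P (nat_lit 14012339163622277120)))) (T.h (P (nat_lit 0)) (P (nat_lit 5994328141479280640)))))), (P (nat_lit 0))]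
def lQm_30 : List (T ℤ) := [(P (nat_lit 0)), (T.h (T.h (P (nat_lit 0)) (T.h (T.h (P (nat_lit 53919904888201650914528854016)) (T.h (P (nat_lit 0)) (T.h (P (nat_lit 2539739606505924591616)) (T.h (P (nat_lit 0)) (M (nat_lit 420597048541183)))))) (T.h (P (nat_lit 0)) (T.h (T.h (M (nat_lit 873530666480291545087)) (T.h (P (nat_lit 0)) (P (nat_lit 932545441562624)))) (T.h (P (nat_lit 0)) (P (nat_lit 336720620421120))))))) (T.h (T.h (T.h (P (nat_lit 0)) (T.h (P (nat_lit 1668310685256554960125952)) (T.h (P (nat_lit 0)) (P (nat_lit 2552835554030911488))))) (T.h (P (nat_lit 0)) (T.h (T.h (P (nat_lit 0)) (P (nat_lit 3642813229240942592))) (P (nat_lit 0))))) (T.h (T.h (P (nat_lit 0)) (T.h (T.h (P (nat_lit 9395881727339121344512)) (T.h (P (nat_lit 0)) (P (nat_lit 2891021512081408)))) (T.h (P (nat_lit 0)) (M (nat_lit 2256434608734207))))) (T.h (T.h (T.h (P (nat_lit 0)) (M (nat_lit 20098914546582814719))) (P (nat_lit 0))) (T.h (T.h (P (nat_lit 0)) (P (nat_lit 7551664551362560)))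 (P (nat_lit 0))))))), (T.h (T.h (P (nat_lit 0)) (T.h (T.h (P (nat_lit 0)) (T.h (M (nat_lit 469854802530439322927103)) (T.h (P (nat_lit 0)) (P (nat_lit 1902139663028584448))))) (T.h (P (nat_lit 0)) (T.h (T.h (P (nat_lit 0)) (P (nat_lit 1902139663028584448))) (P (nat_lit 0)))))) (T.h (T.h (T.h (P (nat_lit 4932787182799620835601547264)) (T.h (P (nat_lit 0)) (P (nat_lit 19024528249610334896128)))) (T.h (P (nat_lit 0)) (P (nat_lit 19024528249610334896128)))) (T.h (T.h (P (nat_lit 0)) (T.h (T.h (P (nat_lit 0)) (P (nat_lit 2405820120166301696))) (P (nat_lit 0)))) (P (nat_lit 22683376998001198235648))))), (P (nat_lit 0)), (P (nat_lit 0)), (T.h (T.h (T.h (M (nat_lit 14856572718678401679984347316223)) (T.h (P (nat_lit 0)) (T.h (M (nat_lit 430512853632606770561023)) (T.h (P (nat_lit 0)) (M (nat_lit 458076090124992511)))))) (T.h (P (nat_lit 0)) (T.h (T.h (P (nat_lit 146258586246510312161280)) (T.h (P (nat_lit 0)) (M (nat_lit 716194899120095231)))) (T.h (P (nat_lit 0))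 (M (nat_lit 111010873010552831)))))) (T.h (T.h (P (nat_lit 0)) (T.h (T.h (P (nat_lit 0)) (P (nat_lit 10406685990088444215296))) (P (nat_lit 0)))) (T.h (T.h (T.h (M (nat_lit 9143594504065898468343807)) (T.h (P (nat_lit 0)) (P (nat_lit 14012339163622277120)))) (T.h (P (nat_lit 0)) (P (nat_lit 6245178489742295040)))) (T.h (P (nat_lit 0)) (P (nat_lit 5994328141479280640)))))), (P (nat_lit 0)), (P (nat_lit 0))]
def lQm_31 : List (T ℤ) := [(P (nat_lit 0)), (P (nat_lit 0)), (P (nat_lit 0)), (T.h (T.h (P (nat_lit 0)) (T.h (T.h (P (nat_lit 0)) (M (nat_lit 1072738038739656689844223))) (P (nat_lit 0)))) (T.h (T.h (M (nat_lit 1261515900548784767341953023)) (T.h (P (nat_lit 0)) (T.h (T.h (P (nat_lit 0)) (T.h (P (nat_lit 0)) (M (nat_lit 14392249911083007)))) (P (nat_lit 0))))) (P (nat_lit 0)))), (T.h (T.h (P (nat_lit 0)) (T.h (T.h (P (nat_lit 471536197744369659130413056)) (T.h (P (nat_lit 0)) (P (nat_lit 391678135183836446720)))) (P (nat_lit 0)))) (T.h (T.h (T.h (P (nat_lit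 0)) (T.h (M (nat_lit 1514619882854388970029055)) (T.h (P (nat_lit 0)) (P (nat_lit 1155294519671914496))))) (T.h (P (nat_lit 0)) (T.h (T.h (P (nat_lit 0)) (P (nat_lit 5888628940288819200))) (P (nat_lit 0))))) (T.h (T.h (P (nat_lit 0)) (P (nat_lit 7121757884211567525888))) (T.h (T.h (T.h (P (nat_lit 0)) (M (nat_lit 7732904500595261439))) (P (nat_lit 0))) (P (nat_lit 0)))))), (P (nat_lit 0)), (P (nat_lit 0)), (T.h (T.h (T.h (P (nat_lit 0)) (P (nat_lit 471536197744369659130413056))) (T.h (P (nat_lit 0)) (T.h (T.h (P (nat_lit 0)) (P (nat_lit 391678135183836446720))) (P (nat_lit 0))))) (T.h (T.h (P (nat_lit 0)) (T.h (T.h (M (nat_lit 1514619882854388970029055)) (T.h (P (nat_lit 0)) (P (nat_lit 5888628940288819200)))) (T.h (P (nat_lit 0)) (P (nat_lit 1155294519671914496))))) (T.h (T.h (T.h (P (nat_lit 0)) (P (nat_lit 7121757884211567525888))) (P (nat_lit 0))) (T.h (T.h (P (nat_lit 0)) (M (nat_lit 7732904500595261439))) (P (nat_lit 0))))))]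
def lQm_32 : List (T ℤ) := [(P (nat_lit 0)), (P (nat_lit 0)), (P (nat_lit 0)), (P (nat_lit 0)), (P (nat_lit 0)), (T.h (T.h (P (nat_lit 0)) (T.h (P (nat_lit 0)) (T.h (T.h (P (nat_lit 0)) (T.h (P (nat_lit 0)) (P (nat_lit 3684415977237250048)))) (P (nat_lit 0))))) (P (nat_lit 0))), (P (nat_lit 0)), (P (nat_lit 0))]
def lQm_33 : List (T ℤ) := [(P (nat_lit 0)), (P (nat_lit 0)), (P (nat_lit 0)), (P (nat_lit 0)), (P (nat_lit 0)), (P (nat_lit 0)), (P (nat_lit 0))]

def CQm : List (T ℤ) := lQm_0 ++ (lQm_1 ++ (lQm_2 ++ (lQm_3 ++ (lQm_4 ++ (lQm_5 ++ (lQm_6 ++ (lQm_7 ++ (lQm_8 ++ (lQm_9 ++ (lQm_10 ++ (lQm_11 ++ (lQm_12 ++ (lQm_13 ++ (lQm_14 ++ (lQm_15 ++ (lQm_16 ++ (lQm_17 ++ (lQm_18 ++ (lQm_19 ++ (lQm_20 ++ (lQm_21 ++ (lQm_22 ++ (lQm_23 ++ (lQm_24 ++ (lQm_25 ++ (lQm_26 ++ (lQm_27 ++ (lQm_28 ++ (lQm_29 ++ (lQm_30 ++ (lQm_31 ++ (lQm_32 ++ (lQm_33)))))))))))))))))))))))))))))))))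

/-- norms at radius 1536 -/
def NQm : List ℕ := [(nat_lit 5034231565398356583608483840000), (nat_lit 0), (nat_lit 56356923892648744447542462251008), (nat_lit 201805458060049021286171289845760), (nat_lit 90272052234205004316612902256640), (nat_lit 127519488071371178842269287448576), (nat_lit 20508482180713654728318221549568), (nat_lit 0), (nat_lit 0), (nat_lit 0), (nat_lit 253973338971515930342234366410752), (nat_lit 491203516948979386956269179895808), (nat_lit 331806725141922021264964492197888), (nat_lit 402561632777530113936378631815168), (nat_lit 113777423361434251459957899657216), (nat_lit 0), (nat_lit 0), (nat_lit 0), (nat_lit 604986961073511986915772091858944), (nat_lit 659560979905725986460640990986240), (nat_lit 719418680663611085839094842916864), (nat_lit 624393623068146857977735664369664), (nat_lit 228781657724013018077053130375168), (nat_lit 0), (nat_lit 0), (nat_lit 253973338971515930342234366410752), (nat_lit 659560979905725986460640990986240),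 (nat_lit 657133651049611343777964182470656), (nat_lit 1221911418855492375993248410238976), (nat_lit 324697288678183930659515224031232), (nat_lit 0), (nat_lit 0), (nat_lit 56356923892648744447542462251008), (nat_lit 491203516948979386956269179895808), (nat_lit 719418680663611085839094842916864), (nat_lit 1221911418855492375993248410238976), (nat_lit 388795196646809713370666756997120), (nat_lit 0), (nat_lit 0), (nat_lit 201805458060049021286171289845760), (nat_lit 331806725141922021264964492197888), (nat_lit 624393623068146857977735664369664), (nat_lit 324697288678183930659515224031232), (nat_lit 0), (nat_lit 0), (nat_lit 90272052234205004316612902256640), (nat_lit 402561632777530113936378631815168), (nat_lit 228781657724013018077053130375168), (nat_lit 0), (nat_lit 0), (nat_lit 127519488071371178842269287448576), (nat_lit 113777423361434251459957899657216), (nat_lit 0), (nat_lit 0), (nat_lit 20508482180713654728318221549568), (nat_lit 0), (nat_lit 0), (nat_lit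 0), (nat_lit 0), (nat_lit 0), (nat_lit 253973338971515930342234366410752), (nat_lit 491203516948979386956269179895808), (nat_lit 331806725141922021264964492197888), (nat_lit 402561632777530113936378631815168), (nat_lit 113777423361434251459957899657216), (nat_lit 0), (nat_lit 0), (nat_lit 731934159693721513838822270435328), (nat_lit 848621430998222103226531367092224), (nat_lit 764379136104987013582779051933696), (nat_lit 715806615893325026554107534508032), (nat_lit 263339394684755857721812775337984), (nat_lit 0), (nat_lit 0), (nat_lit 731934159693721513838822270435328), (nat_lit 1734110454604410426537015867604992), (nat_lit 1817857360161002049024441930743808), (nat_lit 2282770801509457457574998729293824), (nat_lit 659833631278547047872015064104960), (nat_lit 0), (nat_lit 0), (nat_lit 253973338971515930342234366410752), (nat_lit 848621430998222103226531367092224), (nat_lit 1817857360161002049024441930743808), (nat_lit 2467067006771692788325135882911744), (nat_lit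 727051591867252990889850166050816), (nat_lit 0), (nat_lit 0), (nat_lit 491203516948979386956269179895808), (nat_lit 764379136104987013582779051933696), (nat_lit 2282770801509457457574998729293824), (nat_lit 727051591867252990889850166050816), (nat_lit 0), (nat_lit 0), (nat_lit 331806725141922021264964492197888), (nat_lit 715806615893325026554107534508032), (nat_lit 659833631278547047872015064104960), (nat_lit 0), (nat_lit 0), (nat_lit 402561632777530113936378631815168), (nat_lit 263339394684755857721812775337984), (nat_lit 0), (nat_lit 0), (nat_lit 113777423361434251459957899657216), (nat_lit 0), (nat_lit 0), (nat_lit 0), (nat_lit 0), (nat_lit 0), (nat_lit 0), (nat_lit 604986961073511986915772091858944), (nat_lit 659560979905725986460640990986240), (nat_lit 719418680663611085839094842916864), (nat_lit 624393623068146857977735664369664), (nat_lit 228781657724013018077053130375168), (nat_lit 0), (nat_lit 0), (nat_lit 731934159693721513838822270435328), (nat_lit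 1734110454604410426537015867604992), (nat_lit 1817857360161002049024441930743808), (nat_lit 2282770801509457457574998729293824), (nat_lit 659833631278547047872015064104960), (nat_lit 0), (nat_lit 0), (nat_lit 604986961073511986915772091858944), (nat_lit 1734110454604410426537015867604992), (nat_lit 3298894514325389200541244645703680), (nat_lit 4049459392368446121939694686044160), (nat_lit 806053491370415236442152515928064), (nat_lit 0), (nat_lit 0), (nat_lit 659560979905725986460640990986240), (nat_lit 1817857360161002049024441930743808), (nat_lit 4049459392368446121939694686044160), (nat_lit 1124585116566847220342967093952512), (nat_lit 0), (nat_lit 0), (nat_lit 719418680663611085839094842916864), (nat_lit 2282770801509457457574998729293824), (nat_lit 806053491370415236442152515928064), (nat_lit 0), (nat_lit 0), (nat_lit 624393623068146857977735664369664), (nat_lit 659833631278547047872015064104960), (nat_lit 0), (nat_lit 0), (nat_lit 228781657724013018077053130375168),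 (nat_lit 0), (nat_lit 0), (nat_lit 0), (nat_lit 0), (nat_lit 0), (nat_lit 253973338971515930342234366410752), (nat_lit 659560979905725986460640990986240), (nat_lit 657133651049611343777964182470656), (nat_lit 1221911418855492375993248410238976), (nat_lit 324697288678183930659515224031232), (nat_lit 0), (nat_lit 0), (nat_lit 253973338971515930342234366410752), (nat_lit 848621430998222103226531367092224), (nat_lit 1817857360161002049024441930743808), (nat_lit 2467067006771692788325135882911744), (nat_lit 727051591867252990889850166050816), (nat_lit 0), (nat_lit 0), (nat_lit 659560979905725986460640990986240), (nat_lit 1817857360161002049024441930743808), (nat_lit 4049459392368446121939694686044160), (nat_lit 1124585116566847220342967093952512), (nat_lit 0), (nat_lit 0), (nat_lit 657133651049611343777964182470656), (nat_lit 2467067006771692788325135882911744), (nat_lit 1124585116566847220342967093952512), (nat_lit 0), (nat_lit 0), (nat_lit 1221911418855492375993248410238976),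 (nat_lit 727051591867252990889850166050816), (nat_lit 0), (nat_lit 0), (nat_lit 324697288678183930659515224031232), (nat_lit 0), (nat_lit 0), (nat_lit 0), (nat_lit 0), (nat_lit 0), (nat_lit 56356923892648744447542462251008), (nat_lit 491203516948979386956269179895808), (nat_lit 719418680663611085839094842916864), (nat_lit 1221911418855492375993248410238976), (nat_lit 388795196646809713370666756997120), (nat_lit 0), (nat_lit 0), (nat_lit 491203516948979386956269179895808), (nat_lit 764379136104987013582779051933696), (nat_lit 2282770801509457457574998729293824), (nat_lit 727051591867252990889850166050816), (nat_lit 0), (nat_lit 0), (nat_lit 719418680663611085839094842916864), (nat_lit 2282770801509457457574998729293824), (nat_lit 806053491370415236442152515928064), (nat_lit 0), (nat_lit 0), (nat_lit 1221911418855492375993248410238976), (nat_lit 727051591867252990889850166050816), (nat_lit 0), (nat_lit 0), (nat_lit 388795196646809713370666756997120), (nat_lit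 0), (nat_lit 0), (nat_lit 0), (nat_lit 0), (nat_lit 0), (nat_lit 201805458060049021286171289845760), (nat_lit 331806725141922021264964492197888), (nat_lit 624393623068146857977735664369664), (nat_lit 324697288678183930659515224031232), (nat_lit 0), (nat_lit 0), (nat_lit 331806725141922021264964492197888), (nat_lit 715806615893325026554107534508032), (nat_lit 659833631278547047872015064104960), (nat_lit 0), (nat_lit 0), (nat_lit 624393623068146857977735664369664), (nat_lit 659833631278547047872015064104960), (nat_lit 0), (nat_lit 0), (nat_lit 324697288678183930659515224031232), (nat_lit 0), (nat_lit 0), (nat_lit 0), (nat_lit 0), (nat_lit 0), (nat_lit 90272052234205004316612902256640), (nat_lit 402561632777530113936378631815168), (nat_lit 228781657724013018077053130375168), (nat_lit 0), (nat_lit 0), (nat_lit 402561632777530113936378631815168), (nat_lit 263339394684755857721812775337984), (nat_lit 0), (nat_lit 0), (nat_lit 228781657724013018077053130375168),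 (nat_lit 0), (nat_lit 0), (nat_lit 0), (nat_lit 0), (nat_lit 0), (nat_lit 127519488071371178842269287448576), (nat_lit 113777423361434251459957899657216), (nat_lit 0), (nat_lit 0), (nat_lit 113777423361434251459957899657216), (nat_lit 0), (nat_lit 0), (nat_lit 0), (nat_lit 0), (nat_lit 0), (nat_lit 20508482180713654728318221549568), (nat_lit 0), (nat_lit 0), (nat_lit 0), (nat_lit 0), (nat_lit 0), (nat_lit 0), (nat_lit 0), (nat_lit 0), (nat_lit 0)]


def lP11_0 : List (T ℤ) := [(P (nat_lit 0)), (P (nat_lit 0)), (P (nat_lit 0)), (P (nat_lit 0)), (P (nat_lit 0)), (P (nat_lit 0)), (P (nat_lit 0)), (P (nat_lit 0))]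
def lP11_1 : List (T ℤ) := [(P (nat_lit 0)), (P (nat_lit 0)), (P (nat_lit 0)), (P (nat_lit 0)), (P (nat_lit 0)), (P (nat_lit 0)), (P (nat_lit 0)), (P (nat_lit 0))]
def lP11_2 : List (T ℤ) := [(P (nat_lit 0)), (M (nat_lit 4410501400340933843783516159999)), (P (nat_lit 0)), (P (nat_lit 0)), (T.h (T.h (T.h (P (nat_lit 96674775480032858528316129280)) (T.h (P (nat_lit 0)) (T.h (M (nat_lit 1539936402037090780446719)) (T.h (P (nat_lit 0)) (M (nat_lit 86536408218468351)))))) (T.h (P (nat_lit 0)) (T.h (T.h (M (nat_lit 817570893295480970674175)) (T.h (P (nat_lit 0)) (P (nat_lit 712178620038119424)))) (T.h (P (nat_lit 0)) (M (nat_lit 692532370447794175)))))) (T.h (T.h (P (nat_lit 0)) (T.h (T.h (P (nat_lit 0)) (T.h (M (nat_lit 2618989352391739965439)) (T.h (P (nat_lit 0)) (M (nat_lit 294768566599679))))) (T.h (P (nat_lit 0)) (T.h (T.h (P (nat_lit 0)) (M (nat_lit 129461949038591))) (P (nat_lit 0)))))) (T.h (T.h (T.h (M (nat_lit 817570893295480970674175)) (T.h (P (nat_lit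 0)) (P (nat_lit 712178620038119424)))) (T.h (P (nat_lit 0)) (P (nat_lit 3310063201005076480)))) (T.h (T.h (P (nat_lit 0)) (T.h (T.h (P (nat_lit 0)) (M (nat_lit 129461949038591))) (P (nat_lit 0)))) (M (nat_lit 692532370447794175)))))), (T.h (T.h (T.h (P (nat_lit 0)) (P (nat_lit 1261515900548784767341953024))) (T.h (P (nat_lit 0)) (T.h (T.h (P (nat_lit 0)) (T.h (M (nat_lit 392193281945094848511)) (T.h (P (nat_lit 0)) (P (nat_lit 1046618715029504))))) (T.h (P (nat_lit 0)) (T.h (T.h (P (nat_lit 0)) (M (nat_lit 432490456875007))) (P (nat_lit 0))))))) (T.h (T.h (P (nat_lit 0)) (T.h (P (nat_lit 1072738038739656689844224)) (T.h (P (nat_lit 0)) (P (nat_lit 107204109748142080))))) (T.h (T.h (T.h (P (nat_lit 0)) (T.h (P (nat_lit 392193281945094848512)) (T.h (P (nat_lit 0)) (M (nat_lit 1046618715029503))))) (T.h (P (nat_lit 0)) (T.h (T.h (P (nat_lit 0)) (M (nat_lit 10794187433312255))) (P (nat_lit 0))))) (T.h (T.h (P (nat_lit 0)) (M (nat_lit 107204109748142079))) (T.h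 (T.h (T.h (P (nat_lit 0)) (P (nat_lit 432490456875008))) (P (nat_lit 0))) (P (nat_lit 0))))))), (T.h (T.h (T.h (P (nat_lit 5102271648357133609590386065408)) (T.h (P (nat_lit 0)) (T.h (P (nat_lit 641291079997538122596352)) (T.h (P (nat_lit 0)) (P (nat_lit 1509074362290929664)))))) (T.h (P (nat_lit 0)) (T.h (T.h (P (nat_lit 527913047198678619521024)) (T.h (P (nat_lit 0)) (P (nat_lit 992840272415031296)))) (T.h (P (nat_lit 0)) (P (nat_lit 553912465654546432)))))) (T.h (T.h (P (nat_lit 0)) (T.h (T.h (P (nat_lit 0)) (P (nat_lit 5233297634083781738496))) (P (nat_lit 0)))) (T.h (T.h (T.h (P (nat_lit 527913047198678619521024)) (T.h (P (nat_lit 0)) (P (nat_lit 992840272415031296)))) (T.h (P (nat_lit 0)) (M (nat_lit 2382062302410047487)))) (T.h (P (nat_lit 0)) (P (nat_lit 553912465654546432)))))), (T.h (T.h (T.h (P (nat_lit 0)) (M (nat_lit 1261515900548784767341953023))) (P (nat_lit 0))) (T.h (T.h (P (nat_lit 0)) (M (nat_lit 1072738038739656689844223))) (T.h (T.h (P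 (nat_lit 0)) (T.h (P (nat_lit 0)) (T.h (T.h (P (nat_lit 0)) (P (nat_lit 10794187433312256))) (P (nat_lit 0))))) (P (nat_lit 0)))))]
def lP11_3 : List (T ℤ) := [(T.h (P (nat_lit 0)) (T.h (P (nat_lit 0)) (T.h (T.h (P (nat_lit 0)) (T.h (P (nat_lit 0)) (M (nat_lit 3684415977237250047)))) (P (nat_lit 0))))), (P (nat_lit 0)), (P (nat_lit 0)), (T.h (T.h (P (nat_lit 0)) (T.h (T.h (P (nat_lit 0)) (T.h (M (nat_lit 9930660340720679142817791)) (T.h (P (nat_lit 0)) (P (nat_lit 5817303471073787904))))) (T.h (P (nat_lit 0)) (T.h (T.h (P (nat_lit 0)) (P (nat_lit 4498897606964936704))) (P (nat_lit 0)))))) (T.h (T.h (T.h (P (nat_lit 2874759264551899117903675392)) (T.h (P (nat_lit 0)) (T.h (P (nat_lit 7643476739830000386048)) (T.h (P (nat_lit 0)) (M (nat_lit 5476709220483071)))))) (T.h (P (nat_lit 0)) (T.h (T.h (P (nat_lit 1940289171074890858496)) (T.h (P (nat_lit 0)) (M (nat_lit 2788580132061183)))) (T.h (P (nat_lit 0)) (M (nat_lit 1082473110175743)))))) (T.h (T.h (P (nat_lit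 0)) (T.h (T.h (P (nat_lit 0)) (M (nat_lit 717555307059871743))) (P (nat_lit 0)))) (T.h (T.h (T.h (M (nat_lit 738474885769798352895)) (T.h (P (nat_lit 0)) (P (nat_lit 4065623452418048)))) (T.h (P (nat_lit 0)) (P (nat_lit 622586800177152)))) (T.h (P (nat_lit 0)) (M (nat_lit 853826605940735))))))), (T.h (T.h (P (nat_lit 0)) (T.h (T.h (P (nat_lit 47416505117441395902631641088)) (T.h (P (nat_lit 0)) (T.h (M (nat_lit 7653722122218524114943)) (T.h (P (nat_lit 0)) (P (nat_lit 5284322988097536)))))) (T.h (P (nat_lit 0)) (T.h (T.h (M (nat_lit 426404348199077675007)) (T.h (P (nat_lit 0)) (P (nat_lit 4558637779353600)))) (T.h (P (nat_lit 0)) (M (nat_lit 197059579838463))))))) (T.h (T.h (T.h (P (nat_lit 0)) (T.h (M (nat_lit 5319889967147930443841535)) (T.h (P (nat_lit 0)) (P (nat_lit 136417751311843328))))) (T.h (P (nat_lit 0)) (T.h (T.h (P (nat_lit 0)) (M (nat_lit 792260735148228607))) (P (nat_lit 0))))) (T.h (T.h (P (nat_lit 0)) (T.h (T.h (P (nat_lit 123502182344811347968))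 (T.h (P (nat_lit 0)) (M (nat_lit 8808587969626111)))) (T.h (P (nat_lit 0)) (M (nat_lit 759253791539199))))) (T.h (T.h (T.h (P (nat_lit 0)) (M (nat_lit 3623182536559034367))) (P (nat_lit 0))) (T.h (T.h (P (nat_lit 0)) (P (nat_lit 636707047669760))) (P (nat_lit 0))))))), (T.h (T.h (P (nat_lit 0)) (T.h (T.h (P (nat_lit 0)) (T.h (P (nat_lit 13061859408740106582884352)) (T.h (P (nat_lit 0)) (M (nat_lit 14183074911253168127))))) (T.h (P (nat_lit 0)) (T.h (T.h (P (nat_lit 0)) (P (nat_lit 1793701663668699136))) (P (nat_lit 0)))))) (T.h (T.h (T.h (M (nat_lit 3383368649401081921863155711)) (T.h (P (nat_lit 0)) (T.h (M (nat_lit 3020588307875476013055)) (T.h (P (nat_lit 0)) (P (nat_lit 9250554945142784)))))) (T.h (P (nat_lit 0)) (T.h (T.h (P (nat_lit 4897606766501107335168)) (T.h (P (nat_lit 0)) (M (nat_lit 8840244534575103)))) (T.h (P (nat_lit 0)) (M (nat_lit 109270719660031)))))) (T.h (T.h (P (nat_lit 0)) (T.h (T.h (P (nat_lit 0)) (P (nat_lit 8043047937598554112)))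 (P (nat_lit 0)))) (T.h (T.h (T.h (P (nat_lit 1449144204392583397376)) (T.h (P (nat_lit 0)) (M (nat_lit 4362756073783295)))) (T.h (P (nat_lit 0)) (M (nat_lit 237439028822015)))) (T.h (P (nat_lit 0)) (P (nat_lit 969414783074304))))))), (T.h (T.h (P (nat_lit 0)) (T.h (T.h (M (nat_lit 47638697680888985569739145215)) (T.h (P (nat_lit 0)) (T.h (P (nat_lit 4218958299614159044608)) (T.h (P (nat_lit 0)) (M (nat_lit 5663748413521919)))))) (T.h (P (nat_lit 0)) (T.h (T.h (M (nat_lit 873530666480291545087)) (T.h (P (nat_lit 0)) (P (nat_lit 1692325956550656)))) (T.h (P (nat_lit 0)) (M (nat_lit 252540465315839))))))) (T.h (T.h (T.h (P (nat_lit 0)) (T.h (P (nat_lit 4891702662024706926837760)) (T.h (P (nat_lit 0)) (M (nat_lit 3870950617715310591))))) (T.h (P (nat_lit 0)) (T.h (T.h (P (nat_lit 0)) (P (nat_lit 6320300481474199552))) (P (nat_lit 0))))) (T.h (T.h (P (nat_lit 0)) (T.h (T.h (P (nat_lit 1736765090462693326848)) (T.h (P (nat_lit 0)) (M (nat_lit 2168266134061055))))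 (T.h (P (nat_lit 0)) (M (nat_lit 699409081171967))))) (T.h (T.h (T.h (P (nat_lit 0)) (P (nat_lit 2552835554030911488))) (P (nat_lit 0))) (T.h (T.h (P (nat_lit 0)) (P (nat_lit 315447786405888))) (P (nat_lit 0))))))), (T.h (T.h (P (nat_lit 0)) (T.h (T.h (P (nat_lit 0)) (T.h (P (nat_lit 1514619882854388970029056)) (T.h (P (nat_lit 0)) (P (nat_lit 7732904500595261440))))) (T.h (P (nat_lit 0)) (T.h (T.h (P (nat_lit 0)) (M (nat_lit 1155294519671914495))) (P (nat_lit 0)))))) (T.h (T.h (T.h (M (nat_lit 471536197744369659130413055)) (T.h (P (nat_lit 0)) (M (nat_lit 7121757884211567525887)))) (T.h (P (nat_lit 0)) (M (nat_lit 391678135183836446719)))) (T.h (T.h (P (nat_lit 0)) (T.h (T.h (P (nat_lit 0)) (M (nat_lit 5888628940288819199))) (P (nat_lit 0)))) (P (nat_lit 0)))))]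
def lP11_4 : List (T ℤ) := [(P (nat_lit 0)), (P (nat_lit 0)), (T.h (T.h (T.h (M (nat_lit 460972935309887569520215719935)) (T.h (P (nat_lit 0)) (T.h (M (nat_lit 2029091353749028599758847)) (T.h (P (nat_lit 0)) (M (nat_lit 1526433197796098047)))))) (T.h (P (nat_lit 0)) (T.h (T.h (M (nat_lit 2029091353749028599758847)) (T.h (P (nat_lit 0)) (P (nat_lit 3990713706295066624)))) (T.h (P (nat_lit 0)) (M (nat_lit 1526433197796098047)))))) (T.h (T.h (P (nat_lit 0)) (T.h (T.h (P (nat_lit 0)) (T.h (M (nat_lit 38255836290387560890367)) (T.h (P (nat_lit 0)) (M (nat_lit 15267448728518655))))) (T.h (P (nat_lit 0)) (T.h (T.h (P (nat_lit 0)) (M (nat_lit 15267448728518655))) (P (nat_lit 0)))))) (T.h (T.h (T.h (P (nat_lit 0)) (T.h (P (nat_lit 0)) (P (nat_lit 2998689982794694656)))) (T.h (P (nat_lit 0)) (P (nat_lit 2998689982794694656)))) (T.h (T.h (P (nat_lit 0)) (T.h (T.h (P (nat_lit 0)) (M (nat_lit 14346539850792959))) (P (nat_lit 0)))) (P (nat_lit 0)))))), (T.h (T.h (T.h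 (P (nat_lit 0)) (T.h (P (nat_lit 3740536491181234184028946432)) (T.h (P (nat_lit 0)) (T.h (M (nat_lit 227177040830728765439)) (T.h (P (nat_lit 0)) (P (nat_lit 632988086468608))))))) (T.h (P (nat_lit 0)) (T.h (T.h (P (nat_lit 0)) (T.h (M (nat_lit 1406929830933170225151)) (T.h (P (nat_lit 0)) (M (nat_lit 285597451747327))))) (T.h (P (nat_lit 0)) (T.h (T.h (P (nat_lit 0)) (P (nat_lit 1768850240339968))) (P (nat_lit 0))))))) (T.h (T.h (P (nat_lit 0)) (T.h (T.h (P (nat_lit 9875282602521853746479104)) (T.h (P (nat_lit 0)) (P (nat_lit 6736718963717177344)))) (T.h (P (nat_lit 0)) (P (nat_lit 5803693326376894464))))) (T.h (T.h (T.h (P (nat_lit 0)) (T.h (M (nat_lit 9374060979553220689919)) (T.h (P (nat_lit 0)) (M (nat_lit 3020348864692223))))) (T.h (P (nat_lit 0)) (T.h (T.h (P (nat_lit 0)) (M (nat_lit 11137756148891647))) (P (nat_lit 0))))) (T.h (T.h (P (nat_lit 0)) (M (nat_lit 1587128147822772223))) (T.h (T.h (T.h (P (nat_lit 0)) (P (nat_lit 651352187568128))) (P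 (nat_lit 0))) (P (nat_lit 0))))))), (T.h (T.h (T.h (M (nat_lit 338361714180115004849106452479)) (T.h (P (nat_lit 0)) (T.h (M (nat_lit 2603676508804139699929087)) (T.h (P (nat_lit 0)) (P (nat_lit 318229806879604736)))))) (T.h (P (nat_lit 0)) (T.h (T.h (P (nat_lit 4633383109431362544730112)) (T.h (P (nat_lit 0)) (P (nat_lit 7582985554350833664)))) (T.h (P (nat_lit 0)) (P (nat_lit 4731014563690971136)))))) (T.h (T.h (P (nat_lit 0)) (T.h (T.h (P (nat_lit 0)) (T.h (P (nat_lit 44631809005452154372096)) (T.h (P (nat_lit 0)) (P (nat_lit 21157774929887232))))) (T.h (P (nat_lit 0)) (T.h (T.h (P (nat_lit 0)) (P (nat_lit 3431794116395008))) (P (nat_lit 0)))))) (T.h (T.h (T.h (P (nat_lit 0)) (T.h (P (nat_lit 0)) (P (nat_lit 7190836746416816128)))) (T.h (P (nat_lit 0)) (M (nat_lit 8339903994616872959)))) (T.h (T.h (P (nat_lit 0)) (T.h (T.h (P (nat_lit 0)) (P (nat_lit 14212069352800256))) (P (nat_lit 0)))) (M (nat_lit 823250967452450815)))))), (T.h (T.h (T.h (P (nat_lit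 0)) (T.h (M (nat_lit 3735944699976290291876364287)) (T.h (P (nat_lit 0)) (T.h (M (nat_lit 6398304223384991432703)) (T.h (P (nat_lit 0)) (P (nat_lit 4645051328102400))))))) (T.h (P (nat_lit 0)) (T.h (T.h (P (nat_lit 0)) (T.h (M (nat_lit 2434592390349984890879)) (T.h (P (nat_lit 0)) (P (nat_lit 4406481162338304))))) (T.h (P (nat_lit 0)) (T.h (T.h (P (nat_lit 0)) (P (nat_lit 937475159556096))) (P (nat_lit 0))))))) (T.h (T.h (P (nat_lit 0)) (T.h (T.h (M (nat_lit 13141655625837937975885823)) (T.h (P (nat_lit 0)) (P (nat_lit 698999029035433984)))) (T.h (P (nat_lit 0)) (M (nat_lit 876166944988856319))))) (T.h (T.h (T.h (P (nat_lit 0)) (T.h (P (nat_lit 3769540207674520502272)) (T.h (P (nat_lit 0)) (P (nat_lit 14406680342495232))))) (P (nat_lit 0))) (T.h (T.h (P (nat_lit 0)) (M (nat_lit 3442231760379707391))) (T.h (T.h (T.h (P (nat_lit 0)) (M (nat_lit 1657467581693951))) (P (nat_lit 0))) (P (nat_lit 0))))))), (T.h (T.h (T.h (P (nat_lit 14856572718678401679984347316224))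 (T.h (P (nat_lit 0)) (T.h (P (nat_lit 9143594504065898468343808)) (T.h (P (nat_lit 0)) (M (nat_lit 5994328141479280639)))))) (T.h (P (nat_lit 0)) (T.h (T.h (M (nat_lit 146258586246510312161279)) (T.h (P (nat_lit 0)) (M (nat_lit 6245178489742295039)))) (T.h (P (nat_lit 0)) (P (nat_lit 111010873010552832)))))) (T.h (T.h (P (nat_lit 0)) (T.h (T.h (P (nat_lit 0)) (M (nat_lit 10406685990088444215295))) (P (nat_lit 0)))) (T.h (T.h (T.h (P (nat_lit 430512853632606770561024)) (T.h (P (nat_lit 0)) (M (nat_lit 14012339163622277119)))) (T.h (P (nat_lit 0)) (P (nat_lit 716194899120095232)))) (T.h (P (nat_lit 0)) (P (nat_lit 458076090124992512)))))), (P (nat_lit 0))]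
def lP11_5 : List (T ℤ) := [(T.h (T.h (P (nat_lit 0)) (T.h (T.h (P (nat_lit 0)) (T.h (M (nat_lit 9930660340720679142817791)) (T.h (P (nat_lit 0)) (P (nat_lit 4498897606964936704))))) (T.h (P (nat_lit 0)) (T.h (T.h (P (nat_lit 0)) (P (nat_lit 5817303471073787904))) (P (nat_lit 0)))))) (T.h (T.h (T.h (P (nat_lit 2874759264551899117903675392)) (T.h (P (nat_lit 0)) (T.h (P (nat_lit 1940289171074890858496)) (T.h (P (nat_lit 0)) (M (nat_lit 1082473110175743)))))) (T.h (P (nat_lit 0)) (T.h (T.h (P (nat_lit 7643476739830000386048)) (T.h (P (nat_lit 0)) (M (nat_lit 2788580132061183)))) (T.h (P (nat_lit 0)) (M (nat_lit 5476709220483071)))))) (T.h (T.h (P (nat_lit 0)) (T.h (T.h (P (nat_lit 0)) (M (nat_lit 717555307059871743))) (P (nat_lit 0)))) (T.h (T.h (T.h (M (nat_lit 738474885769798352895)) (T.h (P (nat_lit 0)) (P (nat_lit 622586800177152)))) (T.h (P (nat_lit 0)) (P (nat_lit 4065623452418048)))) (T.h (P (nat_lit 0)) (M (nat_lit 853826605940735))))))), (T.h (T.h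 (P (nat_lit 0)) (T.h (T.h (P (nat_lit 3740536491181234184028946432)) (T.h (P (nat_lit 0)) (T.h (M (nat_lit 1406929830933170225151)) (T.h (P (nat_lit 0)) (P (nat_lit 1768850240339968)))))) (T.h (P (nat_lit 0)) (T.h (T.h (M (nat_lit 227177040830728765439)) (T.h (P (nat_lit 0)) (M (nat_lit 285597451747327)))) (T.h (P (nat_lit 0)) (P (nat_lit 632988086468608))))))) (T.h (T.h (T.h (P (nat_lit 0)) (T.h (P (nat_lit 9875282602521853746479104)) (T.h (P (nat_lit 0)) (P (nat_lit 5803693326376894464))))) (T.h (P (nat_lit 0)) (T.h (T.h (P (nat_lit 0)) (P (nat_lit 6736718963717177344))) (P (nat_lit 0))))) (T.h (T.h (P (nat_lit 0)) (T.h (T.h (M (nat_lit 9374060979553220689919)) (T.h (P (nat_lit 0)) (M (nat_lit 11137756148891647)))) (T.h (P (nat_lit 0)) (M (nat_lit 3020348864692223))))) (T.h (T.h (T.h (P (nat_lit 0)) (M (nat_lit 1587128147822772223))) (P (nat_lit 0))) (T.h (T.h (P (nat_lit 0)) (P (nat_lit 651352187568128))) (P (nat_lit 0))))))), (T.h (T.h (P (nat_lit 0))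 (T.h (T.h (P (nat_lit 0)) (T.h (P (nat_lit 13679483588558852806672384)) (T.h (P (nat_lit 0)) (M (nat_lit 2937611177917677567))))) (T.h (P (nat_lit 0)) (T.h (T.h (P (nat_lit 0)) (M (nat_lit 2937611177917677567))) (P (nat_lit 0)))))) (T.h (T.h (T.h (M (nat_lit 895513046034761536558333951)) (T.h (P (nat_lit 0)) (T.h (M (nat_lit 2278615923996233826303)) (T.h (P (nat_lit 0)) (P (nat_lit 3126952219639808)))))) (T.h (P (nat_lit 0)) (T.h (T.h (M (nat_lit 2278615923996233826303)) (T.h (P (nat_lit 0)) (P (nat_lit 12393691856896000)))) (T.h (P (nat_lit 0)) (P (nat_lit 3126952219639808)))))) (T.h (T.h (P (nat_lit 0)) (T.h (T.h (P (nat_lit 0)) (P (nat_lit 32571348845645004800))) (P (nat_lit 0)))) (T.h (T.h (T.h (P (nat_lit 8232267397385362079744)) (T.h (P (nat_lit 0)) (M (nat_lit 2953990688538623)))) (T.h (P (nat_lit 0)) (M (nat_lit 2953990688538623)))) (T.h (P (nat_lit 0)) (P (nat_lit 2099127109287936))))))), (T.h (T.h (P (nat_lit 0)) (T.h (T.h (M (nat_lit 49201072690816064008665169919))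 (T.h (P (nat_lit 0)) (T.h (M (nat_lit 8394835497245403512831)) (T.h (P (nat_lit 0)) (P (nat_lit 235744258031616)))))) (T.h (P (nat_lit 0)) (T.h (T.h (M (nat_lit 954381245221055758335)) (T.h (P (nat_lit 0)) (P (nat_lit 6882003918913536)))) (T.h (P (nat_lit 0)) (P (nat_lit 209098321821696))))))) (T.h (T.h (T.h (P (nat_lit 0)) (T.h (P (nat_lit 3702461069826797472841728)) (T.h (P (nat_lit 0)) (M (nat_lit 7039414567054606335))))) (T.h (P (nat_lit 0)) (T.h (T.h (P (nat_lit 0)) (P (nat_lit 2978963579450949632))) (P (nat_lit 0))))) (T.h (T.h (P (nat_lit 0)) (T.h (T.h (P (nat_lit 8767017244252998467584)) (T.h (P (nat_lit 0)) (P (nat_lit 50248992988594176)))) (T.h (P (nat_lit 0)) (P (nat_lit 472351797215232))))) (T.h (T.h (T.h (P (nat_lit 0)) (P (nat_lit 8528179222198353920))) (P (nat_lit 0))) (T.h (T.h (P (nat_lit 0)) (M (nat_lit 1225068611567615))) (P (nat_lit 0))))))), (T.h (T.h (P (nat_lit 0)) (T.h (T.h (P (nat_lit 0)) (T.h (P (nat_lit 6774779893922198139699200))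 (T.h (P (nat_lit 0)) (M (nat_lit 3330027300455448575))))) (T.h (P (nat_lit 0)) (T.h (T.h (P (nat_lit 0)) (M (nat_lit 5978080759825563647))) (P (nat_lit 0)))))) (T.h (T.h (T.h (M (nat_lit 4847912892436371908541284351)) (T.h (P (nat_lit 0)) (M (nat_lit 7689282402489485754367)))) (T.h (P (nat_lit 0)) (M (nat_lit 4520338283428990418943)))) (T.h (T.h (P (nat_lit 0)) (T.h (T.h (P (nat_lit 0)) (M (nat_lit 34303312546880290815))) (P (nat_lit 0)))) (M (nat_lit 3937142110085665783807))))), (T.h (T.h (T.h (P (nat_lit 96674775480032858528316129280)) (T.h (P (nat_lit 0)) (T.h (M (nat_lit 817570893295480970674175)) (T.h (P (nat_lit 0)) (M (nat_lit 692532370447794175)))))) (T.h (P (nat_lit 0)) (T.h (T.h (M (nat_lit 1539936402037090780446719)) (T.h (P (nat_lit 0)) (P (nat_lit 712178620038119424)))) (T.h (P (nat_lit 0)) (M (nat_lit 86536408218468351)))))) (T.h (T.h (P (nat_lit 0)) (T.h (T.h (P (nat_lit 0)) (T.h (M (nat_lit 2618989352391739965439)) (T.h (P (nat_lit 0)) (M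 (nat_lit 129461949038591))))) (T.h (P (nat_lit 0)) (T.h (T.h (P (nat_lit 0)) (M (nat_lit 294768566599679))) (P (nat_lit 0)))))) (T.h (T.h (T.h (M (nat_lit 817570893295480970674175)) (T.h (P (nat_lit 0)) (P (nat_lit 3310063201005076480)))) (T.h (P (nat_lit 0)) (P (nat_lit 712178620038119424)))) (T.h (T.h (P (nat_lit 0)) (T.h (T.h (P (nat_lit 0)) (M (nat_lit 129461949038591))) (P (nat_lit 0)))) (M (nat_lit 692532370447794175)))))), (T.h (T.h (T.h (P (nat_lit 0)) (T.h (P (nat_lit 47416505117441395902631641088)) (T.h (P (nat_lit 0)) (T.h (M (nat_lit 426404348199077675007)) (T.h (P (nat_lit 0)) (M (nat_lit 197059579838463))))))) (T.h (P (nat_lit 0)) (T.h (T.h (P (nat_lit 0)) (T.h (M (nat_lit 7653722122218524114943)) (T.h (P (nat_lit 0)) (P (nat_lit 4558637779353600))))) (T.h (P (nat_lit 0)) (T.h (T.h (P (nat_lit 0)) (P (nat_lit 5284322988097536))) (P (nat_lit 0))))))) (T.h (T.h (P (nat_lit 0)) (T.h (T.h (M (nat_lit 5319889967147930443841535)) (T.h (P (nat_lit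 0)) (M (nat_lit 792260735148228607)))) (T.h (P (nat_lit 0)) (P (nat_lit 136417751311843328))))) (T.h (T.h (T.h (P (nat_lit 0)) (T.h (P (nat_lit 123502182344811347968)) (T.h (P (nat_lit 0)) (M (nat_lit 759253791539199))))) (T.h (P (nat_lit 0)) (T.h (T.h (P (nat_lit 0)) (M (nat_lit 8808587969626111))) (P (nat_lit 0))))) (T.h (T.h (P (nat_lit 0)) (M (nat_lit 3623182536559034367))) (T.h (T.h (T.h (P (nat_lit 0)) (P (nat_lit 636707047669760))) (P (nat_lit 0))) (P (nat_lit 0))))))), (T.h (T.h (T.h (M (nat_lit 338361714180115004849106452479)) (T.h (P (nat_lit 0)) (T.h (P (nat_lit 4633383109431362544730112)) (T.h (P (nat_lit 0)) (P (nat_lit 4731014563690971136)))))) (T.h (P (nat_lit 0)) (T.h (T.h (M (nat_lit 2603676508804139699929087)) (T.h (P (nat_lit 0)) (P (nat_lit 7582985554350833664)))) (T.h (P (nat_lit 0)) (P (nat_lit 318229806879604736)))))) (T.h (T.h (P (nat_lit 0)) (T.h (T.h (P (nat_lit 0)) (T.h (P (nat_lit 44631809005452154372096)) (T.h (P (nat_lit 0))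 (P (nat_lit 3431794116395008))))) (T.h (P (nat_lit 0)) (T.h (T.h (P (nat_lit 0)) (P (nat_lit 21157774929887232))) (P (nat_lit 0)))))) (T.h (T.h (T.h (P (nat_lit 0)) (T.h (P (nat_lit 0)) (M (nat_lit 8339903994616872959)))) (T.h (P (nat_lit 0)) (P (nat_lit 7190836746416816128)))) (T.h (T.h (P (nat_lit 0)) (T.h (T.h (P (nat_lit 0)) (P (nat_lit 14212069352800256))) (P (nat_lit 0)))) (M (nat_lit 823250967452450815))))))]
def lP11_6 : List (T ℤ) := [(T.h (T.h (T.h (P (nat_lit 0)) (T.h (M (nat_lit 49201072690816064008665169919)) (T.h (P (nat_lit 0)) (T.h (M (nat_lit 954381245221055758335)) (T.h (P (nat_lit 0)) (P (nat_lit 209098321821696))))))) (T.h (P (nat_lit 0)) (T.h (T.h (P (nat_lit 0)) (T.h (M (nat_lit 8394835497245403512831)) (T.h (P (nat_lit 0)) (P (nat_lit 6882003918913536))))) (T.h (P (nat_lit 0)) (T.h (T.h (P (nat_lit 0)) (P (nat_lit 235744258031616))) (P (nat_lit 0))))))) (T.h (T.h (P (nat_lit 0)) (T.h (T.h (P (nat_lit 3702461069826797472841728)) (T.h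 (P (nat_lit 0)) (P (nat_lit 2978963579450949632)))) (T.h (P (nat_lit 0)) (M (nat_lit 7039414567054606335))))) (T.h (T.h (T.h (P (nat_lit 0)) (T.h (P (nat_lit 8767017244252998467584)) (T.h (P (nat_lit 0)) (P (nat_lit 472351797215232))))) (T.h (P (nat_lit 0)) (T.h (T.h (P (nat_lit 0)) (P (nat_lit 50248992988594176))) (P (nat_lit 0))))) (T.h (T.h (P (nat_lit 0)) (P (nat_lit 8528179222198353920))) (T.h (T.h (T.h (P (nat_lit 0)) (M (nat_lit 1225068611567615))) (P (nat_lit 0))) (P (nat_lit 0))))))), (T.h (T.h (T.h (P (nat_lit 27591110730411258944789057372160)) (T.h (P (nat_lit 0)) (T.h (P (nat_lit 1194656571771072035160064)) (T.h (P (nat_lit 0)) (M (nat_lit 437328509317152767)))))) (T.h (P (nat_lit 0)) (T.h (T.h (P (nat_lit 1194656571771072035160064)) (T.h (P (nat_lit 0)) (M (nat_lit 14094344025934921727)))) (T.h (P (nat_lit 0)) (M (nat_lit 437328509317152767)))))) (T.h (T.h (P (nat_lit 0)) (T.h (T.h (P (nat_lit 0)) (M (nat_lit 18081353133715961675775))) (P (nat_lit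 0)))) (T.h (T.h (T.h (M (nat_lit 2432566270557964294160383)) (T.h (P (nat_lit 0)) (M (nat_lit 17635344513788542975)))) (T.h (P (nat_lit 0)) (M (nat_lit 17635344513788542975)))) (T.h (P (nat_lit 0)) (P (nat_lit 836313505496825856)))))), (T.h (T.h (P (nat_lit 0)) (T.h (T.h (P (nat_lit 1261515900548784767341953024)) (T.h (P (nat_lit 0)) (T.h (M (nat_lit 392193281945094848511)) (T.h (P (nat_lit 0)) (M (nat_lit 432490456875007)))))) (T.h (P (nat_lit 0)) (T.h (T.h (P (nat_lit 0)) (T.h (P (nat_lit 0)) (P (nat_lit 1046618715029504)))) (P (nat_lit 0)))))) (T.h (T.h (T.h (P (nat_lit 0)) (T.h (P (nat_lit 1072738038739656689844224)) (T.h (P (nat_lit 0)) (P (nat_lit 107204109748142080))))) (P (nat_lit 0))) (T.h (T.h (P (nat_lit 0)) (T.h (T.h (P (nat_lit 392193281945094848512)) (T.h (P (nat_lit 0)) (M (nat_lit 10794187433312255)))) (T.h (P (nat_lit 0)) (M (nat_lit 1046618715029503))))) (T.h (T.h (T.h (P (nat_lit 0)) (M (nat_lit 107204109748142079))) (P (nat_lit 0))) (T.h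 (T.h (P (nat_lit 0)) (P (nat_lit 432490456875008))) (P (nat_lit 0))))))), (T.h (T.h (P (nat_lit 0)) (T.h (T.h (P (nat_lit 0)) (T.h (P (nat_lit 13061859408740106582884352)) (T.h (P (nat_lit 0)) (P (nat_lit 1793701663668699136))))) (T.h (P (nat_lit 0)) (T.h (T.h (P (nat_lit 0)) (M (nat_lit 14183074911253168127))) (P (nat_lit 0)))))) (T.h (T.h (T.h (M (nat_lit 3383368649401081921863155711)) (T.h (P (nat_lit 0)) (T.h (P (nat_lit 4897606766501107335168)) (T.h (P (nat_lit 0)) (M (nat_lit 109270719660031)))))) (T.h (P (nat_lit 0)) (T.h (T.h (M (nat_lit 3020588307875476013055)) (T.h (P (nat_lit 0)) (M (nat_lit 8840244534575103)))) (T.h (P (nat_lit 0)) (P (nat_lit 9250554945142784)))))) (T.h (T.h (P (nat_lit 0)) (T.h (T.h (P (nat_lit 0)) (P (nat_lit 8043047937598554112))) (P (nat_lit 0)))) (T.h (T.h (T.h (P (nat_lit 1449144204392583397376)) (T.h (P (nat_lit 0)) (M (nat_lit 237439028822015)))) (T.h (P (nat_lit 0)) (M (nat_lit 4362756073783295)))) (T.h (P (nat_lit 0))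 (P (nat_lit 969414783074304))))))), (T.h (T.h (P (nat_lit 0)) (T.h (T.h (M (nat_lit 3735944699976290291876364287)) (T.h (P (nat_lit 0)) (T.h (M (nat_lit 2434592390349984890879)) (T.h (P (nat_lit 0)) (P (nat_lit 937475159556096)))))) (T.h (P (nat_lit 0)) (T.h (T.h (M (nat_lit 6398304223384991432703)) (T.h (P (nat_lit 0)) (P (nat_lit 4406481162338304)))) (T.h (P (nat_lit 0)) (P (nat_lit 4645051328102400))))))) (T.h (T.h (T.h (P (nat_lit 0)) (T.h (M (nat_lit 13141655625837937975885823)) (T.h (P (nat_lit 0)) (M (nat_lit 876166944988856319))))) (T.h (P (nat_lit 0)) (T.h (T.h (P (nat_lit 0)) (P (nat_lit 698999029035433984))) (P (nat_lit 0))))) (T.h (T.h (P (nat_lit 0)) (T.h (P (nat_lit 3769540207674520502272)) (T.h (P (nat_lit 0)) (P (nat_lit 14406680342495232))))) (T.h (T.h (T.h (P (nat_lit 0)) (M (nat_lit 3442231760379707391))) (P (nat_lit 0))) (T.h (T.h (P (nat_lit 0)) (M (nat_lit 1657467581693951))) (P (nat_lit 0))))))), (T.h (T.h (P (nat_lit 0)) (T.h (T.h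 (P (nat_lit 0)) (T.h (P (nat_lit 6774779893922198139699200)) (T.h (P (nat_lit 0)) (M (nat_lit 5978080759825563647))))) (T.h (P (nat_lit 0)) (T.h (T.h (P (nat_lit 0)) (M (nat_lit 3330027300455448575))) (P (nat_lit 0)))))) (T.h (T.h (T.h (M (nat_lit 4847912892436371908541284351)) (T.h (P (nat_lit 0)) (M (nat_lit 4520338283428990418943)))) (T.h (P (nat_lit 0)) (M (nat_lit 7689282402489485754367)))) (T.h (T.h (P (nat_lit 0)) (T.h (T.h (P (nat_lit 0)) (M (nat_lit 34303312546880290815))) (P (nat_lit 0)))) (M (nat_lit 3937142110085665783807))))), (T.h (T.h (T.h (P (nat_lit 5102271648357133609590386065408)) (T.h (P (nat_lit 0)) (T.h (P (nat_lit 527913047198678619521024)) (T.h (P (nat_lit 0)) (P (nat_lit 553912465654546432)))))) (T.h (P (nat_lit 0)) (T.h (T.h (P (nat_lit 641291079997538122596352)) (T.h (P (nat_lit 0)) (P (nat_lit 992840272415031296)))) (T.h (P (nat_lit 0)) (P (nat_lit 1509074362290929664)))))) (T.h (T.h (P (nat_lit 0)) (T.h (T.h (P (nat_lit 0)) (P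 (nat_lit 5233297634083781738496))) (P (nat_lit 0)))) (T.h (T.h (T.h (P (nat_lit 527913047198678619521024)) (T.h (P (nat_lit 0)) (M (nat_lit 2382062302410047487)))) (T.h (P (nat_lit 0)) (P (nat_lit 992840272415031296)))) (T.h (P (nat_lit 0)) (P (nat_lit 553912465654546432)))))), (T.h (T.h (T.h (P (nat_lit 0)) (T.h (M (nat_lit 47638697680888985569739145215)) (T.h (P (nat_lit 0)) (T.h (M (nat_lit 873530666480291545087)) (T.h (P (nat_lit 0)) (M (nat_lit 252540465315839))))))) (T.h (P (nat_lit 0)) (T.h (T.h (P (nat_lit 0)) (T.h (P (nat_lit 4218958299614159044608)) (T.h (P (nat_lit 0)) (P (nat_lit 1692325956550656))))) (T.h (P (nat_lit 0)) (T.h (T.h (P (nat_lit 0)) (M (nat_lit 5663748413521919))) (P (nat_lit 0))))))) (T.h (T.h (P (nat_lit 0)) (T.h (T.h (P (nat_lit 4891702662024706926837760)) (T.h (P (nat_lit 0)) (P (nat_lit 6320300481474199552)))) (T.h (P (nat_lit 0)) (M (nat_lit 3870950617715310591))))) (T.h (T.h (T.h (P (nat_lit 0)) (T.h (P (nat_lit 1736765090462693326848))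 (T.h (P (nat_lit 0)) (M (nat_lit 699409081171967))))) (T.h (P (nat_lit 0)) (T.h (T.h (P (nat_lit 0)) (M (nat_lit 2168266134061055))) (P (nat_lit 0))))) (T.h (T.h (P (nat_lit 0)) (P (nat_lit 2552835554030911488))) (T.h (T.h (T.h (P (nat_lit 0)) (P (nat_lit 315447786405888))) (P (nat_lit 0))) (P (nat_lit 0)))))))]
def lP11_7 : List (T ℤ) := [(T.h (T.h (T.h (P (nat_lit 14856572718678401679984347316224)) (T.h (P (nat_lit 0)) (T.h (M (nat_lit 146258586246510312161279)) (T.h (P (nat_lit 0)) (P (nat_lit 111010873010552832)))))) (T.h (P (nat_lit 0)) (T.h (T.h (P (nat_lit 9143594504065898468343808)) (T.h (P (nat_lit 0)) (M (nat_lit 6245178489742295039)))) (T.h (P (nat_lit 0)) (M (nat_lit 5994328141479280639)))))) (T.h (T.h (P (nat_lit 0)) (T.h (T.h (P (nat_lit 0)) (M (nat_lit 10406685990088444215295))) (P (nat_lit 0)))) (T.h (T.h (T.h (P (nat_lit 430512853632606770561024)) (T.h (P (nat_lit 0)) (P (nat_lit 716194899120095232)))) (T.h (P (nat_lit 0)) (M (nat_lit 14012339163622277119))))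 (T.h (P (nat_lit 0)) (P (nat_lit 458076090124992512)))))), (T.h (T.h (P (nat_lit 0)) (M (nat_lit 1261515900548784767341953023))) (T.h (T.h (T.h (P (nat_lit 0)) (M (nat_lit 1072738038739656689844223))) (P (nat_lit 0))) (T.h (T.h (P (nat_lit 0)) (T.h (T.h (P (nat_lit 0)) (T.h (P (nat_lit 0)) (P (nat_lit 10794187433312256)))) (P (nat_lit 0)))) (P (nat_lit 0))))), (T.h (T.h (P (nat_lit 0)) (T.h (T.h (P (nat_lit 0)) (T.h (P (nat_lit 1514619882854388970029056)) (T.h (P (nat_lit 0)) (M (nat_lit 1155294519671914495))))) (T.h (P (nat_lit 0)) (T.h (T.h (P (nat_lit 0)) (P (nat_lit 7732904500595261440))) (P (nat_lit 0)))))) (T.h (T.h (T.h (M (nat_lit 471536197744369659130413055)) (T.h (P (nat_lit 0)) (M (nat_lit 391678135183836446719)))) (T.h (P (nat_lit 0)) (M (nat_lit 7121757884211567525887)))) (T.h (T.h (P (nat_lit 0)) (T.h (T.h (P (nat_lit 0)) (M (nat_lit 5888628940288819199))) (P (nat_lit 0)))) (P (nat_lit 0))))), (T.h (P (nat_lit 0)) (T.h (P (nat_lit 0)) (T.h (T.h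 (T.h (P (nat_lit 0)) (T.h (P (nat_lit 0)) (M (nat_lit 3684415977237250047)))) (P (nat_lit 0))) (P (nat_lit 0))))), (P (nat_lit 0)), (P (nat_lit 0)), (P (nat_lit 0)), (P (nat_lit 0))]
def lP11_8 : List (T ℤ) := [(P (nat_lit 0)), (P (nat_lit 0)), (P (nat_lit 0)), (P (nat_lit 0)), (P (nat_lit 0)), (P (nat_lit 0)), (T.h (T.h (T.h (P (nat_lit 1571816185327542650024130248704)) (T.h (P (nat_lit 0)) (T.h (M (nat_lit 2022185110742053708365823)) (T.h (P (nat_lit 0)) (P (nat_lit 1581418103290462208)))))) (T.h (P (nat_lit 0)) (T.h (T.h (M (nat_lit 579660240083096682102783)) (T.h (P (nat_lit 0)) (P (nat_lit 4252784634942717952)))) (T.h (P (nat_lit 0)) (M (nat_lit 282831231819710463)))))) (T.h (T.h (P (nat_lit 0)) (T.h (T.h (P (nat_lit 0)) (T.h (P (nat_lit 5045653986828529696768)) (T.h (P (nat_lit 0)) (M (nat_lit 1746818407727103))))) (T.h (P (nat_lit 0)) (T.h (T.h (P (nat_lit 0)) (M (nat_lit 1903233936916479))) (P (nat_lit 0)))))) (T.h (T.h (T.h (M (nat_lit 579660240083096682102783))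 (T.h (P (nat_lit 0)) (P (nat_lit 4252784634942717952)))) (T.h (P (nat_lit 0)) (M (nat_lit 5476805079707156479)))) (T.h (T.h (P (nat_lit 0)) (T.h (T.h (P (nat_lit 0)) (M (nat_lit 1903233936916479))) (P (nat_lit 0)))) (M (nat_lit 282831231819710463)))))), (P (nat_lit 0))]
def lP11_9 : List (T ℤ) := [(P (nat_lit 0)), (P (nat_lit 0)), (P (nat_lit 0)), (P (nat_lit 0)), (T.h (T.h (P (nat_lit 0)) (T.h (T.h (P (nat_lit 2874759264551899117903675392)) (T.h (P (nat_lit 0)) (T.h (P (nat_lit 7643476739830000386048)) (T.h (P (nat_lit 0)) (M (nat_lit 5476709220483071)))))) (T.h (P (nat_lit 0)) (T.h (T.h (M (nat_lit 738474885769798352895)) (T.h (P (nat_lit 0)) (P (nat_lit 4065623452418048)))) (T.h (P (nat_lit 0)) (M (nat_lit 853826605940735))))))) (T.h (T.h (T.h (P (nat_lit 0)) (T.h (M (nat_lit 9930660340720679142817791)) (T.h (P (nat_lit 0)) (P (nat_lit 5817303471073787904))))) (T.h (P (nat_lit 0)) (T.h (T.h (P (nat_lit 0)) (M (nat_lit 717555307059871743))) (P (nat_lit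 0))))) (T.h (T.h (P (nat_lit 0)) (T.h (T.h (P (nat_lit 1940289171074890858496)) (T.h (P (nat_lit 0)) (M (nat_lit 2788580132061183)))) (T.h (P (nat_lit 0)) (P (nat_lit 622586800177152))))) (T.h (T.h (T.h (P (nat_lit 0)) (P (nat_lit 4498897606964936704))) (P (nat_lit 0))) (T.h (T.h (P (nat_lit 0)) (M (nat_lit 1082473110175743))) (P (nat_lit 0))))))), (T.h (T.h (P (nat_lit 0)) (T.h (T.h (P (nat_lit 0)) (T.h (P (nat_lit 5102654353536485708267520)) (T.h (P (nat_lit 0)) (P (nat_lit 1897946477464911872))))) (T.h (P (nat_lit 0)) (T.h (T.h (P (nat_lit 0)) (P (nat_lit 9404284322610937856))) (P (nat_lit 0)))))) (T.h (T.h (T.h (P (nat_lit 45916236550121450560957710336)) (T.h (P (nat_lit 0)) (T.h (M (nat_lit 10119872893221028757503)) (T.h (P (nat_lit 0)) (P (nat_lit 10364734460231680)))))) (T.h (P (nat_lit 0)) (T.h (T.h (P (nat_lit 8906486331046721748992)) (T.h (P (nat_lit 0)) (M (nat_lit 1345932322734079)))) (T.h (P (nat_lit 0)) (M (nat_lit 2253510903529471)))))) (T.h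 (T.h (P (nat_lit 0)) (T.h (T.h (P (nat_lit 0)) (P (nat_lit 3967610635230904320))) (P (nat_lit 0)))) (T.h (T.h (T.h (P (nat_lit 3433965189034995089408)) (T.h (P (nat_lit 0)) (M (nat_lit 14802336251543551)))) (T.h (P (nat_lit 0)) (P (nat_lit 3152084747943936)))) (T.h (P (nat_lit 0)) (P (nat_lit 1212198057312256))))))), (T.h (T.h (P (nat_lit 0)) (T.h (T.h (M (nat_lit 3383368649401081921863155711)) (T.h (P (nat_lit 0)) (T.h (M (nat_lit 3020588307875476013055)) (T.h (P (nat_lit 0)) (P (nat_lit 9250554945142784)))))) (T.h (P (nat_lit 0)) (T.h (T.h (P (nat_lit 1449144204392583397376)) (T.h (P (nat_lit 0)) (M (nat_lit 4362756073783295)))) (T.h (P (nat_lit 0)) (P (nat_lit 969414783074304))))))) (T.h (T.h (T.h (P (nat_lit 0)) (T.h (P (nat_lit 13061859408740106582884352)) (T.h (P (nat_lit 0)) (M (nat_lit 14183074911253168127))))) (T.h (P (nat_lit 0)) (T.h (T.h (P (nat_lit 0)) (P (nat_lit 8043047937598554112))) (P (nat_lit 0))))) (T.h (T.h (P (nat_lit 0)) (T.h (T.h (P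 (nat_lit 4897606766501107335168)) (T.h (P (nat_lit 0)) (M (nat_lit 8840244534575103)))) (T.h (P (nat_lit 0)) (M (nat_lit 237439028822015))))) (T.h (T.h (T.h (P (nat_lit 0)) (P (nat_lit 1793701663668699136))) (P (nat_lit 0))) (T.h (T.h (P (nat_lit 0)) (M (nat_lit 109270719660031))) (P (nat_lit 0))))))), (T.h (T.h (P (nat_lit 0)) (T.h (T.h (P (nat_lit 0)) (T.h (P (nat_lit 4891702662024706926837760)) (T.h (P (nat_lit 0)) (M (nat_lit 3870950617715310591))))) (T.h (P (nat_lit 0)) (T.h (T.h (P (nat_lit 0)) (P (nat_lit 2552835554030911488))) (P (nat_lit 0)))))) (T.h (T.h (T.h (M (nat_lit 47638697680888985569739145215)) (T.h (P (nat_lit 0)) (T.h (P (nat_lit 4218958299614159044608)) (T.h (P (nat_lit 0)) (M (nat_lit 5663748413521919)))))) (T.h (P (nat_lit 0)) (T.h (T.h (P (nat_lit 1736765090462693326848)) (T.h (P (nat_lit 0)) (M (nat_lit 2168266134061055)))) (T.h (P (nat_lit 0)) (P (nat_lit 315447786405888)))))) (T.h (T.h (P (nat_lit 0)) (T.h (T.h (P (nat_lit 0)) (P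 (nat_lit 6320300481474199552))) (P (nat_lit 0)))) (T.h (T.h (T.h (M (nat_lit 873530666480291545087)) (T.h (P (nat_lit 0)) (P (nat_lit 1692325956550656)))) (T.h (P (nat_lit 0)) (M (nat_lit 699409081171967)))) (T.h (P (nat_lit 0)) (M (nat_lit 252540465315839)))))))]
def lP11_10 : List (T ℤ) := [(T.h (T.h (P (nat_lit 0)) (T.h (T.h (M (nat_lit 471536197744369659130413055)) (T.h (P (nat_lit 0)) (M (nat_lit 7121757884211567525887)))) (P (nat_lit 0)))) (T.h (T.h (T.h (P (nat_lit 0)) (T.h (P (nat_lit 1514619882854388970029056)) (T.h (P (nat_lit 0)) (P (nat_lit 7732904500595261440))))) (T.h (P (nat_lit 0)) (T.h (T.h (P (nat_lit 0)) (M (nat_lit 5888628940288819199))) (P (nat_lit 0))))) (T.h (T.h (P (nat_lit 0)) (M (nat_lit 391678135183836446719))) (T.h (T.h (T.h (P (nat_lit 0)) (M (nat_lit 1155294519671914495))) (P (nat_lit 0))) (P (nat_lit 0)))))), (P (nat_lit 0)), (P (nat_lit 0)), (T.h (T.h (T.h (P (nat_lit 0)) (T.h (P (nat_lit 0)) (T.h (P (nat_lit 0)) (T.h (P (nat_lit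 0)) (T.h (P (nat_lit 0)) (M (nat_lit 955482939457535))))))) (T.h (P (nat_lit 0)) (T.h (T.h (P (nat_lit 0)) (T.h (M (nat_lit 4023288376355572416511)) (T.h (P (nat_lit 0)) (P (nat_lit 17746068228407296))))) (T.h (P (nat_lit 0)) (T.h (T.h (P (nat_lit 0)) (M (nat_lit 5123191855120383))) (P (nat_lit 0))))))) (T.h (T.h (P (nat_lit 0)) (T.h (T.h (P (nat_lit 64503246115057485794508800)) (T.h (P (nat_lit 0)) (P (nat_lit 12938633457344446464)))) (T.h (P (nat_lit 0)) (P (nat_lit 795046254307442688))))) (T.h (T.h (T.h (P (nat_lit 0)) (T.h (M (nat_lit 4023288376355572416511)) (T.h (P (nat_lit 0)) (P (nat_lit 17746068228407296))))) (T.h (P (nat_lit 0)) (T.h (T.h (P (nat_lit 0)) (M (nat_lit 8245414944309247))) (P (nat_lit 0))))) (T.h (T.h (P (nat_lit 0)) (P (nat_lit 795046254307442688))) (T.h (T.h (T.h (P (nat_lit 0)) (M (nat_lit 5123191855120383))) (P (nat_lit 0))) (P (nat_lit 0))))))), (T.h (T.h (T.h (M (nat_lit 1114101153985789054301100834815)) (T.h (P (nat_lit 0)) (T.h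 (M (nat_lit 2557717122610336364494847)) (T.h (P (nat_lit 0)) (M (nat_lit 189303355846164479)))))) (T.h (P (nat_lit 0)) (T.h (T.h (P (nat_lit 7141172396579346538561536)) (T.h (P (nat_lit 0)) (M (nat_lit 61634766708328628223)))) (T.h (P (nat_lit 0)) (P (nat_lit 4765715769944178688)))))) (T.h (T.h (P (nat_lit 0)) (T.h (T.h (P (nat_lit 0)) (T.h (M (nat_lit 30963283778458873757695)) (T.h (P (nat_lit 0)) (P (nat_lit 6433192016805888))))) (T.h (P (nat_lit 0)) (T.h (T.h (P (nat_lit 0)) (P (nat_lit 1167571700088832))) (P (nat_lit 0)))))) (T.h (T.h (T.h (M (nat_lit 8624081864752066983886847)) (T.h (P (nat_lit 0)) (M (nat_lit 9859842714718175231)))) (T.h (P (nat_lit 0)) (P (nat_lit 9741744240169320448)))) (T.h (T.h (P (nat_lit 0)) (T.h (T.h (P (nat_lit 0)) (M (nat_lit 17335195603042303))) (P (nat_lit 0)))) (M (nat_lit 705863052360155135)))))), (T.h (T.h (T.h (P (nat_lit 0)) (T.h (M (nat_lit 1932805922345647315882082303)) (T.h (P (nat_lit 0)) (T.h (P (nat_lit 17669175649043166003200))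 (T.h (P (nat_lit 0)) (P (nat_lit 5558297383403520))))))) (T.h (P (nat_lit 0)) (T.h (T.h (P (nat_lit 0)) (T.h (P (nat_lit 17679488136000722436096)) (T.h (P (nat_lit 0)) (M (nat_lit 5994255547105279))))) (T.h (P (nat_lit 0)) (T.h (T.h (P (nat_lit 0)) (P (nat_lit 4390270459445248))) (P (nat_lit 0))))))) (T.h (T.h (P (nat_lit 0)) (T.h (T.h (M (nat_lit 60039266405509223094943743)) (T.h (P (nat_lit 0)) (P (nat_lit 15580325017345327104)))) (T.h (P (nat_lit 0)) (P (nat_lit 309226259353698304))))) (T.h (T.h (T.h (P (nat_lit 0)) (T.h (P (nat_lit 17679488136000722436096)) (T.h (P (nat_lit 0)) (M (nat_lit 5994255547105279))))) (T.h (P (nat_lit 0)) (T.h (T.h (P (nat_lit 0)) (P (nat_lit 2683627399806976))) (P (nat_lit 0))))) (T.h (T.h (P (nat_lit 0)) (P (nat_lit 309226259353698304))) (T.h (T.h (T.h (P (nat_lit 0)) (P (nat_lit 4390270459445248))) (P (nat_lit 0))) (P (nat_lit 0))))))), (T.h (T.h (T.h (P (nat_lit 2141173400490522924430219280384)) (T.h (P (nat_lit 0)) (T.h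 (P (nat_lit 10202185739954566874529792)) (T.h (P (nat_lit 0)) (M (nat_lit 407510509886111743)))))) (T.h (P (nat_lit 0)) (T.h (T.h (P (nat_lit 2755423052078074411614208)) (T.h (P (nat_lit 0)) (P (nat_lit 38971114064168615936)))) (T.h (P (nat_lit 0)) (M (nat_lit 2013936797247078399)))))) (T.h (T.h (P (nat_lit 0)) (T.h (T.h (P (nat_lit 0)) (T.h (M (nat_lit 2245742729472155582463)) (T.h (P (nat_lit 0)) (P (nat_lit 5240455223181312))))) (T.h (P (nat_lit 0)) (T.h (T.h (P (nat_lit 0)) (P (nat_lit 5709701810749440))) (P (nat_lit 0)))))) (T.h (T.h (T.h (P (nat_lit 2755423052078074411614208)) (T.h (P (nat_lit 0)) (P (nat_lit 38971114064168615936)))) (T.h (P (nat_lit 0)) (P (nat_lit 71583197720215552)))) (T.h (T.h (P (nat_lit 0)) (T.h (T.h (P (nat_lit 0)) (P (nat_lit 5709701810749440))) (P (nat_lit 0)))) (M (nat_lit 2013936797247078399)))))), (T.h (T.h (T.h (P (nat_lit 0)) (T.h (M (nat_lit 4932787182799620835601547263)) (T.h (P (nat_lit 0)) (M (nat_lit 22683376998001198235647)))))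 (T.h (P (nat_lit 0)) (T.h (T.h (P (nat_lit 0)) (M (nat_lit 19024528249610334896127))) (P (nat_lit 0))))) (T.h (T.h (P (nat_lit 0)) (T.h (T.h (P (nat_lit 469854802530439322927104)) (T.h (P (nat_lit 0)) (M (nat_lit 2405820120166301695)))) (T.h (P (nat_lit 0)) (M (nat_lit 1902139663028584447))))) (T.h (T.h (T.h (P (nat_lit 0)) (M (nat_lit 19024528249610334896127))) (P (nat_lit 0))) (T.h (T.h (P (nat_lit 0)) (M (nat_lit 1902139663028584447))) (P (nat_lit 0))))))]
def lP11_11 : List (T ℤ) := [(P (nat_lit 0)), (T.h (T.h (P (nat_lit 0)) (T.h (T.h (P (nat_lit 0)) (T.h (P (nat_lit 0)) (T.h (M (nat_lit 4023288376355572416511)) (T.h (P (nat_lit 0)) (M (nat_lit 5123191855120383)))))) (T.h (P (nat_lit 0)) (T.h (T.h (P (nat_lit 0)) (T.h (P (nat_lit 0)) (P (nat_lit 17746068228407296)))) (T.h (P (nat_lit 0)) (M (nat_lit 955482939457535))))))) (T.h (T.h (T.h (P (nat_lit 0)) (T.h (P (nat_lit 64503246115057485794508800)) (T.h (P (nat_lit 0)) (P (nat_lit 795046254307442688)))))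 (T.h (P (nat_lit 0)) (T.h (T.h (P (nat_lit 0)) (P (nat_lit 12938633457344446464))) (P (nat_lit 0))))) (T.h (T.h (P (nat_lit 0)) (T.h (T.h (M (nat_lit 4023288376355572416511)) (T.h (P (nat_lit 0)) (M (nat_lit 8245414944309247)))) (T.h (P (nat_lit 0)) (P (nat_lit 17746068228407296))))) (T.h (T.h (T.h (P (nat_lit 0)) (P (nat_lit 795046254307442688))) (P (nat_lit 0))) (T.h (T.h (P (nat_lit 0)) (M (nat_lit 5123191855120383))) (P (nat_lit 0))))))), (T.h (T.h (P (nat_lit 0)) (T.h (T.h (P (nat_lit 0)) (T.h (P (nat_lit 1957344530603387364835328)) (T.h (P (nat_lit 0)) (M (nat_lit 31137062395752480767))))) (T.h (P (nat_lit 0)) (T.h (T.h (P (nat_lit 0)) (M (nat_lit 49284794323627409407))) (P (nat_lit 0)))))) (T.h (T.h (T.h (M (nat_lit 19869073653131804131622649855)) (T.h (P (nat_lit 0)) (T.h (M (nat_lit 7177687224317498097663)) (T.h (P (nat_lit 0)) (M (nat_lit 7654853666406399)))))) (T.h (P (nat_lit 0)) (T.h (T.h (M (nat_lit 5943260452164290478079)) (T.h (P (nat_lit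 0)) (P (nat_lit 77046820858494976)))) (T.h (P (nat_lit 0)) (M (nat_lit 6962062625734655)))))) (T.h (T.h (P (nat_lit 0)) (T.h (T.h (P (nat_lit 0)) (P (nat_lit 94491169096630009856))) (P (nat_lit 0)))) (T.h (T.h (T.h (P (nat_lit 6773321612529888133120)) (T.h (P (nat_lit 0)) (P (nat_lit 5040420300750848)))) (T.h (P (nat_lit 0)) (P (nat_lit 4754118344474624)))) (T.h (P (nat_lit 0)) (M (nat_lit 145850248724479))))))), (T.h (T.h (P (nat_lit 0)) (T.h (T.h (M (nat_lit 10110931427917392107752390655)) (T.h (P (nat_lit 0)) (T.h (P (nat_lit 38438641801432209031168)) (T.h (P (nat_lit 0)) (P (nat_lit 24021546090364928)))))) (T.h (P (nat_lit 0)) (T.h (T.h (P (nat_lit 8261101118955020353536)) (T.h (P (nat_lit 0)) (M (nat_lit 2130561984954367)))) (T.h (P (nat_lit 0)) (P (nat_lit 533129381019648))))))) (T.h (T.h (T.h (P (nat_lit 0)) (T.h (M (nat_lit 68482786979373198274985983)) (T.h (P (nat_lit 0)) (M (nat_lit 8104107676780199935))))) (T.h (P (nat_lit 0)) (T.h (T.h (P (nat_lit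 0)) (M (nat_lit 41803659244434620415))) (P (nat_lit 0))))) (T.h (T.h (P (nat_lit 0)) (T.h (T.h (M (nat_lit 434863121499244462079)) (T.h (P (nat_lit 0)) (P (nat_lit 47943131333328896)))) (T.h (P (nat_lit 0)) (M (nat_lit 15861830619299839))))) (T.h (T.h (T.h (P (nat_lit 0)) (M (nat_lit 8796228712036040703))) (P (nat_lit 0))) (T.h (T.h (P (nat_lit 0)) (P (nat_lit 9953874026299392))) (P (nat_lit 0))))))), (T.h (T.h (P (nat_lit 0)) (T.h (T.h (P (nat_lit 0)) (T.h (P (nat_lit 7134864019933703962624000)) (T.h (P (nat_lit 0)) (P (nat_lit 25806678660235657216))))) (T.h (P (nat_lit 0)) (T.h (T.h (P (nat_lit 0)) (P (nat_lit 14948699728714399744))) (P (nat_lit 0)))))) (T.h (T.h (T.h (M (nat_lit 21489684987982723440726507519)) (T.h (P (nat_lit 0)) (T.h (M (nat_lit 14201226063573812248575)) (T.h (P (nat_lit 0)) (M (nat_lit 1413062830325759)))))) (T.h (P (nat_lit 0)) (T.h (T.h (M (nat_lit 3526065635949872676863)) (T.h (P (nat_lit 0)) (M (nat_lit 46026919089930239)))) (T.h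 (P (nat_lit 0)) (P (nat_lit 2733952022347776)))))) (T.h (T.h (P (nat_lit 0)) (T.h (T.h (P (nat_lit 0)) (M (nat_lit 60213479081244622847))) (P (nat_lit 0)))) (T.h (T.h (T.h (M (nat_lit 6832981111253990637567)) (T.h (P (nat_lit 0)) (P (nat_lit 17415315030933504)))) (T.h (P (nat_lit 0)) (M (nat_lit 5394656012009471)))) (T.h (P (nat_lit 0)) (M (nat_lit 2113886455726079))))))), (T.h (T.h (P (nat_lit 0)) (T.h (T.h (P (nat_lit 719817474826572681220980736)) (T.h (P (nat_lit 0)) (M (nat_lit 81404364450585477382143)))) (T.h (P (nat_lit 0)) (M (nat_lit 7669978220490651598847))))) (T.h (T.h (T.h (P (nat_lit 0)) (T.h (P (nat_lit 23740425189703612127772672)) (T.h (P (nat_lit 0)) (M (nat_lit 9694400712317861887))))) (T.h (P (nat_lit 0)) (T.h (T.h (P (nat_lit 0)) (P (nat_lit 25574308777851617280))) (P (nat_lit 0))))) (T.h (T.h (P (nat_lit 0)) (P (nat_lit 5292361548524716818432))) (T.h (T.h (T.h (P (nat_lit 0)) (M (nat_lit 11574770874313605119))) (P (nat_lit 0))) (P (nat_lit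 0)))))), (T.h (T.h (T.h (P (nat_lit 0)) (T.h (P (nat_lit 2874759264551899117903675392)) (T.h (P (nat_lit 0)) (T.h (M (nat_lit 738474885769798352895)) (T.h (P (nat_lit 0)) (M (nat_lit 853826605940735))))))) (T.h (P (nat_lit 0)) (T.h (T.h (P (nat_lit 0)) (T.h (P (nat_lit 7643476739830000386048)) (T.h (P (nat_lit 0)) (P (nat_lit 4065623452418048))))) (T.h (P (nat_lit 0)) (T.h (T.h (P (nat_lit 0)) (M (nat_lit 5476709220483071))) (P (nat_lit 0))))))) (T.h (T.h (P (nat_lit 0)) (T.h (T.h (M (nat_lit 9930660340720679142817791)) (T.h (P (nat_lit 0)) (M (nat_lit 717555307059871743)))) (T.h (P (nat_lit 0)) (P (nat_lit 5817303471073787904))))) (T.h (T.h (T.h (P (nat_lit 0)) (T.h (P (nat_lit 1940289171074890858496)) (T.h (P (nat_lit 0)) (P (nat_lit 622586800177152))))) (T.h (P (nat_lit 0)) (T.h (T.h (P (nat_lit 0)) (M (nat_lit 2788580132061183))) (P (nat_lit 0))))) (T.h (T.h (P (nat_lit 0)) (P (nat_lit 4498897606964936704))) (T.h (T.h (T.h (P (nat_lit 0)) (M (nat_lit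 1082473110175743))) (P (nat_lit 0))) (P (nat_lit 0))))))), (T.h (T.h (T.h (M (nat_lit 2927081493154294249442284404735)) (T.h (P (nat_lit 0)) (T.h (P (nat_lit 3502497139088687288549376)) (T.h (P (nat_lit 0)) (P (nat_lit 3306608714785488896)))))) (T.h (P (nat_lit 0)) (T.h (T.h (M (nat_lit 9191093184583540020346879)) (T.h (P (nat_lit 0)) (M (nat_lit 53377782175955419135)))) (T.h (P (nat_lit 0)) (M (nat_lit 383198541759119359)))))) (T.h (T.h (P (nat_lit 0)) (T.h (T.h (P (nat_lit 0)) (T.h (M (nat_lit 277084263942109265919)) (T.h (P (nat_lit 0)) (M (nat_lit 362778432634879))))) (T.h (P (nat_lit 0)) (T.h (T.h (P (nat_lit 0)) (M (nat_lit 4367046019317759))) (P (nat_lit 0)))))) (T.h (T.h (T.h (M (nat_lit 8433683003161739429675007)) (T.h (P (nat_lit 0)) (P (nat_lit 2666819342133362688)))) (T.h (P (nat_lit 0)) (M (nat_lit 28817230587324530687)))) (T.h (T.h (P (nat_lit 0)) (T.h (T.h (P (nat_lit 0)) (M (nat_lit 9153391251947519))) (P (nat_lit 0)))) (P (nat_lit 1004096111528378368))))))]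
def lP11_12 : List (T ℤ) := [(T.h (T.h (T.h (P (nat_lit 0)) (T.h (M (nat_lit 10110931427917392107752390655)) (T.h (P (nat_lit 0)) (T.h (P (nat_lit 8261101118955020353536)) (T.h (P (nat_lit 0)) (P (nat_lit 533129381019648))))))) (T.h (P (nat_lit 0)) (T.h (T.h (P (nat_lit 0)) (T.h (P (nat_lit 38438641801432209031168)) (T.h (P (nat_lit 0)) (M (nat_lit 2130561984954367))))) (T.h (P (nat_lit 0)) (T.h (T.h (P (nat_lit 0)) (P (nat_lit 24021546090364928))) (P (nat_lit 0))))))) (T.h (T.h (P (nat_lit 0)) (T.h (T.h (M (nat_lit 68482786979373198274985983)) (T.h (P (nat_lit 0)) (M (nat_lit 41803659244434620415)))) (T.h (P (nat_lit 0)) (M (nat_lit 8104107676780199935))))) (T.h (T.h (T.h (P (nat_lit 0)) (T.h (M (nat_lit 434863121499244462079)) (T.h (P (nat_lit 0)) (M (nat_lit 15861830619299839))))) (T.h (P (nat_lit 0)) (T.h (T.h (P (nat_lit 0)) (P (nat_lit 47943131333328896))) (P (nat_lit 0))))) (T.h (T.h (P (nat_lit 0)) (M (nat_lit 8796228712036040703))) (T.h (T.h (T.h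 (P (nat_lit 0)) (P (nat_lit 9953874026299392))) (P (nat_lit 0))) (P (nat_lit 0))))))), (T.h (T.h (T.h (P (nat_lit 1103063056789797682621446094848)) (T.h (P (nat_lit 0)) (T.h (P (nat_lit 3779251442669933534642176)) (T.h (P (nat_lit 0)) (M (nat_lit 8722767057218699263)))))) (T.h (P (nat_lit 0)) (T.h (T.h (P (nat_lit 3779251442669933534642176)) (T.h (P (nat_lit 0)) (P (nat_lit 104697319351738433536)))) (T.h (P (nat_lit 0)) (M (nat_lit 8722767057218699263)))))) (T.h (T.h (P (nat_lit 0)) (T.h (T.h (P (nat_lit 0)) (T.h (M (nat_lit 36489858112758766108671)) (T.h (P (nat_lit 0)) (P (nat_lit 16928777523363840))))) (T.h (P (nat_lit 0)) (T.h (T.h (P (nat_lit 0)) (P (nat_lit 16928777523363840))) (P (nat_lit 0)))))) (T.h (T.h (T.h (P (nat_lit 16761310900828117634383872)) (T.h (P (nat_lit 0)) (P (nat_lit 2488124734957420544)))) (T.h (P (nat_lit 0)) (P (nat_lit 2488124734957420544)))) (T.h (T.h (P (nat_lit 0)) (T.h (T.h (P (nat_lit 0)) (P (nat_lit 48655472220831744))) (P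 (nat_lit 0)))) (P (nat_lit 1685292276038762496)))))), (T.h (T.h (T.h (P (nat_lit 0)) (T.h (P (nat_lit 7305124718430585802427727872)) (T.h (P (nat_lit 0)) (M (nat_lit 20279155672975897788415))))) (T.h (P (nat_lit 0)) (T.h (T.h (P (nat_lit 0)) (M (nat_lit 96236064664401412620287))) (P (nat_lit 0))))) (T.h (T.h (P (nat_lit 0)) (T.h (T.h (P (nat_lit 19257407832285331475922944)) (T.h (P (nat_lit 0)) (M (nat_lit 20217337298745819135)))) (T.h (P (nat_lit 0)) (M (nat_lit 9833570716052619263))))) (T.h (T.h (T.h (P (nat_lit 0)) (M (nat_lit 5037294177271444144127))) (P (nat_lit 0))) (T.h (T.h (P (nat_lit 0)) (M (nat_lit 11252355669518450687))) (P (nat_lit 0)))))), (T.h (T.h (P (nat_lit 0)) (T.h (T.h (P (nat_lit 0)) (T.h (M (nat_lit 4463515356901483409833983)) (T.h (P (nat_lit 0)) (M (nat_lit 1482488571502788607))))) (T.h (P (nat_lit 0)) (T.h (T.h (P (nat_lit 0)) (P (nat_lit 7605483484118777856))) (P (nat_lit 0)))))) (T.h (T.h (T.h (P (nat_lit 47860890244336575236846649344))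 (T.h (P (nat_lit 0)) (T.h (M (nat_lit 3597032363270198001663)) (T.h (P (nat_lit 0)) (M (nat_lit 1267602620481535)))))) (T.h (P (nat_lit 0)) (T.h (T.h (M (nat_lit 784194477009793974271)) (T.h (P (nat_lit 0)) (P (nat_lit 13145120237748224)))) (T.h (P (nat_lit 0)) (P (nat_lit 6043173838946304)))))) (T.h (T.h (P (nat_lit 0)) (T.h (T.h (P (nat_lit 0)) (M (nat_lit 11848340227800170495))) (P (nat_lit 0)))) (T.h (T.h (T.h (P (nat_lit 2173465681159660765184)) (T.h (P (nat_lit 0)) (P (nat_lit 2158071953883136)))) (T.h (P (nat_lit 0)) (M (nat_lit 7943289692454911)))) (T.h (P (nat_lit 0)) (P (nat_lit 702140510470144))))))), (T.h (T.h (P (nat_lit 0)) (T.h (T.h (M (nat_lit 1932805922345647315882082303)) (T.h (P (nat_lit 0)) (T.h (P (nat_lit 17679488136000722436096)) (T.h (P (nat_lit 0)) (P (nat_lit 4390270459445248)))))) (T.h (P (nat_lit 0)) (T.h (T.h (P (nat_lit 17669175649043166003200)) (T.h (P (nat_lit 0)) (M (nat_lit 5994255547105279)))) (T.h (P (nat_lit 0)) (P (nat_lit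 5558297383403520))))))) (T.h (T.h (T.h (P (nat_lit 0)) (T.h (M (nat_lit 60039266405509223094943743)) (T.h (P (nat_lit 0)) (P (nat_lit 309226259353698304))))) (T.h (P (nat_lit 0)) (T.h (T.h (P (nat_lit 0)) (P (nat_lit 15580325017345327104))) (P (nat_lit 0))))) (T.h (T.h (P (nat_lit 0)) (T.h (T.h (P (nat_lit 17679488136000722436096)) (T.h (P (nat_lit 0)) (P (nat_lit 2683627399806976)))) (T.h (P (nat_lit 0)) (M (nat_lit 5994255547105279))))) (T.h (T.h (T.h (P (nat_lit 0)) (P (nat_lit 309226259353698304))) (P (nat_lit 0))) (T.h (T.h (P (nat_lit 0)) (P (nat_lit 4390270459445248))) (P (nat_lit 0))))))), (T.h (T.h (P (nat_lit 0)) (T.h (T.h (P (nat_lit 0)) (T.h (P (nat_lit 7134864019933703962624000)) (T.h (P (nat_lit 0)) (P (nat_lit 14948699728714399744))))) (T.h (P (nat_lit 0)) (T.h (T.h (P (nat_lit 0)) (P (nat_lit 25806678660235657216))) (P (nat_lit 0)))))) (T.h (T.h (T.h (M (nat_lit 21489684987982723440726507519)) (T.h (P (nat_lit 0)) (T.h (M (nat_lit 3526065635949872676863))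 (T.h (P (nat_lit 0)) (P (nat_lit 2733952022347776)))))) (T.h (P (nat_lit 0)) (T.h (T.h (M (nat_lit 14201226063573812248575)) (T.h (P (nat_lit 0)) (M (nat_lit 46026919089930239)))) (T.h (P (nat_lit 0)) (M (nat_lit 1413062830325759)))))) (T.h (T.h (P (nat_lit 0)) (T.h (T.h (P (nat_lit 0)) (M (nat_lit 60213479081244622847))) (P (nat_lit 0)))) (T.h (T.h (T.h (M (nat_lit 6832981111253990637567)) (T.h (P (nat_lit 0)) (M (nat_lit 5394656012009471)))) (T.h (P (nat_lit 0)) (P (nat_lit 17415315030933504)))) (T.h (P (nat_lit 0)) (M (nat_lit 2113886455726079))))))), (T.h (T.h (P (nat_lit 0)) (T.h (T.h (P (nat_lit 7305124718430585802427727872)) (T.h (P (nat_lit 0)) (M (nat_lit 96236064664401412620287)))) (T.h (P (nat_lit 0)) (M (nat_lit 20279155672975897788415))))) (T.h (T.h (T.h (P (nat_lit 0)) (T.h (P (nat_lit 19257407832285331475922944)) (T.h (P (nat_lit 0)) (M (nat_lit 9833570716052619263))))) (T.h (P (nat_lit 0)) (T.h (T.h (P (nat_lit 0)) (M (nat_lit 20217337298745819135)))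 (P (nat_lit 0))))) (T.h (T.h (P (nat_lit 0)) (M (nat_lit 5037294177271444144127))) (T.h (T.h (T.h (P (nat_lit 0)) (M (nat_lit 11252355669518450687))) (P (nat_lit 0))) (P (nat_lit 0)))))), (T.h (T.h (T.h (P (nat_lit 0)) (T.h (M (nat_lit 3383368649401081921863155711)) (T.h (P (nat_lit 0)) (T.h (P (nat_lit 1449144204392583397376)) (T.h (P (nat_lit 0)) (P (nat_lit 969414783074304))))))) (T.h (P (nat_lit 0)) (T.h (T.h (P (nat_lit 0)) (T.h (M (nat_lit 3020588307875476013055)) (T.h (P (nat_lit 0)) (M (nat_lit 4362756073783295))))) (T.h (P (nat_lit 0)) (T.h (T.h (P (nat_lit 0)) (P (nat_lit 9250554945142784))) (P (nat_lit 0))))))) (T.h (T.h (P (nat_lit 0)) (T.h (T.h (P (nat_lit 13061859408740106582884352)) (T.h (P (nat_lit 0)) (P (nat_lit 8043047937598554112)))) (T.h (P (nat_lit 0)) (M (nat_lit 14183074911253168127))))) (T.h (T.h (T.h (P (nat_lit 0)) (T.h (P (nat_lit 4897606766501107335168)) (T.h (P (nat_lit 0)) (M (nat_lit 237439028822015))))) (T.h (P (nat_lit 0))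 (T.h (T.h (P (nat_lit 0)) (M (nat_lit 8840244534575103))) (P (nat_lit 0))))) (T.h (T.h (P (nat_lit 0)) (P (nat_lit 1793701663668699136))) (T.h (T.h (T.h (P (nat_lit 0)) (M (nat_lit 109270719660031))) (P (nat_lit 0))) (P (nat_lit 0)))))))]
def lP11_13 : List (T ℤ) := [(T.h (T.h (T.h (P (nat_lit 2141173400490522924430219280384)) (T.h (P (nat_lit 0)) (T.h (P (nat_lit 2755423052078074411614208)) (T.h (P (nat_lit 0)) (M (nat_lit 2013936797247078399)))))) (T.h (P (nat_lit 0)) (T.h (T.h (P (nat_lit 10202185739954566874529792)) (T.h (P (nat_lit 0)) (P (nat_lit 38971114064168615936)))) (T.h (P (nat_lit 0)) (M (nat_lit 407510509886111743)))))) (T.h (T.h (P (nat_lit 0)) (T.h (T.h (P (nat_lit 0)) (T.h (M (nat_lit 2245742729472155582463)) (T.h (P (nat_lit 0)) (P (nat_lit 5709701810749440))))) (T.h (P (nat_lit 0)) (T.h (T.h (P (nat_lit 0)) (P (nat_lit 5240455223181312))) (P (nat_lit 0)))))) (T.h (T.h (T.h (P (nat_lit 2755423052078074411614208)) (T.h (P (nat_lit 0)) (P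 (nat_lit 71583197720215552)))) (T.h (P (nat_lit 0)) (P (nat_lit 38971114064168615936)))) (T.h (T.h (P (nat_lit 0)) (T.h (T.h (P (nat_lit 0)) (P (nat_lit 5709701810749440))) (P (nat_lit 0)))) (M (nat_lit 2013936797247078399)))))), (T.h (T.h (T.h (P (nat_lit 0)) (T.h (P (nat_lit 719817474826572681220980736)) (T.h (P (nat_lit 0)) (M (nat_lit 7669978220490651598847))))) (T.h (P (nat_lit 0)) (T.h (T.h (P (nat_lit 0)) (M (nat_lit 81404364450585477382143))) (P (nat_lit 0))))) (T.h (T.h (P (nat_lit 0)) (T.h (T.h (P (nat_lit 23740425189703612127772672)) (T.h (P (nat_lit 0)) (P (nat_lit 25574308777851617280)))) (T.h (P (nat_lit 0)) (M (nat_lit 9694400712317861887))))) (T.h (T.h (T.h (P (nat_lit 0)) (P (nat_lit 5292361548524716818432))) (P (nat_lit 0))) (T.h (T.h (P (nat_lit 0)) (M (nat_lit 11574770874313605119))) (P (nat_lit 0)))))), (T.h (T.h (P (nat_lit 0)) (T.h (T.h (P (nat_lit 0)) (T.h (P (nat_lit 4891702662024706926837760)) (T.h (P (nat_lit 0)) (P (nat_lit 2552835554030911488)))))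 (T.h (P (nat_lit 0)) (T.h (T.h (P (nat_lit 0)) (M (nat_lit 3870950617715310591))) (P (nat_lit 0)))))) (T.h (T.h (T.h (M (nat_lit 47638697680888985569739145215)) (T.h (P (nat_lit 0)) (T.h (P (nat_lit 1736765090462693326848)) (T.h (P (nat_lit 0)) (P (nat_lit 315447786405888)))))) (T.h (P (nat_lit 0)) (T.h (T.h (P (nat_lit 4218958299614159044608)) (T.h (P (nat_lit 0)) (M (nat_lit 2168266134061055)))) (T.h (P (nat_lit 0)) (M (nat_lit 5663748413521919)))))) (T.h (T.h (P (nat_lit 0)) (T.h (T.h (P (nat_lit 0)) (P (nat_lit 6320300481474199552))) (P (nat_lit 0)))) (T.h (T.h (T.h (M (nat_lit 873530666480291545087)) (T.h (P (nat_lit 0)) (M (nat_lit 699409081171967)))) (T.h (P (nat_lit 0)) (P (nat_lit 1692325956550656)))) (T.h (P (nat_lit 0)) (M (nat_lit 252540465315839))))))), (T.h (T.h (P (nat_lit 0)) (T.h (T.h (M (nat_lit 4932787182799620835601547263)) (T.h (P (nat_lit 0)) (M (nat_lit 19024528249610334896127)))) (T.h (P (nat_lit 0)) (M (nat_lit 22683376998001198235647)))))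 (T.h (T.h (T.h (P (nat_lit 0)) (T.h (P (nat_lit 469854802530439322927104)) (T.h (P (nat_lit 0)) (M (nat_lit 1902139663028584447))))) (T.h (P (nat_lit 0)) (T.h (T.h (P (nat_lit 0)) (M (nat_lit 2405820120166301695))) (P (nat_lit 0))))) (T.h (T.h (P (nat_lit 0)) (M (nat_lit 19024528249610334896127))) (T.h (T.h (T.h (P (nat_lit 0)) (M (nat_lit 1902139663028584447))) (P (nat_lit 0))) (P (nat_lit 0)))))), (T.h (T.h (T.h (P (nat_lit 0)) (M (nat_lit 471536197744369659130413055))) (T.h (P (nat_lit 0)) (T.h (T.h (P (nat_lit 0)) (M (nat_lit 7121757884211567525887))) (P (nat_lit 0))))) (T.h (T.h (P (nat_lit 0)) (T.h (T.h (P (nat_lit 1514619882854388970029056)) (T.h (P (nat_lit 0)) (M (nat_lit 5888628940288819199)))) (T.h (P (nat_lit 0)) (P (nat_lit 7732904500595261440))))) (T.h (T.h (T.h (P (nat_lit 0)) (M (nat_lit 391678135183836446719))) (P (nat_lit 0))) (T.h (T.h (P (nat_lit 0)) (M (nat_lit 1155294519671914495))) (P (nat_lit 0)))))), (M (nat_lit 4410501400340933843783516159999)),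 (P (nat_lit 0)), (P (nat_lit 0))]
def lP11_14 : List (T ℤ) := [(T.h (T.h (T.h (P (nat_lit 96674775480032858528316129280)) (T.h (P (nat_lit 0)) (T.h (M (nat_lit 1539936402037090780446719)) (T.h (P (nat_lit 0)) (M (nat_lit 86536408218468351)))))) (T.h (P (nat_lit 0)) (T.h (T.h (M (nat_lit 817570893295480970674175)) (T.h (P (nat_lit 0)) (P (nat_lit 712178620038119424)))) (T.h (P (nat_lit 0)) (M (nat_lit 692532370447794175)))))) (T.h (T.h (P (nat_lit 0)) (T.h (T.h (P (nat_lit 0)) (T.h (M (nat_lit 2618989352391739965439)) (T.h (P (nat_lit 0)) (M (nat_lit 294768566599679))))) (T.h (P (nat_lit 0)) (T.h (T.h (P (nat_lit 0)) (M (nat_lit 129461949038591))) (P (nat_lit 0)))))) (T.h (T.h (T.h (M (nat_lit 817570893295480970674175)) (T.h (P (nat_lit 0)) (P (nat_lit 712178620038119424)))) (T.h (P (nat_lit 0)) (P (nat_lit 3310063201005076480)))) (T.h (T.h (P (nat_lit 0)) (T.h (T.h (P (nat_lit 0)) (M (nat_lit 129461949038591))) (P (nat_lit 0)))) (M (nat_lit 692532370447794175)))))),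 (T.h (T.h (T.h (P (nat_lit 0)) (P (nat_lit 1261515900548784767341953024))) (T.h (P (nat_lit 0)) (T.h (T.h (P (nat_lit 0)) (T.h (P (nat_lit 392193281945094848512)) (T.h (P (nat_lit 0)) (M (nat_lit 1046618715029503))))) (T.h (P (nat_lit 0)) (T.h (T.h (P (nat_lit 0)) (P (nat_lit 432490456875008))) (P (nat_lit 0))))))) (T.h (T.h (P (nat_lit 0)) (T.h (P (nat_lit 1072738038739656689844224)) (T.h (P (nat_lit 0)) (M (nat_lit 107204109748142079))))) (T.h (T.h (T.h (P (nat_lit 0)) (T.h (M (nat_lit 392193281945094848511)) (T.h (P (nat_lit 0)) (P (nat_lit 1046618715029504))))) (T.h (P (nat_lit 0)) (T.h (T.h (P (nat_lit 0)) (M (nat_lit 10794187433312255))) (P (nat_lit 0))))) (T.h (T.h (P (nat_lit 0)) (P (nat_lit 107204109748142080))) (T.h (T.h (T.h (P (nat_lit 0)) (M (nat_lit 432490456875007))) (P (nat_lit 0))) (P (nat_lit 0))))))), (T.h (T.h (T.h (P (nat_lit 5102271648357133609590386065408)) (T.h (P (nat_lit 0)) (T.h (P (nat_lit 641291079997538122596352)) (T.h (P (nat_lit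 0)) (P (nat_lit 1509074362290929664)))))) (T.h (P (nat_lit 0)) (T.h (T.h (P (nat_lit 527913047198678619521024)) (T.h (P (nat_lit 0)) (P (nat_lit 992840272415031296)))) (T.h (P (nat_lit 0)) (P (nat_lit 553912465654546432)))))) (T.h (T.h (P (nat_lit 0)) (T.h (T.h (P (nat_lit 0)) (P (nat_lit 5233297634083781738496))) (P (nat_lit 0)))) (T.h (T.h (T.h (P (nat_lit 527913047198678619521024)) (T.h (P (nat_lit 0)) (P (nat_lit 992840272415031296)))) (T.h (P (nat_lit 0)) (M (nat_lit 2382062302410047487)))) (T.h (P (nat_lit 0)) (P (nat_lit 553912465654546432)))))), (T.h (T.h (T.h (P (nat_lit 0)) (M (nat_lit 1261515900548784767341953023))) (P (nat_lit 0))) (T.h (T.h (P (nat_lit 0)) (M (nat_lit 1072738038739656689844223))) (T.h (T.h (P (nat_lit 0)) (T.h (P (nat_lit 0)) (T.h (T.h (P (nat_lit 0)) (P (nat_lit 10794187433312256))) (P (nat_lit 0))))) (P (nat_lit 0))))), (T.h (P (nat_lit 0)) (T.h (P (nat_lit 0)) (T.h (T.h (P (nat_lit 0)) (T.h (P (nat_lit 0)) (M (nat_lit 3684415977237250047))))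 (P (nat_lit 0))))), (P (nat_lit 0)), (P (nat_lit 0)), (T.h (T.h (P (nat_lit 0)) (T.h (T.h (P (nat_lit 0)) (T.h (M (nat_lit 9930660340720679142817791)) (T.h (P (nat_lit 0)) (P (nat_lit 5817303471073787904))))) (T.h (P (nat_lit 0)) (T.h (T.h (P (nat_lit 0)) (P (nat_lit 4498897606964936704))) (P (nat_lit 0)))))) (T.h (T.h (T.h (P (nat_lit 2874759264551899117903675392)) (T.h (P (nat_lit 0)) (T.h (P (nat_lit 7643476739830000386048)) (T.h (P (nat_lit 0)) (M (nat_lit 5476709220483071)))))) (T.h (P (nat_lit 0)) (T.h (T.h (P (nat_lit 1940289171074890858496)) (T.h (P (nat_lit 0)) (M (nat_lit 2788580132061183)))) (T.h (P (nat_lit 0)) (M (nat_lit 1082473110175743)))))) (T.h (T.h (P (nat_lit 0)) (T.h (T.h (P (nat_lit 0)) (M (nat_lit 717555307059871743))) (P (nat_lit 0)))) (T.h (T.h (T.h (M (nat_lit 738474885769798352895)) (T.h (P (nat_lit 0)) (P (nat_lit 4065623452418048)))) (T.h (P (nat_lit 0)) (P (nat_lit 622586800177152)))) (T.h (P (nat_lit 0)) (M (nat_lit 853826605940735)))))))]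
def lP11_15 : List (T ℤ) := [(T.h (T.h (P (nat_lit 0)) (T.h (T.h (P (nat_lit 45916236550121450560957710336)) (T.h (P (nat_lit 0)) (T.h (M (nat_lit 10119872893221028757503)) (T.h (P (nat_lit 0)) (P (nat_lit 10364734460231680)))))) (T.h (P (nat_lit 0)) (T.h (T.h (P (nat_lit 3433965189034995089408)) (T.h (P (nat_lit 0)) (M (nat_lit 14802336251543551)))) (T.h (P (nat_lit 0)) (P (nat_lit 1212198057312256))))))) (T.h (T.h (T.h (P (nat_lit 0)) (T.h (P (nat_lit 5102654353536485708267520)) (T.h (P (nat_lit 0)) (P (nat_lit 1897946477464911872))))) (T.h (P (nat_lit 0)) (T.h (T.h (P (nat_lit 0)) (P (nat_lit 3967610635230904320))) (P (nat_lit 0))))) (T.h (T.h (P (nat_lit 0)) (T.h (T.h (P (nat_lit 8906486331046721748992)) (T.h (P (nat_lit 0)) (M (nat_lit 1345932322734079)))) (T.h (P (nat_lit 0)) (P (nat_lit 3152084747943936))))) (T.h (T.h (T.h (P (nat_lit 0)) (P (nat_lit 9404284322610937856))) (P (nat_lit 0))) (T.h (T.h (P (nat_lit 0)) (M (nat_lit 2253510903529471))) (P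 (nat_lit 0))))))), (T.h (T.h (P (nat_lit 0)) (T.h (T.h (P (nat_lit 0)) (T.h (P (nat_lit 13061859408740106582884352)) (T.h (P (nat_lit 0)) (M (nat_lit 14183074911253168127))))) (T.h (P (nat_lit 0)) (T.h (T.h (P (nat_lit 0)) (P (nat_lit 1793701663668699136))) (P (nat_lit 0)))))) (T.h (T.h (T.h (M (nat_lit 3383368649401081921863155711)) (T.h (P (nat_lit 0)) (T.h (M (nat_lit 3020588307875476013055)) (T.h (P (nat_lit 0)) (P (nat_lit 9250554945142784)))))) (T.h (P (nat_lit 0)) (T.h (T.h (P (nat_lit 4897606766501107335168)) (T.h (P (nat_lit 0)) (M (nat_lit 8840244534575103)))) (T.h (P (nat_lit 0)) (M (nat_lit 109270719660031)))))) (T.h (T.h (P (nat_lit 0)) (T.h (T.h (P (nat_lit 0)) (P (nat_lit 8043047937598554112))) (P (nat_lit 0)))) (T.h (T.h (T.h (P (nat_lit 1449144204392583397376)) (T.h (P (nat_lit 0)) (M (nat_lit 4362756073783295)))) (T.h (P (nat_lit 0)) (M (nat_lit 237439028822015)))) (T.h (P (nat_lit 0)) (P (nat_lit 969414783074304))))))), (T.h (T.h (P (nat_lit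 0)) (T.h (T.h (M (nat_lit 47638697680888985569739145215)) (T.h (P (nat_lit 0)) (T.h (P (nat_lit 4218958299614159044608)) (T.h (P (nat_lit 0)) (M (nat_lit 5663748413521919)))))) (T.h (P (nat_lit 0)) (T.h (T.h (M (nat_lit 873530666480291545087)) (T.h (P (nat_lit 0)) (P (nat_lit 1692325956550656)))) (T.h (P (nat_lit 0)) (M (nat_lit 252540465315839))))))) (T.h (T.h (T.h (P (nat_lit 0)) (T.h (P (nat_lit 4891702662024706926837760)) (T.h (P (nat_lit 0)) (M (nat_lit 3870950617715310591))))) (T.h (P (nat_lit 0)) (T.h (T.h (P (nat_lit 0)) (P (nat_lit 6320300481474199552))) (P (nat_lit 0))))) (T.h (T.h (P (nat_lit 0)) (T.h (T.h (P (nat_lit 1736765090462693326848)) (T.h (P (nat_lit 0)) (M (nat_lit 2168266134061055)))) (T.h (P (nat_lit 0)) (M (nat_lit 699409081171967))))) (T.h (T.h (T.h (P (nat_lit 0)) (P (nat_lit 2552835554030911488))) (P (nat_lit 0))) (T.h (T.h (P (nat_lit 0)) (P (nat_lit 315447786405888))) (P (nat_lit 0))))))), (T.h (T.h (P (nat_lit 0)) (T.h (T.h (P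 (nat_lit 0)) (T.h (P (nat_lit 1514619882854388970029056)) (T.h (P (nat_lit 0)) (P (nat_lit 7732904500595261440))))) (T.h (P (nat_lit 0)) (T.h (T.h (P (nat_lit 0)) (M (nat_lit 1155294519671914495))) (P (nat_lit 0)))))) (T.h (T.h (T.h (M (nat_lit 471536197744369659130413055)) (T.h (P (nat_lit 0)) (M (nat_lit 7121757884211567525887)))) (T.h (P (nat_lit 0)) (M (nat_lit 391678135183836446719)))) (T.h (T.h (P (nat_lit 0)) (T.h (T.h (P (nat_lit 0)) (M (nat_lit 5888628940288819199))) (P (nat_lit 0)))) (P (nat_lit 0))))), (P (nat_lit 0)), (P (nat_lit 0)), (T.h (T.h (T.h (M (nat_lit 921945870619775139040431439871)) (T.h (P (nat_lit 0)) (T.h (M (nat_lit 4058182707498057199517695)) (T.h (P (nat_lit 0)) (M (nat_lit 3052866395592196095)))))) (T.h (P (nat_lit 0)) (T.h (T.h (M (nat_lit 2029091353749028599758847)) (T.h (P (nat_lit 0)) (P (nat_lit 6989403689089761280)))) (T.h (P (nat_lit 0)) (M (nat_lit 1526433197796098047)))))) (T.h (T.h (P (nat_lit 0)) (T.h (T.h (P (nat_lit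 0)) (T.h (M (nat_lit 76511672580775121780735)) (T.h (P (nat_lit 0)) (M (nat_lit 30534897457037311))))) (T.h (P (nat_lit 0)) (T.h (T.h (P (nat_lit 0)) (M (nat_lit 29613988579311615))) (P (nat_lit 0)))))) (T.h (T.h (T.h (M (nat_lit 2029091353749028599758847)) (T.h (P (nat_lit 0)) (P (nat_lit 6989403689089761280)))) (T.h (P (nat_lit 0)) (P (nat_lit 5997379965589389312)))) (T.h (T.h (P (nat_lit 0)) (T.h (T.h (P (nat_lit 0)) (M (nat_lit 29613988579311615))) (P (nat_lit 0)))) (M (nat_lit 1526433197796098047)))))), (T.h (T.h (T.h (P (nat_lit 0)) (T.h (M (nat_lit 13653919495533865747815071743)) (T.h (P (nat_lit 0)) (T.h (P (nat_lit 16367782335599203057664)) (T.h (P (nat_lit 0)) (M (nat_lit 7166274151972863))))))) (T.h (P (nat_lit 0)) (T.h (T.h (P (nat_lit 0)) (T.h (M (nat_lit 16413191610572979830783)) (T.h (P (nat_lit 0)) (M (nat_lit 11552690605359103))))) (T.h (P (nat_lit 0)) (T.h (T.h (P (nat_lit 0)) (M (nat_lit 13325113241370623))) (P (nat_lit 0))))))) (T.h (T.h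 (P (nat_lit 0)) (T.h (T.h (P (nat_lit 40273937558713864797814784)) (T.h (P (nat_lit 0)) (P (nat_lit 13804964358679166976)))) (T.h (P (nat_lit 0)) (M (nat_lit 1258272188461481983))))) (T.h (T.h (T.h (P (nat_lit 0)) (T.h (M (nat_lit 16413191610572979830783)) (T.h (P (nat_lit 0)) (M (nat_lit 11552690605359103))))) (T.h (P (nat_lit 0)) (T.h (T.h (P (nat_lit 0)) (P (nat_lit 39601038277935104))) (P (nat_lit 0))))) (T.h (T.h (P (nat_lit 0)) (M (nat_lit 1258272188461481983))) (T.h (T.h (T.h (P (nat_lit 0)) (M (nat_lit 13325113241370623))) (P (nat_lit 0))) (P (nat_lit 0)))))))]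
def lP11_16 : List (T ℤ) := [(T.h (T.h (T.h (M (nat_lit 676723428360230009698212904959)) (T.h (P (nat_lit 0)) (T.h (M (nat_lit 5207353017608279399858175)) (T.h (P (nat_lit 0)) (P (nat_lit 636459613759209472)))))) (T.h (P (nat_lit 0)) (T.h (T.h (P (nat_lit 4633383109431362544730112)) (T.h (P (nat_lit 0)) (P (nat_lit 14773822300767649792)))) (T.h (P (nat_lit 0)) (P (nat_lit 3907763596238520320)))))) (T.h (T.h (P (nat_lit 0)) (T.h (T.h (P (nat_lit 0)) (T.h (P (nat_lit 89263618010904308744192)) (T.h (P (nat_lit 0)) (P (nat_lit 42315549859774464))))) (T.h (P (nat_lit 0)) (T.h (T.h (P (nat_lit 0)) (P (nat_lit 17643863469195264))) (P (nat_lit 0)))))) (T.h (T.h (T.h (P (nat_lit 4633383109431362544730112)) (T.h (P (nat_lit 0)) (P (nat_lit 14773822300767649792)))) (T.h (P (nat_lit 0)) (M (nat_lit 16679807989233745919)))) (T.h (T.h (P (nat_lit 0)) (T.h (T.h (P (nat_lit 0)) (P (nat_lit 17643863469195264))) (P (nat_lit 0)))) (P (nat_lit 3907763596238520320)))))), (T.h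 (T.h (T.h (P (nat_lit 0)) (T.h (M (nat_lit 7471889399952580583752728575)) (T.h (P (nat_lit 0)) (T.h (M (nat_lit 12796608446769982865407)) (T.h (P (nat_lit 0)) (P (nat_lit 9290102656204800))))))) (T.h (P (nat_lit 0)) (T.h (T.h (P (nat_lit 0)) (T.h (P (nat_lit 1334947817324535611392)) (T.h (P (nat_lit 0)) (P (nat_lit 18813161504833536))))) (T.h (P (nat_lit 0)) (T.h (T.h (P (nat_lit 0)) (M (nat_lit 719992422137855))) (P (nat_lit 0))))))) (T.h (T.h (P (nat_lit 0)) (T.h (T.h (M (nat_lit 26283311251675875951771647)) (T.h (P (nat_lit 0)) (P (nat_lit 1397998058070867968)))) (T.h (P (nat_lit 0)) (M (nat_lit 4318398705368563711))))) (T.h (T.h (T.h (P (nat_lit 0)) (T.h (P (nat_lit 1334947817324535611392)) (T.h (P (nat_lit 0)) (P (nat_lit 18813161504833536))))) (P (nat_lit 0))) (T.h (T.h (P (nat_lit 0)) (M (nat_lit 4318398705368563711))) (T.h (T.h (T.h (P (nat_lit 0)) (M (nat_lit 719992422137855))) (P (nat_lit 0))) (P (nat_lit 0))))))), (T.h (T.h (T.h (P (nat_lit 29713145437356803359968694632448))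 (T.h (P (nat_lit 0)) (T.h (P (nat_lit 18287189008131796936687616)) (T.h (P (nat_lit 0)) (M (nat_lit 11988656282958561279)))))) (T.h (P (nat_lit 0)) (T.h (T.h (P (nat_lit 284254267386096458399744)) (T.h (P (nat_lit 0)) (M (nat_lit 20257517653364572159)))) (T.h (P (nat_lit 0)) (P (nat_lit 569086963135545344)))))) (T.h (T.h (P (nat_lit 0)) (T.h (T.h (P (nat_lit 0)) (M (nat_lit 20813371980176888430591))) (P (nat_lit 0)))) (T.h (T.h (T.h (P (nat_lit 284254267386096458399744)) (T.h (P (nat_lit 0)) (M (nat_lit 20257517653364572159)))) (T.h (P (nat_lit 0)) (P (nat_lit 1432389798240190464)))) (T.h (P (nat_lit 0)) (P (nat_lit 569086963135545344)))))), (P (nat_lit 0)), (T.h (T.h (P (nat_lit 0)) (T.h (T.h (P (nat_lit 0)) (T.h (P (nat_lit 54572585774336806651691008)) (T.h (P (nat_lit 0)) (P (nat_lit 5293943861272379392))))) (T.h (P (nat_lit 0)) (T.h (T.h (P (nat_lit 0)) (P (nat_lit 6612349725381230592))) (P (nat_lit 0)))))) (T.h (T.h (T.h (P (nat_lit 2874759264551899117903675392))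 (T.h (P (nat_lit 0)) (T.h (M (nat_lit 2082999205280681558015)) (T.h (P (nat_lit 0)) (M (nat_lit 6205664965296127)))))) (T.h (P (nat_lit 0)) (T.h (T.h (P (nat_lit 3620188363474427969536)) (T.h (P (nat_lit 0)) (M (nat_lit 11033995076370431)))) (T.h (P (nat_lit 0)) (M (nat_lit 10599901075603455)))))) (T.h (T.h (P (nat_lit 0)) (T.h (T.h (P (nat_lit 0)) (P (nat_lit 12221078150284574720))) (P (nat_lit 0)))) (T.h (T.h (T.h (M (nat_lit 738474885769798352895)) (T.h (P (nat_lit 0)) (P (nat_lit 18368655028584448)))) (T.h (P (nat_lit 0)) (P (nat_lit 21811691680825344)))) (T.h (P (nat_lit 0)) (M (nat_lit 1809309545398271))))))), (T.h (T.h (P (nat_lit 0)) (T.h (T.h (M (nat_lit 45530204497593354604672712703)) (T.h (P (nat_lit 0)) (T.h (P (nat_lit 34056443364783071166464)) (T.h (P (nat_lit 0)) (M (nat_lit 11241314651963391)))))) (T.h (P (nat_lit 0)) (T.h (T.h (P (nat_lit 15541576339527762444288)) (T.h (P (nat_lit 0)) (M (nat_lit 8571855325462527)))) (T.h (P (nat_lit 0))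 (M (nat_lit 4181364614987775))))))) (T.h (T.h (T.h (P (nat_lit 0)) (T.h (P (nat_lit 8036464554509141238874112)) (T.h (P (nat_lit 0)) (P (nat_lit 14159163420439478272))))) (T.h (P (nat_lit 0)) (T.h (T.h (P (nat_lit 0)) (M (nat_lit 11296943196984049663))) (P (nat_lit 0))))) (T.h (T.h (P (nat_lit 0)) (T.h (T.h (P (nat_lit 10184816992823652909056)) (T.h (P (nat_lit 0)) (P (nat_lit 6187769831260160)))) (T.h (P (nat_lit 0)) (P (nat_lit 10182493639999488))))) (T.h (T.h (T.h (P (nat_lit 0)) (P (nat_lit 11004310803087097856))) (P (nat_lit 0))) (T.h (T.h (P (nat_lit 0)) (P (nat_lit 2226477955907584))) (P (nat_lit 0))))))), (T.h (T.h (P (nat_lit 0)) (T.h (T.h (P (nat_lit 0)) (T.h (M (nat_lit 54803303390814345468313599)) (T.h (P (nat_lit 0)) (M (nat_lit 11041718854697877503))))) (T.h (P (nat_lit 0)) (T.h (T.h (P (nat_lit 0)) (M (nat_lit 11733839889953718271))) (P (nat_lit 0)))))) (T.h (T.h (T.h (M (nat_lit 11006444473952153644310724607)) (T.h (P (nat_lit 0)) (T.h (P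 (nat_lit 36160025877435975204864)) (T.h (P (nat_lit 0)) (P (nat_lit 27148498310004736)))))) (T.h (P (nat_lit 0)) (T.h (T.h (M (nat_lit 2713479045495478288383)) (T.h (P (nat_lit 0)) (P (nat_lit 60336823190224896)))) (T.h (P (nat_lit 0)) (P (nat_lit 13080826245939200)))))) (T.h (T.h (P (nat_lit 0)) (T.h (T.h (P (nat_lit 0)) (M (nat_lit 9232310398789615615))) (P (nat_lit 0)))) (T.h (T.h (T.h (P (nat_lit 16493368516340382433280)) (T.h (P (nat_lit 0)) (M (nat_lit 5084552673492991)))) (T.h (P (nat_lit 0)) (M (nat_lit 18815821307838463)))) (T.h (P (nat_lit 0)) (P (nat_lit 2632256490307584))))))), (T.h (T.h (P (nat_lit 0)) (T.h (T.h (M (nat_lit 70690757678798787449391677439)) (T.h (P (nat_lit 0)) (T.h (M (nat_lit 22596061560819215761407)) (T.h (P (nat_lit 0)) (M (nat_lit 1177318572294143)))))) (T.h (P (nat_lit 0)) (T.h (T.h (M (nat_lit 7787362356475046395903)) (T.h (P (nat_lit 0)) (P (nat_lit 24297318949847040)))) (T.h (P (nat_lit 0)) (M (nat_lit 1904788133904383)))))))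 (T.h (T.h (T.h (P (nat_lit 0)) (T.h (P (nat_lit 10837325089760501435465728)) (T.h (P (nat_lit 0)) (P (nat_lit 18767264093181050880))))) (T.h (P (nat_lit 0)) (T.h (T.h (P (nat_lit 0)) (M (nat_lit 57234515501793673215))) (P (nat_lit 0))))) (T.h (T.h (P (nat_lit 0)) (T.h (T.h (P (nat_lit 5240951608303125790720)) (T.h (P (nat_lit 0)) (P (nat_lit 4222073898663936)))) (T.h (P (nat_lit 0)) (M (nat_lit 4922304214794239))))) (T.h (T.h (T.h (P (nat_lit 0)) (P (nat_lit 23476878950912753664))) (P (nat_lit 0))) (T.h (T.h (P (nat_lit 0)) (P (nat_lit 1508883410780160))) (P (nat_lit 0)))))))]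
def lP11_17 : List (T ℤ) := [(T.h (T.h (P (nat_lit 0)) (T.h (T.h (P (nat_lit 0)) (T.h (P (nat_lit 30515205083625810267471872)) (T.h (P (nat_lit 0)) (M (nat_lit 13024428012773310463))))) (T.h (P (nat_lit 0)) (T.h (T.h (P (nat_lit 0)) (M (nat_lit 17552851634139168767))) (P (nat_lit 0)))))) (T.h (T.h (T.h (M (nat_lit 4128095417609799227320303615)) (T.h (P (nat_lit 0)) (M (nat_lit 89093646853074963136511)))) (T.h (P (nat_lit 0)) (P (nat_lit 772023265095726399488)))) (T.h (T.h (P (nat_lit 0)) (T.h (T.h (P (nat_lit 0)) (M (nat_lit 8729003769028673535))) (P (nat_lit 0)))) (M (nat_lit 11607120330576317382655))))), (T.h (T.h (T.h (M (nat_lit 364298159829854710991899590655)) (T.h (P (nat_lit 0)) (T.h (M (nat_lit 817570893295480970674175)) (T.h (P (nat_lit 0)) (M (nat_lit 692532370447794175)))))) (T.h (P (nat_lit 0)) (T.h (T.h (M (nat_lit 3569027755786119380205567)) (T.h (P (nat_lit 0)) (P (nat_lit 3710868602832814080)))) (T.h (P (nat_lit 0)) (M (nat_lit 1612969606014566399))))))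 (T.h (T.h (P (nat_lit 0)) (T.h (T.h (P (nat_lit 0)) (T.h (M (nat_lit 40874825642779300855807)) (T.h (P (nat_lit 0)) (M (nat_lit 14476001799831551))))) (T.h (P (nat_lit 0)) (T.h (T.h (P (nat_lit 0)) (M (nat_lit 15562217295118335))) (P (nat_lit 0)))))) (T.h (T.h (T.h (M (nat_lit 2846662247044509570433023)) (T.h (P (nat_lit 0)) (P (nat_lit 6308753183799771136)))) (T.h (P (nat_lit 0)) (P (nat_lit 4702892326333186048)))) (T.h (T.h (P (nat_lit 0)) (T.h (T.h (P (nat_lit 0)) (M (nat_lit 15396910677557247))) (P (nat_lit 0)))) (M (nat_lit 2218965568243892223)))))), (T.h (T.h (T.h (P (nat_lit 0)) (T.h (P (nat_lit 16932207078975800452117954560)) (T.h (P (nat_lit 0)) (T.h (P (nat_lit 3458675420943098052608)) (T.h (P (nat_lit 0)) (P (nat_lit 3161425102864384))))))) (T.h (P (nat_lit 0)) (T.h (T.h (P (nat_lit 0)) (T.h (P (nat_lit 44465585472532943732736)) (T.h (P (nat_lit 0)) (M (nat_lit 24782412154798079))))) (T.h (P (nat_lit 0)) (T.h (T.h (P (nat_lit 0)) (M (nat_lit 576546173845503)))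 (P (nat_lit 0))))))) (T.h (T.h (P (nat_lit 0)) (T.h (T.h (M (nat_lit 21329726924007280998350847)) (T.h (P (nat_lit 0)) (P (nat_lit 21968178430628331520)))) (T.h (P (nat_lit 0)) (M (nat_lit 4226509474308816895))))) (T.h (T.h (T.h (P (nat_lit 0)) (T.h (P (nat_lit 5323332165170521702400)) (T.h (P (nat_lit 0)) (P (nat_lit 2596806975324160))))) (T.h (P (nat_lit 0)) (T.h (T.h (P (nat_lit 0)) (P (nat_lit 16352949644099584))) (P (nat_lit 0))))) (T.h (T.h (P (nat_lit 0)) (M (nat_lit 8164621384287256575))) (T.h (T.h (T.h (P (nat_lit 0)) (P (nat_lit 4440460525240320))) (P (nat_lit 0))) (P (nat_lit 0))))))), (T.h (T.h (T.h (P (nat_lit 29656857511185159458979919691776)) (T.h (P (nat_lit 0)) (T.h (M (nat_lit 7692531527963487454101503)) (T.h (P (nat_lit 0)) (P (nat_lit 7302961216668827648)))))) (T.h (P (nat_lit 0)) (T.h (T.h (M (nat_lit 14929591146198989698760703)) (T.h (P (nat_lit 0)) (M (nat_lit 40577967166320541695)))) (T.h (P (nat_lit 0)) (P (nat_lit 2890176459857461248))))))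 (T.h (T.h (P (nat_lit 0)) (T.h (T.h (P (nat_lit 0)) (T.h (P (nat_lit 151182173365017801392128)) (T.h (P (nat_lit 0)) (P (nat_lit 96419566634926080))))) (T.h (P (nat_lit 0)) (T.h (T.h (P (nat_lit 0)) (P (nat_lit 114145547448418304))) (P (nat_lit 0)))))) (T.h (T.h (T.h (M (nat_lit 12325914637394849998831615)) (T.h (P (nat_lit 0)) (M (nat_lit 56500856715288248319)))) (T.h (P (nat_lit 0)) (M (nat_lit 40970115974254559231)))) (T.h (T.h (P (nat_lit 0)) (T.h (T.h (P (nat_lit 0)) (P (nat_lit 107199841871331328))) (P (nat_lit 0)))) (P (nat_lit 1748695685525405696)))))), (T.h (T.h (T.h (P (nat_lit 0)) (T.h (P (nat_lit 3156091554544223469915078656)) (T.h (P (nat_lit 0)) (T.h (M (nat_lit 24679848752548419731455)) (T.h (P (nat_lit 0)) (P (nat_lit 7973600012795904))))))) (T.h (P (nat_lit 0)) (T.h (T.h (P (nat_lit 0)) (T.h (M (nat_lit 22308869870762275635199)) (T.h (P (nat_lit 0)) (P (nat_lit 11853030064324608))))) (T.h (P (nat_lit 0)) (T.h (T.h (P (nat_lit 0)) (P (nat_lit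 11405719226744832))) (P (nat_lit 0))))))) (T.h (T.h (P (nat_lit 0)) (T.h (T.h (M (nat_lit 24470972264039276164939775)) (T.h (P (nat_lit 0)) (P (nat_lit 7373424597095415808)))) (T.h (P (nat_lit 0)) (M (nat_lit 18992015584587153407))))) (T.h (T.h (T.h (P (nat_lit 0)) (T.h (M (nat_lit 5147017129263873654783)) (T.h (P (nat_lit 0)) (P (nat_lit 5443377942626304))))) (T.h (P (nat_lit 0)) (T.h (T.h (P (nat_lit 0)) (P (nat_lit 24260704018366464))) (P (nat_lit 0))))) (T.h (T.h (P (nat_lit 0)) (M (nat_lit 3424421795334193151))) (T.h (T.h (T.h (P (nat_lit 0)) (P (nat_lit 9944906357145600))) (P (nat_lit 0))) (P (nat_lit 0))))))), (T.h (T.h (T.h (P (nat_lit 52495719643654334375004074934272)) (T.h (P (nat_lit 0)) (T.h (P (nat_lit 48752009253523067412414464)) (T.h (P (nat_lit 0)) (M (nat_lit 12724093836410748927)))))) (T.h (P (nat_lit 0)) (T.h (T.h (P (nat_lit 29753025960619693672759296)) (T.h (P (nat_lit 0)) (M (nat_lit 21307435674482245631)))) (T.h (P (nat_lit 0)) (M (nat_lit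 1575502704493461503)))))) (T.h (T.h (P (nat_lit 0)) (T.h (T.h (P (nat_lit 0)) (M (nat_lit 90367155626949247762431))) (P (nat_lit 0)))) (T.h (T.h (T.h (P (nat_lit 26125803118290657343438848)) (T.h (P (nat_lit 0)) (M (nat_lit 24848436162335866879)))) (T.h (P (nat_lit 0)) (P (nat_lit 2283580300644581376)))) (T.h (P (nat_lit 0)) (M (nat_lit 301860689679482879)))))), (T.h (T.h (P (nat_lit 0)) (T.h (T.h (P (nat_lit 2469837008222561632381829120)) (T.h (P (nat_lit 0)) (T.h (P (nat_lit 1442787282259084836864)) (T.h (P (nat_lit 0)) (P (nat_lit 2231092518944768)))))) (T.h (P (nat_lit 0)) (T.h (T.h (P (nat_lit 13023785487600711630848)) (T.h (P (nat_lit 0)) (M (nat_lit 24746393105268735)))) (T.h (P (nat_lit 0)) (M (nat_lit 9923090742673407))))))) (T.h (T.h (T.h (P (nat_lit 0)) (T.h (P (nat_lit 15335290610414365515448320)) (T.h (P (nat_lit 0)) (P (nat_lit 8578795778330329088))))) (T.h (P (nat_lit 0)) (T.h (T.h (P (nat_lit 0)) (M (nat_lit 8134717021788045311))) (P (nat_lit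 0))))) (T.h (T.h (P (nat_lit 0)) (T.h (T.h (P (nat_lit 6668307893578234855424)) (T.h (P (nat_lit 0)) (P (nat_lit 21931943582203904)))) (T.h (P (nat_lit 0)) (M (nat_lit 9573983587958783))))) (T.h (T.h (T.h (P (nat_lit 0)) (M (nat_lit 4158563546147323903))) (P (nat_lit 0))) (T.h (T.h (P (nat_lit 0)) (M (nat_lit 3211310102577151))) (P (nat_lit 0))))))), (T.h (T.h (P (nat_lit 0)) (T.h (T.h (P (nat_lit 0)) (T.h (M (nat_lit 55420927570633091692101631)) (T.h (P (nat_lit 0)) (M (nat_lit 7002527048367341567))))) (T.h (P (nat_lit 0)) (T.h (T.h (P (nat_lit 0)) (M (nat_lit 22287182588033368063))) (P (nat_lit 0)))))) (T.h (T.h (T.h (M (nat_lit 13494300077318474029615546367)) (T.h (P (nat_lit 0)) (T.h (P (nat_lit 4462743645001862873088)) (T.h (P (nat_lit 0)) (P (nat_lit 9844603306639360)))))) (T.h (P (nat_lit 0)) (T.h (T.h (P (nat_lit 35418053493556733018112)) (T.h (P (nat_lit 0)) (P (nat_lit 39102886798753792)))) (T.h (P (nat_lit 0)) (P (nat_lit 33272101035507712))))))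 (T.h (T.h (P (nat_lit 0)) (T.h (T.h (P (nat_lit 0)) (M (nat_lit 33760611306836066303))) (P (nat_lit 0)))) (T.h (T.h (T.h (P (nat_lit 9710245323347603750912)) (T.h (P (nat_lit 0)) (M (nat_lit 16099269648121855)))) (T.h (P (nat_lit 0)) (M (nat_lit 6493318058737663)))) (T.h (P (nat_lit 0)) (P (nat_lit 1502544164093952)))))))]
def lP11_18 : List (T ℤ) := [(T.h (T.h (P (nat_lit 0)) (T.h (T.h (P (nat_lit 48621219545383997186703884288)) (T.h (P (nat_lit 0)) (T.h (M (nat_lit 16348626763866857013247)) (T.h (P (nat_lit 0)) (P (nat_lit 12107450128269312)))))) (T.h (P (nat_lit 0)) (T.h (T.h (M (nat_lit 30123771730712355405823)) (T.h (P (nat_lit 0)) (P (nat_lit 9377507307749376)))) (T.h (P (nat_lit 0)) (P (nat_lit 12409553019076608))))))) (T.h (T.h (T.h (P (nat_lit 0)) (T.h (M (nat_lit 41315088959704011613667327)) (T.h (P (nat_lit 0)) (M (nat_lit 12828767962521403391))))) (T.h (P (nat_lit 0)) (T.h (T.h (P (nat_lit 0)) (P (nat_lit 5093460046679900160))) (P (nat_lit 0)))))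 (T.h (T.h (P (nat_lit 0)) (T.h (T.h (M (nat_lit 10144494165842351620095)) (T.h (P (nat_lit 0)) (M (nat_lit 25988288970227711)))) (T.h (P (nat_lit 0)) (P (nat_lit 19377706487906304))))) (T.h (T.h (T.h (P (nat_lit 0)) (M (nat_lit 15394832777912254463))) (P (nat_lit 0))) (T.h (T.h (P (nat_lit 0)) (P (nat_lit 9512507387019264))) (P (nat_lit 0))))))), (T.h (T.h (P (nat_lit 0)) (T.h (T.h (P (nat_lit 0)) (T.h (P (nat_lit 83834684631427891003916288)) (T.h (P (nat_lit 0)) (M (nat_lit 30400729827017490431))))) (T.h (P (nat_lit 0)) (T.h (T.h (P (nat_lit 0)) (M (nat_lit 27752676367647375359))) (P (nat_lit 0)))))) (T.h (T.h (T.h (P (nat_lit 3463890725648044259572449280)) (T.h (P (nat_lit 0)) (M (nat_lit 71073351666306629238783)))) (T.h (P (nat_lit 0)) (M (nat_lit 74242295785367124574207)))) (T.h (T.h (P (nat_lit 0)) (T.h (T.h (P (nat_lit 0)) (M (nat_lit 48643838893661093887))) (P (nat_lit 0)))) (M (nat_lit 30411850701089265418239))))), (T.h (T.h (T.h (P (nat_lit 4763909934177018604741279612928))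 (T.h (P (nat_lit 0)) (T.h (P (nat_lit 527913047198678619521024)) (T.h (P (nat_lit 0)) (M (nat_lit 269338501797904383)))))) (T.h (P (nat_lit 0)) (T.h (T.h (M (nat_lit 1962385428806601577332735)) (T.h (P (nat_lit 0)) (P (nat_lit 8183677018831847424)))) (T.h (P (nat_lit 0)) (P (nat_lit 1827304169170534400)))))) (T.h (T.h (P (nat_lit 0)) (T.h (T.h (P (nat_lit 0)) (T.h (P (nat_lit 49865106639535936110592)) (T.h (P (nat_lit 0)) (P (nat_lit 14212069352800256))))) (T.h (P (nat_lit 0)) (T.h (T.h (P (nat_lit 0)) (P (nat_lit 21157774929887232))) (P (nat_lit 0)))))) (T.h (T.h (T.h (P (nat_lit 5161296156630041164251136)) (T.h (P (nat_lit 0)) (M (nat_lit 10721966297026920447)))) (T.h (P (nat_lit 0)) (P (nat_lit 8575825826765864960)))) (T.h (T.h (P (nat_lit 0)) (T.h (T.h (P (nat_lit 0)) (P (nat_lit 3431794116395008))) (P (nat_lit 0)))) (P (nat_lit 5284927029345517568)))))), (T.h (T.h (T.h (P (nat_lit 0)) (T.h (M (nat_lit 69128382668871709010465652735)) (T.h (P (nat_lit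 0)) (T.h (M (nat_lit 7706511777734282182655)) (T.h (P (nat_lit 0)) (M (nat_lit 2366426921041919))))))) (T.h (P (nat_lit 0)) (T.h (T.h (P (nat_lit 0)) (T.h (M (nat_lit 9982267763959653203967)) (T.h (P (nat_lit 0)) (P (nat_lit 19107640987484160))))) (T.h (P (nat_lit 0)) (T.h (T.h (P (nat_lit 0)) (M (nat_lit 7076811243847679))) (P (nat_lit 0))))))) (T.h (T.h (P (nat_lit 0)) (T.h (T.h (P (nat_lit 12026566681958410889461760)) (T.h (P (nat_lit 0)) (M (nat_lit 53893178599770423295)))) (T.h (P (nat_lit 0)) (P (nat_lit 21935728042520346624))))) (T.h (T.h (T.h (P (nat_lit 0)) (T.h (M (nat_lit 1789300545487179350015)) (T.h (P (nat_lit 0)) (M (nat_lit 6094065093181439))))) (T.h (P (nat_lit 0)) (T.h (T.h (P (nat_lit 0)) (M (nat_lit 48195185223991295))) (P (nat_lit 0))))) (T.h (T.h (P (nat_lit 0)) (P (nat_lit 17501535282745311232))) (T.h (T.h (T.h (P (nat_lit 0)) (P (nat_lit 3049399808753664))) (P (nat_lit 0))) (P (nat_lit 0))))))), (T.h (T.h (T.h (P (nat_lit 39761181631921477110199364878336))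 (T.h (P (nat_lit 0)) (T.h (P (nat_lit 28412110802602111325437952)) (T.h (P (nat_lit 0)) (M (nat_lit 1027163322165755903)))))) (T.h (P (nat_lit 0)) (T.h (T.h (P (nat_lit 56700947185817893845598208)) (T.h (P (nat_lit 0)) (M (nat_lit 13458270138289618943)))) (T.h (P (nat_lit 0)) (M (nat_lit 18281093468572876799)))))) (T.h (T.h (P (nat_lit 0)) (T.h (T.h (P (nat_lit 0)) (M (nat_lit 82692488483321730301951))) (P (nat_lit 0)))) (T.h (T.h (T.h (P (nat_lit 28988882242481228408160256)) (T.h (P (nat_lit 0)) (P (nat_lit 20635119713553219584)))) (T.h (P (nat_lit 0)) (M (nat_lit 21225430812169601023)))) (T.h (P (nat_lit 0)) (M (nat_lit 680098105051316223)))))), (T.h (T.h (P (nat_lit 0)) (T.h (T.h (M (nat_lit 4997460600525075059218317311)) (T.h (P (nat_lit 0)) (T.h (P (nat_lit 3769540207674520502272)) (T.h (P (nat_lit 0)) (M (nat_lit 1657467581693951)))))) (T.h (P (nat_lit 0)) (T.h (T.h (M (nat_lit 6398304223384991432703)) (T.h (P (nat_lit 0)) (P (nat_lit 14406680342495232))))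 (T.h (P (nat_lit 0)) (P (nat_lit 4645051328102400))))))) (T.h (T.h (T.h (P (nat_lit 0)) (T.h (M (nat_lit 14214393664577594665730047)) (T.h (P (nat_lit 0)) (M (nat_lit 3442231760379707391))))) (T.h (P (nat_lit 0)) (T.h (T.h (P (nat_lit 0)) (P (nat_lit 698999029035433984))) (P (nat_lit 0))))) (T.h (T.h (P (nat_lit 0)) (T.h (T.h (M (nat_lit 2434592390349984890879)) (T.h (P (nat_lit 0)) (P (nat_lit 10794187433312256)))) (T.h (P (nat_lit 0)) (P (nat_lit 4406481162338304))))) (T.h (T.h (T.h (P (nat_lit 0)) (M (nat_lit 876166944988856319))) (P (nat_lit 0))) (T.h (T.h (P (nat_lit 0)) (P (nat_lit 937475159556096))) (P (nat_lit 0))))))), (T.h (T.h (P (nat_lit 0)) (T.h (T.h (P (nat_lit 0)) (T.h (P (nat_lit 25255045072558001097801728)) (T.h (P (nat_lit 0)) (M (nat_lit 12730065393985519615))))) (T.h (P (nat_lit 0)) (T.h (T.h (P (nat_lit 0)) (M (nat_lit 1961496211722600447))) (P (nat_lit 0)))))) (T.h (T.h (T.h (P (nat_lit 248281277082203022090567680)) (T.h (P (nat_lit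 0)) (P (nat_lit 4900683413340880371712)))) (T.h (P (nat_lit 0)) (M (nat_lit 88526122334797044908031)))) (T.h (T.h (P (nat_lit 0)) (T.h (T.h (P (nat_lit 0)) (P (nat_lit 19685679837562798080))) (P (nat_lit 0)))) (M (nat_lit 7669978220490651598847))))), (T.h (T.h (T.h (P (nat_lit 14856572718678401679984347316224)) (T.h (P (nat_lit 0)) (T.h (P (nat_lit 430512853632606770561024)) (T.h (P (nat_lit 0)) (P (nat_lit 458076090124992512)))))) (T.h (P (nat_lit 0)) (T.h (T.h (P (nat_lit 9143594504065898468343808)) (T.h (P (nat_lit 0)) (M (nat_lit 14012339163622277119)))) (T.h (P (nat_lit 0)) (M (nat_lit 5994328141479280639)))))) (T.h (T.h (P (nat_lit 0)) (T.h (T.h (P (nat_lit 0)) (M (nat_lit 10406685990088444215295))) (P (nat_lit 0)))) (T.h (T.h (T.h (M (nat_lit 146258586246510312161279)) (T.h (P (nat_lit 0)) (M (nat_lit 2968221078117154815)))) (T.h (P (nat_lit 0)) (M (nat_lit 6245178489742295039)))) (T.h (P (nat_lit 0)) (P (nat_lit 111010873010552832))))))]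
def lP11_19 : List (T ℤ) := [(P (nat_lit 0)), (P (nat_lit 0)), (T.h (T.h (P (nat_lit 0)) (T.h (T.h (P (nat_lit 2874759264551899117903675392)) (T.h (P (nat_lit 0)) (T.h (P (nat_lit 7643476739830000386048)) (T.h (P (nat_lit 0)) (M (nat_lit 5476709220483071)))))) (T.h (P (nat_lit 0)) (T.h (T.h (M (nat_lit 738474885769798352895)) (T.h (P (nat_lit 0)) (P (nat_lit 4065623452418048)))) (T.h (P (nat_lit 0)) (M (nat_lit 853826605940735))))))) (T.h (T.h (T.h (P (nat_lit 0)) (T.h (M (nat_lit 9930660340720679142817791)) (T.h (P (nat_lit 0)) (P (nat_lit 5817303471073787904))))) (T.h (P (nat_lit 0)) (T.h (T.h (P (nat_lit 0)) (M (nat_lit 717555307059871743))) (P (nat_lit 0))))) (T.h (T.h (P (nat_lit 0)) (T.h (T.h (P (nat_lit 1940289171074890858496)) (T.h (P (nat_lit 0)) (M (nat_lit 2788580132061183)))) (T.h (P (nat_lit 0)) (P (nat_lit 622586800177152))))) (T.h (T.h (T.h (P (nat_lit 0)) (P (nat_lit 4498897606964936704))) (P (nat_lit 0))) (T.h (T.h (P (nat_lit 0)) (M (nat_lit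 1082473110175743))) (P (nat_lit 0))))))), (T.h (T.h (P (nat_lit 0)) (T.h (T.h (P (nat_lit 0)) (T.h (M (nat_lit 5319889967147930443841535)) (T.h (P (nat_lit 0)) (P (nat_lit 136417751311843328))))) (T.h (P (nat_lit 0)) (T.h (T.h (P (nat_lit 0)) (M (nat_lit 3623182536559034367))) (P (nat_lit 0)))))) (T.h (T.h (T.h (P (nat_lit 47416505117441395902631641088)) (T.h (P (nat_lit 0)) (T.h (M (nat_lit 7653722122218524114943)) (T.h (P (nat_lit 0)) (P (nat_lit 5284322988097536)))))) (T.h (P (nat_lit 0)) (T.h (T.h (P (nat_lit 123502182344811347968)) (T.h (P (nat_lit 0)) (M (nat_lit 8808587969626111)))) (T.h (P (nat_lit 0)) (P (nat_lit 636707047669760)))))) (T.h (T.h (P (nat_lit 0)) (T.h (T.h (P (nat_lit 0)) (M (nat_lit 792260735148228607))) (P (nat_lit 0)))) (T.h (T.h (T.h (M (nat_lit 426404348199077675007)) (T.h (P (nat_lit 0)) (P (nat_lit 4558637779353600)))) (T.h (P (nat_lit 0)) (M (nat_lit 759253791539199)))) (T.h (P (nat_lit 0)) (M (nat_lit 197059579838463))))))),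 (T.h (T.h (P (nat_lit 0)) (T.h (T.h (M (nat_lit 3383368649401081921863155711)) (T.h (P (nat_lit 0)) (T.h (M (nat_lit 3020588307875476013055)) (T.h (P (nat_lit 0)) (P (nat_lit 9250554945142784)))))) (T.h (P (nat_lit 0)) (T.h (T.h (P (nat_lit 1449144204392583397376)) (T.h (P (nat_lit 0)) (M (nat_lit 4362756073783295)))) (T.h (P (nat_lit 0)) (P (nat_lit 969414783074304))))))) (T.h (T.h (T.h (P (nat_lit 0)) (T.h (P (nat_lit 13061859408740106582884352)) (T.h (P (nat_lit 0)) (M (nat_lit 14183074911253168127))))) (T.h (P (nat_lit 0)) (T.h (T.h (P (nat_lit 0)) (P (nat_lit 8043047937598554112))) (P (nat_lit 0))))) (T.h (T.h (P (nat_lit 0)) (T.h (T.h (P (nat_lit 4897606766501107335168)) (T.h (P (nat_lit 0)) (M (nat_lit 8840244534575103)))) (T.h (P (nat_lit 0)) (M (nat_lit 237439028822015))))) (T.h (T.h (T.h (P (nat_lit 0)) (P (nat_lit 1793701663668699136))) (P (nat_lit 0))) (T.h (T.h (P (nat_lit 0)) (M (nat_lit 109270719660031))) (P (nat_lit 0))))))), (T.h (T.h (P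 (nat_lit 0)) (T.h (T.h (P (nat_lit 0)) (T.h (P (nat_lit 4891702662024706926837760)) (T.h (P (nat_lit 0)) (M (nat_lit 3870950617715310591))))) (T.h (P (nat_lit 0)) (T.h (T.h (P (nat_lit 0)) (P (nat_lit 2552835554030911488))) (P (nat_lit 0)))))) (T.h (T.h (T.h (M (nat_lit 47638697680888985569739145215)) (T.h (P (nat_lit 0)) (T.h (P (nat_lit 4218958299614159044608)) (T.h (P (nat_lit 0)) (M (nat_lit 5663748413521919)))))) (T.h (P (nat_lit 0)) (T.h (T.h (P (nat_lit 1736765090462693326848)) (T.h (P (nat_lit 0)) (M (nat_lit 2168266134061055)))) (T.h (P (nat_lit 0)) (P (nat_lit 315447786405888)))))) (T.h (T.h (P (nat_lit 0)) (T.h (T.h (P (nat_lit 0)) (P (nat_lit 6320300481474199552))) (P (nat_lit 0)))) (T.h (T.h (T.h (M (nat_lit 873530666480291545087)) (T.h (P (nat_lit 0)) (P (nat_lit 1692325956550656)))) (T.h (P (nat_lit 0)) (M (nat_lit 699409081171967)))) (T.h (P (nat_lit 0)) (M (nat_lit 252540465315839))))))), (T.h (T.h (P (nat_lit 0)) (T.h (T.h (M (nat_lit 471536197744369659130413055))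 (T.h (P (nat_lit 0)) (M (nat_lit 7121757884211567525887)))) (P (nat_lit 0)))) (T.h (T.h (T.h (P (nat_lit 0)) (T.h (P (nat_lit 1514619882854388970029056)) (T.h (P (nat_lit 0)) (P (nat_lit 7732904500595261440))))) (T.h (P (nat_lit 0)) (T.h (T.h (P (nat_lit 0)) (M (nat_lit 5888628940288819199))) (P (nat_lit 0))))) (T.h (T.h (P (nat_lit 0)) (M (nat_lit 391678135183836446719))) (T.h (T.h (T.h (P (nat_lit 0)) (M (nat_lit 1155294519671914495))) (P (nat_lit 0))) (P (nat_lit 0)))))), (P (nat_lit 0))]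
def lP11_20 : List (T ℤ) := [(P (nat_lit 0)), (T.h (T.h (T.h (P (nat_lit 0)) (T.h (P (nat_lit 0)) (T.h (P (nat_lit 0)) (T.h (P (nat_lit 0)) (T.h (P (nat_lit 0)) (M (nat_lit 955482939457535))))))) (T.h (P (nat_lit 0)) (T.h (T.h (P (nat_lit 0)) (T.h (M (nat_lit 4023288376355572416511)) (T.h (P (nat_lit 0)) (P (nat_lit 17746068228407296))))) (T.h (P (nat_lit 0)) (T.h (T.h (P (nat_lit 0)) (M (nat_lit 5123191855120383))) (P (nat_lit 0))))))) (T.h (T.h (P (nat_lit 0)) (T.h (T.h (P (nat_lit 64503246115057485794508800)) (T.h (P (nat_lit 0)) (P (nat_lit 12938633457344446464)))) (T.h (P (nat_lit 0)) (P (nat_lit 795046254307442688))))) (T.h (T.h (T.h (P (nat_lit 0)) (T.h (M (nat_lit 4023288376355572416511)) (T.h (P (nat_lit 0)) (P (nat_lit 17746068228407296))))) (T.h (P (nat_lit 0)) (T.h (T.h (P (nat_lit 0)) (M (nat_lit 8245414944309247))) (P (nat_lit 0))))) (T.h (T.h (P (nat_lit 0)) (P (nat_lit 795046254307442688))) (T.h (T.h (T.h (P (nat_lit 0)) (M (nat_lit 5123191855120383)))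 (P (nat_lit 0))) (P (nat_lit 0))))))), (T.h (T.h (T.h (M (nat_lit 1114101153985789054301100834815)) (T.h (P (nat_lit 0)) (T.h (M (nat_lit 2557717122610336364494847)) (T.h (P (nat_lit 0)) (M (nat_lit 189303355846164479)))))) (T.h (P (nat_lit 0)) (T.h (T.h (M (nat_lit 8624081864752066983886847)) (T.h (P (nat_lit 0)) (M (nat_lit 9859842714718175231)))) (T.h (P (nat_lit 0)) (M (nat_lit 705863052360155135)))))) (T.h (T.h (P (nat_lit 0)) (T.h (T.h (P (nat_lit 0)) (T.h (M (nat_lit 30963283778458873757695)) (T.h (P (nat_lit 0)) (P (nat_lit 6433192016805888))))) (T.h (P (nat_lit 0)) (T.h (T.h (P (nat_lit 0)) (M (nat_lit 17335195603042303))) (P (nat_lit 0)))))) (T.h (T.h (T.h (P (nat_lit 7141172396579346538561536)) (T.h (P (nat_lit 0)) (M (nat_lit 61634766708328628223)))) (T.h (P (nat_lit 0)) (P (nat_lit 9741744240169320448)))) (T.h (T.h (P (nat_lit 0)) (T.h (T.h (P (nat_lit 0)) (P (nat_lit 1167571700088832))) (P (nat_lit 0)))) (P (nat_lit 4765715769944178688)))))),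 (T.h (T.h (T.h (P (nat_lit 0)) (T.h (M (nat_lit 1932805922345647315882082303)) (T.h (P (nat_lit 0)) (T.h (P (nat_lit 17669175649043166003200)) (T.h (P (nat_lit 0)) (P (nat_lit 5558297383403520))))))) (T.h (P (nat_lit 0)) (T.h (T.h (P (nat_lit 0)) (T.h (P (nat_lit 17679488136000722436096)) (T.h (P (nat_lit 0)) (M (nat_lit 5994255547105279))))) (T.h (P (nat_lit 0)) (T.h (T.h (P (nat_lit 0)) (P (nat_lit 4390270459445248))) (P (nat_lit 0))))))) (T.h (T.h (P (nat_lit 0)) (T.h (T.h (M (nat_lit 60039266405509223094943743)) (T.h (P (nat_lit 0)) (P (nat_lit 15580325017345327104)))) (T.h (P (nat_lit 0)) (P (nat_lit 309226259353698304))))) (T.h (T.h (T.h (P (nat_lit 0)) (T.h (P (nat_lit 17679488136000722436096)) (T.h (P (nat_lit 0)) (M (nat_lit 5994255547105279))))) (T.h (P (nat_lit 0)) (T.h (T.h (P (nat_lit 0)) (P (nat_lit 2683627399806976))) (P (nat_lit 0))))) (T.h (T.h (P (nat_lit 0)) (P (nat_lit 309226259353698304))) (T.h (T.h (T.h (P (nat_lit 0)) (P (nat_lit 4390270459445248)))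 (P (nat_lit 0))) (P (nat_lit 0))))))), (T.h (T.h (T.h (P (nat_lit 2141173400490522924430219280384)) (T.h (P (nat_lit 0)) (T.h (P (nat_lit 10202185739954566874529792)) (T.h (P (nat_lit 0)) (M (nat_lit 407510509886111743)))))) (T.h (P (nat_lit 0)) (T.h (T.h (P (nat_lit 2755423052078074411614208)) (T.h (P (nat_lit 0)) (P (nat_lit 38971114064168615936)))) (T.h (P (nat_lit 0)) (M (nat_lit 2013936797247078399)))))) (T.h (T.h (P (nat_lit 0)) (T.h (T.h (P (nat_lit 0)) (T.h (M (nat_lit 2245742729472155582463)) (T.h (P (nat_lit 0)) (P (nat_lit 5240455223181312))))) (T.h (P (nat_lit 0)) (T.h (T.h (P (nat_lit 0)) (P (nat_lit 5709701810749440))) (P (nat_lit 0)))))) (T.h (T.h (T.h (P (nat_lit 2755423052078074411614208)) (T.h (P (nat_lit 0)) (P (nat_lit 38971114064168615936)))) (T.h (P (nat_lit 0)) (P (nat_lit 71583197720215552)))) (T.h (T.h (P (nat_lit 0)) (T.h (T.h (P (nat_lit 0)) (P (nat_lit 5709701810749440))) (P (nat_lit 0)))) (M (nat_lit 2013936797247078399)))))),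 (T.h (T.h (T.h (P (nat_lit 0)) (T.h (M (nat_lit 4932787182799620835601547263)) (T.h (P (nat_lit 0)) (M (nat_lit 22683376998001198235647))))) (T.h (P (nat_lit 0)) (T.h (T.h (P (nat_lit 0)) (M (nat_lit 19024528249610334896127))) (P (nat_lit 0))))) (T.h (T.h (P (nat_lit 0)) (T.h (T.h (P (nat_lit 469854802530439322927104)) (T.h (P (nat_lit 0)) (M (nat_lit 2405820120166301695)))) (T.h (P (nat_lit 0)) (M (nat_lit 1902139663028584447))))) (T.h (T.h (T.h (P (nat_lit 0)) (M (nat_lit 19024528249610334896127))) (P (nat_lit 0))) (T.h (T.h (P (nat_lit 0)) (M (nat_lit 1902139663028584447))) (P (nat_lit 0)))))), (P (nat_lit 0)), (T.h (T.h (P (nat_lit 0)) (T.h (T.h (P (nat_lit 2874759264551899117903675392)) (T.h (P (nat_lit 0)) (T.h (M (nat_lit 2082999205280681558015)) (T.h (P (nat_lit 0)) (M (nat_lit 6205664965296127)))))) (T.h (P (nat_lit 0)) (T.h (T.h (M (nat_lit 738474885769798352895)) (T.h (P (nat_lit 0)) (P (nat_lit 18368655028584448)))) (T.h (P (nat_lit 0)) (M (nat_lit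 1809309545398271))))))) (T.h (T.h (T.h (P (nat_lit 0)) (T.h (P (nat_lit 54572585774336806651691008)) (T.h (P (nat_lit 0)) (P (nat_lit 5293943861272379392))))) (T.h (P (nat_lit 0)) (T.h (T.h (P (nat_lit 0)) (P (nat_lit 12221078150284574720))) (P (nat_lit 0))))) (T.h (T.h (P (nat_lit 0)) (T.h (T.h (P (nat_lit 3620188363474427969536)) (T.h (P (nat_lit 0)) (M (nat_lit 11033995076370431)))) (T.h (P (nat_lit 0)) (P (nat_lit 21811691680825344))))) (T.h (T.h (T.h (P (nat_lit 0)) (P (nat_lit 6612349725381230592))) (P (nat_lit 0))) (T.h (T.h (P (nat_lit 0)) (M (nat_lit 10599901075603455))) (P (nat_lit 0)))))))]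
def lP11_21 : List (T ℤ) := [(T.h (T.h (P (nat_lit 0)) (T.h (T.h (P (nat_lit 0)) (T.h (P (nat_lit 8036464554509141238874112)) (T.h (P (nat_lit 0)) (P (nat_lit 14159163420439478272))))) (T.h (P (nat_lit 0)) (T.h (T.h (P (nat_lit 0)) (P (nat_lit 11004310803087097856))) (P (nat_lit 0)))))) (T.h (T.h (T.h (M (nat_lit 45530204497593354604672712703)) (T.h (P (nat_lit 0)) (T.h (P (nat_lit 34056443364783071166464)) (T.h (P (nat_lit 0)) (M (nat_lit 11241314651963391)))))) (T.h (P (nat_lit 0)) (T.h (T.h (P (nat_lit 10184816992823652909056)) (T.h (P (nat_lit 0)) (P (nat_lit 6187769831260160)))) (T.h (P (nat_lit 0)) (P (nat_lit 2226477955907584)))))) (T.h (T.h (P (nat_lit 0)) (T.h (T.h (P (nat_lit 0)) (M (nat_lit 11296943196984049663))) (P (nat_lit 0)))) (T.h (T.h (T.h (P (nat_lit 15541576339527762444288)) (T.h (P (nat_lit 0)) (M (nat_lit 8571855325462527)))) (T.h (P (nat_lit 0)) (P (nat_lit 10182493639999488)))) (T.h (P (nat_lit 0)) (M (nat_lit 4181364614987775))))))),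 (T.h (T.h (P (nat_lit 0)) (T.h (T.h (M (nat_lit 11006444473952153644310724607)) (T.h (P (nat_lit 0)) (T.h (P (nat_lit 36160025877435975204864)) (T.h (P (nat_lit 0)) (P (nat_lit 27148498310004736)))))) (T.h (P (nat_lit 0)) (T.h (T.h (P (nat_lit 16493368516340382433280)) (T.h (P (nat_lit 0)) (M (nat_lit 5084552673492991)))) (T.h (P (nat_lit 0)) (P (nat_lit 2632256490307584))))))) (T.h (T.h (T.h (P (nat_lit 0)) (T.h (M (nat_lit 54803303390814345468313599)) (T.h (P (nat_lit 0)) (M (nat_lit 11041718854697877503))))) (T.h (P (nat_lit 0)) (T.h (T.h (P (nat_lit 0)) (M (nat_lit 9232310398789615615))) (P (nat_lit 0))))) (T.h (T.h (P (nat_lit 0)) (T.h (T.h (M (nat_lit 2713479045495478288383)) (T.h (P (nat_lit 0)) (P (nat_lit 60336823190224896)))) (T.h (P (nat_lit 0)) (M (nat_lit 18815821307838463))))) (T.h (T.h (T.h (P (nat_lit 0)) (M (nat_lit 11733839889953718271))) (P (nat_lit 0))) (T.h (T.h (P (nat_lit 0)) (P (nat_lit 13080826245939200))) (P (nat_lit 0))))))), (T.h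 (T.h (P (nat_lit 0)) (T.h (T.h (P (nat_lit 0)) (T.h (P (nat_lit 10837325089760501435465728)) (T.h (P (nat_lit 0)) (P (nat_lit 18767264093181050880))))) (T.h (P (nat_lit 0)) (T.h (T.h (P (nat_lit 0)) (P (nat_lit 23476878950912753664))) (P (nat_lit 0)))))) (T.h (T.h (T.h (M (nat_lit 70690757678798787449391677439)) (T.h (P (nat_lit 0)) (T.h (M (nat_lit 22596061560819215761407)) (T.h (P (nat_lit 0)) (M (nat_lit 1177318572294143)))))) (T.h (P (nat_lit 0)) (T.h (T.h (P (nat_lit 5240951608303125790720)) (T.h (P (nat_lit 0)) (P (nat_lit 4222073898663936)))) (T.h (P (nat_lit 0)) (P (nat_lit 1508883410780160)))))) (T.h (T.h (P (nat_lit 0)) (T.h (T.h (P (nat_lit 0)) (M (nat_lit 57234515501793673215))) (P (nat_lit 0)))) (T.h (T.h (T.h (M (nat_lit 7787362356475046395903)) (T.h (P (nat_lit 0)) (P (nat_lit 24297318949847040)))) (T.h (P (nat_lit 0)) (M (nat_lit 4922304214794239)))) (T.h (P (nat_lit 0)) (M (nat_lit 1904788133904383))))))), (T.h (T.h (P (nat_lit 0)) (T.h (T.h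 (M (nat_lit 4128095417609799227320303615)) (T.h (P (nat_lit 0)) (M (nat_lit 89093646853074963136511)))) (T.h (P (nat_lit 0)) (M (nat_lit 11607120330576317382655))))) (T.h (T.h (T.h (P (nat_lit 0)) (T.h (P (nat_lit 30515205083625810267471872)) (T.h (P (nat_lit 0)) (M (nat_lit 13024428012773310463))))) (T.h (P (nat_lit 0)) (T.h (T.h (P (nat_lit 0)) (M (nat_lit 8729003769028673535))) (P (nat_lit 0))))) (T.h (T.h (P (nat_lit 0)) (P (nat_lit 772023265095726399488))) (T.h (T.h (T.h (P (nat_lit 0)) (M (nat_lit 17552851634139168767))) (P (nat_lit 0))) (P (nat_lit 0)))))), (T.h (T.h (T.h (P (nat_lit 0)) (T.h (P (nat_lit 5749518529103798235807350784)) (T.h (P (nat_lit 0)) (T.h (M (nat_lit 1476949771539596705791)) (T.h (P (nat_lit 0)) (M (nat_lit 1707653211881471))))))) (T.h (P (nat_lit 0)) (T.h (T.h (P (nat_lit 0)) (T.h (P (nat_lit 9583765910904891244544)) (T.h (P (nat_lit 0)) (P (nat_lit 4688210252595200))))) (T.h (P (nat_lit 0)) (T.h (T.h (P (nat_lit 0)) (M (nat_lit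 6559182330658815))) (P (nat_lit 0))))))) (T.h (T.h (P (nat_lit 0)) (T.h (T.h (M (nat_lit 19861320681441358285635583)) (T.h (P (nat_lit 0)) (M (nat_lit 1435110614119743487)))) (T.h (P (nat_lit 0)) (P (nat_lit 10316201078038724608))))) (T.h (T.h (T.h (P (nat_lit 0)) (T.h (P (nat_lit 9583765910904891244544)) (T.h (P (nat_lit 0)) (P (nat_lit 4688210252595200))))) (T.h (P (nat_lit 0)) (T.h (T.h (P (nat_lit 0)) (M (nat_lit 5577160264122367))) (P (nat_lit 0))))) (T.h (T.h (P (nat_lit 0)) (P (nat_lit 10316201078038724608))) (T.h (T.h (T.h (P (nat_lit 0)) (M (nat_lit 6559182330658815))) (P (nat_lit 0))) (P (nat_lit 0))))))), (T.h (T.h (T.h (P (nat_lit 22076194391982743359309479936)) (T.h (P (nat_lit 0)) (T.h (M (nat_lit 16274458072152101300994047)) (T.h (P (nat_lit 0)) (M (nat_lit 1958858447357214719)))))) (T.h (P (nat_lit 0)) (T.h (T.h (M (nat_lit 12141958159308877243351039)) (T.h (P (nat_lit 0)) (M (nat_lit 4858150995365986303)))) (T.h (P (nat_lit 0)) (P (nat_lit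 12869121700339384320)))))) (T.h (T.h (P (nat_lit 0)) (T.h (T.h (P (nat_lit 0)) (T.h (P (nat_lit 134906283782435279732736)) (T.h (P (nat_lit 0)) (M (nat_lit 62640553235578879))))) (T.h (P (nat_lit 0)) (T.h (T.h (P (nat_lit 0)) (M (nat_lit 41458318763622399))) (P (nat_lit 0)))))) (T.h (T.h (T.h (M (nat_lit 12141958159308877243351039)) (T.h (P (nat_lit 0)) (M (nat_lit 4858150995365986303)))) (T.h (P (nat_lit 0)) (M (nat_lit 86125105286819610623)))) (T.h (T.h (P (nat_lit 0)) (T.h (T.h (P (nat_lit 0)) (M (nat_lit 41458318763622399))) (P (nat_lit 0)))) (P (nat_lit 12869121700339384320)))))), (T.h (T.h (T.h (P (nat_lit 0)) (T.h (M (nat_lit 20221862855834784215504781311)) (T.h (P (nat_lit 0)) (T.h (P (nat_lit 16522202237910040707072)) (T.h (P (nat_lit 0)) (P (nat_lit 1066258762039296))))))) (T.h (P (nat_lit 0)) (T.h (T.h (P (nat_lit 0)) (T.h (P (nat_lit 38003778679932964569088)) (T.h (P (nat_lit 0)) (M (nat_lit 17992392604254207))))) (T.h (P (nat_lit 0)) (T.h (T.h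 (P (nat_lit 0)) (P (nat_lit 33975420116664320))) (P (nat_lit 0))))))) (T.h (T.h (P (nat_lit 0)) (T.h (T.h (M (nat_lit 136965573958746396549971967)) (T.h (P (nat_lit 0)) (M (nat_lit 83607318488869240831)))) (T.h (P (nat_lit 0)) (M (nat_lit 16900336388816240639))))) (T.h (T.h (T.h (P (nat_lit 0)) (T.h (P (nat_lit 38003778679932964569088)) (T.h (P (nat_lit 0)) (M (nat_lit 17992392604254207))))) (T.h (P (nat_lit 0)) (T.h (T.h (P (nat_lit 0)) (P (nat_lit 95886262666657792))) (P (nat_lit 0))))) (T.h (T.h (P (nat_lit 0)) (M (nat_lit 16900336388816240639))) (T.h (T.h (T.h (P (nat_lit 0)) (P (nat_lit 33975420116664320))) (P (nat_lit 0))) (P (nat_lit 0))))))), (T.h (T.h (T.h (P (nat_lit 2206126113579595365242892189696)) (T.h (P (nat_lit 0)) (T.h (P (nat_lit 7558502885339867069284352)) (T.h (P (nat_lit 0)) (M (nat_lit 17445534114437398527)))))) (T.h (P (nat_lit 0)) (T.h (T.h (P (nat_lit 20540562343498051169026048)) (T.h (P (nat_lit 0)) (P (nat_lit 107185444086695854080))))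 (T.h (P (nat_lit 0)) (M (nat_lit 7037474781179936767)))))) (T.h (T.h (P (nat_lit 0)) (T.h (T.h (P (nat_lit 0)) (T.h (M (nat_lit 72979716225517532217343)) (T.h (P (nat_lit 0)) (P (nat_lit 33857555046727680))))) (T.h (P (nat_lit 0)) (T.h (T.h (P (nat_lit 0)) (P (nat_lit 65584249744195584))) (P (nat_lit 0)))))) (T.h (T.h (T.h (P (nat_lit 20540562343498051169026048)) (T.h (P (nat_lit 0)) (P (nat_lit 107185444086695854080)))) (T.h (P (nat_lit 0)) (P (nat_lit 4976249469914841088)))) (T.h (T.h (P (nat_lit 0)) (T.h (T.h (P (nat_lit 0)) (P (nat_lit 65584249744195584))) (P (nat_lit 0)))) (M (nat_lit 7037474781179936767))))))]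
def lP11_22 : List (T ℤ) := [(T.h (T.h (T.h (P (nat_lit 0)) (T.h (P (nat_lit 14610249436861171604855455744)) (T.h (P (nat_lit 0)) (M (nat_lit 40558311345951795576831))))) (T.h (P (nat_lit 0)) (T.h (T.h (P (nat_lit 0)) (M (nat_lit 101273358841672856764415))) (P (nat_lit 0))))) (T.h (T.h (P (nat_lit 0)) (T.h (T.h (P (nat_lit 38514815664570662951845888)) (T.h (P (nat_lit 0)) (M (nat_lit 40434674597491638271)))) (T.h (P (nat_lit 0)) (M (nat_lit 21085926385571069951))))) (T.h (T.h (T.h (P (nat_lit 0)) (M (nat_lit 101273358841672856764415))) (P (nat_lit 0))) (T.h (T.h (P (nat_lit 0)) (M (nat_lit 21085926385571069951))) (P (nat_lit 0)))))), (T.h (T.h (P (nat_lit 0)) (T.h (T.h (P (nat_lit 0)) (T.h (M (nat_lit 11960314775027518248321023)) (T.h (P (nat_lit 0)) (M (nat_lit 11846047760014901247))))) (T.h (P (nat_lit 0)) (T.h (T.h (P (nat_lit 0)) (P (nat_lit 8138718056420474880))) (P (nat_lit 0)))))) (T.h (T.h (T.h (P (nat_lit 47245103773009497930669752320)) (T.h (P (nat_lit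 0)) (T.h (M (nat_lit 8283475691297587593215)) (T.h (P (nat_lit 0)) (P (nat_lit 1162077987897344)))))) (T.h (P (nat_lit 0)) (T.h (T.h (P (nat_lit 25850322947642501365760)) (T.h (P (nat_lit 0)) (M (nat_lit 80551641858670591)))) (T.h (P (nat_lit 0)) (M (nat_lit 7524661744500735)))))) (T.h (T.h (P (nat_lit 0)) (T.h (T.h (P (nat_lit 0)) (M (nat_lit 11902385387470847999))) (P (nat_lit 0)))) (T.h (T.h (T.h (P (nat_lit 2562343879471917957120)) (T.h (P (nat_lit 0)) (P (nat_lit 2834899061800960)))) (T.h (P (nat_lit 0)) (M (nat_lit 18037048165433343)))) (T.h (P (nat_lit 0)) (M (nat_lit 854125150273535))))))), (T.h (T.h (P (nat_lit 0)) (T.h (T.h (M (nat_lit 12043737350263039423634472959)) (T.h (P (nat_lit 0)) (T.h (P (nat_lit 17244625014501477974016)) (T.h (P (nat_lit 0)) (P (nat_lit 14344144485744640)))))) (T.h (P (nat_lit 0)) (T.h (T.h (P (nat_lit 25930276767998186356736)) (T.h (P (nat_lit 0)) (M (nat_lit 21856086166405119)))) (T.h (P (nat_lit 0)) (P (nat_lit 6091426764423168)))))))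 (T.h (T.h (T.h (P (nat_lit 0)) (T.h (M (nat_lit 128522053384882421369929727)) (T.h (P (nat_lit 0)) (M (nat_lit 8487002452682342399))))) (T.h (P (nat_lit 0)) (T.h (T.h (P (nat_lit 0)) (M (nat_lit 26223334227089293311))) (P (nat_lit 0))))) (T.h (T.h (P (nat_lit 0)) (T.h (T.h (P (nat_lit 56118129937432931467264)) (T.h (P (nat_lit 0)) (P (nat_lit 50626758733135872)))) (T.h (P (nat_lit 0)) (M (nat_lit 8124817532059647))))) (T.h (T.h (T.h (P (nat_lit 0)) (M (nat_lit 7794881417426501631))) (P (nat_lit 0))) (T.h (T.h (P (nat_lit 0)) (P (nat_lit 28411816549810176))) (P (nat_lit 0))))))), (T.h (T.h (P (nat_lit 0)) (T.h (T.h (P (nat_lit 0)) (T.h (M (nat_lit 21038569313932369675157503)) (T.h (P (nat_lit 0)) (P (nat_lit 2996098711181852672))))) (T.h (P (nat_lit 0)) (T.h (T.h (P (nat_lit 0)) (P (nat_lit 13854077642703110144))) (P (nat_lit 0)))))) (T.h (T.h (T.h (P (nat_lit 30867479257377564037853741056)) (T.h (P (nat_lit 0)) (T.h (M (nat_lit 17440100009466744799231)) (T.h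 (P (nat_lit 0)) (P (nat_lit 13903926991060992)))))) (T.h (P (nat_lit 0)) (T.h (T.h (M (nat_lit 28115260437090684370943)) (T.h (P (nat_lit 0)) (M (nat_lit 72015208060157951)))) (T.h (P (nat_lit 0)) (P (nat_lit 9756912138387456)))))) (T.h (T.h (P (nat_lit 0)) (T.h (T.h (P (nat_lit 0)) (M (nat_lit 55819018063600156671))) (P (nat_lit 0)))) (T.h (T.h (T.h (M (nat_lit 30558448618581354610687)) (T.h (P (nat_lit 0)) (M (nat_lit 423629866598399)))) (T.h (P (nat_lit 0)) (P (nat_lit 22386341176344576)))) (T.h (P (nat_lit 0)) (P (nat_lit 5650615235248128))))))), (T.h (T.h (P (nat_lit 0)) (T.h (T.h (P (nat_lit 15616928336515001970541461504)) (T.h (P (nat_lit 0)) (M (nat_lit 162789078047279051440127)))) (T.h (P (nat_lit 0)) (M (nat_lit 46753864263979497422847))))) (T.h (T.h (T.h (P (nat_lit 0)) (T.h (P (nat_lit 96317312569791024340140032)) (T.h (P (nat_lit 0)) (M (nat_lit 34256219783244546047))))) (T.h (P (nat_lit 0)) (T.h (T.h (P (nat_lit 0)) (M (nat_lit 34557863645526622207)))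 (P (nat_lit 0))))) (T.h (T.h (P (nat_lit 0)) (M (nat_lit 71590307560149082963967))) (T.h (T.h (T.h (P (nat_lit 0)) (M (nat_lit 35675004736710377471))) (P (nat_lit 0))) (P (nat_lit 0)))))), (T.h (T.h (T.h (P (nat_lit 0)) (T.h (M (nat_lit 4278881695435843458421489663)) (T.h (P (nat_lit 0)) (T.h (P (nat_lit 9681411601777945477120)) (T.h (P (nat_lit 0)) (P (nat_lit 3068541892362240))))))) (T.h (P (nat_lit 0)) (T.h (T.h (P (nat_lit 0)) (T.h (M (nat_lit 5299204231871709839359)) (T.h (P (nat_lit 0)) (M (nat_lit 7316746762321919))))) (T.h (P (nat_lit 0)) (T.h (T.h (P (nat_lit 0)) (P (nat_lit 12377507164782592))) (P (nat_lit 0))))))) (T.h (T.h (P (nat_lit 0)) (T.h (T.h (P (nat_lit 26741342997298959389556736)) (T.h (P (nat_lit 0)) (P (nat_lit 40614396783243558912)))) (T.h (P (nat_lit 0)) (M (nat_lit 17120686089170845695))))) (T.h (T.h (T.h (P (nat_lit 0)) (T.h (P (nat_lit 2618990842504873508864)) (T.h (P (nat_lit 0)) (M (nat_lit 3191429717360639))))) (T.h (P (nat_lit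 0)) (T.h (T.h (P (nat_lit 0)) (P (nat_lit 3553447322320896))) (P (nat_lit 0))))) (T.h (T.h (P (nat_lit 0)) (M (nat_lit 1143909514248978431))) (T.h (T.h (T.h (P (nat_lit 0)) (P (nat_lit 3017681499979776))) (P (nat_lit 0))) (P (nat_lit 0))))))), (T.h (T.h (T.h (P (nat_lit 3244236457280320607051665375232)) (T.h (P (nat_lit 0)) (T.h (P (nat_lit 19516733952906192045998080)) (T.h (P (nat_lit 0)) (M (nat_lit 328644521208315903)))))) (T.h (P (nat_lit 0)) (T.h (T.h (P (nat_lit 13981437182624500409171968)) (T.h (P (nat_lit 0)) (P (nat_lit 41459238799126036480)))) (T.h (P (nat_lit 0)) (M (nat_lit 9130277567104811007)))))) (T.h (T.h (P (nat_lit 0)) (T.h (T.h (P (nat_lit 0)) (T.h (M (nat_lit 38735600842230921691135)) (T.h (P (nat_lit 0)) (P (nat_lit 54365174031581184))))) (T.h (P (nat_lit 0)) (T.h (T.h (P (nat_lit 0)) (P (nat_lit 22169232746545152))) (P (nat_lit 0)))))) (T.h (T.h (T.h (P (nat_lit 6534674494748007946256384)) (T.h (P (nat_lit 0)) (P (nat_lit 2559707932677636096))))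 (T.h (P (nat_lit 0)) (P (nat_lit 143668433415907049472)))) (T.h (T.h (P (nat_lit 0)) (T.h (T.h (P (nat_lit 0)) (P (nat_lit 22638479334113280))) (P (nat_lit 0)))) (M (nat_lit 10736703854465777663)))))), (T.h (T.h (T.h (P (nat_lit 0)) (T.h (P (nat_lit 9031621092910988849334714368)) (T.h (P (nat_lit 0)) (M (nat_lit 34144686811494251233279))))) (T.h (P (nat_lit 0)) (T.h (T.h (P (nat_lit 0)) (M (nat_lit 147957377833463116201983))) (P (nat_lit 0))))) (T.h (T.h (P (nat_lit 0)) (T.h (T.h (P (nat_lit 100800329927209304991989760)) (T.h (P (nat_lit 0)) (P (nat_lit 11233782431070814208)))) (T.h (P (nat_lit 0)) (M (nat_lit 34117049779509788671))))) (T.h (T.h (T.h (P (nat_lit 0)) (M (nat_lit 61260651834352922001407))) (P (nat_lit 0))) (T.h (T.h (P (nat_lit 0)) (M (nat_lit 35997419941505531903))) (P (nat_lit 0))))))]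
def lP11_23 : List (T ℤ) := [(T.h (T.h (P (nat_lit 0)) (T.h (T.h (P (nat_lit 0)) (T.h (P (nat_lit 8594163731851504399679488)) (T.h (P (nat_lit 0)) (P (nat_lit 11081014776229265408))))) (T.h (P (nat_lit 0)) (T.h (T.h (P (nat_lit 0)) (M (nat_lit 10910365184769916927))) (P (nat_lit 0)))))) (T.h (T.h (T.h (M (nat_lit 96839770371705049578404315135)) (T.h (P (nat_lit 0)) (T.h (P (nat_lit 10503782334715691794432)) (T.h (P (nat_lit 0)) (M (nat_lit 909620825161727)))))) (T.h (P (nat_lit 0)) (T.h (T.h (M (nat_lit 4175877197631244468223)) (T.h (P (nat_lit 0)) (P (nat_lit 48080726854533120)))) (T.h (P (nat_lit 0)) (M (nat_lit 5428004155490303)))))) (T.h (T.h (P (nat_lit 0)) (T.h (T.h (P (nat_lit 0)) (P (nat_lit 9299264060925149184))) (P (nat_lit 0)))) (T.h (T.h (T.h (M (nat_lit 1827911911701347303423)) (T.h (P (nat_lit 0)) (M (nat_lit 227057283956735)))) (T.h (P (nat_lit 0)) (P (nat_lit 8574329875464192)))) (T.h (P (nat_lit 0)) (M (nat_lit 43442143494143))))))), (T.h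 (T.h (P (nat_lit 0)) (T.h (T.h (P (nat_lit 2372337535630964966826180608)) (T.h (P (nat_lit 0)) (M (nat_lit 24061822426881779040255)))) (T.h (P (nat_lit 0)) (M (nat_lit 42962532670977096024063))))) (T.h (T.h (T.h (P (nat_lit 0)) (T.h (P (nat_lit 19727262634815770798850048)) (T.h (P (nat_lit 0)) (M (nat_lit 13154495332547035135))))) (T.h (P (nat_lit 0)) (T.h (T.h (P (nat_lit 0)) (M (nat_lit 22623157418912120831))) (P (nat_lit 0))))) (T.h (T.h (P (nat_lit 0)) (M (nat_lit 115260592914011747516415))) (T.h (T.h (T.h (P (nat_lit 0)) (M (nat_lit 11735710379081203711))) (P (nat_lit 0))) (P (nat_lit 0)))))), (T.h (T.h (T.h (P (nat_lit 0)) (T.h (M (nat_lit 5319449090180741567671697407)) (T.h (P (nat_lit 0)) (M (nat_lit 3937142110085665783807))))) (T.h (P (nat_lit 0)) (T.h (T.h (P (nat_lit 0)) (M (nat_lit 14811040286701053280255))) (P (nat_lit 0))))) (T.h (T.h (P (nat_lit 0)) (T.h (T.h (P (nat_lit 8289399776776587109728256)) (T.h (P (nat_lit 0)) (M (nat_lit 40191941487169110015))))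 (T.h (P (nat_lit 0)) (P (nat_lit 4402877200139812864))))) (T.h (T.h (T.h (P (nat_lit 0)) (M (nat_lit 4912016418612826865663))) (P (nat_lit 0))) (T.h (T.h (P (nat_lit 0)) (M (nat_lit 7133375279497478143))) (P (nat_lit 0)))))), (P (nat_lit 0)), (P (nat_lit 0)), (T.h (T.h (T.h (M (nat_lit 460972935309887569520215719935)) (T.h (P (nat_lit 0)) (T.h (M (nat_lit 2029091353749028599758847)) (T.h (P (nat_lit 0)) (M (nat_lit 1526433197796098047)))))) (T.h (P (nat_lit 0)) (T.h (T.h (P (nat_lit 0)) (T.h (P (nat_lit 0)) (P (nat_lit 2998689982794694656)))) (P (nat_lit 0))))) (T.h (T.h (P (nat_lit 0)) (T.h (T.h (P (nat_lit 0)) (T.h (M (nat_lit 38255836290387560890367)) (T.h (P (nat_lit 0)) (M (nat_lit 15267448728518655))))) (T.h (P (nat_lit 0)) (T.h (T.h (P (nat_lit 0)) (M (nat_lit 14346539850792959))) (P (nat_lit 0)))))) (T.h (T.h (T.h (M (nat_lit 2029091353749028599758847)) (T.h (P (nat_lit 0)) (P (nat_lit 3990713706295066624)))) (T.h (P (nat_lit 0)) (P (nat_lit 2998689982794694656))))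 (T.h (T.h (P (nat_lit 0)) (T.h (T.h (P (nat_lit 0)) (M (nat_lit 15267448728518655))) (P (nat_lit 0)))) (M (nat_lit 1526433197796098047)))))), (T.h (T.h (T.h (P (nat_lit 0)) (T.h (P (nat_lit 3740536491181234184028946432)) (T.h (P (nat_lit 0)) (T.h (M (nat_lit 227177040830728765439)) (T.h (P (nat_lit 0)) (P (nat_lit 632988086468608))))))) (T.h (P (nat_lit 0)) (T.h (T.h (P (nat_lit 0)) (T.h (M (nat_lit 9374060979553220689919)) (T.h (P (nat_lit 0)) (M (nat_lit 3020348864692223))))) (T.h (P (nat_lit 0)) (T.h (T.h (P (nat_lit 0)) (P (nat_lit 651352187568128))) (P (nat_lit 0))))))) (T.h (T.h (P (nat_lit 0)) (T.h (T.h (P (nat_lit 9875282602521853746479104)) (T.h (P (nat_lit 0)) (P (nat_lit 6736718963717177344)))) (T.h (P (nat_lit 0)) (M (nat_lit 1587128147822772223))))) (T.h (T.h (T.h (P (nat_lit 0)) (T.h (M (nat_lit 1406929830933170225151)) (T.h (P (nat_lit 0)) (M (nat_lit 285597451747327))))) (T.h (P (nat_lit 0)) (T.h (T.h (P (nat_lit 0)) (M (nat_lit 11137756148891647)))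 (P (nat_lit 0))))) (T.h (T.h (P (nat_lit 0)) (P (nat_lit 5803693326376894464))) (T.h (T.h (T.h (P (nat_lit 0)) (P (nat_lit 1768850240339968))) (P (nat_lit 0))) (P (nat_lit 0))))))), (T.h (T.h (T.h (M (nat_lit 338361714180115004849106452479)) (T.h (P (nat_lit 0)) (T.h (M (nat_lit 2603676508804139699929087)) (T.h (P (nat_lit 0)) (P (nat_lit 318229806879604736)))))) (T.h (P (nat_lit 0)) (T.h (T.h (P (nat_lit 0)) (T.h (P (nat_lit 0)) (P (nat_lit 7190836746416816128)))) (T.h (P (nat_lit 0)) (M (nat_lit 823250967452450815)))))) (T.h (T.h (P (nat_lit 0)) (T.h (T.h (P (nat_lit 0)) (T.h (P (nat_lit 44631809005452154372096)) (T.h (P (nat_lit 0)) (P (nat_lit 21157774929887232))))) (T.h (P (nat_lit 0)) (T.h (T.h (P (nat_lit 0)) (P (nat_lit 14212069352800256))) (P (nat_lit 0)))))) (T.h (T.h (T.h (P (nat_lit 4633383109431362544730112)) (T.h (P (nat_lit 0)) (P (nat_lit 7582985554350833664)))) (T.h (P (nat_lit 0)) (M (nat_lit 8339903994616872959)))) (T.h (T.h (P (nat_lit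 0)) (T.h (T.h (P (nat_lit 0)) (P (nat_lit 3431794116395008))) (P (nat_lit 0)))) (P (nat_lit 4731014563690971136))))))]
def lP11_24 : List (T ℤ) := [(T.h (T.h (T.h (P (nat_lit 0)) (T.h (M (nat_lit 3735944699976290291876364287)) (T.h (P (nat_lit 0)) (T.h (M (nat_lit 6398304223384991432703)) (T.h (P (nat_lit 0)) (P (nat_lit 4645051328102400))))))) (T.h (P (nat_lit 0)) (T.h (T.h (P (nat_lit 0)) (T.h (P (nat_lit 3769540207674520502272)) (T.h (P (nat_lit 0)) (P (nat_lit 14406680342495232))))) (T.h (P (nat_lit 0)) (T.h (T.h (P (nat_lit 0)) (M (nat_lit 1657467581693951))) (P (nat_lit 0))))))) (T.h (T.h (P (nat_lit 0)) (T.h (T.h (M (nat_lit 13141655625837937975885823)) (T.h (P (nat_lit 0)) (P (nat_lit 698999029035433984)))) (T.h (P (nat_lit 0)) (M (nat_lit 3442231760379707391))))) (T.h (T.h (T.h (P (nat_lit 0)) (T.h (M (nat_lit 2434592390349984890879)) (T.h (P (nat_lit 0)) (P (nat_lit 4406481162338304))))) (P (nat_lit 0))) (T.h (T.h (P (nat_lit 0)) (M (nat_lit 876166944988856319)))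 (T.h (T.h (T.h (P (nat_lit 0)) (P (nat_lit 937475159556096))) (P (nat_lit 0))) (P (nat_lit 0))))))), (T.h (T.h (T.h (P (nat_lit 14856572718678401679984347316224)) (T.h (P (nat_lit 0)) (T.h (P (nat_lit 9143594504065898468343808)) (T.h (P (nat_lit 0)) (M (nat_lit 5994328141479280639)))))) (T.h (P (nat_lit 0)) (T.h (T.h (P (nat_lit 430512853632606770561024)) (T.h (P (nat_lit 0)) (M (nat_lit 14012339163622277119)))) (T.h (P (nat_lit 0)) (P (nat_lit 458076090124992512)))))) (T.h (T.h (P (nat_lit 0)) (T.h (T.h (P (nat_lit 0)) (M (nat_lit 10406685990088444215295))) (P (nat_lit 0)))) (T.h (T.h (T.h (M (nat_lit 146258586246510312161279)) (T.h (P (nat_lit 0)) (M (nat_lit 6245178489742295039)))) (T.h (P (nat_lit 0)) (P (nat_lit 716194899120095232)))) (T.h (P (nat_lit 0)) (P (nat_lit 111010873010552832)))))), (P (nat_lit 0)), (T.h (T.h (P (nat_lit 0)) (T.h (T.h (P (nat_lit 0)) (T.h (P (nat_lit 64503246115057485794508800)) (T.h (P (nat_lit 0)) (P (nat_lit 795046254307442688)))))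 (T.h (P (nat_lit 0)) (T.h (T.h (P (nat_lit 0)) (P (nat_lit 795046254307442688))) (P (nat_lit 0)))))) (T.h (T.h (T.h (P (nat_lit 0)) (T.h (P (nat_lit 0)) (T.h (M (nat_lit 4023288376355572416511)) (T.h (P (nat_lit 0)) (M (nat_lit 5123191855120383)))))) (T.h (P (nat_lit 0)) (T.h (T.h (M (nat_lit 4023288376355572416511)) (T.h (P (nat_lit 0)) (M (nat_lit 8245414944309247)))) (T.h (P (nat_lit 0)) (M (nat_lit 5123191855120383)))))) (T.h (T.h (P (nat_lit 0)) (T.h (T.h (P (nat_lit 0)) (P (nat_lit 12938633457344446464))) (P (nat_lit 0)))) (T.h (T.h (T.h (P (nat_lit 0)) (T.h (P (nat_lit 0)) (P (nat_lit 17746068228407296)))) (T.h (P (nat_lit 0)) (P (nat_lit 17746068228407296)))) (T.h (P (nat_lit 0)) (M (nat_lit 955482939457535))))))), (T.h (T.h (P (nat_lit 0)) (T.h (T.h (M (nat_lit 19869073653131804131622649855)) (T.h (P (nat_lit 0)) (T.h (M (nat_lit 7177687224317498097663)) (T.h (P (nat_lit 0)) (M (nat_lit 7654853666406399)))))) (T.h (P (nat_lit 0)) (T.h (T.h (P (nat_lit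 6773321612529888133120)) (T.h (P (nat_lit 0)) (P (nat_lit 5040420300750848)))) (T.h (P (nat_lit 0)) (M (nat_lit 145850248724479))))))) (T.h (T.h (T.h (P (nat_lit 0)) (T.h (P (nat_lit 1957344530603387364835328)) (T.h (P (nat_lit 0)) (M (nat_lit 31137062395752480767))))) (T.h (P (nat_lit 0)) (T.h (T.h (P (nat_lit 0)) (P (nat_lit 94491169096630009856))) (P (nat_lit 0))))) (T.h (T.h (P (nat_lit 0)) (T.h (T.h (M (nat_lit 5943260452164290478079)) (T.h (P (nat_lit 0)) (P (nat_lit 77046820858494976)))) (T.h (P (nat_lit 0)) (P (nat_lit 4754118344474624))))) (T.h (T.h (T.h (P (nat_lit 0)) (M (nat_lit 49284794323627409407))) (P (nat_lit 0))) (T.h (T.h (P (nat_lit 0)) (M (nat_lit 6962062625734655))) (P (nat_lit 0))))))), (T.h (T.h (P (nat_lit 0)) (T.h (T.h (P (nat_lit 0)) (T.h (M (nat_lit 68482786979373198274985983)) (T.h (P (nat_lit 0)) (M (nat_lit 8104107676780199935))))) (T.h (P (nat_lit 0)) (T.h (T.h (P (nat_lit 0)) (M (nat_lit 8796228712036040703))) (P (nat_lit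 0)))))) (T.h (T.h (T.h (M (nat_lit 10110931427917392107752390655)) (T.h (P (nat_lit 0)) (T.h (P (nat_lit 38438641801432209031168)) (T.h (P (nat_lit 0)) (P (nat_lit 24021546090364928)))))) (T.h (P (nat_lit 0)) (T.h (T.h (M (nat_lit 434863121499244462079)) (T.h (P (nat_lit 0)) (P (nat_lit 47943131333328896)))) (T.h (P (nat_lit 0)) (P (nat_lit 9953874026299392)))))) (T.h (T.h (P (nat_lit 0)) (T.h (T.h (P (nat_lit 0)) (M (nat_lit 41803659244434620415))) (P (nat_lit 0)))) (T.h (T.h (T.h (P (nat_lit 8261101118955020353536)) (T.h (P (nat_lit 0)) (M (nat_lit 2130561984954367)))) (T.h (P (nat_lit 0)) (M (nat_lit 15861830619299839)))) (T.h (P (nat_lit 0)) (P (nat_lit 533129381019648))))))), (T.h (T.h (P (nat_lit 0)) (T.h (T.h (M (nat_lit 21489684987982723440726507519)) (T.h (P (nat_lit 0)) (T.h (M (nat_lit 14201226063573812248575)) (T.h (P (nat_lit 0)) (M (nat_lit 1413062830325759)))))) (T.h (P (nat_lit 0)) (T.h (T.h (M (nat_lit 6832981111253990637567)) (T.h (P (nat_lit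 0)) (P (nat_lit 17415315030933504)))) (T.h (P (nat_lit 0)) (M (nat_lit 2113886455726079))))))) (T.h (T.h (T.h (P (nat_lit 0)) (T.h (P (nat_lit 7134864019933703962624000)) (T.h (P (nat_lit 0)) (P (nat_lit 25806678660235657216))))) (T.h (P (nat_lit 0)) (T.h (T.h (P (nat_lit 0)) (M (nat_lit 60213479081244622847))) (P (nat_lit 0))))) (T.h (T.h (P (nat_lit 0)) (T.h (T.h (M (nat_lit 3526065635949872676863)) (T.h (P (nat_lit 0)) (M (nat_lit 46026919089930239)))) (T.h (P (nat_lit 0)) (M (nat_lit 5394656012009471))))) (T.h (T.h (T.h (P (nat_lit 0)) (P (nat_lit 14948699728714399744))) (P (nat_lit 0))) (T.h (T.h (P (nat_lit 0)) (P (nat_lit 2733952022347776))) (P (nat_lit 0))))))), (T.h (T.h (P (nat_lit 0)) (T.h (T.h (P (nat_lit 0)) (T.h (P (nat_lit 23740425189703612127772672)) (T.h (P (nat_lit 0)) (M (nat_lit 9694400712317861887))))) (T.h (P (nat_lit 0)) (T.h (T.h (P (nat_lit 0)) (M (nat_lit 11574770874313605119))) (P (nat_lit 0)))))) (T.h (T.h (T.h (P (nat_lit 719817474826572681220980736))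 (T.h (P (nat_lit 0)) (M (nat_lit 81404364450585477382143)))) (T.h (P (nat_lit 0)) (P (nat_lit 5292361548524716818432)))) (T.h (T.h (P (nat_lit 0)) (T.h (T.h (P (nat_lit 0)) (P (nat_lit 25574308777851617280))) (P (nat_lit 0)))) (M (nat_lit 7669978220490651598847)))))]
def lP11_25 : List (T ℤ) := [(T.h (T.h (T.h (M (nat_lit 364298159829854710991899590655)) (T.h (P (nat_lit 0)) (T.h (M (nat_lit 817570893295480970674175)) (T.h (P (nat_lit 0)) (M (nat_lit 692532370447794175)))))) (T.h (P (nat_lit 0)) (T.h (T.h (M (nat_lit 2846662247044509570433023)) (T.h (P (nat_lit 0)) (P (nat_lit 6308753183799771136)))) (T.h (P (nat_lit 0)) (M (nat_lit 2218965568243892223)))))) (T.h (T.h (P (nat_lit 0)) (T.h (T.h (P (nat_lit 0)) (T.h (M (nat_lit 40874825642779300855807)) (T.h (P (nat_lit 0)) (M (nat_lit 14476001799831551))))) (T.h (P (nat_lit 0)) (T.h (T.h (P (nat_lit 0)) (M (nat_lit 15396910677557247))) (P (nat_lit 0)))))) (T.h (T.h (T.h (M (nat_lit 3569027755786119380205567))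 (T.h (P (nat_lit 0)) (P (nat_lit 3710868602832814080)))) (T.h (P (nat_lit 0)) (P (nat_lit 4702892326333186048)))) (T.h (T.h (P (nat_lit 0)) (T.h (T.h (P (nat_lit 0)) (M (nat_lit 15562217295118335))) (P (nat_lit 0)))) (M (nat_lit 1612969606014566399)))))), (T.h (T.h (T.h (P (nat_lit 0)) (T.h (P (nat_lit 16932207078975800452117954560)) (T.h (P (nat_lit 0)) (T.h (P (nat_lit 3458675420943098052608)) (T.h (P (nat_lit 0)) (P (nat_lit 3161425102864384))))))) (T.h (P (nat_lit 0)) (T.h (T.h (P (nat_lit 0)) (T.h (P (nat_lit 5323332165170521702400)) (T.h (P (nat_lit 0)) (P (nat_lit 2596806975324160))))) (T.h (P (nat_lit 0)) (T.h (T.h (P (nat_lit 0)) (P (nat_lit 4440460525240320))) (P (nat_lit 0))))))) (T.h (T.h (P (nat_lit 0)) (T.h (T.h (M (nat_lit 21329726924007280998350847)) (T.h (P (nat_lit 0)) (P (nat_lit 21968178430628331520)))) (T.h (P (nat_lit 0)) (M (nat_lit 8164621384287256575))))) (T.h (T.h (T.h (P (nat_lit 0)) (T.h (P (nat_lit 44465585472532943732736)) (T.h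 (P (nat_lit 0)) (M (nat_lit 24782412154798079))))) (T.h (P (nat_lit 0)) (T.h (T.h (P (nat_lit 0)) (P (nat_lit 16352949644099584))) (P (nat_lit 0))))) (T.h (T.h (P (nat_lit 0)) (M (nat_lit 4226509474308816895))) (T.h (T.h (T.h (P (nat_lit 0)) (M (nat_lit 576546173845503))) (P (nat_lit 0))) (P (nat_lit 0))))))), (T.h (T.h (T.h (P (nat_lit 29656857511185159458979919691776)) (T.h (P (nat_lit 0)) (T.h (M (nat_lit 7692531527963487454101503)) (T.h (P (nat_lit 0)) (P (nat_lit 7302961216668827648)))))) (T.h (P (nat_lit 0)) (T.h (T.h (M (nat_lit 12325914637394849998831615)) (T.h (P (nat_lit 0)) (M (nat_lit 56500856715288248319)))) (T.h (P (nat_lit 0)) (P (nat_lit 1748695685525405696)))))) (T.h (T.h (P (nat_lit 0)) (T.h (T.h (P (nat_lit 0)) (T.h (P (nat_lit 151182173365017801392128)) (T.h (P (nat_lit 0)) (P (nat_lit 96419566634926080))))) (T.h (P (nat_lit 0)) (T.h (T.h (P (nat_lit 0)) (P (nat_lit 107199841871331328))) (P (nat_lit 0)))))) (T.h (T.h (T.h (M (nat_lit 14929591146198989698760703))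 (T.h (P (nat_lit 0)) (M (nat_lit 40577967166320541695)))) (T.h (P (nat_lit 0)) (M (nat_lit 40970115974254559231)))) (T.h (T.h (P (nat_lit 0)) (T.h (T.h (P (nat_lit 0)) (P (nat_lit 114145547448418304))) (P (nat_lit 0)))) (P (nat_lit 2890176459857461248)))))), (T.h (T.h (T.h (P (nat_lit 0)) (T.h (P (nat_lit 3156091554544223469915078656)) (T.h (P (nat_lit 0)) (T.h (M (nat_lit 24679848752548419731455)) (T.h (P (nat_lit 0)) (P (nat_lit 7973600012795904))))))) (T.h (P (nat_lit 0)) (T.h (T.h (P (nat_lit 0)) (T.h (M (nat_lit 5147017129263873654783)) (T.h (P (nat_lit 0)) (P (nat_lit 5443377942626304))))) (T.h (P (nat_lit 0)) (T.h (T.h (P (nat_lit 0)) (P (nat_lit 9944906357145600))) (P (nat_lit 0))))))) (T.h (T.h (P (nat_lit 0)) (T.h (T.h (M (nat_lit 24470972264039276164939775)) (T.h (P (nat_lit 0)) (P (nat_lit 7373424597095415808)))) (T.h (P (nat_lit 0)) (M (nat_lit 3424421795334193151))))) (T.h (T.h (T.h (P (nat_lit 0)) (T.h (M (nat_lit 22308869870762275635199))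 (T.h (P (nat_lit 0)) (P (nat_lit 11853030064324608))))) (T.h (P (nat_lit 0)) (T.h (T.h (P (nat_lit 0)) (P (nat_lit 24260704018366464))) (P (nat_lit 0))))) (T.h (T.h (P (nat_lit 0)) (M (nat_lit 18992015584587153407))) (T.h (T.h (T.h (P (nat_lit 0)) (P (nat_lit 11405719226744832))) (P (nat_lit 0))) (P (nat_lit 0))))))), (T.h (T.h (T.h (P (nat_lit 52495719643654334375004074934272)) (T.h (P (nat_lit 0)) (T.h (P (nat_lit 48752009253523067412414464)) (T.h (P (nat_lit 0)) (M (nat_lit 12724093836410748927)))))) (T.h (P (nat_lit 0)) (T.h (T.h (P (nat_lit 26125803118290657343438848)) (T.h (P (nat_lit 0)) (M (nat_lit 24848436162335866879)))) (T.h (P (nat_lit 0)) (M (nat_lit 301860689679482879)))))) (T.h (T.h (P (nat_lit 0)) (T.h (T.h (P (nat_lit 0)) (M (nat_lit 90367155626949247762431))) (P (nat_lit 0)))) (T.h (T.h (T.h (P (nat_lit 29753025960619693672759296)) (T.h (P (nat_lit 0)) (M (nat_lit 21307435674482245631)))) (T.h (P (nat_lit 0)) (P (nat_lit 2283580300644581376))))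 (T.h (P (nat_lit 0)) (M (nat_lit 1575502704493461503)))))), (T.h (T.h (P (nat_lit 0)) (T.h (T.h (P (nat_lit 47245103773009497930669752320)) (T.h (P (nat_lit 0)) (T.h (M (nat_lit 8283475691297587593215)) (T.h (P (nat_lit 0)) (P (nat_lit 1162077987897344)))))) (T.h (P (nat_lit 0)) (T.h (T.h (P (nat_lit 2562343879471917957120)) (T.h (P (nat_lit 0)) (P (nat_lit 2834899061800960)))) (T.h (P (nat_lit 0)) (M (nat_lit 854125150273535))))))) (T.h (T.h (T.h (P (nat_lit 0)) (T.h (M (nat_lit 11960314775027518248321023)) (T.h (P (nat_lit 0)) (M (nat_lit 11846047760014901247))))) (T.h (P (nat_lit 0)) (T.h (T.h (P (nat_lit 0)) (M (nat_lit 11902385387470847999))) (P (nat_lit 0))))) (T.h (T.h (P (nat_lit 0)) (T.h (T.h (P (nat_lit 25850322947642501365760)) (T.h (P (nat_lit 0)) (M (nat_lit 80551641858670591)))) (T.h (P (nat_lit 0)) (M (nat_lit 18037048165433343))))) (T.h (T.h (T.h (P (nat_lit 0)) (P (nat_lit 8138718056420474880))) (P (nat_lit 0))) (T.h (T.h (P (nat_lit 0))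 (M (nat_lit 7524661744500735))) (P (nat_lit 0))))))), (T.h (T.h (P (nat_lit 0)) (T.h (T.h (P (nat_lit 0)) (T.h (M (nat_lit 128522053384882421369929727)) (T.h (P (nat_lit 0)) (M (nat_lit 8487002452682342399))))) (T.h (P (nat_lit 0)) (T.h (T.h (P (nat_lit 0)) (M (nat_lit 7794881417426501631))) (P (nat_lit 0)))))) (T.h (T.h (T.h (M (nat_lit 12043737350263039423634472959)) (T.h (P (nat_lit 0)) (T.h (P (nat_lit 17244625014501477974016)) (T.h (P (nat_lit 0)) (P (nat_lit 14344144485744640)))))) (T.h (P (nat_lit 0)) (T.h (T.h (P (nat_lit 56118129937432931467264)) (T.h (P (nat_lit 0)) (P (nat_lit 50626758733135872)))) (T.h (P (nat_lit 0)) (P (nat_lit 28411816549810176)))))) (T.h (T.h (P (nat_lit 0)) (T.h (T.h (P (nat_lit 0)) (M (nat_lit 26223334227089293311))) (P (nat_lit 0)))) (T.h (T.h (T.h (P (nat_lit 25930276767998186356736)) (T.h (P (nat_lit 0)) (M (nat_lit 21856086166405119)))) (T.h (P (nat_lit 0)) (M (nat_lit 8124817532059647)))) (T.h (P (nat_lit 0)) (P (nat_lit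 6091426764423168))))))), (T.h (T.h (P (nat_lit 0)) (T.h (T.h (P (nat_lit 30867479257377564037853741056)) (T.h (P (nat_lit 0)) (T.h (M (nat_lit 17440100009466744799231)) (T.h (P (nat_lit 0)) (P (nat_lit 13903926991060992)))))) (T.h (P (nat_lit 0)) (T.h (T.h (M (nat_lit 30558448618581354610687)) (T.h (P (nat_lit 0)) (M (nat_lit 423629866598399)))) (T.h (P (nat_lit 0)) (P (nat_lit 5650615235248128))))))) (T.h (T.h (T.h (P (nat_lit 0)) (T.h (M (nat_lit 21038569313932369675157503)) (T.h (P (nat_lit 0)) (P (nat_lit 2996098711181852672))))) (T.h (P (nat_lit 0)) (T.h (T.h (P (nat_lit 0)) (M (nat_lit 55819018063600156671))) (P (nat_lit 0))))) (T.h (T.h (P (nat_lit 0)) (T.h (T.h (M (nat_lit 28115260437090684370943)) (T.h (P (nat_lit 0)) (M (nat_lit 72015208060157951)))) (T.h (P (nat_lit 0)) (P (nat_lit 22386341176344576))))) (T.h (T.h (T.h (P (nat_lit 0)) (P (nat_lit 13854077642703110144))) (P (nat_lit 0))) (T.h (T.h (P (nat_lit 0)) (P (nat_lit 9756912138387456)))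 (P (nat_lit 0)))))))]
def lP11_26 : List (T ℤ) := [(T.h (T.h (P (nat_lit 0)) (T.h (T.h (P (nat_lit 0)) (T.h (P (nat_lit 96317312569791024340140032)) (T.h (P (nat_lit 0)) (M (nat_lit 34256219783244546047))))) (T.h (P (nat_lit 0)) (T.h (T.h (P (nat_lit 0)) (M (nat_lit 35675004736710377471))) (P (nat_lit 0)))))) (T.h (T.h (T.h (P (nat_lit 15616928336515001970541461504)) (T.h (P (nat_lit 0)) (M (nat_lit 162789078047279051440127)))) (T.h (P (nat_lit 0)) (M (nat_lit 71590307560149082963967)))) (T.h (T.h (P (nat_lit 0)) (T.h (T.h (P (nat_lit 0)) (M (nat_lit 34557863645526622207))) (P (nat_lit 0)))) (M (nat_lit 46753864263979497422847))))), (T.h (T.h (T.h (M (nat_lit 676723428360230009698212904959)) (T.h (P (nat_lit 0)) (T.h (P (nat_lit 0)) (T.h (P (nat_lit 0)) (M (nat_lit 1646501934904901631)))))) (T.h (P (nat_lit 0)) (T.h (T.h (P (nat_lit 2029706600627222844801024)) (T.h (P (nat_lit 0)) (M (nat_lit 1149067248200056831)))) (T.h (P (nat_lit 0)) (P (nat_lit 5049244370570575872))))))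 (T.h (T.h (P (nat_lit 0)) (T.h (T.h (P (nat_lit 0)) (T.h (P (nat_lit 89263618010904308744192)) (T.h (P (nat_lit 0)) (P (nat_lit 28424138705600512))))) (T.h (P (nat_lit 0)) (T.h (T.h (P (nat_lit 0)) (P (nat_lit 24589569046282240))) (P (nat_lit 0)))))) (T.h (T.h (T.h (P (nat_lit 2029706600627222844801024)) (T.h (P (nat_lit 0)) (M (nat_lit 1149067248200056831)))) (T.h (P (nat_lit 0)) (P (nat_lit 15165971108701667328)))) (T.h (T.h (P (nat_lit 0)) (T.h (T.h (P (nat_lit 0)) (P (nat_lit 24589569046282240))) (P (nat_lit 0)))) (P (nat_lit 5049244370570575872)))))), (T.h (T.h (T.h (P (nat_lit 0)) (T.h (M (nat_lit 42979369975965446881453015039)) (T.h (P (nat_lit 0)) (T.h (M (nat_lit 13665962222507981275135)) (T.h (P (nat_lit 0)) (M (nat_lit 4227772911452159))))))) (T.h (P (nat_lit 0)) (T.h (T.h (P (nat_lit 0)) (T.h (M (nat_lit 17727291699523684925439)) (T.h (P (nat_lit 0)) (P (nat_lit 12020659018924032))))) (T.h (P (nat_lit 0)) (T.h (T.h (P (nat_lit 0)) (P (nat_lit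 1320889192022016))) (P (nat_lit 0))))))) (T.h (T.h (P (nat_lit 0)) (T.h (T.h (P (nat_lit 14269728039867407925248000)) (T.h (P (nat_lit 0)) (M (nat_lit 120426958162489245695)))) (T.h (P (nat_lit 0)) (P (nat_lit 40755378388950056960))))) (T.h (T.h (T.h (P (nat_lit 0)) (T.h (M (nat_lit 17727291699523684925439)) (T.h (P (nat_lit 0)) (P (nat_lit 12020659018924032))))) (T.h (P (nat_lit 0)) (T.h (T.h (P (nat_lit 0)) (M (nat_lit 92053838179860479))) (P (nat_lit 0))))) (T.h (T.h (P (nat_lit 0)) (P (nat_lit 40755378388950056960))) (T.h (T.h (T.h (P (nat_lit 0)) (P (nat_lit 1320889192022016))) (P (nat_lit 0))) (P (nat_lit 0))))))), (T.h (T.h (T.h (P (nat_lit 49809217826486150860430035124224)) (T.h (P (nat_lit 0)) (T.h (P (nat_lit 57116738777697243275198464)) (T.h (P (nat_lit 0)) (M (nat_lit 2276348390352617471)))))) (T.h (P (nat_lit 0)) (T.h (T.h (P (nat_lit 76115722070600617014853632)) (T.h (P (nat_lit 0)) (P (nat_lit 12705833165885800448)))) (T.h (P (nat_lit 0)) (M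 (nat_lit 13424939522269904895)))))) (T.h (T.h (P (nat_lit 0)) (T.h (T.h (P (nat_lit 0)) (M (nat_lit 144571604986466572173311))) (P (nat_lit 0)))) (T.h (T.h (T.h (P (nat_lit 76115722070600617014853632)) (T.h (P (nat_lit 0)) (P (nat_lit 12705833165885800448)))) (T.h (P (nat_lit 0)) (M (nat_lit 14426183297094647807)))) (T.h (P (nat_lit 0)) (M (nat_lit 13424939522269904895)))))), (T.h (T.h (P (nat_lit 0)) (T.h (T.h (M (nat_lit 52937017390792354300541534207)) (T.h (P (nat_lit 0)) (T.h (P (nat_lit 12536557451927518969856)) (T.h (P (nat_lit 0)) (M (nat_lit 2882536193261567)))))) (T.h (P (nat_lit 0)) (T.h (T.h (M (nat_lit 7352685468606047191039)) (T.h (P (nat_lit 0)) (P (nat_lit 14879032139710464)))) (T.h (P (nat_lit 0)) (P (nat_lit 4854149649924096))))))) (T.h (T.h (T.h (P (nat_lit 0)) (T.h (M (nat_lit 9439194556011140503044095)) (T.h (P (nat_lit 0)) (P (nat_lit 5085947461818646528))))) (T.h (P (nat_lit 0)) (T.h (T.h (P (nat_lit 0)) (P (nat_lit 3677962608486383616)))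 (P (nat_lit 0))))) (T.h (T.h (P (nat_lit 0)) (T.h (T.h (M (nat_lit 10829427887595388403711)) (T.h (P (nat_lit 0)) (P (nat_lit 50248992988594176)))) (T.h (P (nat_lit 0)) (P (nat_lit 11288485081251840))))) (T.h (T.h (T.h (P (nat_lit 0)) (M (nat_lit 7915581512043462655))) (P (nat_lit 0))) (T.h (T.h (P (nat_lit 0)) (P (nat_lit 1173219417587712))) (P (nat_lit 0))))))), (T.h (T.h (P (nat_lit 0)) (T.h (T.h (P (nat_lit 0)) (T.h (P (nat_lit 42997833021988943603695616)) (T.h (P (nat_lit 0)) (M (nat_lit 22827126543832055807))))) (T.h (P (nat_lit 0)) (T.h (T.h (P (nat_lit 0)) (M (nat_lit 19527971428370481151))) (P (nat_lit 0)))))) (T.h (T.h (T.h (P (nat_lit 8024942193257158483648708608)) (T.h (P (nat_lit 0)) (P (nat_lit 255067371253272674304)))) (T.h (P (nat_lit 0)) (M (nat_lit 177640429114986890002431)))) (T.h (T.h (P (nat_lit 0)) (T.h (T.h (P (nat_lit 0)) (P (nat_lit 5356971479105798144))) (P (nat_lit 0)))) (M (nat_lit 27949133893466549387263))))), (T.h (T.h (T.h (P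 (nat_lit 42447683449089660624773404688384)) (T.h (P (nat_lit 0)) (T.h (M (nat_lit 2002053416925357523599359)) (T.h (P (nat_lit 0)) (P (nat_lit 1294389595621818368)))))) (T.h (P (nat_lit 0)) (T.h (T.h (P (nat_lit 10338251075836970503503872)) (T.h (P (nat_lit 0)) (M (nat_lit 31647683677410820095)))) (T.h (P (nat_lit 0)) (M (nat_lit 6431656650796433407)))))) (T.h (T.h (P (nat_lit 0)) (T.h (T.h (P (nat_lit 0)) (M (nat_lit 28488039123804405891071))) (P (nat_lit 0)))) (T.h (T.h (T.h (P (nat_lit 1048397985524561722998784)) (T.h (P (nat_lit 0)) (M (nat_lit 16919149614668447743)))) (T.h (P (nat_lit 0)) (M (nat_lit 20339522515677216767)))) (T.h (P (nat_lit 0)) (M (nat_lit 326317636306599935)))))), (P (nat_lit 0))]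
def lP11_27 : List (T ℤ) := [(T.h (T.h (P (nat_lit 0)) (T.h (T.h (P (nat_lit 2874759264551899117903675392)) (T.h (P (nat_lit 0)) (T.h (P (nat_lit 1940289171074890858496)) (T.h (P (nat_lit 0)) (M (nat_lit 1082473110175743)))))) (T.h (P (nat_lit 0)) (T.h (T.h (M (nat_lit 738474885769798352895)) (T.h (P (nat_lit 0)) (P (nat_lit 622586800177152)))) (T.h (P (nat_lit 0)) (M (nat_lit 853826605940735))))))) (T.h (T.h (T.h (P (nat_lit 0)) (T.h (M (nat_lit 9930660340720679142817791)) (T.h (P (nat_lit 0)) (P (nat_lit 4498897606964936704))))) (T.h (P (nat_lit 0)) (T.h (T.h (P (nat_lit 0)) (M (nat_lit 717555307059871743))) (P (nat_lit 0))))) (T.h (T.h (P (nat_lit 0)) (T.h (T.h (P (nat_lit 7643476739830000386048)) (T.h (P (nat_lit 0)) (M (nat_lit 2788580132061183)))) (T.h (P (nat_lit 0)) (P (nat_lit 4065623452418048))))) (T.h (T.h (T.h (P (nat_lit 0)) (P (nat_lit 5817303471073787904))) (P (nat_lit 0))) (T.h (T.h (P (nat_lit 0)) (M (nat_lit 5476709220483071))) (P (nat_lit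 0))))))), (T.h (T.h (P (nat_lit 0)) (T.h (T.h (P (nat_lit 0)) (T.h (P (nat_lit 9875282602521853746479104)) (T.h (P (nat_lit 0)) (P (nat_lit 5803693326376894464))))) (T.h (P (nat_lit 0)) (T.h (T.h (P (nat_lit 0)) (M (nat_lit 1587128147822772223))) (P (nat_lit 0)))))) (T.h (T.h (T.h (P (nat_lit 3740536491181234184028946432)) (T.h (P (nat_lit 0)) (T.h (M (nat_lit 1406929830933170225151)) (T.h (P (nat_lit 0)) (P (nat_lit 1768850240339968)))))) (T.h (P (nat_lit 0)) (T.h (T.h (M (nat_lit 9374060979553220689919)) (T.h (P (nat_lit 0)) (M (nat_lit 11137756148891647)))) (T.h (P (nat_lit 0)) (P (nat_lit 651352187568128)))))) (T.h (T.h (P (nat_lit 0)) (T.h (T.h (P (nat_lit 0)) (P (nat_lit 6736718963717177344))) (P (nat_lit 0)))) (T.h (T.h (T.h (M (nat_lit 227177040830728765439)) (T.h (P (nat_lit 0)) (M (nat_lit 285597451747327)))) (T.h (P (nat_lit 0)) (M (nat_lit 3020348864692223)))) (T.h (P (nat_lit 0)) (P (nat_lit 632988086468608))))))), (T.h (T.h (P (nat_lit 0)) (T.h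 (T.h (M (nat_lit 895513046034761536558333951)) (T.h (P (nat_lit 0)) (T.h (M (nat_lit 2278615923996233826303)) (T.h (P (nat_lit 0)) (P (nat_lit 3126952219639808)))))) (T.h (P (nat_lit 0)) (T.h (T.h (P (nat_lit 8232267397385362079744)) (T.h (P (nat_lit 0)) (M (nat_lit 2953990688538623)))) (T.h (P (nat_lit 0)) (P (nat_lit 2099127109287936))))))) (T.h (T.h (T.h (P (nat_lit 0)) (T.h (P (nat_lit 13679483588558852806672384)) (T.h (P (nat_lit 0)) (M (nat_lit 2937611177917677567))))) (T.h (P (nat_lit 0)) (T.h (T.h (P (nat_lit 0)) (P (nat_lit 32571348845645004800))) (P (nat_lit 0))))) (T.h (T.h (P (nat_lit 0)) (T.h (T.h (M (nat_lit 2278615923996233826303)) (T.h (P (nat_lit 0)) (P (nat_lit 12393691856896000)))) (T.h (P (nat_lit 0)) (M (nat_lit 2953990688538623))))) (T.h (T.h (T.h (P (nat_lit 0)) (M (nat_lit 2937611177917677567))) (P (nat_lit 0))) (T.h (T.h (P (nat_lit 0)) (P (nat_lit 3126952219639808))) (P (nat_lit 0))))))), (T.h (T.h (P (nat_lit 0)) (T.h (T.h (P (nat_lit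 0)) (T.h (P (nat_lit 3702461069826797472841728)) (T.h (P (nat_lit 0)) (M (nat_lit 7039414567054606335))))) (T.h (P (nat_lit 0)) (T.h (T.h (P (nat_lit 0)) (P (nat_lit 8528179222198353920))) (P (nat_lit 0)))))) (T.h (T.h (T.h (M (nat_lit 49201072690816064008665169919)) (T.h (P (nat_lit 0)) (T.h (M (nat_lit 8394835497245403512831)) (T.h (P (nat_lit 0)) (P (nat_lit 235744258031616)))))) (T.h (P (nat_lit 0)) (T.h (T.h (P (nat_lit 8767017244252998467584)) (T.h (P (nat_lit 0)) (P (nat_lit 50248992988594176)))) (T.h (P (nat_lit 0)) (M (nat_lit 1225068611567615)))))) (T.h (T.h (P (nat_lit 0)) (T.h (T.h (P (nat_lit 0)) (P (nat_lit 2978963579450949632))) (P (nat_lit 0)))) (T.h (T.h (T.h (M (nat_lit 954381245221055758335)) (T.h (P (nat_lit 0)) (P (nat_lit 6882003918913536)))) (T.h (P (nat_lit 0)) (P (nat_lit 472351797215232)))) (T.h (P (nat_lit 0)) (P (nat_lit 209098321821696))))))), (T.h (T.h (P (nat_lit 0)) (T.h (T.h (M (nat_lit 4847912892436371908541284351)) (T.h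 (P (nat_lit 0)) (M (nat_lit 7689282402489485754367)))) (T.h (P (nat_lit 0)) (M (nat_lit 3937142110085665783807))))) (T.h (T.h (T.h (P (nat_lit 0)) (T.h (P (nat_lit 6774779893922198139699200)) (T.h (P (nat_lit 0)) (M (nat_lit 3330027300455448575))))) (T.h (P (nat_lit 0)) (T.h (T.h (P (nat_lit 0)) (M (nat_lit 34303312546880290815))) (P (nat_lit 0))))) (T.h (T.h (P (nat_lit 0)) (M (nat_lit 4520338283428990418943))) (T.h (T.h (T.h (P (nat_lit 0)) (M (nat_lit 5978080759825563647))) (P (nat_lit 0))) (P (nat_lit 0)))))), (T.h (T.h (T.h (P (nat_lit 0)) (T.h (P (nat_lit 2874759264551899117903675392)) (T.h (P (nat_lit 0)) (T.h (M (nat_lit 738474885769798352895)) (T.h (P (nat_lit 0)) (M (nat_lit 853826605940735))))))) (T.h (P (nat_lit 0)) (T.h (T.h (P (nat_lit 0)) (T.h (P (nat_lit 1940289171074890858496)) (T.h (P (nat_lit 0)) (P (nat_lit 622586800177152))))) (T.h (P (nat_lit 0)) (T.h (T.h (P (nat_lit 0)) (M (nat_lit 1082473110175743))) (P (nat_lit 0))))))) (T.h (T.h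 (P (nat_lit 0)) (T.h (T.h (M (nat_lit 9930660340720679142817791)) (T.h (P (nat_lit 0)) (M (nat_lit 717555307059871743)))) (T.h (P (nat_lit 0)) (P (nat_lit 4498897606964936704))))) (T.h (T.h (T.h (P (nat_lit 0)) (T.h (P (nat_lit 7643476739830000386048)) (T.h (P (nat_lit 0)) (P (nat_lit 4065623452418048))))) (T.h (P (nat_lit 0)) (T.h (T.h (P (nat_lit 0)) (M (nat_lit 2788580132061183))) (P (nat_lit 0))))) (T.h (T.h (P (nat_lit 0)) (P (nat_lit 5817303471073787904))) (T.h (T.h (T.h (P (nat_lit 0)) (M (nat_lit 5476709220483071))) (P (nat_lit 0))) (P (nat_lit 0))))))), (T.h (T.h (T.h (M (nat_lit 2927081493154294249442284404735)) (T.h (P (nat_lit 0)) (T.h (P (nat_lit 3502497139088687288549376)) (T.h (P (nat_lit 0)) (P (nat_lit 3306608714785488896)))))) (T.h (P (nat_lit 0)) (T.h (T.h (M (nat_lit 8433683003161739429675007)) (T.h (P (nat_lit 0)) (P (nat_lit 2666819342133362688)))) (T.h (P (nat_lit 0)) (P (nat_lit 1004096111528378368)))))) (T.h (T.h (P (nat_lit 0)) (T.h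 (T.h (P (nat_lit 0)) (T.h (M (nat_lit 277084263942109265919)) (T.h (P (nat_lit 0)) (M (nat_lit 362778432634879))))) (T.h (P (nat_lit 0)) (T.h (T.h (P (nat_lit 0)) (M (nat_lit 9153391251947519))) (P (nat_lit 0)))))) (T.h (T.h (T.h (M (nat_lit 9191093184583540020346879)) (T.h (P (nat_lit 0)) (M (nat_lit 53377782175955419135)))) (T.h (P (nat_lit 0)) (M (nat_lit 28817230587324530687)))) (T.h (T.h (P (nat_lit 0)) (T.h (T.h (P (nat_lit 0)) (M (nat_lit 4367046019317759))) (P (nat_lit 0)))) (M (nat_lit 383198541759119359)))))), (T.h (T.h (T.h (P (nat_lit 0)) (T.h (M (nat_lit 10110931427917392107752390655)) (T.h (P (nat_lit 0)) (T.h (P (nat_lit 8261101118955020353536)) (T.h (P (nat_lit 0)) (P (nat_lit 533129381019648))))))) (T.h (P (nat_lit 0)) (T.h (T.h (P (nat_lit 0)) (T.h (M (nat_lit 434863121499244462079)) (T.h (P (nat_lit 0)) (M (nat_lit 15861830619299839))))) (T.h (P (nat_lit 0)) (T.h (T.h (P (nat_lit 0)) (P (nat_lit 9953874026299392))) (P (nat_lit 0)))))))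 (T.h (T.h (P (nat_lit 0)) (T.h (T.h (M (nat_lit 68482786979373198274985983)) (T.h (P (nat_lit 0)) (M (nat_lit 41803659244434620415)))) (T.h (P (nat_lit 0)) (M (nat_lit 8796228712036040703))))) (T.h (T.h (T.h (P (nat_lit 0)) (T.h (P (nat_lit 38438641801432209031168)) (T.h (P (nat_lit 0)) (M (nat_lit 2130561984954367))))) (T.h (P (nat_lit 0)) (T.h (T.h (P (nat_lit 0)) (P (nat_lit 47943131333328896))) (P (nat_lit 0))))) (T.h (T.h (P (nat_lit 0)) (M (nat_lit 8104107676780199935))) (T.h (T.h (T.h (P (nat_lit 0)) (P (nat_lit 24021546090364928))) (P (nat_lit 0))) (P (nat_lit 0)))))))]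
def lP11_28 : List (T ℤ) := [(T.h (T.h (T.h (P (nat_lit 1103063056789797682621446094848)) (T.h (P (nat_lit 0)) (T.h (P (nat_lit 3779251442669933534642176)) (T.h (P (nat_lit 0)) (M (nat_lit 8722767057218699263)))))) (T.h (P (nat_lit 0)) (T.h (T.h (P (nat_lit 16761310900828117634383872)) (T.h (P (nat_lit 0)) (P (nat_lit 2488124734957420544)))) (T.h (P (nat_lit 0)) (P (nat_lit 1685292276038762496)))))) (T.h (T.h (P (nat_lit 0)) (T.h (T.h (P (nat_lit 0)) (T.h (M (nat_lit 36489858112758766108671)) (T.h (P (nat_lit 0)) (P (nat_lit 16928777523363840))))) (T.h (P (nat_lit 0)) (T.h (T.h (P (nat_lit 0)) (P (nat_lit 48655472220831744))) (P (nat_lit 0)))))) (T.h (T.h (T.h (P (nat_lit 3779251442669933534642176)) (T.h (P (nat_lit 0)) (P (nat_lit 104697319351738433536)))) (T.h (P (nat_lit 0)) (P (nat_lit 2488124734957420544)))) (T.h (T.h (P (nat_lit 0)) (T.h (T.h (P (nat_lit 0)) (P (nat_lit 16928777523363840))) (P (nat_lit 0)))) (M (nat_lit 8722767057218699263)))))), (T.h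 (T.h (T.h (P (nat_lit 0)) (T.h (P (nat_lit 7305124718430585802427727872)) (T.h (P (nat_lit 0)) (M (nat_lit 20279155672975897788415))))) (T.h (P (nat_lit 0)) (T.h (T.h (P (nat_lit 0)) (M (nat_lit 5037294177271444144127))) (P (nat_lit 0))))) (T.h (T.h (P (nat_lit 0)) (T.h (T.h (P (nat_lit 19257407832285331475922944)) (T.h (P (nat_lit 0)) (M (nat_lit 20217337298745819135)))) (T.h (P (nat_lit 0)) (M (nat_lit 11252355669518450687))))) (T.h (T.h (T.h (P (nat_lit 0)) (M (nat_lit 96236064664401412620287))) (P (nat_lit 0))) (T.h (T.h (P (nat_lit 0)) (M (nat_lit 9833570716052619263))) (P (nat_lit 0)))))), (T.h (T.h (P (nat_lit 0)) (T.h (T.h (P (nat_lit 0)) (T.h (P (nat_lit 15335290610414365515448320)) (T.h (P (nat_lit 0)) (P (nat_lit 8578795778330329088))))) (T.h (P (nat_lit 0)) (T.h (T.h (P (nat_lit 0)) (M (nat_lit 4158563546147323903))) (P (nat_lit 0)))))) (T.h (T.h (T.h (P (nat_lit 2469837008222561632381829120)) (T.h (P (nat_lit 0)) (T.h (P (nat_lit 1442787282259084836864))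 (T.h (P (nat_lit 0)) (P (nat_lit 2231092518944768)))))) (T.h (P (nat_lit 0)) (T.h (T.h (P (nat_lit 6668307893578234855424)) (T.h (P (nat_lit 0)) (P (nat_lit 21931943582203904)))) (T.h (P (nat_lit 0)) (M (nat_lit 3211310102577151)))))) (T.h (T.h (P (nat_lit 0)) (T.h (T.h (P (nat_lit 0)) (M (nat_lit 8134717021788045311))) (P (nat_lit 0)))) (T.h (T.h (T.h (P (nat_lit 13023785487600711630848)) (T.h (P (nat_lit 0)) (M (nat_lit 24746393105268735)))) (T.h (P (nat_lit 0)) (M (nat_lit 9573983587958783)))) (T.h (P (nat_lit 0)) (M (nat_lit 9923090742673407))))))), (T.h (T.h (P (nat_lit 0)) (T.h (T.h (M (nat_lit 13494300077318474029615546367)) (T.h (P (nat_lit 0)) (T.h (P (nat_lit 4462743645001862873088)) (T.h (P (nat_lit 0)) (P (nat_lit 9844603306639360)))))) (T.h (P (nat_lit 0)) (T.h (T.h (P (nat_lit 9710245323347603750912)) (T.h (P (nat_lit 0)) (M (nat_lit 16099269648121855)))) (T.h (P (nat_lit 0)) (P (nat_lit 1502544164093952))))))) (T.h (T.h (T.h (P (nat_lit 0))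 (T.h (M (nat_lit 55420927570633091692101631)) (T.h (P (nat_lit 0)) (M (nat_lit 7002527048367341567))))) (T.h (P (nat_lit 0)) (T.h (T.h (P (nat_lit 0)) (M (nat_lit 33760611306836066303))) (P (nat_lit 0))))) (T.h (T.h (P (nat_lit 0)) (T.h (T.h (P (nat_lit 35418053493556733018112)) (T.h (P (nat_lit 0)) (P (nat_lit 39102886798753792)))) (T.h (P (nat_lit 0)) (M (nat_lit 6493318058737663))))) (T.h (T.h (T.h (P (nat_lit 0)) (M (nat_lit 22287182588033368063))) (P (nat_lit 0))) (T.h (T.h (P (nat_lit 0)) (P (nat_lit 33272101035507712))) (P (nat_lit 0))))))), (T.h (T.h (P (nat_lit 0)) (T.h (T.h (P (nat_lit 0)) (T.h (M (nat_lit 41315088959704011613667327)) (T.h (P (nat_lit 0)) (M (nat_lit 12828767962521403391))))) (T.h (P (nat_lit 0)) (T.h (T.h (P (nat_lit 0)) (M (nat_lit 15394832777912254463))) (P (nat_lit 0)))))) (T.h (T.h (T.h (P (nat_lit 48621219545383997186703884288)) (T.h (P (nat_lit 0)) (T.h (M (nat_lit 16348626763866857013247)) (T.h (P (nat_lit 0)) (P (nat_lit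 12107450128269312)))))) (T.h (P (nat_lit 0)) (T.h (T.h (M (nat_lit 10144494165842351620095)) (T.h (P (nat_lit 0)) (M (nat_lit 25988288970227711)))) (T.h (P (nat_lit 0)) (P (nat_lit 9512507387019264)))))) (T.h (T.h (P (nat_lit 0)) (T.h (T.h (P (nat_lit 0)) (P (nat_lit 5093460046679900160))) (P (nat_lit 0)))) (T.h (T.h (T.h (M (nat_lit 30123771730712355405823)) (T.h (P (nat_lit 0)) (P (nat_lit 9377507307749376)))) (T.h (P (nat_lit 0)) (P (nat_lit 19377706487906304)))) (T.h (P (nat_lit 0)) (P (nat_lit 12409553019076608))))))), (T.h (T.h (P (nat_lit 0)) (T.h (T.h (P (nat_lit 3463890725648044259572449280)) (T.h (P (nat_lit 0)) (M (nat_lit 71073351666306629238783)))) (T.h (P (nat_lit 0)) (M (nat_lit 30411850701089265418239))))) (T.h (T.h (T.h (P (nat_lit 0)) (T.h (P (nat_lit 83834684631427891003916288)) (T.h (P (nat_lit 0)) (M (nat_lit 30400729827017490431))))) (T.h (P (nat_lit 0)) (T.h (T.h (P (nat_lit 0)) (M (nat_lit 48643838893661093887))) (P (nat_lit 0)))))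 (T.h (T.h (P (nat_lit 0)) (M (nat_lit 74242295785367124574207))) (T.h (T.h (T.h (P (nat_lit 0)) (M (nat_lit 27752676367647375359))) (P (nat_lit 0))) (P (nat_lit 0)))))), (T.h (T.h (T.h (P (nat_lit 0)) (T.h (M (nat_lit 4278881695435843458421489663)) (T.h (P (nat_lit 0)) (T.h (P (nat_lit 9681411601777945477120)) (T.h (P (nat_lit 0)) (P (nat_lit 3068541892362240))))))) (T.h (P (nat_lit 0)) (T.h (T.h (P (nat_lit 0)) (T.h (P (nat_lit 2618990842504873508864)) (T.h (P (nat_lit 0)) (M (nat_lit 3191429717360639))))) (T.h (P (nat_lit 0)) (T.h (T.h (P (nat_lit 0)) (P (nat_lit 3017681499979776))) (P (nat_lit 0))))))) (T.h (T.h (P (nat_lit 0)) (T.h (T.h (P (nat_lit 26741342997298959389556736)) (T.h (P (nat_lit 0)) (P (nat_lit 40614396783243558912)))) (T.h (P (nat_lit 0)) (M (nat_lit 1143909514248978431))))) (T.h (T.h (T.h (P (nat_lit 0)) (T.h (M (nat_lit 5299204231871709839359)) (T.h (P (nat_lit 0)) (M (nat_lit 7316746762321919))))) (T.h (P (nat_lit 0)) (T.h (T.h (P (nat_lit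 0)) (P (nat_lit 3553447322320896))) (P (nat_lit 0))))) (T.h (T.h (P (nat_lit 0)) (M (nat_lit 17120686089170845695))) (T.h (T.h (T.h (P (nat_lit 0)) (P (nat_lit 12377507164782592))) (P (nat_lit 0))) (P (nat_lit 0))))))), (T.h (T.h (T.h (P (nat_lit 3244236457280320607051665375232)) (T.h (P (nat_lit 0)) (T.h (P (nat_lit 19516733952906192045998080)) (T.h (P (nat_lit 0)) (M (nat_lit 328644521208315903)))))) (T.h (P (nat_lit 0)) (T.h (T.h (P (nat_lit 6534674494748007946256384)) (T.h (P (nat_lit 0)) (P (nat_lit 2559707932677636096)))) (T.h (P (nat_lit 0)) (M (nat_lit 10736703854465777663)))))) (T.h (T.h (P (nat_lit 0)) (T.h (T.h (P (nat_lit 0)) (T.h (M (nat_lit 38735600842230921691135)) (T.h (P (nat_lit 0)) (P (nat_lit 54365174031581184))))) (T.h (P (nat_lit 0)) (T.h (T.h (P (nat_lit 0)) (P (nat_lit 22638479334113280))) (P (nat_lit 0)))))) (T.h (T.h (T.h (P (nat_lit 13981437182624500409171968)) (T.h (P (nat_lit 0)) (P (nat_lit 41459238799126036480)))) (T.h (P (nat_lit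 0)) (P (nat_lit 143668433415907049472)))) (T.h (T.h (P (nat_lit 0)) (T.h (T.h (P (nat_lit 0)) (P (nat_lit 22169232746545152))) (P (nat_lit 0)))) (M (nat_lit 9130277567104811007))))))]
def lP11_29 : List (T ℤ) := [(T.h (T.h (T.h (P (nat_lit 0)) (T.h (P (nat_lit 9031621092910988849334714368)) (T.h (P (nat_lit 0)) (M (nat_lit 34144686811494251233279))))) (T.h (P (nat_lit 0)) (T.h (T.h (P (nat_lit 0)) (M (nat_lit 61260651834352922001407))) (P (nat_lit 0))))) (T.h (T.h (P (nat_lit 0)) (T.h (T.h (P (nat_lit 100800329927209304991989760)) (T.h (P (nat_lit 0)) (P (nat_lit 11233782431070814208)))) (T.h (P (nat_lit 0)) (M (nat_lit 35997419941505531903))))) (T.h (T.h (T.h (P (nat_lit 0)) (M (nat_lit 147957377833463116201983))) (P (nat_lit 0))) (T.h (T.h (P (nat_lit 0)) (M (nat_lit 34117049779509788671))) (P (nat_lit 0)))))), (T.h (T.h (P (nat_lit 0)) (T.h (T.h (P (nat_lit 0)) (T.h (M (nat_lit 9439194556011140503044095)) (T.h (P (nat_lit 0)) (P (nat_lit 5085947461818646528)))))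 (T.h (P (nat_lit 0)) (T.h (T.h (P (nat_lit 0)) (M (nat_lit 7915581512043462655))) (P (nat_lit 0)))))) (T.h (T.h (T.h (M (nat_lit 52937017390792354300541534207)) (T.h (P (nat_lit 0)) (T.h (P (nat_lit 12536557451927518969856)) (T.h (P (nat_lit 0)) (M (nat_lit 2882536193261567)))))) (T.h (P (nat_lit 0)) (T.h (T.h (M (nat_lit 10829427887595388403711)) (T.h (P (nat_lit 0)) (P (nat_lit 50248992988594176)))) (T.h (P (nat_lit 0)) (P (nat_lit 1173219417587712)))))) (T.h (T.h (P (nat_lit 0)) (T.h (T.h (P (nat_lit 0)) (P (nat_lit 3677962608486383616))) (P (nat_lit 0)))) (T.h (T.h (T.h (M (nat_lit 7352685468606047191039)) (T.h (P (nat_lit 0)) (P (nat_lit 14879032139710464)))) (T.h (P (nat_lit 0)) (P (nat_lit 11288485081251840)))) (T.h (P (nat_lit 0)) (P (nat_lit 4854149649924096))))))), (T.h (T.h (P (nat_lit 0)) (T.h (T.h (P (nat_lit 8024942193257158483648708608)) (T.h (P (nat_lit 0)) (P (nat_lit 255067371253272674304)))) (T.h (P (nat_lit 0)) (M (nat_lit 27949133893466549387263)))))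 (T.h (T.h (T.h (P (nat_lit 0)) (T.h (P (nat_lit 42997833021988943603695616)) (T.h (P (nat_lit 0)) (M (nat_lit 22827126543832055807))))) (T.h (P (nat_lit 0)) (T.h (T.h (P (nat_lit 0)) (P (nat_lit 5356971479105798144))) (P (nat_lit 0))))) (T.h (T.h (P (nat_lit 0)) (M (nat_lit 177640429114986890002431))) (T.h (T.h (T.h (P (nat_lit 0)) (M (nat_lit 19527971428370481151))) (P (nat_lit 0))) (P (nat_lit 0)))))), (T.h (T.h (T.h (P (nat_lit 0)) (T.h (M (nat_lit 9695825784872743817082568703)) (T.h (P (nat_lit 0)) (M (nat_lit 7874284220171331567615))))) (T.h (P (nat_lit 0)) (T.h (T.h (P (nat_lit 0)) (M (nat_lit 12209620685918476173311))) (P (nat_lit 0))))) (T.h (T.h (P (nat_lit 0)) (T.h (T.h (P (nat_lit 13549559787844396279398400)) (T.h (P (nat_lit 0)) (M (nat_lit 68606625093760581631)))) (T.h (P (nat_lit 0)) (M (nat_lit 9308108060281012223))))) (T.h (T.h (T.h (P (nat_lit 0)) (M (nat_lit 12209620685918476173311))) (P (nat_lit 0))) (T.h (T.h (P (nat_lit 0)) (M (nat_lit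 9308108060281012223))) (P (nat_lit 0)))))), (T.h (T.h (T.h (P (nat_lit 96674775480032858528316129280)) (T.h (P (nat_lit 0)) (T.h (M (nat_lit 817570893295480970674175)) (T.h (P (nat_lit 0)) (M (nat_lit 692532370447794175)))))) (T.h (P (nat_lit 0)) (T.h (T.h (M (nat_lit 817570893295480970674175)) (T.h (P (nat_lit 0)) (P (nat_lit 3310063201005076480)))) (T.h (P (nat_lit 0)) (M (nat_lit 692532370447794175)))))) (T.h (T.h (P (nat_lit 0)) (T.h (T.h (P (nat_lit 0)) (T.h (M (nat_lit 2618989352391739965439)) (T.h (P (nat_lit 0)) (M (nat_lit 129461949038591))))) (T.h (P (nat_lit 0)) (T.h (T.h (P (nat_lit 0)) (M (nat_lit 129461949038591))) (P (nat_lit 0)))))) (T.h (T.h (T.h (M (nat_lit 1539936402037090780446719)) (T.h (P (nat_lit 0)) (P (nat_lit 712178620038119424)))) (T.h (P (nat_lit 0)) (P (nat_lit 712178620038119424)))) (T.h (T.h (P (nat_lit 0)) (T.h (T.h (P (nat_lit 0)) (M (nat_lit 294768566599679))) (P (nat_lit 0)))) (M (nat_lit 86536408218468351)))))), (T.h (T.h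 (T.h (P (nat_lit 0)) (T.h (P (nat_lit 47416505117441395902631641088)) (T.h (P (nat_lit 0)) (T.h (M (nat_lit 426404348199077675007)) (T.h (P (nat_lit 0)) (M (nat_lit 197059579838463))))))) (T.h (P (nat_lit 0)) (T.h (T.h (P (nat_lit 0)) (T.h (P (nat_lit 123502182344811347968)) (T.h (P (nat_lit 0)) (M (nat_lit 759253791539199))))) (T.h (P (nat_lit 0)) (T.h (T.h (P (nat_lit 0)) (P (nat_lit 636707047669760))) (P (nat_lit 0))))))) (T.h (T.h (P (nat_lit 0)) (T.h (T.h (M (nat_lit 5319889967147930443841535)) (T.h (P (nat_lit 0)) (M (nat_lit 792260735148228607)))) (T.h (P (nat_lit 0)) (M (nat_lit 3623182536559034367))))) (T.h (T.h (T.h (P (nat_lit 0)) (T.h (M (nat_lit 7653722122218524114943)) (T.h (P (nat_lit 0)) (P (nat_lit 4558637779353600))))) (T.h (P (nat_lit 0)) (T.h (T.h (P (nat_lit 0)) (M (nat_lit 8808587969626111))) (P (nat_lit 0))))) (T.h (T.h (P (nat_lit 0)) (P (nat_lit 136417751311843328))) (T.h (T.h (T.h (P (nat_lit 0)) (P (nat_lit 5284322988097536))) (P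 (nat_lit 0))) (P (nat_lit 0))))))), (T.h (T.h (T.h (M (nat_lit 338361714180115004849106452479)) (T.h (P (nat_lit 0)) (T.h (P (nat_lit 4633383109431362544730112)) (T.h (P (nat_lit 0)) (P (nat_lit 4731014563690971136)))))) (T.h (P (nat_lit 0)) (T.h (T.h (P (nat_lit 0)) (T.h (P (nat_lit 0)) (M (nat_lit 8339903994616872959)))) (T.h (P (nat_lit 0)) (M (nat_lit 823250967452450815)))))) (T.h (T.h (P (nat_lit 0)) (T.h (T.h (P (nat_lit 0)) (T.h (P (nat_lit 44631809005452154372096)) (T.h (P (nat_lit 0)) (P (nat_lit 3431794116395008))))) (T.h (P (nat_lit 0)) (T.h (T.h (P (nat_lit 0)) (P (nat_lit 14212069352800256))) (P (nat_lit 0)))))) (T.h (T.h (T.h (M (nat_lit 2603676508804139699929087)) (T.h (P (nat_lit 0)) (P (nat_lit 7582985554350833664)))) (T.h (P (nat_lit 0)) (P (nat_lit 7190836746416816128)))) (T.h (T.h (P (nat_lit 0)) (T.h (T.h (P (nat_lit 0)) (P (nat_lit 21157774929887232))) (P (nat_lit 0)))) (P (nat_lit 318229806879604736)))))), (T.h (T.h (T.h (P (nat_lit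 0)) (T.h (M (nat_lit 49201072690816064008665169919)) (T.h (P (nat_lit 0)) (T.h (M (nat_lit 954381245221055758335)) (T.h (P (nat_lit 0)) (P (nat_lit 209098321821696))))))) (T.h (P (nat_lit 0)) (T.h (T.h (P (nat_lit 0)) (T.h (P (nat_lit 8767017244252998467584)) (T.h (P (nat_lit 0)) (P (nat_lit 472351797215232))))) (T.h (P (nat_lit 0)) (T.h (T.h (P (nat_lit 0)) (M (nat_lit 1225068611567615))) (P (nat_lit 0))))))) (T.h (T.h (P (nat_lit 0)) (T.h (T.h (P (nat_lit 3702461069826797472841728)) (T.h (P (nat_lit 0)) (P (nat_lit 2978963579450949632)))) (T.h (P (nat_lit 0)) (P (nat_lit 8528179222198353920))))) (T.h (T.h (T.h (P (nat_lit 0)) (T.h (M (nat_lit 8394835497245403512831)) (T.h (P (nat_lit 0)) (P (nat_lit 6882003918913536))))) (T.h (P (nat_lit 0)) (T.h (T.h (P (nat_lit 0)) (P (nat_lit 50248992988594176))) (P (nat_lit 0))))) (T.h (T.h (P (nat_lit 0)) (M (nat_lit 7039414567054606335))) (T.h (T.h (T.h (P (nat_lit 0)) (P (nat_lit 235744258031616))) (P (nat_lit 0)))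 (P (nat_lit 0)))))))]
def lP11_30 : List (T ℤ) := [(T.h (T.h (T.h (P (nat_lit 27591110730411258944789057372160)) (T.h (P (nat_lit 0)) (T.h (P (nat_lit 1194656571771072035160064)) (T.h (P (nat_lit 0)) (M (nat_lit 437328509317152767)))))) (T.h (P (nat_lit 0)) (T.h (T.h (M (nat_lit 2432566270557964294160383)) (T.h (P (nat_lit 0)) (M (nat_lit 17635344513788542975)))) (T.h (P (nat_lit 0)) (P (nat_lit 836313505496825856)))))) (T.h (T.h (P (nat_lit 0)) (T.h (T.h (P (nat_lit 0)) (M (nat_lit 18081353133715961675775))) (P (nat_lit 0)))) (T.h (T.h (T.h (P (nat_lit 1194656571771072035160064)) (T.h (P (nat_lit 0)) (M (nat_lit 14094344025934921727)))) (T.h (P (nat_lit 0)) (M (nat_lit 17635344513788542975)))) (T.h (P (nat_lit 0)) (M (nat_lit 437328509317152767)))))), (T.h (T.h (P (nat_lit 0)) (T.h (T.h (P (nat_lit 47860890244336575236846649344)) (T.h (P (nat_lit 0)) (T.h (M (nat_lit 3597032363270198001663)) (T.h (P (nat_lit 0)) (M (nat_lit 1267602620481535)))))) (T.h (P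 (nat_lit 0)) (T.h (T.h (P (nat_lit 2173465681159660765184)) (T.h (P (nat_lit 0)) (P (nat_lit 2158071953883136)))) (T.h (P (nat_lit 0)) (P (nat_lit 702140510470144))))))) (T.h (T.h (T.h (P (nat_lit 0)) (T.h (M (nat_lit 4463515356901483409833983)) (T.h (P (nat_lit 0)) (M (nat_lit 1482488571502788607))))) (T.h (P (nat_lit 0)) (T.h (T.h (P (nat_lit 0)) (M (nat_lit 11848340227800170495))) (P (nat_lit 0))))) (T.h (T.h (P (nat_lit 0)) (T.h (T.h (M (nat_lit 784194477009793974271)) (T.h (P (nat_lit 0)) (P (nat_lit 13145120237748224)))) (T.h (P (nat_lit 0)) (M (nat_lit 7943289692454911))))) (T.h (T.h (T.h (P (nat_lit 0)) (P (nat_lit 7605483484118777856))) (P (nat_lit 0))) (T.h (T.h (P (nat_lit 0)) (P (nat_lit 6043173838946304))) (P (nat_lit 0))))))), (T.h (T.h (P (nat_lit 0)) (T.h (T.h (P (nat_lit 0)) (T.h (M (nat_lit 60039266405509223094943743)) (T.h (P (nat_lit 0)) (P (nat_lit 309226259353698304))))) (T.h (P (nat_lit 0)) (T.h (T.h (P (nat_lit 0)) (P (nat_lit 309226259353698304)))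 (P (nat_lit 0)))))) (T.h (T.h (T.h (M (nat_lit 1932805922345647315882082303)) (T.h (P (nat_lit 0)) (T.h (P (nat_lit 17679488136000722436096)) (T.h (P (nat_lit 0)) (P (nat_lit 4390270459445248)))))) (T.h (P (nat_lit 0)) (T.h (T.h (P (nat_lit 17679488136000722436096)) (T.h (P (nat_lit 0)) (P (nat_lit 2683627399806976)))) (T.h (P (nat_lit 0)) (P (nat_lit 4390270459445248)))))) (T.h (T.h (P (nat_lit 0)) (T.h (T.h (P (nat_lit 0)) (P (nat_lit 15580325017345327104))) (P (nat_lit 0)))) (T.h (T.h (T.h (P (nat_lit 17669175649043166003200)) (T.h (P (nat_lit 0)) (M (nat_lit 5994255547105279)))) (T.h (P (nat_lit 0)) (M (nat_lit 5994255547105279)))) (T.h (P (nat_lit 0)) (P (nat_lit 5558297383403520))))))), (T.h (T.h (P (nat_lit 0)) (T.h (T.h (M (nat_lit 21489684987982723440726507519)) (T.h (P (nat_lit 0)) (T.h (M (nat_lit 3526065635949872676863)) (T.h (P (nat_lit 0)) (P (nat_lit 2733952022347776)))))) (T.h (P (nat_lit 0)) (T.h (T.h (M (nat_lit 6832981111253990637567))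 (T.h (P (nat_lit 0)) (M (nat_lit 5394656012009471)))) (T.h (P (nat_lit 0)) (M (nat_lit 2113886455726079))))))) (T.h (T.h (T.h (P (nat_lit 0)) (T.h (P (nat_lit 7134864019933703962624000)) (T.h (P (nat_lit 0)) (P (nat_lit 14948699728714399744))))) (T.h (P (nat_lit 0)) (T.h (T.h (P (nat_lit 0)) (M (nat_lit 60213479081244622847))) (P (nat_lit 0))))) (T.h (T.h (P (nat_lit 0)) (T.h (T.h (M (nat_lit 14201226063573812248575)) (T.h (P (nat_lit 0)) (M (nat_lit 46026919089930239)))) (T.h (P (nat_lit 0)) (P (nat_lit 17415315030933504))))) (T.h (T.h (T.h (P (nat_lit 0)) (P (nat_lit 25806678660235657216))) (P (nat_lit 0))) (T.h (T.h (P (nat_lit 0)) (M (nat_lit 1413062830325759))) (P (nat_lit 0))))))), (T.h (T.h (P (nat_lit 0)) (T.h (T.h (P (nat_lit 0)) (T.h (P (nat_lit 19257407832285331475922944)) (T.h (P (nat_lit 0)) (M (nat_lit 9833570716052619263))))) (T.h (P (nat_lit 0)) (T.h (T.h (P (nat_lit 0)) (M (nat_lit 11252355669518450687))) (P (nat_lit 0)))))) (T.h (T.h (T.h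 (P (nat_lit 7305124718430585802427727872)) (T.h (P (nat_lit 0)) (M (nat_lit 96236064664401412620287)))) (T.h (P (nat_lit 0)) (M (nat_lit 5037294177271444144127)))) (T.h (T.h (P (nat_lit 0)) (T.h (T.h (P (nat_lit 0)) (M (nat_lit 20217337298745819135))) (P (nat_lit 0)))) (M (nat_lit 20279155672975897788415))))), (T.h (T.h (T.h (P (nat_lit 4763909934177018604741279612928)) (T.h (P (nat_lit 0)) (T.h (P (nat_lit 527913047198678619521024)) (T.h (P (nat_lit 0)) (M (nat_lit 269338501797904383)))))) (T.h (P (nat_lit 0)) (T.h (T.h (P (nat_lit 5161296156630041164251136)) (T.h (P (nat_lit 0)) (M (nat_lit 10721966297026920447)))) (T.h (P (nat_lit 0)) (P (nat_lit 5284927029345517568)))))) (T.h (T.h (P (nat_lit 0)) (T.h (T.h (P (nat_lit 0)) (T.h (P (nat_lit 49865106639535936110592)) (T.h (P (nat_lit 0)) (P (nat_lit 14212069352800256))))) (T.h (P (nat_lit 0)) (T.h (T.h (P (nat_lit 0)) (P (nat_lit 3431794116395008))) (P (nat_lit 0)))))) (T.h (T.h (T.h (M (nat_lit 1962385428806601577332735))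 (T.h (P (nat_lit 0)) (P (nat_lit 8183677018831847424)))) (T.h (P (nat_lit 0)) (P (nat_lit 8575825826765864960)))) (T.h (T.h (P (nat_lit 0)) (T.h (T.h (P (nat_lit 0)) (P (nat_lit 21157774929887232))) (P (nat_lit 0)))) (P (nat_lit 1827304169170534400)))))), (T.h (T.h (T.h (P (nat_lit 0)) (T.h (M (nat_lit 69128382668871709010465652735)) (T.h (P (nat_lit 0)) (T.h (M (nat_lit 7706511777734282182655)) (T.h (P (nat_lit 0)) (M (nat_lit 2366426921041919))))))) (T.h (P (nat_lit 0)) (T.h (T.h (P (nat_lit 0)) (T.h (M (nat_lit 1789300545487179350015)) (T.h (P (nat_lit 0)) (M (nat_lit 6094065093181439))))) (T.h (P (nat_lit 0)) (T.h (T.h (P (nat_lit 0)) (P (nat_lit 3049399808753664))) (P (nat_lit 0))))))) (T.h (T.h (P (nat_lit 0)) (T.h (T.h (P (nat_lit 12026566681958410889461760)) (T.h (P (nat_lit 0)) (M (nat_lit 53893178599770423295)))) (T.h (P (nat_lit 0)) (P (nat_lit 17501535282745311232))))) (T.h (T.h (T.h (P (nat_lit 0)) (T.h (M (nat_lit 9982267763959653203967)) (T.h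 (P (nat_lit 0)) (P (nat_lit 19107640987484160))))) (T.h (P (nat_lit 0)) (T.h (T.h (P (nat_lit 0)) (M (nat_lit 48195185223991295))) (P (nat_lit 0))))) (T.h (T.h (P (nat_lit 0)) (P (nat_lit 21935728042520346624))) (T.h (T.h (T.h (P (nat_lit 0)) (M (nat_lit 7076811243847679))) (P (nat_lit 0))) (P (nat_lit 0))))))), (T.h (T.h (T.h (P (nat_lit 39761181631921477110199364878336)) (T.h (P (nat_lit 0)) (T.h (P (nat_lit 28412110802602111325437952)) (T.h (P (nat_lit 0)) (M (nat_lit 1027163322165755903)))))) (T.h (P (nat_lit 0)) (T.h (T.h (P (nat_lit 28988882242481228408160256)) (T.h (P (nat_lit 0)) (P (nat_lit 20635119713553219584)))) (T.h (P (nat_lit 0)) (M (nat_lit 680098105051316223)))))) (T.h (T.h (P (nat_lit 0)) (T.h (T.h (P (nat_lit 0)) (M (nat_lit 82692488483321730301951))) (P (nat_lit 0)))) (T.h (T.h (T.h (P (nat_lit 56700947185817893845598208)) (T.h (P (nat_lit 0)) (M (nat_lit 13458270138289618943)))) (T.h (P (nat_lit 0)) (M (nat_lit 21225430812169601023))))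 (T.h (P (nat_lit 0)) (M (nat_lit 18281093468572876799))))))]
def lP11_31 : List (T ℤ) := [(T.h (T.h (P (nat_lit 0)) (T.h (T.h (M (nat_lit 96839770371705049578404315135)) (T.h (P (nat_lit 0)) (T.h (P (nat_lit 10503782334715691794432)) (T.h (P (nat_lit 0)) (M (nat_lit 909620825161727)))))) (T.h (P (nat_lit 0)) (T.h (T.h (M (nat_lit 1827911911701347303423)) (T.h (P (nat_lit 0)) (M (nat_lit 227057283956735)))) (T.h (P (nat_lit 0)) (M (nat_lit 43442143494143))))))) (T.h (T.h (T.h (P (nat_lit 0)) (T.h (P (nat_lit 8594163731851504399679488)) (T.h (P (nat_lit 0)) (P (nat_lit 11081014776229265408))))) (T.h (P (nat_lit 0)) (T.h (T.h (P (nat_lit 0)) (P (nat_lit 9299264060925149184))) (P (nat_lit 0))))) (T.h (T.h (P (nat_lit 0)) (T.h (T.h (M (nat_lit 4175877197631244468223)) (T.h (P (nat_lit 0)) (P (nat_lit 48080726854533120)))) (T.h (P (nat_lit 0)) (P (nat_lit 8574329875464192))))) (T.h (T.h (T.h (P (nat_lit 0)) (M (nat_lit 10910365184769916927))) (P (nat_lit 0))) (T.h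 (T.h (P (nat_lit 0)) (M (nat_lit 5428004155490303))) (P (nat_lit 0))))))), (T.h (T.h (P (nat_lit 0)) (T.h (T.h (P (nat_lit 0)) (T.h (P (nat_lit 19727262634815770798850048)) (T.h (P (nat_lit 0)) (M (nat_lit 13154495332547035135))))) (T.h (P (nat_lit 0)) (T.h (T.h (P (nat_lit 0)) (M (nat_lit 11735710379081203711))) (P (nat_lit 0)))))) (T.h (T.h (T.h (P (nat_lit 2372337535630964966826180608)) (T.h (P (nat_lit 0)) (M (nat_lit 24061822426881779040255)))) (T.h (P (nat_lit 0)) (M (nat_lit 115260592914011747516415)))) (T.h (T.h (P (nat_lit 0)) (T.h (T.h (P (nat_lit 0)) (M (nat_lit 22623157418912120831))) (P (nat_lit 0)))) (M (nat_lit 42962532670977096024063))))), (T.h (T.h (T.h (P (nat_lit 42447683449089660624773404688384)) (T.h (P (nat_lit 0)) (T.h (M (nat_lit 2002053416925357523599359)) (T.h (P (nat_lit 0)) (P (nat_lit 1294389595621818368)))))) (T.h (P (nat_lit 0)) (T.h (T.h (P (nat_lit 1048397985524561722998784)) (T.h (P (nat_lit 0)) (M (nat_lit 16919149614668447743))))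 (T.h (P (nat_lit 0)) (M (nat_lit 326317636306599935)))))) (T.h (T.h (P (nat_lit 0)) (T.h (T.h (P (nat_lit 0)) (M (nat_lit 28488039123804405891071))) (P (nat_lit 0)))) (T.h (T.h (T.h (P (nat_lit 10338251075836970503503872)) (T.h (P (nat_lit 0)) (M (nat_lit 31647683677410820095)))) (T.h (P (nat_lit 0)) (M (nat_lit 20339522515677216767)))) (T.h (P (nat_lit 0)) (M (nat_lit 6431656650796433407)))))), (T.h (T.h (P (nat_lit 0)) (T.h (T.h (P (nat_lit 0)) (T.h (P (nat_lit 1072738038739656689844224)) (T.h (P (nat_lit 0)) (P (nat_lit 107204109748142080))))) (T.h (P (nat_lit 0)) (T.h (T.h (P (nat_lit 0)) (M (nat_lit 107204109748142079))) (P (nat_lit 0)))))) (T.h (T.h (T.h (P (nat_lit 1261515900548784767341953024)) (T.h (P (nat_lit 0)) (T.h (M (nat_lit 392193281945094848511)) (T.h (P (nat_lit 0)) (M (nat_lit 432490456875007)))))) (T.h (P (nat_lit 0)) (T.h (T.h (P (nat_lit 392193281945094848512)) (T.h (P (nat_lit 0)) (M (nat_lit 10794187433312255)))) (T.h (P (nat_lit 0))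 (P (nat_lit 432490456875008)))))) (T.h (P (nat_lit 0)) (T.h (T.h (T.h (P (nat_lit 0)) (T.h (P (nat_lit 0)) (P (nat_lit 1046618715029504)))) (T.h (P (nat_lit 0)) (M (nat_lit 1046618715029503)))) (P (nat_lit 0)))))), (T.h (T.h (P (nat_lit 0)) (T.h (T.h (M (nat_lit 3383368649401081921863155711)) (T.h (P (nat_lit 0)) (T.h (P (nat_lit 4897606766501107335168)) (T.h (P (nat_lit 0)) (M (nat_lit 109270719660031)))))) (T.h (P (nat_lit 0)) (T.h (T.h (P (nat_lit 1449144204392583397376)) (T.h (P (nat_lit 0)) (M (nat_lit 237439028822015)))) (T.h (P (nat_lit 0)) (P (nat_lit 969414783074304))))))) (T.h (T.h (T.h (P (nat_lit 0)) (T.h (P (nat_lit 13061859408740106582884352)) (T.h (P (nat_lit 0)) (P (nat_lit 1793701663668699136))))) (T.h (P (nat_lit 0)) (T.h (T.h (P (nat_lit 0)) (P (nat_lit 8043047937598554112))) (P (nat_lit 0))))) (T.h (T.h (P (nat_lit 0)) (T.h (T.h (M (nat_lit 3020588307875476013055)) (T.h (P (nat_lit 0)) (M (nat_lit 8840244534575103)))) (T.h (P (nat_lit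 0)) (M (nat_lit 4362756073783295))))) (T.h (T.h (T.h (P (nat_lit 0)) (M (nat_lit 14183074911253168127))) (P (nat_lit 0))) (T.h (T.h (P (nat_lit 0)) (P (nat_lit 9250554945142784))) (P (nat_lit 0))))))), (T.h (T.h (P (nat_lit 0)) (T.h (T.h (P (nat_lit 0)) (T.h (M (nat_lit 13141655625837937975885823)) (T.h (P (nat_lit 0)) (M (nat_lit 876166944988856319))))) (T.h (P (nat_lit 0)) (T.h (T.h (P (nat_lit 0)) (M (nat_lit 3442231760379707391))) (P (nat_lit 0)))))) (T.h (T.h (T.h (M (nat_lit 3735944699976290291876364287)) (T.h (P (nat_lit 0)) (T.h (M (nat_lit 2434592390349984890879)) (T.h (P (nat_lit 0)) (P (nat_lit 937475159556096)))))) (T.h (P (nat_lit 0)) (T.h (P (nat_lit 3769540207674520502272)) (T.h (P (nat_lit 0)) (M (nat_lit 1657467581693951)))))) (T.h (T.h (P (nat_lit 0)) (T.h (T.h (P (nat_lit 0)) (P (nat_lit 698999029035433984))) (P (nat_lit 0)))) (T.h (T.h (T.h (M (nat_lit 6398304223384991432703)) (T.h (P (nat_lit 0)) (P (nat_lit 4406481162338304)))) (T.h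 (P (nat_lit 0)) (P (nat_lit 14406680342495232)))) (T.h (P (nat_lit 0)) (P (nat_lit 4645051328102400))))))), (T.h (T.h (P (nat_lit 0)) (T.h (T.h (M (nat_lit 4847912892436371908541284351)) (T.h (P (nat_lit 0)) (M (nat_lit 4520338283428990418943)))) (T.h (P (nat_lit 0)) (M (nat_lit 3937142110085665783807))))) (T.h (T.h (T.h (P (nat_lit 0)) (T.h (P (nat_lit 6774779893922198139699200)) (T.h (P (nat_lit 0)) (M (nat_lit 5978080759825563647))))) (T.h (P (nat_lit 0)) (T.h (T.h (P (nat_lit 0)) (M (nat_lit 34303312546880290815))) (P (nat_lit 0))))) (T.h (T.h (P (nat_lit 0)) (M (nat_lit 7689282402489485754367))) (T.h (T.h (T.h (P (nat_lit 0)) (M (nat_lit 3330027300455448575))) (P (nat_lit 0))) (P (nat_lit 0)))))), (T.h (T.h (T.h (P (nat_lit 0)) (T.h (M (nat_lit 3383368649401081921863155711)) (T.h (P (nat_lit 0)) (T.h (P (nat_lit 1449144204392583397376)) (T.h (P (nat_lit 0)) (P (nat_lit 969414783074304))))))) (T.h (P (nat_lit 0)) (T.h (T.h (P (nat_lit 0)) (T.h (P (nat_lit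 4897606766501107335168)) (T.h (P (nat_lit 0)) (M (nat_lit 237439028822015))))) (T.h (P (nat_lit 0)) (T.h (T.h (P (nat_lit 0)) (M (nat_lit 109270719660031))) (P (nat_lit 0))))))) (T.h (T.h (P (nat_lit 0)) (T.h (T.h (P (nat_lit 13061859408740106582884352)) (T.h (P (nat_lit 0)) (P (nat_lit 8043047937598554112)))) (T.h (P (nat_lit 0)) (P (nat_lit 1793701663668699136))))) (T.h (T.h (T.h (P (nat_lit 0)) (T.h (M (nat_lit 3020588307875476013055)) (T.h (P (nat_lit 0)) (M (nat_lit 4362756073783295))))) (T.h (P (nat_lit 0)) (T.h (T.h (P (nat_lit 0)) (M (nat_lit 8840244534575103))) (P (nat_lit 0))))) (T.h (T.h (P (nat_lit 0)) (M (nat_lit 14183074911253168127))) (T.h (T.h (T.h (P (nat_lit 0)) (P (nat_lit 9250554945142784))) (P (nat_lit 0))) (P (nat_lit 0)))))))]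
def lP11_32 : List (T ℤ) := [(T.h (T.h (T.h (P (nat_lit 2141173400490522924430219280384)) (T.h (P (nat_lit 0)) (T.h (P (nat_lit 2755423052078074411614208)) (T.h (P (nat_lit 0)) (M (nat_lit 2013936797247078399)))))) (T.h (P (nat_lit 0)) (T.h (T.h (P (nat_lit 2755423052078074411614208)) (T.h (P (nat_lit 0)) (P (nat_lit 71583197720215552)))) (T.h (P (nat_lit 0)) (M (nat_lit 2013936797247078399)))))) (T.h (T.h (P (nat_lit 0)) (T.h (T.h (P (nat_lit 0)) (T.h (M (nat_lit 2245742729472155582463)) (T.h (P (nat_lit 0)) (P (nat_lit 5709701810749440))))) (T.h (P (nat_lit 0)) (T.h (T.h (P (nat_lit 0)) (P (nat_lit 5709701810749440))) (P (nat_lit 0)))))) (T.h (T.h (T.h (P (nat_lit 10202185739954566874529792)) (T.h (P (nat_lit 0)) (P (nat_lit 38971114064168615936)))) (T.h (P (nat_lit 0)) (P (nat_lit 38971114064168615936)))) (T.h (T.h (P (nat_lit 0)) (T.h (T.h (P (nat_lit 0)) (P (nat_lit 5240455223181312))) (P (nat_lit 0)))) (M (nat_lit 407510509886111743)))))), (T.h (T.h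 (T.h (P (nat_lit 0)) (T.h (P (nat_lit 719817474826572681220980736)) (T.h (P (nat_lit 0)) (M (nat_lit 7669978220490651598847))))) (T.h (P (nat_lit 0)) (T.h (T.h (P (nat_lit 0)) (P (nat_lit 5292361548524716818432))) (P (nat_lit 0))))) (T.h (T.h (P (nat_lit 0)) (T.h (T.h (P (nat_lit 23740425189703612127772672)) (T.h (P (nat_lit 0)) (P (nat_lit 25574308777851617280)))) (T.h (P (nat_lit 0)) (M (nat_lit 11574770874313605119))))) (T.h (T.h (T.h (P (nat_lit 0)) (M (nat_lit 81404364450585477382143))) (P (nat_lit 0))) (T.h (T.h (P (nat_lit 0)) (M (nat_lit 9694400712317861887))) (P (nat_lit 0)))))), (T.h (T.h (P (nat_lit 0)) (T.h (T.h (P (nat_lit 0)) (T.h (M (nat_lit 14214393664577594665730047)) (T.h (P (nat_lit 0)) (M (nat_lit 3442231760379707391))))) (T.h (P (nat_lit 0)) (T.h (T.h (P (nat_lit 0)) (M (nat_lit 876166944988856319))) (P (nat_lit 0)))))) (T.h (T.h (T.h (M (nat_lit 4997460600525075059218317311)) (T.h (P (nat_lit 0)) (T.h (P (nat_lit 3769540207674520502272))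 (T.h (P (nat_lit 0)) (M (nat_lit 1657467581693951)))))) (T.h (P (nat_lit 0)) (T.h (T.h (M (nat_lit 2434592390349984890879)) (T.h (P (nat_lit 0)) (P (nat_lit 10794187433312256)))) (T.h (P (nat_lit 0)) (P (nat_lit 937475159556096)))))) (T.h (T.h (P (nat_lit 0)) (T.h (T.h (P (nat_lit 0)) (P (nat_lit 698999029035433984))) (P (nat_lit 0)))) (T.h (T.h (T.h (M (nat_lit 6398304223384991432703)) (T.h (P (nat_lit 0)) (P (nat_lit 14406680342495232)))) (T.h (P (nat_lit 0)) (P (nat_lit 4406481162338304)))) (T.h (P (nat_lit 0)) (P (nat_lit 4645051328102400))))))), (T.h (T.h (P (nat_lit 0)) (T.h (T.h (P (nat_lit 248281277082203022090567680)) (T.h (P (nat_lit 0)) (P (nat_lit 4900683413340880371712)))) (T.h (P (nat_lit 0)) (M (nat_lit 7669978220490651598847))))) (T.h (T.h (T.h (P (nat_lit 0)) (T.h (P (nat_lit 25255045072558001097801728)) (T.h (P (nat_lit 0)) (M (nat_lit 12730065393985519615))))) (T.h (P (nat_lit 0)) (T.h (T.h (P (nat_lit 0)) (P (nat_lit 19685679837562798080)))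 (P (nat_lit 0))))) (T.h (T.h (P (nat_lit 0)) (M (nat_lit 88526122334797044908031))) (T.h (T.h (T.h (P (nat_lit 0)) (M (nat_lit 1961496211722600447))) (P (nat_lit 0))) (P (nat_lit 0)))))), (T.h (T.h (T.h (P (nat_lit 0)) (T.h (M (nat_lit 5319449090180741567671697407)) (T.h (P (nat_lit 0)) (M (nat_lit 3937142110085665783807))))) (T.h (P (nat_lit 0)) (T.h (T.h (P (nat_lit 0)) (M (nat_lit 4912016418612826865663))) (P (nat_lit 0))))) (T.h (T.h (P (nat_lit 0)) (T.h (T.h (P (nat_lit 8289399776776587109728256)) (T.h (P (nat_lit 0)) (M (nat_lit 40191941487169110015)))) (T.h (P (nat_lit 0)) (M (nat_lit 7133375279497478143))))) (T.h (T.h (T.h (P (nat_lit 0)) (M (nat_lit 14811040286701053280255))) (P (nat_lit 0))) (T.h (T.h (P (nat_lit 0)) (P (nat_lit 4402877200139812864))) (P (nat_lit 0)))))), (T.h (T.h (T.h (P (nat_lit 5102271648357133609590386065408)) (T.h (P (nat_lit 0)) (T.h (P (nat_lit 527913047198678619521024)) (T.h (P (nat_lit 0)) (P (nat_lit 553912465654546432))))))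 (T.h (P (nat_lit 0)) (T.h (T.h (P (nat_lit 527913047198678619521024)) (T.h (P (nat_lit 0)) (M (nat_lit 2382062302410047487)))) (T.h (P (nat_lit 0)) (P (nat_lit 553912465654546432)))))) (T.h (T.h (P (nat_lit 0)) (T.h (T.h (P (nat_lit 0)) (P (nat_lit 5233297634083781738496))) (P (nat_lit 0)))) (T.h (T.h (T.h (P (nat_lit 641291079997538122596352)) (T.h (P (nat_lit 0)) (P (nat_lit 992840272415031296)))) (T.h (P (nat_lit 0)) (P (nat_lit 992840272415031296)))) (T.h (P (nat_lit 0)) (P (nat_lit 1509074362290929664)))))), (T.h (T.h (T.h (P (nat_lit 0)) (T.h (M (nat_lit 47638697680888985569739145215)) (T.h (P (nat_lit 0)) (T.h (M (nat_lit 873530666480291545087)) (T.h (P (nat_lit 0)) (M (nat_lit 252540465315839))))))) (T.h (P (nat_lit 0)) (T.h (T.h (P (nat_lit 0)) (T.h (P (nat_lit 1736765090462693326848)) (T.h (P (nat_lit 0)) (M (nat_lit 699409081171967))))) (T.h (P (nat_lit 0)) (T.h (T.h (P (nat_lit 0)) (P (nat_lit 315447786405888))) (P (nat_lit 0))))))) (T.h (T.h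 (P (nat_lit 0)) (T.h (T.h (P (nat_lit 4891702662024706926837760)) (T.h (P (nat_lit 0)) (P (nat_lit 6320300481474199552)))) (T.h (P (nat_lit 0)) (P (nat_lit 2552835554030911488))))) (T.h (T.h (T.h (P (nat_lit 0)) (T.h (P (nat_lit 4218958299614159044608)) (T.h (P (nat_lit 0)) (P (nat_lit 1692325956550656))))) (T.h (P (nat_lit 0)) (T.h (T.h (P (nat_lit 0)) (M (nat_lit 2168266134061055))) (P (nat_lit 0))))) (T.h (T.h (P (nat_lit 0)) (M (nat_lit 3870950617715310591))) (T.h (T.h (T.h (P (nat_lit 0)) (M (nat_lit 5663748413521919))) (P (nat_lit 0))) (P (nat_lit 0))))))), (T.h (T.h (T.h (P (nat_lit 14856572718678401679984347316224)) (T.h (P (nat_lit 0)) (T.h (M (nat_lit 146258586246510312161279)) (T.h (P (nat_lit 0)) (P (nat_lit 111010873010552832)))))) (T.h (P (nat_lit 0)) (T.h (T.h (P (nat_lit 430512853632606770561024)) (T.h (P (nat_lit 0)) (P (nat_lit 716194899120095232)))) (T.h (P (nat_lit 0)) (P (nat_lit 458076090124992512)))))) (T.h (T.h (P (nat_lit 0)) (T.h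 (T.h (P (nat_lit 0)) (M (nat_lit 10406685990088444215295))) (P (nat_lit 0)))) (T.h (T.h (T.h (P (nat_lit 9143594504065898468343808)) (T.h (P (nat_lit 0)) (M (nat_lit 6245178489742295039)))) (T.h (P (nat_lit 0)) (M (nat_lit 14012339163622277119)))) (T.h (P (nat_lit 0)) (M (nat_lit 5994328141479280639))))))]
def lP11_33 : List (T ℤ) := [(T.h (T.h (P (nat_lit 0)) (T.h (T.h (M (nat_lit 47638697680888985569739145215)) (T.h (P (nat_lit 0)) (T.h (P (nat_lit 1736765090462693326848)) (T.h (P (nat_lit 0)) (P (nat_lit 315447786405888)))))) (T.h (P (nat_lit 0)) (T.h (T.h (M (nat_lit 873530666480291545087)) (T.h (P (nat_lit 0)) (M (nat_lit 699409081171967)))) (T.h (P (nat_lit 0)) (M (nat_lit 252540465315839))))))) (T.h (T.h (T.h (P (nat_lit 0)) (T.h (P (nat_lit 4891702662024706926837760)) (T.h (P (nat_lit 0)) (P (nat_lit 2552835554030911488))))) (T.h (P (nat_lit 0)) (T.h (T.h (P (nat_lit 0)) (P (nat_lit 6320300481474199552))) (P (nat_lit 0))))) (T.h (T.h (P (nat_lit 0))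 (T.h (T.h (P (nat_lit 4218958299614159044608)) (T.h (P (nat_lit 0)) (M (nat_lit 2168266134061055)))) (T.h (P (nat_lit 0)) (P (nat_lit 1692325956550656))))) (T.h (T.h (T.h (P (nat_lit 0)) (M (nat_lit 3870950617715310591))) (P (nat_lit 0))) (T.h (T.h (P (nat_lit 0)) (M (nat_lit 5663748413521919))) (P (nat_lit 0))))))), (T.h (T.h (P (nat_lit 0)) (T.h (T.h (P (nat_lit 0)) (T.h (P (nat_lit 469854802530439322927104)) (T.h (P (nat_lit 0)) (M (nat_lit 1902139663028584447))))) (T.h (P (nat_lit 0)) (T.h (T.h (P (nat_lit 0)) (M (nat_lit 1902139663028584447))) (P (nat_lit 0)))))) (T.h (T.h (T.h (M (nat_lit 4932787182799620835601547263)) (T.h (P (nat_lit 0)) (M (nat_lit 19024528249610334896127)))) (T.h (P (nat_lit 0)) (M (nat_lit 19024528249610334896127)))) (T.h (T.h (P (nat_lit 0)) (T.h (T.h (P (nat_lit 0)) (M (nat_lit 2405820120166301695))) (P (nat_lit 0)))) (M (nat_lit 22683376998001198235647))))), (T.h (T.h (T.h (P (nat_lit 14856572718678401679984347316224)) (T.h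 (P (nat_lit 0)) (T.h (P (nat_lit 430512853632606770561024)) (T.h (P (nat_lit 0)) (P (nat_lit 458076090124992512)))))) (T.h (P (nat_lit 0)) (T.h (T.h (M (nat_lit 146258586246510312161279)) (T.h (P (nat_lit 0)) (M (nat_lit 2968221078117154815)))) (T.h (P (nat_lit 0)) (P (nat_lit 111010873010552832)))))) (T.h (T.h (P (nat_lit 0)) (T.h (T.h (P (nat_lit 0)) (M (nat_lit 10406685990088444215295))) (P (nat_lit 0)))) (T.h (T.h (T.h (P (nat_lit 9143594504065898468343808)) (T.h (P (nat_lit 0)) (M (nat_lit 14012339163622277119)))) (T.h (P (nat_lit 0)) (M (nat_lit 6245178489742295039)))) (T.h (P (nat_lit 0)) (M (nat_lit 5994328141479280639)))))), (T.h (T.h (P (nat_lit 0)) (T.h (T.h (P (nat_lit 0)) (M (nat_lit 1072738038739656689844223))) (P (nat_lit 0)))) (T.h (T.h (M (nat_lit 1261515900548784767341953023)) (T.h (P (nat_lit 0)) (T.h (T.h (P (nat_lit 0)) (T.h (P (nat_lit 0)) (P (nat_lit 10794187433312256)))) (P (nat_lit 0))))) (P (nat_lit 0)))), (T.h (T.h (P (nat_lit 0))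 (T.h (T.h (M (nat_lit 471536197744369659130413055)) (T.h (P (nat_lit 0)) (M (nat_lit 391678135183836446719)))) (P (nat_lit 0)))) (T.h (T.h (T.h (P (nat_lit 0)) (T.h (P (nat_lit 1514619882854388970029056)) (T.h (P (nat_lit 0)) (M (nat_lit 1155294519671914495))))) (T.h (P (nat_lit 0)) (T.h (T.h (P (nat_lit 0)) (M (nat_lit 5888628940288819199))) (P (nat_lit 0))))) (T.h (T.h (P (nat_lit 0)) (M (nat_lit 7121757884211567525887))) (T.h (T.h (T.h (P (nat_lit 0)) (P (nat_lit 7732904500595261440))) (P (nat_lit 0))) (P (nat_lit 0)))))), (T.h (T.h (T.h (P (nat_lit 0)) (M (nat_lit 471536197744369659130413055))) (T.h (P (nat_lit 0)) (T.h (T.h (P (nat_lit 0)) (M (nat_lit 391678135183836446719))) (P (nat_lit 0))))) (T.h (T.h (P (nat_lit 0)) (T.h (T.h (P (nat_lit 1514619882854388970029056)) (T.h (P (nat_lit 0)) (M (nat_lit 5888628940288819199)))) (T.h (P (nat_lit 0)) (M (nat_lit 1155294519671914495))))) (T.h (T.h (T.h (P (nat_lit 0)) (M (nat_lit 7121757884211567525887)))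 (P (nat_lit 0))) (T.h (T.h (P (nat_lit 0)) (P (nat_lit 7732904500595261440))) (P (nat_lit 0)))))), (T.h (T.h (P (nat_lit 0)) (T.h (P (nat_lit 0)) (T.h (T.h (P (nat_lit 0)) (T.h (P (nat_lit 0)) (M (nat_lit 3684415977237250047)))) (P (nat_lit 0))))) (P (nat_lit 0)))]

def CP11 : List (T ℤ) := lP11_0 ++ (lP11_1 ++ (lP11_2 ++ (lP11_3 ++ (lP11_4 ++ (lP11_5 ++ (lP11_6 ++ (lP11_7 ++ (lP11_8 ++ (lP11_9 ++ (lP11_10 ++ (lP11_11 ++ (lP11_12 ++ (lP11_13 ++ (lP11_14 ++ (lP11_15 ++ (lP11_16 ++ (lP11_17 ++ (lP11_18 ++ (lP11_19 ++ (lP11_20 ++ (lP11_21 ++ (lP11_22 ++ (lP11_23 ++ (lP11_24 ++ (lP11_25 ++ (lP11_26 ++ (lP11_27 ++ (lP11_28 ++ (lP11_29 ++ (lP11_30 ++ (lP11_31 ++ (lP11_32 ++ (lP11_33)))))))))))))))))))))))))))))))))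

/-- norms at radius 1536 -/
def NP11 : List ℕ := [(nat_lit 0), (nat_lit 0), (nat_lit 0), (nat_lit 0), (nat_lit 0), (nat_lit 0), (nat_lit 0), (nat_lit 0), (nat_lit 0), (nat_lit 0), (nat_lit 0), (nat_lit 0), (nat_lit 0), (nat_lit 0), (nat_lit 0), (nat_lit 0), (nat_lit 0), (nat_lit 4410501400340933843783516160000), (nat_lit 0), (nat_lit 0), (nat_lit 56356923892648744447542462251008), (nat_lit 126084924547667951056836731338752), (nat_lit 66949566207736474402920136179712), (nat_lit 96756764800300696749791955124224), (nat_lit 20508482180713654728318221549568), (nat_lit 0), (nat_lit 0), (nat_lit 253973338971515930342234366410752), (nat_lit 313535890192669421336471147642880), (nat_lit 406886827548466801158551425253376), (nat_lit 272666752691772492189520248176640), (nat_lit 113777423361434251459957899657216), (nat_lit 0), (nat_lit 0), (nat_lit 604986961073511986915772091858944), (nat_lit 297169233312946886049928549761024), (nat_lit 672244685986872127586390603988992),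 (nat_lit 333090729632854373064723532873728), (nat_lit 228781657724013018077053130375168), (nat_lit 0), (nat_lit 253973338971515930342234366410752), (nat_lit 297169233312946886049928549761024), (nat_lit 521893800353314774439932905652224), (nat_lit 759969030803285151357046515302400), (nat_lit 324697288678183930659515224031232), (nat_lit 56356923892648744447542462251008), (nat_lit 313535890192669421336471147642880), (nat_lit 672244685986872127586390603988992), (nat_lit 759969030803285151357046515302400), (nat_lit 388795196646809713370666756997120), (nat_lit 126084924547667951056836731338752), (nat_lit 406886827548466801158551425253376), (nat_lit 333090729632854373064723532873728), (nat_lit 324697288678183930659515224031232), (nat_lit 66949566207736474402920136179712), (nat_lit 272666752691772492189520248176640), (nat_lit 228781657724013018077053130375168), (nat_lit 96756764800300696749791955124224), (nat_lit 113777423361434251459957899657216), (nat_lit 20508482180713654728318221549568),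 (nat_lit 0), (nat_lit 0), (nat_lit 0), (nat_lit 0), (nat_lit 0), (nat_lit 0), (nat_lit 0), (nat_lit 0), (nat_lit 0), (nat_lit 0), (nat_lit 164623291717921094452527002288128), (nat_lit 0), (nat_lit 0), (nat_lit 0), (nat_lit 0), (nat_lit 0), (nat_lit 253973338971515930342234366410752), (nat_lit 532217444262604577178794940432384), (nat_lit 406886827548466801158551425253376), (nat_lit 272666752691772492189520248176640), (nat_lit 113777423361434251459957899657216), (nat_lit 0), (nat_lit 0), (nat_lit 731934159693721513838822270435328), (nat_lit 853442261453793691436024296636416), (nat_lit 674991791232888705592631507288064), (nat_lit 648724778099260479790210315452416), (nat_lit 263339394684755857721812775337984), (nat_lit 0), (nat_lit 731934159693721513838822270435328), (nat_lit 1949540932878101846127509539651584), (nat_lit 1533451367586362907325026483044352), (nat_lit 1342936830739473204158153650864128), (nat_lit 659833631278547047872015064104960), (nat_lit 253973338971515930342234366410752),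 (nat_lit 670967529599244142912988130574336), (nat_lit 1533451367586362907325026483044352), (nat_lit 1613146622295302099958793582411776), (nat_lit 727051591867252990889850166050816), (nat_lit 491597501978707051550114561654784), (nat_lit 674991791232888705592631507288064), (nat_lit 1342936830739473204158153650864128), (nat_lit 727051591867252990889850166050816), (nat_lit 406886827548466801158551425253376), (nat_lit 648724778099260479790210315452416), (nat_lit 659833631278547047872015064104960), (nat_lit 272666752691772492189520248176640), (nat_lit 263339394684755857721812775337984), (nat_lit 113777423361434251459957899657216), (nat_lit 4410501400340933843783516160000), (nat_lit 0), (nat_lit 0), (nat_lit 56356923892648744447542462251008), (nat_lit 126084924547667951056836731338752), (nat_lit 66949566207736474402920136179712), (nat_lit 96756764800300696749791955124224), (nat_lit 20508482180713654728318221549568), (nat_lit 0), (nat_lit 0), (nat_lit 253973338971515930342234366410752),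 (nat_lit 532217444262604577178794940432384), (nat_lit 406886827548466801158551425253376), (nat_lit 272666752691772492189520248176640), (nat_lit 113777423361434251459957899657216), (nat_lit 0), (nat_lit 0), (nat_lit 1209973922147023973831544183717888), (nat_lit 1210366191243789859681656706695168), (nat_lit 1326159598245085082573021233807360), (nat_lit 598829880125512640997469037002752), (nat_lit 456183046258037848980342823714816), (nat_lit 0), (nat_lit 887837977364419747085108864090112), (nat_lit 872636338711874890321982593695744), (nat_lit 1611680070910321584719711227084800), (nat_lit 1142145666726918542385730063171584), (nat_lit 664849920857613274984404549107712), (nat_lit 661150535415200665646257921851392), (nat_lit 904372657943955229941288388263936), (nat_lit 4211693345530640300234697500262400), (nat_lit 1023355677272357725102925206781952), (nat_lit 977733647161376447625188272504832), (nat_lit 845062329929922185957725408591872), (nat_lit 1591119003914437526662710772629504),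 (nat_lit 1321773199633431236868755366608896), (nat_lit 1434389616839466616499443492454400), (nat_lit 729325076689333492162108520923136), (nat_lit 1458983279945485710061582405337088), (nat_lit 1027809622450953613275491586801664), (nat_lit 429847494433155069814515487997952), (nat_lit 617681234007565723716454421889024), (nat_lit 241317060633945582116555731238912), (nat_lit 0), (nat_lit 0), (nat_lit 253973338971515930342234366410752), (nat_lit 313535890192669421336471147642880), (nat_lit 406886827548466801158551425253376), (nat_lit 272666752691772492189520248176640), (nat_lit 113777423361434251459957899657216), (nat_lit 0), (nat_lit 0), (nat_lit 731934159693721513838822270435328), (nat_lit 853442261453793691436024296636416), (nat_lit 674991791232888705592631507288064), (nat_lit 648724778099260479790210315452416), (nat_lit 263339394684755857721812775337984), (nat_lit 0), (nat_lit 887837977364419747085108864090112), (nat_lit 872636338711874890321982593695744),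 (nat_lit 1611680070910321584719711227084800), (nat_lit 1142145666726918542385730063171584), (nat_lit 664849920857613274984404549107712), (nat_lit 507946677943031860684468732821504), (nat_lit 2516730148513857020474855880916992), (nat_lit 3060599170435595227745021312630784), (nat_lit 3188770025903063781534282345873408), (nat_lit 1454103183734505981779700332101632), (nat_lit 1359985662611544676573043553730560), (nat_lit 2024957590852139162624954594230272), (nat_lit 1838716467830309790216748108087296), (nat_lit 1851636708434100211232817260003328), (nat_lit 739264115524485864994434164195328), (nat_lit 2243109791050792370557351488389120), (nat_lit 1586414294133851657719434637737984), (nat_lit 943903609661490433016496880877568), (nat_lit 975237464326448413404694988193792), (nat_lit 401402999195787503058567158562816), (nat_lit 0), (nat_lit 0), (nat_lit 604986961073511986915772091858944), (nat_lit 297169233312946886049928549761024), (nat_lit 672244685986872127586390603988992),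 (nat_lit 333090729632854373064723532873728), (nat_lit 228781657724013018077053130375168), (nat_lit 0), (nat_lit 731934159693721513838822270435328), (nat_lit 1949540932878101846127509539651584), (nat_lit 1533451367586362907325026483044352), (nat_lit 1342936830739473204158153650864128), (nat_lit 659833631278547047872015064104960), (nat_lit 661150535415200665646257921851392), (nat_lit 904372657943955229941288388263936), (nat_lit 4211693345530640300234697500262400), (nat_lit 1023355677272357725102925206781952), (nat_lit 977733647161376447625188272504832), (nat_lit 1359985662611544676573043553730560), (nat_lit 2024957590852139162624954594230272), (nat_lit 1838716467830309790216748108087296), (nat_lit 1851636708434100211232817260003328), (nat_lit 1159813223207166326828245083750400), (nat_lit 2453055057413167488804385537916928), (nat_lit 1451506700410047749802325989916672), (nat_lit 1037268522060615308639331793502208), (nat_lit 1125305513333051304442296205836288),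 (nat_lit 605646391322942296754685552361472), (nat_lit 0), (nat_lit 253973338971515930342234366410752), (nat_lit 297169233312946886049928549761024), (nat_lit 521893800353314774439932905652224), (nat_lit 759969030803285151357046515302400), (nat_lit 324697288678183930659515224031232), (nat_lit 253973338971515930342234366410752), (nat_lit 670967529599244142912988130574336), (nat_lit 1533451367586362907325026483044352), (nat_lit 1613146622295302099958793582411776), (nat_lit 727051591867252990889850166050816), (nat_lit 845062329929922185957725408591872), (nat_lit 1591119003914437526662710772629504), (nat_lit 1321773199633431236868755366608896), (nat_lit 1434389616839466616499443492454400), (nat_lit 739264115524485864994434164195328), (nat_lit 2243109791050792370557351488389120), (nat_lit 1586414294133851657719434637737984), (nat_lit 1037268522060615308639331793502208), (nat_lit 1125305513333051304442296205836288), (nat_lit 649394577356367861319030448062464), (nat_lit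 56356923892648744447542462251008), (nat_lit 313535890192669421336471147642880), (nat_lit 672244685986872127586390603988992), (nat_lit 759969030803285151357046515302400), (nat_lit 388795196646809713370666756997120), (nat_lit 491597501978707051550114561654784), (nat_lit 674991791232888705592631507288064), (nat_lit 1342936830739473204158153650864128), (nat_lit 727051591867252990889850166050816), (nat_lit 729325076689333492162108520923136), (nat_lit 1458983279945485710061582405337088), (nat_lit 1027809622450953613275491586801664), (nat_lit 943903609661490433016496880877568), (nat_lit 975237464326448413404694988193792), (nat_lit 605646391322942296754685552361472), (nat_lit 126084924547667951056836731338752), (nat_lit 406886827548466801158551425253376), (nat_lit 333090729632854373064723532873728), (nat_lit 324697288678183930659515224031232), (nat_lit 406886827548466801158551425253376), (nat_lit 648724778099260479790210315452416), (nat_lit 659833631278547047872015064104960),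 (nat_lit 429847494433155069814515487997952), (nat_lit 617681234007565723716454421889024), (nat_lit 401402999195787503058567158562816), (nat_lit 66949566207736474402920136179712), (nat_lit 272666752691772492189520248176640), (nat_lit 228781657724013018077053130375168), (nat_lit 272666752691772492189520248176640), (nat_lit 263339394684755857721812775337984), (nat_lit 241317060633945582116555731238912), (nat_lit 96756764800300696749791955124224), (nat_lit 113777423361434251459957899657216), (nat_lit 113777423361434251459957899657216), (nat_lit 20508482180713654728318221549568)]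


def lP12_0 : List (T ℤ) := [(P (nat_lit 0)), (P (nat_lit 0)), (P (nat_lit 0)), (P (nat_lit 0)), (P (nat_lit 0)), (P (nat_lit 0)), (P (nat_lit 0)), (P (nat_lit 0))]
def lP12_1 : List (T ℤ) := [(P (nat_lit 0)), (M (nat_lit 4410501400340933843783516159999)), (P (nat_lit 0)), (P (nat_lit 0)), (T.h (T.h (T.h (P (nat_lit 96674775480032858528316129280)) (T.h (P (nat_lit 0)) (T.h (M (nat_lit 1539936402037090780446719)) (T.h (P (nat_lit 0)) (M (nat_lit 86536408218468351)))))) (T.h (P (nat_lit 0)) (T.h (T.h (M (nat_lit 817570893295480970674175)) (T.h (P (nat_lit 0)) (P (nat_lit 712178620038119424)))) (T.h (P (nat_lit 0)) (M (nat_lit 692532370447794175)))))) (T.h (T.h (P (nat_lit 0)) (T.h (T.h (P (nat_lit 0)) (T.h (M (nat_lit 2618989352391739965439)) (T.h (P (nat_lit 0)) (M (nat_lit 294768566599679))))) (T.h (P (nat_lit 0)) (T.h (T.h (P (nat_lit 0)) (M (nat_lit 129461949038591))) (P (nat_lit 0)))))) (T.h (T.h (T.h (M (nat_lit 817570893295480970674175)) (T.h (P (nat_lit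 0)) (P (nat_lit 712178620038119424)))) (T.h (P (nat_lit 0)) (P (nat_lit 3310063201005076480)))) (T.h (T.h (P (nat_lit 0)) (T.h (T.h (P (nat_lit 0)) (M (nat_lit 129461949038591))) (P (nat_lit 0)))) (M (nat_lit 692532370447794175)))))), (T.h (T.h (T.h (P (nat_lit 0)) (P (nat_lit 1261515900548784767341953024))) (T.h (P (nat_lit 0)) (T.h (T.h (P (nat_lit 0)) (T.h (M (nat_lit 392193281945094848511)) (T.h (P (nat_lit 0)) (P (nat_lit 1046618715029504))))) (T.h (P (nat_lit 0)) (T.h (T.h (P (nat_lit 0)) (M (nat_lit 432490456875007))) (P (nat_lit 0))))))) (T.h (T.h (P (nat_lit 0)) (T.h (P (nat_lit 1072738038739656689844224)) (T.h (P (nat_lit 0)) (P (nat_lit 107204109748142080))))) (T.h (T.h (T.h (P (nat_lit 0)) (T.h (P (nat_lit 392193281945094848512)) (T.h (P (nat_lit 0)) (M (nat_lit 1046618715029503))))) (T.h (P (nat_lit 0)) (T.h (T.h (P (nat_lit 0)) (M (nat_lit 10794187433312255))) (P (nat_lit 0))))) (T.h (T.h (P (nat_lit 0)) (M (nat_lit 107204109748142079))) (T.h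 (T.h (T.h (P (nat_lit 0)) (P (nat_lit 432490456875008))) (P (nat_lit 0))) (P (nat_lit 0))))))), (T.h (T.h (T.h (P (nat_lit 5102271648357133609590386065408)) (T.h (P (nat_lit 0)) (T.h (P (nat_lit 641291079997538122596352)) (T.h (P (nat_lit 0)) (P (nat_lit 1509074362290929664)))))) (T.h (P (nat_lit 0)) (T.h (T.h (P (nat_lit 527913047198678619521024)) (T.h (P (nat_lit 0)) (P (nat_lit 992840272415031296)))) (T.h (P (nat_lit 0)) (P (nat_lit 553912465654546432)))))) (T.h (T.h (P (nat_lit 0)) (T.h (T.h (P (nat_lit 0)) (P (nat_lit 5233297634083781738496))) (P (nat_lit 0)))) (T.h (T.h (T.h (P (nat_lit 527913047198678619521024)) (T.h (P (nat_lit 0)) (P (nat_lit 992840272415031296)))) (T.h (P (nat_lit 0)) (M (nat_lit 2382062302410047487)))) (T.h (P (nat_lit 0)) (P (nat_lit 553912465654546432)))))), (T.h (T.h (T.h (P (nat_lit 0)) (M (nat_lit 1261515900548784767341953023))) (P (nat_lit 0))) (T.h (T.h (P (nat_lit 0)) (M (nat_lit 1072738038739656689844223))) (T.h (T.h (P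 (nat_lit 0)) (T.h (P (nat_lit 0)) (T.h (T.h (P (nat_lit 0)) (P (nat_lit 10794187433312256))) (P (nat_lit 0))))) (P (nat_lit 0)))))]
def lP12_2 : List (T ℤ) := [(T.h (P (nat_lit 0)) (T.h (P (nat_lit 0)) (T.h (T.h (P (nat_lit 0)) (T.h (P (nat_lit 0)) (M (nat_lit 3684415977237250047)))) (P (nat_lit 0))))), (P (nat_lit 0)), (P (nat_lit 0)), (P (nat_lit 0)), (T.h (T.h (P (nat_lit 0)) (T.h (T.h (P (nat_lit 0)) (T.h (M (nat_lit 9930660340720679142817791)) (T.h (P (nat_lit 0)) (P (nat_lit 5817303471073787904))))) (T.h (P (nat_lit 0)) (T.h (T.h (P (nat_lit 0)) (P (nat_lit 4498897606964936704))) (P (nat_lit 0)))))) (T.h (T.h (T.h (P (nat_lit 2874759264551899117903675392)) (T.h (P (nat_lit 0)) (T.h (P (nat_lit 7643476739830000386048)) (T.h (P (nat_lit 0)) (M (nat_lit 5476709220483071)))))) (T.h (P (nat_lit 0)) (T.h (T.h (P (nat_lit 1940289171074890858496)) (T.h (P (nat_lit 0)) (M (nat_lit 2788580132061183)))) (T.h (P (nat_lit 0)) (M (nat_lit 1082473110175743)))))) (T.h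 (T.h (P (nat_lit 0)) (T.h (T.h (P (nat_lit 0)) (M (nat_lit 717555307059871743))) (P (nat_lit 0)))) (T.h (T.h (T.h (M (nat_lit 738474885769798352895)) (T.h (P (nat_lit 0)) (P (nat_lit 4065623452418048)))) (T.h (P (nat_lit 0)) (P (nat_lit 622586800177152)))) (T.h (P (nat_lit 0)) (M (nat_lit 853826605940735))))))), (T.h (T.h (P (nat_lit 0)) (T.h (T.h (P (nat_lit 47416505117441395902631641088)) (T.h (P (nat_lit 0)) (T.h (M (nat_lit 7653722122218524114943)) (T.h (P (nat_lit 0)) (P (nat_lit 5284322988097536)))))) (T.h (P (nat_lit 0)) (T.h (T.h (M (nat_lit 426404348199077675007)) (T.h (P (nat_lit 0)) (P (nat_lit 4558637779353600)))) (T.h (P (nat_lit 0)) (M (nat_lit 197059579838463))))))) (T.h (T.h (T.h (P (nat_lit 0)) (T.h (M (nat_lit 5319889967147930443841535)) (T.h (P (nat_lit 0)) (P (nat_lit 136417751311843328))))) (T.h (P (nat_lit 0)) (T.h (T.h (P (nat_lit 0)) (M (nat_lit 792260735148228607))) (P (nat_lit 0))))) (T.h (T.h (P (nat_lit 0)) (T.h (T.h (P (nat_lit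 123502182344811347968)) (T.h (P (nat_lit 0)) (M (nat_lit 8808587969626111)))) (T.h (P (nat_lit 0)) (M (nat_lit 759253791539199))))) (T.h (T.h (T.h (P (nat_lit 0)) (M (nat_lit 3623182536559034367))) (P (nat_lit 0))) (T.h (T.h (P (nat_lit 0)) (P (nat_lit 636707047669760))) (P (nat_lit 0))))))), (T.h (T.h (P (nat_lit 0)) (T.h (T.h (P (nat_lit 0)) (T.h (P (nat_lit 13061859408740106582884352)) (T.h (P (nat_lit 0)) (M (nat_lit 14183074911253168127))))) (T.h (P (nat_lit 0)) (T.h (T.h (P (nat_lit 0)) (P (nat_lit 1793701663668699136))) (P (nat_lit 0)))))) (T.h (T.h (T.h (M (nat_lit 3383368649401081921863155711)) (T.h (P (nat_lit 0)) (T.h (M (nat_lit 3020588307875476013055)) (T.h (P (nat_lit 0)) (P (nat_lit 9250554945142784)))))) (T.h (P (nat_lit 0)) (T.h (T.h (P (nat_lit 4897606766501107335168)) (T.h (P (nat_lit 0)) (M (nat_lit 8840244534575103)))) (T.h (P (nat_lit 0)) (M (nat_lit 109270719660031)))))) (T.h (T.h (P (nat_lit 0)) (T.h (T.h (P (nat_lit 0)) (P (nat_lit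 8043047937598554112))) (P (nat_lit 0)))) (T.h (T.h (T.h (P (nat_lit 1449144204392583397376)) (T.h (P (nat_lit 0)) (M (nat_lit 4362756073783295)))) (T.h (P (nat_lit 0)) (M (nat_lit 237439028822015)))) (T.h (P (nat_lit 0)) (P (nat_lit 969414783074304))))))), (T.h (T.h (P (nat_lit 0)) (T.h (T.h (M (nat_lit 47638697680888985569739145215)) (T.h (P (nat_lit 0)) (T.h (P (nat_lit 4218958299614159044608)) (T.h (P (nat_lit 0)) (M (nat_lit 5663748413521919)))))) (T.h (P (nat_lit 0)) (T.h (T.h (M (nat_lit 873530666480291545087)) (T.h (P (nat_lit 0)) (P (nat_lit 1692325956550656)))) (T.h (P (nat_lit 0)) (M (nat_lit 252540465315839))))))) (T.h (T.h (T.h (P (nat_lit 0)) (T.h (P (nat_lit 4891702662024706926837760)) (T.h (P (nat_lit 0)) (M (nat_lit 3870950617715310591))))) (T.h (P (nat_lit 0)) (T.h (T.h (P (nat_lit 0)) (P (nat_lit 6320300481474199552))) (P (nat_lit 0))))) (T.h (T.h (P (nat_lit 0)) (T.h (T.h (P (nat_lit 1736765090462693326848)) (T.h (P (nat_lit 0)) (M (nat_lit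 2168266134061055)))) (T.h (P (nat_lit 0)) (M (nat_lit 699409081171967))))) (T.h (T.h (T.h (P (nat_lit 0)) (P (nat_lit 2552835554030911488))) (P (nat_lit 0))) (T.h (T.h (P (nat_lit 0)) (P (nat_lit 315447786405888))) (P (nat_lit 0)))))))]
def lP12_3 : List (T ℤ) := [(T.h (T.h (P (nat_lit 0)) (T.h (T.h (P (nat_lit 0)) (T.h (P (nat_lit 1514619882854388970029056)) (T.h (P (nat_lit 0)) (P (nat_lit 7732904500595261440))))) (T.h (P (nat_lit 0)) (T.h (T.h (P (nat_lit 0)) (M (nat_lit 1155294519671914495))) (P (nat_lit 0)))))) (T.h (T.h (T.h (M (nat_lit 471536197744369659130413055)) (T.h (P (nat_lit 0)) (M (nat_lit 7121757884211567525887)))) (T.h (P (nat_lit 0)) (M (nat_lit 391678135183836446719)))) (T.h (T.h (P (nat_lit 0)) (T.h (T.h (P (nat_lit 0)) (M (nat_lit 5888628940288819199))) (P (nat_lit 0)))) (P (nat_lit 0))))), (P (nat_lit 0)), (P (nat_lit 0)), (T.h (T.h (T.h (M (nat_lit 460972935309887569520215719935)) (T.h (P (nat_lit 0)) (T.h (M (nat_lit 2029091353749028599758847))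 (T.h (P (nat_lit 0)) (M (nat_lit 1526433197796098047)))))) (T.h (P (nat_lit 0)) (T.h (T.h (M (nat_lit 2029091353749028599758847)) (T.h (P (nat_lit 0)) (P (nat_lit 3990713706295066624)))) (T.h (P (nat_lit 0)) (M (nat_lit 1526433197796098047)))))) (T.h (T.h (P (nat_lit 0)) (T.h (T.h (P (nat_lit 0)) (T.h (M (nat_lit 38255836290387560890367)) (T.h (P (nat_lit 0)) (M (nat_lit 15267448728518655))))) (T.h (P (nat_lit 0)) (T.h (T.h (P (nat_lit 0)) (M (nat_lit 15267448728518655))) (P (nat_lit 0)))))) (T.h (T.h (T.h (P (nat_lit 0)) (T.h (P (nat_lit 0)) (P (nat_lit 2998689982794694656)))) (T.h (P (nat_lit 0)) (P (nat_lit 2998689982794694656)))) (T.h (T.h (P (nat_lit 0)) (T.h (T.h (P (nat_lit 0)) (M (nat_lit 14346539850792959))) (P (nat_lit 0)))) (P (nat_lit 0)))))), (T.h (T.h (T.h (P (nat_lit 0)) (T.h (P (nat_lit 3740536491181234184028946432)) (T.h (P (nat_lit 0)) (T.h (M (nat_lit 227177040830728765439)) (T.h (P (nat_lit 0)) (P (nat_lit 632988086468608))))))) (T.h (P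 (nat_lit 0)) (T.h (T.h (P (nat_lit 0)) (T.h (M (nat_lit 1406929830933170225151)) (T.h (P (nat_lit 0)) (M (nat_lit 285597451747327))))) (T.h (P (nat_lit 0)) (T.h (T.h (P (nat_lit 0)) (P (nat_lit 1768850240339968))) (P (nat_lit 0))))))) (T.h (T.h (P (nat_lit 0)) (T.h (T.h (P (nat_lit 9875282602521853746479104)) (T.h (P (nat_lit 0)) (P (nat_lit 6736718963717177344)))) (T.h (P (nat_lit 0)) (P (nat_lit 5803693326376894464))))) (T.h (T.h (T.h (P (nat_lit 0)) (T.h (M (nat_lit 9374060979553220689919)) (T.h (P (nat_lit 0)) (M (nat_lit 3020348864692223))))) (T.h (P (nat_lit 0)) (T.h (T.h (P (nat_lit 0)) (M (nat_lit 11137756148891647))) (P (nat_lit 0))))) (T.h (T.h (P (nat_lit 0)) (M (nat_lit 1587128147822772223))) (T.h (T.h (T.h (P (nat_lit 0)) (P (nat_lit 651352187568128))) (P (nat_lit 0))) (P (nat_lit 0))))))), (T.h (T.h (T.h (M (nat_lit 338361714180115004849106452479)) (T.h (P (nat_lit 0)) (T.h (M (nat_lit 2603676508804139699929087)) (T.h (P (nat_lit 0)) (P (nat_lit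 318229806879604736)))))) (T.h (P (nat_lit 0)) (T.h (T.h (P (nat_lit 4633383109431362544730112)) (T.h (P (nat_lit 0)) (P (nat_lit 7582985554350833664)))) (T.h (P (nat_lit 0)) (P (nat_lit 4731014563690971136)))))) (T.h (T.h (P (nat_lit 0)) (T.h (T.h (P (nat_lit 0)) (T.h (P (nat_lit 44631809005452154372096)) (T.h (P (nat_lit 0)) (P (nat_lit 21157774929887232))))) (T.h (P (nat_lit 0)) (T.h (T.h (P (nat_lit 0)) (P (nat_lit 3431794116395008))) (P (nat_lit 0)))))) (T.h (T.h (T.h (P (nat_lit 0)) (T.h (P (nat_lit 0)) (P (nat_lit 7190836746416816128)))) (T.h (P (nat_lit 0)) (M (nat_lit 8339903994616872959)))) (T.h (T.h (P (nat_lit 0)) (T.h (T.h (P (nat_lit 0)) (P (nat_lit 14212069352800256))) (P (nat_lit 0)))) (M (nat_lit 823250967452450815)))))), (T.h (T.h (T.h (P (nat_lit 0)) (T.h (M (nat_lit 3735944699976290291876364287)) (T.h (P (nat_lit 0)) (T.h (M (nat_lit 6398304223384991432703)) (T.h (P (nat_lit 0)) (P (nat_lit 4645051328102400))))))) (T.h (P (nat_lit 0)) (T.h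 (T.h (P (nat_lit 0)) (T.h (M (nat_lit 2434592390349984890879)) (T.h (P (nat_lit 0)) (P (nat_lit 4406481162338304))))) (T.h (P (nat_lit 0)) (T.h (T.h (P (nat_lit 0)) (P (nat_lit 937475159556096))) (P (nat_lit 0))))))) (T.h (T.h (P (nat_lit 0)) (T.h (T.h (M (nat_lit 13141655625837937975885823)) (T.h (P (nat_lit 0)) (P (nat_lit 698999029035433984)))) (T.h (P (nat_lit 0)) (M (nat_lit 876166944988856319))))) (T.h (T.h (T.h (P (nat_lit 0)) (T.h (P (nat_lit 3769540207674520502272)) (T.h (P (nat_lit 0)) (P (nat_lit 14406680342495232))))) (P (nat_lit 0))) (T.h (T.h (P (nat_lit 0)) (M (nat_lit 3442231760379707391))) (T.h (T.h (T.h (P (nat_lit 0)) (M (nat_lit 1657467581693951))) (P (nat_lit 0))) (P (nat_lit 0))))))), (T.h (T.h (T.h (P (nat_lit 14856572718678401679984347316224)) (T.h (P (nat_lit 0)) (T.h (P (nat_lit 9143594504065898468343808)) (T.h (P (nat_lit 0)) (M (nat_lit 5994328141479280639)))))) (T.h (P (nat_lit 0)) (T.h (T.h (M (nat_lit 146258586246510312161279))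 (T.h (P (nat_lit 0)) (M (nat_lit 6245178489742295039)))) (T.h (P (nat_lit 0)) (P (nat_lit 111010873010552832)))))) (T.h (T.h (P (nat_lit 0)) (T.h (T.h (P (nat_lit 0)) (M (nat_lit 10406685990088444215295))) (P (nat_lit 0)))) (T.h (T.h (T.h (P (nat_lit 430512853632606770561024)) (T.h (P (nat_lit 0)) (M (nat_lit 14012339163622277119)))) (T.h (P (nat_lit 0)) (P (nat_lit 716194899120095232)))) (T.h (P (nat_lit 0)) (P (nat_lit 458076090124992512))))))]
def lP12_4 : List (T ℤ) := [(P (nat_lit 0)), (P (nat_lit 0)), (T.h (T.h (P (nat_lit 0)) (T.h (T.h (P (nat_lit 0)) (T.h (M (nat_lit 9930660340720679142817791)) (T.h (P (nat_lit 0)) (P (nat_lit 4498897606964936704))))) (T.h (P (nat_lit 0)) (T.h (T.h (P (nat_lit 0)) (P (nat_lit 5817303471073787904))) (P (nat_lit 0)))))) (T.h (T.h (T.h (P (nat_lit 2874759264551899117903675392)) (T.h (P (nat_lit 0)) (T.h (P (nat_lit 1940289171074890858496)) (T.h (P (nat_lit 0)) (M (nat_lit 1082473110175743)))))) (T.h (P (nat_lit 0)) (T.h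 (T.h (P (nat_lit 7643476739830000386048)) (T.h (P (nat_lit 0)) (M (nat_lit 2788580132061183)))) (T.h (P (nat_lit 0)) (M (nat_lit 5476709220483071)))))) (T.h (T.h (P (nat_lit 0)) (T.h (T.h (P (nat_lit 0)) (M (nat_lit 717555307059871743))) (P (nat_lit 0)))) (T.h (T.h (T.h (M (nat_lit 738474885769798352895)) (T.h (P (nat_lit 0)) (P (nat_lit 622586800177152)))) (T.h (P (nat_lit 0)) (P (nat_lit 4065623452418048)))) (T.h (P (nat_lit 0)) (M (nat_lit 853826605940735))))))), (T.h (T.h (P (nat_lit 0)) (T.h (T.h (P (nat_lit 3740536491181234184028946432)) (T.h (P (nat_lit 0)) (T.h (M (nat_lit 1406929830933170225151)) (T.h (P (nat_lit 0)) (P (nat_lit 1768850240339968)))))) (T.h (P (nat_lit 0)) (T.h (T.h (M (nat_lit 227177040830728765439)) (T.h (P (nat_lit 0)) (M (nat_lit 285597451747327)))) (T.h (P (nat_lit 0)) (P (nat_lit 632988086468608))))))) (T.h (T.h (T.h (P (nat_lit 0)) (T.h (P (nat_lit 9875282602521853746479104)) (T.h (P (nat_lit 0)) (P (nat_lit 5803693326376894464)))))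 (T.h (P (nat_lit 0)) (T.h (T.h (P (nat_lit 0)) (P (nat_lit 6736718963717177344))) (P (nat_lit 0))))) (T.h (T.h (P (nat_lit 0)) (T.h (T.h (M (nat_lit 9374060979553220689919)) (T.h (P (nat_lit 0)) (M (nat_lit 11137756148891647)))) (T.h (P (nat_lit 0)) (M (nat_lit 3020348864692223))))) (T.h (T.h (T.h (P (nat_lit 0)) (M (nat_lit 1587128147822772223))) (P (nat_lit 0))) (T.h (T.h (P (nat_lit 0)) (P (nat_lit 651352187568128))) (P (nat_lit 0))))))), (T.h (T.h (P (nat_lit 0)) (T.h (T.h (P (nat_lit 0)) (T.h (P (nat_lit 13679483588558852806672384)) (T.h (P (nat_lit 0)) (M (nat_lit 2937611177917677567))))) (T.h (P (nat_lit 0)) (T.h (T.h (P (nat_lit 0)) (M (nat_lit 2937611177917677567))) (P (nat_lit 0)))))) (T.h (T.h (T.h (M (nat_lit 895513046034761536558333951)) (T.h (P (nat_lit 0)) (T.h (M (nat_lit 2278615923996233826303)) (T.h (P (nat_lit 0)) (P (nat_lit 3126952219639808)))))) (T.h (P (nat_lit 0)) (T.h (T.h (M (nat_lit 2278615923996233826303)) (T.h (P (nat_lit 0))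 (P (nat_lit 12393691856896000)))) (T.h (P (nat_lit 0)) (P (nat_lit 3126952219639808)))))) (T.h (T.h (P (nat_lit 0)) (T.h (T.h (P (nat_lit 0)) (P (nat_lit 32571348845645004800))) (P (nat_lit 0)))) (T.h (T.h (T.h (P (nat_lit 8232267397385362079744)) (T.h (P (nat_lit 0)) (M (nat_lit 2953990688538623)))) (T.h (P (nat_lit 0)) (M (nat_lit 2953990688538623)))) (T.h (P (nat_lit 0)) (P (nat_lit 2099127109287936))))))), (T.h (T.h (P (nat_lit 0)) (T.h (T.h (M (nat_lit 49201072690816064008665169919)) (T.h (P (nat_lit 0)) (T.h (M (nat_lit 8394835497245403512831)) (T.h (P (nat_lit 0)) (P (nat_lit 235744258031616)))))) (T.h (P (nat_lit 0)) (T.h (T.h (M (nat_lit 954381245221055758335)) (T.h (P (nat_lit 0)) (P (nat_lit 6882003918913536)))) (T.h (P (nat_lit 0)) (P (nat_lit 209098321821696))))))) (T.h (T.h (T.h (P (nat_lit 0)) (T.h (P (nat_lit 3702461069826797472841728)) (T.h (P (nat_lit 0)) (M (nat_lit 7039414567054606335))))) (T.h (P (nat_lit 0)) (T.h (T.h (P (nat_lit 0))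 (P (nat_lit 2978963579450949632))) (P (nat_lit 0))))) (T.h (T.h (P (nat_lit 0)) (T.h (T.h (P (nat_lit 8767017244252998467584)) (T.h (P (nat_lit 0)) (P (nat_lit 50248992988594176)))) (T.h (P (nat_lit 0)) (P (nat_lit 472351797215232))))) (T.h (T.h (T.h (P (nat_lit 0)) (P (nat_lit 8528179222198353920))) (P (nat_lit 0))) (T.h (T.h (P (nat_lit 0)) (M (nat_lit 1225068611567615))) (P (nat_lit 0))))))), (T.h (T.h (P (nat_lit 0)) (T.h (T.h (P (nat_lit 0)) (T.h (P (nat_lit 6774779893922198139699200)) (T.h (P (nat_lit 0)) (M (nat_lit 3330027300455448575))))) (T.h (P (nat_lit 0)) (T.h (T.h (P (nat_lit 0)) (M (nat_lit 5978080759825563647))) (P (nat_lit 0)))))) (T.h (T.h (T.h (M (nat_lit 4847912892436371908541284351)) (T.h (P (nat_lit 0)) (M (nat_lit 7689282402489485754367)))) (T.h (P (nat_lit 0)) (M (nat_lit 4520338283428990418943)))) (T.h (T.h (P (nat_lit 0)) (T.h (T.h (P (nat_lit 0)) (M (nat_lit 34303312546880290815))) (P (nat_lit 0)))) (M (nat_lit 3937142110085665783807))))),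 (P (nat_lit 0))]
def lP12_5 : List (T ℤ) := [(T.h (T.h (T.h (P (nat_lit 96674775480032858528316129280)) (T.h (P (nat_lit 0)) (T.h (M (nat_lit 817570893295480970674175)) (T.h (P (nat_lit 0)) (M (nat_lit 692532370447794175)))))) (T.h (P (nat_lit 0)) (T.h (T.h (M (nat_lit 1539936402037090780446719)) (T.h (P (nat_lit 0)) (P (nat_lit 712178620038119424)))) (T.h (P (nat_lit 0)) (M (nat_lit 86536408218468351)))))) (T.h (T.h (P (nat_lit 0)) (T.h (T.h (P (nat_lit 0)) (T.h (M (nat_lit 2618989352391739965439)) (T.h (P (nat_lit 0)) (M (nat_lit 129461949038591))))) (T.h (P (nat_lit 0)) (T.h (T.h (P (nat_lit 0)) (M (nat_lit 294768566599679))) (P (nat_lit 0)))))) (T.h (T.h (T.h (M (nat_lit 817570893295480970674175)) (T.h (P (nat_lit 0)) (P (nat_lit 3310063201005076480)))) (T.h (P (nat_lit 0)) (P (nat_lit 712178620038119424)))) (T.h (T.h (P (nat_lit 0)) (T.h (T.h (P (nat_lit 0)) (M (nat_lit 129461949038591))) (P (nat_lit 0)))) (M (nat_lit 692532370447794175)))))), (T.h (T.h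 (T.h (P (nat_lit 0)) (T.h (P (nat_lit 47416505117441395902631641088)) (T.h (P (nat_lit 0)) (T.h (M (nat_lit 426404348199077675007)) (T.h (P (nat_lit 0)) (M (nat_lit 197059579838463))))))) (T.h (P (nat_lit 0)) (T.h (T.h (P (nat_lit 0)) (T.h (M (nat_lit 7653722122218524114943)) (T.h (P (nat_lit 0)) (P (nat_lit 4558637779353600))))) (T.h (P (nat_lit 0)) (T.h (T.h (P (nat_lit 0)) (P (nat_lit 5284322988097536))) (P (nat_lit 0))))))) (T.h (T.h (P (nat_lit 0)) (T.h (T.h (M (nat_lit 5319889967147930443841535)) (T.h (P (nat_lit 0)) (M (nat_lit 792260735148228607)))) (T.h (P (nat_lit 0)) (P (nat_lit 136417751311843328))))) (T.h (T.h (T.h (P (nat_lit 0)) (T.h (P (nat_lit 123502182344811347968)) (T.h (P (nat_lit 0)) (M (nat_lit 759253791539199))))) (T.h (P (nat_lit 0)) (T.h (T.h (P (nat_lit 0)) (M (nat_lit 8808587969626111))) (P (nat_lit 0))))) (T.h (T.h (P (nat_lit 0)) (M (nat_lit 3623182536559034367))) (T.h (T.h (T.h (P (nat_lit 0)) (P (nat_lit 636707047669760))) (P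 (nat_lit 0))) (P (nat_lit 0))))))), (T.h (T.h (T.h (M (nat_lit 338361714180115004849106452479)) (T.h (P (nat_lit 0)) (T.h (P (nat_lit 4633383109431362544730112)) (T.h (P (nat_lit 0)) (P (nat_lit 4731014563690971136)))))) (T.h (P (nat_lit 0)) (T.h (T.h (M (nat_lit 2603676508804139699929087)) (T.h (P (nat_lit 0)) (P (nat_lit 7582985554350833664)))) (T.h (P (nat_lit 0)) (P (nat_lit 318229806879604736)))))) (T.h (T.h (P (nat_lit 0)) (T.h (T.h (P (nat_lit 0)) (T.h (P (nat_lit 44631809005452154372096)) (T.h (P (nat_lit 0)) (P (nat_lit 3431794116395008))))) (T.h (P (nat_lit 0)) (T.h (T.h (P (nat_lit 0)) (P (nat_lit 21157774929887232))) (P (nat_lit 0)))))) (T.h (T.h (T.h (P (nat_lit 0)) (T.h (P (nat_lit 0)) (M (nat_lit 8339903994616872959)))) (T.h (P (nat_lit 0)) (P (nat_lit 7190836746416816128)))) (T.h (T.h (P (nat_lit 0)) (T.h (T.h (P (nat_lit 0)) (P (nat_lit 14212069352800256))) (P (nat_lit 0)))) (M (nat_lit 823250967452450815)))))), (T.h (T.h (T.h (P (nat_lit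 0)) (T.h (M (nat_lit 49201072690816064008665169919)) (T.h (P (nat_lit 0)) (T.h (M (nat_lit 954381245221055758335)) (T.h (P (nat_lit 0)) (P (nat_lit 209098321821696))))))) (T.h (P (nat_lit 0)) (T.h (T.h (P (nat_lit 0)) (T.h (M (nat_lit 8394835497245403512831)) (T.h (P (nat_lit 0)) (P (nat_lit 6882003918913536))))) (T.h (P (nat_lit 0)) (T.h (T.h (P (nat_lit 0)) (P (nat_lit 235744258031616))) (P (nat_lit 0))))))) (T.h (T.h (P (nat_lit 0)) (T.h (T.h (P (nat_lit 3702461069826797472841728)) (T.h (P (nat_lit 0)) (P (nat_lit 2978963579450949632)))) (T.h (P (nat_lit 0)) (M (nat_lit 7039414567054606335))))) (T.h (T.h (T.h (P (nat_lit 0)) (T.h (P (nat_lit 8767017244252998467584)) (T.h (P (nat_lit 0)) (P (nat_lit 472351797215232))))) (T.h (P (nat_lit 0)) (T.h (T.h (P (nat_lit 0)) (P (nat_lit 50248992988594176))) (P (nat_lit 0))))) (T.h (T.h (P (nat_lit 0)) (P (nat_lit 8528179222198353920))) (T.h (T.h (T.h (P (nat_lit 0)) (M (nat_lit 1225068611567615))) (P (nat_lit 0)))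 (P (nat_lit 0))))))), (T.h (T.h (T.h (P (nat_lit 27591110730411258944789057372160)) (T.h (P (nat_lit 0)) (T.h (P (nat_lit 1194656571771072035160064)) (T.h (P (nat_lit 0)) (M (nat_lit 437328509317152767)))))) (T.h (P (nat_lit 0)) (T.h (T.h (P (nat_lit 1194656571771072035160064)) (T.h (P (nat_lit 0)) (M (nat_lit 14094344025934921727)))) (T.h (P (nat_lit 0)) (M (nat_lit 437328509317152767)))))) (T.h (T.h (P (nat_lit 0)) (T.h (T.h (P (nat_lit 0)) (M (nat_lit 18081353133715961675775))) (P (nat_lit 0)))) (T.h (T.h (T.h (M (nat_lit 2432566270557964294160383)) (T.h (P (nat_lit 0)) (M (nat_lit 17635344513788542975)))) (T.h (P (nat_lit 0)) (M (nat_lit 17635344513788542975)))) (T.h (P (nat_lit 0)) (P (nat_lit 836313505496825856)))))), (P (nat_lit 0)), (T.h (T.h (P (nat_lit 0)) (T.h (T.h (P (nat_lit 1261515900548784767341953024)) (T.h (P (nat_lit 0)) (T.h (M (nat_lit 392193281945094848511)) (T.h (P (nat_lit 0)) (M (nat_lit 432490456875007)))))) (T.h (P (nat_lit 0)) (T.h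 (T.h (P (nat_lit 0)) (T.h (P (nat_lit 0)) (P (nat_lit 1046618715029504)))) (P (nat_lit 0)))))) (T.h (T.h (T.h (P (nat_lit 0)) (T.h (P (nat_lit 1072738038739656689844224)) (T.h (P (nat_lit 0)) (P (nat_lit 107204109748142080))))) (P (nat_lit 0))) (T.h (T.h (P (nat_lit 0)) (T.h (T.h (P (nat_lit 392193281945094848512)) (T.h (P (nat_lit 0)) (M (nat_lit 10794187433312255)))) (T.h (P (nat_lit 0)) (M (nat_lit 1046618715029503))))) (T.h (T.h (T.h (P (nat_lit 0)) (M (nat_lit 107204109748142079))) (P (nat_lit 0))) (T.h (T.h (P (nat_lit 0)) (P (nat_lit 432490456875008))) (P (nat_lit 0))))))), (T.h (T.h (P (nat_lit 0)) (T.h (T.h (P (nat_lit 0)) (T.h (P (nat_lit 13061859408740106582884352)) (T.h (P (nat_lit 0)) (P (nat_lit 1793701663668699136))))) (T.h (P (nat_lit 0)) (T.h (T.h (P (nat_lit 0)) (M (nat_lit 14183074911253168127))) (P (nat_lit 0)))))) (T.h (T.h (T.h (M (nat_lit 3383368649401081921863155711)) (T.h (P (nat_lit 0)) (T.h (P (nat_lit 4897606766501107335168)) (T.h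 (P (nat_lit 0)) (M (nat_lit 109270719660031)))))) (T.h (P (nat_lit 0)) (T.h (T.h (M (nat_lit 3020588307875476013055)) (T.h (P (nat_lit 0)) (M (nat_lit 8840244534575103)))) (T.h (P (nat_lit 0)) (P (nat_lit 9250554945142784)))))) (T.h (T.h (P (nat_lit 0)) (T.h (T.h (P (nat_lit 0)) (P (nat_lit 8043047937598554112))) (P (nat_lit 0)))) (T.h (T.h (T.h (P (nat_lit 1449144204392583397376)) (T.h (P (nat_lit 0)) (M (nat_lit 237439028822015)))) (T.h (P (nat_lit 0)) (M (nat_lit 4362756073783295)))) (T.h (P (nat_lit 0)) (P (nat_lit 969414783074304)))))))]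
def lP12_6 : List (T ℤ) := [(T.h (T.h (P (nat_lit 0)) (T.h (T.h (M (nat_lit 3735944699976290291876364287)) (T.h (P (nat_lit 0)) (T.h (M (nat_lit 2434592390349984890879)) (T.h (P (nat_lit 0)) (P (nat_lit 937475159556096)))))) (T.h (P (nat_lit 0)) (T.h (T.h (M (nat_lit 6398304223384991432703)) (T.h (P (nat_lit 0)) (P (nat_lit 4406481162338304)))) (T.h (P (nat_lit 0)) (P (nat_lit 4645051328102400))))))) (T.h (T.h (T.h (P (nat_lit 0)) (T.h (M (nat_lit 13141655625837937975885823)) (T.h (P (nat_lit 0)) (M (nat_lit 876166944988856319))))) (T.h (P (nat_lit 0)) (T.h (T.h (P (nat_lit 0)) (P (nat_lit 698999029035433984))) (P (nat_lit 0))))) (T.h (T.h (P (nat_lit 0)) (T.h (P (nat_lit 3769540207674520502272)) (T.h (P (nat_lit 0)) (P (nat_lit 14406680342495232))))) (T.h (T.h (T.h (P (nat_lit 0)) (M (nat_lit 3442231760379707391))) (P (nat_lit 0))) (T.h (T.h (P (nat_lit 0)) (M (nat_lit 1657467581693951))) (P (nat_lit 0))))))), (T.h (T.h (P (nat_lit 0)) (T.h (T.h (P (nat_lit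 0)) (T.h (P (nat_lit 6774779893922198139699200)) (T.h (P (nat_lit 0)) (M (nat_lit 5978080759825563647))))) (T.h (P (nat_lit 0)) (T.h (T.h (P (nat_lit 0)) (M (nat_lit 3330027300455448575))) (P (nat_lit 0)))))) (T.h (T.h (T.h (M (nat_lit 4847912892436371908541284351)) (T.h (P (nat_lit 0)) (M (nat_lit 4520338283428990418943)))) (T.h (P (nat_lit 0)) (M (nat_lit 7689282402489485754367)))) (T.h (T.h (P (nat_lit 0)) (T.h (T.h (P (nat_lit 0)) (M (nat_lit 34303312546880290815))) (P (nat_lit 0)))) (M (nat_lit 3937142110085665783807))))), (P (nat_lit 0)), (T.h (T.h (T.h (P (nat_lit 5102271648357133609590386065408)) (T.h (P (nat_lit 0)) (T.h (P (nat_lit 527913047198678619521024)) (T.h (P (nat_lit 0)) (P (nat_lit 553912465654546432)))))) (T.h (P (nat_lit 0)) (T.h (T.h (P (nat_lit 641291079997538122596352)) (T.h (P (nat_lit 0)) (P (nat_lit 992840272415031296)))) (T.h (P (nat_lit 0)) (P (nat_lit 1509074362290929664)))))) (T.h (T.h (P (nat_lit 0)) (T.h (T.h (P (nat_lit 0))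 (P (nat_lit 5233297634083781738496))) (P (nat_lit 0)))) (T.h (T.h (T.h (P (nat_lit 527913047198678619521024)) (T.h (P (nat_lit 0)) (M (nat_lit 2382062302410047487)))) (T.h (P (nat_lit 0)) (P (nat_lit 992840272415031296)))) (T.h (P (nat_lit 0)) (P (nat_lit 553912465654546432)))))), (T.h (T.h (T.h (P (nat_lit 0)) (T.h (M (nat_lit 47638697680888985569739145215)) (T.h (P (nat_lit 0)) (T.h (M (nat_lit 873530666480291545087)) (T.h (P (nat_lit 0)) (M (nat_lit 252540465315839))))))) (T.h (P (nat_lit 0)) (T.h (T.h (P (nat_lit 0)) (T.h (P (nat_lit 4218958299614159044608)) (T.h (P (nat_lit 0)) (P (nat_lit 1692325956550656))))) (T.h (P (nat_lit 0)) (T.h (T.h (P (nat_lit 0)) (M (nat_lit 5663748413521919))) (P (nat_lit 0))))))) (T.h (T.h (P (nat_lit 0)) (T.h (T.h (P (nat_lit 4891702662024706926837760)) (T.h (P (nat_lit 0)) (P (nat_lit 6320300481474199552)))) (T.h (P (nat_lit 0)) (M (nat_lit 3870950617715310591))))) (T.h (T.h (T.h (P (nat_lit 0)) (T.h (P (nat_lit 1736765090462693326848))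 (T.h (P (nat_lit 0)) (M (nat_lit 699409081171967))))) (T.h (P (nat_lit 0)) (T.h (T.h (P (nat_lit 0)) (M (nat_lit 2168266134061055))) (P (nat_lit 0))))) (T.h (T.h (P (nat_lit 0)) (P (nat_lit 2552835554030911488))) (T.h (T.h (T.h (P (nat_lit 0)) (P (nat_lit 315447786405888))) (P (nat_lit 0))) (P (nat_lit 0))))))), (T.h (T.h (T.h (P (nat_lit 14856572718678401679984347316224)) (T.h (P (nat_lit 0)) (T.h (M (nat_lit 146258586246510312161279)) (T.h (P (nat_lit 0)) (P (nat_lit 111010873010552832)))))) (T.h (P (nat_lit 0)) (T.h (T.h (P (nat_lit 9143594504065898468343808)) (T.h (P (nat_lit 0)) (M (nat_lit 6245178489742295039)))) (T.h (P (nat_lit 0)) (M (nat_lit 5994328141479280639)))))) (T.h (T.h (P (nat_lit 0)) (T.h (T.h (P (nat_lit 0)) (M (nat_lit 10406685990088444215295))) (P (nat_lit 0)))) (T.h (T.h (T.h (P (nat_lit 430512853632606770561024)) (T.h (P (nat_lit 0)) (P (nat_lit 716194899120095232)))) (T.h (P (nat_lit 0)) (M (nat_lit 14012339163622277119)))) (T.h (P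 (nat_lit 0)) (P (nat_lit 458076090124992512)))))), (P (nat_lit 0)), (T.h (T.h (P (nat_lit 0)) (M (nat_lit 1261515900548784767341953023))) (T.h (T.h (T.h (P (nat_lit 0)) (M (nat_lit 1072738038739656689844223))) (P (nat_lit 0))) (T.h (T.h (P (nat_lit 0)) (T.h (T.h (P (nat_lit 0)) (T.h (P (nat_lit 0)) (P (nat_lit 10794187433312256)))) (P (nat_lit 0)))) (P (nat_lit 0)))))]
def lP12_7 : List (T ℤ) := [(T.h (T.h (P (nat_lit 0)) (T.h (T.h (P (nat_lit 0)) (T.h (P (nat_lit 1514619882854388970029056)) (T.h (P (nat_lit 0)) (M (nat_lit 1155294519671914495))))) (T.h (P (nat_lit 0)) (T.h (T.h (P (nat_lit 0)) (P (nat_lit 7732904500595261440))) (P (nat_lit 0)))))) (T.h (T.h (T.h (M (nat_lit 471536197744369659130413055)) (T.h (P (nat_lit 0)) (M (nat_lit 391678135183836446719)))) (T.h (P (nat_lit 0)) (M (nat_lit 7121757884211567525887)))) (T.h (T.h (P (nat_lit 0)) (T.h (T.h (P (nat_lit 0)) (M (nat_lit 5888628940288819199))) (P (nat_lit 0)))) (P (nat_lit 0))))), (P (nat_lit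 0)), (T.h (P (nat_lit 0)) (T.h (P (nat_lit 0)) (T.h (T.h (T.h (P (nat_lit 0)) (T.h (P (nat_lit 0)) (M (nat_lit 3684415977237250047)))) (P (nat_lit 0))) (P (nat_lit 0))))), (P (nat_lit 0)), (P (nat_lit 0)), (P (nat_lit 0)), (P (nat_lit 0)), (T.h (T.h (T.h (P (nat_lit 785908092663771325012065124352)) (T.h (P (nat_lit 0)) (T.h (M (nat_lit 1011092555371026854182911)) (T.h (P (nat_lit 0)) (P (nat_lit 790709051645231104)))))) (T.h (P (nat_lit 0)) (T.h (T.h (M (nat_lit 289830120041548341051391)) (T.h (P (nat_lit 0)) (P (nat_lit 2126392317471358976)))) (T.h (P (nat_lit 0)) (M (nat_lit 141415615909855231)))))) (T.h (T.h (P (nat_lit 0)) (T.h (T.h (P (nat_lit 0)) (T.h (P (nat_lit 2522826993414264848384)) (T.h (P (nat_lit 0)) (M (nat_lit 873409203863551))))) (T.h (P (nat_lit 0)) (T.h (T.h (P (nat_lit 0)) (M (nat_lit 951616968458239))) (P (nat_lit 0)))))) (T.h (T.h (T.h (M (nat_lit 289830120041548341051391)) (T.h (P (nat_lit 0)) (P (nat_lit 2126392317471358976)))) (T.h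 (P (nat_lit 0)) (M (nat_lit 2738402539853578239)))) (T.h (T.h (P (nat_lit 0)) (T.h (T.h (P (nat_lit 0)) (M (nat_lit 951616968458239))) (P (nat_lit 0)))) (M (nat_lit 141415615909855231))))))]
def lP12_8 : List (T ℤ) := [(P (nat_lit 0)), (P (nat_lit 0)), (P (nat_lit 0)), (P (nat_lit 0)), (P (nat_lit 0)), (T.h (T.h (P (nat_lit 0)) (T.h (T.h (P (nat_lit 2874759264551899117903675392)) (T.h (P (nat_lit 0)) (T.h (P (nat_lit 7643476739830000386048)) (T.h (P (nat_lit 0)) (M (nat_lit 5476709220483071)))))) (T.h (P (nat_lit 0)) (T.h (T.h (M (nat_lit 738474885769798352895)) (T.h (P (nat_lit 0)) (P (nat_lit 4065623452418048)))) (T.h (P (nat_lit 0)) (M (nat_lit 853826605940735))))))) (T.h (T.h (T.h (P (nat_lit 0)) (T.h (M (nat_lit 9930660340720679142817791)) (T.h (P (nat_lit 0)) (P (nat_lit 5817303471073787904))))) (T.h (P (nat_lit 0)) (T.h (T.h (P (nat_lit 0)) (M (nat_lit 717555307059871743))) (P (nat_lit 0))))) (T.h (T.h (P (nat_lit 0)) (T.h (T.h (P (nat_lit 1940289171074890858496))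 (T.h (P (nat_lit 0)) (M (nat_lit 2788580132061183)))) (T.h (P (nat_lit 0)) (P (nat_lit 622586800177152))))) (T.h (T.h (T.h (P (nat_lit 0)) (P (nat_lit 4498897606964936704))) (P (nat_lit 0))) (T.h (T.h (P (nat_lit 0)) (M (nat_lit 1082473110175743))) (P (nat_lit 0))))))), (T.h (T.h (P (nat_lit 0)) (T.h (T.h (P (nat_lit 0)) (T.h (P (nat_lit 319569498317501149216768)) (T.h (P (nat_lit 0)) (P (nat_lit 4751714980791844864))))) (T.h (P (nat_lit 0)) (T.h (T.h (P (nat_lit 0)) (P (nat_lit 3960897875554074624))) (P (nat_lit 0)))))) (T.h (T.h (T.h (P (nat_lit 46888563397229012898902179840)) (T.h (P (nat_lit 0)) (T.h (M (nat_lit 5452033685115411365887)) (T.h (P (nat_lit 0)) (P (nat_lit 8203954149588992)))))) (T.h (P (nat_lit 0)) (T.h (T.h (P (nat_lit 2654726983888261873664)) (T.h (P (nat_lit 0)) (P (nat_lit 5899593957507072)))) (T.h (P (nat_lit 0)) (M (nat_lit 1760556762005503)))))) (T.h (T.h (P (nat_lit 0)) (T.h (T.h (P (nat_lit 0)) (M (nat_lit 3940364796284633087)))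 (P (nat_lit 0)))) (T.h (T.h (T.h (P (nat_lit 2803715435097327927296)) (T.h (P (nat_lit 0)) (M (nat_lit 11372812971999231)))) (T.h (P (nat_lit 0)) (P (nat_lit 2655078350913536)))) (T.h (P (nat_lit 0)) (P (nat_lit 957169283891200))))))), (T.h (T.h (P (nat_lit 0)) (T.h (T.h (M (nat_lit 3383368649401081921863155711)) (T.h (P (nat_lit 0)) (T.h (M (nat_lit 3020588307875476013055)) (T.h (P (nat_lit 0)) (P (nat_lit 9250554945142784)))))) (T.h (P (nat_lit 0)) (T.h (T.h (P (nat_lit 1449144204392583397376)) (T.h (P (nat_lit 0)) (M (nat_lit 4362756073783295)))) (T.h (P (nat_lit 0)) (P (nat_lit 969414783074304))))))) (T.h (T.h (T.h (P (nat_lit 0)) (T.h (P (nat_lit 13061859408740106582884352)) (T.h (P (nat_lit 0)) (M (nat_lit 14183074911253168127))))) (T.h (P (nat_lit 0)) (T.h (T.h (P (nat_lit 0)) (P (nat_lit 8043047937598554112))) (P (nat_lit 0))))) (T.h (T.h (P (nat_lit 0)) (T.h (T.h (P (nat_lit 4897606766501107335168)) (T.h (P (nat_lit 0)) (M (nat_lit 8840244534575103))))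 (T.h (P (nat_lit 0)) (M (nat_lit 237439028822015))))) (T.h (T.h (T.h (P (nat_lit 0)) (P (nat_lit 1793701663668699136))) (P (nat_lit 0))) (T.h (T.h (P (nat_lit 0)) (M (nat_lit 109270719660031))) (P (nat_lit 0)))))))]
def lP12_9 : List (T ℤ) := [(T.h (T.h (P (nat_lit 0)) (T.h (T.h (P (nat_lit 0)) (T.h (P (nat_lit 4891702662024706926837760)) (T.h (P (nat_lit 0)) (M (nat_lit 3870950617715310591))))) (T.h (P (nat_lit 0)) (T.h (T.h (P (nat_lit 0)) (P (nat_lit 2552835554030911488))) (P (nat_lit 0)))))) (T.h (T.h (T.h (M (nat_lit 47638697680888985569739145215)) (T.h (P (nat_lit 0)) (T.h (P (nat_lit 4218958299614159044608)) (T.h (P (nat_lit 0)) (M (nat_lit 5663748413521919)))))) (T.h (P (nat_lit 0)) (T.h (T.h (P (nat_lit 1736765090462693326848)) (T.h (P (nat_lit 0)) (M (nat_lit 2168266134061055)))) (T.h (P (nat_lit 0)) (P (nat_lit 315447786405888)))))) (T.h (T.h (P (nat_lit 0)) (T.h (T.h (P (nat_lit 0)) (P (nat_lit 6320300481474199552))) (P (nat_lit 0)))) (T.h (T.h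 (T.h (M (nat_lit 873530666480291545087)) (T.h (P (nat_lit 0)) (P (nat_lit 1692325956550656)))) (T.h (P (nat_lit 0)) (M (nat_lit 699409081171967)))) (T.h (P (nat_lit 0)) (M (nat_lit 252540465315839))))))), (T.h (T.h (P (nat_lit 0)) (T.h (T.h (M (nat_lit 471536197744369659130413055)) (T.h (P (nat_lit 0)) (M (nat_lit 7121757884211567525887)))) (P (nat_lit 0)))) (T.h (T.h (T.h (P (nat_lit 0)) (T.h (P (nat_lit 1514619882854388970029056)) (T.h (P (nat_lit 0)) (P (nat_lit 7732904500595261440))))) (T.h (P (nat_lit 0)) (T.h (T.h (P (nat_lit 0)) (M (nat_lit 5888628940288819199))) (P (nat_lit 0))))) (T.h (T.h (P (nat_lit 0)) (M (nat_lit 391678135183836446719))) (T.h (T.h (T.h (P (nat_lit 0)) (M (nat_lit 1155294519671914495))) (P (nat_lit 0))) (P (nat_lit 0)))))), (P (nat_lit 0)), (P (nat_lit 0)), (T.h (T.h (T.h (P (nat_lit 0)) (T.h (P (nat_lit 0)) (T.h (P (nat_lit 0)) (T.h (P (nat_lit 0)) (T.h (P (nat_lit 0)) (M (nat_lit 955482939457535))))))) (T.h (P (nat_lit 0)) (T.h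 (T.h (P (nat_lit 0)) (T.h (M (nat_lit 4023288376355572416511)) (T.h (P (nat_lit 0)) (P (nat_lit 17746068228407296))))) (T.h (P (nat_lit 0)) (T.h (T.h (P (nat_lit 0)) (M (nat_lit 5123191855120383))) (P (nat_lit 0))))))) (T.h (T.h (P (nat_lit 0)) (T.h (T.h (P (nat_lit 64503246115057485794508800)) (T.h (P (nat_lit 0)) (P (nat_lit 12938633457344446464)))) (T.h (P (nat_lit 0)) (P (nat_lit 795046254307442688))))) (T.h (T.h (T.h (P (nat_lit 0)) (T.h (M (nat_lit 4023288376355572416511)) (T.h (P (nat_lit 0)) (P (nat_lit 17746068228407296))))) (T.h (P (nat_lit 0)) (T.h (T.h (P (nat_lit 0)) (M (nat_lit 8245414944309247))) (P (nat_lit 0))))) (T.h (T.h (P (nat_lit 0)) (P (nat_lit 795046254307442688))) (T.h (T.h (T.h (P (nat_lit 0)) (M (nat_lit 5123191855120383))) (P (nat_lit 0))) (P (nat_lit 0))))))), (T.h (T.h (T.h (M (nat_lit 2020591323570041651871692619775)) (T.h (P (nat_lit 0)) (T.h (M (nat_lit 5874405153596938192420863)) (T.h (P (nat_lit 0)) (M (nat_lit 286250948802641919))))))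 (T.h (P (nat_lit 0)) (T.h (T.h (P (nat_lit 5321834767834016913555456)) (T.h (P (nat_lit 0)) (M (nat_lit 57506274442142023679)))) (T.h (P (nat_lit 0)) (P (nat_lit 4036162242364833792)))))) (T.h (T.h (P (nat_lit 0)) (T.h (T.h (P (nat_lit 0)) (T.h (M (nat_lit 15620184021200491511807)) (T.h (P (nat_lit 0)) (P (nat_lit 1033072998744064))))) (T.h (P (nat_lit 0)) (T.h (T.h (P (nat_lit 0)) (P (nat_lit 402396633726976))) (P (nat_lit 0)))))) (T.h (T.h (T.h (M (nat_lit 8528882433956903206780927)) (T.h (P (nat_lit 0)) (M (nat_lit 19338536651021352959)))) (T.h (P (nat_lit 0)) (P (nat_lit 6204281791151341568)))) (T.h (T.h (P (nat_lit 0)) (T.h (T.h (P (nat_lit 0)) (M (nat_lit 13244293427494911))) (P (nat_lit 0)))) (P (nat_lit 149116529584111616)))))), (T.h (T.h (T.h (P (nat_lit 0)) (T.h (M (nat_lit 1932805922345647315882082303)) (T.h (P (nat_lit 0)) (T.h (P (nat_lit 17669175649043166003200)) (T.h (P (nat_lit 0)) (P (nat_lit 5558297383403520))))))) (T.h (P (nat_lit 0)) (T.h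 (T.h (P (nat_lit 0)) (T.h (P (nat_lit 17679488136000722436096)) (T.h (P (nat_lit 0)) (M (nat_lit 5994255547105279))))) (T.h (P (nat_lit 0)) (T.h (T.h (P (nat_lit 0)) (P (nat_lit 4390270459445248))) (P (nat_lit 0))))))) (T.h (T.h (P (nat_lit 0)) (T.h (T.h (M (nat_lit 60039266405509223094943743)) (T.h (P (nat_lit 0)) (P (nat_lit 15580325017345327104)))) (T.h (P (nat_lit 0)) (P (nat_lit 309226259353698304))))) (T.h (T.h (T.h (P (nat_lit 0)) (T.h (P (nat_lit 17679488136000722436096)) (T.h (P (nat_lit 0)) (M (nat_lit 5994255547105279))))) (T.h (P (nat_lit 0)) (T.h (T.h (P (nat_lit 0)) (P (nat_lit 2683627399806976))) (P (nat_lit 0))))) (T.h (T.h (P (nat_lit 0)) (P (nat_lit 309226259353698304))) (T.h (T.h (T.h (P (nat_lit 0)) (P (nat_lit 4390270459445248))) (P (nat_lit 0))) (P (nat_lit 0))))))), (T.h (T.h (T.h (P (nat_lit 2141173400490522924430219280384)) (T.h (P (nat_lit 0)) (T.h (P (nat_lit 10202185739954566874529792)) (T.h (P (nat_lit 0)) (M (nat_lit 407510509886111743))))))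 (T.h (P (nat_lit 0)) (T.h (T.h (P (nat_lit 2755423052078074411614208)) (T.h (P (nat_lit 0)) (P (nat_lit 38971114064168615936)))) (T.h (P (nat_lit 0)) (M (nat_lit 2013936797247078399)))))) (T.h (T.h (P (nat_lit 0)) (T.h (T.h (P (nat_lit 0)) (T.h (M (nat_lit 2245742729472155582463)) (T.h (P (nat_lit 0)) (P (nat_lit 5240455223181312))))) (T.h (P (nat_lit 0)) (T.h (T.h (P (nat_lit 0)) (P (nat_lit 5709701810749440))) (P (nat_lit 0)))))) (T.h (T.h (T.h (P (nat_lit 2755423052078074411614208)) (T.h (P (nat_lit 0)) (P (nat_lit 38971114064168615936)))) (T.h (P (nat_lit 0)) (P (nat_lit 71583197720215552)))) (T.h (T.h (P (nat_lit 0)) (T.h (T.h (P (nat_lit 0)) (P (nat_lit 5709701810749440))) (P (nat_lit 0)))) (M (nat_lit 2013936797247078399))))))]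
def lP12_10 : List (T ℤ) := [(T.h (T.h (T.h (P (nat_lit 0)) (T.h (M (nat_lit 4932787182799620835601547263)) (T.h (P (nat_lit 0)) (M (nat_lit 22683376998001198235647))))) (T.h (P (nat_lit 0)) (T.h (T.h (P (nat_lit 0)) (M (nat_lit 19024528249610334896127))) (P (nat_lit 0))))) (T.h (T.h (P (nat_lit 0)) (T.h (T.h (P (nat_lit 469854802530439322927104)) (T.h (P (nat_lit 0)) (M (nat_lit 2405820120166301695)))) (T.h (P (nat_lit 0)) (M (nat_lit 1902139663028584447))))) (T.h (T.h (T.h (P (nat_lit 0)) (M (nat_lit 19024528249610334896127))) (P (nat_lit 0))) (T.h (T.h (P (nat_lit 0)) (M (nat_lit 1902139663028584447))) (P (nat_lit 0)))))), (P (nat_lit 0)), (P (nat_lit 0)), (T.h (T.h (P (nat_lit 0)) (T.h (T.h (P (nat_lit 0)) (T.h (P (nat_lit 0)) (T.h (M (nat_lit 4023288376355572416511)) (T.h (P (nat_lit 0)) (M (nat_lit 5123191855120383)))))) (T.h (P (nat_lit 0)) (T.h (T.h (P (nat_lit 0)) (T.h (P (nat_lit 0)) (P (nat_lit 17746068228407296)))) (T.h (P (nat_lit 0)) (M (nat_lit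 955482939457535))))))) (T.h (T.h (T.h (P (nat_lit 0)) (T.h (P (nat_lit 64503246115057485794508800)) (T.h (P (nat_lit 0)) (P (nat_lit 795046254307442688))))) (T.h (P (nat_lit 0)) (T.h (T.h (P (nat_lit 0)) (P (nat_lit 12938633457344446464))) (P (nat_lit 0))))) (T.h (T.h (P (nat_lit 0)) (T.h (T.h (M (nat_lit 4023288376355572416511)) (T.h (P (nat_lit 0)) (M (nat_lit 8245414944309247)))) (T.h (P (nat_lit 0)) (P (nat_lit 17746068228407296))))) (T.h (T.h (T.h (P (nat_lit 0)) (P (nat_lit 795046254307442688))) (P (nat_lit 0))) (T.h (T.h (P (nat_lit 0)) (M (nat_lit 5123191855120383))) (P (nat_lit 0))))))), (T.h (T.h (P (nat_lit 0)) (T.h (T.h (P (nat_lit 0)) (T.h (P (nat_lit 1957344530603387364835328)) (T.h (P (nat_lit 0)) (M (nat_lit 40210928359689945087))))) (T.h (P (nat_lit 0)) (T.h (T.h (P (nat_lit 0)) (M (nat_lit 40210928359689945087))) (P (nat_lit 0)))))) (T.h (T.h (T.h (M (nat_lit 19869073653131804131622649855)) (T.h (P (nat_lit 0)) (T.h (M (nat_lit 6560473838240894287871))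 (T.h (P (nat_lit 0)) (M (nat_lit 7308458146070527)))))) (T.h (P (nat_lit 0)) (T.h (T.h (M (nat_lit 6560473838240894287871)) (T.h (P (nat_lit 0)) (P (nat_lit 77046820858494976)))) (T.h (P (nat_lit 0)) (M (nat_lit 7308458146070527)))))) (T.h (T.h (P (nat_lit 0)) (T.h (T.h (P (nat_lit 0)) (P (nat_lit 94491169096630009856))) (P (nat_lit 0)))) (T.h (T.h (T.h (P (nat_lit 6773321612529888133120)) (T.h (P (nat_lit 0)) (P (nat_lit 4897269322612736)))) (T.h (P (nat_lit 0)) (P (nat_lit 4897269322612736)))) (T.h (P (nat_lit 0)) (M (nat_lit 145850248724479))))))), (T.h (T.h (P (nat_lit 0)) (T.h (T.h (M (nat_lit 10110931427917392107752390655)) (T.h (P (nat_lit 0)) (T.h (P (nat_lit 38438641801432209031168)) (T.h (P (nat_lit 0)) (P (nat_lit 24021546090364928)))))) (T.h (P (nat_lit 0)) (T.h (T.h (P (nat_lit 8261101118955020353536)) (T.h (P (nat_lit 0)) (M (nat_lit 2130561984954367)))) (T.h (P (nat_lit 0)) (P (nat_lit 533129381019648))))))) (T.h (T.h (T.h (P (nat_lit 0)) (T.h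 (M (nat_lit 68482786979373198274985983)) (T.h (P (nat_lit 0)) (M (nat_lit 8104107676780199935))))) (T.h (P (nat_lit 0)) (T.h (T.h (P (nat_lit 0)) (M (nat_lit 41803659244434620415))) (P (nat_lit 0))))) (T.h (T.h (P (nat_lit 0)) (T.h (T.h (M (nat_lit 434863121499244462079)) (T.h (P (nat_lit 0)) (P (nat_lit 47943131333328896)))) (T.h (P (nat_lit 0)) (M (nat_lit 15861830619299839))))) (T.h (T.h (T.h (P (nat_lit 0)) (M (nat_lit 8796228712036040703))) (P (nat_lit 0))) (T.h (T.h (P (nat_lit 0)) (P (nat_lit 9953874026299392))) (P (nat_lit 0))))))), (T.h (T.h (P (nat_lit 0)) (T.h (T.h (P (nat_lit 0)) (T.h (P (nat_lit 7134864019933703962624000)) (T.h (P (nat_lit 0)) (P (nat_lit 25806678660235657216))))) (T.h (P (nat_lit 0)) (T.h (T.h (P (nat_lit 0)) (P (nat_lit 14948699728714399744))) (P (nat_lit 0)))))) (T.h (T.h (T.h (M (nat_lit 21489684987982723440726507519)) (T.h (P (nat_lit 0)) (T.h (M (nat_lit 14201226063573812248575)) (T.h (P (nat_lit 0)) (M (nat_lit 1413062830325759))))))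 (T.h (P (nat_lit 0)) (T.h (T.h (M (nat_lit 3526065635949872676863)) (T.h (P (nat_lit 0)) (M (nat_lit 46026919089930239)))) (T.h (P (nat_lit 0)) (P (nat_lit 2733952022347776)))))) (T.h (T.h (P (nat_lit 0)) (T.h (T.h (P (nat_lit 0)) (M (nat_lit 60213479081244622847))) (P (nat_lit 0)))) (T.h (T.h (T.h (M (nat_lit 6832981111253990637567)) (T.h (P (nat_lit 0)) (P (nat_lit 17415315030933504)))) (T.h (P (nat_lit 0)) (M (nat_lit 5394656012009471)))) (T.h (P (nat_lit 0)) (M (nat_lit 2113886455726079))))))), (T.h (T.h (P (nat_lit 0)) (T.h (T.h (P (nat_lit 719817474826572681220980736)) (T.h (P (nat_lit 0)) (M (nat_lit 81404364450585477382143)))) (T.h (P (nat_lit 0)) (M (nat_lit 7669978220490651598847))))) (T.h (T.h (T.h (P (nat_lit 0)) (T.h (P (nat_lit 23740425189703612127772672)) (T.h (P (nat_lit 0)) (M (nat_lit 9694400712317861887))))) (T.h (P (nat_lit 0)) (T.h (T.h (P (nat_lit 0)) (P (nat_lit 25574308777851617280))) (P (nat_lit 0))))) (T.h (T.h (P (nat_lit 0)) (P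 (nat_lit 5292361548524716818432))) (T.h (T.h (T.h (P (nat_lit 0)) (M (nat_lit 11574770874313605119))) (P (nat_lit 0))) (P (nat_lit 0))))))]
def lP12_11 : List (T ℤ) := [(P (nat_lit 0)), (T.h (T.h (T.h (P (nat_lit 0)) (T.h (P (nat_lit 2874759264551899117903675392)) (T.h (P (nat_lit 0)) (T.h (M (nat_lit 738474885769798352895)) (T.h (P (nat_lit 0)) (M (nat_lit 853826605940735))))))) (T.h (P (nat_lit 0)) (T.h (T.h (P (nat_lit 0)) (T.h (P (nat_lit 7643476739830000386048)) (T.h (P (nat_lit 0)) (P (nat_lit 4065623452418048))))) (T.h (P (nat_lit 0)) (T.h (T.h (P (nat_lit 0)) (M (nat_lit 5476709220483071))) (P (nat_lit 0))))))) (T.h (T.h (P (nat_lit 0)) (T.h (T.h (M (nat_lit 9930660340720679142817791)) (T.h (P (nat_lit 0)) (M (nat_lit 717555307059871743)))) (T.h (P (nat_lit 0)) (P (nat_lit 5817303471073787904))))) (T.h (T.h (T.h (P (nat_lit 0)) (T.h (P (nat_lit 1940289171074890858496)) (T.h (P (nat_lit 0)) (P (nat_lit 622586800177152))))) (T.h (P (nat_lit 0)) (T.h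 (T.h (P (nat_lit 0)) (M (nat_lit 2788580132061183))) (P (nat_lit 0))))) (T.h (T.h (P (nat_lit 0)) (P (nat_lit 4498897606964936704))) (T.h (T.h (T.h (P (nat_lit 0)) (M (nat_lit 1082473110175743))) (P (nat_lit 0))) (P (nat_lit 0))))))), (T.h (T.h (T.h (M (nat_lit 2020591323570041651871692619775)) (T.h (P (nat_lit 0)) (T.h (P (nat_lit 5321834767834016913555456)) (T.h (P (nat_lit 0)) (P (nat_lit 4036162242364833792)))))) (T.h (P (nat_lit 0)) (T.h (T.h (M (nat_lit 5874405153596938192420863)) (T.h (P (nat_lit 0)) (M (nat_lit 57506274442142023679)))) (T.h (P (nat_lit 0)) (M (nat_lit 286250948802641919)))))) (T.h (T.h (P (nat_lit 0)) (T.h (T.h (P (nat_lit 0)) (T.h (M (nat_lit 15620184021200491511807)) (T.h (P (nat_lit 0)) (P (nat_lit 402396633726976))))) (T.h (P (nat_lit 0)) (T.h (T.h (P (nat_lit 0)) (P (nat_lit 1033072998744064))) (P (nat_lit 0)))))) (T.h (T.h (T.h (M (nat_lit 8528882433956903206780927)) (T.h (P (nat_lit 0)) (P (nat_lit 6204281791151341568)))) (T.h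 (P (nat_lit 0)) (M (nat_lit 19338536651021352959)))) (T.h (T.h (P (nat_lit 0)) (T.h (T.h (P (nat_lit 0)) (M (nat_lit 13244293427494911))) (P (nat_lit 0)))) (P (nat_lit 149116529584111616)))))), (T.h (T.h (T.h (P (nat_lit 0)) (T.h (M (nat_lit 10110931427917392107752390655)) (T.h (P (nat_lit 0)) (T.h (P (nat_lit 8261101118955020353536)) (T.h (P (nat_lit 0)) (P (nat_lit 533129381019648))))))) (T.h (P (nat_lit 0)) (T.h (T.h (P (nat_lit 0)) (T.h (P (nat_lit 38438641801432209031168)) (T.h (P (nat_lit 0)) (M (nat_lit 2130561984954367))))) (T.h (P (nat_lit 0)) (T.h (T.h (P (nat_lit 0)) (P (nat_lit 24021546090364928))) (P (nat_lit 0))))))) (T.h (T.h (P (nat_lit 0)) (T.h (T.h (M (nat_lit 68482786979373198274985983)) (T.h (P (nat_lit 0)) (M (nat_lit 41803659244434620415)))) (T.h (P (nat_lit 0)) (M (nat_lit 8104107676780199935))))) (T.h (T.h (T.h (P (nat_lit 0)) (T.h (M (nat_lit 434863121499244462079)) (T.h (P (nat_lit 0)) (M (nat_lit 15861830619299839))))) (T.h (P (nat_lit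 0)) (T.h (T.h (P (nat_lit 0)) (P (nat_lit 47943131333328896))) (P (nat_lit 0))))) (T.h (T.h (P (nat_lit 0)) (M (nat_lit 8796228712036040703))) (T.h (T.h (T.h (P (nat_lit 0)) (P (nat_lit 9953874026299392))) (P (nat_lit 0))) (P (nat_lit 0))))))), (T.h (T.h (T.h (P (nat_lit 1103063056789797682621446094848)) (T.h (P (nat_lit 0)) (T.h (P (nat_lit 3779251442669933534642176)) (T.h (P (nat_lit 0)) (M (nat_lit 8722767057218699263)))))) (T.h (P (nat_lit 0)) (T.h (T.h (P (nat_lit 3779251442669933534642176)) (T.h (P (nat_lit 0)) (P (nat_lit 104697319351738433536)))) (T.h (P (nat_lit 0)) (M (nat_lit 8722767057218699263)))))) (T.h (T.h (P (nat_lit 0)) (T.h (T.h (P (nat_lit 0)) (T.h (M (nat_lit 36489858112758766108671)) (T.h (P (nat_lit 0)) (P (nat_lit 16928777523363840))))) (T.h (P (nat_lit 0)) (T.h (T.h (P (nat_lit 0)) (P (nat_lit 16928777523363840))) (P (nat_lit 0)))))) (T.h (T.h (T.h (P (nat_lit 16761310900828117634383872)) (T.h (P (nat_lit 0)) (P (nat_lit 2488124734957420544))))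 (T.h (P (nat_lit 0)) (P (nat_lit 2488124734957420544)))) (T.h (T.h (P (nat_lit 0)) (T.h (T.h (P (nat_lit 0)) (P (nat_lit 48655472220831744))) (P (nat_lit 0)))) (P (nat_lit 1685292276038762496)))))), (T.h (T.h (T.h (P (nat_lit 0)) (T.h (P (nat_lit 7305124718430585802427727872)) (T.h (P (nat_lit 0)) (M (nat_lit 20279155672975897788415))))) (T.h (P (nat_lit 0)) (T.h (T.h (P (nat_lit 0)) (M (nat_lit 96236064664401412620287))) (P (nat_lit 0))))) (T.h (T.h (P (nat_lit 0)) (T.h (T.h (P (nat_lit 19257407832285331475922944)) (T.h (P (nat_lit 0)) (M (nat_lit 20217337298745819135)))) (T.h (P (nat_lit 0)) (M (nat_lit 9833570716052619263))))) (T.h (T.h (T.h (P (nat_lit 0)) (M (nat_lit 5037294177271444144127))) (P (nat_lit 0))) (T.h (T.h (P (nat_lit 0)) (M (nat_lit 11252355669518450687))) (P (nat_lit 0)))))), (P (nat_lit 0)), (T.h (T.h (P (nat_lit 0)) (T.h (T.h (P (nat_lit 0)) (T.h (P (nat_lit 319569498317501149216768)) (T.h (P (nat_lit 0)) (P (nat_lit 3960897875554074624)))))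 (T.h (P (nat_lit 0)) (T.h (T.h (P (nat_lit 0)) (P (nat_lit 4751714980791844864))) (P (nat_lit 0)))))) (T.h (T.h (T.h (P (nat_lit 46888563397229012898902179840)) (T.h (P (nat_lit 0)) (T.h (P (nat_lit 2654726983888261873664)) (T.h (P (nat_lit 0)) (M (nat_lit 1760556762005503)))))) (T.h (P (nat_lit 0)) (T.h (T.h (M (nat_lit 5452033685115411365887)) (T.h (P (nat_lit 0)) (P (nat_lit 5899593957507072)))) (T.h (P (nat_lit 0)) (P (nat_lit 8203954149588992)))))) (T.h (T.h (P (nat_lit 0)) (T.h (T.h (P (nat_lit 0)) (M (nat_lit 3940364796284633087))) (P (nat_lit 0)))) (T.h (T.h (T.h (P (nat_lit 2803715435097327927296)) (T.h (P (nat_lit 0)) (P (nat_lit 2655078350913536)))) (T.h (P (nat_lit 0)) (M (nat_lit 11372812971999231)))) (T.h (P (nat_lit 0)) (P (nat_lit 957169283891200)))))))]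
def lP12_12 : List (T ℤ) := [(T.h (T.h (P (nat_lit 0)) (T.h (T.h (M (nat_lit 1932805922345647315882082303)) (T.h (P (nat_lit 0)) (T.h (P (nat_lit 17679488136000722436096)) (T.h (P (nat_lit 0)) (P (nat_lit 4390270459445248)))))) (T.h (P (nat_lit 0)) (T.h (T.h (P (nat_lit 17669175649043166003200)) (T.h (P (nat_lit 0)) (M (nat_lit 5994255547105279)))) (T.h (P (nat_lit 0)) (P (nat_lit 5558297383403520))))))) (T.h (T.h (T.h (P (nat_lit 0)) (T.h (M (nat_lit 60039266405509223094943743)) (T.h (P (nat_lit 0)) (P (nat_lit 309226259353698304))))) (T.h (P (nat_lit 0)) (T.h (T.h (P (nat_lit 0)) (P (nat_lit 15580325017345327104))) (P (nat_lit 0))))) (T.h (T.h (P (nat_lit 0)) (T.h (T.h (P (nat_lit 17679488136000722436096)) (T.h (P (nat_lit 0)) (P (nat_lit 2683627399806976)))) (T.h (P (nat_lit 0)) (M (nat_lit 5994255547105279))))) (T.h (T.h (T.h (P (nat_lit 0)) (P (nat_lit 309226259353698304))) (P (nat_lit 0))) (T.h (T.h (P (nat_lit 0)) (P (nat_lit 4390270459445248))) (P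 (nat_lit 0))))))), (T.h (T.h (P (nat_lit 0)) (T.h (T.h (P (nat_lit 0)) (T.h (P (nat_lit 7134864019933703962624000)) (T.h (P (nat_lit 0)) (P (nat_lit 14948699728714399744))))) (T.h (P (nat_lit 0)) (T.h (T.h (P (nat_lit 0)) (P (nat_lit 25806678660235657216))) (P (nat_lit 0)))))) (T.h (T.h (T.h (M (nat_lit 21489684987982723440726507519)) (T.h (P (nat_lit 0)) (T.h (M (nat_lit 3526065635949872676863)) (T.h (P (nat_lit 0)) (P (nat_lit 2733952022347776)))))) (T.h (P (nat_lit 0)) (T.h (T.h (M (nat_lit 14201226063573812248575)) (T.h (P (nat_lit 0)) (M (nat_lit 46026919089930239)))) (T.h (P (nat_lit 0)) (M (nat_lit 1413062830325759)))))) (T.h (T.h (P (nat_lit 0)) (T.h (T.h (P (nat_lit 0)) (M (nat_lit 60213479081244622847))) (P (nat_lit 0)))) (T.h (T.h (T.h (M (nat_lit 6832981111253990637567)) (T.h (P (nat_lit 0)) (M (nat_lit 5394656012009471)))) (T.h (P (nat_lit 0)) (P (nat_lit 17415315030933504)))) (T.h (P (nat_lit 0)) (M (nat_lit 2113886455726079))))))), (T.h (T.h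 (P (nat_lit 0)) (T.h (T.h (P (nat_lit 7305124718430585802427727872)) (T.h (P (nat_lit 0)) (M (nat_lit 96236064664401412620287)))) (T.h (P (nat_lit 0)) (M (nat_lit 20279155672975897788415))))) (T.h (T.h (T.h (P (nat_lit 0)) (T.h (P (nat_lit 19257407832285331475922944)) (T.h (P (nat_lit 0)) (M (nat_lit 9833570716052619263))))) (T.h (P (nat_lit 0)) (T.h (T.h (P (nat_lit 0)) (M (nat_lit 20217337298745819135))) (P (nat_lit 0))))) (T.h (T.h (P (nat_lit 0)) (M (nat_lit 5037294177271444144127))) (T.h (T.h (T.h (P (nat_lit 0)) (M (nat_lit 11252355669518450687))) (P (nat_lit 0))) (P (nat_lit 0)))))), (T.h (T.h (T.h (P (nat_lit 785908092663771325012065124352)) (T.h (P (nat_lit 0)) (T.h (M (nat_lit 289830120041548341051391)) (T.h (P (nat_lit 0)) (M (nat_lit 141415615909855231)))))) (T.h (P (nat_lit 0)) (T.h (T.h (M (nat_lit 1011092555371026854182911)) (T.h (P (nat_lit 0)) (P (nat_lit 2126392317471358976)))) (T.h (P (nat_lit 0)) (P (nat_lit 790709051645231104)))))) (T.h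 (T.h (P (nat_lit 0)) (T.h (T.h (P (nat_lit 0)) (T.h (P (nat_lit 2522826993414264848384)) (T.h (P (nat_lit 0)) (M (nat_lit 951616968458239))))) (T.h (P (nat_lit 0)) (T.h (T.h (P (nat_lit 0)) (M (nat_lit 873409203863551))) (P (nat_lit 0)))))) (T.h (T.h (T.h (M (nat_lit 289830120041548341051391)) (T.h (P (nat_lit 0)) (M (nat_lit 2738402539853578239)))) (T.h (P (nat_lit 0)) (P (nat_lit 2126392317471358976)))) (T.h (T.h (P (nat_lit 0)) (T.h (T.h (P (nat_lit 0)) (M (nat_lit 951616968458239))) (P (nat_lit 0)))) (M (nat_lit 141415615909855231)))))), (T.h (T.h (T.h (P (nat_lit 0)) (T.h (M (nat_lit 3383368649401081921863155711)) (T.h (P (nat_lit 0)) (T.h (P (nat_lit 1449144204392583397376)) (T.h (P (nat_lit 0)) (P (nat_lit 969414783074304))))))) (T.h (P (nat_lit 0)) (T.h (T.h (P (nat_lit 0)) (T.h (M (nat_lit 3020588307875476013055)) (T.h (P (nat_lit 0)) (M (nat_lit 4362756073783295))))) (T.h (P (nat_lit 0)) (T.h (T.h (P (nat_lit 0)) (P (nat_lit 9250554945142784)))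 (P (nat_lit 0))))))) (T.h (T.h (P (nat_lit 0)) (T.h (T.h (P (nat_lit 13061859408740106582884352)) (T.h (P (nat_lit 0)) (P (nat_lit 8043047937598554112)))) (T.h (P (nat_lit 0)) (M (nat_lit 14183074911253168127))))) (T.h (T.h (T.h (P (nat_lit 0)) (T.h (P (nat_lit 4897606766501107335168)) (T.h (P (nat_lit 0)) (M (nat_lit 237439028822015))))) (T.h (P (nat_lit 0)) (T.h (T.h (P (nat_lit 0)) (M (nat_lit 8840244534575103))) (P (nat_lit 0))))) (T.h (T.h (P (nat_lit 0)) (P (nat_lit 1793701663668699136))) (T.h (T.h (T.h (P (nat_lit 0)) (M (nat_lit 109270719660031))) (P (nat_lit 0))) (P (nat_lit 0))))))), (T.h (T.h (T.h (P (nat_lit 2141173400490522924430219280384)) (T.h (P (nat_lit 0)) (T.h (P (nat_lit 2755423052078074411614208)) (T.h (P (nat_lit 0)) (M (nat_lit 2013936797247078399)))))) (T.h (P (nat_lit 0)) (T.h (T.h (P (nat_lit 10202185739954566874529792)) (T.h (P (nat_lit 0)) (P (nat_lit 38971114064168615936)))) (T.h (P (nat_lit 0)) (M (nat_lit 407510509886111743))))))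 (T.h (T.h (P (nat_lit 0)) (T.h (T.h (P (nat_lit 0)) (T.h (M (nat_lit 2245742729472155582463)) (T.h (P (nat_lit 0)) (P (nat_lit 5709701810749440))))) (T.h (P (nat_lit 0)) (T.h (T.h (P (nat_lit 0)) (P (nat_lit 5240455223181312))) (P (nat_lit 0)))))) (T.h (T.h (T.h (P (nat_lit 2755423052078074411614208)) (T.h (P (nat_lit 0)) (P (nat_lit 71583197720215552)))) (T.h (P (nat_lit 0)) (P (nat_lit 38971114064168615936)))) (T.h (T.h (P (nat_lit 0)) (T.h (T.h (P (nat_lit 0)) (P (nat_lit 5709701810749440))) (P (nat_lit 0)))) (M (nat_lit 2013936797247078399)))))), (T.h (T.h (T.h (P (nat_lit 0)) (T.h (P (nat_lit 719817474826572681220980736)) (T.h (P (nat_lit 0)) (M (nat_lit 7669978220490651598847))))) (T.h (P (nat_lit 0)) (T.h (T.h (P (nat_lit 0)) (M (nat_lit 81404364450585477382143))) (P (nat_lit 0))))) (T.h (T.h (P (nat_lit 0)) (T.h (T.h (P (nat_lit 23740425189703612127772672)) (T.h (P (nat_lit 0)) (P (nat_lit 25574308777851617280)))) (T.h (P (nat_lit 0)) (M (nat_lit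 9694400712317861887))))) (T.h (T.h (T.h (P (nat_lit 0)) (P (nat_lit 5292361548524716818432))) (P (nat_lit 0))) (T.h (T.h (P (nat_lit 0)) (M (nat_lit 11574770874313605119))) (P (nat_lit 0)))))), (P (nat_lit 0))]
def lP12_13 : List (T ℤ) := [(T.h (T.h (P (nat_lit 0)) (T.h (T.h (P (nat_lit 0)) (T.h (P (nat_lit 4891702662024706926837760)) (T.h (P (nat_lit 0)) (P (nat_lit 2552835554030911488))))) (T.h (P (nat_lit 0)) (T.h (T.h (P (nat_lit 0)) (M (nat_lit 3870950617715310591))) (P (nat_lit 0)))))) (T.h (T.h (T.h (M (nat_lit 47638697680888985569739145215)) (T.h (P (nat_lit 0)) (T.h (P (nat_lit 1736765090462693326848)) (T.h (P (nat_lit 0)) (P (nat_lit 315447786405888)))))) (T.h (P (nat_lit 0)) (T.h (T.h (P (nat_lit 4218958299614159044608)) (T.h (P (nat_lit 0)) (M (nat_lit 2168266134061055)))) (T.h (P (nat_lit 0)) (M (nat_lit 5663748413521919)))))) (T.h (T.h (P (nat_lit 0)) (T.h (T.h (P (nat_lit 0)) (P (nat_lit 6320300481474199552))) (P (nat_lit 0)))) (T.h (T.h (T.h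 (M (nat_lit 873530666480291545087)) (T.h (P (nat_lit 0)) (M (nat_lit 699409081171967)))) (T.h (P (nat_lit 0)) (P (nat_lit 1692325956550656)))) (T.h (P (nat_lit 0)) (M (nat_lit 252540465315839))))))), (T.h (T.h (P (nat_lit 0)) (T.h (T.h (M (nat_lit 4932787182799620835601547263)) (T.h (P (nat_lit 0)) (M (nat_lit 19024528249610334896127)))) (T.h (P (nat_lit 0)) (M (nat_lit 22683376998001198235647))))) (T.h (T.h (T.h (P (nat_lit 0)) (T.h (P (nat_lit 469854802530439322927104)) (T.h (P (nat_lit 0)) (M (nat_lit 1902139663028584447))))) (T.h (P (nat_lit 0)) (T.h (T.h (P (nat_lit 0)) (M (nat_lit 2405820120166301695))) (P (nat_lit 0))))) (T.h (T.h (P (nat_lit 0)) (M (nat_lit 19024528249610334896127))) (T.h (T.h (T.h (P (nat_lit 0)) (M (nat_lit 1902139663028584447))) (P (nat_lit 0))) (P (nat_lit 0)))))), (P (nat_lit 0)), (T.h (T.h (T.h (P (nat_lit 0)) (M (nat_lit 471536197744369659130413055))) (T.h (P (nat_lit 0)) (T.h (T.h (P (nat_lit 0)) (M (nat_lit 7121757884211567525887)))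 (P (nat_lit 0))))) (T.h (T.h (P (nat_lit 0)) (T.h (T.h (P (nat_lit 1514619882854388970029056)) (T.h (P (nat_lit 0)) (M (nat_lit 5888628940288819199)))) (T.h (P (nat_lit 0)) (P (nat_lit 7732904500595261440))))) (T.h (T.h (T.h (P (nat_lit 0)) (M (nat_lit 391678135183836446719))) (P (nat_lit 0))) (T.h (T.h (P (nat_lit 0)) (M (nat_lit 1155294519671914495))) (P (nat_lit 0)))))), (P (nat_lit 0)), (P (nat_lit 0)), (P (nat_lit 0)), (P (nat_lit 0))]
def lP12_14 : List (T ℤ) := [(P (nat_lit 0)), (T.h (T.h (P (nat_lit 0)) (T.h (T.h (M (nat_lit 972326847107562337944469503)) (T.h (P (nat_lit 0)) (T.h (M (nat_lit 4667839208105617391615)) (T.h (P (nat_lit 0)) (P (nat_lit 2160780310642688)))))) (T.h (P (nat_lit 0)) (T.h (T.h (P (nat_lit 630249753937667162112)) (T.h (P (nat_lit 0)) (M (nat_lit 3429523279544319)))) (T.h (P (nat_lit 0)) (P (nat_lit 255028773421056))))))) (T.h (T.h (T.h (P (nat_lit 0)) (T.h (P (nat_lit 4783084855218984559050752)) (T.h (P (nat_lit 0)) (M (nat_lit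 2853768503326932991))))) (T.h (P (nat_lit 0)) (T.h (T.h (P (nat_lit 0)) (P (nat_lit 7907975431515537408))) (P (nat_lit 0))))) (T.h (T.h (P (nat_lit 0)) (T.h (T.h (P (nat_lit 6251759347158459875328)) (T.h (P (nat_lit 0)) (M (nat_lit 7245526280241151)))) (T.h (P (nat_lit 0)) (P (nat_lit 497006397030400))))) (T.h (T.h (T.h (P (nat_lit 0)) (P (nat_lit 5443386447056863232))) (P (nat_lit 0))) (T.h (T.h (P (nat_lit 0)) (M (nat_lit 492954141523967))) (P (nat_lit 0))))))), (P (nat_lit 0)), (P (nat_lit 0)), (P (nat_lit 0)), (P (nat_lit 0)), (P (nat_lit 0)), (T.h (T.h (T.h (M (nat_lit 460972935309887569520215719935)) (T.h (P (nat_lit 0)) (T.h (M (nat_lit 2029091353749028599758847)) (T.h (P (nat_lit 0)) (M (nat_lit 1526433197796098047)))))) (T.h (P (nat_lit 0)) (T.h (T.h (P (nat_lit 0)) (T.h (P (nat_lit 0)) (P (nat_lit 2998689982794694656)))) (P (nat_lit 0))))) (T.h (T.h (P (nat_lit 0)) (T.h (T.h (P (nat_lit 0)) (T.h (M (nat_lit 38255836290387560890367)) (T.h (P (nat_lit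 0)) (M (nat_lit 15267448728518655))))) (T.h (P (nat_lit 0)) (T.h (T.h (P (nat_lit 0)) (M (nat_lit 14346539850792959))) (P (nat_lit 0)))))) (T.h (T.h (T.h (M (nat_lit 2029091353749028599758847)) (T.h (P (nat_lit 0)) (P (nat_lit 3990713706295066624)))) (T.h (P (nat_lit 0)) (P (nat_lit 2998689982794694656)))) (T.h (T.h (P (nat_lit 0)) (T.h (T.h (P (nat_lit 0)) (M (nat_lit 15267448728518655))) (P (nat_lit 0)))) (M (nat_lit 1526433197796098047))))))]
def lP12_15 : List (T ℤ) := [(T.h (T.h (T.h (P (nat_lit 0)) (T.h (M (nat_lit 6826959747766932873907535871)) (T.h (P (nat_lit 0)) (T.h (P (nat_lit 8183891167799601528832)) (T.h (P (nat_lit 0)) (M (nat_lit 3583137075986431))))))) (T.h (P (nat_lit 0)) (T.h (T.h (P (nat_lit 0)) (T.h (M (nat_lit 10819356110946064924671)) (T.h (P (nat_lit 0)) (M (nat_lit 13362550061334527))))) (T.h (P (nat_lit 0)) (T.h (T.h (P (nat_lit 0)) (M (nat_lit 3941355309924351))) (P (nat_lit 0))))))) (T.h (T.h (P (nat_lit 0)) (T.h (T.h (P (nat_lit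 20136968779356932398907392)) (T.h (P (nat_lit 0)) (P (nat_lit 6902482179339583488)))) (T.h (P (nat_lit 0)) (P (nat_lit 5739543568008085504))))) (T.h (T.h (T.h (P (nat_lit 0)) (T.h (M (nat_lit 5593835499626914906111)) (T.h (P (nat_lit 0)) (P (nat_lit 1809859455975424))))) (T.h (P (nat_lit 0)) (T.h (T.h (P (nat_lit 0)) (P (nat_lit 19800519138967552))) (P (nat_lit 0))))) (T.h (T.h (P (nat_lit 0)) (M (nat_lit 6997815756469567487))) (T.h (T.h (T.h (P (nat_lit 0)) (M (nat_lit 9383757931446271))) (P (nat_lit 0))) (P (nat_lit 0))))))), (T.h (T.h (T.h (M (nat_lit 338361714180115004849106452479)) (T.h (P (nat_lit 0)) (T.h (M (nat_lit 2603676508804139699929087)) (T.h (P (nat_lit 0)) (P (nat_lit 318229806879604736)))))) (T.h (P (nat_lit 0)) (T.h (T.h (P (nat_lit 0)) (T.h (P (nat_lit 0)) (P (nat_lit 7190836746416816128)))) (T.h (P (nat_lit 0)) (M (nat_lit 823250967452450815)))))) (T.h (T.h (P (nat_lit 0)) (T.h (T.h (P (nat_lit 0)) (T.h (P (nat_lit 44631809005452154372096))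 (T.h (P (nat_lit 0)) (P (nat_lit 21157774929887232))))) (T.h (P (nat_lit 0)) (T.h (T.h (P (nat_lit 0)) (P (nat_lit 14212069352800256))) (P (nat_lit 0)))))) (T.h (T.h (T.h (P (nat_lit 4633383109431362544730112)) (T.h (P (nat_lit 0)) (P (nat_lit 7582985554350833664)))) (T.h (P (nat_lit 0)) (M (nat_lit 8339903994616872959)))) (T.h (T.h (P (nat_lit 0)) (T.h (T.h (P (nat_lit 0)) (P (nat_lit 3431794116395008))) (P (nat_lit 0)))) (P (nat_lit 4731014563690971136)))))), (T.h (T.h (T.h (P (nat_lit 0)) (T.h (M (nat_lit 3735944699976290291876364287)) (T.h (P (nat_lit 0)) (T.h (M (nat_lit 6398304223384991432703)) (T.h (P (nat_lit 0)) (P (nat_lit 4645051328102400))))))) (T.h (P (nat_lit 0)) (T.h (T.h (P (nat_lit 0)) (T.h (P (nat_lit 3769540207674520502272)) (T.h (P (nat_lit 0)) (P (nat_lit 14406680342495232))))) (T.h (P (nat_lit 0)) (T.h (T.h (P (nat_lit 0)) (M (nat_lit 1657467581693951))) (P (nat_lit 0))))))) (T.h (T.h (P (nat_lit 0)) (T.h (T.h (M (nat_lit 13141655625837937975885823))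 (T.h (P (nat_lit 0)) (P (nat_lit 698999029035433984)))) (T.h (P (nat_lit 0)) (M (nat_lit 3442231760379707391))))) (T.h (T.h (T.h (P (nat_lit 0)) (T.h (M (nat_lit 2434592390349984890879)) (T.h (P (nat_lit 0)) (P (nat_lit 4406481162338304))))) (P (nat_lit 0))) (T.h (T.h (P (nat_lit 0)) (M (nat_lit 876166944988856319))) (T.h (T.h (T.h (P (nat_lit 0)) (P (nat_lit 937475159556096))) (P (nat_lit 0))) (P (nat_lit 0))))))), (T.h (T.h (T.h (P (nat_lit 14856572718678401679984347316224)) (T.h (P (nat_lit 0)) (T.h (P (nat_lit 9143594504065898468343808)) (T.h (P (nat_lit 0)) (M (nat_lit 5994328141479280639)))))) (T.h (P (nat_lit 0)) (T.h (T.h (P (nat_lit 430512853632606770561024)) (T.h (P (nat_lit 0)) (M (nat_lit 14012339163622277119)))) (T.h (P (nat_lit 0)) (P (nat_lit 458076090124992512)))))) (T.h (T.h (P (nat_lit 0)) (T.h (T.h (P (nat_lit 0)) (M (nat_lit 10406685990088444215295))) (P (nat_lit 0)))) (T.h (T.h (T.h (M (nat_lit 146258586246510312161279)) (T.h (P (nat_lit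 0)) (M (nat_lit 6245178489742295039)))) (T.h (P (nat_lit 0)) (P (nat_lit 716194899120095232)))) (T.h (P (nat_lit 0)) (P (nat_lit 111010873010552832)))))), (P (nat_lit 0)), (P (nat_lit 0)), (T.h (T.h (P (nat_lit 0)) (T.h (T.h (P (nat_lit 0)) (T.h (P (nat_lit 64503246115057485794508800)) (T.h (P (nat_lit 0)) (P (nat_lit 795046254307442688))))) (T.h (P (nat_lit 0)) (T.h (T.h (P (nat_lit 0)) (P (nat_lit 795046254307442688))) (P (nat_lit 0)))))) (T.h (T.h (T.h (P (nat_lit 0)) (T.h (P (nat_lit 0)) (T.h (M (nat_lit 4023288376355572416511)) (T.h (P (nat_lit 0)) (M (nat_lit 5123191855120383)))))) (T.h (P (nat_lit 0)) (T.h (T.h (M (nat_lit 4023288376355572416511)) (T.h (P (nat_lit 0)) (M (nat_lit 8245414944309247)))) (T.h (P (nat_lit 0)) (M (nat_lit 5123191855120383)))))) (T.h (T.h (P (nat_lit 0)) (T.h (T.h (P (nat_lit 0)) (P (nat_lit 12938633457344446464))) (P (nat_lit 0)))) (T.h (T.h (T.h (P (nat_lit 0)) (T.h (P (nat_lit 0)) (P (nat_lit 17746068228407296)))) (T.h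 (P (nat_lit 0)) (P (nat_lit 17746068228407296)))) (T.h (P (nat_lit 0)) (M (nat_lit 955482939457535))))))), (T.h (T.h (P (nat_lit 0)) (T.h (T.h (M (nat_lit 37921550595813526041612255231)) (T.h (P (nat_lit 0)) (T.h (P (nat_lit 26335852944836756766720)) (T.h (P (nat_lit 0)) (M (nat_lit 2146599540654079)))))) (T.h (P (nat_lit 0)) (T.h (T.h (P (nat_lit 8218953940499471269888)) (T.h (P (nat_lit 0)) (M (nat_lit 7658609657413631)))) (T.h (P (nat_lit 0)) (M (nat_lit 82907180924927))))))) (T.h (T.h (T.h (P (nat_lit 0)) (T.h (M (nat_lit 666473797235310755577855)) (T.h (P (nat_lit 0)) (P (nat_lit 896967944855093248))))) (T.h (P (nat_lit 0)) (T.h (T.h (P (nat_lit 0)) (P (nat_lit 11286810310557564928))) (P (nat_lit 0))))) (T.h (T.h (P (nat_lit 0)) (T.h (T.h (P (nat_lit 11895812424645881102336)) (T.h (P (nat_lit 0)) (P (nat_lit 51546180667015168)))) (T.h (P (nat_lit 0)) (P (nat_lit 4972200776761344))))) (T.h (T.h (T.h (P (nat_lit 0)) (P (nat_lit 7342868589407371264))) (P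 (nat_lit 0))) (T.h (T.h (P (nat_lit 0)) (P (nat_lit 2752430246625280))) (P (nat_lit 0)))))))]
def lP12_16 : List (T ℤ) := [(T.h (T.h (P (nat_lit 0)) (T.h (T.h (P (nat_lit 0)) (T.h (M (nat_lit 68482786979373198274985983)) (T.h (P (nat_lit 0)) (M (nat_lit 8104107676780199935))))) (T.h (P (nat_lit 0)) (T.h (T.h (P (nat_lit 0)) (M (nat_lit 8796228712036040703))) (P (nat_lit 0)))))) (T.h (T.h (T.h (M (nat_lit 10110931427917392107752390655)) (T.h (P (nat_lit 0)) (T.h (P (nat_lit 38438641801432209031168)) (T.h (P (nat_lit 0)) (P (nat_lit 24021546090364928)))))) (T.h (P (nat_lit 0)) (T.h (T.h (M (nat_lit 434863121499244462079)) (T.h (P (nat_lit 0)) (P (nat_lit 47943131333328896)))) (T.h (P (nat_lit 0)) (P (nat_lit 9953874026299392)))))) (T.h (T.h (P (nat_lit 0)) (T.h (T.h (P (nat_lit 0)) (M (nat_lit 41803659244434620415))) (P (nat_lit 0)))) (T.h (T.h (T.h (P (nat_lit 8261101118955020353536)) (T.h (P (nat_lit 0)) (M (nat_lit 2130561984954367)))) (T.h (P (nat_lit 0))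 (M (nat_lit 15861830619299839)))) (T.h (P (nat_lit 0)) (P (nat_lit 533129381019648))))))), (T.h (T.h (P (nat_lit 0)) (T.h (T.h (M (nat_lit 21489684987982723440726507519)) (T.h (P (nat_lit 0)) (T.h (M (nat_lit 14201226063573812248575)) (T.h (P (nat_lit 0)) (M (nat_lit 1413062830325759)))))) (T.h (P (nat_lit 0)) (T.h (T.h (M (nat_lit 6832981111253990637567)) (T.h (P (nat_lit 0)) (P (nat_lit 17415315030933504)))) (T.h (P (nat_lit 0)) (M (nat_lit 2113886455726079))))))) (T.h (T.h (T.h (P (nat_lit 0)) (T.h (P (nat_lit 7134864019933703962624000)) (T.h (P (nat_lit 0)) (P (nat_lit 25806678660235657216))))) (T.h (P (nat_lit 0)) (T.h (T.h (P (nat_lit 0)) (M (nat_lit 60213479081244622847))) (P (nat_lit 0))))) (T.h (T.h (P (nat_lit 0)) (T.h (T.h (M (nat_lit 3526065635949872676863)) (T.h (P (nat_lit 0)) (M (nat_lit 46026919089930239)))) (T.h (P (nat_lit 0)) (M (nat_lit 5394656012009471))))) (T.h (T.h (T.h (P (nat_lit 0)) (P (nat_lit 14948699728714399744))) (P (nat_lit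 0))) (T.h (T.h (P (nat_lit 0)) (P (nat_lit 2733952022347776))) (P (nat_lit 0))))))), (T.h (T.h (P (nat_lit 0)) (T.h (T.h (P (nat_lit 0)) (T.h (P (nat_lit 23740425189703612127772672)) (T.h (P (nat_lit 0)) (M (nat_lit 9694400712317861887))))) (T.h (P (nat_lit 0)) (T.h (T.h (P (nat_lit 0)) (M (nat_lit 11574770874313605119))) (P (nat_lit 0)))))) (T.h (T.h (T.h (P (nat_lit 719817474826572681220980736)) (T.h (P (nat_lit 0)) (M (nat_lit 81404364450585477382143)))) (T.h (P (nat_lit 0)) (P (nat_lit 5292361548524716818432)))) (T.h (T.h (P (nat_lit 0)) (T.h (T.h (P (nat_lit 0)) (P (nat_lit 25574308777851617280))) (P (nat_lit 0)))) (M (nat_lit 7669978220490651598847))))), (P (nat_lit 0)), (T.h (T.h (M (nat_lit 460972935309887569520215719935)) (T.h (P (nat_lit 0)) (T.h (T.h (M (nat_lit 2029091353749028599758847)) (T.h (P (nat_lit 0)) (P (nat_lit 2998689982794694656)))) (T.h (P (nat_lit 0)) (M (nat_lit 1526433197796098047)))))) (T.h (T.h (P (nat_lit 0)) (T.h (T.h (P (nat_lit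 0)) (T.h (M (nat_lit 38255836290387560890367)) (T.h (P (nat_lit 0)) (M (nat_lit 14346539850792959))))) (T.h (P (nat_lit 0)) (T.h (T.h (P (nat_lit 0)) (M (nat_lit 15267448728518655))) (P (nat_lit 0)))))) (T.h (T.h (T.h (M (nat_lit 2029091353749028599758847)) (T.h (P (nat_lit 0)) (P (nat_lit 2998689982794694656)))) (T.h (P (nat_lit 0)) (P (nat_lit 3990713706295066624)))) (T.h (T.h (P (nat_lit 0)) (T.h (T.h (P (nat_lit 0)) (M (nat_lit 15267448728518655))) (P (nat_lit 0)))) (M (nat_lit 1526433197796098047)))))), (T.h (T.h (T.h (P (nat_lit 0)) (T.h (M (nat_lit 37921550595813526041612255231)) (T.h (P (nat_lit 0)) (T.h (P (nat_lit 8218953940499471269888)) (T.h (P (nat_lit 0)) (M (nat_lit 82907180924927))))))) (T.h (P (nat_lit 0)) (T.h (T.h (P (nat_lit 0)) (T.h (P (nat_lit 26335852944836756766720)) (T.h (P (nat_lit 0)) (M (nat_lit 7658609657413631))))) (T.h (P (nat_lit 0)) (T.h (T.h (P (nat_lit 0)) (M (nat_lit 2146599540654079))) (P (nat_lit 0))))))) (T.h (T.h (P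 (nat_lit 0)) (T.h (T.h (M (nat_lit 666473797235310755577855)) (T.h (P (nat_lit 0)) (P (nat_lit 11286810310557564928)))) (T.h (P (nat_lit 0)) (P (nat_lit 896967944855093248))))) (T.h (T.h (T.h (P (nat_lit 0)) (T.h (P (nat_lit 11895812424645881102336)) (T.h (P (nat_lit 0)) (P (nat_lit 4972200776761344))))) (T.h (P (nat_lit 0)) (T.h (T.h (P (nat_lit 0)) (P (nat_lit 51546180667015168))) (P (nat_lit 0))))) (T.h (T.h (P (nat_lit 0)) (P (nat_lit 7342868589407371264))) (T.h (T.h (T.h (P (nat_lit 0)) (P (nat_lit 2752430246625280))) (P (nat_lit 0))) (P (nat_lit 0))))))), (T.h (T.h (T.h (P (nat_lit 29995219225365274463829026144256)) (T.h (P (nat_lit 0)) (T.h (M (nat_lit 12325914637394849998831615)) (T.h (P (nat_lit 0)) (P (nat_lit 2571946652977856512)))))) (T.h (P (nat_lit 0)) (T.h (T.h (M (nat_lit 12325914637394849998831615)) (T.h (P (nat_lit 0)) (M (nat_lit 48160952720671375359)))) (T.h (P (nat_lit 0)) (P (nat_lit 2571946652977856512)))))) (T.h (T.h (P (nat_lit 0))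 (T.h (T.h (P (nat_lit 0)) (T.h (P (nat_lit 106550364359565647020032)) (T.h (P (nat_lit 0)) (P (nat_lit 92987772518531072))))) (T.h (P (nat_lit 0)) (T.h (T.h (P (nat_lit 0)) (P (nat_lit 92987772518531072))) (P (nat_lit 0)))))) (T.h (T.h (T.h (M (nat_lit 12325914637394849998831615)) (T.h (P (nat_lit 0)) (M (nat_lit 48160952720671375359)))) (T.h (P (nat_lit 0)) (M (nat_lit 48160952720671375359)))) (T.h (T.h (P (nat_lit 0)) (T.h (T.h (P (nat_lit 0)) (P (nat_lit 92987772518531072))) (P (nat_lit 0)))) (P (nat_lit 2571946652977856512)))))), (T.h (T.h (T.h (P (nat_lit 0)) (T.h (P (nat_lit 52357164245360287478580248576)) (T.h (P (nat_lit 0)) (T.h (M (nat_lit 23725467507327363973119)) (T.h (P (nat_lit 0)) (P (nat_lit 7764501690974208))))))) (T.h (P (nat_lit 0)) (T.h (T.h (P (nat_lit 0)) (T.h (M (nat_lit 13914034373516872122367)) (T.h (P (nat_lit 0)) (P (nat_lit 4971026145411072))))) (T.h (P (nat_lit 0)) (T.h (T.h (P (nat_lit 0)) (P (nat_lit 11169974968713216))) (P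 (nat_lit 0))))))) (T.h (T.h (P (nat_lit 0)) (T.h (T.h (M (nat_lit 28173433333866073637781503)) (T.h (P (nat_lit 0)) (P (nat_lit 4394461017644466176)))) (T.h (P (nat_lit 0)) (M (nat_lit 11952601017532547071))))) (T.h (T.h (T.h (P (nat_lit 0)) (T.h (M (nat_lit 13914034373516872122367)) (T.h (P (nat_lit 0)) (P (nat_lit 4971026145411072))))) (T.h (P (nat_lit 0)) (T.h (T.h (P (nat_lit 0)) (M (nat_lit 25988288970227711))) (P (nat_lit 0))))) (T.h (T.h (P (nat_lit 0)) (M (nat_lit 11952601017532547071))) (T.h (T.h (T.h (P (nat_lit 0)) (P (nat_lit 11169974968713216))) (P (nat_lit 0))) (P (nat_lit 0)))))))]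
def lP12_17 : List (T ℤ) := [(T.h (T.h (T.h (P (nat_lit 24904608913243075430215017562112)) (T.h (P (nat_lit 0)) (T.h (P (nat_lit 47557352681751995377254400)) (T.h (P (nat_lit 0)) (M (nat_lit 12286765327093596159)))))) (T.h (P (nat_lit 0)) (T.h (T.h (P (nat_lit 28558369388848621637599232)) (T.h (P (nat_lit 0)) (M (nat_lit 7213091648547323903)))) (T.h (P (nat_lit 0)) (M (nat_lit 1138174195176308735)))))) (T.h (T.h (P (nat_lit 0)) (T.h (T.h (P (nat_lit 0)) (M (nat_lit 72285802493233286086655))) (P (nat_lit 0)))) (T.h (T.h (T.h (P (nat_lit 28558369388848621637599232)) (T.h (P (nat_lit 0)) (M (nat_lit 7213091648547323903)))) (T.h (P (nat_lit 0)) (P (nat_lit 19918924814433124352)))) (T.h (P (nat_lit 0)) (M (nat_lit 1138174195176308735)))))), (P (nat_lit 0)), (T.h (T.h (P (nat_lit 0)) (T.h (T.h (M (nat_lit 6826959747766932873907535871)) (T.h (P (nat_lit 0)) (T.h (M (nat_lit 10819356110946064924671)) (T.h (P (nat_lit 0)) (M (nat_lit 3941355309924351)))))) (T.h (P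 (nat_lit 0)) (T.h (T.h (P (nat_lit 8183891167799601528832)) (T.h (P (nat_lit 0)) (M (nat_lit 13362550061334527)))) (T.h (P (nat_lit 0)) (M (nat_lit 3583137075986431))))))) (T.h (T.h (T.h (P (nat_lit 0)) (T.h (P (nat_lit 20136968779356932398907392)) (T.h (P (nat_lit 0)) (P (nat_lit 5739543568008085504))))) (T.h (P (nat_lit 0)) (T.h (T.h (P (nat_lit 0)) (P (nat_lit 6902482179339583488))) (P (nat_lit 0))))) (T.h (T.h (P (nat_lit 0)) (T.h (T.h (M (nat_lit 5593835499626914906111)) (T.h (P (nat_lit 0)) (P (nat_lit 19800519138967552)))) (T.h (P (nat_lit 0)) (P (nat_lit 1809859455975424))))) (T.h (T.h (T.h (P (nat_lit 0)) (M (nat_lit 6997815756469567487))) (P (nat_lit 0))) (T.h (T.h (P (nat_lit 0)) (M (nat_lit 9383757931446271))) (P (nat_lit 0))))))), (T.h (T.h (P (nat_lit 0)) (T.h (T.h (P (nat_lit 0)) (T.h (M (nat_lit 68482786979373198274985983)) (T.h (P (nat_lit 0)) (M (nat_lit 8796228712036040703))))) (T.h (P (nat_lit 0)) (T.h (T.h (P (nat_lit 0)) (M (nat_lit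 8104107676780199935))) (P (nat_lit 0)))))) (T.h (T.h (T.h (M (nat_lit 10110931427917392107752390655)) (T.h (P (nat_lit 0)) (T.h (M (nat_lit 434863121499244462079)) (T.h (P (nat_lit 0)) (P (nat_lit 9953874026299392)))))) (T.h (P (nat_lit 0)) (T.h (T.h (P (nat_lit 38438641801432209031168)) (T.h (P (nat_lit 0)) (P (nat_lit 47943131333328896)))) (T.h (P (nat_lit 0)) (P (nat_lit 24021546090364928)))))) (T.h (T.h (P (nat_lit 0)) (T.h (T.h (P (nat_lit 0)) (M (nat_lit 41803659244434620415))) (P (nat_lit 0)))) (T.h (T.h (T.h (P (nat_lit 8261101118955020353536)) (T.h (P (nat_lit 0)) (M (nat_lit 15861830619299839)))) (T.h (P (nat_lit 0)) (M (nat_lit 2130561984954367)))) (T.h (P (nat_lit 0)) (P (nat_lit 533129381019648))))))), (T.h (T.h (P (nat_lit 0)) (T.h (T.h (P (nat_lit 52357164245360287478580248576)) (T.h (P (nat_lit 0)) (T.h (M (nat_lit 13914034373516872122367)) (T.h (P (nat_lit 0)) (P (nat_lit 11169974968713216)))))) (T.h (P (nat_lit 0)) (T.h (T.h (M (nat_lit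 23725467507327363973119)) (T.h (P (nat_lit 0)) (P (nat_lit 4971026145411072)))) (T.h (P (nat_lit 0)) (P (nat_lit 7764501690974208))))))) (T.h (T.h (T.h (P (nat_lit 0)) (T.h (M (nat_lit 28173433333866073637781503)) (T.h (P (nat_lit 0)) (M (nat_lit 11952601017532547071))))) (T.h (P (nat_lit 0)) (T.h (T.h (P (nat_lit 0)) (P (nat_lit 4394461017644466176))) (P (nat_lit 0))))) (T.h (T.h (P (nat_lit 0)) (T.h (T.h (M (nat_lit 13914034373516872122367)) (T.h (P (nat_lit 0)) (M (nat_lit 25988288970227711)))) (T.h (P (nat_lit 0)) (P (nat_lit 4971026145411072))))) (T.h (T.h (T.h (P (nat_lit 0)) (M (nat_lit 11952601017532547071))) (P (nat_lit 0))) (T.h (T.h (P (nat_lit 0)) (P (nat_lit 11169974968713216))) (P (nat_lit 0))))))), (T.h (T.h (P (nat_lit 0)) (T.h (T.h (P (nat_lit 0)) (T.h (P (nat_lit 77059904737505692864217088)) (T.h (P (nat_lit 0)) (M (nat_lit 24422649067191926783))))) (T.h (P (nat_lit 0)) (T.h (T.h (P (nat_lit 0)) (M (nat_lit 24422649067191926783))) (P (nat_lit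 0)))))) (T.h (T.h (T.h (P (nat_lit 8311803618084416168113733632)) (T.h (P (nat_lit 0)) (M (nat_lit 66553013382877638819839)))) (T.h (P (nat_lit 0)) (M (nat_lit 66553013382877638819839)))) (T.h (T.h (P (nat_lit 0)) (T.h (T.h (P (nat_lit 0)) (M (nat_lit 14340526346780803071))) (P (nat_lit 0)))) (M (nat_lit 26474708591003599634431))))), (T.h (T.h (T.h (P (nat_lit 0)) (T.h (M (nat_lit 972326847107562337944469503)) (T.h (P (nat_lit 0)) (T.h (P (nat_lit 630249753937667162112)) (T.h (P (nat_lit 0)) (P (nat_lit 255028773421056))))))) (T.h (P (nat_lit 0)) (T.h (T.h (P (nat_lit 0)) (T.h (M (nat_lit 4667839208105617391615)) (T.h (P (nat_lit 0)) (M (nat_lit 3429523279544319))))) (T.h (P (nat_lit 0)) (T.h (T.h (P (nat_lit 0)) (P (nat_lit 2160780310642688))) (P (nat_lit 0))))))) (T.h (T.h (P (nat_lit 0)) (T.h (T.h (P (nat_lit 4783084855218984559050752)) (T.h (P (nat_lit 0)) (P (nat_lit 7907975431515537408)))) (T.h (P (nat_lit 0)) (M (nat_lit 2853768503326932991))))) (T.h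 (T.h (T.h (P (nat_lit 0)) (T.h (P (nat_lit 6251759347158459875328)) (T.h (P (nat_lit 0)) (P (nat_lit 497006397030400))))) (T.h (P (nat_lit 0)) (T.h (T.h (P (nat_lit 0)) (M (nat_lit 7245526280241151))) (P (nat_lit 0))))) (T.h (T.h (P (nat_lit 0)) (P (nat_lit 5443386447056863232))) (T.h (T.h (T.h (P (nat_lit 0)) (M (nat_lit 492954141523967))) (P (nat_lit 0))) (P (nat_lit 0))))))), (T.h (T.h (T.h (M (nat_lit 338361714180115004849106452479)) (T.h (P (nat_lit 0)) (T.h (P (nat_lit 0)) (T.h (P (nat_lit 0)) (M (nat_lit 823250967452450815)))))) (T.h (P (nat_lit 0)) (T.h (T.h (M (nat_lit 2603676508804139699929087)) (T.h (P (nat_lit 0)) (P (nat_lit 7190836746416816128)))) (T.h (P (nat_lit 0)) (P (nat_lit 318229806879604736)))))) (T.h (T.h (P (nat_lit 0)) (T.h (T.h (P (nat_lit 0)) (T.h (P (nat_lit 44631809005452154372096)) (T.h (P (nat_lit 0)) (P (nat_lit 14212069352800256))))) (T.h (P (nat_lit 0)) (T.h (T.h (P (nat_lit 0)) (P (nat_lit 21157774929887232))) (P (nat_lit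 0)))))) (T.h (T.h (T.h (P (nat_lit 4633383109431362544730112)) (T.h (P (nat_lit 0)) (M (nat_lit 8339903994616872959)))) (T.h (P (nat_lit 0)) (P (nat_lit 7582985554350833664)))) (T.h (T.h (P (nat_lit 0)) (T.h (T.h (P (nat_lit 0)) (P (nat_lit 3431794116395008))) (P (nat_lit 0)))) (P (nat_lit 4731014563690971136))))))]
def lP12_18 : List (T ℤ) := [(T.h (T.h (T.h (P (nat_lit 0)) (T.h (M (nat_lit 21489684987982723440726507519)) (T.h (P (nat_lit 0)) (T.h (M (nat_lit 6832981111253990637567)) (T.h (P (nat_lit 0)) (M (nat_lit 2113886455726079))))))) (T.h (P (nat_lit 0)) (T.h (T.h (P (nat_lit 0)) (T.h (M (nat_lit 14201226063573812248575)) (T.h (P (nat_lit 0)) (P (nat_lit 17415315030933504))))) (T.h (P (nat_lit 0)) (T.h (T.h (P (nat_lit 0)) (M (nat_lit 1413062830325759))) (P (nat_lit 0))))))) (T.h (T.h (P (nat_lit 0)) (T.h (T.h (P (nat_lit 7134864019933703962624000)) (T.h (P (nat_lit 0)) (M (nat_lit 60213479081244622847)))) (T.h (P (nat_lit 0)) (P (nat_lit 25806678660235657216)))))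 (T.h (T.h (T.h (P (nat_lit 0)) (T.h (M (nat_lit 3526065635949872676863)) (T.h (P (nat_lit 0)) (M (nat_lit 5394656012009471))))) (T.h (P (nat_lit 0)) (T.h (T.h (P (nat_lit 0)) (M (nat_lit 46026919089930239))) (P (nat_lit 0))))) (T.h (T.h (P (nat_lit 0)) (P (nat_lit 14948699728714399744))) (T.h (T.h (T.h (P (nat_lit 0)) (P (nat_lit 2733952022347776))) (P (nat_lit 0))) (P (nat_lit 0))))))), (T.h (T.h (T.h (P (nat_lit 24904608913243075430215017562112)) (T.h (P (nat_lit 0)) (T.h (P (nat_lit 28558369388848621637599232)) (T.h (P (nat_lit 0)) (M (nat_lit 1138174195176308735)))))) (T.h (P (nat_lit 0)) (T.h (T.h (P (nat_lit 47557352681751995377254400)) (T.h (P (nat_lit 0)) (M (nat_lit 7213091648547323903)))) (T.h (P (nat_lit 0)) (M (nat_lit 12286765327093596159)))))) (T.h (T.h (P (nat_lit 0)) (T.h (T.h (P (nat_lit 0)) (M (nat_lit 72285802493233286086655))) (P (nat_lit 0)))) (T.h (T.h (T.h (P (nat_lit 28558369388848621637599232)) (T.h (P (nat_lit 0)) (P (nat_lit 19918924814433124352))))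 (T.h (P (nat_lit 0)) (M (nat_lit 7213091648547323903)))) (T.h (P (nat_lit 0)) (M (nat_lit 1138174195176308735)))))), (P (nat_lit 0)), (T.h (T.h (P (nat_lit 0)) (T.h (T.h (M (nat_lit 3735944699976290291876364287)) (T.h (P (nat_lit 0)) (T.h (P (nat_lit 3769540207674520502272)) (T.h (P (nat_lit 0)) (M (nat_lit 1657467581693951)))))) (T.h (P (nat_lit 0)) (T.h (T.h (M (nat_lit 6398304223384991432703)) (T.h (P (nat_lit 0)) (P (nat_lit 14406680342495232)))) (T.h (P (nat_lit 0)) (P (nat_lit 4645051328102400))))))) (T.h (T.h (T.h (P (nat_lit 0)) (T.h (M (nat_lit 13141655625837937975885823)) (T.h (P (nat_lit 0)) (M (nat_lit 3442231760379707391))))) (T.h (P (nat_lit 0)) (T.h (T.h (P (nat_lit 0)) (P (nat_lit 698999029035433984))) (P (nat_lit 0))))) (T.h (T.h (P (nat_lit 0)) (T.h (M (nat_lit 2434592390349984890879)) (T.h (P (nat_lit 0)) (P (nat_lit 4406481162338304))))) (T.h (T.h (T.h (P (nat_lit 0)) (M (nat_lit 876166944988856319))) (P (nat_lit 0))) (T.h (T.h (P (nat_lit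 0)) (P (nat_lit 937475159556096))) (P (nat_lit 0))))))), (T.h (T.h (P (nat_lit 0)) (T.h (T.h (P (nat_lit 0)) (T.h (P (nat_lit 23740425189703612127772672)) (T.h (P (nat_lit 0)) (M (nat_lit 11574770874313605119))))) (T.h (P (nat_lit 0)) (T.h (T.h (P (nat_lit 0)) (M (nat_lit 9694400712317861887))) (P (nat_lit 0)))))) (T.h (T.h (T.h (P (nat_lit 719817474826572681220980736)) (T.h (P (nat_lit 0)) (P (nat_lit 5292361548524716818432)))) (T.h (P (nat_lit 0)) (M (nat_lit 81404364450585477382143)))) (T.h (T.h (P (nat_lit 0)) (T.h (T.h (P (nat_lit 0)) (P (nat_lit 25574308777851617280))) (P (nat_lit 0)))) (M (nat_lit 7669978220490651598847))))), (P (nat_lit 0)), (T.h (T.h (T.h (P (nat_lit 14856572718678401679984347316224)) (T.h (P (nat_lit 0)) (T.h (P (nat_lit 430512853632606770561024)) (T.h (P (nat_lit 0)) (P (nat_lit 458076090124992512)))))) (T.h (P (nat_lit 0)) (T.h (T.h (P (nat_lit 9143594504065898468343808)) (T.h (P (nat_lit 0)) (M (nat_lit 14012339163622277119))))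 (T.h (P (nat_lit 0)) (M (nat_lit 5994328141479280639)))))) (T.h (T.h (P (nat_lit 0)) (T.h (T.h (P (nat_lit 0)) (M (nat_lit 10406685990088444215295))) (P (nat_lit 0)))) (T.h (T.h (T.h (M (nat_lit 146258586246510312161279)) (T.h (P (nat_lit 0)) (P (nat_lit 716194899120095232)))) (T.h (P (nat_lit 0)) (M (nat_lit 6245178489742295039)))) (T.h (P (nat_lit 0)) (P (nat_lit 111010873010552832)))))), (P (nat_lit 0))]
def lP12_19 : List (T ℤ) := [(P (nat_lit 0)), (P (nat_lit 0)), (P (nat_lit 0)), (T.h (T.h (T.h (P (nat_lit 906490169584252597570591784960)) (T.h (P (nat_lit 0)) (T.h (P (nat_lit 3316688030986601827926016)) (T.h (P (nat_lit 0)) (P (nat_lit 96947592956477440)))))) (T.h (P (nat_lit 0)) (T.h (T.h (M (nat_lit 95199430795163777105919)) (T.h (P (nat_lit 0)) (P (nat_lit 9478693936303177728)))) (T.h (P (nat_lit 0)) (M (nat_lit 854979581944266751)))))) (T.h (T.h (P (nat_lit 0)) (T.h (T.h (P (nat_lit 0)) (T.h (M (nat_lit 15343099757258382245887)) (T.h (P (nat_lit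 0)) (P (nat_lit 5400119018061824))))) (T.h (P (nat_lit 0)) (T.h (T.h (P (nat_lit 0)) (M (nat_lit 4090902175547391))) (P (nat_lit 0)))))) (T.h (T.h (T.h (P (nat_lit 1819337628745329625006080)) (T.h (P (nat_lit 0)) (M (nat_lit 4128492266186604543)))) (T.h (P (nat_lit 0)) (P (nat_lit 3537462449017978880)))) (T.h (T.h (P (nat_lit 0)) (T.h (T.h (P (nat_lit 0)) (P (nat_lit 765175066361856))) (P (nat_lit 0)))) (P (nat_lit 729553527579344896)))))), (P (nat_lit 0)), (P (nat_lit 0)), (P (nat_lit 0)), (P (nat_lit 0))]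
def lP12_20 : List (T ℤ) := [(P (nat_lit 0)), (T.h (T.h (P (nat_lit 0)) (T.h (T.h (P (nat_lit 2874759264551899117903675392)) (T.h (P (nat_lit 0)) (T.h (P (nat_lit 1940289171074890858496)) (T.h (P (nat_lit 0)) (M (nat_lit 1082473110175743)))))) (T.h (P (nat_lit 0)) (T.h (T.h (M (nat_lit 738474885769798352895)) (T.h (P (nat_lit 0)) (P (nat_lit 622586800177152)))) (T.h (P (nat_lit 0)) (M (nat_lit 853826605940735))))))) (T.h (T.h (T.h (P (nat_lit 0)) (T.h (M (nat_lit 9930660340720679142817791)) (T.h (P (nat_lit 0)) (P (nat_lit 4498897606964936704))))) (T.h (P (nat_lit 0)) (T.h (T.h (P (nat_lit 0)) (M (nat_lit 717555307059871743))) (P (nat_lit 0))))) (T.h (T.h (P (nat_lit 0)) (T.h (T.h (P (nat_lit 7643476739830000386048)) (T.h (P (nat_lit 0)) (M (nat_lit 2788580132061183)))) (T.h (P (nat_lit 0)) (P (nat_lit 4065623452418048))))) (T.h (T.h (T.h (P (nat_lit 0)) (P (nat_lit 5817303471073787904))) (P (nat_lit 0))) (T.h (T.h (P (nat_lit 0)) (M (nat_lit 5476709220483071)))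 (P (nat_lit 0))))))), (T.h (T.h (P (nat_lit 0)) (T.h (T.h (P (nat_lit 0)) (T.h (P (nat_lit 8702938351744451994451968)) (T.h (P (nat_lit 0)) (P (nat_lit 13262195475584385024))))) (T.h (P (nat_lit 0)) (T.h (T.h (P (nat_lit 0)) (P (nat_lit 3661442213679726592))) (P (nat_lit 0)))))) (T.h (T.h (T.h (M (nat_lit 7608653901779828563060457471)) (T.h (P (nat_lit 0)) (T.h (P (nat_lit 7720590419946314399744)) (T.h (P (nat_lit 0)) (M (nat_lit 9094715111309311)))))) (T.h (P (nat_lit 0)) (T.h (T.h (M (nat_lit 1710995431822228193279)) (T.h (P (nat_lit 0)) (M (nat_lit 45358410835755007)))) (T.h (P (nat_lit 0)) (M (nat_lit 525952290717695)))))) (T.h (T.h (P (nat_lit 0)) (T.h (T.h (P (nat_lit 0)) (M (nat_lit 22583753507541614591))) (P (nat_lit 0)))) (T.h (T.h (T.h (P (nat_lit 7322622399028291174400)) (T.h (P (nat_lit 0)) (M (nat_lit 913245668048895)))) (T.h (P (nat_lit 0)) (P (nat_lit 5210292863238144)))) (T.h (P (nat_lit 0)) (M (nat_lit 4098457434062847))))))), (T.h (T.h (P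 (nat_lit 0)) (T.h (T.h (M (nat_lit 895513046034761536558333951)) (T.h (P (nat_lit 0)) (T.h (M (nat_lit 2278615923996233826303)) (T.h (P (nat_lit 0)) (P (nat_lit 3126952219639808)))))) (T.h (P (nat_lit 0)) (T.h (T.h (P (nat_lit 8232267397385362079744)) (T.h (P (nat_lit 0)) (M (nat_lit 2953990688538623)))) (T.h (P (nat_lit 0)) (P (nat_lit 2099127109287936))))))) (T.h (T.h (T.h (P (nat_lit 0)) (T.h (P (nat_lit 13679483588558852806672384)) (T.h (P (nat_lit 0)) (M (nat_lit 2937611177917677567))))) (T.h (P (nat_lit 0)) (T.h (T.h (P (nat_lit 0)) (P (nat_lit 32571348845645004800))) (P (nat_lit 0))))) (T.h (T.h (P (nat_lit 0)) (T.h (T.h (M (nat_lit 2278615923996233826303)) (T.h (P (nat_lit 0)) (P (nat_lit 12393691856896000)))) (T.h (P (nat_lit 0)) (M (nat_lit 2953990688538623))))) (T.h (T.h (T.h (P (nat_lit 0)) (M (nat_lit 2937611177917677567))) (P (nat_lit 0))) (T.h (T.h (P (nat_lit 0)) (P (nat_lit 3126952219639808))) (P (nat_lit 0))))))), (T.h (T.h (P (nat_lit 0))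 (T.h (T.h (P (nat_lit 0)) (T.h (P (nat_lit 3702461069826797472841728)) (T.h (P (nat_lit 0)) (M (nat_lit 7039414567054606335))))) (T.h (P (nat_lit 0)) (T.h (T.h (P (nat_lit 0)) (P (nat_lit 8528179222198353920))) (P (nat_lit 0)))))) (T.h (T.h (T.h (M (nat_lit 49201072690816064008665169919)) (T.h (P (nat_lit 0)) (T.h (M (nat_lit 8394835497245403512831)) (T.h (P (nat_lit 0)) (P (nat_lit 235744258031616)))))) (T.h (P (nat_lit 0)) (T.h (T.h (P (nat_lit 8767017244252998467584)) (T.h (P (nat_lit 0)) (P (nat_lit 50248992988594176)))) (T.h (P (nat_lit 0)) (M (nat_lit 1225068611567615)))))) (T.h (T.h (P (nat_lit 0)) (T.h (T.h (P (nat_lit 0)) (P (nat_lit 2978963579450949632))) (P (nat_lit 0)))) (T.h (T.h (T.h (M (nat_lit 954381245221055758335)) (T.h (P (nat_lit 0)) (P (nat_lit 6882003918913536)))) (T.h (P (nat_lit 0)) (P (nat_lit 472351797215232)))) (T.h (P (nat_lit 0)) (P (nat_lit 209098321821696))))))), (T.h (T.h (P (nat_lit 0)) (T.h (T.h (M (nat_lit 4847912892436371908541284351))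 (T.h (P (nat_lit 0)) (M (nat_lit 7689282402489485754367)))) (T.h (P (nat_lit 0)) (M (nat_lit 3937142110085665783807))))) (T.h (T.h (T.h (P (nat_lit 0)) (T.h (P (nat_lit 6774779893922198139699200)) (T.h (P (nat_lit 0)) (M (nat_lit 3330027300455448575))))) (T.h (P (nat_lit 0)) (T.h (T.h (P (nat_lit 0)) (M (nat_lit 34303312546880290815))) (P (nat_lit 0))))) (T.h (T.h (P (nat_lit 0)) (M (nat_lit 4520338283428990418943))) (T.h (T.h (T.h (P (nat_lit 0)) (M (nat_lit 5978080759825563647))) (P (nat_lit 0))) (P (nat_lit 0)))))), (P (nat_lit 0)), (T.h (T.h (T.h (P (nat_lit 0)) (T.h (P (nat_lit 2874759264551899117903675392)) (T.h (P (nat_lit 0)) (T.h (M (nat_lit 738474885769798352895)) (T.h (P (nat_lit 0)) (M (nat_lit 853826605940735))))))) (T.h (P (nat_lit 0)) (T.h (T.h (P (nat_lit 0)) (T.h (P (nat_lit 1940289171074890858496)) (T.h (P (nat_lit 0)) (P (nat_lit 622586800177152))))) (T.h (P (nat_lit 0)) (T.h (T.h (P (nat_lit 0)) (M (nat_lit 1082473110175743))) (P (nat_lit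 0))))))) (T.h (T.h (P (nat_lit 0)) (T.h (T.h (M (nat_lit 9930660340720679142817791)) (T.h (P (nat_lit 0)) (M (nat_lit 717555307059871743)))) (T.h (P (nat_lit 0)) (P (nat_lit 4498897606964936704))))) (T.h (T.h (T.h (P (nat_lit 0)) (T.h (P (nat_lit 7643476739830000386048)) (T.h (P (nat_lit 0)) (P (nat_lit 4065623452418048))))) (T.h (P (nat_lit 0)) (T.h (T.h (P (nat_lit 0)) (M (nat_lit 2788580132061183))) (P (nat_lit 0))))) (T.h (T.h (P (nat_lit 0)) (P (nat_lit 5817303471073787904))) (T.h (T.h (T.h (P (nat_lit 0)) (M (nat_lit 5476709220483071))) (P (nat_lit 0))) (P (nat_lit 0)))))))]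
def lP12_21 : List (T ℤ) := [(T.h (T.h (T.h (P (nat_lit 11038097195991371679654739968)) (T.h (P (nat_lit 0)) (T.h (M (nat_lit 8137229036076050650497023)) (T.h (P (nat_lit 0)) (M (nat_lit 979429223678607359)))))) (T.h (P (nat_lit 0)) (T.h (T.h (M (nat_lit 8137229036076050650497023)) (T.h (P (nat_lit 0)) (P (nat_lit 38204401648043819008)))) (T.h (P (nat_lit 0)) (M (nat_lit 979429223678607359)))))) (T.h (T.h (P (nat_lit 0)) (T.h (T.h (P (nat_lit 0)) (T.h (P (nat_lit 67453141891217639866368)) (T.h (P (nat_lit 0)) (M (nat_lit 31320276617789439))))) (T.h (P (nat_lit 0)) (T.h (T.h (P (nat_lit 0)) (M (nat_lit 31320276617789439))) (P (nat_lit 0)))))) (T.h (T.h (T.h (M (nat_lit 4004729123232826592854015)) (T.h (P (nat_lit 0)) (M (nat_lit 43062552643409805311)))) (T.h (P (nat_lit 0)) (M (nat_lit 43062552643409805311)))) (T.h (T.h (P (nat_lit 0)) (T.h (T.h (P (nat_lit 0)) (M (nat_lit 10138042145832959))) (P (nat_lit 0)))) (P (nat_lit 13848550924017991680)))))), (T.h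 (T.h (T.h (P (nat_lit 0)) (T.h (M (nat_lit 10110931427917392107752390655)) (T.h (P (nat_lit 0)) (T.h (P (nat_lit 8261101118955020353536)) (T.h (P (nat_lit 0)) (P (nat_lit 533129381019648))))))) (T.h (P (nat_lit 0)) (T.h (T.h (P (nat_lit 0)) (T.h (M (nat_lit 434863121499244462079)) (T.h (P (nat_lit 0)) (M (nat_lit 15861830619299839))))) (T.h (P (nat_lit 0)) (T.h (T.h (P (nat_lit 0)) (P (nat_lit 9953874026299392))) (P (nat_lit 0))))))) (T.h (T.h (P (nat_lit 0)) (T.h (T.h (M (nat_lit 68482786979373198274985983)) (T.h (P (nat_lit 0)) (M (nat_lit 41803659244434620415)))) (T.h (P (nat_lit 0)) (M (nat_lit 8796228712036040703))))) (T.h (T.h (T.h (P (nat_lit 0)) (T.h (P (nat_lit 38438641801432209031168)) (T.h (P (nat_lit 0)) (M (nat_lit 2130561984954367))))) (T.h (P (nat_lit 0)) (T.h (T.h (P (nat_lit 0)) (P (nat_lit 47943131333328896))) (P (nat_lit 0))))) (T.h (T.h (P (nat_lit 0)) (M (nat_lit 8104107676780199935))) (T.h (T.h (T.h (P (nat_lit 0)) (P (nat_lit 24021546090364928)))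 (P (nat_lit 0))) (P (nat_lit 0))))))), (T.h (T.h (T.h (P (nat_lit 1103063056789797682621446094848)) (T.h (P (nat_lit 0)) (T.h (P (nat_lit 3779251442669933534642176)) (T.h (P (nat_lit 0)) (M (nat_lit 8722767057218699263)))))) (T.h (P (nat_lit 0)) (T.h (T.h (P (nat_lit 16761310900828117634383872)) (T.h (P (nat_lit 0)) (P (nat_lit 2488124734957420544)))) (T.h (P (nat_lit 0)) (P (nat_lit 1685292276038762496)))))) (T.h (T.h (P (nat_lit 0)) (T.h (T.h (P (nat_lit 0)) (T.h (M (nat_lit 36489858112758766108671)) (T.h (P (nat_lit 0)) (P (nat_lit 16928777523363840))))) (T.h (P (nat_lit 0)) (T.h (T.h (P (nat_lit 0)) (P (nat_lit 48655472220831744))) (P (nat_lit 0)))))) (T.h (T.h (T.h (P (nat_lit 3779251442669933534642176)) (T.h (P (nat_lit 0)) (P (nat_lit 104697319351738433536)))) (T.h (P (nat_lit 0)) (P (nat_lit 2488124734957420544)))) (T.h (T.h (P (nat_lit 0)) (T.h (T.h (P (nat_lit 0)) (P (nat_lit 16928777523363840))) (P (nat_lit 0)))) (M (nat_lit 8722767057218699263)))))),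 (T.h (T.h (T.h (P (nat_lit 0)) (T.h (P (nat_lit 7305124718430585802427727872)) (T.h (P (nat_lit 0)) (M (nat_lit 20279155672975897788415))))) (T.h (P (nat_lit 0)) (T.h (T.h (P (nat_lit 0)) (M (nat_lit 5037294177271444144127))) (P (nat_lit 0))))) (T.h (T.h (P (nat_lit 0)) (T.h (T.h (P (nat_lit 19257407832285331475922944)) (T.h (P (nat_lit 0)) (M (nat_lit 20217337298745819135)))) (T.h (P (nat_lit 0)) (M (nat_lit 11252355669518450687))))) (T.h (T.h (T.h (P (nat_lit 0)) (M (nat_lit 96236064664401412620287))) (P (nat_lit 0))) (T.h (T.h (P (nat_lit 0)) (M (nat_lit 9833570716052619263))) (P (nat_lit 0)))))), (P (nat_lit 0)), (T.h (T.h (P (nat_lit 0)) (T.h (T.h (P (nat_lit 0)) (T.h (P (nat_lit 8702938351744451994451968)) (T.h (P (nat_lit 0)) (P (nat_lit 3661442213679726592))))) (T.h (P (nat_lit 0)) (T.h (T.h (P (nat_lit 0)) (P (nat_lit 13262195475584385024))) (P (nat_lit 0)))))) (T.h (T.h (T.h (M (nat_lit 7608653901779828563060457471)) (T.h (P (nat_lit 0)) (T.h (M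 (nat_lit 1710995431822228193279)) (T.h (P (nat_lit 0)) (M (nat_lit 525952290717695)))))) (T.h (P (nat_lit 0)) (T.h (T.h (P (nat_lit 7720590419946314399744)) (T.h (P (nat_lit 0)) (M (nat_lit 45358410835755007)))) (T.h (P (nat_lit 0)) (M (nat_lit 9094715111309311)))))) (T.h (T.h (P (nat_lit 0)) (T.h (T.h (P (nat_lit 0)) (M (nat_lit 22583753507541614591))) (P (nat_lit 0)))) (T.h (T.h (T.h (P (nat_lit 7322622399028291174400)) (T.h (P (nat_lit 0)) (P (nat_lit 5210292863238144)))) (T.h (P (nat_lit 0)) (M (nat_lit 913245668048895)))) (T.h (P (nat_lit 0)) (M (nat_lit 4098457434062847))))))), (T.h (T.h (P (nat_lit 0)) (T.h (T.h (M (nat_lit 10110931427917392107752390655)) (T.h (P (nat_lit 0)) (T.h (M (nat_lit 434863121499244462079)) (T.h (P (nat_lit 0)) (P (nat_lit 9953874026299392)))))) (T.h (P (nat_lit 0)) (T.h (T.h (P (nat_lit 8261101118955020353536)) (T.h (P (nat_lit 0)) (M (nat_lit 15861830619299839)))) (T.h (P (nat_lit 0)) (P (nat_lit 533129381019648))))))) (T.h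 (T.h (T.h (P (nat_lit 0)) (T.h (M (nat_lit 68482786979373198274985983)) (T.h (P (nat_lit 0)) (M (nat_lit 8796228712036040703))))) (T.h (P (nat_lit 0)) (T.h (T.h (P (nat_lit 0)) (M (nat_lit 41803659244434620415))) (P (nat_lit 0))))) (T.h (T.h (P (nat_lit 0)) (T.h (T.h (P (nat_lit 38438641801432209031168)) (T.h (P (nat_lit 0)) (P (nat_lit 47943131333328896)))) (T.h (P (nat_lit 0)) (M (nat_lit 2130561984954367))))) (T.h (T.h (T.h (P (nat_lit 0)) (M (nat_lit 8104107676780199935))) (P (nat_lit 0))) (T.h (T.h (P (nat_lit 0)) (P (nat_lit 24021546090364928))) (P (nat_lit 0))))))), (T.h (T.h (P (nat_lit 0)) (T.h (T.h (P (nat_lit 0)) (T.h (M (nat_lit 28173433333866073637781503)) (T.h (P (nat_lit 0)) (M (nat_lit 11952601017532547071))))) (T.h (P (nat_lit 0)) (T.h (T.h (P (nat_lit 0)) (M (nat_lit 11952601017532547071))) (P (nat_lit 0)))))) (T.h (T.h (T.h (P (nat_lit 52357164245360287478580248576)) (T.h (P (nat_lit 0)) (T.h (M (nat_lit 13914034373516872122367)) (T.h (P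 (nat_lit 0)) (P (nat_lit 11169974968713216)))))) (T.h (P (nat_lit 0)) (T.h (T.h (M (nat_lit 13914034373516872122367)) (T.h (P (nat_lit 0)) (M (nat_lit 25988288970227711)))) (T.h (P (nat_lit 0)) (P (nat_lit 11169974968713216)))))) (T.h (T.h (P (nat_lit 0)) (T.h (T.h (P (nat_lit 0)) (P (nat_lit 4394461017644466176))) (P (nat_lit 0)))) (T.h (T.h (T.h (M (nat_lit 23725467507327363973119)) (T.h (P (nat_lit 0)) (P (nat_lit 4971026145411072)))) (T.h (P (nat_lit 0)) (P (nat_lit 4971026145411072)))) (T.h (P (nat_lit 0)) (P (nat_lit 7764501690974208)))))))]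
def lP12_22 : List (T ℤ) := [(T.h (T.h (P (nat_lit 0)) (T.h (T.h (P (nat_lit 8311803618084416168113733632)) (T.h (P (nat_lit 0)) (M (nat_lit 66553013382877638819839)))) (T.h (P (nat_lit 0)) (M (nat_lit 26474708591003599634431))))) (T.h (T.h (T.h (P (nat_lit 0)) (T.h (P (nat_lit 77059904737505692864217088)) (T.h (P (nat_lit 0)) (M (nat_lit 24422649067191926783))))) (T.h (P (nat_lit 0)) (T.h (T.h (P (nat_lit 0)) (M (nat_lit 14340526346780803071))) (P (nat_lit 0))))) (T.h (T.h (P (nat_lit 0)) (M (nat_lit 66553013382877638819839))) (T.h (T.h (T.h (P (nat_lit 0)) (M (nat_lit 24422649067191926783))) (P (nat_lit 0))) (P (nat_lit 0)))))), (T.h (T.h (T.h (P (nat_lit 906490169584252597570591784960)) (T.h (P (nat_lit 0)) (T.h (M (nat_lit 95199430795163777105919)) (T.h (P (nat_lit 0)) (M (nat_lit 854979581944266751)))))) (T.h (P (nat_lit 0)) (T.h (T.h (P (nat_lit 3316688030986601827926016)) (T.h (P (nat_lit 0)) (P (nat_lit 9478693936303177728)))) (T.h (P (nat_lit 0))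 (P (nat_lit 96947592956477440)))))) (T.h (T.h (P (nat_lit 0)) (T.h (T.h (P (nat_lit 0)) (T.h (M (nat_lit 15343099757258382245887)) (T.h (P (nat_lit 0)) (M (nat_lit 4090902175547391))))) (T.h (P (nat_lit 0)) (T.h (T.h (P (nat_lit 0)) (P (nat_lit 5400119018061824))) (P (nat_lit 0)))))) (T.h (T.h (T.h (P (nat_lit 1819337628745329625006080)) (T.h (P (nat_lit 0)) (P (nat_lit 3537462449017978880)))) (T.h (P (nat_lit 0)) (M (nat_lit 4128492266186604543)))) (T.h (T.h (P (nat_lit 0)) (T.h (T.h (P (nat_lit 0)) (P (nat_lit 765175066361856))) (P (nat_lit 0)))) (P (nat_lit 729553527579344896)))))), (T.h (T.h (T.h (P (nat_lit 0)) (T.h (M (nat_lit 895513046034761536558333951)) (T.h (P (nat_lit 0)) (T.h (P (nat_lit 8232267397385362079744)) (T.h (P (nat_lit 0)) (P (nat_lit 2099127109287936))))))) (T.h (P (nat_lit 0)) (T.h (T.h (P (nat_lit 0)) (T.h (M (nat_lit 2278615923996233826303)) (T.h (P (nat_lit 0)) (M (nat_lit 2953990688538623))))) (T.h (P (nat_lit 0)) (T.h (T.h (P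 (nat_lit 0)) (P (nat_lit 3126952219639808))) (P (nat_lit 0))))))) (T.h (T.h (P (nat_lit 0)) (T.h (T.h (P (nat_lit 13679483588558852806672384)) (T.h (P (nat_lit 0)) (P (nat_lit 32571348845645004800)))) (T.h (P (nat_lit 0)) (M (nat_lit 2937611177917677567))))) (T.h (T.h (T.h (P (nat_lit 0)) (T.h (M (nat_lit 2278615923996233826303)) (T.h (P (nat_lit 0)) (M (nat_lit 2953990688538623))))) (T.h (P (nat_lit 0)) (T.h (T.h (P (nat_lit 0)) (P (nat_lit 12393691856896000))) (P (nat_lit 0))))) (T.h (T.h (P (nat_lit 0)) (M (nat_lit 2937611177917677567))) (T.h (T.h (T.h (P (nat_lit 0)) (P (nat_lit 3126952219639808))) (P (nat_lit 0))) (P (nat_lit 0))))))), (T.h (T.h (T.h (P (nat_lit 1103063056789797682621446094848)) (T.h (P (nat_lit 0)) (T.h (P (nat_lit 16761310900828117634383872)) (T.h (P (nat_lit 0)) (P (nat_lit 1685292276038762496)))))) (T.h (P (nat_lit 0)) (T.h (T.h (P (nat_lit 3779251442669933534642176)) (T.h (P (nat_lit 0)) (P (nat_lit 2488124734957420544)))) (T.h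 (P (nat_lit 0)) (M (nat_lit 8722767057218699263)))))) (T.h (T.h (P (nat_lit 0)) (T.h (T.h (P (nat_lit 0)) (T.h (M (nat_lit 36489858112758766108671)) (T.h (P (nat_lit 0)) (P (nat_lit 48655472220831744))))) (T.h (P (nat_lit 0)) (T.h (T.h (P (nat_lit 0)) (P (nat_lit 16928777523363840))) (P (nat_lit 0)))))) (T.h (T.h (T.h (P (nat_lit 3779251442669933534642176)) (T.h (P (nat_lit 0)) (P (nat_lit 2488124734957420544)))) (T.h (P (nat_lit 0)) (P (nat_lit 104697319351738433536)))) (T.h (T.h (P (nat_lit 0)) (T.h (T.h (P (nat_lit 0)) (P (nat_lit 16928777523363840))) (P (nat_lit 0)))) (M (nat_lit 8722767057218699263)))))), (T.h (T.h (T.h (P (nat_lit 0)) (T.h (P (nat_lit 8311803618084416168113733632)) (T.h (P (nat_lit 0)) (M (nat_lit 26474708591003599634431))))) (T.h (P (nat_lit 0)) (T.h (T.h (P (nat_lit 0)) (M (nat_lit 66553013382877638819839))) (P (nat_lit 0))))) (T.h (T.h (P (nat_lit 0)) (T.h (T.h (P (nat_lit 77059904737505692864217088)) (T.h (P (nat_lit 0)) (M (nat_lit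 14340526346780803071)))) (T.h (P (nat_lit 0)) (M (nat_lit 24422649067191926783))))) (T.h (T.h (T.h (P (nat_lit 0)) (M (nat_lit 66553013382877638819839))) (P (nat_lit 0))) (T.h (T.h (P (nat_lit 0)) (M (nat_lit 24422649067191926783))) (P (nat_lit 0)))))), (P (nat_lit 0)), (T.h (T.h (P (nat_lit 0)) (T.h (T.h (P (nat_lit 0)) (T.h (P (nat_lit 3702461069826797472841728)) (T.h (P (nat_lit 0)) (P (nat_lit 8528179222198353920))))) (T.h (P (nat_lit 0)) (T.h (T.h (P (nat_lit 0)) (M (nat_lit 7039414567054606335))) (P (nat_lit 0)))))) (T.h (T.h (T.h (M (nat_lit 49201072690816064008665169919)) (T.h (P (nat_lit 0)) (T.h (P (nat_lit 8767017244252998467584)) (T.h (P (nat_lit 0)) (M (nat_lit 1225068611567615)))))) (T.h (P (nat_lit 0)) (T.h (T.h (M (nat_lit 8394835497245403512831)) (T.h (P (nat_lit 0)) (P (nat_lit 50248992988594176)))) (T.h (P (nat_lit 0)) (P (nat_lit 235744258031616)))))) (T.h (T.h (P (nat_lit 0)) (T.h (T.h (P (nat_lit 0)) (P (nat_lit 2978963579450949632)))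 (P (nat_lit 0)))) (T.h (T.h (T.h (M (nat_lit 954381245221055758335)) (T.h (P (nat_lit 0)) (P (nat_lit 472351797215232)))) (T.h (P (nat_lit 0)) (P (nat_lit 6882003918913536)))) (T.h (P (nat_lit 0)) (P (nat_lit 209098321821696))))))), (T.h (T.h (P (nat_lit 0)) (T.h (T.h (P (nat_lit 7305124718430585802427727872)) (T.h (P (nat_lit 0)) (M (nat_lit 5037294177271444144127)))) (T.h (P (nat_lit 0)) (M (nat_lit 20279155672975897788415))))) (T.h (T.h (T.h (P (nat_lit 0)) (T.h (P (nat_lit 19257407832285331475922944)) (T.h (P (nat_lit 0)) (M (nat_lit 11252355669518450687))))) (T.h (P (nat_lit 0)) (T.h (T.h (P (nat_lit 0)) (M (nat_lit 20217337298745819135))) (P (nat_lit 0))))) (T.h (T.h (P (nat_lit 0)) (M (nat_lit 96236064664401412620287))) (T.h (T.h (T.h (P (nat_lit 0)) (M (nat_lit 9833570716052619263))) (P (nat_lit 0))) (P (nat_lit 0))))))]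
def lP12_23 : List (T ℤ) := [(P (nat_lit 0)), (T.h (T.h (T.h (P (nat_lit 0)) (T.h (M (nat_lit 4847912892436371908541284351)) (T.h (P (nat_lit 0)) (M (nat_lit 3937142110085665783807))))) (T.h (P (nat_lit 0)) (T.h (T.h (P (nat_lit 0)) (M (nat_lit 7689282402489485754367))) (P (nat_lit 0))))) (T.h (T.h (P (nat_lit 0)) (T.h (T.h (P (nat_lit 6774779893922198139699200)) (T.h (P (nat_lit 0)) (M (nat_lit 34303312546880290815)))) (T.h (P (nat_lit 0)) (M (nat_lit 3330027300455448575))))) (T.h (T.h (T.h (P (nat_lit 0)) (M (nat_lit 4520338283428990418943))) (P (nat_lit 0))) (T.h (T.h (P (nat_lit 0)) (M (nat_lit 5978080759825563647))) (P (nat_lit 0)))))), (P (nat_lit 0)), (P (nat_lit 0)), (P (nat_lit 0)), (P (nat_lit 0)), (T.h (T.h (P (nat_lit 0)) (T.h (T.h (P (nat_lit 0)) (T.h (P (nat_lit 0)) (T.h (M (nat_lit 617213386076603809791)) (T.h (P (nat_lit 0)) (M (nat_lit 346395520335871)))))) (T.h (P (nat_lit 0)) (T.h (T.h (P (nat_lit 0)) (T.h (P (nat_lit 0)) (P (nat_lit 143150978138112))))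 (P (nat_lit 0)))))) (T.h (T.h (T.h (P (nat_lit 0)) (T.h (P (nat_lit 0)) (T.h (P (nat_lit 0)) (P (nat_lit 9073865963937464320))))) (P (nat_lit 0))) (T.h (T.h (P (nat_lit 0)) (T.h (P (nat_lit 617213386076603809792)) (T.h (P (nat_lit 0)) (M (nat_lit 143150978138111))))) (T.h (T.h (T.h (P (nat_lit 0)) (M (nat_lit 9073865963937464319))) (P (nat_lit 0))) (T.h (T.h (P (nat_lit 0)) (P (nat_lit 346395520335872))) (P (nat_lit 0))))))), (P (nat_lit 0))]
def lP12_24 : List (T ℤ) := [(P (nat_lit 0)), (P (nat_lit 0)), (P (nat_lit 0)), (T.h (T.h (T.h (P (nat_lit 96674775480032858528316129280)) (T.h (P (nat_lit 0)) (T.h (M (nat_lit 817570893295480970674175)) (T.h (P (nat_lit 0)) (M (nat_lit 692532370447794175)))))) (T.h (P (nat_lit 0)) (T.h (T.h (M (nat_lit 817570893295480970674175)) (T.h (P (nat_lit 0)) (P (nat_lit 3310063201005076480)))) (T.h (P (nat_lit 0)) (M (nat_lit 692532370447794175)))))) (T.h (T.h (P (nat_lit 0)) (T.h (T.h (P (nat_lit 0)) (T.h (M (nat_lit 2618989352391739965439))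 (T.h (P (nat_lit 0)) (M (nat_lit 129461949038591))))) (T.h (P (nat_lit 0)) (T.h (T.h (P (nat_lit 0)) (M (nat_lit 129461949038591))) (P (nat_lit 0)))))) (T.h (T.h (T.h (M (nat_lit 1539936402037090780446719)) (T.h (P (nat_lit 0)) (P (nat_lit 712178620038119424)))) (T.h (P (nat_lit 0)) (P (nat_lit 712178620038119424)))) (T.h (T.h (P (nat_lit 0)) (T.h (T.h (P (nat_lit 0)) (M (nat_lit 294768566599679))) (P (nat_lit 0)))) (M (nat_lit 86536408218468351)))))), (T.h (T.h (T.h (P (nat_lit 0)) (T.h (P (nat_lit 54853757674789326493730209792)) (T.h (P (nat_lit 0)) (T.h (M (nat_lit 4760278519556373217279)) (T.h (P (nat_lit 0)) (P (nat_lit 3244332283789312))))))) (T.h (P (nat_lit 0)) (T.h (T.h (P (nat_lit 0)) (T.h (M (nat_lit 6572480259475359399935)) (T.h (P (nat_lit 0)) (M (nat_lit 2375393801437183))))) (T.h (P (nat_lit 0)) (T.h (T.h (P (nat_lit 0)) (P (nat_lit 1688030278615040))) (P (nat_lit 0))))))) (T.h (T.h (P (nat_lit 0)) (T.h (T.h (M (nat_lit 20663253126771970242772991))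 (T.h (P (nat_lit 0)) (P (nat_lit 10681368120070766592)))) (T.h (P (nat_lit 0)) (M (nat_lit 15507489973694627839))))) (T.h (T.h (T.h (P (nat_lit 0)) (T.h (P (nat_lit 18129732527696186966016)) (T.h (P (nat_lit 0)) (M (nat_lit 17123802497384447))))) (T.h (P (nat_lit 0)) (T.h (T.h (P (nat_lit 0)) (M (nat_lit 35193231022915583))) (P (nat_lit 0))))) (T.h (T.h (P (nat_lit 0)) (M (nat_lit 5123477419163910143))) (T.h (T.h (T.h (P (nat_lit 0)) (P (nat_lit 1570053366808576))) (P (nat_lit 0))) (P (nat_lit 0))))))), (T.h (T.h (T.h (M (nat_lit 338361714180115004849106452479)) (T.h (P (nat_lit 0)) (T.h (P (nat_lit 4633383109431362544730112)) (T.h (P (nat_lit 0)) (P (nat_lit 4731014563690971136)))))) (T.h (P (nat_lit 0)) (T.h (T.h (P (nat_lit 0)) (T.h (P (nat_lit 0)) (M (nat_lit 8339903994616872959)))) (T.h (P (nat_lit 0)) (M (nat_lit 823250967452450815)))))) (T.h (T.h (P (nat_lit 0)) (T.h (T.h (P (nat_lit 0)) (T.h (P (nat_lit 44631809005452154372096)) (T.h (P (nat_lit 0))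 (P (nat_lit 3431794116395008))))) (T.h (P (nat_lit 0)) (T.h (T.h (P (nat_lit 0)) (P (nat_lit 14212069352800256))) (P (nat_lit 0)))))) (T.h (T.h (T.h (M (nat_lit 2603676508804139699929087)) (T.h (P (nat_lit 0)) (P (nat_lit 7582985554350833664)))) (T.h (P (nat_lit 0)) (P (nat_lit 7190836746416816128)))) (T.h (T.h (P (nat_lit 0)) (T.h (T.h (P (nat_lit 0)) (P (nat_lit 21157774929887232))) (P (nat_lit 0)))) (P (nat_lit 318229806879604736)))))), (T.h (T.h (T.h (P (nat_lit 0)) (T.h (M (nat_lit 49201072690816064008665169919)) (T.h (P (nat_lit 0)) (T.h (M (nat_lit 954381245221055758335)) (T.h (P (nat_lit 0)) (P (nat_lit 209098321821696))))))) (T.h (P (nat_lit 0)) (T.h (T.h (P (nat_lit 0)) (T.h (P (nat_lit 8767017244252998467584)) (T.h (P (nat_lit 0)) (P (nat_lit 472351797215232))))) (T.h (P (nat_lit 0)) (T.h (T.h (P (nat_lit 0)) (M (nat_lit 1225068611567615))) (P (nat_lit 0))))))) (T.h (T.h (P (nat_lit 0)) (T.h (T.h (P (nat_lit 3702461069826797472841728)) (T.h (P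 (nat_lit 0)) (P (nat_lit 2978963579450949632)))) (T.h (P (nat_lit 0)) (P (nat_lit 8528179222198353920))))) (T.h (T.h (T.h (P (nat_lit 0)) (T.h (M (nat_lit 8394835497245403512831)) (T.h (P (nat_lit 0)) (P (nat_lit 6882003918913536))))) (T.h (P (nat_lit 0)) (T.h (T.h (P (nat_lit 0)) (P (nat_lit 50248992988594176))) (P (nat_lit 0))))) (T.h (T.h (P (nat_lit 0)) (M (nat_lit 7039414567054606335))) (T.h (T.h (T.h (P (nat_lit 0)) (P (nat_lit 235744258031616))) (P (nat_lit 0))) (P (nat_lit 0))))))), (T.h (T.h (T.h (P (nat_lit 27591110730411258944789057372160)) (T.h (P (nat_lit 0)) (T.h (P (nat_lit 1194656571771072035160064)) (T.h (P (nat_lit 0)) (M (nat_lit 437328509317152767)))))) (T.h (P (nat_lit 0)) (T.h (T.h (M (nat_lit 2432566270557964294160383)) (T.h (P (nat_lit 0)) (M (nat_lit 17635344513788542975)))) (T.h (P (nat_lit 0)) (P (nat_lit 836313505496825856)))))) (T.h (T.h (P (nat_lit 0)) (T.h (T.h (P (nat_lit 0)) (M (nat_lit 18081353133715961675775))) (P (nat_lit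 0)))) (T.h (T.h (T.h (P (nat_lit 1194656571771072035160064)) (T.h (P (nat_lit 0)) (M (nat_lit 14094344025934921727)))) (T.h (P (nat_lit 0)) (M (nat_lit 17635344513788542975)))) (T.h (P (nat_lit 0)) (M (nat_lit 437328509317152767))))))]
def lP12_25 : List (T ℤ) := [(P (nat_lit 0)), (T.h (T.h (P (nat_lit 0)) (T.h (T.h (P (nat_lit 54853757674789326493730209792)) (T.h (P (nat_lit 0)) (T.h (M (nat_lit 6572480259475359399935)) (T.h (P (nat_lit 0)) (P (nat_lit 1688030278615040)))))) (T.h (P (nat_lit 0)) (T.h (T.h (M (nat_lit 4760278519556373217279)) (T.h (P (nat_lit 0)) (M (nat_lit 2375393801437183)))) (T.h (P (nat_lit 0)) (P (nat_lit 3244332283789312))))))) (T.h (T.h (T.h (P (nat_lit 0)) (T.h (M (nat_lit 20663253126771970242772991)) (T.h (P (nat_lit 0)) (M (nat_lit 15507489973694627839))))) (T.h (P (nat_lit 0)) (T.h (T.h (P (nat_lit 0)) (P (nat_lit 10681368120070766592))) (P (nat_lit 0))))) (T.h (T.h (P (nat_lit 0)) (T.h (T.h (P (nat_lit 18129732527696186966016))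 (T.h (P (nat_lit 0)) (M (nat_lit 35193231022915583)))) (T.h (P (nat_lit 0)) (M (nat_lit 17123802497384447))))) (T.h (T.h (T.h (P (nat_lit 0)) (M (nat_lit 5123477419163910143))) (P (nat_lit 0))) (T.h (T.h (P (nat_lit 0)) (P (nat_lit 1570053366808576))) (P (nat_lit 0))))))), (T.h (T.h (P (nat_lit 0)) (T.h (T.h (P (nat_lit 0)) (T.h (M (nat_lit 60039266405509223094943743)) (T.h (P (nat_lit 0)) (P (nat_lit 309226259353698304))))) (T.h (P (nat_lit 0)) (T.h (T.h (P (nat_lit 0)) (P (nat_lit 309226259353698304))) (P (nat_lit 0)))))) (T.h (T.h (T.h (M (nat_lit 1932805922345647315882082303)) (T.h (P (nat_lit 0)) (T.h (P (nat_lit 17679488136000722436096)) (T.h (P (nat_lit 0)) (P (nat_lit 4390270459445248)))))) (T.h (P (nat_lit 0)) (T.h (T.h (P (nat_lit 17679488136000722436096)) (T.h (P (nat_lit 0)) (P (nat_lit 2683627399806976)))) (T.h (P (nat_lit 0)) (P (nat_lit 4390270459445248)))))) (T.h (T.h (P (nat_lit 0)) (T.h (T.h (P (nat_lit 0)) (P (nat_lit 15580325017345327104)))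 (P (nat_lit 0)))) (T.h (T.h (T.h (P (nat_lit 17669175649043166003200)) (T.h (P (nat_lit 0)) (M (nat_lit 5994255547105279)))) (T.h (P (nat_lit 0)) (M (nat_lit 5994255547105279)))) (T.h (P (nat_lit 0)) (P (nat_lit 5558297383403520))))))), (T.h (T.h (P (nat_lit 0)) (T.h (T.h (M (nat_lit 21489684987982723440726507519)) (T.h (P (nat_lit 0)) (T.h (M (nat_lit 3526065635949872676863)) (T.h (P (nat_lit 0)) (P (nat_lit 2733952022347776)))))) (T.h (P (nat_lit 0)) (T.h (T.h (M (nat_lit 6832981111253990637567)) (T.h (P (nat_lit 0)) (M (nat_lit 5394656012009471)))) (T.h (P (nat_lit 0)) (M (nat_lit 2113886455726079))))))) (T.h (T.h (T.h (P (nat_lit 0)) (T.h (P (nat_lit 7134864019933703962624000)) (T.h (P (nat_lit 0)) (P (nat_lit 14948699728714399744))))) (T.h (P (nat_lit 0)) (T.h (T.h (P (nat_lit 0)) (M (nat_lit 60213479081244622847))) (P (nat_lit 0))))) (T.h (T.h (P (nat_lit 0)) (T.h (T.h (M (nat_lit 14201226063573812248575)) (T.h (P (nat_lit 0)) (M (nat_lit 46026919089930239))))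 (T.h (P (nat_lit 0)) (P (nat_lit 17415315030933504))))) (T.h (T.h (T.h (P (nat_lit 0)) (P (nat_lit 25806678660235657216))) (P (nat_lit 0))) (T.h (T.h (P (nat_lit 0)) (M (nat_lit 1413062830325759))) (P (nat_lit 0))))))), (T.h (T.h (P (nat_lit 0)) (T.h (T.h (P (nat_lit 0)) (T.h (P (nat_lit 19257407832285331475922944)) (T.h (P (nat_lit 0)) (M (nat_lit 9833570716052619263))))) (T.h (P (nat_lit 0)) (T.h (T.h (P (nat_lit 0)) (M (nat_lit 11252355669518450687))) (P (nat_lit 0)))))) (T.h (T.h (T.h (P (nat_lit 7305124718430585802427727872)) (T.h (P (nat_lit 0)) (M (nat_lit 96236064664401412620287)))) (T.h (P (nat_lit 0)) (M (nat_lit 5037294177271444144127)))) (T.h (T.h (P (nat_lit 0)) (T.h (T.h (P (nat_lit 0)) (M (nat_lit 20217337298745819135))) (P (nat_lit 0)))) (M (nat_lit 20279155672975897788415))))), (T.h (T.h (P (nat_lit 0)) (T.h (P (nat_lit 0)) (T.h (T.h (P (nat_lit 0)) (T.h (M (nat_lit 617213386076603809791)) (T.h (P (nat_lit 0)) (P (nat_lit 143150978138112)))))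 (T.h (P (nat_lit 0)) (T.h (T.h (P (nat_lit 0)) (M (nat_lit 346395520335871))) (P (nat_lit 0))))))) (T.h (T.h (P (nat_lit 0)) (T.h (P (nat_lit 0)) (T.h (P (nat_lit 0)) (P (nat_lit 9073865963937464320))))) (T.h (T.h (T.h (P (nat_lit 0)) (T.h (P (nat_lit 617213386076603809792)) (T.h (P (nat_lit 0)) (M (nat_lit 143150978138111))))) (P (nat_lit 0))) (T.h (T.h (P (nat_lit 0)) (M (nat_lit 9073865963937464319))) (T.h (T.h (T.h (P (nat_lit 0)) (P (nat_lit 346395520335872))) (P (nat_lit 0))) (P (nat_lit 0))))))), (T.h (T.h (T.h (M (nat_lit 338361714180115004849106452479)) (T.h (P (nat_lit 0)) (T.h (P (nat_lit 0)) (T.h (P (nat_lit 0)) (M (nat_lit 823250967452450815)))))) (T.h (P (nat_lit 0)) (T.h (T.h (P (nat_lit 4633383109431362544730112)) (T.h (P (nat_lit 0)) (M (nat_lit 8339903994616872959)))) (T.h (P (nat_lit 0)) (P (nat_lit 4731014563690971136)))))) (T.h (T.h (P (nat_lit 0)) (T.h (T.h (P (nat_lit 0)) (T.h (P (nat_lit 44631809005452154372096)) (T.h (P (nat_lit 0))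 (P (nat_lit 14212069352800256))))) (T.h (P (nat_lit 0)) (T.h (T.h (P (nat_lit 0)) (P (nat_lit 3431794116395008))) (P (nat_lit 0)))))) (T.h (T.h (T.h (M (nat_lit 2603676508804139699929087)) (T.h (P (nat_lit 0)) (P (nat_lit 7190836746416816128)))) (T.h (P (nat_lit 0)) (P (nat_lit 7582985554350833664)))) (T.h (T.h (P (nat_lit 0)) (T.h (T.h (P (nat_lit 0)) (P (nat_lit 21157774929887232))) (P (nat_lit 0)))) (P (nat_lit 318229806879604736)))))), (T.h (T.h (T.h (P (nat_lit 0)) (T.h (M (nat_lit 21489684987982723440726507519)) (T.h (P (nat_lit 0)) (T.h (M (nat_lit 6832981111253990637567)) (T.h (P (nat_lit 0)) (M (nat_lit 2113886455726079))))))) (T.h (P (nat_lit 0)) (T.h (T.h (P (nat_lit 0)) (T.h (M (nat_lit 3526065635949872676863)) (T.h (P (nat_lit 0)) (M (nat_lit 5394656012009471))))) (T.h (P (nat_lit 0)) (T.h (T.h (P (nat_lit 0)) (P (nat_lit 2733952022347776))) (P (nat_lit 0))))))) (T.h (T.h (P (nat_lit 0)) (T.h (T.h (P (nat_lit 7134864019933703962624000)) (T.h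 (P (nat_lit 0)) (M (nat_lit 60213479081244622847)))) (T.h (P (nat_lit 0)) (P (nat_lit 14948699728714399744))))) (T.h (T.h (T.h (P (nat_lit 0)) (T.h (M (nat_lit 14201226063573812248575)) (T.h (P (nat_lit 0)) (P (nat_lit 17415315030933504))))) (T.h (P (nat_lit 0)) (T.h (T.h (P (nat_lit 0)) (M (nat_lit 46026919089930239))) (P (nat_lit 0))))) (T.h (T.h (P (nat_lit 0)) (P (nat_lit 25806678660235657216))) (T.h (T.h (T.h (P (nat_lit 0)) (M (nat_lit 1413062830325759))) (P (nat_lit 0))) (P (nat_lit 0)))))))]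
def lP12_26 : List (T ℤ) := [(T.h (T.h (T.h (P (nat_lit 24904608913243075430215017562112)) (T.h (P (nat_lit 0)) (T.h (P (nat_lit 28558369388848621637599232)) (T.h (P (nat_lit 0)) (M (nat_lit 1138174195176308735)))))) (T.h (P (nat_lit 0)) (T.h (T.h (P (nat_lit 28558369388848621637599232)) (T.h (P (nat_lit 0)) (P (nat_lit 19918924814433124352)))) (T.h (P (nat_lit 0)) (M (nat_lit 1138174195176308735)))))) (T.h (T.h (P (nat_lit 0)) (T.h (T.h (P (nat_lit 0)) (M (nat_lit 72285802493233286086655))) (P (nat_lit 0)))) (T.h (T.h (T.h (P (nat_lit 47557352681751995377254400)) (T.h (P (nat_lit 0)) (M (nat_lit 7213091648547323903)))) (T.h (P (nat_lit 0)) (M (nat_lit 7213091648547323903)))) (T.h (P (nat_lit 0)) (M (nat_lit 12286765327093596159)))))), (P (nat_lit 0)), (T.h (T.h (P (nat_lit 0)) (T.h (T.h (M (nat_lit 49201072690816064008665169919)) (T.h (P (nat_lit 0)) (T.h (P (nat_lit 8767017244252998467584)) (T.h (P (nat_lit 0)) (M (nat_lit 1225068611567615)))))) (T.h (P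 (nat_lit 0)) (T.h (T.h (M (nat_lit 954381245221055758335)) (T.h (P (nat_lit 0)) (P (nat_lit 472351797215232)))) (T.h (P (nat_lit 0)) (P (nat_lit 209098321821696))))))) (T.h (T.h (T.h (P (nat_lit 0)) (T.h (P (nat_lit 3702461069826797472841728)) (T.h (P (nat_lit 0)) (P (nat_lit 8528179222198353920))))) (T.h (P (nat_lit 0)) (T.h (T.h (P (nat_lit 0)) (P (nat_lit 2978963579450949632))) (P (nat_lit 0))))) (T.h (T.h (P (nat_lit 0)) (T.h (T.h (M (nat_lit 8394835497245403512831)) (T.h (P (nat_lit 0)) (P (nat_lit 50248992988594176)))) (T.h (P (nat_lit 0)) (P (nat_lit 6882003918913536))))) (T.h (T.h (T.h (P (nat_lit 0)) (M (nat_lit 7039414567054606335))) (P (nat_lit 0))) (T.h (T.h (P (nat_lit 0)) (P (nat_lit 235744258031616))) (P (nat_lit 0))))))), (T.h (T.h (P (nat_lit 0)) (T.h (T.h (P (nat_lit 0)) (T.h (P (nat_lit 19257407832285331475922944)) (T.h (P (nat_lit 0)) (M (nat_lit 11252355669518450687))))) (T.h (P (nat_lit 0)) (T.h (T.h (P (nat_lit 0)) (M (nat_lit 9833570716052619263)))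 (P (nat_lit 0)))))) (T.h (T.h (T.h (P (nat_lit 7305124718430585802427727872)) (T.h (P (nat_lit 0)) (M (nat_lit 5037294177271444144127)))) (T.h (P (nat_lit 0)) (M (nat_lit 96236064664401412620287)))) (T.h (T.h (P (nat_lit 0)) (T.h (T.h (P (nat_lit 0)) (M (nat_lit 20217337298745819135))) (P (nat_lit 0)))) (M (nat_lit 20279155672975897788415))))), (P (nat_lit 0)), (T.h (T.h (T.h (P (nat_lit 27591110730411258944789057372160)) (T.h (P (nat_lit 0)) (T.h (M (nat_lit 2432566270557964294160383)) (T.h (P (nat_lit 0)) (P (nat_lit 836313505496825856)))))) (T.h (P (nat_lit 0)) (T.h (T.h (P (nat_lit 1194656571771072035160064)) (T.h (P (nat_lit 0)) (M (nat_lit 17635344513788542975)))) (T.h (P (nat_lit 0)) (M (nat_lit 437328509317152767)))))) (T.h (T.h (P (nat_lit 0)) (T.h (T.h (P (nat_lit 0)) (M (nat_lit 18081353133715961675775))) (P (nat_lit 0)))) (T.h (T.h (T.h (P (nat_lit 1194656571771072035160064)) (T.h (P (nat_lit 0)) (M (nat_lit 17635344513788542975)))) (T.h (P (nat_lit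 0)) (M (nat_lit 14094344025934921727)))) (T.h (P (nat_lit 0)) (M (nat_lit 437328509317152767)))))), (P (nat_lit 0)), (P (nat_lit 0))]
def lP12_27 : List (T ℤ) := [(P (nat_lit 0)), (T.h (T.h (T.h (M (nat_lit 906490169584252597570591784959)) (T.h (P (nat_lit 0)) (T.h (M (nat_lit 1819337628745329625006079)) (T.h (P (nat_lit 0)) (M (nat_lit 729553527579344895)))))) (T.h (P (nat_lit 0)) (T.h (T.h (P (nat_lit 95199430795163777105920)) (T.h (P (nat_lit 0)) (M (nat_lit 3537462449017978879)))) (T.h (P (nat_lit 0)) (P (nat_lit 854979581944266752)))))) (T.h (T.h (P (nat_lit 0)) (T.h (T.h (P (nat_lit 0)) (T.h (P (nat_lit 15343099757258382245888)) (T.h (P (nat_lit 0)) (M (nat_lit 765175066361855))))) (T.h (P (nat_lit 0)) (T.h (T.h (P (nat_lit 0)) (P (nat_lit 4090902175547392))) (P (nat_lit 0)))))) (T.h (T.h (T.h (M (nat_lit 3316688030986601827926015)) (T.h (P (nat_lit 0)) (P (nat_lit 4128492266186604544)))) (T.h (P (nat_lit 0)) (M (nat_lit 9478693936303177727)))) (T.h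 (T.h (P (nat_lit 0)) (T.h (T.h (P (nat_lit 0)) (M (nat_lit 5400119018061823))) (P (nat_lit 0)))) (M (nat_lit 96947592956477439)))))), (P (nat_lit 0)), (P (nat_lit 0)), (P (nat_lit 0)), (P (nat_lit 0)), (T.h (T.h (P (nat_lit 0)) (T.h (T.h (P (nat_lit 0)) (T.h (M (nat_lit 4801678168942566883459071)) (T.h (P (nat_lit 0)) (P (nat_lit 2839252210322243584))))) (T.h (P (nat_lit 0)) (T.h (T.h (P (nat_lit 0)) (P (nat_lit 2839252210322243584))) (P (nat_lit 0)))))) (T.h (T.h (T.h (P (nat_lit 9296796755989494506289364992)) (T.h (P (nat_lit 0)) (T.h (P (nat_lit 12262143393205149761536)) (T.h (P (nat_lit 0)) (P (nat_lit 6172447828869120)))))) (T.h (P (nat_lit 0)) (T.h (T.h (P (nat_lit 12262143393205149761536)) (T.h (P (nat_lit 0)) (P (nat_lit 2131424443236352)))) (T.h (P (nat_lit 0)) (P (nat_lit 6172447828869120)))))) (T.h (T.h (P (nat_lit 0)) (T.h (T.h (P (nat_lit 0)) (M (nat_lit 15037199201127628799))) (P (nat_lit 0)))) (T.h (T.h (T.h (P (nat_lit 4839894319801110102016))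 (T.h (P (nat_lit 0)) (M (nat_lit 11383843043934207)))) (T.h (P (nat_lit 0)) (M (nat_lit 11383843043934207)))) (T.h (P (nat_lit 0)) (M (nat_lit 6339953666686975))))))), (T.h (T.h (P (nat_lit 0)) (T.h (T.h (M (nat_lit 3383368649401081921863155711)) (T.h (P (nat_lit 0)) (T.h (P (nat_lit 4897606766501107335168)) (T.h (P (nat_lit 0)) (M (nat_lit 109270719660031)))))) (T.h (P (nat_lit 0)) (T.h (T.h (P (nat_lit 1449144204392583397376)) (T.h (P (nat_lit 0)) (M (nat_lit 237439028822015)))) (T.h (P (nat_lit 0)) (P (nat_lit 969414783074304))))))) (T.h (T.h (T.h (P (nat_lit 0)) (T.h (P (nat_lit 13061859408740106582884352)) (T.h (P (nat_lit 0)) (P (nat_lit 1793701663668699136))))) (T.h (P (nat_lit 0)) (T.h (T.h (P (nat_lit 0)) (P (nat_lit 8043047937598554112))) (P (nat_lit 0))))) (T.h (T.h (P (nat_lit 0)) (T.h (T.h (M (nat_lit 3020588307875476013055)) (T.h (P (nat_lit 0)) (M (nat_lit 8840244534575103)))) (T.h (P (nat_lit 0)) (M (nat_lit 4362756073783295))))) (T.h (T.h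 (T.h (P (nat_lit 0)) (M (nat_lit 14183074911253168127))) (P (nat_lit 0))) (T.h (T.h (P (nat_lit 0)) (P (nat_lit 9250554945142784))) (P (nat_lit 0)))))))]
def lP12_28 : List (T ℤ) := [(T.h (T.h (P (nat_lit 0)) (T.h (T.h (P (nat_lit 0)) (T.h (M (nat_lit 13141655625837937975885823)) (T.h (P (nat_lit 0)) (M (nat_lit 876166944988856319))))) (T.h (P (nat_lit 0)) (T.h (T.h (P (nat_lit 0)) (M (nat_lit 3442231760379707391))) (P (nat_lit 0)))))) (T.h (T.h (T.h (M (nat_lit 3735944699976290291876364287)) (T.h (P (nat_lit 0)) (T.h (M (nat_lit 2434592390349984890879)) (T.h (P (nat_lit 0)) (P (nat_lit 937475159556096)))))) (T.h (P (nat_lit 0)) (T.h (P (nat_lit 3769540207674520502272)) (T.h (P (nat_lit 0)) (M (nat_lit 1657467581693951)))))) (T.h (T.h (P (nat_lit 0)) (T.h (T.h (P (nat_lit 0)) (P (nat_lit 698999029035433984))) (P (nat_lit 0)))) (T.h (T.h (T.h (M (nat_lit 6398304223384991432703)) (T.h (P (nat_lit 0)) (P (nat_lit 4406481162338304)))) (T.h (P (nat_lit 0)) (P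 (nat_lit 14406680342495232)))) (T.h (P (nat_lit 0)) (P (nat_lit 4645051328102400))))))), (T.h (T.h (P (nat_lit 0)) (T.h (T.h (M (nat_lit 4847912892436371908541284351)) (T.h (P (nat_lit 0)) (M (nat_lit 4520338283428990418943)))) (T.h (P (nat_lit 0)) (M (nat_lit 3937142110085665783807))))) (T.h (T.h (T.h (P (nat_lit 0)) (T.h (P (nat_lit 6774779893922198139699200)) (T.h (P (nat_lit 0)) (M (nat_lit 5978080759825563647))))) (T.h (P (nat_lit 0)) (T.h (T.h (P (nat_lit 0)) (M (nat_lit 34303312546880290815))) (P (nat_lit 0))))) (T.h (T.h (P (nat_lit 0)) (M (nat_lit 7689282402489485754367))) (T.h (T.h (T.h (P (nat_lit 0)) (M (nat_lit 3330027300455448575))) (P (nat_lit 0))) (P (nat_lit 0)))))), (T.h (T.h (T.h (M (nat_lit 906490169584252597570591784959)) (T.h (P (nat_lit 0)) (T.h (P (nat_lit 95199430795163777105920)) (T.h (P (nat_lit 0)) (P (nat_lit 854979581944266752)))))) (T.h (P (nat_lit 0)) (T.h (T.h (M (nat_lit 1819337628745329625006079)) (T.h (P (nat_lit 0)) (M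 (nat_lit 3537462449017978879)))) (T.h (P (nat_lit 0)) (M (nat_lit 729553527579344895)))))) (T.h (T.h (P (nat_lit 0)) (T.h (T.h (P (nat_lit 0)) (T.h (P (nat_lit 15343099757258382245888)) (T.h (P (nat_lit 0)) (P (nat_lit 4090902175547392))))) (T.h (P (nat_lit 0)) (T.h (T.h (P (nat_lit 0)) (M (nat_lit 765175066361855))) (P (nat_lit 0)))))) (T.h (T.h (T.h (M (nat_lit 3316688030986601827926015)) (T.h (P (nat_lit 0)) (M (nat_lit 9478693936303177727)))) (T.h (P (nat_lit 0)) (P (nat_lit 4128492266186604544)))) (T.h (T.h (P (nat_lit 0)) (T.h (T.h (P (nat_lit 0)) (M (nat_lit 5400119018061823))) (P (nat_lit 0)))) (M (nat_lit 96947592956477439)))))), (T.h (T.h (T.h (P (nat_lit 0)) (T.h (M (nat_lit 3383368649401081921863155711)) (T.h (P (nat_lit 0)) (T.h (P (nat_lit 1449144204392583397376)) (T.h (P (nat_lit 0)) (P (nat_lit 969414783074304))))))) (T.h (P (nat_lit 0)) (T.h (T.h (P (nat_lit 0)) (T.h (P (nat_lit 4897606766501107335168)) (T.h (P (nat_lit 0)) (M (nat_lit 237439028822015)))))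 (T.h (P (nat_lit 0)) (T.h (T.h (P (nat_lit 0)) (M (nat_lit 109270719660031))) (P (nat_lit 0))))))) (T.h (T.h (P (nat_lit 0)) (T.h (T.h (P (nat_lit 13061859408740106582884352)) (T.h (P (nat_lit 0)) (P (nat_lit 8043047937598554112)))) (T.h (P (nat_lit 0)) (P (nat_lit 1793701663668699136))))) (T.h (T.h (T.h (P (nat_lit 0)) (T.h (M (nat_lit 3020588307875476013055)) (T.h (P (nat_lit 0)) (M (nat_lit 4362756073783295))))) (T.h (P (nat_lit 0)) (T.h (T.h (P (nat_lit 0)) (M (nat_lit 8840244534575103))) (P (nat_lit 0))))) (T.h (T.h (P (nat_lit 0)) (M (nat_lit 14183074911253168127))) (T.h (T.h (T.h (P (nat_lit 0)) (P (nat_lit 9250554945142784))) (P (nat_lit 0))) (P (nat_lit 0))))))), (T.h (T.h (T.h (P (nat_lit 2141173400490522924430219280384)) (T.h (P (nat_lit 0)) (T.h (P (nat_lit 2755423052078074411614208)) (T.h (P (nat_lit 0)) (M (nat_lit 2013936797247078399)))))) (T.h (P (nat_lit 0)) (T.h (T.h (P (nat_lit 2755423052078074411614208)) (T.h (P (nat_lit 0)) (P (nat_lit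 71583197720215552)))) (T.h (P (nat_lit 0)) (M (nat_lit 2013936797247078399)))))) (T.h (T.h (P (nat_lit 0)) (T.h (T.h (P (nat_lit 0)) (T.h (M (nat_lit 2245742729472155582463)) (T.h (P (nat_lit 0)) (P (nat_lit 5709701810749440))))) (T.h (P (nat_lit 0)) (T.h (T.h (P (nat_lit 0)) (P (nat_lit 5709701810749440))) (P (nat_lit 0)))))) (T.h (T.h (T.h (P (nat_lit 10202185739954566874529792)) (T.h (P (nat_lit 0)) (P (nat_lit 38971114064168615936)))) (T.h (P (nat_lit 0)) (P (nat_lit 38971114064168615936)))) (T.h (T.h (P (nat_lit 0)) (T.h (T.h (P (nat_lit 0)) (P (nat_lit 5240455223181312))) (P (nat_lit 0)))) (M (nat_lit 407510509886111743)))))), (T.h (T.h (T.h (P (nat_lit 0)) (T.h (P (nat_lit 719817474826572681220980736)) (T.h (P (nat_lit 0)) (M (nat_lit 7669978220490651598847))))) (T.h (P (nat_lit 0)) (T.h (T.h (P (nat_lit 0)) (P (nat_lit 5292361548524716818432))) (P (nat_lit 0))))) (T.h (T.h (P (nat_lit 0)) (T.h (T.h (P (nat_lit 23740425189703612127772672)) (T.h (P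 (nat_lit 0)) (P (nat_lit 25574308777851617280)))) (T.h (P (nat_lit 0)) (M (nat_lit 11574770874313605119))))) (T.h (T.h (T.h (P (nat_lit 0)) (M (nat_lit 81404364450585477382143))) (P (nat_lit 0))) (T.h (T.h (P (nat_lit 0)) (M (nat_lit 9694400712317861887))) (P (nat_lit 0)))))), (P (nat_lit 0)), (T.h (T.h (P (nat_lit 0)) (T.h (T.h (P (nat_lit 0)) (T.h (M (nat_lit 13141655625837937975885823)) (T.h (P (nat_lit 0)) (M (nat_lit 3442231760379707391))))) (T.h (P (nat_lit 0)) (T.h (T.h (P (nat_lit 0)) (M (nat_lit 876166944988856319))) (P (nat_lit 0)))))) (T.h (T.h (T.h (M (nat_lit 3735944699976290291876364287)) (T.h (P (nat_lit 0)) (T.h (P (nat_lit 3769540207674520502272)) (T.h (P (nat_lit 0)) (M (nat_lit 1657467581693951)))))) (T.h (P (nat_lit 0)) (T.h (M (nat_lit 2434592390349984890879)) (T.h (P (nat_lit 0)) (P (nat_lit 937475159556096)))))) (T.h (T.h (P (nat_lit 0)) (T.h (T.h (P (nat_lit 0)) (P (nat_lit 698999029035433984))) (P (nat_lit 0)))) (T.h (T.h (T.h (M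 (nat_lit 6398304223384991432703)) (T.h (P (nat_lit 0)) (P (nat_lit 14406680342495232)))) (T.h (P (nat_lit 0)) (P (nat_lit 4406481162338304)))) (T.h (P (nat_lit 0)) (P (nat_lit 4645051328102400)))))))]
def lP12_29 : List (T ℤ) := [(T.h (T.h (P (nat_lit 0)) (T.h (T.h (P (nat_lit 719817474826572681220980736)) (T.h (P (nat_lit 0)) (P (nat_lit 5292361548524716818432)))) (T.h (P (nat_lit 0)) (M (nat_lit 7669978220490651598847))))) (T.h (T.h (T.h (P (nat_lit 0)) (T.h (P (nat_lit 23740425189703612127772672)) (T.h (P (nat_lit 0)) (M (nat_lit 11574770874313605119))))) (T.h (P (nat_lit 0)) (T.h (T.h (P (nat_lit 0)) (P (nat_lit 25574308777851617280))) (P (nat_lit 0))))) (T.h (T.h (P (nat_lit 0)) (M (nat_lit 81404364450585477382143))) (T.h (T.h (T.h (P (nat_lit 0)) (M (nat_lit 9694400712317861887))) (P (nat_lit 0))) (P (nat_lit 0)))))), (P (nat_lit 0)), (T.h (T.h (T.h (P (nat_lit 0)) (T.h (M (nat_lit 4847912892436371908541284351)) (T.h (P (nat_lit 0)) (M (nat_lit 3937142110085665783807)))))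 (T.h (P (nat_lit 0)) (T.h (T.h (P (nat_lit 0)) (M (nat_lit 4520338283428990418943))) (P (nat_lit 0))))) (T.h (T.h (P (nat_lit 0)) (T.h (T.h (P (nat_lit 6774779893922198139699200)) (T.h (P (nat_lit 0)) (M (nat_lit 34303312546880290815)))) (T.h (P (nat_lit 0)) (M (nat_lit 5978080759825563647))))) (T.h (T.h (T.h (P (nat_lit 0)) (M (nat_lit 7689282402489485754367))) (P (nat_lit 0))) (T.h (T.h (P (nat_lit 0)) (M (nat_lit 3330027300455448575))) (P (nat_lit 0)))))), (P (nat_lit 0)), (P (nat_lit 0)), (T.h (T.h (P (nat_lit 0)) (T.h (T.h (P (nat_lit 972326847107562337944469504)) (T.h (P (nat_lit 0)) (T.h (M (nat_lit 6251759347158459875327)) (T.h (P (nat_lit 0)) (P (nat_lit 492954141523968)))))) (T.h (P (nat_lit 0)) (T.h (T.h (M (nat_lit 630249753937667162111)) (T.h (P (nat_lit 0)) (M (nat_lit 497006397030399)))) (T.h (P (nat_lit 0)) (M (nat_lit 255028773421055))))))) (T.h (T.h (T.h (P (nat_lit 0)) (T.h (M (nat_lit 4783084855218984559050751)) (T.h (P (nat_lit 0)) (M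 (nat_lit 5443386447056863231))))) (T.h (P (nat_lit 0)) (T.h (T.h (P (nat_lit 0)) (M (nat_lit 7907975431515537407))) (P (nat_lit 0))))) (T.h (T.h (P (nat_lit 0)) (T.h (T.h (P (nat_lit 4667839208105617391616)) (T.h (P (nat_lit 0)) (P (nat_lit 7245526280241152)))) (T.h (P (nat_lit 0)) (P (nat_lit 3429523279544320))))) (T.h (T.h (T.h (P (nat_lit 0)) (P (nat_lit 2853768503326932992))) (P (nat_lit 0))) (T.h (T.h (P (nat_lit 0)) (M (nat_lit 2160780310642687))) (P (nat_lit 0))))))), (P (nat_lit 0)), (P (nat_lit 0))]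
def lP12_30 : List (T ℤ) := [(P (nat_lit 0)), (T.h (T.h (T.h (P (nat_lit 0)) (T.h (P (nat_lit 972326847107562337944469504)) (T.h (P (nat_lit 0)) (T.h (M (nat_lit 630249753937667162111)) (T.h (P (nat_lit 0)) (M (nat_lit 255028773421055))))))) (T.h (P (nat_lit 0)) (T.h (T.h (P (nat_lit 0)) (T.h (M (nat_lit 6251759347158459875327)) (T.h (P (nat_lit 0)) (M (nat_lit 497006397030399))))) (T.h (P (nat_lit 0)) (T.h (T.h (P (nat_lit 0)) (P (nat_lit 492954141523968))) (P (nat_lit 0))))))) (T.h (T.h (P (nat_lit 0)) (T.h (T.h (M (nat_lit 4783084855218984559050751)) (T.h (P (nat_lit 0)) (M (nat_lit 7907975431515537407)))) (T.h (P (nat_lit 0)) (M (nat_lit 5443386447056863231))))) (T.h (T.h (T.h (P (nat_lit 0)) (T.h (P (nat_lit 4667839208105617391616)) (T.h (P (nat_lit 0)) (P (nat_lit 3429523279544320))))) (T.h (P (nat_lit 0)) (T.h (T.h (P (nat_lit 0)) (P (nat_lit 7245526280241152))) (P (nat_lit 0))))) (T.h (T.h (P (nat_lit 0)) (P (nat_lit 2853768503326932992))) (T.h (T.h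 (T.h (P (nat_lit 0)) (M (nat_lit 2160780310642687))) (P (nat_lit 0))) (P (nat_lit 0))))))), (T.h (T.h (T.h (P (nat_lit 5102271648357133609590386065408)) (T.h (P (nat_lit 0)) (T.h (P (nat_lit 527913047198678619521024)) (T.h (P (nat_lit 0)) (P (nat_lit 553912465654546432)))))) (T.h (P (nat_lit 0)) (T.h (T.h (P (nat_lit 527913047198678619521024)) (T.h (P (nat_lit 0)) (M (nat_lit 2382062302410047487)))) (T.h (P (nat_lit 0)) (P (nat_lit 553912465654546432)))))) (T.h (T.h (P (nat_lit 0)) (T.h (T.h (P (nat_lit 0)) (P (nat_lit 5233297634083781738496))) (P (nat_lit 0)))) (T.h (T.h (T.h (P (nat_lit 641291079997538122596352)) (T.h (P (nat_lit 0)) (P (nat_lit 992840272415031296)))) (T.h (P (nat_lit 0)) (P (nat_lit 992840272415031296)))) (T.h (P (nat_lit 0)) (P (nat_lit 1509074362290929664)))))), (T.h (T.h (T.h (P (nat_lit 0)) (T.h (M (nat_lit 47638697680888985569739145215)) (T.h (P (nat_lit 0)) (T.h (M (nat_lit 873530666480291545087)) (T.h (P (nat_lit 0)) (M (nat_lit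 252540465315839))))))) (T.h (P (nat_lit 0)) (T.h (T.h (P (nat_lit 0)) (T.h (P (nat_lit 1736765090462693326848)) (T.h (P (nat_lit 0)) (M (nat_lit 699409081171967))))) (T.h (P (nat_lit 0)) (T.h (T.h (P (nat_lit 0)) (P (nat_lit 315447786405888))) (P (nat_lit 0))))))) (T.h (T.h (P (nat_lit 0)) (T.h (T.h (P (nat_lit 4891702662024706926837760)) (T.h (P (nat_lit 0)) (P (nat_lit 6320300481474199552)))) (T.h (P (nat_lit 0)) (P (nat_lit 2552835554030911488))))) (T.h (T.h (T.h (P (nat_lit 0)) (T.h (P (nat_lit 4218958299614159044608)) (T.h (P (nat_lit 0)) (P (nat_lit 1692325956550656))))) (T.h (P (nat_lit 0)) (T.h (T.h (P (nat_lit 0)) (M (nat_lit 2168266134061055))) (P (nat_lit 0))))) (T.h (T.h (P (nat_lit 0)) (M (nat_lit 3870950617715310591))) (T.h (T.h (T.h (P (nat_lit 0)) (M (nat_lit 5663748413521919))) (P (nat_lit 0))) (P (nat_lit 0))))))), (T.h (T.h (T.h (P (nat_lit 14856572718678401679984347316224)) (T.h (P (nat_lit 0)) (T.h (M (nat_lit 146258586246510312161279))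 (T.h (P (nat_lit 0)) (P (nat_lit 111010873010552832)))))) (T.h (P (nat_lit 0)) (T.h (T.h (P (nat_lit 430512853632606770561024)) (T.h (P (nat_lit 0)) (P (nat_lit 716194899120095232)))) (T.h (P (nat_lit 0)) (P (nat_lit 458076090124992512)))))) (T.h (T.h (P (nat_lit 0)) (T.h (T.h (P (nat_lit 0)) (M (nat_lit 10406685990088444215295))) (P (nat_lit 0)))) (T.h (T.h (T.h (P (nat_lit 9143594504065898468343808)) (T.h (P (nat_lit 0)) (M (nat_lit 6245178489742295039)))) (T.h (P (nat_lit 0)) (M (nat_lit 14012339163622277119)))) (T.h (P (nat_lit 0)) (M (nat_lit 5994328141479280639)))))), (P (nat_lit 0)), (T.h (T.h (P (nat_lit 0)) (T.h (T.h (M (nat_lit 47638697680888985569739145215)) (T.h (P (nat_lit 0)) (T.h (P (nat_lit 1736765090462693326848)) (T.h (P (nat_lit 0)) (P (nat_lit 315447786405888)))))) (T.h (P (nat_lit 0)) (T.h (T.h (M (nat_lit 873530666480291545087)) (T.h (P (nat_lit 0)) (M (nat_lit 699409081171967)))) (T.h (P (nat_lit 0)) (M (nat_lit 252540465315839)))))))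 (T.h (T.h (T.h (P (nat_lit 0)) (T.h (P (nat_lit 4891702662024706926837760)) (T.h (P (nat_lit 0)) (P (nat_lit 2552835554030911488))))) (T.h (P (nat_lit 0)) (T.h (T.h (P (nat_lit 0)) (P (nat_lit 6320300481474199552))) (P (nat_lit 0))))) (T.h (T.h (P (nat_lit 0)) (T.h (T.h (P (nat_lit 4218958299614159044608)) (T.h (P (nat_lit 0)) (M (nat_lit 2168266134061055)))) (T.h (P (nat_lit 0)) (P (nat_lit 1692325956550656))))) (T.h (T.h (T.h (P (nat_lit 0)) (M (nat_lit 3870950617715310591))) (P (nat_lit 0))) (T.h (T.h (P (nat_lit 0)) (M (nat_lit 5663748413521919))) (P (nat_lit 0))))))), (T.h (T.h (P (nat_lit 0)) (T.h (T.h (P (nat_lit 0)) (T.h (P (nat_lit 469854802530439322927104)) (T.h (P (nat_lit 0)) (M (nat_lit 1902139663028584447))))) (T.h (P (nat_lit 0)) (T.h (T.h (P (nat_lit 0)) (M (nat_lit 1902139663028584447))) (P (nat_lit 0)))))) (T.h (T.h (T.h (M (nat_lit 4932787182799620835601547263)) (T.h (P (nat_lit 0)) (M (nat_lit 19024528249610334896127)))) (T.h (P (nat_lit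 0)) (M (nat_lit 19024528249610334896127)))) (T.h (T.h (P (nat_lit 0)) (T.h (T.h (P (nat_lit 0)) (M (nat_lit 2405820120166301695))) (P (nat_lit 0)))) (M (nat_lit 22683376998001198235647)))))]
def lP12_31 : List (T ℤ) := [(P (nat_lit 0)), (T.h (T.h (T.h (P (nat_lit 14856572718678401679984347316224)) (T.h (P (nat_lit 0)) (T.h (P (nat_lit 430512853632606770561024)) (T.h (P (nat_lit 0)) (P (nat_lit 458076090124992512)))))) (T.h (P (nat_lit 0)) (T.h (T.h (M (nat_lit 146258586246510312161279)) (T.h (P (nat_lit 0)) (P (nat_lit 716194899120095232)))) (T.h (P (nat_lit 0)) (P (nat_lit 111010873010552832)))))) (T.h (T.h (P (nat_lit 0)) (T.h (T.h (P (nat_lit 0)) (M (nat_lit 10406685990088444215295))) (P (nat_lit 0)))) (T.h (T.h (T.h (P (nat_lit 9143594504065898468343808)) (T.h (P (nat_lit 0)) (M (nat_lit 14012339163622277119)))) (T.h (P (nat_lit 0)) (M (nat_lit 6245178489742295039)))) (T.h (P (nat_lit 0)) (M (nat_lit 5994328141479280639)))))), (P (nat_lit 0)), (T.h (T.h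 (T.h (M (nat_lit 785908092663771325012065124351)) (T.h (P (nat_lit 0)) (T.h (P (nat_lit 289830120041548341051392)) (T.h (P (nat_lit 0)) (P (nat_lit 141415615909855232)))))) (T.h (P (nat_lit 0)) (T.h (T.h (P (nat_lit 289830120041548341051392)) (T.h (P (nat_lit 0)) (P (nat_lit 2738402539853578240)))) (T.h (P (nat_lit 0)) (P (nat_lit 141415615909855232)))))) (T.h (T.h (P (nat_lit 0)) (T.h (T.h (P (nat_lit 0)) (T.h (M (nat_lit 2522826993414264848383)) (T.h (P (nat_lit 0)) (P (nat_lit 951616968458240))))) (T.h (P (nat_lit 0)) (T.h (T.h (P (nat_lit 0)) (P (nat_lit 951616968458240))) (P (nat_lit 0)))))) (T.h (T.h (T.h (P (nat_lit 1011092555371026854182912)) (T.h (P (nat_lit 0)) (M (nat_lit 2126392317471358975)))) (T.h (P (nat_lit 0)) (M (nat_lit 2126392317471358975)))) (T.h (T.h (P (nat_lit 0)) (T.h (T.h (P (nat_lit 0)) (P (nat_lit 873409203863552))) (P (nat_lit 0)))) (M (nat_lit 790709051645231103)))))), (P (nat_lit 0)), (P (nat_lit 0)), (P (nat_lit 0)), (P (nat_lit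 0))]
def lP12_32 : List (T ℤ) := [(T.h (T.h (P (nat_lit 0)) (T.h (T.h (P (nat_lit 0)) (M (nat_lit 1072738038739656689844223))) (P (nat_lit 0)))) (T.h (T.h (M (nat_lit 1261515900548784767341953023)) (T.h (P (nat_lit 0)) (T.h (T.h (P (nat_lit 0)) (T.h (P (nat_lit 0)) (P (nat_lit 10794187433312256)))) (P (nat_lit 0))))) (P (nat_lit 0)))), (T.h (T.h (P (nat_lit 0)) (T.h (T.h (M (nat_lit 471536197744369659130413055)) (T.h (P (nat_lit 0)) (M (nat_lit 391678135183836446719)))) (P (nat_lit 0)))) (T.h (T.h (T.h (P (nat_lit 0)) (T.h (P (nat_lit 1514619882854388970029056)) (T.h (P (nat_lit 0)) (M (nat_lit 1155294519671914495))))) (T.h (P (nat_lit 0)) (T.h (T.h (P (nat_lit 0)) (M (nat_lit 5888628940288819199))) (P (nat_lit 0))))) (T.h (T.h (P (nat_lit 0)) (M (nat_lit 7121757884211567525887))) (T.h (T.h (T.h (P (nat_lit 0)) (P (nat_lit 7732904500595261440))) (P (nat_lit 0))) (P (nat_lit 0)))))), (P (nat_lit 0)), (T.h (T.h (T.h (P (nat_lit 0)) (M (nat_lit 471536197744369659130413055)))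 (T.h (P (nat_lit 0)) (T.h (T.h (P (nat_lit 0)) (M (nat_lit 391678135183836446719))) (P (nat_lit 0))))) (T.h (T.h (P (nat_lit 0)) (T.h (T.h (P (nat_lit 1514619882854388970029056)) (T.h (P (nat_lit 0)) (M (nat_lit 5888628940288819199)))) (T.h (P (nat_lit 0)) (M (nat_lit 1155294519671914495))))) (T.h (T.h (T.h (P (nat_lit 0)) (M (nat_lit 7121757884211567525887))) (P (nat_lit 0))) (T.h (T.h (P (nat_lit 0)) (P (nat_lit 7732904500595261440))) (P (nat_lit 0)))))), (P (nat_lit 0)), (P (nat_lit 0)), (P (nat_lit 0)), (P (nat_lit 0))]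
def lP12_33 : List (T ℤ) := [(P (nat_lit 0)), (T.h (T.h (P (nat_lit 0)) (T.h (P (nat_lit 0)) (T.h (T.h (P (nat_lit 0)) (T.h (P (nat_lit 0)) (M (nat_lit 3684415977237250047)))) (P (nat_lit 0))))) (P (nat_lit 0))), (P (nat_lit 0)), (P (nat_lit 0)), (P (nat_lit 0)), (P (nat_lit 0)), (P (nat_lit 0))]

def CP12 : List (T ℤ) := lP12_0 ++ (lP12_1 ++ (lP12_2 ++ (lP12_3 ++ (lP12_4 ++ (lP12_5 ++ (lP12_6 ++ (lP12_7 ++ (lP12_8 ++ (lP12_9 ++ (lP12_10 ++ (lP12_11 ++ (lP12_12 ++ (lP12_13 ++ (lP12_14 ++ (lP12_15 ++ (lP12_16 ++ (lP12_17 ++ (lP12_18 ++ (lP12_19 ++ (lP12_20 ++ (lP12_21 ++ (lP12_22 ++ (lP12_23 ++ (lP12_24 ++ (lP12_25 ++ (lP12_26 ++ (lP12_27 ++ (lP12_28 ++ (lP12_29 ++ (lP12_30 ++ (lP12_31 ++ (lP12_32 ++ (lP12_33)))))))))))))))))))))))))))))))))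

/-- norms at radius 1536 -/
def NP12 : List ℕ := [(nat_lit 0), (nat_lit 0), (nat_lit 0), (nat_lit 0), (nat_lit 0), (nat_lit 0), (nat_lit 0), (nat_lit 0), (nat_lit 0), (nat_lit 4410501400340933843783516160000), (nat_lit 0), (nat_lit 0), (nat_lit 56356923892648744447542462251008), (nat_lit 126084924547667951056836731338752), (nat_lit 66949566207736474402920136179712), (nat_lit 96756764800300696749791955124224), (nat_lit 20508482180713654728318221549568), (nat_lit 0), (nat_lit 0), (nat_lit 0), (nat_lit 253973338971515930342234366410752), (nat_lit 313535890192669421336471147642880), (nat_lit 406886827548466801158551425253376), (nat_lit 272666752691772492189520248176640), (nat_lit 113777423361434251459957899657216), (nat_lit 0), (nat_lit 0), (nat_lit 604986961073511986915772091858944), (nat_lit 297169233312946886049928549761024), (nat_lit 672244685986872127586390603988992), (nat_lit 333090729632854373064723532873728), (nat_lit 228781657724013018077053130375168),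 (nat_lit 0), (nat_lit 0), (nat_lit 253973338971515930342234366410752), (nat_lit 297169233312946886049928549761024), (nat_lit 521893800353314774439932905652224), (nat_lit 759969030803285151357046515302400), (nat_lit 324697288678183930659515224031232), (nat_lit 0), (nat_lit 56356923892648744447542462251008), (nat_lit 313535890192669421336471147642880), (nat_lit 672244685986872127586390603988992), (nat_lit 759969030803285151357046515302400), (nat_lit 388795196646809713370666756997120), (nat_lit 0), (nat_lit 126084924547667951056836731338752), (nat_lit 406886827548466801158551425253376), (nat_lit 333090729632854373064723532873728), (nat_lit 324697288678183930659515224031232), (nat_lit 0), (nat_lit 66949566207736474402920136179712), (nat_lit 272666752691772492189520248176640), (nat_lit 228781657724013018077053130375168), (nat_lit 0), (nat_lit 96756764800300696749791955124224), (nat_lit 113777423361434251459957899657216), (nat_lit 0), (nat_lit 20508482180713654728318221549568),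 (nat_lit 0), (nat_lit 0), (nat_lit 0), (nat_lit 0), (nat_lit 82311645858960547226263501144064), (nat_lit 0), (nat_lit 0), (nat_lit 0), (nat_lit 0), (nat_lit 0), (nat_lit 253973338971515930342234366410752), (nat_lit 446497289742835975482202556203008), (nat_lit 406886827548466801158551425253376), (nat_lit 272666752691772492189520248176640), (nat_lit 113777423361434251459957899657216), (nat_lit 0), (nat_lit 0), (nat_lit 731934159693721513838822270435328), (nat_lit 717836801284413309663329606696960), (nat_lit 674991791232888705592631507288064), (nat_lit 648724778099260479790210315452416), (nat_lit 263339394684755857721812775337984), (nat_lit 0), (nat_lit 0), (nat_lit 731934159693721513838822270435328), (nat_lit 1949540932878101846127509539651584), (nat_lit 1533451367586362907325026483044352), (nat_lit 1342936830739473204158153650864128), (nat_lit 659833631278547047872015064104960), (nat_lit 0), (nat_lit 253973338971515930342234366410752), (nat_lit 717836801284413309663329606696960),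 (nat_lit 1533451367586362907325026483044352), (nat_lit 1613146622295302099958793582411776), (nat_lit 727051591867252990889850166050816), (nat_lit 0), (nat_lit 446497289742835975482202556203008), (nat_lit 674991791232888705592631507288064), (nat_lit 1342936830739473204158153650864128), (nat_lit 727051591867252990889850166050816), (nat_lit 82311645858960547226263501144064), (nat_lit 406886827548466801158551425253376), (nat_lit 648724778099260479790210315452416), (nat_lit 659833631278547047872015064104960), (nat_lit 0), (nat_lit 272666752691772492189520248176640), (nat_lit 263339394684755857721812775337984), (nat_lit 0), (nat_lit 113777423361434251459957899657216), (nat_lit 0), (nat_lit 0), (nat_lit 0), (nat_lit 0), (nat_lit 0), (nat_lit 265223932161702822091931221229568), (nat_lit 0), (nat_lit 0), (nat_lit 0), (nat_lit 0), (nat_lit 0), (nat_lit 604986961073511986915772091858944), (nat_lit 700026762899187083244988016885760), (nat_lit 672244685986872127586390603988992),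 (nat_lit 333090729632854373064723532873728), (nat_lit 228781657724013018077053130375168), (nat_lit 0), (nat_lit 0), (nat_lit 731934159693721513838822270435328), (nat_lit 928137226200254754066659555672064), (nat_lit 1533451367586362907325026483044352), (nat_lit 1342936830739473204158153650864128), (nat_lit 659833631278547047872015064104960), (nat_lit 0), (nat_lit 604986961073511986915772091858944), (nat_lit 928137226200254754066659555672064), (nat_lit 3735623707049258822591832001609728), (nat_lit 1055822045396030359029209861455872), (nat_lit 806053491370415236442152515928064), (nat_lit 0), (nat_lit 700026762899187083244988016885760), (nat_lit 1533451367586362907325026483044352), (nat_lit 1055822045396030359029209861455872), (nat_lit 1124585116566847220342967093952512), (nat_lit 265223932161702822091931221229568), (nat_lit 672244685986872127586390603988992), (nat_lit 1342936830739473204158153650864128), (nat_lit 806053491370415236442152515928064), (nat_lit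 0), (nat_lit 333090729632854373064723532873728), (nat_lit 659833631278547047872015064104960), (nat_lit 0), (nat_lit 228781657724013018077053130375168), (nat_lit 0), (nat_lit 0), (nat_lit 0), (nat_lit 0), (nat_lit 261329944318504744052887950196736), (nat_lit 0), (nat_lit 0), (nat_lit 0), (nat_lit 0), (nat_lit 0), (nat_lit 253973338971515930342234366410752), (nat_lit 870300326834209969101459890896896), (nat_lit 521893800353314774439932905652224), (nat_lit 759969030803285151357046515302400), (nat_lit 324697288678183930659515224031232), (nat_lit 0), (nat_lit 253973338971515930342234366410752), (nat_lit 1694581235607631946642758274383872), (nat_lit 1533451367586362907325026483044352), (nat_lit 1613146622295302099958793582411776), (nat_lit 727051591867252990889850166050816), (nat_lit 0), (nat_lit 870300326834209969101459890896896), (nat_lit 1533451367586362907325026483044352), (nat_lit 1055822045396030359029209861455872), (nat_lit 1124585116566847220342967093952512),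 (nat_lit 261329944318504744052887950196736), (nat_lit 521893800353314774439932905652224), (nat_lit 1613146622295302099958793582411776), (nat_lit 1124585116566847220342967093952512), (nat_lit 0), (nat_lit 759969030803285151357046515302400), (nat_lit 727051591867252990889850166050816), (nat_lit 0), (nat_lit 324697288678183930659515224031232), (nat_lit 0), (nat_lit 0), (nat_lit 0), (nat_lit 0), (nat_lit 113859778508678428176890002931712), (nat_lit 0), (nat_lit 0), (nat_lit 0), (nat_lit 0), (nat_lit 56356923892648744447542462251008), (nat_lit 937271566665550821747259128938496), (nat_lit 672244685986872127586390603988992), (nat_lit 759969030803285151357046515302400), (nat_lit 388795196646809713370666756997120), (nat_lit 0), (nat_lit 937271566665550821747259128938496), (nat_lit 674991791232888705592631507288064), (nat_lit 1342936830739473204158153650864128), (nat_lit 727051591867252990889850166050816), (nat_lit 113859778508678428176890002931712), (nat_lit 672244685986872127586390603988992),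 (nat_lit 1342936830739473204158153650864128), (nat_lit 806053491370415236442152515928064), (nat_lit 0), (nat_lit 759969030803285151357046515302400), (nat_lit 727051591867252990889850166050816), (nat_lit 0), (nat_lit 388795196646809713370666756997120), (nat_lit 0), (nat_lit 0), (nat_lit 0), (nat_lit 261329944318504744052887950196736), (nat_lit 0), (nat_lit 0), (nat_lit 0), (nat_lit 0), (nat_lit 619964291778585910649887836340224), (nat_lit 406886827548466801158551425253376), (nat_lit 333090729632854373064723532873728), (nat_lit 324697288678183930659515224031232), (nat_lit 261329944318504744052887950196736), (nat_lit 406886827548466801158551425253376), (nat_lit 648724778099260479790210315452416), (nat_lit 659833631278547047872015064104960), (nat_lit 0), (nat_lit 333090729632854373064723532873728), (nat_lit 659833631278547047872015064104960), (nat_lit 0), (nat_lit 324697288678183930659515224031232), (nat_lit 0), (nat_lit 0), (nat_lit 265223932161702822091931221229568),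 (nat_lit 0), (nat_lit 0), (nat_lit 0), (nat_lit 265223932161702822091931221229568), (nat_lit 66949566207736474402920136179712), (nat_lit 272666752691772492189520248176640), (nat_lit 228781657724013018077053130375168), (nat_lit 0), (nat_lit 272666752691772492189520248176640), (nat_lit 263339394684755857721812775337984), (nat_lit 0), (nat_lit 228781657724013018077053130375168), (nat_lit 0), (nat_lit 82311645858960547226263501144064), (nat_lit 0), (nat_lit 0), (nat_lit 0), (nat_lit 0), (nat_lit 96756764800300696749791955124224), (nat_lit 113777423361434251459957899657216), (nat_lit 0), (nat_lit 113777423361434251459957899657216), (nat_lit 0), (nat_lit 0), (nat_lit 0), (nat_lit 0), (nat_lit 0), (nat_lit 20508482180713654728318221549568), (nat_lit 0), (nat_lit 0), (nat_lit 0), (nat_lit 0), (nat_lit 0)]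


def lP22_0 : List (T ℤ) := [(P (nat_lit 0)), (M (nat_lit 4410501400340933843783516159999)), (P (nat_lit 0)), (P (nat_lit 0)), (T.h (T.h (T.h (P (nat_lit 96674775480032858528316129280)) (T.h (P (nat_lit 0)) (T.h (M (nat_lit 1539936402037090780446719)) (T.h (P (nat_lit 0)) (M (nat_lit 86536408218468351)))))) (T.h (P (nat_lit 0)) (T.h (T.h (M (nat_lit 817570893295480970674175)) (T.h (P (nat_lit 0)) (P (nat_lit 712178620038119424)))) (T.h (P (nat_lit 0)) (M (nat_lit 692532370447794175)))))) (T.h (T.h (P (nat_lit 0)) (T.h (T.h (P (nat_lit 0)) (T.h (M (nat_lit 2618989352391739965439)) (T.h (P (nat_lit 0)) (M (nat_lit 294768566599679))))) (T.h (P (nat_lit 0)) (T.h (T.h (P (nat_lit 0)) (M (nat_lit 129461949038591))) (P (nat_lit 0)))))) (T.h (T.h (T.h (M (nat_lit 817570893295480970674175)) (T.h (P (nat_lit 0)) (P (nat_lit 712178620038119424)))) (T.h (P (nat_lit 0)) (P (nat_lit 3310063201005076480)))) (T.h (T.h (P (nat_lit 0)) (T.h (T.h (P (nat_lit 0)) (M (nat_lit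 129461949038591))) (P (nat_lit 0)))) (M (nat_lit 692532370447794175)))))), (T.h (T.h (T.h (P (nat_lit 0)) (P (nat_lit 1261515900548784767341953024))) (T.h (P (nat_lit 0)) (T.h (T.h (P (nat_lit 0)) (T.h (M (nat_lit 392193281945094848511)) (T.h (P (nat_lit 0)) (P (nat_lit 1046618715029504))))) (T.h (P (nat_lit 0)) (T.h (T.h (P (nat_lit 0)) (M (nat_lit 432490456875007))) (P (nat_lit 0))))))) (T.h (T.h (P (nat_lit 0)) (T.h (P (nat_lit 1072738038739656689844224)) (T.h (P (nat_lit 0)) (P (nat_lit 107204109748142080))))) (T.h (T.h (T.h (P (nat_lit 0)) (T.h (P (nat_lit 392193281945094848512)) (T.h (P (nat_lit 0)) (M (nat_lit 1046618715029503))))) (T.h (P (nat_lit 0)) (T.h (T.h (P (nat_lit 0)) (M (nat_lit 10794187433312255))) (P (nat_lit 0))))) (T.h (T.h (P (nat_lit 0)) (M (nat_lit 107204109748142079))) (T.h (T.h (T.h (P (nat_lit 0)) (P (nat_lit 432490456875008))) (P (nat_lit 0))) (P (nat_lit 0))))))), (T.h (T.h (T.h (P (nat_lit 5102271648357133609590386065408)) (T.h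 (P (nat_lit 0)) (T.h (P (nat_lit 641291079997538122596352)) (T.h (P (nat_lit 0)) (P (nat_lit 1509074362290929664)))))) (T.h (P (nat_lit 0)) (T.h (T.h (P (nat_lit 527913047198678619521024)) (T.h (P (nat_lit 0)) (P (nat_lit 992840272415031296)))) (T.h (P (nat_lit 0)) (P (nat_lit 553912465654546432)))))) (T.h (T.h (P (nat_lit 0)) (T.h (T.h (P (nat_lit 0)) (P (nat_lit 5233297634083781738496))) (P (nat_lit 0)))) (T.h (T.h (T.h (P (nat_lit 527913047198678619521024)) (T.h (P (nat_lit 0)) (P (nat_lit 992840272415031296)))) (T.h (P (nat_lit 0)) (M (nat_lit 2382062302410047487)))) (T.h (P (nat_lit 0)) (P (nat_lit 553912465654546432)))))), (T.h (T.h (T.h (P (nat_lit 0)) (M (nat_lit 1261515900548784767341953023))) (P (nat_lit 0))) (T.h (T.h (P (nat_lit 0)) (M (nat_lit 1072738038739656689844223))) (T.h (T.h (P (nat_lit 0)) (T.h (P (nat_lit 0)) (T.h (T.h (P (nat_lit 0)) (P (nat_lit 10794187433312256))) (P (nat_lit 0))))) (P (nat_lit 0)))))]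
def lP22_1 : List (T ℤ) := [(T.h (P (nat_lit 0)) (T.h (P (nat_lit 0)) (T.h (T.h (P (nat_lit 0)) (T.h (P (nat_lit 0)) (M (nat_lit 3684415977237250047)))) (P (nat_lit 0))))), (P (nat_lit 0)), (P (nat_lit 0)), (P (nat_lit 0)), (T.h (T.h (P (nat_lit 0)) (T.h (T.h (P (nat_lit 0)) (T.h (M (nat_lit 9930660340720679142817791)) (T.h (P (nat_lit 0)) (P (nat_lit 5817303471073787904))))) (T.h (P (nat_lit 0)) (T.h (T.h (P (nat_lit 0)) (P (nat_lit 4498897606964936704))) (P (nat_lit 0)))))) (T.h (T.h (T.h (P (nat_lit 2874759264551899117903675392)) (T.h (P (nat_lit 0)) (T.h (P (nat_lit 7643476739830000386048)) (T.h (P (nat_lit 0)) (M (nat_lit 5476709220483071)))))) (T.h (P (nat_lit 0)) (T.h (T.h (P (nat_lit 1940289171074890858496)) (T.h (P (nat_lit 0)) (M (nat_lit 2788580132061183)))) (T.h (P (nat_lit 0)) (M (nat_lit 1082473110175743)))))) (T.h (T.h (P (nat_lit 0)) (T.h (T.h (P (nat_lit 0)) (M (nat_lit 717555307059871743))) (P (nat_lit 0)))) (T.h (T.h (T.h (M (nat_lit 738474885769798352895))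 (T.h (P (nat_lit 0)) (P (nat_lit 4065623452418048)))) (T.h (P (nat_lit 0)) (P (nat_lit 622586800177152)))) (T.h (P (nat_lit 0)) (M (nat_lit 853826605940735))))))), (T.h (T.h (P (nat_lit 0)) (T.h (T.h (P (nat_lit 47416505117441395902631641088)) (T.h (P (nat_lit 0)) (T.h (M (nat_lit 7653722122218524114943)) (T.h (P (nat_lit 0)) (P (nat_lit 5284322988097536)))))) (T.h (P (nat_lit 0)) (T.h (T.h (M (nat_lit 426404348199077675007)) (T.h (P (nat_lit 0)) (P (nat_lit 4558637779353600)))) (T.h (P (nat_lit 0)) (M (nat_lit 197059579838463))))))) (T.h (T.h (T.h (P (nat_lit 0)) (T.h (M (nat_lit 5319889967147930443841535)) (T.h (P (nat_lit 0)) (P (nat_lit 136417751311843328))))) (T.h (P (nat_lit 0)) (T.h (T.h (P (nat_lit 0)) (M (nat_lit 792260735148228607))) (P (nat_lit 0))))) (T.h (T.h (P (nat_lit 0)) (T.h (T.h (P (nat_lit 123502182344811347968)) (T.h (P (nat_lit 0)) (M (nat_lit 8808587969626111)))) (T.h (P (nat_lit 0)) (M (nat_lit 759253791539199))))) (T.h (T.h (T.h (P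 (nat_lit 0)) (M (nat_lit 3623182536559034367))) (P (nat_lit 0))) (T.h (T.h (P (nat_lit 0)) (P (nat_lit 636707047669760))) (P (nat_lit 0))))))), (T.h (T.h (P (nat_lit 0)) (T.h (T.h (P (nat_lit 0)) (T.h (P (nat_lit 13061859408740106582884352)) (T.h (P (nat_lit 0)) (M (nat_lit 14183074911253168127))))) (T.h (P (nat_lit 0)) (T.h (T.h (P (nat_lit 0)) (P (nat_lit 1793701663668699136))) (P (nat_lit 0)))))) (T.h (T.h (T.h (M (nat_lit 3383368649401081921863155711)) (T.h (P (nat_lit 0)) (T.h (M (nat_lit 3020588307875476013055)) (T.h (P (nat_lit 0)) (P (nat_lit 9250554945142784)))))) (T.h (P (nat_lit 0)) (T.h (T.h (P (nat_lit 4897606766501107335168)) (T.h (P (nat_lit 0)) (M (nat_lit 8840244534575103)))) (T.h (P (nat_lit 0)) (M (nat_lit 109270719660031)))))) (T.h (T.h (P (nat_lit 0)) (T.h (T.h (P (nat_lit 0)) (P (nat_lit 8043047937598554112))) (P (nat_lit 0)))) (T.h (T.h (T.h (P (nat_lit 1449144204392583397376)) (T.h (P (nat_lit 0)) (M (nat_lit 4362756073783295)))) (T.h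 (P (nat_lit 0)) (M (nat_lit 237439028822015)))) (T.h (P (nat_lit 0)) (P (nat_lit 969414783074304))))))), (T.h (T.h (P (nat_lit 0)) (T.h (T.h (M (nat_lit 47638697680888985569739145215)) (T.h (P (nat_lit 0)) (T.h (P (nat_lit 4218958299614159044608)) (T.h (P (nat_lit 0)) (M (nat_lit 5663748413521919)))))) (T.h (P (nat_lit 0)) (T.h (T.h (M (nat_lit 873530666480291545087)) (T.h (P (nat_lit 0)) (P (nat_lit 1692325956550656)))) (T.h (P (nat_lit 0)) (M (nat_lit 252540465315839))))))) (T.h (T.h (T.h (P (nat_lit 0)) (T.h (P (nat_lit 4891702662024706926837760)) (T.h (P (nat_lit 0)) (M (nat_lit 3870950617715310591))))) (T.h (P (nat_lit 0)) (T.h (T.h (P (nat_lit 0)) (P (nat_lit 6320300481474199552))) (P (nat_lit 0))))) (T.h (T.h (P (nat_lit 0)) (T.h (T.h (P (nat_lit 1736765090462693326848)) (T.h (P (nat_lit 0)) (M (nat_lit 2168266134061055)))) (T.h (P (nat_lit 0)) (M (nat_lit 699409081171967))))) (T.h (T.h (T.h (P (nat_lit 0)) (P (nat_lit 2552835554030911488))) (P (nat_lit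 0))) (T.h (T.h (P (nat_lit 0)) (P (nat_lit 315447786405888))) (P (nat_lit 0)))))))]
def lP22_2 : List (T ℤ) := [(T.h (T.h (P (nat_lit 0)) (T.h (T.h (P (nat_lit 0)) (T.h (P (nat_lit 1514619882854388970029056)) (T.h (P (nat_lit 0)) (P (nat_lit 7732904500595261440))))) (T.h (P (nat_lit 0)) (T.h (T.h (P (nat_lit 0)) (M (nat_lit 1155294519671914495))) (P (nat_lit 0)))))) (T.h (T.h (T.h (M (nat_lit 471536197744369659130413055)) (T.h (P (nat_lit 0)) (M (nat_lit 7121757884211567525887)))) (T.h (P (nat_lit 0)) (M (nat_lit 391678135183836446719)))) (T.h (T.h (P (nat_lit 0)) (T.h (T.h (P (nat_lit 0)) (M (nat_lit 5888628940288819199))) (P (nat_lit 0)))) (P (nat_lit 0))))), (P (nat_lit 0)), (P (nat_lit 0)), (P (nat_lit 0)), (T.h (T.h (T.h (M (nat_lit 460972935309887569520215719935)) (T.h (P (nat_lit 0)) (T.h (M (nat_lit 2029091353749028599758847)) (T.h (P (nat_lit 0)) (M (nat_lit 1526433197796098047)))))) (T.h (P (nat_lit 0)) (T.h (T.h (M (nat_lit 2029091353749028599758847))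 (T.h (P (nat_lit 0)) (P (nat_lit 3990713706295066624)))) (T.h (P (nat_lit 0)) (M (nat_lit 1526433197796098047)))))) (T.h (T.h (P (nat_lit 0)) (T.h (T.h (P (nat_lit 0)) (T.h (M (nat_lit 38255836290387560890367)) (T.h (P (nat_lit 0)) (M (nat_lit 15267448728518655))))) (T.h (P (nat_lit 0)) (T.h (T.h (P (nat_lit 0)) (M (nat_lit 15267448728518655))) (P (nat_lit 0)))))) (T.h (T.h (T.h (P (nat_lit 0)) (T.h (P (nat_lit 0)) (P (nat_lit 2998689982794694656)))) (T.h (P (nat_lit 0)) (P (nat_lit 2998689982794694656)))) (T.h (T.h (P (nat_lit 0)) (T.h (T.h (P (nat_lit 0)) (M (nat_lit 14346539850792959))) (P (nat_lit 0)))) (P (nat_lit 0)))))), (T.h (T.h (T.h (P (nat_lit 0)) (T.h (P (nat_lit 3740536491181234184028946432)) (T.h (P (nat_lit 0)) (T.h (M (nat_lit 227177040830728765439)) (T.h (P (nat_lit 0)) (P (nat_lit 632988086468608))))))) (T.h (P (nat_lit 0)) (T.h (T.h (P (nat_lit 0)) (T.h (M (nat_lit 1406929830933170225151)) (T.h (P (nat_lit 0)) (M (nat_lit 285597451747327)))))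 (T.h (P (nat_lit 0)) (T.h (T.h (P (nat_lit 0)) (P (nat_lit 1768850240339968))) (P (nat_lit 0))))))) (T.h (T.h (P (nat_lit 0)) (T.h (T.h (P (nat_lit 9875282602521853746479104)) (T.h (P (nat_lit 0)) (P (nat_lit 6736718963717177344)))) (T.h (P (nat_lit 0)) (P (nat_lit 5803693326376894464))))) (T.h (T.h (T.h (P (nat_lit 0)) (T.h (M (nat_lit 9374060979553220689919)) (T.h (P (nat_lit 0)) (M (nat_lit 3020348864692223))))) (T.h (P (nat_lit 0)) (T.h (T.h (P (nat_lit 0)) (M (nat_lit 11137756148891647))) (P (nat_lit 0))))) (T.h (T.h (P (nat_lit 0)) (M (nat_lit 1587128147822772223))) (T.h (T.h (T.h (P (nat_lit 0)) (P (nat_lit 651352187568128))) (P (nat_lit 0))) (P (nat_lit 0))))))), (T.h (T.h (T.h (M (nat_lit 338361714180115004849106452479)) (T.h (P (nat_lit 0)) (T.h (M (nat_lit 2603676508804139699929087)) (T.h (P (nat_lit 0)) (P (nat_lit 318229806879604736)))))) (T.h (P (nat_lit 0)) (T.h (T.h (P (nat_lit 4633383109431362544730112)) (T.h (P (nat_lit 0)) (P (nat_lit 7582985554350833664))))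 (T.h (P (nat_lit 0)) (P (nat_lit 4731014563690971136)))))) (T.h (T.h (P (nat_lit 0)) (T.h (T.h (P (nat_lit 0)) (T.h (P (nat_lit 44631809005452154372096)) (T.h (P (nat_lit 0)) (P (nat_lit 21157774929887232))))) (T.h (P (nat_lit 0)) (T.h (T.h (P (nat_lit 0)) (P (nat_lit 3431794116395008))) (P (nat_lit 0)))))) (T.h (T.h (T.h (P (nat_lit 0)) (T.h (P (nat_lit 0)) (P (nat_lit 7190836746416816128)))) (T.h (P (nat_lit 0)) (M (nat_lit 8339903994616872959)))) (T.h (T.h (P (nat_lit 0)) (T.h (T.h (P (nat_lit 0)) (P (nat_lit 14212069352800256))) (P (nat_lit 0)))) (M (nat_lit 823250967452450815)))))), (T.h (T.h (T.h (P (nat_lit 0)) (T.h (M (nat_lit 3735944699976290291876364287)) (T.h (P (nat_lit 0)) (T.h (M (nat_lit 6398304223384991432703)) (T.h (P (nat_lit 0)) (P (nat_lit 4645051328102400))))))) (T.h (P (nat_lit 0)) (T.h (T.h (P (nat_lit 0)) (T.h (M (nat_lit 2434592390349984890879)) (T.h (P (nat_lit 0)) (P (nat_lit 4406481162338304))))) (T.h (P (nat_lit 0)) (T.h (T.h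 (P (nat_lit 0)) (P (nat_lit 937475159556096))) (P (nat_lit 0))))))) (T.h (T.h (P (nat_lit 0)) (T.h (T.h (M (nat_lit 13141655625837937975885823)) (T.h (P (nat_lit 0)) (P (nat_lit 698999029035433984)))) (T.h (P (nat_lit 0)) (M (nat_lit 876166944988856319))))) (T.h (T.h (T.h (P (nat_lit 0)) (T.h (P (nat_lit 3769540207674520502272)) (T.h (P (nat_lit 0)) (P (nat_lit 14406680342495232))))) (P (nat_lit 0))) (T.h (T.h (P (nat_lit 0)) (M (nat_lit 3442231760379707391))) (T.h (T.h (T.h (P (nat_lit 0)) (M (nat_lit 1657467581693951))) (P (nat_lit 0))) (P (nat_lit 0)))))))]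
def lP22_3 : List (T ℤ) := [(T.h (T.h (T.h (P (nat_lit 14856572718678401679984347316224)) (T.h (P (nat_lit 0)) (T.h (P (nat_lit 9143594504065898468343808)) (T.h (P (nat_lit 0)) (M (nat_lit 5994328141479280639)))))) (T.h (P (nat_lit 0)) (T.h (T.h (M (nat_lit 146258586246510312161279)) (T.h (P (nat_lit 0)) (M (nat_lit 6245178489742295039)))) (T.h (P (nat_lit 0)) (P (nat_lit 111010873010552832)))))) (T.h (T.h (P (nat_lit 0)) (T.h (T.h (P (nat_lit 0)) (M (nat_lit 10406685990088444215295))) (P (nat_lit 0)))) (T.h (T.h (T.h (P (nat_lit 430512853632606770561024)) (T.h (P (nat_lit 0)) (M (nat_lit 14012339163622277119)))) (T.h (P (nat_lit 0)) (P (nat_lit 716194899120095232)))) (T.h (P (nat_lit 0)) (P (nat_lit 458076090124992512)))))), (P (nat_lit 0)), (P (nat_lit 0)), (T.h (T.h (P (nat_lit 0)) (T.h (T.h (P (nat_lit 0)) (T.h (M (nat_lit 9930660340720679142817791)) (T.h (P (nat_lit 0)) (P (nat_lit 4498897606964936704))))) (T.h (P (nat_lit 0)) (T.h (T.h (P (nat_lit 0))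 (P (nat_lit 5817303471073787904))) (P (nat_lit 0)))))) (T.h (T.h (T.h (P (nat_lit 2874759264551899117903675392)) (T.h (P (nat_lit 0)) (T.h (P (nat_lit 1940289171074890858496)) (T.h (P (nat_lit 0)) (M (nat_lit 1082473110175743)))))) (T.h (P (nat_lit 0)) (T.h (T.h (P (nat_lit 7643476739830000386048)) (T.h (P (nat_lit 0)) (M (nat_lit 2788580132061183)))) (T.h (P (nat_lit 0)) (M (nat_lit 5476709220483071)))))) (T.h (T.h (P (nat_lit 0)) (T.h (T.h (P (nat_lit 0)) (M (nat_lit 717555307059871743))) (P (nat_lit 0)))) (T.h (T.h (T.h (M (nat_lit 738474885769798352895)) (T.h (P (nat_lit 0)) (P (nat_lit 622586800177152)))) (T.h (P (nat_lit 0)) (P (nat_lit 4065623452418048)))) (T.h (P (nat_lit 0)) (M (nat_lit 853826605940735))))))), (T.h (T.h (P (nat_lit 0)) (T.h (T.h (P (nat_lit 3740536491181234184028946432)) (T.h (P (nat_lit 0)) (T.h (M (nat_lit 1406929830933170225151)) (T.h (P (nat_lit 0)) (P (nat_lit 1768850240339968)))))) (T.h (P (nat_lit 0)) (T.h (T.h (M (nat_lit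 227177040830728765439)) (T.h (P (nat_lit 0)) (M (nat_lit 285597451747327)))) (T.h (P (nat_lit 0)) (P (nat_lit 632988086468608))))))) (T.h (T.h (T.h (P (nat_lit 0)) (T.h (P (nat_lit 9875282602521853746479104)) (T.h (P (nat_lit 0)) (P (nat_lit 5803693326376894464))))) (T.h (P (nat_lit 0)) (T.h (T.h (P (nat_lit 0)) (P (nat_lit 6736718963717177344))) (P (nat_lit 0))))) (T.h (T.h (P (nat_lit 0)) (T.h (T.h (M (nat_lit 9374060979553220689919)) (T.h (P (nat_lit 0)) (M (nat_lit 11137756148891647)))) (T.h (P (nat_lit 0)) (M (nat_lit 3020348864692223))))) (T.h (T.h (T.h (P (nat_lit 0)) (M (nat_lit 1587128147822772223))) (P (nat_lit 0))) (T.h (T.h (P (nat_lit 0)) (P (nat_lit 651352187568128))) (P (nat_lit 0))))))), (T.h (T.h (P (nat_lit 0)) (T.h (T.h (P (nat_lit 0)) (T.h (P (nat_lit 13679483588558852806672384)) (T.h (P (nat_lit 0)) (M (nat_lit 2937611177917677567))))) (T.h (P (nat_lit 0)) (T.h (T.h (P (nat_lit 0)) (M (nat_lit 2937611177917677567))) (P (nat_lit 0))))))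 (T.h (T.h (T.h (M (nat_lit 895513046034761536558333951)) (T.h (P (nat_lit 0)) (T.h (M (nat_lit 2278615923996233826303)) (T.h (P (nat_lit 0)) (P (nat_lit 3126952219639808)))))) (T.h (P (nat_lit 0)) (T.h (T.h (M (nat_lit 2278615923996233826303)) (T.h (P (nat_lit 0)) (P (nat_lit 12393691856896000)))) (T.h (P (nat_lit 0)) (P (nat_lit 3126952219639808)))))) (T.h (T.h (P (nat_lit 0)) (T.h (T.h (P (nat_lit 0)) (P (nat_lit 32571348845645004800))) (P (nat_lit 0)))) (T.h (T.h (T.h (P (nat_lit 8232267397385362079744)) (T.h (P (nat_lit 0)) (M (nat_lit 2953990688538623)))) (T.h (P (nat_lit 0)) (M (nat_lit 2953990688538623)))) (T.h (P (nat_lit 0)) (P (nat_lit 2099127109287936))))))), (T.h (T.h (P (nat_lit 0)) (T.h (T.h (M (nat_lit 49201072690816064008665169919)) (T.h (P (nat_lit 0)) (T.h (M (nat_lit 8394835497245403512831)) (T.h (P (nat_lit 0)) (P (nat_lit 235744258031616)))))) (T.h (P (nat_lit 0)) (T.h (T.h (M (nat_lit 954381245221055758335)) (T.h (P (nat_lit 0)) (P (nat_lit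 6882003918913536)))) (T.h (P (nat_lit 0)) (P (nat_lit 209098321821696))))))) (T.h (T.h (T.h (P (nat_lit 0)) (T.h (P (nat_lit 3702461069826797472841728)) (T.h (P (nat_lit 0)) (M (nat_lit 7039414567054606335))))) (T.h (P (nat_lit 0)) (T.h (T.h (P (nat_lit 0)) (P (nat_lit 2978963579450949632))) (P (nat_lit 0))))) (T.h (T.h (P (nat_lit 0)) (T.h (T.h (P (nat_lit 8767017244252998467584)) (T.h (P (nat_lit 0)) (P (nat_lit 50248992988594176)))) (T.h (P (nat_lit 0)) (P (nat_lit 472351797215232))))) (T.h (T.h (T.h (P (nat_lit 0)) (P (nat_lit 8528179222198353920))) (P (nat_lit 0))) (T.h (T.h (P (nat_lit 0)) (M (nat_lit 1225068611567615))) (P (nat_lit 0))))))), (T.h (T.h (P (nat_lit 0)) (T.h (T.h (P (nat_lit 0)) (T.h (P (nat_lit 6774779893922198139699200)) (T.h (P (nat_lit 0)) (M (nat_lit 3330027300455448575))))) (T.h (P (nat_lit 0)) (T.h (T.h (P (nat_lit 0)) (M (nat_lit 5978080759825563647))) (P (nat_lit 0)))))) (T.h (T.h (T.h (M (nat_lit 4847912892436371908541284351))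 (T.h (P (nat_lit 0)) (M (nat_lit 7689282402489485754367)))) (T.h (P (nat_lit 0)) (M (nat_lit 4520338283428990418943)))) (T.h (T.h (P (nat_lit 0)) (T.h (T.h (P (nat_lit 0)) (M (nat_lit 34303312546880290815))) (P (nat_lit 0)))) (M (nat_lit 3937142110085665783807)))))]
def lP22_4 : List (T ℤ) := [(P (nat_lit 0)), (P (nat_lit 0)), (T.h (T.h (T.h (P (nat_lit 96674775480032858528316129280)) (T.h (P (nat_lit 0)) (T.h (M (nat_lit 817570893295480970674175)) (T.h (P (nat_lit 0)) (M (nat_lit 692532370447794175)))))) (T.h (P (nat_lit 0)) (T.h (T.h (M (nat_lit 1539936402037090780446719)) (T.h (P (nat_lit 0)) (P (nat_lit 712178620038119424)))) (T.h (P (nat_lit 0)) (M (nat_lit 86536408218468351)))))) (T.h (T.h (P (nat_lit 0)) (T.h (T.h (P (nat_lit 0)) (T.h (M (nat_lit 2618989352391739965439)) (T.h (P (nat_lit 0)) (M (nat_lit 129461949038591))))) (T.h (P (nat_lit 0)) (T.h (T.h (P (nat_lit 0)) (M (nat_lit 294768566599679))) (P (nat_lit 0)))))) (T.h (T.h (T.h (M (nat_lit 817570893295480970674175))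 (T.h (P (nat_lit 0)) (P (nat_lit 3310063201005076480)))) (T.h (P (nat_lit 0)) (P (nat_lit 712178620038119424)))) (T.h (T.h (P (nat_lit 0)) (T.h (T.h (P (nat_lit 0)) (M (nat_lit 129461949038591))) (P (nat_lit 0)))) (M (nat_lit 692532370447794175)))))), (T.h (T.h (T.h (P (nat_lit 0)) (T.h (P (nat_lit 47416505117441395902631641088)) (T.h (P (nat_lit 0)) (T.h (M (nat_lit 426404348199077675007)) (T.h (P (nat_lit 0)) (M (nat_lit 197059579838463))))))) (T.h (P (nat_lit 0)) (T.h (T.h (P (nat_lit 0)) (T.h (M (nat_lit 7653722122218524114943)) (T.h (P (nat_lit 0)) (P (nat_lit 4558637779353600))))) (T.h (P (nat_lit 0)) (T.h (T.h (P (nat_lit 0)) (P (nat_lit 5284322988097536))) (P (nat_lit 0))))))) (T.h (T.h (P (nat_lit 0)) (T.h (T.h (M (nat_lit 5319889967147930443841535)) (T.h (P (nat_lit 0)) (M (nat_lit 792260735148228607)))) (T.h (P (nat_lit 0)) (P (nat_lit 136417751311843328))))) (T.h (T.h (T.h (P (nat_lit 0)) (T.h (P (nat_lit 123502182344811347968)) (T.h (P (nat_lit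 0)) (M (nat_lit 759253791539199))))) (T.h (P (nat_lit 0)) (T.h (T.h (P (nat_lit 0)) (M (nat_lit 8808587969626111))) (P (nat_lit 0))))) (T.h (T.h (P (nat_lit 0)) (M (nat_lit 3623182536559034367))) (T.h (T.h (T.h (P (nat_lit 0)) (P (nat_lit 636707047669760))) (P (nat_lit 0))) (P (nat_lit 0))))))), (T.h (T.h (T.h (M (nat_lit 338361714180115004849106452479)) (T.h (P (nat_lit 0)) (T.h (P (nat_lit 4633383109431362544730112)) (T.h (P (nat_lit 0)) (P (nat_lit 4731014563690971136)))))) (T.h (P (nat_lit 0)) (T.h (T.h (M (nat_lit 2603676508804139699929087)) (T.h (P (nat_lit 0)) (P (nat_lit 7582985554350833664)))) (T.h (P (nat_lit 0)) (P (nat_lit 318229806879604736)))))) (T.h (T.h (P (nat_lit 0)) (T.h (T.h (P (nat_lit 0)) (T.h (P (nat_lit 44631809005452154372096)) (T.h (P (nat_lit 0)) (P (nat_lit 3431794116395008))))) (T.h (P (nat_lit 0)) (T.h (T.h (P (nat_lit 0)) (P (nat_lit 21157774929887232))) (P (nat_lit 0)))))) (T.h (T.h (T.h (P (nat_lit 0)) (T.h (P (nat_lit 0))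 (M (nat_lit 8339903994616872959)))) (T.h (P (nat_lit 0)) (P (nat_lit 7190836746416816128)))) (T.h (T.h (P (nat_lit 0)) (T.h (T.h (P (nat_lit 0)) (P (nat_lit 14212069352800256))) (P (nat_lit 0)))) (M (nat_lit 823250967452450815)))))), (T.h (T.h (T.h (P (nat_lit 0)) (T.h (M (nat_lit 49201072690816064008665169919)) (T.h (P (nat_lit 0)) (T.h (M (nat_lit 954381245221055758335)) (T.h (P (nat_lit 0)) (P (nat_lit 209098321821696))))))) (T.h (P (nat_lit 0)) (T.h (T.h (P (nat_lit 0)) (T.h (M (nat_lit 8394835497245403512831)) (T.h (P (nat_lit 0)) (P (nat_lit 6882003918913536))))) (T.h (P (nat_lit 0)) (T.h (T.h (P (nat_lit 0)) (P (nat_lit 235744258031616))) (P (nat_lit 0))))))) (T.h (T.h (P (nat_lit 0)) (T.h (T.h (P (nat_lit 3702461069826797472841728)) (T.h (P (nat_lit 0)) (P (nat_lit 2978963579450949632)))) (T.h (P (nat_lit 0)) (M (nat_lit 7039414567054606335))))) (T.h (T.h (T.h (P (nat_lit 0)) (T.h (P (nat_lit 8767017244252998467584)) (T.h (P (nat_lit 0)) (P (nat_lit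 472351797215232))))) (T.h (P (nat_lit 0)) (T.h (T.h (P (nat_lit 0)) (P (nat_lit 50248992988594176))) (P (nat_lit 0))))) (T.h (T.h (P (nat_lit 0)) (P (nat_lit 8528179222198353920))) (T.h (T.h (T.h (P (nat_lit 0)) (M (nat_lit 1225068611567615))) (P (nat_lit 0))) (P (nat_lit 0))))))), (T.h (T.h (T.h (P (nat_lit 27591110730411258944789057372160)) (T.h (P (nat_lit 0)) (T.h (P (nat_lit 1194656571771072035160064)) (T.h (P (nat_lit 0)) (M (nat_lit 437328509317152767)))))) (T.h (P (nat_lit 0)) (T.h (T.h (P (nat_lit 1194656571771072035160064)) (T.h (P (nat_lit 0)) (M (nat_lit 14094344025934921727)))) (T.h (P (nat_lit 0)) (M (nat_lit 437328509317152767)))))) (T.h (T.h (P (nat_lit 0)) (T.h (T.h (P (nat_lit 0)) (M (nat_lit 18081353133715961675775))) (P (nat_lit 0)))) (T.h (T.h (T.h (M (nat_lit 2432566270557964294160383)) (T.h (P (nat_lit 0)) (M (nat_lit 17635344513788542975)))) (T.h (P (nat_lit 0)) (M (nat_lit 17635344513788542975)))) (T.h (P (nat_lit 0)) (P (nat_lit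 836313505496825856)))))), (P (nat_lit 0))]
def lP22_5 : List (T ℤ) := [(P (nat_lit 0)), (T.h (T.h (P (nat_lit 0)) (T.h (T.h (P (nat_lit 1261515900548784767341953024)) (T.h (P (nat_lit 0)) (T.h (M (nat_lit 392193281945094848511)) (T.h (P (nat_lit 0)) (M (nat_lit 432490456875007)))))) (T.h (P (nat_lit 0)) (T.h (T.h (P (nat_lit 0)) (T.h (P (nat_lit 0)) (P (nat_lit 1046618715029504)))) (P (nat_lit 0)))))) (T.h (T.h (T.h (P (nat_lit 0)) (T.h (P (nat_lit 1072738038739656689844224)) (T.h (P (nat_lit 0)) (P (nat_lit 107204109748142080))))) (P (nat_lit 0))) (T.h (T.h (P (nat_lit 0)) (T.h (T.h (P (nat_lit 392193281945094848512)) (T.h (P (nat_lit 0)) (M (nat_lit 10794187433312255)))) (T.h (P (nat_lit 0)) (M (nat_lit 1046618715029503))))) (T.h (T.h (T.h (P (nat_lit 0)) (M (nat_lit 107204109748142079))) (P (nat_lit 0))) (T.h (T.h (P (nat_lit 0)) (P (nat_lit 432490456875008))) (P (nat_lit 0))))))), (T.h (T.h (P (nat_lit 0)) (T.h (T.h (P (nat_lit 0)) (T.h (P (nat_lit 13061859408740106582884352))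 (T.h (P (nat_lit 0)) (P (nat_lit 1793701663668699136))))) (T.h (P (nat_lit 0)) (T.h (T.h (P (nat_lit 0)) (M (nat_lit 14183074911253168127))) (P (nat_lit 0)))))) (T.h (T.h (T.h (M (nat_lit 3383368649401081921863155711)) (T.h (P (nat_lit 0)) (T.h (P (nat_lit 4897606766501107335168)) (T.h (P (nat_lit 0)) (M (nat_lit 109270719660031)))))) (T.h (P (nat_lit 0)) (T.h (T.h (M (nat_lit 3020588307875476013055)) (T.h (P (nat_lit 0)) (M (nat_lit 8840244534575103)))) (T.h (P (nat_lit 0)) (P (nat_lit 9250554945142784)))))) (T.h (T.h (P (nat_lit 0)) (T.h (T.h (P (nat_lit 0)) (P (nat_lit 8043047937598554112))) (P (nat_lit 0)))) (T.h (T.h (T.h (P (nat_lit 1449144204392583397376)) (T.h (P (nat_lit 0)) (M (nat_lit 237439028822015)))) (T.h (P (nat_lit 0)) (M (nat_lit 4362756073783295)))) (T.h (P (nat_lit 0)) (P (nat_lit 969414783074304))))))), (T.h (T.h (P (nat_lit 0)) (T.h (T.h (M (nat_lit 3735944699976290291876364287)) (T.h (P (nat_lit 0)) (T.h (M (nat_lit 2434592390349984890879))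 (T.h (P (nat_lit 0)) (P (nat_lit 937475159556096)))))) (T.h (P (nat_lit 0)) (T.h (T.h (M (nat_lit 6398304223384991432703)) (T.h (P (nat_lit 0)) (P (nat_lit 4406481162338304)))) (T.h (P (nat_lit 0)) (P (nat_lit 4645051328102400))))))) (T.h (T.h (T.h (P (nat_lit 0)) (T.h (M (nat_lit 13141655625837937975885823)) (T.h (P (nat_lit 0)) (M (nat_lit 876166944988856319))))) (T.h (P (nat_lit 0)) (T.h (T.h (P (nat_lit 0)) (P (nat_lit 698999029035433984))) (P (nat_lit 0))))) (T.h (T.h (P (nat_lit 0)) (T.h (P (nat_lit 3769540207674520502272)) (T.h (P (nat_lit 0)) (P (nat_lit 14406680342495232))))) (T.h (T.h (T.h (P (nat_lit 0)) (M (nat_lit 3442231760379707391))) (P (nat_lit 0))) (T.h (T.h (P (nat_lit 0)) (M (nat_lit 1657467581693951))) (P (nat_lit 0))))))), (T.h (T.h (P (nat_lit 0)) (T.h (T.h (P (nat_lit 0)) (T.h (P (nat_lit 6774779893922198139699200)) (T.h (P (nat_lit 0)) (M (nat_lit 5978080759825563647))))) (T.h (P (nat_lit 0)) (T.h (T.h (P (nat_lit 0)) (M (nat_lit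 3330027300455448575))) (P (nat_lit 0)))))) (T.h (T.h (T.h (M (nat_lit 4847912892436371908541284351)) (T.h (P (nat_lit 0)) (M (nat_lit 4520338283428990418943)))) (T.h (P (nat_lit 0)) (M (nat_lit 7689282402489485754367)))) (T.h (T.h (P (nat_lit 0)) (T.h (T.h (P (nat_lit 0)) (M (nat_lit 34303312546880290815))) (P (nat_lit 0)))) (M (nat_lit 3937142110085665783807))))), (P (nat_lit 0)), (P (nat_lit 0)), (T.h (T.h (T.h (P (nat_lit 5102271648357133609590386065408)) (T.h (P (nat_lit 0)) (T.h (P (nat_lit 527913047198678619521024)) (T.h (P (nat_lit 0)) (P (nat_lit 553912465654546432)))))) (T.h (P (nat_lit 0)) (T.h (T.h (P (nat_lit 641291079997538122596352)) (T.h (P (nat_lit 0)) (P (nat_lit 992840272415031296)))) (T.h (P (nat_lit 0)) (P (nat_lit 1509074362290929664)))))) (T.h (T.h (P (nat_lit 0)) (T.h (T.h (P (nat_lit 0)) (P (nat_lit 5233297634083781738496))) (P (nat_lit 0)))) (T.h (T.h (T.h (P (nat_lit 527913047198678619521024)) (T.h (P (nat_lit 0)) (M (nat_lit 2382062302410047487))))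 (T.h (P (nat_lit 0)) (P (nat_lit 992840272415031296)))) (T.h (P (nat_lit 0)) (P (nat_lit 553912465654546432))))))]
def lP22_6 : List (T ℤ) := [(T.h (T.h (T.h (P (nat_lit 0)) (T.h (M (nat_lit 47638697680888985569739145215)) (T.h (P (nat_lit 0)) (T.h (M (nat_lit 873530666480291545087)) (T.h (P (nat_lit 0)) (M (nat_lit 252540465315839))))))) (T.h (P (nat_lit 0)) (T.h (T.h (P (nat_lit 0)) (T.h (P (nat_lit 4218958299614159044608)) (T.h (P (nat_lit 0)) (P (nat_lit 1692325956550656))))) (T.h (P (nat_lit 0)) (T.h (T.h (P (nat_lit 0)) (M (nat_lit 5663748413521919))) (P (nat_lit 0))))))) (T.h (T.h (P (nat_lit 0)) (T.h (T.h (P (nat_lit 4891702662024706926837760)) (T.h (P (nat_lit 0)) (P (nat_lit 6320300481474199552)))) (T.h (P (nat_lit 0)) (M (nat_lit 3870950617715310591))))) (T.h (T.h (T.h (P (nat_lit 0)) (T.h (P (nat_lit 1736765090462693326848)) (T.h (P (nat_lit 0)) (M (nat_lit 699409081171967))))) (T.h (P (nat_lit 0)) (T.h (T.h (P (nat_lit 0)) (M (nat_lit 2168266134061055)))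 (P (nat_lit 0))))) (T.h (T.h (P (nat_lit 0)) (P (nat_lit 2552835554030911488))) (T.h (T.h (T.h (P (nat_lit 0)) (P (nat_lit 315447786405888))) (P (nat_lit 0))) (P (nat_lit 0))))))), (T.h (T.h (T.h (P (nat_lit 14856572718678401679984347316224)) (T.h (P (nat_lit 0)) (T.h (M (nat_lit 146258586246510312161279)) (T.h (P (nat_lit 0)) (P (nat_lit 111010873010552832)))))) (T.h (P (nat_lit 0)) (T.h (T.h (P (nat_lit 9143594504065898468343808)) (T.h (P (nat_lit 0)) (M (nat_lit 6245178489742295039)))) (T.h (P (nat_lit 0)) (M (nat_lit 5994328141479280639)))))) (T.h (T.h (P (nat_lit 0)) (T.h (T.h (P (nat_lit 0)) (M (nat_lit 10406685990088444215295))) (P (nat_lit 0)))) (T.h (T.h (T.h (P (nat_lit 430512853632606770561024)) (T.h (P (nat_lit 0)) (P (nat_lit 716194899120095232)))) (T.h (P (nat_lit 0)) (M (nat_lit 14012339163622277119)))) (T.h (P (nat_lit 0)) (P (nat_lit 458076090124992512)))))), (P (nat_lit 0)), (P (nat_lit 0)), (T.h (T.h (P (nat_lit 0)) (M (nat_lit 1261515900548784767341953023)))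 (T.h (T.h (T.h (P (nat_lit 0)) (M (nat_lit 1072738038739656689844223))) (P (nat_lit 0))) (T.h (T.h (P (nat_lit 0)) (T.h (T.h (P (nat_lit 0)) (T.h (P (nat_lit 0)) (P (nat_lit 10794187433312256)))) (P (nat_lit 0)))) (P (nat_lit 0))))), (T.h (T.h (P (nat_lit 0)) (T.h (T.h (P (nat_lit 0)) (T.h (P (nat_lit 1514619882854388970029056)) (T.h (P (nat_lit 0)) (M (nat_lit 1155294519671914495))))) (T.h (P (nat_lit 0)) (T.h (T.h (P (nat_lit 0)) (P (nat_lit 7732904500595261440))) (P (nat_lit 0)))))) (T.h (T.h (T.h (M (nat_lit 471536197744369659130413055)) (T.h (P (nat_lit 0)) (M (nat_lit 391678135183836446719)))) (T.h (P (nat_lit 0)) (M (nat_lit 7121757884211567525887)))) (T.h (T.h (P (nat_lit 0)) (T.h (T.h (P (nat_lit 0)) (M (nat_lit 5888628940288819199))) (P (nat_lit 0)))) (P (nat_lit 0))))), (P (nat_lit 0)), (P (nat_lit 0))]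
def lP22_7 : List (T ℤ) := [(T.h (P (nat_lit 0)) (T.h (P (nat_lit 0)) (T.h (T.h (T.h (P (nat_lit 0)) (T.h (P (nat_lit 0)) (M (nat_lit 3684415977237250047)))) (P (nat_lit 0))) (P (nat_lit 0))))), (P (nat_lit 0)), (P (nat_lit 0)), (P (nat_lit 0)), (P (nat_lit 0)), (P (nat_lit 0)), (T.h (T.h (P (nat_lit 0)) (T.h (T.h (P (nat_lit 2874759264551899117903675392)) (T.h (P (nat_lit 0)) (T.h (P (nat_lit 7643476739830000386048)) (T.h (P (nat_lit 0)) (M (nat_lit 5476709220483071)))))) (T.h (P (nat_lit 0)) (T.h (T.h (M (nat_lit 738474885769798352895)) (T.h (P (nat_lit 0)) (P (nat_lit 4065623452418048)))) (T.h (P (nat_lit 0)) (M (nat_lit 853826605940735))))))) (T.h (T.h (T.h (P (nat_lit 0)) (T.h (M (nat_lit 9930660340720679142817791)) (T.h (P (nat_lit 0)) (P (nat_lit 5817303471073787904))))) (T.h (P (nat_lit 0)) (T.h (T.h (P (nat_lit 0)) (M (nat_lit 717555307059871743))) (P (nat_lit 0))))) (T.h (T.h (P (nat_lit 0)) (T.h (T.h (P (nat_lit 1940289171074890858496)) (T.h (P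 (nat_lit 0)) (M (nat_lit 2788580132061183)))) (T.h (P (nat_lit 0)) (P (nat_lit 622586800177152))))) (T.h (T.h (T.h (P (nat_lit 0)) (P (nat_lit 4498897606964936704))) (P (nat_lit 0))) (T.h (T.h (P (nat_lit 0)) (M (nat_lit 1082473110175743))) (P (nat_lit 0))))))), (T.h (T.h (P (nat_lit 0)) (T.h (T.h (P (nat_lit 0)) (T.h (M (nat_lit 4463515356901483409833983)) (T.h (P (nat_lit 0)) (P (nat_lit 7605483484118777856))))) (T.h (P (nat_lit 0)) (T.h (T.h (P (nat_lit 0)) (M (nat_lit 1482488571502788607))) (P (nat_lit 0)))))) (T.h (T.h (T.h (P (nat_lit 47860890244336575236846649344)) (T.h (P (nat_lit 0)) (T.h (M (nat_lit 784194477009793974271)) (T.h (P (nat_lit 0)) (P (nat_lit 6043173838946304)))))) (T.h (P (nat_lit 0)) (T.h (T.h (M (nat_lit 3597032363270198001663)) (T.h (P (nat_lit 0)) (P (nat_lit 13145120237748224)))) (T.h (P (nat_lit 0)) (M (nat_lit 1267602620481535)))))) (T.h (T.h (P (nat_lit 0)) (T.h (T.h (P (nat_lit 0)) (M (nat_lit 11848340227800170495))) (P (nat_lit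 0)))) (T.h (T.h (T.h (P (nat_lit 2173465681159660765184)) (T.h (P (nat_lit 0)) (M (nat_lit 7943289692454911)))) (T.h (P (nat_lit 0)) (P (nat_lit 2158071953883136)))) (T.h (P (nat_lit 0)) (P (nat_lit 702140510470144)))))))]
def lP22_8 : List (T ℤ) := [(T.h (T.h (P (nat_lit 0)) (T.h (T.h (M (nat_lit 3383368649401081921863155711)) (T.h (P (nat_lit 0)) (T.h (M (nat_lit 3020588307875476013055)) (T.h (P (nat_lit 0)) (P (nat_lit 9250554945142784)))))) (T.h (P (nat_lit 0)) (T.h (T.h (P (nat_lit 1449144204392583397376)) (T.h (P (nat_lit 0)) (M (nat_lit 4362756073783295)))) (T.h (P (nat_lit 0)) (P (nat_lit 969414783074304))))))) (T.h (T.h (T.h (P (nat_lit 0)) (T.h (P (nat_lit 13061859408740106582884352)) (T.h (P (nat_lit 0)) (M (nat_lit 14183074911253168127))))) (T.h (P (nat_lit 0)) (T.h (T.h (P (nat_lit 0)) (P (nat_lit 8043047937598554112))) (P (nat_lit 0))))) (T.h (T.h (P (nat_lit 0)) (T.h (T.h (P (nat_lit 4897606766501107335168)) (T.h (P (nat_lit 0)) (M (nat_lit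 8840244534575103)))) (T.h (P (nat_lit 0)) (M (nat_lit 237439028822015))))) (T.h (T.h (T.h (P (nat_lit 0)) (P (nat_lit 1793701663668699136))) (P (nat_lit 0))) (T.h (T.h (P (nat_lit 0)) (M (nat_lit 109270719660031))) (P (nat_lit 0))))))), (T.h (T.h (P (nat_lit 0)) (T.h (T.h (P (nat_lit 0)) (T.h (P (nat_lit 4891702662024706926837760)) (T.h (P (nat_lit 0)) (M (nat_lit 3870950617715310591))))) (T.h (P (nat_lit 0)) (T.h (T.h (P (nat_lit 0)) (P (nat_lit 2552835554030911488))) (P (nat_lit 0)))))) (T.h (T.h (T.h (M (nat_lit 47638697680888985569739145215)) (T.h (P (nat_lit 0)) (T.h (P (nat_lit 4218958299614159044608)) (T.h (P (nat_lit 0)) (M (nat_lit 5663748413521919)))))) (T.h (P (nat_lit 0)) (T.h (T.h (P (nat_lit 1736765090462693326848)) (T.h (P (nat_lit 0)) (M (nat_lit 2168266134061055)))) (T.h (P (nat_lit 0)) (P (nat_lit 315447786405888)))))) (T.h (T.h (P (nat_lit 0)) (T.h (T.h (P (nat_lit 0)) (P (nat_lit 6320300481474199552))) (P (nat_lit 0)))) (T.h (T.h (T.h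 (M (nat_lit 873530666480291545087)) (T.h (P (nat_lit 0)) (P (nat_lit 1692325956550656)))) (T.h (P (nat_lit 0)) (M (nat_lit 699409081171967)))) (T.h (P (nat_lit 0)) (M (nat_lit 252540465315839))))))), (T.h (T.h (P (nat_lit 0)) (T.h (T.h (M (nat_lit 471536197744369659130413055)) (T.h (P (nat_lit 0)) (M (nat_lit 7121757884211567525887)))) (P (nat_lit 0)))) (T.h (T.h (T.h (P (nat_lit 0)) (T.h (P (nat_lit 1514619882854388970029056)) (T.h (P (nat_lit 0)) (P (nat_lit 7732904500595261440))))) (T.h (P (nat_lit 0)) (T.h (T.h (P (nat_lit 0)) (M (nat_lit 5888628940288819199))) (P (nat_lit 0))))) (T.h (T.h (P (nat_lit 0)) (M (nat_lit 391678135183836446719))) (T.h (T.h (T.h (P (nat_lit 0)) (M (nat_lit 1155294519671914495))) (P (nat_lit 0))) (P (nat_lit 0)))))), (P (nat_lit 0)), (P (nat_lit 0)), (T.h (T.h (T.h (P (nat_lit 0)) (T.h (P (nat_lit 0)) (T.h (P (nat_lit 0)) (T.h (P (nat_lit 0)) (T.h (P (nat_lit 0)) (M (nat_lit 955482939457535))))))) (T.h (P (nat_lit 0)) (T.h (T.h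 (P (nat_lit 0)) (T.h (M (nat_lit 4023288376355572416511)) (T.h (P (nat_lit 0)) (P (nat_lit 17746068228407296))))) (T.h (P (nat_lit 0)) (T.h (T.h (P (nat_lit 0)) (M (nat_lit 5123191855120383))) (P (nat_lit 0))))))) (T.h (T.h (P (nat_lit 0)) (T.h (T.h (P (nat_lit 64503246115057485794508800)) (T.h (P (nat_lit 0)) (P (nat_lit 12938633457344446464)))) (T.h (P (nat_lit 0)) (P (nat_lit 795046254307442688))))) (T.h (T.h (T.h (P (nat_lit 0)) (T.h (M (nat_lit 4023288376355572416511)) (T.h (P (nat_lit 0)) (P (nat_lit 17746068228407296))))) (T.h (P (nat_lit 0)) (T.h (T.h (P (nat_lit 0)) (M (nat_lit 8245414944309247))) (P (nat_lit 0))))) (T.h (T.h (P (nat_lit 0)) (P (nat_lit 795046254307442688))) (T.h (T.h (T.h (P (nat_lit 0)) (M (nat_lit 5123191855120383))) (P (nat_lit 0))) (P (nat_lit 0))))))), (T.h (T.h (T.h (M (nat_lit 2927081493154294249442284404735)) (T.h (P (nat_lit 0)) (T.h (M (nat_lit 9191093184583540020346879)) (T.h (P (nat_lit 0)) (M (nat_lit 383198541759119359))))))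 (T.h (P (nat_lit 0)) (T.h (T.h (P (nat_lit 3502497139088687288549376)) (T.h (P (nat_lit 0)) (M (nat_lit 53377782175955419135)))) (T.h (P (nat_lit 0)) (P (nat_lit 3306608714785488896)))))) (T.h (T.h (P (nat_lit 0)) (T.h (T.h (P (nat_lit 0)) (T.h (M (nat_lit 277084263942109265919)) (T.h (P (nat_lit 0)) (M (nat_lit 4367046019317759))))) (T.h (P (nat_lit 0)) (T.h (T.h (P (nat_lit 0)) (M (nat_lit 362778432634879))) (P (nat_lit 0)))))) (T.h (T.h (T.h (M (nat_lit 8433683003161739429675007)) (T.h (P (nat_lit 0)) (M (nat_lit 28817230587324530687)))) (T.h (P (nat_lit 0)) (P (nat_lit 2666819342133362688)))) (T.h (T.h (P (nat_lit 0)) (T.h (T.h (P (nat_lit 0)) (M (nat_lit 9153391251947519))) (P (nat_lit 0)))) (P (nat_lit 1004096111528378368)))))), (T.h (T.h (T.h (P (nat_lit 0)) (T.h (M (nat_lit 1932805922345647315882082303)) (T.h (P (nat_lit 0)) (T.h (P (nat_lit 17669175649043166003200)) (T.h (P (nat_lit 0)) (P (nat_lit 5558297383403520))))))) (T.h (P (nat_lit 0)) (T.h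 (T.h (P (nat_lit 0)) (T.h (P (nat_lit 17679488136000722436096)) (T.h (P (nat_lit 0)) (M (nat_lit 5994255547105279))))) (T.h (P (nat_lit 0)) (T.h (T.h (P (nat_lit 0)) (P (nat_lit 4390270459445248))) (P (nat_lit 0))))))) (T.h (T.h (P (nat_lit 0)) (T.h (T.h (M (nat_lit 60039266405509223094943743)) (T.h (P (nat_lit 0)) (P (nat_lit 15580325017345327104)))) (T.h (P (nat_lit 0)) (P (nat_lit 309226259353698304))))) (T.h (T.h (T.h (P (nat_lit 0)) (T.h (P (nat_lit 17679488136000722436096)) (T.h (P (nat_lit 0)) (M (nat_lit 5994255547105279))))) (T.h (P (nat_lit 0)) (T.h (T.h (P (nat_lit 0)) (P (nat_lit 2683627399806976))) (P (nat_lit 0))))) (T.h (T.h (P (nat_lit 0)) (P (nat_lit 309226259353698304))) (T.h (T.h (T.h (P (nat_lit 0)) (P (nat_lit 4390270459445248))) (P (nat_lit 0))) (P (nat_lit 0)))))))]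
def lP22_9 : List (T ℤ) := [(T.h (T.h (T.h (P (nat_lit 2141173400490522924430219280384)) (T.h (P (nat_lit 0)) (T.h (P (nat_lit 10202185739954566874529792)) (T.h (P (nat_lit 0)) (M (nat_lit 407510509886111743)))))) (T.h (P (nat_lit 0)) (T.h (T.h (P (nat_lit 2755423052078074411614208)) (T.h (P (nat_lit 0)) (P (nat_lit 38971114064168615936)))) (T.h (P (nat_lit 0)) (M (nat_lit 2013936797247078399)))))) (T.h (T.h (P (nat_lit 0)) (T.h (T.h (P (nat_lit 0)) (T.h (M (nat_lit 2245742729472155582463)) (T.h (P (nat_lit 0)) (P (nat_lit 5240455223181312))))) (T.h (P (nat_lit 0)) (T.h (T.h (P (nat_lit 0)) (P (nat_lit 5709701810749440))) (P (nat_lit 0)))))) (T.h (T.h (T.h (P (nat_lit 2755423052078074411614208)) (T.h (P (nat_lit 0)) (P (nat_lit 38971114064168615936)))) (T.h (P (nat_lit 0)) (P (nat_lit 71583197720215552)))) (T.h (T.h (P (nat_lit 0)) (T.h (T.h (P (nat_lit 0)) (P (nat_lit 5709701810749440))) (P (nat_lit 0)))) (M (nat_lit 2013936797247078399)))))), (T.h (T.h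 (T.h (P (nat_lit 0)) (T.h (M (nat_lit 4932787182799620835601547263)) (T.h (P (nat_lit 0)) (M (nat_lit 22683376998001198235647))))) (T.h (P (nat_lit 0)) (T.h (T.h (P (nat_lit 0)) (M (nat_lit 19024528249610334896127))) (P (nat_lit 0))))) (T.h (T.h (P (nat_lit 0)) (T.h (T.h (P (nat_lit 469854802530439322927104)) (T.h (P (nat_lit 0)) (M (nat_lit 2405820120166301695)))) (T.h (P (nat_lit 0)) (M (nat_lit 1902139663028584447))))) (T.h (T.h (T.h (P (nat_lit 0)) (M (nat_lit 19024528249610334896127))) (P (nat_lit 0))) (T.h (T.h (P (nat_lit 0)) (M (nat_lit 1902139663028584447))) (P (nat_lit 0)))))), (P (nat_lit 0)), (P (nat_lit 0)), (T.h (T.h (P (nat_lit 0)) (T.h (T.h (P (nat_lit 0)) (T.h (P (nat_lit 0)) (T.h (M (nat_lit 4023288376355572416511)) (T.h (P (nat_lit 0)) (M (nat_lit 5123191855120383)))))) (T.h (P (nat_lit 0)) (T.h (T.h (P (nat_lit 0)) (T.h (P (nat_lit 0)) (P (nat_lit 17746068228407296)))) (T.h (P (nat_lit 0)) (M (nat_lit 955482939457535))))))) (T.h (T.h (T.h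 (P (nat_lit 0)) (T.h (P (nat_lit 64503246115057485794508800)) (T.h (P (nat_lit 0)) (P (nat_lit 795046254307442688))))) (T.h (P (nat_lit 0)) (T.h (T.h (P (nat_lit 0)) (P (nat_lit 12938633457344446464))) (P (nat_lit 0))))) (T.h (T.h (P (nat_lit 0)) (T.h (T.h (M (nat_lit 4023288376355572416511)) (T.h (P (nat_lit 0)) (M (nat_lit 8245414944309247)))) (T.h (P (nat_lit 0)) (P (nat_lit 17746068228407296))))) (T.h (T.h (T.h (P (nat_lit 0)) (P (nat_lit 795046254307442688))) (P (nat_lit 0))) (T.h (T.h (P (nat_lit 0)) (M (nat_lit 5123191855120383))) (P (nat_lit 0))))))), (T.h (T.h (P (nat_lit 0)) (T.h (T.h (P (nat_lit 0)) (T.h (P (nat_lit 1957344530603387364835328)) (T.h (P (nat_lit 0)) (M (nat_lit 49284794323627409407))))) (T.h (P (nat_lit 0)) (T.h (T.h (P (nat_lit 0)) (M (nat_lit 31137062395752480767))) (P (nat_lit 0)))))) (T.h (T.h (T.h (M (nat_lit 19869073653131804131622649855)) (T.h (P (nat_lit 0)) (T.h (M (nat_lit 5943260452164290478079)) (T.h (P (nat_lit 0)) (M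 (nat_lit 6962062625734655)))))) (T.h (P (nat_lit 0)) (T.h (T.h (M (nat_lit 7177687224317498097663)) (T.h (P (nat_lit 0)) (P (nat_lit 77046820858494976)))) (T.h (P (nat_lit 0)) (M (nat_lit 7654853666406399)))))) (T.h (T.h (P (nat_lit 0)) (T.h (T.h (P (nat_lit 0)) (P (nat_lit 94491169096630009856))) (P (nat_lit 0)))) (T.h (T.h (T.h (P (nat_lit 6773321612529888133120)) (T.h (P (nat_lit 0)) (P (nat_lit 4754118344474624)))) (T.h (P (nat_lit 0)) (P (nat_lit 5040420300750848)))) (T.h (P (nat_lit 0)) (M (nat_lit 145850248724479))))))), (T.h (T.h (P (nat_lit 0)) (T.h (T.h (M (nat_lit 10110931427917392107752390655)) (T.h (P (nat_lit 0)) (T.h (P (nat_lit 38438641801432209031168)) (T.h (P (nat_lit 0)) (P (nat_lit 24021546090364928)))))) (T.h (P (nat_lit 0)) (T.h (T.h (P (nat_lit 8261101118955020353536)) (T.h (P (nat_lit 0)) (M (nat_lit 2130561984954367)))) (T.h (P (nat_lit 0)) (P (nat_lit 533129381019648))))))) (T.h (T.h (T.h (P (nat_lit 0)) (T.h (M (nat_lit 68482786979373198274985983))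 (T.h (P (nat_lit 0)) (M (nat_lit 8104107676780199935))))) (T.h (P (nat_lit 0)) (T.h (T.h (P (nat_lit 0)) (M (nat_lit 41803659244434620415))) (P (nat_lit 0))))) (T.h (T.h (P (nat_lit 0)) (T.h (T.h (M (nat_lit 434863121499244462079)) (T.h (P (nat_lit 0)) (P (nat_lit 47943131333328896)))) (T.h (P (nat_lit 0)) (M (nat_lit 15861830619299839))))) (T.h (T.h (T.h (P (nat_lit 0)) (M (nat_lit 8796228712036040703))) (P (nat_lit 0))) (T.h (T.h (P (nat_lit 0)) (P (nat_lit 9953874026299392))) (P (nat_lit 0))))))), (T.h (T.h (P (nat_lit 0)) (T.h (T.h (P (nat_lit 0)) (T.h (P (nat_lit 7134864019933703962624000)) (T.h (P (nat_lit 0)) (P (nat_lit 25806678660235657216))))) (T.h (P (nat_lit 0)) (T.h (T.h (P (nat_lit 0)) (P (nat_lit 14948699728714399744))) (P (nat_lit 0)))))) (T.h (T.h (T.h (M (nat_lit 21489684987982723440726507519)) (T.h (P (nat_lit 0)) (T.h (M (nat_lit 14201226063573812248575)) (T.h (P (nat_lit 0)) (M (nat_lit 1413062830325759)))))) (T.h (P (nat_lit 0)) (T.h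 (T.h (M (nat_lit 3526065635949872676863)) (T.h (P (nat_lit 0)) (M (nat_lit 46026919089930239)))) (T.h (P (nat_lit 0)) (P (nat_lit 2733952022347776)))))) (T.h (T.h (P (nat_lit 0)) (T.h (T.h (P (nat_lit 0)) (M (nat_lit 60213479081244622847))) (P (nat_lit 0)))) (T.h (T.h (T.h (M (nat_lit 6832981111253990637567)) (T.h (P (nat_lit 0)) (P (nat_lit 17415315030933504)))) (T.h (P (nat_lit 0)) (M (nat_lit 5394656012009471)))) (T.h (P (nat_lit 0)) (M (nat_lit 2113886455726079)))))))]
def lP22_10 : List (T ℤ) := [(T.h (T.h (P (nat_lit 0)) (T.h (T.h (P (nat_lit 719817474826572681220980736)) (T.h (P (nat_lit 0)) (M (nat_lit 81404364450585477382143)))) (T.h (P (nat_lit 0)) (M (nat_lit 7669978220490651598847))))) (T.h (T.h (T.h (P (nat_lit 0)) (T.h (P (nat_lit 23740425189703612127772672)) (T.h (P (nat_lit 0)) (M (nat_lit 9694400712317861887))))) (T.h (P (nat_lit 0)) (T.h (T.h (P (nat_lit 0)) (P (nat_lit 25574308777851617280))) (P (nat_lit 0))))) (T.h (T.h (P (nat_lit 0))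 (P (nat_lit 5292361548524716818432))) (T.h (T.h (T.h (P (nat_lit 0)) (M (nat_lit 11574770874313605119))) (P (nat_lit 0))) (P (nat_lit 0)))))), (P (nat_lit 0)), (P (nat_lit 0)), (T.h (T.h (T.h (P (nat_lit 0)) (T.h (P (nat_lit 2874759264551899117903675392)) (T.h (P (nat_lit 0)) (T.h (M (nat_lit 738474885769798352895)) (T.h (P (nat_lit 0)) (M (nat_lit 853826605940735))))))) (T.h (P (nat_lit 0)) (T.h (T.h (P (nat_lit 0)) (T.h (P (nat_lit 7643476739830000386048)) (T.h (P (nat_lit 0)) (P (nat_lit 4065623452418048))))) (T.h (P (nat_lit 0)) (T.h (T.h (P (nat_lit 0)) (M (nat_lit 5476709220483071))) (P (nat_lit 0))))))) (T.h (T.h (P (nat_lit 0)) (T.h (T.h (M (nat_lit 9930660340720679142817791)) (T.h (P (nat_lit 0)) (M (nat_lit 717555307059871743)))) (T.h (P (nat_lit 0)) (P (nat_lit 5817303471073787904))))) (T.h (T.h (T.h (P (nat_lit 0)) (T.h (P (nat_lit 1940289171074890858496)) (T.h (P (nat_lit 0)) (P (nat_lit 622586800177152))))) (T.h (P (nat_lit 0)) (T.h (T.h (P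 (nat_lit 0)) (M (nat_lit 2788580132061183))) (P (nat_lit 0))))) (T.h (T.h (P (nat_lit 0)) (P (nat_lit 4498897606964936704))) (T.h (T.h (T.h (P (nat_lit 0)) (M (nat_lit 1082473110175743))) (P (nat_lit 0))) (P (nat_lit 0))))))), (T.h (T.h (T.h (M (nat_lit 1114101153985789054301100834815)) (T.h (P (nat_lit 0)) (T.h (P (nat_lit 7141172396579346538561536)) (T.h (P (nat_lit 0)) (P (nat_lit 4765715769944178688)))))) (T.h (P (nat_lit 0)) (T.h (T.h (M (nat_lit 2557717122610336364494847)) (T.h (P (nat_lit 0)) (M (nat_lit 61634766708328628223)))) (T.h (P (nat_lit 0)) (M (nat_lit 189303355846164479)))))) (T.h (T.h (P (nat_lit 0)) (T.h (T.h (P (nat_lit 0)) (T.h (M (nat_lit 30963283778458873757695)) (T.h (P (nat_lit 0)) (P (nat_lit 1167571700088832))))) (T.h (P (nat_lit 0)) (T.h (T.h (P (nat_lit 0)) (P (nat_lit 6433192016805888))) (P (nat_lit 0)))))) (T.h (T.h (T.h (M (nat_lit 8624081864752066983886847)) (T.h (P (nat_lit 0)) (P (nat_lit 9741744240169320448)))) (T.h (P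 (nat_lit 0)) (M (nat_lit 9859842714718175231)))) (T.h (T.h (P (nat_lit 0)) (T.h (T.h (P (nat_lit 0)) (M (nat_lit 17335195603042303))) (P (nat_lit 0)))) (M (nat_lit 705863052360155135)))))), (T.h (T.h (T.h (P (nat_lit 0)) (T.h (M (nat_lit 10110931427917392107752390655)) (T.h (P (nat_lit 0)) (T.h (P (nat_lit 8261101118955020353536)) (T.h (P (nat_lit 0)) (P (nat_lit 533129381019648))))))) (T.h (P (nat_lit 0)) (T.h (T.h (P (nat_lit 0)) (T.h (P (nat_lit 38438641801432209031168)) (T.h (P (nat_lit 0)) (M (nat_lit 2130561984954367))))) (T.h (P (nat_lit 0)) (T.h (T.h (P (nat_lit 0)) (P (nat_lit 24021546090364928))) (P (nat_lit 0))))))) (T.h (T.h (P (nat_lit 0)) (T.h (T.h (M (nat_lit 68482786979373198274985983)) (T.h (P (nat_lit 0)) (M (nat_lit 41803659244434620415)))) (T.h (P (nat_lit 0)) (M (nat_lit 8104107676780199935))))) (T.h (T.h (T.h (P (nat_lit 0)) (T.h (M (nat_lit 434863121499244462079)) (T.h (P (nat_lit 0)) (M (nat_lit 15861830619299839))))) (T.h (P (nat_lit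 0)) (T.h (T.h (P (nat_lit 0)) (P (nat_lit 47943131333328896))) (P (nat_lit 0))))) (T.h (T.h (P (nat_lit 0)) (M (nat_lit 8796228712036040703))) (T.h (T.h (T.h (P (nat_lit 0)) (P (nat_lit 9953874026299392))) (P (nat_lit 0))) (P (nat_lit 0))))))), (T.h (T.h (T.h (P (nat_lit 1103063056789797682621446094848)) (T.h (P (nat_lit 0)) (T.h (P (nat_lit 3779251442669933534642176)) (T.h (P (nat_lit 0)) (M (nat_lit 8722767057218699263)))))) (T.h (P (nat_lit 0)) (T.h (T.h (P (nat_lit 3779251442669933534642176)) (T.h (P (nat_lit 0)) (P (nat_lit 104697319351738433536)))) (T.h (P (nat_lit 0)) (M (nat_lit 8722767057218699263)))))) (T.h (T.h (P (nat_lit 0)) (T.h (T.h (P (nat_lit 0)) (T.h (M (nat_lit 36489858112758766108671)) (T.h (P (nat_lit 0)) (P (nat_lit 16928777523363840))))) (T.h (P (nat_lit 0)) (T.h (T.h (P (nat_lit 0)) (P (nat_lit 16928777523363840))) (P (nat_lit 0)))))) (T.h (T.h (T.h (P (nat_lit 16761310900828117634383872)) (T.h (P (nat_lit 0)) (P (nat_lit 2488124734957420544))))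 (T.h (P (nat_lit 0)) (P (nat_lit 2488124734957420544)))) (T.h (T.h (P (nat_lit 0)) (T.h (T.h (P (nat_lit 0)) (P (nat_lit 48655472220831744))) (P (nat_lit 0)))) (P (nat_lit 1685292276038762496)))))), (T.h (T.h (T.h (P (nat_lit 0)) (T.h (P (nat_lit 7305124718430585802427727872)) (T.h (P (nat_lit 0)) (M (nat_lit 20279155672975897788415))))) (T.h (P (nat_lit 0)) (T.h (T.h (P (nat_lit 0)) (M (nat_lit 96236064664401412620287))) (P (nat_lit 0))))) (T.h (T.h (P (nat_lit 0)) (T.h (T.h (P (nat_lit 19257407832285331475922944)) (T.h (P (nat_lit 0)) (M (nat_lit 20217337298745819135)))) (T.h (P (nat_lit 0)) (M (nat_lit 9833570716052619263))))) (T.h (T.h (T.h (P (nat_lit 0)) (M (nat_lit 5037294177271444144127))) (P (nat_lit 0))) (T.h (T.h (P (nat_lit 0)) (M (nat_lit 11252355669518450687))) (P (nat_lit 0))))))]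
def lP22_11 : List (T ℤ) := [(P (nat_lit 0)), (P (nat_lit 0)), (T.h (T.h (P (nat_lit 0)) (T.h (T.h (P (nat_lit 0)) (T.h (P (nat_lit 5102654353536485708267520)) (T.h (P (nat_lit 0)) (P (nat_lit 9404284322610937856))))) (T.h (P (nat_lit 0)) (T.h (T.h (P (nat_lit 0)) (P (nat_lit 1897946477464911872))) (P (nat_lit 0)))))) (T.h (T.h (T.h (P (nat_lit 45916236550121450560957710336)) (T.h (P (nat_lit 0)) (T.h (P (nat_lit 8906486331046721748992)) (T.h (P (nat_lit 0)) (M (nat_lit 2253510903529471)))))) (T.h (P (nat_lit 0)) (T.h (T.h (M (nat_lit 10119872893221028757503)) (T.h (P (nat_lit 0)) (M (nat_lit 1345932322734079)))) (T.h (P (nat_lit 0)) (P (nat_lit 10364734460231680)))))) (T.h (T.h (P (nat_lit 0)) (T.h (T.h (P (nat_lit 0)) (P (nat_lit 3967610635230904320))) (P (nat_lit 0)))) (T.h (T.h (T.h (P (nat_lit 3433965189034995089408)) (T.h (P (nat_lit 0)) (P (nat_lit 3152084747943936)))) (T.h (P (nat_lit 0)) (M (nat_lit 14802336251543551)))) (T.h (P (nat_lit 0)) (P (nat_lit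 1212198057312256))))))), (T.h (T.h (P (nat_lit 0)) (T.h (T.h (M (nat_lit 1932805922345647315882082303)) (T.h (P (nat_lit 0)) (T.h (P (nat_lit 17679488136000722436096)) (T.h (P (nat_lit 0)) (P (nat_lit 4390270459445248)))))) (T.h (P (nat_lit 0)) (T.h (T.h (P (nat_lit 17669175649043166003200)) (T.h (P (nat_lit 0)) (M (nat_lit 5994255547105279)))) (T.h (P (nat_lit 0)) (P (nat_lit 5558297383403520))))))) (T.h (T.h (T.h (P (nat_lit 0)) (T.h (M (nat_lit 60039266405509223094943743)) (T.h (P (nat_lit 0)) (P (nat_lit 309226259353698304))))) (T.h (P (nat_lit 0)) (T.h (T.h (P (nat_lit 0)) (P (nat_lit 15580325017345327104))) (P (nat_lit 0))))) (T.h (T.h (P (nat_lit 0)) (T.h (T.h (P (nat_lit 17679488136000722436096)) (T.h (P (nat_lit 0)) (P (nat_lit 2683627399806976)))) (T.h (P (nat_lit 0)) (M (nat_lit 5994255547105279))))) (T.h (T.h (T.h (P (nat_lit 0)) (P (nat_lit 309226259353698304))) (P (nat_lit 0))) (T.h (T.h (P (nat_lit 0)) (P (nat_lit 4390270459445248))) (P (nat_lit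 0))))))), (T.h (T.h (P (nat_lit 0)) (T.h (T.h (P (nat_lit 0)) (T.h (P (nat_lit 7134864019933703962624000)) (T.h (P (nat_lit 0)) (P (nat_lit 14948699728714399744))))) (T.h (P (nat_lit 0)) (T.h (T.h (P (nat_lit 0)) (P (nat_lit 25806678660235657216))) (P (nat_lit 0)))))) (T.h (T.h (T.h (M (nat_lit 21489684987982723440726507519)) (T.h (P (nat_lit 0)) (T.h (M (nat_lit 3526065635949872676863)) (T.h (P (nat_lit 0)) (P (nat_lit 2733952022347776)))))) (T.h (P (nat_lit 0)) (T.h (T.h (M (nat_lit 14201226063573812248575)) (T.h (P (nat_lit 0)) (M (nat_lit 46026919089930239)))) (T.h (P (nat_lit 0)) (M (nat_lit 1413062830325759)))))) (T.h (T.h (P (nat_lit 0)) (T.h (T.h (P (nat_lit 0)) (M (nat_lit 60213479081244622847))) (P (nat_lit 0)))) (T.h (T.h (T.h (M (nat_lit 6832981111253990637567)) (T.h (P (nat_lit 0)) (M (nat_lit 5394656012009471)))) (T.h (P (nat_lit 0)) (P (nat_lit 17415315030933504)))) (T.h (P (nat_lit 0)) (M (nat_lit 2113886455726079))))))), (T.h (T.h (P (nat_lit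 0)) (T.h (T.h (P (nat_lit 7305124718430585802427727872)) (T.h (P (nat_lit 0)) (M (nat_lit 96236064664401412620287)))) (T.h (P (nat_lit 0)) (M (nat_lit 20279155672975897788415))))) (T.h (T.h (T.h (P (nat_lit 0)) (T.h (P (nat_lit 19257407832285331475922944)) (T.h (P (nat_lit 0)) (M (nat_lit 9833570716052619263))))) (T.h (P (nat_lit 0)) (T.h (T.h (P (nat_lit 0)) (M (nat_lit 20217337298745819135))) (P (nat_lit 0))))) (T.h (T.h (P (nat_lit 0)) (M (nat_lit 5037294177271444144127))) (T.h (T.h (T.h (P (nat_lit 0)) (M (nat_lit 11252355669518450687))) (P (nat_lit 0))) (P (nat_lit 0)))))), (P (nat_lit 0)), (T.h (T.h (T.h (P (nat_lit 1571816185327542650024130248704)) (T.h (P (nat_lit 0)) (T.h (M (nat_lit 579660240083096682102783)) (T.h (P (nat_lit 0)) (M (nat_lit 282831231819710463)))))) (T.h (P (nat_lit 0)) (T.h (T.h (M (nat_lit 2022185110742053708365823)) (T.h (P (nat_lit 0)) (P (nat_lit 4252784634942717952)))) (T.h (P (nat_lit 0)) (P (nat_lit 1581418103290462208))))))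 (T.h (T.h (P (nat_lit 0)) (T.h (T.h (P (nat_lit 0)) (T.h (P (nat_lit 5045653986828529696768)) (T.h (P (nat_lit 0)) (M (nat_lit 1903233936916479))))) (T.h (P (nat_lit 0)) (T.h (T.h (P (nat_lit 0)) (M (nat_lit 1746818407727103))) (P (nat_lit 0)))))) (T.h (T.h (T.h (M (nat_lit 579660240083096682102783)) (T.h (P (nat_lit 0)) (M (nat_lit 5476805079707156479)))) (T.h (P (nat_lit 0)) (P (nat_lit 4252784634942717952)))) (T.h (T.h (P (nat_lit 0)) (T.h (T.h (P (nat_lit 0)) (M (nat_lit 1903233936916479))) (P (nat_lit 0)))) (M (nat_lit 282831231819710463))))))]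
def lP22_12 : List (T ℤ) := [(T.h (T.h (T.h (P (nat_lit 0)) (T.h (M (nat_lit 3383368649401081921863155711)) (T.h (P (nat_lit 0)) (T.h (P (nat_lit 1449144204392583397376)) (T.h (P (nat_lit 0)) (P (nat_lit 969414783074304))))))) (T.h (P (nat_lit 0)) (T.h (T.h (P (nat_lit 0)) (T.h (M (nat_lit 3020588307875476013055)) (T.h (P (nat_lit 0)) (M (nat_lit 4362756073783295))))) (T.h (P (nat_lit 0)) (T.h (T.h (P (nat_lit 0)) (P (nat_lit 9250554945142784))) (P (nat_lit 0))))))) (T.h (T.h (P (nat_lit 0)) (T.h (T.h (P (nat_lit 13061859408740106582884352)) (T.h (P (nat_lit 0)) (P (nat_lit 8043047937598554112)))) (T.h (P (nat_lit 0)) (M (nat_lit 14183074911253168127))))) (T.h (T.h (T.h (P (nat_lit 0)) (T.h (P (nat_lit 4897606766501107335168)) (T.h (P (nat_lit 0)) (M (nat_lit 237439028822015))))) (T.h (P (nat_lit 0)) (T.h (T.h (P (nat_lit 0)) (M (nat_lit 8840244534575103))) (P (nat_lit 0))))) (T.h (T.h (P (nat_lit 0)) (P (nat_lit 1793701663668699136))) (T.h (T.h (T.h (P (nat_lit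 0)) (M (nat_lit 109270719660031))) (P (nat_lit 0))) (P (nat_lit 0))))))), (T.h (T.h (T.h (P (nat_lit 2141173400490522924430219280384)) (T.h (P (nat_lit 0)) (T.h (P (nat_lit 2755423052078074411614208)) (T.h (P (nat_lit 0)) (M (nat_lit 2013936797247078399)))))) (T.h (P (nat_lit 0)) (T.h (T.h (P (nat_lit 10202185739954566874529792)) (T.h (P (nat_lit 0)) (P (nat_lit 38971114064168615936)))) (T.h (P (nat_lit 0)) (M (nat_lit 407510509886111743)))))) (T.h (T.h (P (nat_lit 0)) (T.h (T.h (P (nat_lit 0)) (T.h (M (nat_lit 2245742729472155582463)) (T.h (P (nat_lit 0)) (P (nat_lit 5709701810749440))))) (T.h (P (nat_lit 0)) (T.h (T.h (P (nat_lit 0)) (P (nat_lit 5240455223181312))) (P (nat_lit 0)))))) (T.h (T.h (T.h (P (nat_lit 2755423052078074411614208)) (T.h (P (nat_lit 0)) (P (nat_lit 71583197720215552)))) (T.h (P (nat_lit 0)) (P (nat_lit 38971114064168615936)))) (T.h (T.h (P (nat_lit 0)) (T.h (T.h (P (nat_lit 0)) (P (nat_lit 5709701810749440))) (P (nat_lit 0)))) (M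 (nat_lit 2013936797247078399)))))), (T.h (T.h (T.h (P (nat_lit 0)) (T.h (P (nat_lit 719817474826572681220980736)) (T.h (P (nat_lit 0)) (M (nat_lit 7669978220490651598847))))) (T.h (P (nat_lit 0)) (T.h (T.h (P (nat_lit 0)) (M (nat_lit 81404364450585477382143))) (P (nat_lit 0))))) (T.h (T.h (P (nat_lit 0)) (T.h (T.h (P (nat_lit 23740425189703612127772672)) (T.h (P (nat_lit 0)) (P (nat_lit 25574308777851617280)))) (T.h (P (nat_lit 0)) (M (nat_lit 9694400712317861887))))) (T.h (T.h (T.h (P (nat_lit 0)) (P (nat_lit 5292361548524716818432))) (P (nat_lit 0))) (T.h (T.h (P (nat_lit 0)) (M (nat_lit 11574770874313605119))) (P (nat_lit 0)))))), (P (nat_lit 0)), (P (nat_lit 0)), (T.h (T.h (P (nat_lit 0)) (T.h (T.h (P (nat_lit 0)) (T.h (P (nat_lit 4891702662024706926837760)) (T.h (P (nat_lit 0)) (P (nat_lit 2552835554030911488))))) (T.h (P (nat_lit 0)) (T.h (T.h (P (nat_lit 0)) (M (nat_lit 3870950617715310591))) (P (nat_lit 0)))))) (T.h (T.h (T.h (M (nat_lit 47638697680888985569739145215))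 (T.h (P (nat_lit 0)) (T.h (P (nat_lit 1736765090462693326848)) (T.h (P (nat_lit 0)) (P (nat_lit 315447786405888)))))) (T.h (P (nat_lit 0)) (T.h (T.h (P (nat_lit 4218958299614159044608)) (T.h (P (nat_lit 0)) (M (nat_lit 2168266134061055)))) (T.h (P (nat_lit 0)) (M (nat_lit 5663748413521919)))))) (T.h (T.h (P (nat_lit 0)) (T.h (T.h (P (nat_lit 0)) (P (nat_lit 6320300481474199552))) (P (nat_lit 0)))) (T.h (T.h (T.h (M (nat_lit 873530666480291545087)) (T.h (P (nat_lit 0)) (M (nat_lit 699409081171967)))) (T.h (P (nat_lit 0)) (P (nat_lit 1692325956550656)))) (T.h (P (nat_lit 0)) (M (nat_lit 252540465315839))))))), (T.h (T.h (P (nat_lit 0)) (T.h (T.h (M (nat_lit 4932787182799620835601547263)) (T.h (P (nat_lit 0)) (M (nat_lit 19024528249610334896127)))) (T.h (P (nat_lit 0)) (M (nat_lit 22683376998001198235647))))) (T.h (T.h (T.h (P (nat_lit 0)) (T.h (P (nat_lit 469854802530439322927104)) (T.h (P (nat_lit 0)) (M (nat_lit 1902139663028584447))))) (T.h (P (nat_lit 0))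 (T.h (T.h (P (nat_lit 0)) (M (nat_lit 2405820120166301695))) (P (nat_lit 0))))) (T.h (T.h (P (nat_lit 0)) (M (nat_lit 19024528249610334896127))) (T.h (T.h (T.h (P (nat_lit 0)) (M (nat_lit 1902139663028584447))) (P (nat_lit 0))) (P (nat_lit 0)))))), (P (nat_lit 0))]
def lP22_13 : List (T ℤ) := [(P (nat_lit 0)), (T.h (T.h (T.h (P (nat_lit 0)) (M (nat_lit 471536197744369659130413055))) (T.h (P (nat_lit 0)) (T.h (T.h (P (nat_lit 0)) (M (nat_lit 7121757884211567525887))) (P (nat_lit 0))))) (T.h (T.h (P (nat_lit 0)) (T.h (T.h (P (nat_lit 1514619882854388970029056)) (T.h (P (nat_lit 0)) (M (nat_lit 5888628940288819199)))) (T.h (P (nat_lit 0)) (P (nat_lit 7732904500595261440))))) (T.h (T.h (T.h (P (nat_lit 0)) (M (nat_lit 391678135183836446719))) (P (nat_lit 0))) (T.h (T.h (P (nat_lit 0)) (M (nat_lit 1155294519671914495))) (P (nat_lit 0)))))), (P (nat_lit 0)), (P (nat_lit 0)), (P (nat_lit 0)), (M (nat_lit 4410501400340933843783516159999)), (P (nat_lit 0)), (P (nat_lit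 0))]
def lP22_14 : List (T ℤ) := [(T.h (T.h (T.h (M (nat_lit 364298159829854710991899590655)) (T.h (P (nat_lit 0)) (T.h (M (nat_lit 3569027755786119380205567)) (T.h (P (nat_lit 0)) (M (nat_lit 1612969606014566399)))))) (T.h (P (nat_lit 0)) (T.h (T.h (M (nat_lit 817570893295480970674175)) (T.h (P (nat_lit 0)) (P (nat_lit 3710868602832814080)))) (T.h (P (nat_lit 0)) (M (nat_lit 692532370447794175)))))) (T.h (T.h (P (nat_lit 0)) (T.h (T.h (P (nat_lit 0)) (T.h (M (nat_lit 40874825642779300855807)) (T.h (P (nat_lit 0)) (M (nat_lit 15562217295118335))))) (T.h (P (nat_lit 0)) (T.h (T.h (P (nat_lit 0)) (M (nat_lit 14476001799831551))) (P (nat_lit 0)))))) (T.h (T.h (T.h (M (nat_lit 2846662247044509570433023)) (T.h (P (nat_lit 0)) (P (nat_lit 4702892326333186048)))) (T.h (P (nat_lit 0)) (P (nat_lit 6308753183799771136)))) (T.h (T.h (P (nat_lit 0)) (T.h (T.h (P (nat_lit 0)) (M (nat_lit 15396910677557247))) (P (nat_lit 0)))) (M (nat_lit 2218965568243892223)))))), (T.h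 (T.h (T.h (P (nat_lit 0)) (T.h (P (nat_lit 2469837008222561632381829120)) (T.h (P (nat_lit 0)) (T.h (P (nat_lit 13023785487600711630848)) (T.h (P (nat_lit 0)) (M (nat_lit 9923090742673407))))))) (T.h (P (nat_lit 0)) (T.h (T.h (P (nat_lit 0)) (T.h (P (nat_lit 1442787282259084836864)) (T.h (P (nat_lit 0)) (M (nat_lit 24746393105268735))))) (T.h (P (nat_lit 0)) (T.h (T.h (P (nat_lit 0)) (P (nat_lit 2231092518944768))) (P (nat_lit 0))))))) (T.h (T.h (P (nat_lit 0)) (T.h (T.h (P (nat_lit 15335290610414365515448320)) (T.h (P (nat_lit 0)) (M (nat_lit 8134717021788045311)))) (T.h (P (nat_lit 0)) (P (nat_lit 8578795778330329088))))) (T.h (T.h (T.h (P (nat_lit 0)) (T.h (P (nat_lit 6668307893578234855424)) (T.h (P (nat_lit 0)) (M (nat_lit 9573983587958783))))) (T.h (P (nat_lit 0)) (T.h (T.h (P (nat_lit 0)) (P (nat_lit 21931943582203904))) (P (nat_lit 0))))) (T.h (T.h (P (nat_lit 0)) (M (nat_lit 4158563546147323903))) (T.h (T.h (T.h (P (nat_lit 0)) (M (nat_lit 3211310102577151)))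 (P (nat_lit 0))) (P (nat_lit 0))))))), (T.h (T.h (T.h (P (nat_lit 4763909934177018604741279612928)) (T.h (P (nat_lit 0)) (T.h (M (nat_lit 1962385428806601577332735)) (T.h (P (nat_lit 0)) (P (nat_lit 1827304169170534400)))))) (T.h (P (nat_lit 0)) (T.h (T.h (P (nat_lit 527913047198678619521024)) (T.h (P (nat_lit 0)) (P (nat_lit 8183677018831847424)))) (T.h (P (nat_lit 0)) (M (nat_lit 269338501797904383)))))) (T.h (T.h (P (nat_lit 0)) (T.h (T.h (P (nat_lit 0)) (T.h (P (nat_lit 49865106639535936110592)) (T.h (P (nat_lit 0)) (P (nat_lit 21157774929887232))))) (T.h (P (nat_lit 0)) (T.h (T.h (P (nat_lit 0)) (P (nat_lit 14212069352800256))) (P (nat_lit 0)))))) (T.h (T.h (T.h (P (nat_lit 5161296156630041164251136)) (T.h (P (nat_lit 0)) (P (nat_lit 8575825826765864960)))) (T.h (P (nat_lit 0)) (M (nat_lit 10721966297026920447)))) (T.h (T.h (P (nat_lit 0)) (T.h (T.h (P (nat_lit 0)) (P (nat_lit 3431794116395008))) (P (nat_lit 0)))) (P (nat_lit 5284927029345517568)))))),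 (T.h (T.h (T.h (P (nat_lit 0)) (T.h (M (nat_lit 4997460600525075059218317311)) (T.h (P (nat_lit 0)) (T.h (M (nat_lit 6398304223384991432703)) (T.h (P (nat_lit 0)) (P (nat_lit 4645051328102400))))))) (T.h (P (nat_lit 0)) (T.h (T.h (P (nat_lit 0)) (T.h (P (nat_lit 3769540207674520502272)) (T.h (P (nat_lit 0)) (P (nat_lit 14406680342495232))))) (T.h (P (nat_lit 0)) (T.h (T.h (P (nat_lit 0)) (M (nat_lit 1657467581693951))) (P (nat_lit 0))))))) (T.h (T.h (P (nat_lit 0)) (T.h (T.h (M (nat_lit 14214393664577594665730047)) (T.h (P (nat_lit 0)) (P (nat_lit 698999029035433984)))) (T.h (P (nat_lit 0)) (M (nat_lit 3442231760379707391))))) (T.h (T.h (T.h (P (nat_lit 0)) (T.h (M (nat_lit 2434592390349984890879)) (T.h (P (nat_lit 0)) (P (nat_lit 4406481162338304))))) (T.h (P (nat_lit 0)) (T.h (T.h (P (nat_lit 0)) (P (nat_lit 10794187433312256))) (P (nat_lit 0))))) (T.h (T.h (P (nat_lit 0)) (M (nat_lit 876166944988856319))) (T.h (T.h (T.h (P (nat_lit 0)) (P (nat_lit 937475159556096)))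 (P (nat_lit 0))) (P (nat_lit 0))))))), (T.h (T.h (T.h (P (nat_lit 14856572718678401679984347316224)) (T.h (P (nat_lit 0)) (T.h (P (nat_lit 9143594504065898468343808)) (T.h (P (nat_lit 0)) (M (nat_lit 5994328141479280639)))))) (T.h (P (nat_lit 0)) (T.h (T.h (P (nat_lit 430512853632606770561024)) (T.h (P (nat_lit 0)) (M (nat_lit 14012339163622277119)))) (T.h (P (nat_lit 0)) (P (nat_lit 458076090124992512)))))) (T.h (T.h (P (nat_lit 0)) (T.h (T.h (P (nat_lit 0)) (M (nat_lit 10406685990088444215295))) (P (nat_lit 0)))) (T.h (T.h (T.h (M (nat_lit 146258586246510312161279)) (T.h (P (nat_lit 0)) (M (nat_lit 6245178489742295039)))) (T.h (P (nat_lit 0)) (M (nat_lit 2968221078117154815)))) (T.h (P (nat_lit 0)) (P (nat_lit 111010873010552832)))))), (P (nat_lit 0)), (P (nat_lit 0)), (T.h (T.h (P (nat_lit 0)) (T.h (T.h (P (nat_lit 0)) (T.h (P (nat_lit 54572585774336806651691008)) (T.h (P (nat_lit 0)) (P (nat_lit 6612349725381230592))))) (T.h (P (nat_lit 0)) (T.h (T.h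 (P (nat_lit 0)) (P (nat_lit 5293943861272379392))) (P (nat_lit 0)))))) (T.h (T.h (T.h (P (nat_lit 2874759264551899117903675392)) (T.h (P (nat_lit 0)) (T.h (P (nat_lit 3620188363474427969536)) (T.h (P (nat_lit 0)) (M (nat_lit 10599901075603455)))))) (T.h (P (nat_lit 0)) (T.h (T.h (M (nat_lit 2082999205280681558015)) (T.h (P (nat_lit 0)) (M (nat_lit 11033995076370431)))) (T.h (P (nat_lit 0)) (M (nat_lit 6205664965296127)))))) (T.h (T.h (P (nat_lit 0)) (T.h (T.h (P (nat_lit 0)) (P (nat_lit 12221078150284574720))) (P (nat_lit 0)))) (T.h (T.h (T.h (M (nat_lit 738474885769798352895)) (T.h (P (nat_lit 0)) (P (nat_lit 21811691680825344)))) (T.h (P (nat_lit 0)) (P (nat_lit 18368655028584448)))) (T.h (P (nat_lit 0)) (M (nat_lit 1809309545398271)))))))]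
def lP22_15 : List (T ℤ) := [(T.h (T.h (P (nat_lit 0)) (T.h (T.h (P (nat_lit 16932207078975800452117954560)) (T.h (P (nat_lit 0)) (T.h (P (nat_lit 44465585472532943732736)) (T.h (P (nat_lit 0)) (M (nat_lit 576546173845503)))))) (T.h (P (nat_lit 0)) (T.h (T.h (P (nat_lit 3458675420943098052608)) (T.h (P (nat_lit 0)) (M (nat_lit 24782412154798079)))) (T.h (P (nat_lit 0)) (P (nat_lit 3161425102864384))))))) (T.h (T.h (T.h (P (nat_lit 0)) (T.h (M (nat_lit 21329726924007280998350847)) (T.h (P (nat_lit 0)) (M (nat_lit 4226509474308816895))))) (T.h (P (nat_lit 0)) (T.h (T.h (P (nat_lit 0)) (P (nat_lit 21968178430628331520))) (P (nat_lit 0))))) (T.h (T.h (P (nat_lit 0)) (T.h (T.h (P (nat_lit 5323332165170521702400)) (T.h (P (nat_lit 0)) (P (nat_lit 16352949644099584)))) (T.h (P (nat_lit 0)) (P (nat_lit 2596806975324160))))) (T.h (T.h (T.h (P (nat_lit 0)) (M (nat_lit 8164621384287256575))) (P (nat_lit 0))) (T.h (T.h (P (nat_lit 0)) (P (nat_lit 4440460525240320)))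 (P (nat_lit 0))))))), (T.h (T.h (P (nat_lit 0)) (T.h (T.h (P (nat_lit 0)) (T.h (M (nat_lit 55420927570633091692101631)) (T.h (P (nat_lit 0)) (M (nat_lit 22287182588033368063))))) (T.h (P (nat_lit 0)) (T.h (T.h (P (nat_lit 0)) (M (nat_lit 7002527048367341567))) (P (nat_lit 0)))))) (T.h (T.h (T.h (M (nat_lit 13494300077318474029615546367)) (T.h (P (nat_lit 0)) (T.h (P (nat_lit 35418053493556733018112)) (T.h (P (nat_lit 0)) (P (nat_lit 33272101035507712)))))) (T.h (P (nat_lit 0)) (T.h (T.h (P (nat_lit 4462743645001862873088)) (T.h (P (nat_lit 0)) (P (nat_lit 39102886798753792)))) (T.h (P (nat_lit 0)) (P (nat_lit 9844603306639360)))))) (T.h (T.h (P (nat_lit 0)) (T.h (T.h (P (nat_lit 0)) (M (nat_lit 33760611306836066303))) (P (nat_lit 0)))) (T.h (T.h (T.h (P (nat_lit 9710245323347603750912)) (T.h (P (nat_lit 0)) (M (nat_lit 6493318058737663)))) (T.h (P (nat_lit 0)) (M (nat_lit 16099269648121855)))) (T.h (P (nat_lit 0)) (P (nat_lit 1502544164093952))))))), (T.h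 (T.h (P (nat_lit 0)) (T.h (T.h (M (nat_lit 69128382668871709010465652735)) (T.h (P (nat_lit 0)) (T.h (M (nat_lit 9982267763959653203967)) (T.h (P (nat_lit 0)) (M (nat_lit 7076811243847679)))))) (T.h (P (nat_lit 0)) (T.h (T.h (M (nat_lit 7706511777734282182655)) (T.h (P (nat_lit 0)) (P (nat_lit 19107640987484160)))) (T.h (P (nat_lit 0)) (M (nat_lit 2366426921041919))))))) (T.h (T.h (T.h (P (nat_lit 0)) (T.h (P (nat_lit 12026566681958410889461760)) (T.h (P (nat_lit 0)) (P (nat_lit 21935728042520346624))))) (T.h (P (nat_lit 0)) (T.h (T.h (P (nat_lit 0)) (M (nat_lit 53893178599770423295))) (P (nat_lit 0))))) (T.h (T.h (P (nat_lit 0)) (T.h (T.h (M (nat_lit 1789300545487179350015)) (T.h (P (nat_lit 0)) (M (nat_lit 48195185223991295)))) (T.h (P (nat_lit 0)) (M (nat_lit 6094065093181439))))) (T.h (T.h (T.h (P (nat_lit 0)) (P (nat_lit 17501535282745311232))) (P (nat_lit 0))) (T.h (T.h (P (nat_lit 0)) (P (nat_lit 3049399808753664))) (P (nat_lit 0))))))), (T.h (T.h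 (P (nat_lit 0)) (T.h (T.h (P (nat_lit 0)) (T.h (P (nat_lit 25255045072558001097801728)) (T.h (P (nat_lit 0)) (M (nat_lit 1961496211722600447))))) (T.h (P (nat_lit 0)) (T.h (T.h (P (nat_lit 0)) (M (nat_lit 12730065393985519615))) (P (nat_lit 0)))))) (T.h (T.h (T.h (P (nat_lit 248281277082203022090567680)) (T.h (P (nat_lit 0)) (M (nat_lit 88526122334797044908031)))) (T.h (P (nat_lit 0)) (P (nat_lit 4900683413340880371712)))) (T.h (T.h (P (nat_lit 0)) (T.h (T.h (P (nat_lit 0)) (P (nat_lit 19685679837562798080))) (P (nat_lit 0)))) (M (nat_lit 7669978220490651598847))))), (P (nat_lit 0)), (P (nat_lit 0)), (T.h (T.h (T.h (M (nat_lit 921945870619775139040431439871)) (T.h (P (nat_lit 0)) (T.h (M (nat_lit 2029091353749028599758847)) (T.h (P (nat_lit 0)) (M (nat_lit 1526433197796098047)))))) (T.h (P (nat_lit 0)) (T.h (T.h (M (nat_lit 4058182707498057199517695)) (T.h (P (nat_lit 0)) (P (nat_lit 6989403689089761280)))) (T.h (P (nat_lit 0)) (M (nat_lit 3052866395592196095))))))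 (T.h (T.h (P (nat_lit 0)) (T.h (T.h (P (nat_lit 0)) (T.h (M (nat_lit 76511672580775121780735)) (T.h (P (nat_lit 0)) (M (nat_lit 29613988579311615))))) (T.h (P (nat_lit 0)) (T.h (T.h (P (nat_lit 0)) (M (nat_lit 30534897457037311))) (P (nat_lit 0)))))) (T.h (T.h (T.h (M (nat_lit 2029091353749028599758847)) (T.h (P (nat_lit 0)) (P (nat_lit 5997379965589389312)))) (T.h (P (nat_lit 0)) (P (nat_lit 6989403689089761280)))) (T.h (T.h (P (nat_lit 0)) (T.h (T.h (P (nat_lit 0)) (M (nat_lit 29613988579311615))) (P (nat_lit 0)))) (M (nat_lit 1526433197796098047)))))), (T.h (T.h (T.h (P (nat_lit 0)) (T.h (M (nat_lit 45530204497593354604672712703)) (T.h (P (nat_lit 0)) (T.h (P (nat_lit 15541576339527762444288)) (T.h (P (nat_lit 0)) (M (nat_lit 4181364614987775))))))) (T.h (P (nat_lit 0)) (T.h (T.h (P (nat_lit 0)) (T.h (P (nat_lit 34056443364783071166464)) (T.h (P (nat_lit 0)) (M (nat_lit 8571855325462527))))) (T.h (P (nat_lit 0)) (T.h (T.h (P (nat_lit 0)) (M (nat_lit 11241314651963391)))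 (P (nat_lit 0))))))) (T.h (T.h (P (nat_lit 0)) (T.h (T.h (P (nat_lit 8036464554509141238874112)) (T.h (P (nat_lit 0)) (M (nat_lit 11296943196984049663)))) (T.h (P (nat_lit 0)) (P (nat_lit 14159163420439478272))))) (T.h (T.h (T.h (P (nat_lit 0)) (T.h (P (nat_lit 10184816992823652909056)) (T.h (P (nat_lit 0)) (P (nat_lit 10182493639999488))))) (T.h (P (nat_lit 0)) (T.h (T.h (P (nat_lit 0)) (P (nat_lit 6187769831260160))) (P (nat_lit 0))))) (T.h (T.h (P (nat_lit 0)) (P (nat_lit 11004310803087097856))) (T.h (T.h (T.h (P (nat_lit 0)) (P (nat_lit 2226477955907584))) (P (nat_lit 0))) (P (nat_lit 0)))))))]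
def lP22_16 : List (T ℤ) := [(T.h (T.h (T.h (P (nat_lit 29656857511185159458979919691776)) (T.h (P (nat_lit 0)) (T.h (M (nat_lit 14929591146198989698760703)) (T.h (P (nat_lit 0)) (P (nat_lit 2890176459857461248)))))) (T.h (P (nat_lit 0)) (T.h (T.h (M (nat_lit 7692531527963487454101503)) (T.h (P (nat_lit 0)) (M (nat_lit 40577967166320541695)))) (T.h (P (nat_lit 0)) (P (nat_lit 7302961216668827648)))))) (T.h (T.h (P (nat_lit 0)) (T.h (T.h (P (nat_lit 0)) (T.h (P (nat_lit 151182173365017801392128)) (T.h (P (nat_lit 0)) (P (nat_lit 114145547448418304))))) (T.h (P (nat_lit 0)) (T.h (T.h (P (nat_lit 0)) (P (nat_lit 96419566634926080))) (P (nat_lit 0)))))) (T.h (T.h (T.h (M (nat_lit 12325914637394849998831615)) (T.h (P (nat_lit 0)) (M (nat_lit 40970115974254559231)))) (T.h (P (nat_lit 0)) (M (nat_lit 56500856715288248319)))) (T.h (T.h (P (nat_lit 0)) (T.h (T.h (P (nat_lit 0)) (P (nat_lit 107199841871331328))) (P (nat_lit 0)))) (P (nat_lit 1748695685525405696)))))),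 (T.h (T.h (T.h (P (nat_lit 0)) (T.h (P (nat_lit 48621219545383997186703884288)) (T.h (P (nat_lit 0)) (T.h (M (nat_lit 30123771730712355405823)) (T.h (P (nat_lit 0)) (P (nat_lit 12409553019076608))))))) (T.h (P (nat_lit 0)) (T.h (T.h (P (nat_lit 0)) (T.h (M (nat_lit 16348626763866857013247)) (T.h (P (nat_lit 0)) (P (nat_lit 9377507307749376))))) (T.h (P (nat_lit 0)) (T.h (T.h (P (nat_lit 0)) (P (nat_lit 12107450128269312))) (P (nat_lit 0))))))) (T.h (T.h (P (nat_lit 0)) (T.h (T.h (M (nat_lit 41315088959704011613667327)) (T.h (P (nat_lit 0)) (P (nat_lit 5093460046679900160)))) (T.h (P (nat_lit 0)) (M (nat_lit 12828767962521403391))))) (T.h (T.h (T.h (P (nat_lit 0)) (T.h (M (nat_lit 10144494165842351620095)) (T.h (P (nat_lit 0)) (P (nat_lit 19377706487906304))))) (T.h (P (nat_lit 0)) (T.h (T.h (P (nat_lit 0)) (M (nat_lit 25988288970227711))) (P (nat_lit 0))))) (T.h (T.h (P (nat_lit 0)) (M (nat_lit 15394832777912254463))) (T.h (T.h (T.h (P (nat_lit 0)) (P (nat_lit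 9512507387019264))) (P (nat_lit 0))) (P (nat_lit 0))))))), (T.h (T.h (T.h (P (nat_lit 39761181631921477110199364878336)) (T.h (P (nat_lit 0)) (T.h (P (nat_lit 56700947185817893845598208)) (T.h (P (nat_lit 0)) (M (nat_lit 18281093468572876799)))))) (T.h (P (nat_lit 0)) (T.h (T.h (P (nat_lit 28412110802602111325437952)) (T.h (P (nat_lit 0)) (M (nat_lit 13458270138289618943)))) (T.h (P (nat_lit 0)) (M (nat_lit 1027163322165755903)))))) (T.h (T.h (P (nat_lit 0)) (T.h (T.h (P (nat_lit 0)) (M (nat_lit 82692488483321730301951))) (P (nat_lit 0)))) (T.h (T.h (T.h (P (nat_lit 28988882242481228408160256)) (T.h (P (nat_lit 0)) (M (nat_lit 21225430812169601023)))) (T.h (P (nat_lit 0)) (P (nat_lit 20635119713553219584)))) (T.h (P (nat_lit 0)) (M (nat_lit 680098105051316223)))))), (P (nat_lit 0)), (T.h (T.h (P (nat_lit 0)) (T.h (T.h (P (nat_lit 0)) (T.h (M (nat_lit 9930660340720679142817791)) (T.h (P (nat_lit 0)) (P (nat_lit 4498897606964936704))))) (T.h (P (nat_lit 0))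 (T.h (T.h (P (nat_lit 0)) (P (nat_lit 5817303471073787904))) (P (nat_lit 0)))))) (T.h (T.h (T.h (P (nat_lit 2874759264551899117903675392)) (T.h (P (nat_lit 0)) (T.h (P (nat_lit 1940289171074890858496)) (T.h (P (nat_lit 0)) (M (nat_lit 1082473110175743)))))) (T.h (P (nat_lit 0)) (T.h (T.h (P (nat_lit 7643476739830000386048)) (T.h (P (nat_lit 0)) (M (nat_lit 2788580132061183)))) (T.h (P (nat_lit 0)) (M (nat_lit 5476709220483071)))))) (T.h (T.h (P (nat_lit 0)) (T.h (T.h (P (nat_lit 0)) (M (nat_lit 717555307059871743))) (P (nat_lit 0)))) (T.h (T.h (T.h (M (nat_lit 738474885769798352895)) (T.h (P (nat_lit 0)) (P (nat_lit 622586800177152)))) (T.h (P (nat_lit 0)) (P (nat_lit 4065623452418048)))) (T.h (P (nat_lit 0)) (M (nat_lit 853826605940735))))))), (T.h (T.h (P (nat_lit 0)) (T.h (T.h (M (nat_lit 13653919495533865747815071743)) (T.h (P (nat_lit 0)) (T.h (M (nat_lit 16413191610572979830783)) (T.h (P (nat_lit 0)) (M (nat_lit 13325113241370623)))))) (T.h (P (nat_lit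 0)) (T.h (T.h (P (nat_lit 16367782335599203057664)) (T.h (P (nat_lit 0)) (M (nat_lit 11552690605359103)))) (T.h (P (nat_lit 0)) (M (nat_lit 7166274151972863))))))) (T.h (T.h (T.h (P (nat_lit 0)) (T.h (P (nat_lit 40273937558713864797814784)) (T.h (P (nat_lit 0)) (M (nat_lit 1258272188461481983))))) (T.h (P (nat_lit 0)) (T.h (T.h (P (nat_lit 0)) (P (nat_lit 13804964358679166976))) (P (nat_lit 0))))) (T.h (T.h (P (nat_lit 0)) (T.h (T.h (M (nat_lit 16413191610572979830783)) (T.h (P (nat_lit 0)) (P (nat_lit 39601038277935104)))) (T.h (P (nat_lit 0)) (M (nat_lit 11552690605359103))))) (T.h (T.h (T.h (P (nat_lit 0)) (M (nat_lit 1258272188461481983))) (P (nat_lit 0))) (T.h (T.h (P (nat_lit 0)) (M (nat_lit 13325113241370623))) (P (nat_lit 0))))))), (T.h (T.h (P (nat_lit 0)) (T.h (T.h (P (nat_lit 0)) (T.h (M (nat_lit 54803303390814345468313599)) (T.h (P (nat_lit 0)) (M (nat_lit 11733839889953718271))))) (T.h (P (nat_lit 0)) (T.h (T.h (P (nat_lit 0)) (M (nat_lit 11041718854697877503)))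 (P (nat_lit 0)))))) (T.h (T.h (T.h (M (nat_lit 11006444473952153644310724607)) (T.h (P (nat_lit 0)) (T.h (M (nat_lit 2713479045495478288383)) (T.h (P (nat_lit 0)) (P (nat_lit 13080826245939200)))))) (T.h (P (nat_lit 0)) (T.h (T.h (P (nat_lit 36160025877435975204864)) (T.h (P (nat_lit 0)) (P (nat_lit 60336823190224896)))) (T.h (P (nat_lit 0)) (P (nat_lit 27148498310004736)))))) (T.h (T.h (P (nat_lit 0)) (T.h (T.h (P (nat_lit 0)) (M (nat_lit 9232310398789615615))) (P (nat_lit 0)))) (T.h (T.h (T.h (P (nat_lit 16493368516340382433280)) (T.h (P (nat_lit 0)) (M (nat_lit 18815821307838463)))) (T.h (P (nat_lit 0)) (M (nat_lit 5084552673492991)))) (T.h (P (nat_lit 0)) (P (nat_lit 2632256490307584))))))), (T.h (T.h (P (nat_lit 0)) (T.h (T.h (P (nat_lit 3156091554544223469915078656)) (T.h (P (nat_lit 0)) (T.h (M (nat_lit 22308869870762275635199)) (T.h (P (nat_lit 0)) (P (nat_lit 11405719226744832)))))) (T.h (P (nat_lit 0)) (T.h (T.h (M (nat_lit 24679848752548419731455))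 (T.h (P (nat_lit 0)) (P (nat_lit 11853030064324608)))) (T.h (P (nat_lit 0)) (P (nat_lit 7973600012795904))))))) (T.h (T.h (T.h (P (nat_lit 0)) (T.h (M (nat_lit 24470972264039276164939775)) (T.h (P (nat_lit 0)) (M (nat_lit 18992015584587153407))))) (T.h (P (nat_lit 0)) (T.h (T.h (P (nat_lit 0)) (P (nat_lit 7373424597095415808))) (P (nat_lit 0))))) (T.h (T.h (P (nat_lit 0)) (T.h (T.h (M (nat_lit 5147017129263873654783)) (T.h (P (nat_lit 0)) (P (nat_lit 24260704018366464)))) (T.h (P (nat_lit 0)) (P (nat_lit 5443377942626304))))) (T.h (T.h (T.h (P (nat_lit 0)) (M (nat_lit 3424421795334193151))) (P (nat_lit 0))) (T.h (T.h (P (nat_lit 0)) (P (nat_lit 9944906357145600))) (P (nat_lit 0)))))))]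
def lP22_17 : List (T ℤ) := [(T.h (T.h (P (nat_lit 0)) (T.h (T.h (P (nat_lit 0)) (T.h (P (nat_lit 83834684631427891003916288)) (T.h (P (nat_lit 0)) (M (nat_lit 27752676367647375359))))) (T.h (P (nat_lit 0)) (T.h (T.h (P (nat_lit 0)) (M (nat_lit 30400729827017490431))) (P (nat_lit 0)))))) (T.h (T.h (T.h (P (nat_lit 3463890725648044259572449280)) (T.h (P (nat_lit 0)) (M (nat_lit 74242295785367124574207)))) (T.h (P (nat_lit 0)) (M (nat_lit 71073351666306629238783)))) (T.h (T.h (P (nat_lit 0)) (T.h (T.h (P (nat_lit 0)) (M (nat_lit 48643838893661093887))) (P (nat_lit 0)))) (M (nat_lit 30411850701089265418239))))), (T.h (T.h (T.h (P (nat_lit 96674775480032858528316129280)) (T.h (P (nat_lit 0)) (T.h (M (nat_lit 817570893295480970674175)) (T.h (P (nat_lit 0)) (M (nat_lit 692532370447794175)))))) (T.h (P (nat_lit 0)) (T.h (T.h (M (nat_lit 1539936402037090780446719)) (T.h (P (nat_lit 0)) (P (nat_lit 712178620038119424)))) (T.h (P (nat_lit 0)) (M (nat_lit 86536408218468351))))))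 (T.h (T.h (P (nat_lit 0)) (T.h (T.h (P (nat_lit 0)) (T.h (M (nat_lit 2618989352391739965439)) (T.h (P (nat_lit 0)) (M (nat_lit 129461949038591))))) (T.h (P (nat_lit 0)) (T.h (T.h (P (nat_lit 0)) (M (nat_lit 294768566599679))) (P (nat_lit 0)))))) (T.h (T.h (T.h (M (nat_lit 817570893295480970674175)) (T.h (P (nat_lit 0)) (P (nat_lit 3310063201005076480)))) (T.h (P (nat_lit 0)) (P (nat_lit 712178620038119424)))) (T.h (T.h (P (nat_lit 0)) (T.h (T.h (P (nat_lit 0)) (M (nat_lit 129461949038591))) (P (nat_lit 0)))) (M (nat_lit 692532370447794175)))))), (T.h (T.h (T.h (P (nat_lit 0)) (T.h (P (nat_lit 45916236550121450560957710336)) (T.h (P (nat_lit 0)) (T.h (P (nat_lit 3433965189034995089408)) (T.h (P (nat_lit 0)) (P (nat_lit 1212198057312256))))))) (T.h (P (nat_lit 0)) (T.h (T.h (P (nat_lit 0)) (T.h (M (nat_lit 10119872893221028757503)) (T.h (P (nat_lit 0)) (M (nat_lit 14802336251543551))))) (T.h (P (nat_lit 0)) (T.h (T.h (P (nat_lit 0)) (P (nat_lit 10364734460231680)))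 (P (nat_lit 0))))))) (T.h (T.h (P (nat_lit 0)) (T.h (T.h (P (nat_lit 5102654353536485708267520)) (T.h (P (nat_lit 0)) (P (nat_lit 3967610635230904320)))) (T.h (P (nat_lit 0)) (P (nat_lit 1897946477464911872))))) (T.h (T.h (T.h (P (nat_lit 0)) (T.h (P (nat_lit 8906486331046721748992)) (T.h (P (nat_lit 0)) (P (nat_lit 3152084747943936))))) (T.h (P (nat_lit 0)) (T.h (T.h (P (nat_lit 0)) (M (nat_lit 1345932322734079))) (P (nat_lit 0))))) (T.h (T.h (P (nat_lit 0)) (P (nat_lit 9404284322610937856))) (T.h (T.h (T.h (P (nat_lit 0)) (M (nat_lit 2253510903529471))) (P (nat_lit 0))) (P (nat_lit 0))))))), (T.h (T.h (T.h (M (nat_lit 676723428360230009698212904959)) (T.h (P (nat_lit 0)) (T.h (P (nat_lit 4633383109431362544730112)) (T.h (P (nat_lit 0)) (P (nat_lit 3907763596238520320)))))) (T.h (P (nat_lit 0)) (T.h (T.h (M (nat_lit 5207353017608279399858175)) (T.h (P (nat_lit 0)) (P (nat_lit 14773822300767649792)))) (T.h (P (nat_lit 0)) (P (nat_lit 636459613759209472))))))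 (T.h (T.h (P (nat_lit 0)) (T.h (T.h (P (nat_lit 0)) (T.h (P (nat_lit 89263618010904308744192)) (T.h (P (nat_lit 0)) (P (nat_lit 17643863469195264))))) (T.h (P (nat_lit 0)) (T.h (T.h (P (nat_lit 0)) (P (nat_lit 42315549859774464))) (P (nat_lit 0)))))) (T.h (T.h (T.h (P (nat_lit 4633383109431362544730112)) (T.h (P (nat_lit 0)) (M (nat_lit 16679807989233745919)))) (T.h (P (nat_lit 0)) (P (nat_lit 14773822300767649792)))) (T.h (T.h (P (nat_lit 0)) (T.h (T.h (P (nat_lit 0)) (P (nat_lit 17643863469195264))) (P (nat_lit 0)))) (P (nat_lit 3907763596238520320)))))), (T.h (T.h (T.h (P (nat_lit 0)) (T.h (M (nat_lit 70690757678798787449391677439)) (T.h (P (nat_lit 0)) (T.h (M (nat_lit 7787362356475046395903)) (T.h (P (nat_lit 0)) (M (nat_lit 1904788133904383))))))) (T.h (P (nat_lit 0)) (T.h (T.h (P (nat_lit 0)) (T.h (M (nat_lit 22596061560819215761407)) (T.h (P (nat_lit 0)) (P (nat_lit 24297318949847040))))) (T.h (P (nat_lit 0)) (T.h (T.h (P (nat_lit 0)) (M (nat_lit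 1177318572294143))) (P (nat_lit 0))))))) (T.h (T.h (P (nat_lit 0)) (T.h (T.h (P (nat_lit 10837325089760501435465728)) (T.h (P (nat_lit 0)) (M (nat_lit 57234515501793673215)))) (T.h (P (nat_lit 0)) (P (nat_lit 18767264093181050880))))) (T.h (T.h (T.h (P (nat_lit 0)) (T.h (P (nat_lit 5240951608303125790720)) (T.h (P (nat_lit 0)) (M (nat_lit 4922304214794239))))) (T.h (P (nat_lit 0)) (T.h (T.h (P (nat_lit 0)) (P (nat_lit 4222073898663936))) (P (nat_lit 0))))) (T.h (T.h (P (nat_lit 0)) (P (nat_lit 23476878950912753664))) (T.h (T.h (T.h (P (nat_lit 0)) (P (nat_lit 1508883410780160))) (P (nat_lit 0))) (P (nat_lit 0))))))), (T.h (T.h (T.h (P (nat_lit 52495719643654334375004074934272)) (T.h (P (nat_lit 0)) (T.h (P (nat_lit 29753025960619693672759296)) (T.h (P (nat_lit 0)) (M (nat_lit 1575502704493461503)))))) (T.h (P (nat_lit 0)) (T.h (T.h (P (nat_lit 48752009253523067412414464)) (T.h (P (nat_lit 0)) (M (nat_lit 21307435674482245631)))) (T.h (P (nat_lit 0)) (M (nat_lit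 12724093836410748927)))))) (T.h (T.h (P (nat_lit 0)) (T.h (T.h (P (nat_lit 0)) (M (nat_lit 90367155626949247762431))) (P (nat_lit 0)))) (T.h (T.h (T.h (P (nat_lit 26125803118290657343438848)) (T.h (P (nat_lit 0)) (P (nat_lit 2283580300644581376)))) (T.h (P (nat_lit 0)) (M (nat_lit 24848436162335866879)))) (T.h (P (nat_lit 0)) (M (nat_lit 301860689679482879)))))), (T.h (T.h (P (nat_lit 0)) (T.h (T.h (P (nat_lit 1261515900548784767341953024)) (T.h (P (nat_lit 0)) (T.h (P (nat_lit 392193281945094848512)) (T.h (P (nat_lit 0)) (P (nat_lit 432490456875008)))))) (T.h (P (nat_lit 0)) (T.h (T.h (P (nat_lit 0)) (T.h (P (nat_lit 0)) (M (nat_lit 1046618715029503)))) (P (nat_lit 0)))))) (T.h (T.h (T.h (P (nat_lit 0)) (T.h (P (nat_lit 1072738038739656689844224)) (T.h (P (nat_lit 0)) (M (nat_lit 107204109748142079))))) (P (nat_lit 0))) (T.h (T.h (P (nat_lit 0)) (T.h (T.h (M (nat_lit 392193281945094848511)) (T.h (P (nat_lit 0)) (M (nat_lit 10794187433312255)))) (T.h (P (nat_lit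 0)) (P (nat_lit 1046618715029504))))) (T.h (T.h (T.h (P (nat_lit 0)) (P (nat_lit 107204109748142080))) (P (nat_lit 0))) (T.h (T.h (P (nat_lit 0)) (M (nat_lit 432490456875007))) (P (nat_lit 0))))))), (T.h (T.h (P (nat_lit 0)) (T.h (T.h (P (nat_lit 0)) (T.h (P (nat_lit 13061859408740106582884352)) (T.h (P (nat_lit 0)) (P (nat_lit 1793701663668699136))))) (T.h (P (nat_lit 0)) (T.h (T.h (P (nat_lit 0)) (M (nat_lit 14183074911253168127))) (P (nat_lit 0)))))) (T.h (T.h (T.h (M (nat_lit 3383368649401081921863155711)) (T.h (P (nat_lit 0)) (T.h (P (nat_lit 4897606766501107335168)) (T.h (P (nat_lit 0)) (M (nat_lit 109270719660031)))))) (T.h (P (nat_lit 0)) (T.h (T.h (M (nat_lit 3020588307875476013055)) (T.h (P (nat_lit 0)) (M (nat_lit 8840244534575103)))) (T.h (P (nat_lit 0)) (P (nat_lit 9250554945142784)))))) (T.h (T.h (P (nat_lit 0)) (T.h (T.h (P (nat_lit 0)) (P (nat_lit 8043047937598554112))) (P (nat_lit 0)))) (T.h (T.h (T.h (P (nat_lit 1449144204392583397376))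 (T.h (P (nat_lit 0)) (M (nat_lit 237439028822015)))) (T.h (P (nat_lit 0)) (M (nat_lit 4362756073783295)))) (T.h (P (nat_lit 0)) (P (nat_lit 969414783074304)))))))]
def lP22_18 : List (T ℤ) := [(T.h (T.h (P (nat_lit 0)) (T.h (T.h (M (nat_lit 7471889399952580583752728575)) (T.h (P (nat_lit 0)) (T.h (P (nat_lit 1334947817324535611392)) (T.h (P (nat_lit 0)) (M (nat_lit 719992422137855)))))) (T.h (P (nat_lit 0)) (T.h (T.h (M (nat_lit 12796608446769982865407)) (T.h (P (nat_lit 0)) (P (nat_lit 18813161504833536)))) (T.h (P (nat_lit 0)) (P (nat_lit 9290102656204800))))))) (T.h (T.h (T.h (P (nat_lit 0)) (T.h (M (nat_lit 26283311251675875951771647)) (T.h (P (nat_lit 0)) (M (nat_lit 4318398705368563711))))) (T.h (P (nat_lit 0)) (T.h (T.h (P (nat_lit 0)) (P (nat_lit 1397998058070867968))) (P (nat_lit 0))))) (T.h (T.h (P (nat_lit 0)) (T.h (P (nat_lit 1334947817324535611392)) (T.h (P (nat_lit 0)) (P (nat_lit 18813161504833536))))) (T.h (T.h (T.h (P (nat_lit 0)) (M (nat_lit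 4318398705368563711))) (P (nat_lit 0))) (T.h (T.h (P (nat_lit 0)) (M (nat_lit 719992422137855))) (P (nat_lit 0))))))), (T.h (T.h (P (nat_lit 0)) (T.h (T.h (P (nat_lit 0)) (T.h (P (nat_lit 30515205083625810267471872)) (T.h (P (nat_lit 0)) (M (nat_lit 17552851634139168767))))) (T.h (P (nat_lit 0)) (T.h (T.h (P (nat_lit 0)) (M (nat_lit 13024428012773310463))) (P (nat_lit 0)))))) (T.h (T.h (T.h (M (nat_lit 4128095417609799227320303615)) (T.h (P (nat_lit 0)) (P (nat_lit 772023265095726399488)))) (T.h (P (nat_lit 0)) (M (nat_lit 89093646853074963136511)))) (T.h (T.h (P (nat_lit 0)) (T.h (T.h (P (nat_lit 0)) (M (nat_lit 8729003769028673535))) (P (nat_lit 0)))) (M (nat_lit 11607120330576317382655))))), (T.h (T.h (T.h (P (nat_lit 5102271648357133609590386065408)) (T.h (P (nat_lit 0)) (T.h (P (nat_lit 527913047198678619521024)) (T.h (P (nat_lit 0)) (P (nat_lit 553912465654546432)))))) (T.h (P (nat_lit 0)) (T.h (T.h (P (nat_lit 641291079997538122596352)) (T.h (P (nat_lit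 0)) (P (nat_lit 992840272415031296)))) (T.h (P (nat_lit 0)) (P (nat_lit 1509074362290929664)))))) (T.h (T.h (P (nat_lit 0)) (T.h (T.h (P (nat_lit 0)) (P (nat_lit 5233297634083781738496))) (P (nat_lit 0)))) (T.h (T.h (T.h (P (nat_lit 527913047198678619521024)) (T.h (P (nat_lit 0)) (M (nat_lit 2382062302410047487)))) (T.h (P (nat_lit 0)) (P (nat_lit 992840272415031296)))) (T.h (P (nat_lit 0)) (P (nat_lit 553912465654546432)))))), (T.h (T.h (T.h (P (nat_lit 0)) (T.h (M (nat_lit 47638697680888985569739145215)) (T.h (P (nat_lit 0)) (T.h (M (nat_lit 873530666480291545087)) (T.h (P (nat_lit 0)) (M (nat_lit 252540465315839))))))) (T.h (P (nat_lit 0)) (T.h (T.h (P (nat_lit 0)) (T.h (P (nat_lit 4218958299614159044608)) (T.h (P (nat_lit 0)) (P (nat_lit 1692325956550656))))) (T.h (P (nat_lit 0)) (T.h (T.h (P (nat_lit 0)) (M (nat_lit 5663748413521919))) (P (nat_lit 0))))))) (T.h (T.h (P (nat_lit 0)) (T.h (T.h (P (nat_lit 4891702662024706926837760)) (T.h (P (nat_lit 0))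 (P (nat_lit 6320300481474199552)))) (T.h (P (nat_lit 0)) (M (nat_lit 3870950617715310591))))) (T.h (T.h (T.h (P (nat_lit 0)) (T.h (P (nat_lit 1736765090462693326848)) (T.h (P (nat_lit 0)) (M (nat_lit 699409081171967))))) (T.h (P (nat_lit 0)) (T.h (T.h (P (nat_lit 0)) (M (nat_lit 2168266134061055))) (P (nat_lit 0))))) (T.h (T.h (P (nat_lit 0)) (P (nat_lit 2552835554030911488))) (T.h (T.h (T.h (P (nat_lit 0)) (P (nat_lit 315447786405888))) (P (nat_lit 0))) (P (nat_lit 0))))))), (T.h (T.h (T.h (P (nat_lit 29713145437356803359968694632448)) (T.h (P (nat_lit 0)) (T.h (P (nat_lit 284254267386096458399744)) (T.h (P (nat_lit 0)) (P (nat_lit 569086963135545344)))))) (T.h (P (nat_lit 0)) (T.h (T.h (P (nat_lit 18287189008131796936687616)) (T.h (P (nat_lit 0)) (M (nat_lit 20257517653364572159)))) (T.h (P (nat_lit 0)) (M (nat_lit 11988656282958561279)))))) (T.h (T.h (P (nat_lit 0)) (T.h (T.h (P (nat_lit 0)) (M (nat_lit 20813371980176888430591))) (P (nat_lit 0)))) (T.h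 (T.h (T.h (P (nat_lit 284254267386096458399744)) (T.h (P (nat_lit 0)) (P (nat_lit 1432389798240190464)))) (T.h (P (nat_lit 0)) (M (nat_lit 20257517653364572159)))) (T.h (P (nat_lit 0)) (P (nat_lit 569086963135545344)))))), (T.h (T.h (P (nat_lit 0)) (M (nat_lit 1261515900548784767341953023))) (T.h (T.h (T.h (P (nat_lit 0)) (M (nat_lit 1072738038739656689844223))) (P (nat_lit 0))) (T.h (T.h (P (nat_lit 0)) (T.h (T.h (P (nat_lit 0)) (T.h (P (nat_lit 0)) (P (nat_lit 10794187433312256)))) (P (nat_lit 0)))) (P (nat_lit 0))))), (T.h (T.h (P (nat_lit 0)) (T.h (T.h (P (nat_lit 0)) (T.h (P (nat_lit 1514619882854388970029056)) (T.h (P (nat_lit 0)) (M (nat_lit 1155294519671914495))))) (T.h (P (nat_lit 0)) (T.h (T.h (P (nat_lit 0)) (P (nat_lit 7732904500595261440))) (P (nat_lit 0)))))) (T.h (T.h (T.h (M (nat_lit 471536197744369659130413055)) (T.h (P (nat_lit 0)) (M (nat_lit 391678135183836446719)))) (T.h (P (nat_lit 0)) (M (nat_lit 7121757884211567525887)))) (T.h (T.h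 (P (nat_lit 0)) (T.h (T.h (P (nat_lit 0)) (M (nat_lit 5888628940288819199))) (P (nat_lit 0)))) (P (nat_lit 0))))), (T.h (P (nat_lit 0)) (T.h (P (nat_lit 0)) (T.h (T.h (T.h (P (nat_lit 0)) (T.h (P (nat_lit 0)) (M (nat_lit 3684415977237250047)))) (P (nat_lit 0))) (P (nat_lit 0)))))]
def lP22_19 : List (T ℤ) := [(P (nat_lit 0)), (P (nat_lit 0)), (T.h (T.h (P (nat_lit 0)) (T.h (T.h (P (nat_lit 5749518529103798235807350784)) (T.h (P (nat_lit 0)) (T.h (P (nat_lit 9583765910904891244544)) (T.h (P (nat_lit 0)) (M (nat_lit 6559182330658815)))))) (T.h (P (nat_lit 0)) (T.h (T.h (M (nat_lit 1476949771539596705791)) (T.h (P (nat_lit 0)) (P (nat_lit 4688210252595200)))) (T.h (P (nat_lit 0)) (M (nat_lit 1707653211881471))))))) (T.h (T.h (T.h (P (nat_lit 0)) (T.h (M (nat_lit 19861320681441358285635583)) (T.h (P (nat_lit 0)) (P (nat_lit 10316201078038724608))))) (T.h (P (nat_lit 0)) (T.h (T.h (P (nat_lit 0)) (M (nat_lit 1435110614119743487))) (P (nat_lit 0))))) (T.h (T.h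 (P (nat_lit 0)) (T.h (T.h (P (nat_lit 9583765910904891244544)) (T.h (P (nat_lit 0)) (M (nat_lit 5577160264122367)))) (T.h (P (nat_lit 0)) (P (nat_lit 4688210252595200))))) (T.h (T.h (T.h (P (nat_lit 0)) (P (nat_lit 10316201078038724608))) (P (nat_lit 0))) (T.h (T.h (P (nat_lit 0)) (M (nat_lit 6559182330658815))) (P (nat_lit 0))))))), (T.h (T.h (P (nat_lit 0)) (T.h (T.h (P (nat_lit 0)) (T.h (M (nat_lit 11960314775027518248321023)) (T.h (P (nat_lit 0)) (P (nat_lit 8138718056420474880))))) (T.h (P (nat_lit 0)) (T.h (T.h (P (nat_lit 0)) (M (nat_lit 11846047760014901247))) (P (nat_lit 0)))))) (T.h (T.h (T.h (P (nat_lit 47245103773009497930669752320)) (T.h (P (nat_lit 0)) (T.h (P (nat_lit 25850322947642501365760)) (T.h (P (nat_lit 0)) (M (nat_lit 7524661744500735)))))) (T.h (P (nat_lit 0)) (T.h (T.h (M (nat_lit 8283475691297587593215)) (T.h (P (nat_lit 0)) (M (nat_lit 80551641858670591)))) (T.h (P (nat_lit 0)) (P (nat_lit 1162077987897344)))))) (T.h (T.h (P (nat_lit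 0)) (T.h (T.h (P (nat_lit 0)) (M (nat_lit 11902385387470847999))) (P (nat_lit 0)))) (T.h (T.h (T.h (P (nat_lit 2562343879471917957120)) (T.h (P (nat_lit 0)) (M (nat_lit 18037048165433343)))) (T.h (P (nat_lit 0)) (P (nat_lit 2834899061800960)))) (T.h (P (nat_lit 0)) (M (nat_lit 854125150273535))))))), (T.h (T.h (P (nat_lit 0)) (T.h (T.h (M (nat_lit 4278881695435843458421489663)) (T.h (P (nat_lit 0)) (T.h (M (nat_lit 5299204231871709839359)) (T.h (P (nat_lit 0)) (P (nat_lit 12377507164782592)))))) (T.h (P (nat_lit 0)) (T.h (T.h (P (nat_lit 9681411601777945477120)) (T.h (P (nat_lit 0)) (M (nat_lit 7316746762321919)))) (T.h (P (nat_lit 0)) (P (nat_lit 3068541892362240))))))) (T.h (T.h (T.h (P (nat_lit 0)) (T.h (P (nat_lit 26741342997298959389556736)) (T.h (P (nat_lit 0)) (M (nat_lit 17120686089170845695))))) (T.h (P (nat_lit 0)) (T.h (T.h (P (nat_lit 0)) (P (nat_lit 40614396783243558912))) (P (nat_lit 0))))) (T.h (T.h (P (nat_lit 0)) (T.h (T.h (P (nat_lit 2618990842504873508864))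 (T.h (P (nat_lit 0)) (P (nat_lit 3553447322320896)))) (T.h (P (nat_lit 0)) (M (nat_lit 3191429717360639))))) (T.h (T.h (T.h (P (nat_lit 0)) (M (nat_lit 1143909514248978431))) (P (nat_lit 0))) (T.h (T.h (P (nat_lit 0)) (P (nat_lit 3017681499979776))) (P (nat_lit 0))))))), (T.h (T.h (P (nat_lit 0)) (T.h (T.h (P (nat_lit 0)) (T.h (P (nat_lit 8594163731851504399679488)) (T.h (P (nat_lit 0)) (M (nat_lit 10910365184769916927))))) (T.h (P (nat_lit 0)) (T.h (T.h (P (nat_lit 0)) (P (nat_lit 11081014776229265408))) (P (nat_lit 0)))))) (T.h (T.h (T.h (M (nat_lit 96839770371705049578404315135)) (T.h (P (nat_lit 0)) (T.h (M (nat_lit 4175877197631244468223)) (T.h (P (nat_lit 0)) (M (nat_lit 5428004155490303)))))) (T.h (P (nat_lit 0)) (T.h (T.h (P (nat_lit 10503782334715691794432)) (T.h (P (nat_lit 0)) (P (nat_lit 48080726854533120)))) (T.h (P (nat_lit 0)) (M (nat_lit 909620825161727)))))) (T.h (T.h (P (nat_lit 0)) (T.h (T.h (P (nat_lit 0)) (P (nat_lit 9299264060925149184)))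 (P (nat_lit 0)))) (T.h (T.h (T.h (M (nat_lit 1827911911701347303423)) (T.h (P (nat_lit 0)) (P (nat_lit 8574329875464192)))) (T.h (P (nat_lit 0)) (M (nat_lit 227057283956735)))) (T.h (P (nat_lit 0)) (M (nat_lit 43442143494143))))))), (T.h (T.h (P (nat_lit 0)) (T.h (T.h (M (nat_lit 5319449090180741567671697407)) (T.h (P (nat_lit 0)) (M (nat_lit 14811040286701053280255)))) (T.h (P (nat_lit 0)) (M (nat_lit 3937142110085665783807))))) (T.h (T.h (T.h (P (nat_lit 0)) (T.h (P (nat_lit 8289399776776587109728256)) (T.h (P (nat_lit 0)) (P (nat_lit 4402877200139812864))))) (T.h (P (nat_lit 0)) (T.h (T.h (P (nat_lit 0)) (M (nat_lit 40191941487169110015))) (P (nat_lit 0))))) (T.h (T.h (P (nat_lit 0)) (M (nat_lit 4912016418612826865663))) (T.h (T.h (T.h (P (nat_lit 0)) (M (nat_lit 7133375279497478143))) (P (nat_lit 0))) (P (nat_lit 0)))))), (P (nat_lit 0))]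
def lP22_20 : List (T ℤ) := [(P (nat_lit 0)), (T.h (T.h (T.h (P (nat_lit 0)) (T.h (P (nat_lit 2874759264551899117903675392)) (T.h (P (nat_lit 0)) (T.h (M (nat_lit 738474885769798352895)) (T.h (P (nat_lit 0)) (M (nat_lit 1809309545398271))))))) (T.h (P (nat_lit 0)) (T.h (T.h (P (nat_lit 0)) (T.h (M (nat_lit 2082999205280681558015)) (T.h (P (nat_lit 0)) (P (nat_lit 18368655028584448))))) (T.h (P (nat_lit 0)) (T.h (T.h (P (nat_lit 0)) (M (nat_lit 6205664965296127))) (P (nat_lit 0))))))) (T.h (T.h (P (nat_lit 0)) (T.h (T.h (P (nat_lit 54572585774336806651691008)) (T.h (P (nat_lit 0)) (P (nat_lit 12221078150284574720)))) (T.h (P (nat_lit 0)) (P (nat_lit 5293943861272379392))))) (T.h (T.h (T.h (P (nat_lit 0)) (T.h (P (nat_lit 3620188363474427969536)) (T.h (P (nat_lit 0)) (P (nat_lit 21811691680825344))))) (T.h (P (nat_lit 0)) (T.h (T.h (P (nat_lit 0)) (M (nat_lit 11033995076370431))) (P (nat_lit 0))))) (T.h (T.h (P (nat_lit 0)) (P (nat_lit 6612349725381230592)))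 (T.h (T.h (T.h (P (nat_lit 0)) (M (nat_lit 10599901075603455))) (P (nat_lit 0))) (P (nat_lit 0))))))), (T.h (T.h (T.h (P (nat_lit 22076194391982743359309479936)) (T.h (P (nat_lit 0)) (T.h (M (nat_lit 12141958159308877243351039)) (T.h (P (nat_lit 0)) (P (nat_lit 12869121700339384320)))))) (T.h (P (nat_lit 0)) (T.h (T.h (M (nat_lit 16274458072152101300994047)) (T.h (P (nat_lit 0)) (M (nat_lit 4858150995365986303)))) (T.h (P (nat_lit 0)) (M (nat_lit 1958858447357214719)))))) (T.h (T.h (P (nat_lit 0)) (T.h (T.h (P (nat_lit 0)) (T.h (P (nat_lit 134906283782435279732736)) (T.h (P (nat_lit 0)) (M (nat_lit 41458318763622399))))) (T.h (P (nat_lit 0)) (T.h (T.h (P (nat_lit 0)) (M (nat_lit 62640553235578879))) (P (nat_lit 0)))))) (T.h (T.h (T.h (M (nat_lit 12141958159308877243351039)) (T.h (P (nat_lit 0)) (M (nat_lit 86125105286819610623)))) (T.h (P (nat_lit 0)) (M (nat_lit 4858150995365986303)))) (T.h (T.h (P (nat_lit 0)) (T.h (T.h (P (nat_lit 0)) (M (nat_lit 41458318763622399)))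 (P (nat_lit 0)))) (P (nat_lit 12869121700339384320)))))), (T.h (T.h (T.h (P (nat_lit 0)) (T.h (M (nat_lit 12043737350263039423634472959)) (T.h (P (nat_lit 0)) (T.h (P (nat_lit 25930276767998186356736)) (T.h (P (nat_lit 0)) (P (nat_lit 6091426764423168))))))) (T.h (P (nat_lit 0)) (T.h (T.h (P (nat_lit 0)) (T.h (P (nat_lit 17244625014501477974016)) (T.h (P (nat_lit 0)) (M (nat_lit 21856086166405119))))) (T.h (P (nat_lit 0)) (T.h (T.h (P (nat_lit 0)) (P (nat_lit 14344144485744640))) (P (nat_lit 0))))))) (T.h (T.h (P (nat_lit 0)) (T.h (T.h (M (nat_lit 128522053384882421369929727)) (T.h (P (nat_lit 0)) (M (nat_lit 26223334227089293311)))) (T.h (P (nat_lit 0)) (M (nat_lit 8487002452682342399))))) (T.h (T.h (T.h (P (nat_lit 0)) (T.h (P (nat_lit 56118129937432931467264)) (T.h (P (nat_lit 0)) (M (nat_lit 8124817532059647))))) (T.h (P (nat_lit 0)) (T.h (T.h (P (nat_lit 0)) (P (nat_lit 50626758733135872))) (P (nat_lit 0))))) (T.h (T.h (P (nat_lit 0)) (M (nat_lit 7794881417426501631)))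 (T.h (T.h (T.h (P (nat_lit 0)) (P (nat_lit 28411816549810176))) (P (nat_lit 0))) (P (nat_lit 0))))))), (T.h (T.h (T.h (P (nat_lit 3244236457280320607051665375232)) (T.h (P (nat_lit 0)) (T.h (P (nat_lit 13981437182624500409171968)) (T.h (P (nat_lit 0)) (M (nat_lit 9130277567104811007)))))) (T.h (P (nat_lit 0)) (T.h (T.h (P (nat_lit 19516733952906192045998080)) (T.h (P (nat_lit 0)) (P (nat_lit 41459238799126036480)))) (T.h (P (nat_lit 0)) (M (nat_lit 328644521208315903)))))) (T.h (T.h (P (nat_lit 0)) (T.h (T.h (P (nat_lit 0)) (T.h (M (nat_lit 38735600842230921691135)) (T.h (P (nat_lit 0)) (P (nat_lit 22169232746545152))))) (T.h (P (nat_lit 0)) (T.h (T.h (P (nat_lit 0)) (P (nat_lit 54365174031581184))) (P (nat_lit 0)))))) (T.h (T.h (T.h (P (nat_lit 6534674494748007946256384)) (T.h (P (nat_lit 0)) (P (nat_lit 143668433415907049472)))) (T.h (P (nat_lit 0)) (P (nat_lit 2559707932677636096)))) (T.h (T.h (P (nat_lit 0)) (T.h (T.h (P (nat_lit 0)) (P (nat_lit 22638479334113280)))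 (P (nat_lit 0)))) (M (nat_lit 10736703854465777663)))))), (T.h (T.h (T.h (P (nat_lit 0)) (T.h (P (nat_lit 2372337535630964966826180608)) (T.h (P (nat_lit 0)) (M (nat_lit 42962532670977096024063))))) (T.h (P (nat_lit 0)) (T.h (T.h (P (nat_lit 0)) (M (nat_lit 24061822426881779040255))) (P (nat_lit 0))))) (T.h (T.h (P (nat_lit 0)) (T.h (T.h (P (nat_lit 19727262634815770798850048)) (T.h (P (nat_lit 0)) (M (nat_lit 22623157418912120831)))) (T.h (P (nat_lit 0)) (M (nat_lit 13154495332547035135))))) (T.h (T.h (T.h (P (nat_lit 0)) (M (nat_lit 115260592914011747516415))) (P (nat_lit 0))) (T.h (T.h (P (nat_lit 0)) (M (nat_lit 11735710379081203711))) (P (nat_lit 0)))))), (P (nat_lit 0)), (T.h (T.h (P (nat_lit 0)) (T.h (T.h (P (nat_lit 0)) (T.h (P (nat_lit 0)) (T.h (M (nat_lit 4023288376355572416511)) (T.h (P (nat_lit 0)) (M (nat_lit 5123191855120383)))))) (T.h (P (nat_lit 0)) (T.h (T.h (P (nat_lit 0)) (T.h (P (nat_lit 0)) (P (nat_lit 17746068228407296)))) (T.h (P (nat_lit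 0)) (M (nat_lit 955482939457535))))))) (T.h (T.h (T.h (P (nat_lit 0)) (T.h (P (nat_lit 64503246115057485794508800)) (T.h (P (nat_lit 0)) (P (nat_lit 795046254307442688))))) (T.h (P (nat_lit 0)) (T.h (T.h (P (nat_lit 0)) (P (nat_lit 12938633457344446464))) (P (nat_lit 0))))) (T.h (T.h (P (nat_lit 0)) (T.h (T.h (M (nat_lit 4023288376355572416511)) (T.h (P (nat_lit 0)) (M (nat_lit 8245414944309247)))) (T.h (P (nat_lit 0)) (P (nat_lit 17746068228407296))))) (T.h (T.h (T.h (P (nat_lit 0)) (P (nat_lit 795046254307442688))) (P (nat_lit 0))) (T.h (T.h (P (nat_lit 0)) (M (nat_lit 5123191855120383))) (P (nat_lit 0)))))))]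
def lP22_21 : List (T ℤ) := [(T.h (T.h (P (nat_lit 0)) (T.h (T.h (P (nat_lit 0)) (T.h (P (nat_lit 8036464554509141238874112)) (T.h (P (nat_lit 0)) (P (nat_lit 11004310803087097856))))) (T.h (P (nat_lit 0)) (T.h (T.h (P (nat_lit 0)) (P (nat_lit 14159163420439478272))) (P (nat_lit 0)))))) (T.h (T.h (T.h (M (nat_lit 45530204497593354604672712703)) (T.h (P (nat_lit 0)) (T.h (P (nat_lit 10184816992823652909056)) (T.h (P (nat_lit 0)) (P (nat_lit 2226477955907584)))))) (T.h (P (nat_lit 0)) (T.h (T.h (P (nat_lit 34056443364783071166464)) (T.h (P (nat_lit 0)) (P (nat_lit 6187769831260160)))) (T.h (P (nat_lit 0)) (M (nat_lit 11241314651963391)))))) (T.h (T.h (P (nat_lit 0)) (T.h (T.h (P (nat_lit 0)) (M (nat_lit 11296943196984049663))) (P (nat_lit 0)))) (T.h (T.h (T.h (P (nat_lit 15541576339527762444288)) (T.h (P (nat_lit 0)) (P (nat_lit 10182493639999488)))) (T.h (P (nat_lit 0)) (M (nat_lit 8571855325462527)))) (T.h (P (nat_lit 0)) (M (nat_lit 4181364614987775))))))),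 (T.h (T.h (P (nat_lit 0)) (T.h (T.h (M (nat_lit 20221862855834784215504781311)) (T.h (P (nat_lit 0)) (T.h (P (nat_lit 38003778679932964569088)) (T.h (P (nat_lit 0)) (P (nat_lit 33975420116664320)))))) (T.h (P (nat_lit 0)) (T.h (T.h (P (nat_lit 16522202237910040707072)) (T.h (P (nat_lit 0)) (M (nat_lit 17992392604254207)))) (T.h (P (nat_lit 0)) (P (nat_lit 1066258762039296))))))) (T.h (T.h (T.h (P (nat_lit 0)) (T.h (M (nat_lit 136965573958746396549971967)) (T.h (P (nat_lit 0)) (M (nat_lit 16900336388816240639))))) (T.h (P (nat_lit 0)) (T.h (T.h (P (nat_lit 0)) (M (nat_lit 83607318488869240831))) (P (nat_lit 0))))) (T.h (T.h (P (nat_lit 0)) (T.h (T.h (P (nat_lit 38003778679932964569088)) (T.h (P (nat_lit 0)) (P (nat_lit 95886262666657792)))) (T.h (P (nat_lit 0)) (M (nat_lit 17992392604254207))))) (T.h (T.h (T.h (P (nat_lit 0)) (M (nat_lit 16900336388816240639))) (P (nat_lit 0))) (T.h (T.h (P (nat_lit 0)) (P (nat_lit 33975420116664320))) (P (nat_lit 0))))))),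 (T.h (T.h (P (nat_lit 0)) (T.h (T.h (P (nat_lit 0)) (T.h (M (nat_lit 21038569313932369675157503)) (T.h (P (nat_lit 0)) (P (nat_lit 13854077642703110144))))) (T.h (P (nat_lit 0)) (T.h (T.h (P (nat_lit 0)) (P (nat_lit 2996098711181852672))) (P (nat_lit 0)))))) (T.h (T.h (T.h (P (nat_lit 30867479257377564037853741056)) (T.h (P (nat_lit 0)) (T.h (M (nat_lit 28115260437090684370943)) (T.h (P (nat_lit 0)) (P (nat_lit 9756912138387456)))))) (T.h (P (nat_lit 0)) (T.h (T.h (M (nat_lit 17440100009466744799231)) (T.h (P (nat_lit 0)) (M (nat_lit 72015208060157951)))) (T.h (P (nat_lit 0)) (P (nat_lit 13903926991060992)))))) (T.h (T.h (P (nat_lit 0)) (T.h (T.h (P (nat_lit 0)) (M (nat_lit 55819018063600156671))) (P (nat_lit 0)))) (T.h (T.h (T.h (M (nat_lit 30558448618581354610687)) (T.h (P (nat_lit 0)) (P (nat_lit 22386341176344576)))) (T.h (P (nat_lit 0)) (M (nat_lit 423629866598399)))) (T.h (P (nat_lit 0)) (P (nat_lit 5650615235248128))))))), (T.h (T.h (P (nat_lit 0))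 (T.h (T.h (P (nat_lit 9031621092910988849334714368)) (T.h (P (nat_lit 0)) (M (nat_lit 147957377833463116201983)))) (T.h (P (nat_lit 0)) (M (nat_lit 34144686811494251233279))))) (T.h (T.h (T.h (P (nat_lit 0)) (T.h (P (nat_lit 100800329927209304991989760)) (T.h (P (nat_lit 0)) (M (nat_lit 34117049779509788671))))) (T.h (P (nat_lit 0)) (T.h (T.h (P (nat_lit 0)) (P (nat_lit 11233782431070814208))) (P (nat_lit 0))))) (T.h (T.h (P (nat_lit 0)) (M (nat_lit 61260651834352922001407))) (T.h (T.h (T.h (P (nat_lit 0)) (M (nat_lit 35997419941505531903))) (P (nat_lit 0))) (P (nat_lit 0)))))), (T.h (T.h (T.h (P (nat_lit 0)) (T.h (P (nat_lit 2874759264551899117903675392)) (T.h (P (nat_lit 0)) (T.h (M (nat_lit 738474885769798352895)) (T.h (P (nat_lit 0)) (M (nat_lit 853826605940735))))))) (T.h (P (nat_lit 0)) (T.h (T.h (P (nat_lit 0)) (T.h (P (nat_lit 7643476739830000386048)) (T.h (P (nat_lit 0)) (P (nat_lit 4065623452418048))))) (T.h (P (nat_lit 0)) (T.h (T.h (P (nat_lit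 0)) (M (nat_lit 5476709220483071))) (P (nat_lit 0))))))) (T.h (T.h (P (nat_lit 0)) (T.h (T.h (M (nat_lit 9930660340720679142817791)) (T.h (P (nat_lit 0)) (M (nat_lit 717555307059871743)))) (T.h (P (nat_lit 0)) (P (nat_lit 5817303471073787904))))) (T.h (T.h (T.h (P (nat_lit 0)) (T.h (P (nat_lit 1940289171074890858496)) (T.h (P (nat_lit 0)) (P (nat_lit 622586800177152))))) (T.h (P (nat_lit 0)) (T.h (T.h (P (nat_lit 0)) (M (nat_lit 2788580132061183))) (P (nat_lit 0))))) (T.h (T.h (P (nat_lit 0)) (P (nat_lit 4498897606964936704))) (T.h (T.h (T.h (P (nat_lit 0)) (M (nat_lit 1082473110175743))) (P (nat_lit 0))) (P (nat_lit 0))))))), (T.h (T.h (T.h (M (nat_lit 1114101153985789054301100834815)) (T.h (P (nat_lit 0)) (T.h (M (nat_lit 8624081864752066983886847)) (T.h (P (nat_lit 0)) (M (nat_lit 705863052360155135)))))) (T.h (P (nat_lit 0)) (T.h (T.h (M (nat_lit 2557717122610336364494847)) (T.h (P (nat_lit 0)) (M (nat_lit 9859842714718175231)))) (T.h (P (nat_lit 0))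 (M (nat_lit 189303355846164479)))))) (T.h (T.h (P (nat_lit 0)) (T.h (T.h (P (nat_lit 0)) (T.h (M (nat_lit 30963283778458873757695)) (T.h (P (nat_lit 0)) (M (nat_lit 17335195603042303))))) (T.h (P (nat_lit 0)) (T.h (T.h (P (nat_lit 0)) (P (nat_lit 6433192016805888))) (P (nat_lit 0)))))) (T.h (T.h (T.h (P (nat_lit 7141172396579346538561536)) (T.h (P (nat_lit 0)) (P (nat_lit 9741744240169320448)))) (T.h (P (nat_lit 0)) (M (nat_lit 61634766708328628223)))) (T.h (T.h (P (nat_lit 0)) (T.h (T.h (P (nat_lit 0)) (P (nat_lit 1167571700088832))) (P (nat_lit 0)))) (P (nat_lit 4765715769944178688)))))), (T.h (T.h (T.h (P (nat_lit 0)) (T.h (M (nat_lit 11006444473952153644310724607)) (T.h (P (nat_lit 0)) (T.h (P (nat_lit 16493368516340382433280)) (T.h (P (nat_lit 0)) (P (nat_lit 2632256490307584))))))) (T.h (P (nat_lit 0)) (T.h (T.h (P (nat_lit 0)) (T.h (P (nat_lit 36160025877435975204864)) (T.h (P (nat_lit 0)) (M (nat_lit 5084552673492991))))) (T.h (P (nat_lit 0)) (T.h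 (T.h (P (nat_lit 0)) (P (nat_lit 27148498310004736))) (P (nat_lit 0))))))) (T.h (T.h (P (nat_lit 0)) (T.h (T.h (M (nat_lit 54803303390814345468313599)) (T.h (P (nat_lit 0)) (M (nat_lit 9232310398789615615)))) (T.h (P (nat_lit 0)) (M (nat_lit 11041718854697877503))))) (T.h (T.h (T.h (P (nat_lit 0)) (T.h (M (nat_lit 2713479045495478288383)) (T.h (P (nat_lit 0)) (M (nat_lit 18815821307838463))))) (T.h (P (nat_lit 0)) (T.h (T.h (P (nat_lit 0)) (P (nat_lit 60336823190224896))) (P (nat_lit 0))))) (T.h (T.h (P (nat_lit 0)) (M (nat_lit 11733839889953718271))) (T.h (T.h (T.h (P (nat_lit 0)) (P (nat_lit 13080826245939200))) (P (nat_lit 0))) (P (nat_lit 0))))))), (T.h (T.h (T.h (P (nat_lit 2206126113579595365242892189696)) (T.h (P (nat_lit 0)) (T.h (P (nat_lit 20540562343498051169026048)) (T.h (P (nat_lit 0)) (M (nat_lit 7037474781179936767)))))) (T.h (P (nat_lit 0)) (T.h (T.h (P (nat_lit 7558502885339867069284352)) (T.h (P (nat_lit 0)) (P (nat_lit 107185444086695854080))))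 (T.h (P (nat_lit 0)) (M (nat_lit 17445534114437398527)))))) (T.h (T.h (P (nat_lit 0)) (T.h (T.h (P (nat_lit 0)) (T.h (M (nat_lit 72979716225517532217343)) (T.h (P (nat_lit 0)) (P (nat_lit 65584249744195584))))) (T.h (P (nat_lit 0)) (T.h (T.h (P (nat_lit 0)) (P (nat_lit 33857555046727680))) (P (nat_lit 0)))))) (T.h (T.h (T.h (P (nat_lit 20540562343498051169026048)) (T.h (P (nat_lit 0)) (P (nat_lit 4976249469914841088)))) (T.h (P (nat_lit 0)) (P (nat_lit 107185444086695854080)))) (T.h (T.h (P (nat_lit 0)) (T.h (T.h (P (nat_lit 0)) (P (nat_lit 65584249744195584))) (P (nat_lit 0)))) (M (nat_lit 7037474781179936767))))))]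
def lP22_22 : List (T ℤ) := [(T.h (T.h (T.h (P (nat_lit 0)) (T.h (P (nat_lit 15616928336515001970541461504)) (T.h (P (nat_lit 0)) (M (nat_lit 46753864263979497422847))))) (T.h (P (nat_lit 0)) (T.h (T.h (P (nat_lit 0)) (M (nat_lit 162789078047279051440127))) (P (nat_lit 0))))) (T.h (T.h (P (nat_lit 0)) (T.h (T.h (P (nat_lit 96317312569791024340140032)) (T.h (P (nat_lit 0)) (M (nat_lit 34557863645526622207)))) (T.h (P (nat_lit 0)) (M (nat_lit 34256219783244546047))))) (T.h (T.h (T.h (P (nat_lit 0)) (M (nat_lit 71590307560149082963967))) (P (nat_lit 0))) (T.h (T.h (P (nat_lit 0)) (M (nat_lit 35675004736710377471))) (P (nat_lit 0)))))), (T.h (T.h (P (nat_lit 0)) (T.h (T.h (P (nat_lit 0)) (T.h (M (nat_lit 5319889967147930443841535)) (T.h (P (nat_lit 0)) (M (nat_lit 3623182536559034367))))) (T.h (P (nat_lit 0)) (T.h (T.h (P (nat_lit 0)) (P (nat_lit 136417751311843328))) (P (nat_lit 0)))))) (T.h (T.h (T.h (P (nat_lit 47416505117441395902631641088)) (T.h (P (nat_lit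 0)) (T.h (P (nat_lit 123502182344811347968)) (T.h (P (nat_lit 0)) (P (nat_lit 636707047669760)))))) (T.h (P (nat_lit 0)) (T.h (T.h (M (nat_lit 7653722122218524114943)) (T.h (P (nat_lit 0)) (M (nat_lit 8808587969626111)))) (T.h (P (nat_lit 0)) (P (nat_lit 5284322988097536)))))) (T.h (T.h (P (nat_lit 0)) (T.h (T.h (P (nat_lit 0)) (M (nat_lit 792260735148228607))) (P (nat_lit 0)))) (T.h (T.h (T.h (M (nat_lit 426404348199077675007)) (T.h (P (nat_lit 0)) (M (nat_lit 759253791539199)))) (T.h (P (nat_lit 0)) (P (nat_lit 4558637779353600)))) (T.h (P (nat_lit 0)) (M (nat_lit 197059579838463))))))), (T.h (T.h (P (nat_lit 0)) (T.h (T.h (M (nat_lit 1932805922345647315882082303)) (T.h (P (nat_lit 0)) (T.h (P (nat_lit 17679488136000722436096)) (T.h (P (nat_lit 0)) (P (nat_lit 4390270459445248)))))) (T.h (P (nat_lit 0)) (T.h (T.h (P (nat_lit 17669175649043166003200)) (T.h (P (nat_lit 0)) (M (nat_lit 5994255547105279)))) (T.h (P (nat_lit 0)) (P (nat_lit 5558297383403520)))))))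 (T.h (T.h (T.h (P (nat_lit 0)) (T.h (M (nat_lit 60039266405509223094943743)) (T.h (P (nat_lit 0)) (P (nat_lit 309226259353698304))))) (T.h (P (nat_lit 0)) (T.h (T.h (P (nat_lit 0)) (P (nat_lit 15580325017345327104))) (P (nat_lit 0))))) (T.h (T.h (P (nat_lit 0)) (T.h (T.h (P (nat_lit 17679488136000722436096)) (T.h (P (nat_lit 0)) (P (nat_lit 2683627399806976)))) (T.h (P (nat_lit 0)) (M (nat_lit 5994255547105279))))) (T.h (T.h (T.h (P (nat_lit 0)) (P (nat_lit 309226259353698304))) (P (nat_lit 0))) (T.h (T.h (P (nat_lit 0)) (P (nat_lit 4390270459445248))) (P (nat_lit 0))))))), (T.h (T.h (P (nat_lit 0)) (T.h (T.h (P (nat_lit 0)) (T.h (P (nat_lit 10837325089760501435465728)) (T.h (P (nat_lit 0)) (P (nat_lit 23476878950912753664))))) (T.h (P (nat_lit 0)) (T.h (T.h (P (nat_lit 0)) (P (nat_lit 18767264093181050880))) (P (nat_lit 0)))))) (T.h (T.h (T.h (M (nat_lit 70690757678798787449391677439)) (T.h (P (nat_lit 0)) (T.h (P (nat_lit 5240951608303125790720)) (T.h (P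 (nat_lit 0)) (P (nat_lit 1508883410780160)))))) (T.h (P (nat_lit 0)) (T.h (T.h (M (nat_lit 22596061560819215761407)) (T.h (P (nat_lit 0)) (P (nat_lit 4222073898663936)))) (T.h (P (nat_lit 0)) (M (nat_lit 1177318572294143)))))) (T.h (T.h (P (nat_lit 0)) (T.h (T.h (P (nat_lit 0)) (M (nat_lit 57234515501793673215))) (P (nat_lit 0)))) (T.h (T.h (T.h (M (nat_lit 7787362356475046395903)) (T.h (P (nat_lit 0)) (M (nat_lit 4922304214794239)))) (T.h (P (nat_lit 0)) (P (nat_lit 24297318949847040)))) (T.h (P (nat_lit 0)) (M (nat_lit 1904788133904383))))))), (T.h (T.h (P (nat_lit 0)) (T.h (T.h (P (nat_lit 14610249436861171604855455744)) (T.h (P (nat_lit 0)) (M (nat_lit 101273358841672856764415)))) (T.h (P (nat_lit 0)) (M (nat_lit 40558311345951795576831))))) (T.h (T.h (T.h (P (nat_lit 0)) (T.h (P (nat_lit 38514815664570662951845888)) (T.h (P (nat_lit 0)) (M (nat_lit 21085926385571069951))))) (T.h (P (nat_lit 0)) (T.h (T.h (P (nat_lit 0)) (M (nat_lit 40434674597491638271)))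 (P (nat_lit 0))))) (T.h (T.h (P (nat_lit 0)) (M (nat_lit 101273358841672856764415))) (T.h (T.h (T.h (P (nat_lit 0)) (M (nat_lit 21085926385571069951))) (P (nat_lit 0))) (P (nat_lit 0)))))), (T.h (T.h (T.h (P (nat_lit 0)) (T.h (M (nat_lit 3383368649401081921863155711)) (T.h (P (nat_lit 0)) (T.h (P (nat_lit 1449144204392583397376)) (T.h (P (nat_lit 0)) (P (nat_lit 969414783074304))))))) (T.h (P (nat_lit 0)) (T.h (T.h (P (nat_lit 0)) (T.h (M (nat_lit 3020588307875476013055)) (T.h (P (nat_lit 0)) (M (nat_lit 4362756073783295))))) (T.h (P (nat_lit 0)) (T.h (T.h (P (nat_lit 0)) (P (nat_lit 9250554945142784))) (P (nat_lit 0))))))) (T.h (T.h (P (nat_lit 0)) (T.h (T.h (P (nat_lit 13061859408740106582884352)) (T.h (P (nat_lit 0)) (P (nat_lit 8043047937598554112)))) (T.h (P (nat_lit 0)) (M (nat_lit 14183074911253168127))))) (T.h (T.h (T.h (P (nat_lit 0)) (T.h (P (nat_lit 4897606766501107335168)) (T.h (P (nat_lit 0)) (M (nat_lit 237439028822015))))) (T.h (P (nat_lit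 0)) (T.h (T.h (P (nat_lit 0)) (M (nat_lit 8840244534575103))) (P (nat_lit 0))))) (T.h (T.h (P (nat_lit 0)) (P (nat_lit 1793701663668699136))) (T.h (T.h (T.h (P (nat_lit 0)) (M (nat_lit 109270719660031))) (P (nat_lit 0))) (P (nat_lit 0))))))), (T.h (T.h (T.h (P (nat_lit 2141173400490522924430219280384)) (T.h (P (nat_lit 0)) (T.h (P (nat_lit 2755423052078074411614208)) (T.h (P (nat_lit 0)) (M (nat_lit 2013936797247078399)))))) (T.h (P (nat_lit 0)) (T.h (T.h (P (nat_lit 10202185739954566874529792)) (T.h (P (nat_lit 0)) (P (nat_lit 38971114064168615936)))) (T.h (P (nat_lit 0)) (M (nat_lit 407510509886111743)))))) (T.h (T.h (P (nat_lit 0)) (T.h (T.h (P (nat_lit 0)) (T.h (M (nat_lit 2245742729472155582463)) (T.h (P (nat_lit 0)) (P (nat_lit 5709701810749440))))) (T.h (P (nat_lit 0)) (T.h (T.h (P (nat_lit 0)) (P (nat_lit 5240455223181312))) (P (nat_lit 0)))))) (T.h (T.h (T.h (P (nat_lit 2755423052078074411614208)) (T.h (P (nat_lit 0)) (P (nat_lit 71583197720215552))))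 (T.h (P (nat_lit 0)) (P (nat_lit 38971114064168615936)))) (T.h (T.h (P (nat_lit 0)) (T.h (T.h (P (nat_lit 0)) (P (nat_lit 5709701810749440))) (P (nat_lit 0)))) (M (nat_lit 2013936797247078399)))))), (T.h (T.h (T.h (P (nat_lit 0)) (T.h (M (nat_lit 4128095417609799227320303615)) (T.h (P (nat_lit 0)) (M (nat_lit 11607120330576317382655))))) (T.h (P (nat_lit 0)) (T.h (T.h (P (nat_lit 0)) (M (nat_lit 89093646853074963136511))) (P (nat_lit 0))))) (T.h (T.h (P (nat_lit 0)) (T.h (T.h (P (nat_lit 30515205083625810267471872)) (T.h (P (nat_lit 0)) (M (nat_lit 8729003769028673535)))) (T.h (P (nat_lit 0)) (M (nat_lit 13024428012773310463))))) (T.h (T.h (T.h (P (nat_lit 0)) (P (nat_lit 772023265095726399488))) (P (nat_lit 0))) (T.h (T.h (P (nat_lit 0)) (M (nat_lit 17552851634139168767))) (P (nat_lit 0))))))]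
def lP22_23 : List (T ℤ) := [(T.h (T.h (P (nat_lit 0)) (T.h (T.h (P (nat_lit 0)) (T.h (P (nat_lit 4891702662024706926837760)) (T.h (P (nat_lit 0)) (P (nat_lit 2552835554030911488))))) (T.h (P (nat_lit 0)) (T.h (T.h (P (nat_lit 0)) (M (nat_lit 3870950617715310591))) (P (nat_lit 0)))))) (T.h (T.h (T.h (M (nat_lit 47638697680888985569739145215)) (T.h (P (nat_lit 0)) (T.h (P (nat_lit 1736765090462693326848)) (T.h (P (nat_lit 0)) (P (nat_lit 315447786405888)))))) (T.h (P (nat_lit 0)) (T.h (T.h (P (nat_lit 4218958299614159044608)) (T.h (P (nat_lit 0)) (M (nat_lit 2168266134061055)))) (T.h (P (nat_lit 0)) (M (nat_lit 5663748413521919)))))) (T.h (T.h (P (nat_lit 0)) (T.h (T.h (P (nat_lit 0)) (P (nat_lit 6320300481474199552))) (P (nat_lit 0)))) (T.h (T.h (T.h (M (nat_lit 873530666480291545087)) (T.h (P (nat_lit 0)) (M (nat_lit 699409081171967)))) (T.h (P (nat_lit 0)) (P (nat_lit 1692325956550656)))) (T.h (P (nat_lit 0)) (M (nat_lit 252540465315839))))))), (T.h (T.h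 (P (nat_lit 0)) (T.h (T.h (M (nat_lit 4932787182799620835601547263)) (T.h (P (nat_lit 0)) (M (nat_lit 19024528249610334896127)))) (T.h (P (nat_lit 0)) (M (nat_lit 22683376998001198235647))))) (T.h (T.h (T.h (P (nat_lit 0)) (T.h (P (nat_lit 469854802530439322927104)) (T.h (P (nat_lit 0)) (M (nat_lit 1902139663028584447))))) (T.h (P (nat_lit 0)) (T.h (T.h (P (nat_lit 0)) (M (nat_lit 2405820120166301695))) (P (nat_lit 0))))) (T.h (T.h (P (nat_lit 0)) (M (nat_lit 19024528249610334896127))) (T.h (T.h (T.h (P (nat_lit 0)) (M (nat_lit 1902139663028584447))) (P (nat_lit 0))) (P (nat_lit 0)))))), (T.h (T.h (T.h (P (nat_lit 0)) (M (nat_lit 471536197744369659130413055))) (T.h (P (nat_lit 0)) (T.h (T.h (P (nat_lit 0)) (M (nat_lit 7121757884211567525887))) (P (nat_lit 0))))) (T.h (T.h (P (nat_lit 0)) (T.h (T.h (P (nat_lit 1514619882854388970029056)) (T.h (P (nat_lit 0)) (M (nat_lit 5888628940288819199)))) (T.h (P (nat_lit 0)) (P (nat_lit 7732904500595261440))))) (T.h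 (T.h (T.h (P (nat_lit 0)) (M (nat_lit 391678135183836446719))) (P (nat_lit 0))) (T.h (T.h (P (nat_lit 0)) (M (nat_lit 1155294519671914495))) (P (nat_lit 0)))))), (P (nat_lit 0)), (P (nat_lit 0)), (T.h (T.h (T.h (M (nat_lit 364298159829854710991899590655)) (T.h (P (nat_lit 0)) (T.h (M (nat_lit 2846662247044509570433023)) (T.h (P (nat_lit 0)) (M (nat_lit 2218965568243892223)))))) (T.h (P (nat_lit 0)) (T.h (T.h (M (nat_lit 817570893295480970674175)) (T.h (P (nat_lit 0)) (P (nat_lit 6308753183799771136)))) (T.h (P (nat_lit 0)) (M (nat_lit 692532370447794175)))))) (T.h (T.h (P (nat_lit 0)) (T.h (T.h (P (nat_lit 0)) (T.h (M (nat_lit 40874825642779300855807)) (T.h (P (nat_lit 0)) (M (nat_lit 15396910677557247))))) (T.h (P (nat_lit 0)) (T.h (T.h (P (nat_lit 0)) (M (nat_lit 14476001799831551))) (P (nat_lit 0)))))) (T.h (T.h (T.h (M (nat_lit 3569027755786119380205567)) (T.h (P (nat_lit 0)) (P (nat_lit 4702892326333186048)))) (T.h (P (nat_lit 0)) (P (nat_lit 3710868602832814080))))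 (T.h (T.h (P (nat_lit 0)) (T.h (T.h (P (nat_lit 0)) (M (nat_lit 15562217295118335))) (P (nat_lit 0)))) (M (nat_lit 1612969606014566399)))))), (T.h (T.h (T.h (P (nat_lit 0)) (T.h (P (nat_lit 47245103773009497930669752320)) (T.h (P (nat_lit 0)) (T.h (P (nat_lit 2562343879471917957120)) (T.h (P (nat_lit 0)) (M (nat_lit 854125150273535))))))) (T.h (P (nat_lit 0)) (T.h (T.h (P (nat_lit 0)) (T.h (M (nat_lit 8283475691297587593215)) (T.h (P (nat_lit 0)) (P (nat_lit 2834899061800960))))) (T.h (P (nat_lit 0)) (T.h (T.h (P (nat_lit 0)) (P (nat_lit 1162077987897344))) (P (nat_lit 0))))))) (T.h (T.h (P (nat_lit 0)) (T.h (T.h (M (nat_lit 11960314775027518248321023)) (T.h (P (nat_lit 0)) (M (nat_lit 11902385387470847999)))) (T.h (P (nat_lit 0)) (M (nat_lit 11846047760014901247))))) (T.h (T.h (T.h (P (nat_lit 0)) (T.h (P (nat_lit 25850322947642501365760)) (T.h (P (nat_lit 0)) (M (nat_lit 18037048165433343))))) (T.h (P (nat_lit 0)) (T.h (T.h (P (nat_lit 0)) (M (nat_lit 80551641858670591)))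 (P (nat_lit 0))))) (T.h (T.h (P (nat_lit 0)) (P (nat_lit 8138718056420474880))) (T.h (T.h (T.h (P (nat_lit 0)) (M (nat_lit 7524661744500735))) (P (nat_lit 0))) (P (nat_lit 0))))))), (T.h (T.h (T.h (M (nat_lit 676723428360230009698212904959)) (T.h (P (nat_lit 0)) (T.h (P (nat_lit 2029706600627222844801024)) (T.h (P (nat_lit 0)) (P (nat_lit 5049244370570575872)))))) (T.h (P (nat_lit 0)) (T.h (T.h (P (nat_lit 0)) (T.h (P (nat_lit 0)) (M (nat_lit 1149067248200056831)))) (T.h (P (nat_lit 0)) (M (nat_lit 1646501934904901631)))))) (T.h (T.h (P (nat_lit 0)) (T.h (T.h (P (nat_lit 0)) (T.h (P (nat_lit 89263618010904308744192)) (T.h (P (nat_lit 0)) (P (nat_lit 24589569046282240))))) (T.h (P (nat_lit 0)) (T.h (T.h (P (nat_lit 0)) (P (nat_lit 28424138705600512))) (P (nat_lit 0)))))) (T.h (T.h (T.h (P (nat_lit 2029706600627222844801024)) (T.h (P (nat_lit 0)) (P (nat_lit 15165971108701667328)))) (T.h (P (nat_lit 0)) (M (nat_lit 1149067248200056831)))) (T.h (T.h (P (nat_lit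 0)) (T.h (T.h (P (nat_lit 0)) (P (nat_lit 24589569046282240))) (P (nat_lit 0)))) (P (nat_lit 5049244370570575872))))))]
def lP22_24 : List (T ℤ) := [(T.h (T.h (T.h (P (nat_lit 0)) (T.h (M (nat_lit 52937017390792354300541534207)) (T.h (P (nat_lit 0)) (T.h (M (nat_lit 7352685468606047191039)) (T.h (P (nat_lit 0)) (P (nat_lit 4854149649924096))))))) (T.h (P (nat_lit 0)) (T.h (T.h (P (nat_lit 0)) (T.h (P (nat_lit 12536557451927518969856)) (T.h (P (nat_lit 0)) (P (nat_lit 14879032139710464))))) (T.h (P (nat_lit 0)) (T.h (T.h (P (nat_lit 0)) (M (nat_lit 2882536193261567))) (P (nat_lit 0))))))) (T.h (T.h (P (nat_lit 0)) (T.h (T.h (M (nat_lit 9439194556011140503044095)) (T.h (P (nat_lit 0)) (P (nat_lit 3677962608486383616)))) (T.h (P (nat_lit 0)) (P (nat_lit 5085947461818646528))))) (T.h (T.h (T.h (P (nat_lit 0)) (T.h (M (nat_lit 10829427887595388403711)) (T.h (P (nat_lit 0)) (P (nat_lit 11288485081251840))))) (T.h (P (nat_lit 0)) (T.h (T.h (P (nat_lit 0)) (P (nat_lit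 50248992988594176))) (P (nat_lit 0))))) (T.h (T.h (P (nat_lit 0)) (M (nat_lit 7915581512043462655))) (T.h (T.h (T.h (P (nat_lit 0)) (P (nat_lit 1173219417587712))) (P (nat_lit 0))) (P (nat_lit 0))))))), (T.h (T.h (T.h (P (nat_lit 42447683449089660624773404688384)) (T.h (P (nat_lit 0)) (T.h (P (nat_lit 10338251075836970503503872)) (T.h (P (nat_lit 0)) (M (nat_lit 6431656650796433407)))))) (T.h (P (nat_lit 0)) (T.h (T.h (M (nat_lit 2002053416925357523599359)) (T.h (P (nat_lit 0)) (M (nat_lit 31647683677410820095)))) (T.h (P (nat_lit 0)) (P (nat_lit 1294389595621818368)))))) (T.h (T.h (P (nat_lit 0)) (T.h (T.h (P (nat_lit 0)) (M (nat_lit 28488039123804405891071))) (P (nat_lit 0)))) (T.h (T.h (T.h (P (nat_lit 1048397985524561722998784)) (T.h (P (nat_lit 0)) (M (nat_lit 20339522515677216767)))) (T.h (P (nat_lit 0)) (M (nat_lit 16919149614668447743)))) (T.h (P (nat_lit 0)) (M (nat_lit 326317636306599935)))))), (P (nat_lit 0)), (T.h (T.h (P (nat_lit 0)) (T.h (T.h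 (P (nat_lit 0)) (T.h (P (nat_lit 64503246115057485794508800)) (T.h (P (nat_lit 0)) (P (nat_lit 795046254307442688))))) (T.h (P (nat_lit 0)) (T.h (T.h (P (nat_lit 0)) (P (nat_lit 795046254307442688))) (P (nat_lit 0)))))) (T.h (T.h (T.h (P (nat_lit 0)) (T.h (P (nat_lit 0)) (T.h (M (nat_lit 4023288376355572416511)) (T.h (P (nat_lit 0)) (M (nat_lit 5123191855120383)))))) (T.h (P (nat_lit 0)) (T.h (T.h (M (nat_lit 4023288376355572416511)) (T.h (P (nat_lit 0)) (M (nat_lit 8245414944309247)))) (T.h (P (nat_lit 0)) (M (nat_lit 5123191855120383)))))) (T.h (T.h (P (nat_lit 0)) (T.h (T.h (P (nat_lit 0)) (P (nat_lit 12938633457344446464))) (P (nat_lit 0)))) (T.h (T.h (T.h (P (nat_lit 0)) (T.h (P (nat_lit 0)) (P (nat_lit 17746068228407296)))) (T.h (P (nat_lit 0)) (P (nat_lit 17746068228407296)))) (T.h (P (nat_lit 0)) (M (nat_lit 955482939457535))))))), (T.h (T.h (P (nat_lit 0)) (T.h (T.h (P (nat_lit 16932207078975800452117954560)) (T.h (P (nat_lit 0)) (T.h (P (nat_lit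 5323332165170521702400)) (T.h (P (nat_lit 0)) (P (nat_lit 4440460525240320)))))) (T.h (P (nat_lit 0)) (T.h (T.h (P (nat_lit 3458675420943098052608)) (T.h (P (nat_lit 0)) (P (nat_lit 2596806975324160)))) (T.h (P (nat_lit 0)) (P (nat_lit 3161425102864384))))))) (T.h (T.h (T.h (P (nat_lit 0)) (T.h (M (nat_lit 21329726924007280998350847)) (T.h (P (nat_lit 0)) (M (nat_lit 8164621384287256575))))) (T.h (P (nat_lit 0)) (T.h (T.h (P (nat_lit 0)) (P (nat_lit 21968178430628331520))) (P (nat_lit 0))))) (T.h (T.h (P (nat_lit 0)) (T.h (T.h (P (nat_lit 44465585472532943732736)) (T.h (P (nat_lit 0)) (P (nat_lit 16352949644099584)))) (T.h (P (nat_lit 0)) (M (nat_lit 24782412154798079))))) (T.h (T.h (T.h (P (nat_lit 0)) (M (nat_lit 4226509474308816895))) (P (nat_lit 0))) (T.h (T.h (P (nat_lit 0)) (M (nat_lit 576546173845503))) (P (nat_lit 0))))))), (T.h (T.h (P (nat_lit 0)) (T.h (T.h (P (nat_lit 0)) (T.h (M (nat_lit 128522053384882421369929727)) (T.h (P (nat_lit 0)) (M (nat_lit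 7794881417426501631))))) (T.h (P (nat_lit 0)) (T.h (T.h (P (nat_lit 0)) (M (nat_lit 8487002452682342399))) (P (nat_lit 0)))))) (T.h (T.h (T.h (M (nat_lit 12043737350263039423634472959)) (T.h (P (nat_lit 0)) (T.h (P (nat_lit 56118129937432931467264)) (T.h (P (nat_lit 0)) (P (nat_lit 28411816549810176)))))) (T.h (P (nat_lit 0)) (T.h (T.h (P (nat_lit 17244625014501477974016)) (T.h (P (nat_lit 0)) (P (nat_lit 50626758733135872)))) (T.h (P (nat_lit 0)) (P (nat_lit 14344144485744640)))))) (T.h (T.h (P (nat_lit 0)) (T.h (T.h (P (nat_lit 0)) (M (nat_lit 26223334227089293311))) (P (nat_lit 0)))) (T.h (T.h (T.h (P (nat_lit 25930276767998186356736)) (T.h (P (nat_lit 0)) (M (nat_lit 8124817532059647)))) (T.h (P (nat_lit 0)) (M (nat_lit 21856086166405119)))) (T.h (P (nat_lit 0)) (P (nat_lit 6091426764423168))))))), (T.h (T.h (P (nat_lit 0)) (T.h (T.h (M (nat_lit 42979369975965446881453015039)) (T.h (P (nat_lit 0)) (T.h (M (nat_lit 17727291699523684925439)) (T.h (P (nat_lit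 0)) (P (nat_lit 1320889192022016)))))) (T.h (P (nat_lit 0)) (T.h (T.h (M (nat_lit 13665962222507981275135)) (T.h (P (nat_lit 0)) (P (nat_lit 12020659018924032)))) (T.h (P (nat_lit 0)) (M (nat_lit 4227772911452159))))))) (T.h (T.h (T.h (P (nat_lit 0)) (T.h (P (nat_lit 14269728039867407925248000)) (T.h (P (nat_lit 0)) (P (nat_lit 40755378388950056960))))) (T.h (P (nat_lit 0)) (T.h (T.h (P (nat_lit 0)) (M (nat_lit 120426958162489245695))) (P (nat_lit 0))))) (T.h (T.h (P (nat_lit 0)) (T.h (T.h (M (nat_lit 17727291699523684925439)) (T.h (P (nat_lit 0)) (M (nat_lit 92053838179860479)))) (T.h (P (nat_lit 0)) (P (nat_lit 12020659018924032))))) (T.h (T.h (T.h (P (nat_lit 0)) (P (nat_lit 40755378388950056960))) (P (nat_lit 0))) (T.h (T.h (P (nat_lit 0)) (P (nat_lit 1320889192022016))) (P (nat_lit 0))))))), (T.h (T.h (P (nat_lit 0)) (T.h (T.h (P (nat_lit 0)) (T.h (P (nat_lit 42997833021988943603695616)) (T.h (P (nat_lit 0)) (M (nat_lit 19527971428370481151))))) (T.h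 (P (nat_lit 0)) (T.h (T.h (P (nat_lit 0)) (M (nat_lit 22827126543832055807))) (P (nat_lit 0)))))) (T.h (T.h (T.h (P (nat_lit 8024942193257158483648708608)) (T.h (P (nat_lit 0)) (M (nat_lit 177640429114986890002431)))) (T.h (P (nat_lit 0)) (P (nat_lit 255067371253272674304)))) (T.h (T.h (P (nat_lit 0)) (T.h (T.h (P (nat_lit 0)) (P (nat_lit 5356971479105798144))) (P (nat_lit 0)))) (M (nat_lit 27949133893466549387263)))))]
def lP22_25 : List (T ℤ) := [(T.h (T.h (M (nat_lit 460972935309887569520215719935)) (T.h (P (nat_lit 0)) (T.h (T.h (M (nat_lit 2029091353749028599758847)) (T.h (P (nat_lit 0)) (P (nat_lit 2998689982794694656)))) (T.h (P (nat_lit 0)) (M (nat_lit 1526433197796098047)))))) (T.h (T.h (P (nat_lit 0)) (T.h (T.h (P (nat_lit 0)) (T.h (M (nat_lit 38255836290387560890367)) (T.h (P (nat_lit 0)) (M (nat_lit 14346539850792959))))) (T.h (P (nat_lit 0)) (T.h (T.h (P (nat_lit 0)) (M (nat_lit 15267448728518655))) (P (nat_lit 0)))))) (T.h (T.h (T.h (M (nat_lit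 2029091353749028599758847)) (T.h (P (nat_lit 0)) (P (nat_lit 2998689982794694656)))) (T.h (P (nat_lit 0)) (P (nat_lit 3990713706295066624)))) (T.h (T.h (P (nat_lit 0)) (T.h (T.h (P (nat_lit 0)) (M (nat_lit 15267448728518655))) (P (nat_lit 0)))) (M (nat_lit 1526433197796098047)))))), (T.h (T.h (T.h (P (nat_lit 0)) (T.h (M (nat_lit 19869073653131804131622649855)) (T.h (P (nat_lit 0)) (T.h (P (nat_lit 6773321612529888133120)) (T.h (P (nat_lit 0)) (M (nat_lit 145850248724479))))))) (T.h (P (nat_lit 0)) (T.h (T.h (P (nat_lit 0)) (T.h (M (nat_lit 7177687224317498097663)) (T.h (P (nat_lit 0)) (P (nat_lit 5040420300750848))))) (T.h (P (nat_lit 0)) (T.h (T.h (P (nat_lit 0)) (M (nat_lit 7654853666406399))) (P (nat_lit 0))))))) (T.h (T.h (P (nat_lit 0)) (T.h (T.h (P (nat_lit 1957344530603387364835328)) (T.h (P (nat_lit 0)) (P (nat_lit 94491169096630009856)))) (T.h (P (nat_lit 0)) (M (nat_lit 31137062395752480767))))) (T.h (T.h (T.h (P (nat_lit 0)) (T.h (M (nat_lit 5943260452164290478079))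 (T.h (P (nat_lit 0)) (P (nat_lit 4754118344474624))))) (T.h (P (nat_lit 0)) (T.h (T.h (P (nat_lit 0)) (P (nat_lit 77046820858494976))) (P (nat_lit 0))))) (T.h (T.h (P (nat_lit 0)) (M (nat_lit 49284794323627409407))) (T.h (T.h (T.h (P (nat_lit 0)) (M (nat_lit 6962062625734655))) (P (nat_lit 0))) (P (nat_lit 0))))))), (T.h (T.h (T.h (P (nat_lit 29656857511185159458979919691776)) (T.h (P (nat_lit 0)) (T.h (M (nat_lit 12325914637394849998831615)) (T.h (P (nat_lit 0)) (P (nat_lit 1748695685525405696)))))) (T.h (P (nat_lit 0)) (T.h (T.h (M (nat_lit 7692531527963487454101503)) (T.h (P (nat_lit 0)) (M (nat_lit 56500856715288248319)))) (T.h (P (nat_lit 0)) (P (nat_lit 7302961216668827648)))))) (T.h (T.h (P (nat_lit 0)) (T.h (T.h (P (nat_lit 0)) (T.h (P (nat_lit 151182173365017801392128)) (T.h (P (nat_lit 0)) (P (nat_lit 107199841871331328))))) (T.h (P (nat_lit 0)) (T.h (T.h (P (nat_lit 0)) (P (nat_lit 96419566634926080))) (P (nat_lit 0)))))) (T.h (T.h (T.h (M (nat_lit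 14929591146198989698760703)) (T.h (P (nat_lit 0)) (M (nat_lit 40970115974254559231)))) (T.h (P (nat_lit 0)) (M (nat_lit 40577967166320541695)))) (T.h (T.h (P (nat_lit 0)) (T.h (T.h (P (nat_lit 0)) (P (nat_lit 114145547448418304))) (P (nat_lit 0)))) (P (nat_lit 2890176459857461248)))))), (T.h (T.h (T.h (P (nat_lit 0)) (T.h (P (nat_lit 30867479257377564037853741056)) (T.h (P (nat_lit 0)) (T.h (M (nat_lit 30558448618581354610687)) (T.h (P (nat_lit 0)) (P (nat_lit 5650615235248128))))))) (T.h (P (nat_lit 0)) (T.h (T.h (P (nat_lit 0)) (T.h (M (nat_lit 17440100009466744799231)) (T.h (P (nat_lit 0)) (M (nat_lit 423629866598399))))) (T.h (P (nat_lit 0)) (T.h (T.h (P (nat_lit 0)) (P (nat_lit 13903926991060992))) (P (nat_lit 0))))))) (T.h (T.h (P (nat_lit 0)) (T.h (T.h (M (nat_lit 21038569313932369675157503)) (T.h (P (nat_lit 0)) (M (nat_lit 55819018063600156671)))) (T.h (P (nat_lit 0)) (P (nat_lit 2996098711181852672))))) (T.h (T.h (T.h (P (nat_lit 0)) (T.h (M (nat_lit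 28115260437090684370943)) (T.h (P (nat_lit 0)) (P (nat_lit 22386341176344576))))) (T.h (P (nat_lit 0)) (T.h (T.h (P (nat_lit 0)) (M (nat_lit 72015208060157951))) (P (nat_lit 0))))) (T.h (T.h (P (nat_lit 0)) (P (nat_lit 13854077642703110144))) (T.h (T.h (T.h (P (nat_lit 0)) (P (nat_lit 9756912138387456))) (P (nat_lit 0))) (P (nat_lit 0))))))), (T.h (T.h (T.h (P (nat_lit 49809217826486150860430035124224)) (T.h (P (nat_lit 0)) (T.h (P (nat_lit 76115722070600617014853632)) (T.h (P (nat_lit 0)) (M (nat_lit 13424939522269904895)))))) (T.h (P (nat_lit 0)) (T.h (T.h (P (nat_lit 57116738777697243275198464)) (T.h (P (nat_lit 0)) (P (nat_lit 12705833165885800448)))) (T.h (P (nat_lit 0)) (M (nat_lit 2276348390352617471)))))) (T.h (T.h (P (nat_lit 0)) (T.h (T.h (P (nat_lit 0)) (M (nat_lit 144571604986466572173311))) (P (nat_lit 0)))) (T.h (T.h (T.h (P (nat_lit 76115722070600617014853632)) (T.h (P (nat_lit 0)) (M (nat_lit 14426183297094647807)))) (T.h (P (nat_lit 0)) (P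 (nat_lit 12705833165885800448)))) (T.h (P (nat_lit 0)) (M (nat_lit 13424939522269904895)))))), (T.h (T.h (P (nat_lit 0)) (T.h (T.h (P (nat_lit 3740536491181234184028946432)) (T.h (P (nat_lit 0)) (T.h (M (nat_lit 9374060979553220689919)) (T.h (P (nat_lit 0)) (P (nat_lit 651352187568128)))))) (T.h (P (nat_lit 0)) (T.h (T.h (M (nat_lit 227177040830728765439)) (T.h (P (nat_lit 0)) (M (nat_lit 3020348864692223)))) (T.h (P (nat_lit 0)) (P (nat_lit 632988086468608))))))) (T.h (T.h (T.h (P (nat_lit 0)) (T.h (P (nat_lit 9875282602521853746479104)) (T.h (P (nat_lit 0)) (M (nat_lit 1587128147822772223))))) (T.h (P (nat_lit 0)) (T.h (T.h (P (nat_lit 0)) (P (nat_lit 6736718963717177344))) (P (nat_lit 0))))) (T.h (T.h (P (nat_lit 0)) (T.h (T.h (M (nat_lit 1406929830933170225151)) (T.h (P (nat_lit 0)) (M (nat_lit 11137756148891647)))) (T.h (P (nat_lit 0)) (M (nat_lit 285597451747327))))) (T.h (T.h (T.h (P (nat_lit 0)) (P (nat_lit 5803693326376894464))) (P (nat_lit 0)))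 (T.h (T.h (P (nat_lit 0)) (P (nat_lit 1768850240339968))) (P (nat_lit 0))))))), (T.h (T.h (P (nat_lit 0)) (T.h (T.h (P (nat_lit 0)) (T.h (M (nat_lit 68482786979373198274985983)) (T.h (P (nat_lit 0)) (M (nat_lit 8796228712036040703))))) (T.h (P (nat_lit 0)) (T.h (T.h (P (nat_lit 0)) (M (nat_lit 8104107676780199935))) (P (nat_lit 0)))))) (T.h (T.h (T.h (M (nat_lit 10110931427917392107752390655)) (T.h (P (nat_lit 0)) (T.h (M (nat_lit 434863121499244462079)) (T.h (P (nat_lit 0)) (P (nat_lit 9953874026299392)))))) (T.h (P (nat_lit 0)) (T.h (T.h (P (nat_lit 38438641801432209031168)) (T.h (P (nat_lit 0)) (P (nat_lit 47943131333328896)))) (T.h (P (nat_lit 0)) (P (nat_lit 24021546090364928)))))) (T.h (T.h (P (nat_lit 0)) (T.h (T.h (P (nat_lit 0)) (M (nat_lit 41803659244434620415))) (P (nat_lit 0)))) (T.h (T.h (T.h (P (nat_lit 8261101118955020353536)) (T.h (P (nat_lit 0)) (M (nat_lit 15861830619299839)))) (T.h (P (nat_lit 0)) (M (nat_lit 2130561984954367)))) (T.h (P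 (nat_lit 0)) (P (nat_lit 533129381019648))))))), (T.h (T.h (P (nat_lit 0)) (T.h (T.h (P (nat_lit 3156091554544223469915078656)) (T.h (P (nat_lit 0)) (T.h (M (nat_lit 5147017129263873654783)) (T.h (P (nat_lit 0)) (P (nat_lit 9944906357145600)))))) (T.h (P (nat_lit 0)) (T.h (T.h (M (nat_lit 24679848752548419731455)) (T.h (P (nat_lit 0)) (P (nat_lit 5443377942626304)))) (T.h (P (nat_lit 0)) (P (nat_lit 7973600012795904))))))) (T.h (T.h (T.h (P (nat_lit 0)) (T.h (M (nat_lit 24470972264039276164939775)) (T.h (P (nat_lit 0)) (M (nat_lit 3424421795334193151))))) (T.h (P (nat_lit 0)) (T.h (T.h (P (nat_lit 0)) (P (nat_lit 7373424597095415808))) (P (nat_lit 0))))) (T.h (T.h (P (nat_lit 0)) (T.h (T.h (M (nat_lit 22308869870762275635199)) (T.h (P (nat_lit 0)) (P (nat_lit 24260704018366464)))) (T.h (P (nat_lit 0)) (P (nat_lit 11853030064324608))))) (T.h (T.h (T.h (P (nat_lit 0)) (M (nat_lit 18992015584587153407))) (P (nat_lit 0))) (T.h (T.h (P (nat_lit 0)) (P (nat_lit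 11405719226744832))) (P (nat_lit 0)))))))]
def lP22_26 : List (T ℤ) := [(T.h (T.h (P (nat_lit 0)) (T.h (T.h (P (nat_lit 0)) (T.h (P (nat_lit 96317312569791024340140032)) (T.h (P (nat_lit 0)) (M (nat_lit 35675004736710377471))))) (T.h (P (nat_lit 0)) (T.h (T.h (P (nat_lit 0)) (M (nat_lit 34256219783244546047))) (P (nat_lit 0)))))) (T.h (T.h (T.h (P (nat_lit 15616928336515001970541461504)) (T.h (P (nat_lit 0)) (M (nat_lit 71590307560149082963967)))) (T.h (P (nat_lit 0)) (M (nat_lit 162789078047279051440127)))) (T.h (T.h (P (nat_lit 0)) (T.h (T.h (P (nat_lit 0)) (M (nat_lit 34557863645526622207))) (P (nat_lit 0)))) (M (nat_lit 46753864263979497422847))))), (T.h (T.h (T.h (M (nat_lit 338361714180115004849106452479)) (T.h (P (nat_lit 0)) (T.h (P (nat_lit 0)) (T.h (P (nat_lit 0)) (M (nat_lit 823250967452450815)))))) (T.h (P (nat_lit 0)) (T.h (T.h (M (nat_lit 2603676508804139699929087)) (T.h (P (nat_lit 0)) (P (nat_lit 7190836746416816128)))) (T.h (P (nat_lit 0))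 (P (nat_lit 318229806879604736)))))) (T.h (T.h (P (nat_lit 0)) (T.h (T.h (P (nat_lit 0)) (T.h (P (nat_lit 44631809005452154372096)) (T.h (P (nat_lit 0)) (P (nat_lit 14212069352800256))))) (T.h (P (nat_lit 0)) (T.h (T.h (P (nat_lit 0)) (P (nat_lit 21157774929887232))) (P (nat_lit 0)))))) (T.h (T.h (T.h (P (nat_lit 4633383109431362544730112)) (T.h (P (nat_lit 0)) (M (nat_lit 8339903994616872959)))) (T.h (P (nat_lit 0)) (P (nat_lit 7582985554350833664)))) (T.h (T.h (P (nat_lit 0)) (T.h (T.h (P (nat_lit 0)) (P (nat_lit 3431794116395008))) (P (nat_lit 0)))) (P (nat_lit 4731014563690971136)))))), (T.h (T.h (T.h (P (nat_lit 0)) (T.h (M (nat_lit 21489684987982723440726507519)) (T.h (P (nat_lit 0)) (T.h (M (nat_lit 6832981111253990637567)) (T.h (P (nat_lit 0)) (M (nat_lit 2113886455726079))))))) (T.h (P (nat_lit 0)) (T.h (T.h (P (nat_lit 0)) (T.h (M (nat_lit 14201226063573812248575)) (T.h (P (nat_lit 0)) (P (nat_lit 17415315030933504))))) (T.h (P (nat_lit 0)) (T.h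 (T.h (P (nat_lit 0)) (M (nat_lit 1413062830325759))) (P (nat_lit 0))))))) (T.h (T.h (P (nat_lit 0)) (T.h (T.h (P (nat_lit 7134864019933703962624000)) (T.h (P (nat_lit 0)) (M (nat_lit 60213479081244622847)))) (T.h (P (nat_lit 0)) (P (nat_lit 25806678660235657216))))) (T.h (T.h (T.h (P (nat_lit 0)) (T.h (M (nat_lit 3526065635949872676863)) (T.h (P (nat_lit 0)) (M (nat_lit 5394656012009471))))) (T.h (P (nat_lit 0)) (T.h (T.h (P (nat_lit 0)) (M (nat_lit 46026919089930239))) (P (nat_lit 0))))) (T.h (T.h (P (nat_lit 0)) (P (nat_lit 14948699728714399744))) (T.h (T.h (T.h (P (nat_lit 0)) (P (nat_lit 2733952022347776))) (P (nat_lit 0))) (P (nat_lit 0))))))), (T.h (T.h (T.h (P (nat_lit 52495719643654334375004074934272)) (T.h (P (nat_lit 0)) (T.h (P (nat_lit 26125803118290657343438848)) (T.h (P (nat_lit 0)) (M (nat_lit 301860689679482879)))))) (T.h (P (nat_lit 0)) (T.h (T.h (P (nat_lit 48752009253523067412414464)) (T.h (P (nat_lit 0)) (M (nat_lit 24848436162335866879))))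 (T.h (P (nat_lit 0)) (M (nat_lit 12724093836410748927)))))) (T.h (T.h (P (nat_lit 0)) (T.h (T.h (P (nat_lit 0)) (M (nat_lit 90367155626949247762431))) (P (nat_lit 0)))) (T.h (T.h (T.h (P (nat_lit 29753025960619693672759296)) (T.h (P (nat_lit 0)) (P (nat_lit 2283580300644581376)))) (T.h (P (nat_lit 0)) (M (nat_lit 21307435674482245631)))) (T.h (P (nat_lit 0)) (M (nat_lit 1575502704493461503)))))), (T.h (T.h (P (nat_lit 0)) (T.h (T.h (M (nat_lit 3735944699976290291876364287)) (T.h (P (nat_lit 0)) (T.h (P (nat_lit 3769540207674520502272)) (T.h (P (nat_lit 0)) (M (nat_lit 1657467581693951)))))) (T.h (P (nat_lit 0)) (T.h (T.h (M (nat_lit 6398304223384991432703)) (T.h (P (nat_lit 0)) (P (nat_lit 14406680342495232)))) (T.h (P (nat_lit 0)) (P (nat_lit 4645051328102400))))))) (T.h (T.h (T.h (P (nat_lit 0)) (T.h (M (nat_lit 13141655625837937975885823)) (T.h (P (nat_lit 0)) (M (nat_lit 3442231760379707391))))) (T.h (P (nat_lit 0)) (T.h (T.h (P (nat_lit 0)) (P (nat_lit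 698999029035433984))) (P (nat_lit 0))))) (T.h (T.h (P (nat_lit 0)) (T.h (M (nat_lit 2434592390349984890879)) (T.h (P (nat_lit 0)) (P (nat_lit 4406481162338304))))) (T.h (T.h (T.h (P (nat_lit 0)) (M (nat_lit 876166944988856319))) (P (nat_lit 0))) (T.h (T.h (P (nat_lit 0)) (P (nat_lit 937475159556096))) (P (nat_lit 0))))))), (T.h (T.h (P (nat_lit 0)) (T.h (T.h (P (nat_lit 0)) (T.h (P (nat_lit 23740425189703612127772672)) (T.h (P (nat_lit 0)) (M (nat_lit 11574770874313605119))))) (T.h (P (nat_lit 0)) (T.h (T.h (P (nat_lit 0)) (M (nat_lit 9694400712317861887))) (P (nat_lit 0)))))) (T.h (T.h (T.h (P (nat_lit 719817474826572681220980736)) (T.h (P (nat_lit 0)) (P (nat_lit 5292361548524716818432)))) (T.h (P (nat_lit 0)) (M (nat_lit 81404364450585477382143)))) (T.h (T.h (P (nat_lit 0)) (T.h (T.h (P (nat_lit 0)) (P (nat_lit 25574308777851617280))) (P (nat_lit 0)))) (M (nat_lit 7669978220490651598847))))), (T.h (T.h (T.h (P (nat_lit 14856572718678401679984347316224))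 (T.h (P (nat_lit 0)) (T.h (P (nat_lit 430512853632606770561024)) (T.h (P (nat_lit 0)) (P (nat_lit 458076090124992512)))))) (T.h (P (nat_lit 0)) (T.h (T.h (P (nat_lit 9143594504065898468343808)) (T.h (P (nat_lit 0)) (M (nat_lit 14012339163622277119)))) (T.h (P (nat_lit 0)) (M (nat_lit 5994328141479280639)))))) (T.h (T.h (P (nat_lit 0)) (T.h (T.h (P (nat_lit 0)) (M (nat_lit 10406685990088444215295))) (P (nat_lit 0)))) (T.h (T.h (T.h (M (nat_lit 146258586246510312161279)) (T.h (P (nat_lit 0)) (P (nat_lit 716194899120095232)))) (T.h (P (nat_lit 0)) (M (nat_lit 6245178489742295039)))) (T.h (P (nat_lit 0)) (P (nat_lit 111010873010552832)))))), (P (nat_lit 0))]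
def lP22_27 : List (T ℤ) := [(T.h (T.h (P (nat_lit 0)) (T.h (T.h (P (nat_lit 2874759264551899117903675392)) (T.h (P (nat_lit 0)) (T.h (P (nat_lit 1940289171074890858496)) (T.h (P (nat_lit 0)) (M (nat_lit 1082473110175743)))))) (T.h (P (nat_lit 0)) (T.h (T.h (M (nat_lit 738474885769798352895)) (T.h (P (nat_lit 0)) (P (nat_lit 622586800177152)))) (T.h (P (nat_lit 0)) (M (nat_lit 853826605940735))))))) (T.h (T.h (T.h (P (nat_lit 0)) (T.h (M (nat_lit 9930660340720679142817791)) (T.h (P (nat_lit 0)) (P (nat_lit 4498897606964936704))))) (T.h (P (nat_lit 0)) (T.h (T.h (P (nat_lit 0)) (M (nat_lit 717555307059871743))) (P (nat_lit 0))))) (T.h (T.h (P (nat_lit 0)) (T.h (T.h (P (nat_lit 7643476739830000386048)) (T.h (P (nat_lit 0)) (M (nat_lit 2788580132061183)))) (T.h (P (nat_lit 0)) (P (nat_lit 4065623452418048))))) (T.h (T.h (T.h (P (nat_lit 0)) (P (nat_lit 5817303471073787904))) (P (nat_lit 0))) (T.h (T.h (P (nat_lit 0)) (M (nat_lit 5476709220483071))) (P (nat_lit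 0))))))), (T.h (T.h (P (nat_lit 0)) (T.h (T.h (P (nat_lit 0)) (T.h (P (nat_lit 15335290610414365515448320)) (T.h (P (nat_lit 0)) (M (nat_lit 4158563546147323903))))) (T.h (P (nat_lit 0)) (T.h (T.h (P (nat_lit 0)) (P (nat_lit 8578795778330329088))) (P (nat_lit 0)))))) (T.h (T.h (T.h (P (nat_lit 2469837008222561632381829120)) (T.h (P (nat_lit 0)) (T.h (P (nat_lit 6668307893578234855424)) (T.h (P (nat_lit 0)) (M (nat_lit 3211310102577151)))))) (T.h (P (nat_lit 0)) (T.h (T.h (P (nat_lit 1442787282259084836864)) (T.h (P (nat_lit 0)) (P (nat_lit 21931943582203904)))) (T.h (P (nat_lit 0)) (P (nat_lit 2231092518944768)))))) (T.h (T.h (P (nat_lit 0)) (T.h (T.h (P (nat_lit 0)) (M (nat_lit 8134717021788045311))) (P (nat_lit 0)))) (T.h (T.h (T.h (P (nat_lit 13023785487600711630848)) (T.h (P (nat_lit 0)) (M (nat_lit 9573983587958783)))) (T.h (P (nat_lit 0)) (M (nat_lit 24746393105268735)))) (T.h (P (nat_lit 0)) (M (nat_lit 9923090742673407))))))), (T.h (T.h (P (nat_lit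 0)) (T.h (T.h (M (nat_lit 4278881695435843458421489663)) (T.h (P (nat_lit 0)) (T.h (P (nat_lit 2618990842504873508864)) (T.h (P (nat_lit 0)) (P (nat_lit 3017681499979776)))))) (T.h (P (nat_lit 0)) (T.h (T.h (P (nat_lit 9681411601777945477120)) (T.h (P (nat_lit 0)) (M (nat_lit 3191429717360639)))) (T.h (P (nat_lit 0)) (P (nat_lit 3068541892362240))))))) (T.h (T.h (T.h (P (nat_lit 0)) (T.h (P (nat_lit 26741342997298959389556736)) (T.h (P (nat_lit 0)) (M (nat_lit 1143909514248978431))))) (T.h (P (nat_lit 0)) (T.h (T.h (P (nat_lit 0)) (P (nat_lit 40614396783243558912))) (P (nat_lit 0))))) (T.h (T.h (P (nat_lit 0)) (T.h (T.h (M (nat_lit 5299204231871709839359)) (T.h (P (nat_lit 0)) (P (nat_lit 3553447322320896)))) (T.h (P (nat_lit 0)) (M (nat_lit 7316746762321919))))) (T.h (T.h (T.h (P (nat_lit 0)) (M (nat_lit 17120686089170845695))) (P (nat_lit 0))) (T.h (T.h (P (nat_lit 0)) (P (nat_lit 12377507164782592))) (P (nat_lit 0))))))), (T.h (T.h (P (nat_lit 0)) (T.h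 (T.h (P (nat_lit 0)) (T.h (M (nat_lit 9439194556011140503044095)) (T.h (P (nat_lit 0)) (M (nat_lit 7915581512043462655))))) (T.h (P (nat_lit 0)) (T.h (T.h (P (nat_lit 0)) (P (nat_lit 5085947461818646528))) (P (nat_lit 0)))))) (T.h (T.h (T.h (M (nat_lit 52937017390792354300541534207)) (T.h (P (nat_lit 0)) (T.h (M (nat_lit 10829427887595388403711)) (T.h (P (nat_lit 0)) (P (nat_lit 1173219417587712)))))) (T.h (P (nat_lit 0)) (T.h (T.h (P (nat_lit 12536557451927518969856)) (T.h (P (nat_lit 0)) (P (nat_lit 50248992988594176)))) (T.h (P (nat_lit 0)) (M (nat_lit 2882536193261567)))))) (T.h (T.h (P (nat_lit 0)) (T.h (T.h (P (nat_lit 0)) (P (nat_lit 3677962608486383616))) (P (nat_lit 0)))) (T.h (T.h (T.h (M (nat_lit 7352685468606047191039)) (T.h (P (nat_lit 0)) (P (nat_lit 11288485081251840)))) (T.h (P (nat_lit 0)) (P (nat_lit 14879032139710464)))) (T.h (P (nat_lit 0)) (P (nat_lit 4854149649924096))))))), (T.h (T.h (P (nat_lit 0)) (T.h (T.h (M (nat_lit 9695825784872743817082568703))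 (T.h (P (nat_lit 0)) (M (nat_lit 12209620685918476173311)))) (T.h (P (nat_lit 0)) (M (nat_lit 7874284220171331567615))))) (T.h (T.h (T.h (P (nat_lit 0)) (T.h (P (nat_lit 13549559787844396279398400)) (T.h (P (nat_lit 0)) (M (nat_lit 9308108060281012223))))) (T.h (P (nat_lit 0)) (T.h (T.h (P (nat_lit 0)) (M (nat_lit 68606625093760581631))) (P (nat_lit 0))))) (T.h (T.h (P (nat_lit 0)) (M (nat_lit 12209620685918476173311))) (T.h (T.h (T.h (P (nat_lit 0)) (M (nat_lit 9308108060281012223))) (P (nat_lit 0))) (P (nat_lit 0)))))), (T.h (T.h (T.h (P (nat_lit 0)) (T.h (P (nat_lit 2874759264551899117903675392)) (T.h (P (nat_lit 0)) (T.h (M (nat_lit 738474885769798352895)) (T.h (P (nat_lit 0)) (M (nat_lit 853826605940735))))))) (T.h (P (nat_lit 0)) (T.h (T.h (P (nat_lit 0)) (T.h (P (nat_lit 1940289171074890858496)) (T.h (P (nat_lit 0)) (P (nat_lit 622586800177152))))) (T.h (P (nat_lit 0)) (T.h (T.h (P (nat_lit 0)) (M (nat_lit 1082473110175743))) (P (nat_lit 0))))))) (T.h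 (T.h (P (nat_lit 0)) (T.h (T.h (M (nat_lit 9930660340720679142817791)) (T.h (P (nat_lit 0)) (M (nat_lit 717555307059871743)))) (T.h (P (nat_lit 0)) (P (nat_lit 4498897606964936704))))) (T.h (T.h (T.h (P (nat_lit 0)) (T.h (P (nat_lit 7643476739830000386048)) (T.h (P (nat_lit 0)) (P (nat_lit 4065623452418048))))) (T.h (P (nat_lit 0)) (T.h (T.h (P (nat_lit 0)) (M (nat_lit 2788580132061183))) (P (nat_lit 0))))) (T.h (T.h (P (nat_lit 0)) (P (nat_lit 5817303471073787904))) (T.h (T.h (T.h (P (nat_lit 0)) (M (nat_lit 5476709220483071))) (P (nat_lit 0))) (P (nat_lit 0))))))), (T.h (T.h (T.h (M (nat_lit 2927081493154294249442284404735)) (T.h (P (nat_lit 0)) (T.h (M (nat_lit 8433683003161739429675007)) (T.h (P (nat_lit 0)) (P (nat_lit 1004096111528378368)))))) (T.h (P (nat_lit 0)) (T.h (T.h (P (nat_lit 3502497139088687288549376)) (T.h (P (nat_lit 0)) (P (nat_lit 2666819342133362688)))) (T.h (P (nat_lit 0)) (P (nat_lit 3306608714785488896)))))) (T.h (T.h (P (nat_lit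 0)) (T.h (T.h (P (nat_lit 0)) (T.h (M (nat_lit 277084263942109265919)) (T.h (P (nat_lit 0)) (M (nat_lit 9153391251947519))))) (T.h (P (nat_lit 0)) (T.h (T.h (P (nat_lit 0)) (M (nat_lit 362778432634879))) (P (nat_lit 0)))))) (T.h (T.h (T.h (M (nat_lit 9191093184583540020346879)) (T.h (P (nat_lit 0)) (M (nat_lit 28817230587324530687)))) (T.h (P (nat_lit 0)) (M (nat_lit 53377782175955419135)))) (T.h (T.h (P (nat_lit 0)) (T.h (T.h (P (nat_lit 0)) (M (nat_lit 4367046019317759))) (P (nat_lit 0)))) (M (nat_lit 383198541759119359)))))), (T.h (T.h (T.h (P (nat_lit 0)) (T.h (M (nat_lit 13494300077318474029615546367)) (T.h (P (nat_lit 0)) (T.h (P (nat_lit 9710245323347603750912)) (T.h (P (nat_lit 0)) (P (nat_lit 1502544164093952))))))) (T.h (P (nat_lit 0)) (T.h (T.h (P (nat_lit 0)) (T.h (P (nat_lit 4462743645001862873088)) (T.h (P (nat_lit 0)) (M (nat_lit 16099269648121855))))) (T.h (P (nat_lit 0)) (T.h (T.h (P (nat_lit 0)) (P (nat_lit 9844603306639360))) (P (nat_lit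 0))))))) (T.h (T.h (P (nat_lit 0)) (T.h (T.h (M (nat_lit 55420927570633091692101631)) (T.h (P (nat_lit 0)) (M (nat_lit 33760611306836066303)))) (T.h (P (nat_lit 0)) (M (nat_lit 7002527048367341567))))) (T.h (T.h (T.h (P (nat_lit 0)) (T.h (P (nat_lit 35418053493556733018112)) (T.h (P (nat_lit 0)) (M (nat_lit 6493318058737663))))) (T.h (P (nat_lit 0)) (T.h (T.h (P (nat_lit 0)) (P (nat_lit 39102886798753792))) (P (nat_lit 0))))) (T.h (T.h (P (nat_lit 0)) (M (nat_lit 22287182588033368063))) (T.h (T.h (T.h (P (nat_lit 0)) (P (nat_lit 33272101035507712))) (P (nat_lit 0))) (P (nat_lit 0)))))))]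
def lP22_28 : List (T ℤ) := [(T.h (T.h (T.h (P (nat_lit 3244236457280320607051665375232)) (T.h (P (nat_lit 0)) (T.h (P (nat_lit 6534674494748007946256384)) (T.h (P (nat_lit 0)) (M (nat_lit 10736703854465777663)))))) (T.h (P (nat_lit 0)) (T.h (T.h (P (nat_lit 19516733952906192045998080)) (T.h (P (nat_lit 0)) (P (nat_lit 2559707932677636096)))) (T.h (P (nat_lit 0)) (M (nat_lit 328644521208315903)))))) (T.h (T.h (P (nat_lit 0)) (T.h (T.h (P (nat_lit 0)) (T.h (M (nat_lit 38735600842230921691135)) (T.h (P (nat_lit 0)) (P (nat_lit 22638479334113280))))) (T.h (P (nat_lit 0)) (T.h (T.h (P (nat_lit 0)) (P (nat_lit 54365174031581184))) (P (nat_lit 0)))))) (T.h (T.h (T.h (P (nat_lit 13981437182624500409171968)) (T.h (P (nat_lit 0)) (P (nat_lit 143668433415907049472)))) (T.h (P (nat_lit 0)) (P (nat_lit 41459238799126036480)))) (T.h (T.h (P (nat_lit 0)) (T.h (T.h (P (nat_lit 0)) (P (nat_lit 22169232746545152))) (P (nat_lit 0)))) (M (nat_lit 9130277567104811007)))))),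 (T.h (T.h (T.h (P (nat_lit 0)) (T.h (P (nat_lit 8024942193257158483648708608)) (T.h (P (nat_lit 0)) (M (nat_lit 27949133893466549387263))))) (T.h (P (nat_lit 0)) (T.h (T.h (P (nat_lit 0)) (P (nat_lit 255067371253272674304))) (P (nat_lit 0))))) (T.h (T.h (P (nat_lit 0)) (T.h (T.h (P (nat_lit 42997833021988943603695616)) (T.h (P (nat_lit 0)) (P (nat_lit 5356971479105798144)))) (T.h (P (nat_lit 0)) (M (nat_lit 22827126543832055807))))) (T.h (T.h (T.h (P (nat_lit 0)) (M (nat_lit 177640429114986890002431))) (P (nat_lit 0))) (T.h (T.h (P (nat_lit 0)) (M (nat_lit 19527971428370481151))) (P (nat_lit 0)))))), (T.h (T.h (P (nat_lit 0)) (T.h (T.h (P (nat_lit 0)) (T.h (P (nat_lit 9875282602521853746479104)) (T.h (P (nat_lit 0)) (M (nat_lit 1587128147822772223))))) (T.h (P (nat_lit 0)) (T.h (T.h (P (nat_lit 0)) (P (nat_lit 5803693326376894464))) (P (nat_lit 0)))))) (T.h (T.h (T.h (P (nat_lit 3740536491181234184028946432)) (T.h (P (nat_lit 0)) (T.h (M (nat_lit 9374060979553220689919))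 (T.h (P (nat_lit 0)) (P (nat_lit 651352187568128)))))) (T.h (P (nat_lit 0)) (T.h (T.h (M (nat_lit 1406929830933170225151)) (T.h (P (nat_lit 0)) (M (nat_lit 11137756148891647)))) (T.h (P (nat_lit 0)) (P (nat_lit 1768850240339968)))))) (T.h (T.h (P (nat_lit 0)) (T.h (T.h (P (nat_lit 0)) (P (nat_lit 6736718963717177344))) (P (nat_lit 0)))) (T.h (T.h (T.h (M (nat_lit 227177040830728765439)) (T.h (P (nat_lit 0)) (M (nat_lit 3020348864692223)))) (T.h (P (nat_lit 0)) (M (nat_lit 285597451747327)))) (T.h (P (nat_lit 0)) (P (nat_lit 632988086468608))))))), (T.h (T.h (P (nat_lit 0)) (T.h (T.h (M (nat_lit 10110931427917392107752390655)) (T.h (P (nat_lit 0)) (T.h (M (nat_lit 434863121499244462079)) (T.h (P (nat_lit 0)) (P (nat_lit 9953874026299392)))))) (T.h (P (nat_lit 0)) (T.h (T.h (P (nat_lit 8261101118955020353536)) (T.h (P (nat_lit 0)) (M (nat_lit 15861830619299839)))) (T.h (P (nat_lit 0)) (P (nat_lit 533129381019648))))))) (T.h (T.h (T.h (P (nat_lit 0)) (T.h (M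 (nat_lit 68482786979373198274985983)) (T.h (P (nat_lit 0)) (M (nat_lit 8796228712036040703))))) (T.h (P (nat_lit 0)) (T.h (T.h (P (nat_lit 0)) (M (nat_lit 41803659244434620415))) (P (nat_lit 0))))) (T.h (T.h (P (nat_lit 0)) (T.h (T.h (P (nat_lit 38438641801432209031168)) (T.h (P (nat_lit 0)) (P (nat_lit 47943131333328896)))) (T.h (P (nat_lit 0)) (M (nat_lit 2130561984954367))))) (T.h (T.h (T.h (P (nat_lit 0)) (M (nat_lit 8104107676780199935))) (P (nat_lit 0))) (T.h (T.h (P (nat_lit 0)) (P (nat_lit 24021546090364928))) (P (nat_lit 0))))))), (T.h (T.h (P (nat_lit 0)) (T.h (T.h (P (nat_lit 0)) (T.h (M (nat_lit 41315088959704011613667327)) (T.h (P (nat_lit 0)) (M (nat_lit 15394832777912254463))))) (T.h (P (nat_lit 0)) (T.h (T.h (P (nat_lit 0)) (M (nat_lit 12828767962521403391))) (P (nat_lit 0)))))) (T.h (T.h (T.h (P (nat_lit 48621219545383997186703884288)) (T.h (P (nat_lit 0)) (T.h (M (nat_lit 10144494165842351620095)) (T.h (P (nat_lit 0)) (P (nat_lit 9512507387019264))))))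 (T.h (P (nat_lit 0)) (T.h (T.h (M (nat_lit 16348626763866857013247)) (T.h (P (nat_lit 0)) (M (nat_lit 25988288970227711)))) (T.h (P (nat_lit 0)) (P (nat_lit 12107450128269312)))))) (T.h (T.h (P (nat_lit 0)) (T.h (T.h (P (nat_lit 0)) (P (nat_lit 5093460046679900160))) (P (nat_lit 0)))) (T.h (T.h (T.h (M (nat_lit 30123771730712355405823)) (T.h (P (nat_lit 0)) (P (nat_lit 19377706487906304)))) (T.h (P (nat_lit 0)) (P (nat_lit 9377507307749376)))) (T.h (P (nat_lit 0)) (P (nat_lit 12409553019076608))))))), (T.h (T.h (P (nat_lit 0)) (T.h (T.h (P (nat_lit 9031621092910988849334714368)) (T.h (P (nat_lit 0)) (M (nat_lit 61260651834352922001407)))) (T.h (P (nat_lit 0)) (M (nat_lit 34144686811494251233279))))) (T.h (T.h (T.h (P (nat_lit 0)) (T.h (P (nat_lit 100800329927209304991989760)) (T.h (P (nat_lit 0)) (M (nat_lit 35997419941505531903))))) (T.h (P (nat_lit 0)) (T.h (T.h (P (nat_lit 0)) (P (nat_lit 11233782431070814208))) (P (nat_lit 0))))) (T.h (T.h (P (nat_lit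 0)) (M (nat_lit 147957377833463116201983))) (T.h (T.h (T.h (P (nat_lit 0)) (M (nat_lit 34117049779509788671))) (P (nat_lit 0))) (P (nat_lit 0)))))), (T.h (T.h (T.h (P (nat_lit 0)) (T.h (M (nat_lit 895513046034761536558333951)) (T.h (P (nat_lit 0)) (T.h (P (nat_lit 8232267397385362079744)) (T.h (P (nat_lit 0)) (P (nat_lit 2099127109287936))))))) (T.h (P (nat_lit 0)) (T.h (T.h (P (nat_lit 0)) (T.h (M (nat_lit 2278615923996233826303)) (T.h (P (nat_lit 0)) (M (nat_lit 2953990688538623))))) (T.h (P (nat_lit 0)) (T.h (T.h (P (nat_lit 0)) (P (nat_lit 3126952219639808))) (P (nat_lit 0))))))) (T.h (T.h (P (nat_lit 0)) (T.h (T.h (P (nat_lit 13679483588558852806672384)) (T.h (P (nat_lit 0)) (P (nat_lit 32571348845645004800)))) (T.h (P (nat_lit 0)) (M (nat_lit 2937611177917677567))))) (T.h (T.h (T.h (P (nat_lit 0)) (T.h (M (nat_lit 2278615923996233826303)) (T.h (P (nat_lit 0)) (M (nat_lit 2953990688538623))))) (T.h (P (nat_lit 0)) (T.h (T.h (P (nat_lit 0)) (P (nat_lit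 12393691856896000))) (P (nat_lit 0))))) (T.h (T.h (P (nat_lit 0)) (M (nat_lit 2937611177917677567))) (T.h (T.h (T.h (P (nat_lit 0)) (P (nat_lit 3126952219639808))) (P (nat_lit 0))) (P (nat_lit 0))))))), (T.h (T.h (T.h (P (nat_lit 1103063056789797682621446094848)) (T.h (P (nat_lit 0)) (T.h (P (nat_lit 16761310900828117634383872)) (T.h (P (nat_lit 0)) (P (nat_lit 1685292276038762496)))))) (T.h (P (nat_lit 0)) (T.h (T.h (P (nat_lit 3779251442669933534642176)) (T.h (P (nat_lit 0)) (P (nat_lit 2488124734957420544)))) (T.h (P (nat_lit 0)) (M (nat_lit 8722767057218699263)))))) (T.h (T.h (P (nat_lit 0)) (T.h (T.h (P (nat_lit 0)) (T.h (M (nat_lit 36489858112758766108671)) (T.h (P (nat_lit 0)) (P (nat_lit 48655472220831744))))) (T.h (P (nat_lit 0)) (T.h (T.h (P (nat_lit 0)) (P (nat_lit 16928777523363840))) (P (nat_lit 0)))))) (T.h (T.h (T.h (P (nat_lit 3779251442669933534642176)) (T.h (P (nat_lit 0)) (P (nat_lit 2488124734957420544)))) (T.h (P (nat_lit 0)) (P (nat_lit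 104697319351738433536)))) (T.h (T.h (P (nat_lit 0)) (T.h (T.h (P (nat_lit 0)) (P (nat_lit 16928777523363840))) (P (nat_lit 0)))) (M (nat_lit 8722767057218699263))))))]
def lP22_29 : List (T ℤ) := [(T.h (T.h (T.h (P (nat_lit 0)) (T.h (P (nat_lit 3463890725648044259572449280)) (T.h (P (nat_lit 0)) (M (nat_lit 30411850701089265418239))))) (T.h (P (nat_lit 0)) (T.h (T.h (P (nat_lit 0)) (M (nat_lit 71073351666306629238783))) (P (nat_lit 0))))) (T.h (T.h (P (nat_lit 0)) (T.h (T.h (P (nat_lit 83834684631427891003916288)) (T.h (P (nat_lit 0)) (M (nat_lit 48643838893661093887)))) (T.h (P (nat_lit 0)) (M (nat_lit 30400729827017490431))))) (T.h (T.h (T.h (P (nat_lit 0)) (M (nat_lit 74242295785367124574207))) (P (nat_lit 0))) (T.h (T.h (P (nat_lit 0)) (M (nat_lit 27752676367647375359))) (P (nat_lit 0)))))), (T.h (T.h (P (nat_lit 0)) (T.h (T.h (P (nat_lit 0)) (T.h (P (nat_lit 3702461069826797472841728)) (T.h (P (nat_lit 0)) (P (nat_lit 8528179222198353920))))) (T.h (P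 (nat_lit 0)) (T.h (T.h (P (nat_lit 0)) (M (nat_lit 7039414567054606335))) (P (nat_lit 0)))))) (T.h (T.h (T.h (M (nat_lit 49201072690816064008665169919)) (T.h (P (nat_lit 0)) (T.h (P (nat_lit 8767017244252998467584)) (T.h (P (nat_lit 0)) (M (nat_lit 1225068611567615)))))) (T.h (P (nat_lit 0)) (T.h (T.h (M (nat_lit 8394835497245403512831)) (T.h (P (nat_lit 0)) (P (nat_lit 50248992988594176)))) (T.h (P (nat_lit 0)) (P (nat_lit 235744258031616)))))) (T.h (T.h (P (nat_lit 0)) (T.h (T.h (P (nat_lit 0)) (P (nat_lit 2978963579450949632))) (P (nat_lit 0)))) (T.h (T.h (T.h (M (nat_lit 954381245221055758335)) (T.h (P (nat_lit 0)) (P (nat_lit 472351797215232)))) (T.h (P (nat_lit 0)) (P (nat_lit 6882003918913536)))) (T.h (P (nat_lit 0)) (P (nat_lit 209098321821696))))))), (T.h (T.h (P (nat_lit 0)) (T.h (T.h (P (nat_lit 7305124718430585802427727872)) (T.h (P (nat_lit 0)) (M (nat_lit 5037294177271444144127)))) (T.h (P (nat_lit 0)) (M (nat_lit 20279155672975897788415)))))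 (T.h (T.h (T.h (P (nat_lit 0)) (T.h (P (nat_lit 19257407832285331475922944)) (T.h (P (nat_lit 0)) (M (nat_lit 11252355669518450687))))) (T.h (P (nat_lit 0)) (T.h (T.h (P (nat_lit 0)) (M (nat_lit 20217337298745819135))) (P (nat_lit 0))))) (T.h (T.h (P (nat_lit 0)) (M (nat_lit 96236064664401412620287))) (T.h (T.h (T.h (P (nat_lit 0)) (M (nat_lit 9833570716052619263))) (P (nat_lit 0))) (P (nat_lit 0)))))), (T.h (T.h (T.h (P (nat_lit 0)) (T.h (M (nat_lit 4847912892436371908541284351)) (T.h (P (nat_lit 0)) (M (nat_lit 3937142110085665783807))))) (T.h (P (nat_lit 0)) (T.h (T.h (P (nat_lit 0)) (M (nat_lit 7689282402489485754367))) (P (nat_lit 0))))) (T.h (T.h (P (nat_lit 0)) (T.h (T.h (P (nat_lit 6774779893922198139699200)) (T.h (P (nat_lit 0)) (M (nat_lit 34303312546880290815)))) (T.h (P (nat_lit 0)) (M (nat_lit 3330027300455448575))))) (T.h (T.h (T.h (P (nat_lit 0)) (M (nat_lit 4520338283428990418943))) (P (nat_lit 0))) (T.h (T.h (P (nat_lit 0)) (M (nat_lit 5978080759825563647)))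 (P (nat_lit 0)))))), (T.h (T.h (T.h (P (nat_lit 96674775480032858528316129280)) (T.h (P (nat_lit 0)) (T.h (M (nat_lit 817570893295480970674175)) (T.h (P (nat_lit 0)) (M (nat_lit 692532370447794175)))))) (T.h (P (nat_lit 0)) (T.h (T.h (M (nat_lit 817570893295480970674175)) (T.h (P (nat_lit 0)) (P (nat_lit 3310063201005076480)))) (T.h (P (nat_lit 0)) (M (nat_lit 692532370447794175)))))) (T.h (T.h (P (nat_lit 0)) (T.h (T.h (P (nat_lit 0)) (T.h (M (nat_lit 2618989352391739965439)) (T.h (P (nat_lit 0)) (M (nat_lit 129461949038591))))) (T.h (P (nat_lit 0)) (T.h (T.h (P (nat_lit 0)) (M (nat_lit 129461949038591))) (P (nat_lit 0)))))) (T.h (T.h (T.h (M (nat_lit 1539936402037090780446719)) (T.h (P (nat_lit 0)) (P (nat_lit 712178620038119424)))) (T.h (P (nat_lit 0)) (P (nat_lit 712178620038119424)))) (T.h (T.h (P (nat_lit 0)) (T.h (T.h (P (nat_lit 0)) (M (nat_lit 294768566599679))) (P (nat_lit 0)))) (M (nat_lit 86536408218468351)))))), (T.h (T.h (T.h (P (nat_lit 0))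 (T.h (P (nat_lit 47860890244336575236846649344)) (T.h (P (nat_lit 0)) (T.h (P (nat_lit 2173465681159660765184)) (T.h (P (nat_lit 0)) (P (nat_lit 702140510470144))))))) (T.h (P (nat_lit 0)) (T.h (T.h (P (nat_lit 0)) (T.h (M (nat_lit 3597032363270198001663)) (T.h (P (nat_lit 0)) (P (nat_lit 2158071953883136))))) (T.h (P (nat_lit 0)) (T.h (T.h (P (nat_lit 0)) (M (nat_lit 1267602620481535))) (P (nat_lit 0))))))) (T.h (T.h (P (nat_lit 0)) (T.h (T.h (M (nat_lit 4463515356901483409833983)) (T.h (P (nat_lit 0)) (M (nat_lit 11848340227800170495)))) (T.h (P (nat_lit 0)) (M (nat_lit 1482488571502788607))))) (T.h (T.h (T.h (P (nat_lit 0)) (T.h (M (nat_lit 784194477009793974271)) (T.h (P (nat_lit 0)) (M (nat_lit 7943289692454911))))) (T.h (P (nat_lit 0)) (T.h (T.h (P (nat_lit 0)) (P (nat_lit 13145120237748224))) (P (nat_lit 0))))) (T.h (T.h (P (nat_lit 0)) (P (nat_lit 7605483484118777856))) (T.h (T.h (T.h (P (nat_lit 0)) (P (nat_lit 6043173838946304))) (P (nat_lit 0)))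 (P (nat_lit 0))))))), (T.h (T.h (T.h (P (nat_lit 4763909934177018604741279612928)) (T.h (P (nat_lit 0)) (T.h (P (nat_lit 5161296156630041164251136)) (T.h (P (nat_lit 0)) (P (nat_lit 5284927029345517568)))))) (T.h (P (nat_lit 0)) (T.h (T.h (P (nat_lit 527913047198678619521024)) (T.h (P (nat_lit 0)) (M (nat_lit 10721966297026920447)))) (T.h (P (nat_lit 0)) (M (nat_lit 269338501797904383)))))) (T.h (T.h (P (nat_lit 0)) (T.h (T.h (P (nat_lit 0)) (T.h (P (nat_lit 49865106639535936110592)) (T.h (P (nat_lit 0)) (P (nat_lit 3431794116395008))))) (T.h (P (nat_lit 0)) (T.h (T.h (P (nat_lit 0)) (P (nat_lit 14212069352800256))) (P (nat_lit 0)))))) (T.h (T.h (T.h (M (nat_lit 1962385428806601577332735)) (T.h (P (nat_lit 0)) (P (nat_lit 8575825826765864960)))) (T.h (P (nat_lit 0)) (P (nat_lit 8183677018831847424)))) (T.h (T.h (P (nat_lit 0)) (T.h (T.h (P (nat_lit 0)) (P (nat_lit 21157774929887232))) (P (nat_lit 0)))) (P (nat_lit 1827304169170534400)))))), (T.h (T.h (T.h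 (P (nat_lit 0)) (T.h (M (nat_lit 96839770371705049578404315135)) (T.h (P (nat_lit 0)) (T.h (M (nat_lit 1827911911701347303423)) (T.h (P (nat_lit 0)) (M (nat_lit 43442143494143))))))) (T.h (P (nat_lit 0)) (T.h (T.h (P (nat_lit 0)) (T.h (P (nat_lit 10503782334715691794432)) (T.h (P (nat_lit 0)) (M (nat_lit 227057283956735))))) (T.h (P (nat_lit 0)) (T.h (T.h (P (nat_lit 0)) (M (nat_lit 909620825161727))) (P (nat_lit 0))))))) (T.h (T.h (P (nat_lit 0)) (T.h (T.h (P (nat_lit 8594163731851504399679488)) (T.h (P (nat_lit 0)) (P (nat_lit 9299264060925149184)))) (T.h (P (nat_lit 0)) (P (nat_lit 11081014776229265408))))) (T.h (T.h (T.h (P (nat_lit 0)) (T.h (M (nat_lit 4175877197631244468223)) (T.h (P (nat_lit 0)) (P (nat_lit 8574329875464192))))) (T.h (P (nat_lit 0)) (T.h (T.h (P (nat_lit 0)) (P (nat_lit 48080726854533120))) (P (nat_lit 0))))) (T.h (T.h (P (nat_lit 0)) (M (nat_lit 10910365184769916927))) (T.h (T.h (T.h (P (nat_lit 0)) (M (nat_lit 5428004155490303)))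 (P (nat_lit 0))) (P (nat_lit 0)))))))]
def lP22_30 : List (T ℤ) := [(T.h (T.h (T.h (P (nat_lit 42447683449089660624773404688384)) (T.h (P (nat_lit 0)) (T.h (P (nat_lit 1048397985524561722998784)) (T.h (P (nat_lit 0)) (M (nat_lit 326317636306599935)))))) (T.h (P (nat_lit 0)) (T.h (T.h (M (nat_lit 2002053416925357523599359)) (T.h (P (nat_lit 0)) (M (nat_lit 16919149614668447743)))) (T.h (P (nat_lit 0)) (P (nat_lit 1294389595621818368)))))) (T.h (T.h (P (nat_lit 0)) (T.h (T.h (P (nat_lit 0)) (M (nat_lit 28488039123804405891071))) (P (nat_lit 0)))) (T.h (T.h (T.h (P (nat_lit 10338251075836970503503872)) (T.h (P (nat_lit 0)) (M (nat_lit 20339522515677216767)))) (T.h (P (nat_lit 0)) (M (nat_lit 31647683677410820095)))) (T.h (P (nat_lit 0)) (M (nat_lit 6431656650796433407)))))), (T.h (T.h (P (nat_lit 0)) (T.h (T.h (P (nat_lit 47416505117441395902631641088)) (T.h (P (nat_lit 0)) (T.h (P (nat_lit 123502182344811347968)) (T.h (P (nat_lit 0)) (P (nat_lit 636707047669760))))))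 (T.h (P (nat_lit 0)) (T.h (T.h (M (nat_lit 426404348199077675007)) (T.h (P (nat_lit 0)) (M (nat_lit 759253791539199)))) (T.h (P (nat_lit 0)) (M (nat_lit 197059579838463))))))) (T.h (T.h (T.h (P (nat_lit 0)) (T.h (M (nat_lit 5319889967147930443841535)) (T.h (P (nat_lit 0)) (M (nat_lit 3623182536559034367))))) (T.h (P (nat_lit 0)) (T.h (T.h (P (nat_lit 0)) (M (nat_lit 792260735148228607))) (P (nat_lit 0))))) (T.h (T.h (P (nat_lit 0)) (T.h (T.h (M (nat_lit 7653722122218524114943)) (T.h (P (nat_lit 0)) (M (nat_lit 8808587969626111)))) (T.h (P (nat_lit 0)) (P (nat_lit 4558637779353600))))) (T.h (T.h (T.h (P (nat_lit 0)) (P (nat_lit 136417751311843328))) (P (nat_lit 0))) (T.h (T.h (P (nat_lit 0)) (P (nat_lit 5284322988097536))) (P (nat_lit 0))))))), (T.h (T.h (P (nat_lit 0)) (T.h (T.h (P (nat_lit 0)) (T.h (M (nat_lit 60039266405509223094943743)) (T.h (P (nat_lit 0)) (P (nat_lit 309226259353698304))))) (T.h (P (nat_lit 0)) (T.h (T.h (P (nat_lit 0)) (P (nat_lit 309226259353698304)))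 (P (nat_lit 0)))))) (T.h (T.h (T.h (M (nat_lit 1932805922345647315882082303)) (T.h (P (nat_lit 0)) (T.h (P (nat_lit 17679488136000722436096)) (T.h (P (nat_lit 0)) (P (nat_lit 4390270459445248)))))) (T.h (P (nat_lit 0)) (T.h (T.h (P (nat_lit 17679488136000722436096)) (T.h (P (nat_lit 0)) (P (nat_lit 2683627399806976)))) (T.h (P (nat_lit 0)) (P (nat_lit 4390270459445248)))))) (T.h (T.h (P (nat_lit 0)) (T.h (T.h (P (nat_lit 0)) (P (nat_lit 15580325017345327104))) (P (nat_lit 0)))) (T.h (T.h (T.h (P (nat_lit 17669175649043166003200)) (T.h (P (nat_lit 0)) (M (nat_lit 5994255547105279)))) (T.h (P (nat_lit 0)) (M (nat_lit 5994255547105279)))) (T.h (P (nat_lit 0)) (P (nat_lit 5558297383403520))))))), (T.h (T.h (P (nat_lit 0)) (T.h (T.h (M (nat_lit 69128382668871709010465652735)) (T.h (P (nat_lit 0)) (T.h (M (nat_lit 1789300545487179350015)) (T.h (P (nat_lit 0)) (P (nat_lit 3049399808753664)))))) (T.h (P (nat_lit 0)) (T.h (T.h (M (nat_lit 7706511777734282182655))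 (T.h (P (nat_lit 0)) (M (nat_lit 6094065093181439)))) (T.h (P (nat_lit 0)) (M (nat_lit 2366426921041919))))))) (T.h (T.h (T.h (P (nat_lit 0)) (T.h (P (nat_lit 12026566681958410889461760)) (T.h (P (nat_lit 0)) (P (nat_lit 17501535282745311232))))) (T.h (P (nat_lit 0)) (T.h (T.h (P (nat_lit 0)) (M (nat_lit 53893178599770423295))) (P (nat_lit 0))))) (T.h (T.h (P (nat_lit 0)) (T.h (T.h (M (nat_lit 9982267763959653203967)) (T.h (P (nat_lit 0)) (M (nat_lit 48195185223991295)))) (T.h (P (nat_lit 0)) (P (nat_lit 19107640987484160))))) (T.h (T.h (T.h (P (nat_lit 0)) (P (nat_lit 21935728042520346624))) (P (nat_lit 0))) (T.h (T.h (P (nat_lit 0)) (M (nat_lit 7076811243847679))) (P (nat_lit 0))))))), (T.h (T.h (P (nat_lit 0)) (T.h (T.h (P (nat_lit 0)) (T.h (P (nat_lit 19727262634815770798850048)) (T.h (P (nat_lit 0)) (M (nat_lit 11735710379081203711))))) (T.h (P (nat_lit 0)) (T.h (T.h (P (nat_lit 0)) (M (nat_lit 13154495332547035135))) (P (nat_lit 0)))))) (T.h (T.h (T.h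 (P (nat_lit 2372337535630964966826180608)) (T.h (P (nat_lit 0)) (M (nat_lit 115260592914011747516415)))) (T.h (P (nat_lit 0)) (M (nat_lit 24061822426881779040255)))) (T.h (T.h (P (nat_lit 0)) (T.h (T.h (P (nat_lit 0)) (M (nat_lit 22623157418912120831))) (P (nat_lit 0)))) (M (nat_lit 42962532670977096024063))))), (T.h (T.h (T.h (M (nat_lit 338361714180115004849106452479)) (T.h (P (nat_lit 0)) (T.h (P (nat_lit 0)) (T.h (P (nat_lit 0)) (M (nat_lit 823250967452450815)))))) (T.h (P (nat_lit 0)) (T.h (T.h (P (nat_lit 4633383109431362544730112)) (T.h (P (nat_lit 0)) (M (nat_lit 8339903994616872959)))) (T.h (P (nat_lit 0)) (P (nat_lit 4731014563690971136)))))) (T.h (T.h (P (nat_lit 0)) (T.h (T.h (P (nat_lit 0)) (T.h (P (nat_lit 44631809005452154372096)) (T.h (P (nat_lit 0)) (P (nat_lit 14212069352800256))))) (T.h (P (nat_lit 0)) (T.h (T.h (P (nat_lit 0)) (P (nat_lit 3431794116395008))) (P (nat_lit 0)))))) (T.h (T.h (T.h (M (nat_lit 2603676508804139699929087)) (T.h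 (P (nat_lit 0)) (P (nat_lit 7190836746416816128)))) (T.h (P (nat_lit 0)) (P (nat_lit 7582985554350833664)))) (T.h (T.h (P (nat_lit 0)) (T.h (T.h (P (nat_lit 0)) (P (nat_lit 21157774929887232))) (P (nat_lit 0)))) (P (nat_lit 318229806879604736)))))), (T.h (T.h (T.h (P (nat_lit 0)) (T.h (M (nat_lit 21489684987982723440726507519)) (T.h (P (nat_lit 0)) (T.h (M (nat_lit 6832981111253990637567)) (T.h (P (nat_lit 0)) (M (nat_lit 2113886455726079))))))) (T.h (P (nat_lit 0)) (T.h (T.h (P (nat_lit 0)) (T.h (M (nat_lit 3526065635949872676863)) (T.h (P (nat_lit 0)) (M (nat_lit 5394656012009471))))) (T.h (P (nat_lit 0)) (T.h (T.h (P (nat_lit 0)) (P (nat_lit 2733952022347776))) (P (nat_lit 0))))))) (T.h (T.h (P (nat_lit 0)) (T.h (T.h (P (nat_lit 7134864019933703962624000)) (T.h (P (nat_lit 0)) (M (nat_lit 60213479081244622847)))) (T.h (P (nat_lit 0)) (P (nat_lit 14948699728714399744))))) (T.h (T.h (T.h (P (nat_lit 0)) (T.h (M (nat_lit 14201226063573812248575)) (T.h (P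 (nat_lit 0)) (P (nat_lit 17415315030933504))))) (T.h (P (nat_lit 0)) (T.h (T.h (P (nat_lit 0)) (M (nat_lit 46026919089930239))) (P (nat_lit 0))))) (T.h (T.h (P (nat_lit 0)) (P (nat_lit 25806678660235657216))) (T.h (T.h (T.h (P (nat_lit 0)) (M (nat_lit 1413062830325759))) (P (nat_lit 0))) (P (nat_lit 0))))))), (T.h (T.h (T.h (P (nat_lit 39761181631921477110199364878336)) (T.h (P (nat_lit 0)) (T.h (P (nat_lit 28988882242481228408160256)) (T.h (P (nat_lit 0)) (M (nat_lit 680098105051316223)))))) (T.h (P (nat_lit 0)) (T.h (T.h (P (nat_lit 28412110802602111325437952)) (T.h (P (nat_lit 0)) (P (nat_lit 20635119713553219584)))) (T.h (P (nat_lit 0)) (M (nat_lit 1027163322165755903)))))) (T.h (T.h (P (nat_lit 0)) (T.h (T.h (P (nat_lit 0)) (M (nat_lit 82692488483321730301951))) (P (nat_lit 0)))) (T.h (T.h (T.h (P (nat_lit 56700947185817893845598208)) (T.h (P (nat_lit 0)) (M (nat_lit 21225430812169601023)))) (T.h (P (nat_lit 0)) (M (nat_lit 13458270138289618943)))) (T.h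 (P (nat_lit 0)) (M (nat_lit 18281093468572876799))))))]
def lP22_31 : List (T ℤ) := [(T.h (T.h (P (nat_lit 0)) (T.h (T.h (M (nat_lit 49201072690816064008665169919)) (T.h (P (nat_lit 0)) (T.h (P (nat_lit 8767017244252998467584)) (T.h (P (nat_lit 0)) (M (nat_lit 1225068611567615)))))) (T.h (P (nat_lit 0)) (T.h (T.h (M (nat_lit 954381245221055758335)) (T.h (P (nat_lit 0)) (P (nat_lit 472351797215232)))) (T.h (P (nat_lit 0)) (P (nat_lit 209098321821696))))))) (T.h (T.h (T.h (P (nat_lit 0)) (T.h (P (nat_lit 3702461069826797472841728)) (T.h (P (nat_lit 0)) (P (nat_lit 8528179222198353920))))) (T.h (P (nat_lit 0)) (T.h (T.h (P (nat_lit 0)) (P (nat_lit 2978963579450949632))) (P (nat_lit 0))))) (T.h (T.h (P (nat_lit 0)) (T.h (T.h (M (nat_lit 8394835497245403512831)) (T.h (P (nat_lit 0)) (P (nat_lit 50248992988594176)))) (T.h (P (nat_lit 0)) (P (nat_lit 6882003918913536))))) (T.h (T.h (T.h (P (nat_lit 0)) (M (nat_lit 7039414567054606335))) (P (nat_lit 0))) (T.h (T.h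 (P (nat_lit 0)) (P (nat_lit 235744258031616))) (P (nat_lit 0))))))), (T.h (T.h (P (nat_lit 0)) (T.h (T.h (P (nat_lit 0)) (T.h (P (nat_lit 19257407832285331475922944)) (T.h (P (nat_lit 0)) (M (nat_lit 11252355669518450687))))) (T.h (P (nat_lit 0)) (T.h (T.h (P (nat_lit 0)) (M (nat_lit 9833570716052619263))) (P (nat_lit 0)))))) (T.h (T.h (T.h (P (nat_lit 7305124718430585802427727872)) (T.h (P (nat_lit 0)) (M (nat_lit 5037294177271444144127)))) (T.h (P (nat_lit 0)) (M (nat_lit 96236064664401412620287)))) (T.h (T.h (P (nat_lit 0)) (T.h (T.h (P (nat_lit 0)) (M (nat_lit 20217337298745819135))) (P (nat_lit 0)))) (M (nat_lit 20279155672975897788415))))), (T.h (T.h (T.h (P (nat_lit 27591110730411258944789057372160)) (T.h (P (nat_lit 0)) (T.h (M (nat_lit 2432566270557964294160383)) (T.h (P (nat_lit 0)) (P (nat_lit 836313505496825856)))))) (T.h (P (nat_lit 0)) (T.h (T.h (P (nat_lit 1194656571771072035160064)) (T.h (P (nat_lit 0)) (M (nat_lit 17635344513788542975))))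 (T.h (P (nat_lit 0)) (M (nat_lit 437328509317152767)))))) (T.h (T.h (P (nat_lit 0)) (T.h (T.h (P (nat_lit 0)) (M (nat_lit 18081353133715961675775))) (P (nat_lit 0)))) (T.h (T.h (T.h (P (nat_lit 1194656571771072035160064)) (T.h (P (nat_lit 0)) (M (nat_lit 17635344513788542975)))) (T.h (P (nat_lit 0)) (M (nat_lit 14094344025934921727)))) (T.h (P (nat_lit 0)) (M (nat_lit 437328509317152767)))))), (T.h (T.h (P (nat_lit 0)) (T.h (T.h (P (nat_lit 0)) (T.h (P (nat_lit 1072738038739656689844224)) (T.h (P (nat_lit 0)) (M (nat_lit 107204109748142079))))) (T.h (P (nat_lit 0)) (T.h (T.h (P (nat_lit 0)) (P (nat_lit 107204109748142080))) (P (nat_lit 0)))))) (T.h (T.h (T.h (P (nat_lit 1261515900548784767341953024)) (T.h (P (nat_lit 0)) (T.h (P (nat_lit 392193281945094848512)) (T.h (P (nat_lit 0)) (P (nat_lit 432490456875008)))))) (T.h (P (nat_lit 0)) (T.h (T.h (M (nat_lit 392193281945094848511)) (T.h (P (nat_lit 0)) (M (nat_lit 10794187433312255)))) (T.h (P (nat_lit 0))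 (M (nat_lit 432490456875007)))))) (T.h (P (nat_lit 0)) (T.h (T.h (T.h (P (nat_lit 0)) (T.h (P (nat_lit 0)) (M (nat_lit 1046618715029503)))) (T.h (P (nat_lit 0)) (P (nat_lit 1046618715029504)))) (P (nat_lit 0)))))), (T.h (T.h (P (nat_lit 0)) (T.h (T.h (M (nat_lit 3383368649401081921863155711)) (T.h (P (nat_lit 0)) (T.h (P (nat_lit 4897606766501107335168)) (T.h (P (nat_lit 0)) (M (nat_lit 109270719660031)))))) (T.h (P (nat_lit 0)) (T.h (T.h (P (nat_lit 1449144204392583397376)) (T.h (P (nat_lit 0)) (M (nat_lit 237439028822015)))) (T.h (P (nat_lit 0)) (P (nat_lit 969414783074304))))))) (T.h (T.h (T.h (P (nat_lit 0)) (T.h (P (nat_lit 13061859408740106582884352)) (T.h (P (nat_lit 0)) (P (nat_lit 1793701663668699136))))) (T.h (P (nat_lit 0)) (T.h (T.h (P (nat_lit 0)) (P (nat_lit 8043047937598554112))) (P (nat_lit 0))))) (T.h (T.h (P (nat_lit 0)) (T.h (T.h (M (nat_lit 3020588307875476013055)) (T.h (P (nat_lit 0)) (M (nat_lit 8840244534575103)))) (T.h (P (nat_lit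 0)) (M (nat_lit 4362756073783295))))) (T.h (T.h (T.h (P (nat_lit 0)) (M (nat_lit 14183074911253168127))) (P (nat_lit 0))) (T.h (T.h (P (nat_lit 0)) (P (nat_lit 9250554945142784))) (P (nat_lit 0))))))), (T.h (T.h (P (nat_lit 0)) (T.h (T.h (P (nat_lit 0)) (T.h (M (nat_lit 14214393664577594665730047)) (T.h (P (nat_lit 0)) (M (nat_lit 876166944988856319))))) (T.h (P (nat_lit 0)) (T.h (T.h (P (nat_lit 0)) (M (nat_lit 3442231760379707391))) (P (nat_lit 0)))))) (T.h (T.h (T.h (M (nat_lit 4997460600525075059218317311)) (T.h (P (nat_lit 0)) (T.h (M (nat_lit 2434592390349984890879)) (T.h (P (nat_lit 0)) (P (nat_lit 937475159556096)))))) (T.h (P (nat_lit 0)) (T.h (T.h (P (nat_lit 3769540207674520502272)) (T.h (P (nat_lit 0)) (P (nat_lit 10794187433312256)))) (T.h (P (nat_lit 0)) (M (nat_lit 1657467581693951)))))) (T.h (T.h (P (nat_lit 0)) (T.h (T.h (P (nat_lit 0)) (P (nat_lit 698999029035433984))) (P (nat_lit 0)))) (T.h (T.h (T.h (M (nat_lit 6398304223384991432703))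 (T.h (P (nat_lit 0)) (P (nat_lit 4406481162338304)))) (T.h (P (nat_lit 0)) (P (nat_lit 14406680342495232)))) (T.h (P (nat_lit 0)) (P (nat_lit 4645051328102400))))))), (T.h (T.h (P (nat_lit 0)) (T.h (T.h (M (nat_lit 5319449090180741567671697407)) (T.h (P (nat_lit 0)) (M (nat_lit 4912016418612826865663)))) (T.h (P (nat_lit 0)) (M (nat_lit 3937142110085665783807))))) (T.h (T.h (T.h (P (nat_lit 0)) (T.h (P (nat_lit 8289399776776587109728256)) (T.h (P (nat_lit 0)) (M (nat_lit 7133375279497478143))))) (T.h (P (nat_lit 0)) (T.h (T.h (P (nat_lit 0)) (M (nat_lit 40191941487169110015))) (P (nat_lit 0))))) (T.h (T.h (P (nat_lit 0)) (M (nat_lit 14811040286701053280255))) (T.h (T.h (T.h (P (nat_lit 0)) (P (nat_lit 4402877200139812864))) (P (nat_lit 0))) (P (nat_lit 0)))))), (T.h (T.h (T.h (P (nat_lit 0)) (T.h (M (nat_lit 3383368649401081921863155711)) (T.h (P (nat_lit 0)) (T.h (P (nat_lit 1449144204392583397376)) (T.h (P (nat_lit 0)) (P (nat_lit 969414783074304)))))))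 (T.h (P (nat_lit 0)) (T.h (T.h (P (nat_lit 0)) (T.h (P (nat_lit 4897606766501107335168)) (T.h (P (nat_lit 0)) (M (nat_lit 237439028822015))))) (T.h (P (nat_lit 0)) (T.h (T.h (P (nat_lit 0)) (M (nat_lit 109270719660031))) (P (nat_lit 0))))))) (T.h (T.h (P (nat_lit 0)) (T.h (T.h (P (nat_lit 13061859408740106582884352)) (T.h (P (nat_lit 0)) (P (nat_lit 8043047937598554112)))) (T.h (P (nat_lit 0)) (P (nat_lit 1793701663668699136))))) (T.h (T.h (T.h (P (nat_lit 0)) (T.h (M (nat_lit 3020588307875476013055)) (T.h (P (nat_lit 0)) (M (nat_lit 4362756073783295))))) (T.h (P (nat_lit 0)) (T.h (T.h (P (nat_lit 0)) (M (nat_lit 8840244534575103))) (P (nat_lit 0))))) (T.h (T.h (P (nat_lit 0)) (M (nat_lit 14183074911253168127))) (T.h (T.h (T.h (P (nat_lit 0)) (P (nat_lit 9250554945142784))) (P (nat_lit 0))) (P (nat_lit 0)))))))]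
def lP22_32 : List (T ℤ) := [(T.h (T.h (T.h (P (nat_lit 2141173400490522924430219280384)) (T.h (P (nat_lit 0)) (T.h (P (nat_lit 2755423052078074411614208)) (T.h (P (nat_lit 0)) (M (nat_lit 2013936797247078399)))))) (T.h (P (nat_lit 0)) (T.h (T.h (P (nat_lit 2755423052078074411614208)) (T.h (P (nat_lit 0)) (P (nat_lit 71583197720215552)))) (T.h (P (nat_lit 0)) (M (nat_lit 2013936797247078399)))))) (T.h (T.h (P (nat_lit 0)) (T.h (T.h (P (nat_lit 0)) (T.h (M (nat_lit 2245742729472155582463)) (T.h (P (nat_lit 0)) (P (nat_lit 5709701810749440))))) (T.h (P (nat_lit 0)) (T.h (T.h (P (nat_lit 0)) (P (nat_lit 5709701810749440))) (P (nat_lit 0)))))) (T.h (T.h (T.h (P (nat_lit 10202185739954566874529792)) (T.h (P (nat_lit 0)) (P (nat_lit 38971114064168615936)))) (T.h (P (nat_lit 0)) (P (nat_lit 38971114064168615936)))) (T.h (T.h (P (nat_lit 0)) (T.h (T.h (P (nat_lit 0)) (P (nat_lit 5240455223181312))) (P (nat_lit 0)))) (M (nat_lit 407510509886111743)))))), (T.h (T.h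 (T.h (P (nat_lit 0)) (T.h (P (nat_lit 248281277082203022090567680)) (T.h (P (nat_lit 0)) (M (nat_lit 7669978220490651598847))))) (T.h (P (nat_lit 0)) (T.h (T.h (P (nat_lit 0)) (P (nat_lit 4900683413340880371712))) (P (nat_lit 0))))) (T.h (T.h (P (nat_lit 0)) (T.h (T.h (P (nat_lit 25255045072558001097801728)) (T.h (P (nat_lit 0)) (P (nat_lit 19685679837562798080)))) (T.h (P (nat_lit 0)) (M (nat_lit 12730065393985519615))))) (T.h (T.h (T.h (P (nat_lit 0)) (M (nat_lit 88526122334797044908031))) (P (nat_lit 0))) (T.h (T.h (P (nat_lit 0)) (M (nat_lit 1961496211722600447))) (P (nat_lit 0)))))), (T.h (T.h (P (nat_lit 0)) (T.h (T.h (P (nat_lit 0)) (T.h (M (nat_lit 13141655625837937975885823)) (T.h (P (nat_lit 0)) (M (nat_lit 3442231760379707391))))) (T.h (P (nat_lit 0)) (T.h (T.h (P (nat_lit 0)) (M (nat_lit 876166944988856319))) (P (nat_lit 0)))))) (T.h (T.h (T.h (M (nat_lit 3735944699976290291876364287)) (T.h (P (nat_lit 0)) (T.h (P (nat_lit 3769540207674520502272))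 (T.h (P (nat_lit 0)) (M (nat_lit 1657467581693951)))))) (T.h (P (nat_lit 0)) (T.h (M (nat_lit 2434592390349984890879)) (T.h (P (nat_lit 0)) (P (nat_lit 937475159556096)))))) (T.h (T.h (P (nat_lit 0)) (T.h (T.h (P (nat_lit 0)) (P (nat_lit 698999029035433984))) (P (nat_lit 0)))) (T.h (T.h (T.h (M (nat_lit 6398304223384991432703)) (T.h (P (nat_lit 0)) (P (nat_lit 14406680342495232)))) (T.h (P (nat_lit 0)) (P (nat_lit 4406481162338304)))) (T.h (P (nat_lit 0)) (P (nat_lit 4645051328102400))))))), (T.h (T.h (P (nat_lit 0)) (T.h (T.h (P (nat_lit 719817474826572681220980736)) (T.h (P (nat_lit 0)) (P (nat_lit 5292361548524716818432)))) (T.h (P (nat_lit 0)) (M (nat_lit 7669978220490651598847))))) (T.h (T.h (T.h (P (nat_lit 0)) (T.h (P (nat_lit 23740425189703612127772672)) (T.h (P (nat_lit 0)) (M (nat_lit 11574770874313605119))))) (T.h (P (nat_lit 0)) (T.h (T.h (P (nat_lit 0)) (P (nat_lit 25574308777851617280))) (P (nat_lit 0))))) (T.h (T.h (P (nat_lit 0)) (M (nat_lit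 81404364450585477382143))) (T.h (T.h (T.h (P (nat_lit 0)) (M (nat_lit 9694400712317861887))) (P (nat_lit 0))) (P (nat_lit 0)))))), (T.h (T.h (T.h (P (nat_lit 0)) (T.h (M (nat_lit 4847912892436371908541284351)) (T.h (P (nat_lit 0)) (M (nat_lit 3937142110085665783807))))) (T.h (P (nat_lit 0)) (T.h (T.h (P (nat_lit 0)) (M (nat_lit 4520338283428990418943))) (P (nat_lit 0))))) (T.h (T.h (P (nat_lit 0)) (T.h (T.h (P (nat_lit 6774779893922198139699200)) (T.h (P (nat_lit 0)) (M (nat_lit 34303312546880290815)))) (T.h (P (nat_lit 0)) (M (nat_lit 5978080759825563647))))) (T.h (T.h (T.h (P (nat_lit 0)) (M (nat_lit 7689282402489485754367))) (P (nat_lit 0))) (T.h (T.h (P (nat_lit 0)) (M (nat_lit 3330027300455448575))) (P (nat_lit 0)))))), (T.h (T.h (T.h (P (nat_lit 5102271648357133609590386065408)) (T.h (P (nat_lit 0)) (T.h (P (nat_lit 527913047198678619521024)) (T.h (P (nat_lit 0)) (P (nat_lit 553912465654546432)))))) (T.h (P (nat_lit 0)) (T.h (T.h (P (nat_lit 527913047198678619521024))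 (T.h (P (nat_lit 0)) (M (nat_lit 2382062302410047487)))) (T.h (P (nat_lit 0)) (P (nat_lit 553912465654546432)))))) (T.h (T.h (P (nat_lit 0)) (T.h (T.h (P (nat_lit 0)) (P (nat_lit 5233297634083781738496))) (P (nat_lit 0)))) (T.h (T.h (T.h (P (nat_lit 641291079997538122596352)) (T.h (P (nat_lit 0)) (P (nat_lit 992840272415031296)))) (T.h (P (nat_lit 0)) (P (nat_lit 992840272415031296)))) (T.h (P (nat_lit 0)) (P (nat_lit 1509074362290929664)))))), (T.h (T.h (T.h (P (nat_lit 0)) (T.h (M (nat_lit 47638697680888985569739145215)) (T.h (P (nat_lit 0)) (T.h (M (nat_lit 873530666480291545087)) (T.h (P (nat_lit 0)) (M (nat_lit 252540465315839))))))) (T.h (P (nat_lit 0)) (T.h (T.h (P (nat_lit 0)) (T.h (P (nat_lit 1736765090462693326848)) (T.h (P (nat_lit 0)) (M (nat_lit 699409081171967))))) (T.h (P (nat_lit 0)) (T.h (T.h (P (nat_lit 0)) (P (nat_lit 315447786405888))) (P (nat_lit 0))))))) (T.h (T.h (P (nat_lit 0)) (T.h (T.h (P (nat_lit 4891702662024706926837760)) (T.h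 (P (nat_lit 0)) (P (nat_lit 6320300481474199552)))) (T.h (P (nat_lit 0)) (P (nat_lit 2552835554030911488))))) (T.h (T.h (T.h (P (nat_lit 0)) (T.h (P (nat_lit 4218958299614159044608)) (T.h (P (nat_lit 0)) (P (nat_lit 1692325956550656))))) (T.h (P (nat_lit 0)) (T.h (T.h (P (nat_lit 0)) (M (nat_lit 2168266134061055))) (P (nat_lit 0))))) (T.h (T.h (P (nat_lit 0)) (M (nat_lit 3870950617715310591))) (T.h (T.h (T.h (P (nat_lit 0)) (M (nat_lit 5663748413521919))) (P (nat_lit 0))) (P (nat_lit 0))))))), (T.h (T.h (T.h (P (nat_lit 14856572718678401679984347316224)) (T.h (P (nat_lit 0)) (T.h (M (nat_lit 146258586246510312161279)) (T.h (P (nat_lit 0)) (P (nat_lit 111010873010552832)))))) (T.h (P (nat_lit 0)) (T.h (T.h (P (nat_lit 430512853632606770561024)) (T.h (P (nat_lit 0)) (M (nat_lit 2968221078117154815)))) (T.h (P (nat_lit 0)) (P (nat_lit 458076090124992512)))))) (T.h (T.h (P (nat_lit 0)) (T.h (T.h (P (nat_lit 0)) (M (nat_lit 10406685990088444215295))) (P (nat_lit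 0)))) (T.h (T.h (T.h (P (nat_lit 9143594504065898468343808)) (T.h (P (nat_lit 0)) (M (nat_lit 6245178489742295039)))) (T.h (P (nat_lit 0)) (M (nat_lit 14012339163622277119)))) (T.h (P (nat_lit 0)) (M (nat_lit 5994328141479280639))))))]
def lP22_33 : List (T ℤ) := [(T.h (T.h (P (nat_lit 0)) (T.h (T.h (M (nat_lit 47638697680888985569739145215)) (T.h (P (nat_lit 0)) (T.h (P (nat_lit 1736765090462693326848)) (T.h (P (nat_lit 0)) (P (nat_lit 315447786405888)))))) (T.h (P (nat_lit 0)) (T.h (T.h (M (nat_lit 873530666480291545087)) (T.h (P (nat_lit 0)) (M (nat_lit 699409081171967)))) (T.h (P (nat_lit 0)) (M (nat_lit 252540465315839))))))) (T.h (T.h (T.h (P (nat_lit 0)) (T.h (P (nat_lit 4891702662024706926837760)) (T.h (P (nat_lit 0)) (P (nat_lit 2552835554030911488))))) (T.h (P (nat_lit 0)) (T.h (T.h (P (nat_lit 0)) (P (nat_lit 6320300481474199552))) (P (nat_lit 0))))) (T.h (T.h (P (nat_lit 0)) (T.h (T.h (P (nat_lit 4218958299614159044608)) (T.h (P (nat_lit 0)) (M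 (nat_lit 2168266134061055)))) (T.h (P (nat_lit 0)) (P (nat_lit 1692325956550656))))) (T.h (T.h (T.h (P (nat_lit 0)) (M (nat_lit 3870950617715310591))) (P (nat_lit 0))) (T.h (T.h (P (nat_lit 0)) (M (nat_lit 5663748413521919))) (P (nat_lit 0))))))), (T.h (T.h (P (nat_lit 0)) (T.h (T.h (P (nat_lit 0)) (T.h (P (nat_lit 469854802530439322927104)) (T.h (P (nat_lit 0)) (M (nat_lit 1902139663028584447))))) (T.h (P (nat_lit 0)) (T.h (T.h (P (nat_lit 0)) (M (nat_lit 1902139663028584447))) (P (nat_lit 0)))))) (T.h (T.h (T.h (M (nat_lit 4932787182799620835601547263)) (T.h (P (nat_lit 0)) (M (nat_lit 19024528249610334896127)))) (T.h (P (nat_lit 0)) (M (nat_lit 19024528249610334896127)))) (T.h (T.h (P (nat_lit 0)) (T.h (T.h (P (nat_lit 0)) (M (nat_lit 2405820120166301695))) (P (nat_lit 0)))) (M (nat_lit 22683376998001198235647))))), (T.h (T.h (T.h (P (nat_lit 14856572718678401679984347316224)) (T.h (P (nat_lit 0)) (T.h (P (nat_lit 430512853632606770561024)) (T.h (P (nat_lit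 0)) (P (nat_lit 458076090124992512)))))) (T.h (P (nat_lit 0)) (T.h (T.h (M (nat_lit 146258586246510312161279)) (T.h (P (nat_lit 0)) (P (nat_lit 716194899120095232)))) (T.h (P (nat_lit 0)) (P (nat_lit 111010873010552832)))))) (T.h (T.h (P (nat_lit 0)) (T.h (T.h (P (nat_lit 0)) (M (nat_lit 10406685990088444215295))) (P (nat_lit 0)))) (T.h (T.h (T.h (P (nat_lit 9143594504065898468343808)) (T.h (P (nat_lit 0)) (M (nat_lit 14012339163622277119)))) (T.h (P (nat_lit 0)) (M (nat_lit 6245178489742295039)))) (T.h (P (nat_lit 0)) (M (nat_lit 5994328141479280639)))))), (T.h (T.h (P (nat_lit 0)) (T.h (T.h (P (nat_lit 0)) (M (nat_lit 1072738038739656689844223))) (P (nat_lit 0)))) (T.h (T.h (M (nat_lit 1261515900548784767341953023)) (T.h (P (nat_lit 0)) (T.h (T.h (P (nat_lit 0)) (T.h (P (nat_lit 0)) (P (nat_lit 10794187433312256)))) (P (nat_lit 0))))) (P (nat_lit 0)))), (T.h (T.h (P (nat_lit 0)) (T.h (T.h (M (nat_lit 471536197744369659130413055)) (T.h (P (nat_lit 0)) (M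 (nat_lit 391678135183836446719)))) (P (nat_lit 0)))) (T.h (T.h (T.h (P (nat_lit 0)) (T.h (P (nat_lit 1514619882854388970029056)) (T.h (P (nat_lit 0)) (M (nat_lit 1155294519671914495))))) (T.h (P (nat_lit 0)) (T.h (T.h (P (nat_lit 0)) (M (nat_lit 5888628940288819199))) (P (nat_lit 0))))) (T.h (T.h (P (nat_lit 0)) (M (nat_lit 7121757884211567525887))) (T.h (T.h (T.h (P (nat_lit 0)) (P (nat_lit 7732904500595261440))) (P (nat_lit 0))) (P (nat_lit 0)))))), (T.h (T.h (T.h (P (nat_lit 0)) (M (nat_lit 471536197744369659130413055))) (T.h (P (nat_lit 0)) (T.h (T.h (P (nat_lit 0)) (M (nat_lit 391678135183836446719))) (P (nat_lit 0))))) (T.h (T.h (P (nat_lit 0)) (T.h (T.h (P (nat_lit 1514619882854388970029056)) (T.h (P (nat_lit 0)) (M (nat_lit 5888628940288819199)))) (T.h (P (nat_lit 0)) (M (nat_lit 1155294519671914495))))) (T.h (T.h (T.h (P (nat_lit 0)) (M (nat_lit 7121757884211567525887))) (P (nat_lit 0))) (T.h (T.h (P (nat_lit 0)) (P (nat_lit 7732904500595261440)))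 (P (nat_lit 0)))))), (T.h (T.h (P (nat_lit 0)) (T.h (P (nat_lit 0)) (T.h (T.h (P (nat_lit 0)) (T.h (P (nat_lit 0)) (M (nat_lit 3684415977237250047)))) (P (nat_lit 0))))) (P (nat_lit 0)))]

def CP22 : List (T ℤ) := lP22_0 ++ (lP22_1 ++ (lP22_2 ++ (lP22_3 ++ (lP22_4 ++ (lP22_5 ++ (lP22_6 ++ (lP22_7 ++ (lP22_8 ++ (lP22_9 ++ (lP22_10 ++ (lP22_11 ++ (lP22_12 ++ (lP22_13 ++ (lP22_14 ++ (lP22_15 ++ (lP22_16 ++ (lP22_17 ++ (lP22_18 ++ (lP22_19 ++ (lP22_20 ++ (lP22_21 ++ (lP22_22 ++ (lP22_23 ++ (lP22_24 ++ (lP22_25 ++ (lP22_26 ++ (lP22_27 ++ (lP22_28 ++ (lP22_29 ++ (lP22_30 ++ (lP22_31 ++ (lP22_32 ++ (lP22_33)))))))))))))))))))))))))))))))))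

/-- norms at radius 1536 -/
def NP22 : List ℕ := [(nat_lit 0), (nat_lit 4410501400340933843783516160000), (nat_lit 0), (nat_lit 0), (nat_lit 56356923892648744447542462251008), (nat_lit 126084924547667951056836731338752), (nat_lit 66949566207736474402920136179712), (nat_lit 96756764800300696749791955124224), (nat_lit 20508482180713654728318221549568), (nat_lit 0), (nat_lit 0), (nat_lit 0), (nat_lit 253973338971515930342234366410752), (nat_lit 313535890192669421336471147642880), (nat_lit 406886827548466801158551425253376), (nat_lit 272666752691772492189520248176640), (nat_lit 113777423361434251459957899657216), (nat_lit 0), (nat_lit 0), (nat_lit 0), (nat_lit 604986961073511986915772091858944), (nat_lit 297169233312946886049928549761024), (nat_lit 672244685986872127586390603988992), (nat_lit 333090729632854373064723532873728), (nat_lit 228781657724013018077053130375168), (nat_lit 0), (nat_lit 0), (nat_lit 253973338971515930342234366410752), (nat_lit 297169233312946886049928549761024),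 (nat_lit 521893800353314774439932905652224), (nat_lit 759969030803285151357046515302400), (nat_lit 324697288678183930659515224031232), (nat_lit 0), (nat_lit 0), (nat_lit 56356923892648744447542462251008), (nat_lit 313535890192669421336471147642880), (nat_lit 672244685986872127586390603988992), (nat_lit 759969030803285151357046515302400), (nat_lit 388795196646809713370666756997120), (nat_lit 0), (nat_lit 0), (nat_lit 126084924547667951056836731338752), (nat_lit 406886827548466801158551425253376), (nat_lit 333090729632854373064723532873728), (nat_lit 324697288678183930659515224031232), (nat_lit 0), (nat_lit 0), (nat_lit 66949566207736474402920136179712), (nat_lit 272666752691772492189520248176640), (nat_lit 228781657724013018077053130375168), (nat_lit 0), (nat_lit 0), (nat_lit 96756764800300696749791955124224), (nat_lit 113777423361434251459957899657216), (nat_lit 0), (nat_lit 0), (nat_lit 20508482180713654728318221549568), (nat_lit 0), (nat_lit 0), (nat_lit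 0), (nat_lit 0), (nat_lit 0), (nat_lit 253973338971515930342234366410752), (nat_lit 491597501978707051550114561654784), (nat_lit 406886827548466801158551425253376), (nat_lit 272666752691772492189520248176640), (nat_lit 113777423361434251459957899657216), (nat_lit 0), (nat_lit 0), (nat_lit 731934159693721513838822270435328), (nat_lit 670967529599244142912988130574336), (nat_lit 674991791232888705592631507288064), (nat_lit 648724778099260479790210315452416), (nat_lit 263339394684755857721812775337984), (nat_lit 0), (nat_lit 0), (nat_lit 731934159693721513838822270435328), (nat_lit 1949540932878101846127509539651584), (nat_lit 1533451367586362907325026483044352), (nat_lit 1342936830739473204158153650864128), (nat_lit 659833631278547047872015064104960), (nat_lit 0), (nat_lit 0), (nat_lit 253973338971515930342234366410752), (nat_lit 853442261453793691436024296636416), (nat_lit 1533451367586362907325026483044352), (nat_lit 1613146622295302099958793582411776), (nat_lit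 727051591867252990889850166050816), (nat_lit 0), (nat_lit 0), (nat_lit 532217444262604577178794940432384), (nat_lit 674991791232888705592631507288064), (nat_lit 1342936830739473204158153650864128), (nat_lit 727051591867252990889850166050816), (nat_lit 0), (nat_lit 164623291717921094452527002288128), (nat_lit 406886827548466801158551425253376), (nat_lit 648724778099260479790210315452416), (nat_lit 659833631278547047872015064104960), (nat_lit 0), (nat_lit 0), (nat_lit 272666752691772492189520248176640), (nat_lit 263339394684755857721812775337984), (nat_lit 0), (nat_lit 0), (nat_lit 113777423361434251459957899657216), (nat_lit 0), (nat_lit 0), (nat_lit 0), (nat_lit 4410501400340933843783516160000), (nat_lit 0), (nat_lit 0), (nat_lit 661150535415200665646257921851392), (nat_lit 845062329929922185957725408591872), (nat_lit 729325076689333492162108520923136), (nat_lit 429847494433155069814515487997952), (nat_lit 241317060633945582116555731238912), (nat_lit 0),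 (nat_lit 0), (nat_lit 887837977364419747085108864090112), (nat_lit 904372657943955229941288388263936), (nat_lit 1591119003914437526662710772629504), (nat_lit 1458983279945485710061582405337088), (nat_lit 617681234007565723716454421889024), (nat_lit 0), (nat_lit 0), (nat_lit 1209973922147023973831544183717888), (nat_lit 872636338711874890321982593695744), (nat_lit 4211693345530640300234697500262400), (nat_lit 1321773199633431236868755366608896), (nat_lit 1027809622450953613275491586801664), (nat_lit 0), (nat_lit 253973338971515930342234366410752), (nat_lit 1210366191243789859681656706695168), (nat_lit 1611680070910321584719711227084800), (nat_lit 1023355677272357725102925206781952), (nat_lit 1434389616839466616499443492454400), (nat_lit 56356923892648744447542462251008), (nat_lit 532217444262604577178794940432384), (nat_lit 1326159598245085082573021233807360), (nat_lit 1142145666726918542385730063171584), (nat_lit 977733647161376447625188272504832), (nat_lit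 126084924547667951056836731338752), (nat_lit 406886827548466801158551425253376), (nat_lit 598829880125512640997469037002752), (nat_lit 664849920857613274984404549107712), (nat_lit 66949566207736474402920136179712), (nat_lit 272666752691772492189520248176640), (nat_lit 456183046258037848980342823714816), (nat_lit 96756764800300696749791955124224), (nat_lit 113777423361434251459957899657216), (nat_lit 20508482180713654728318221549568), (nat_lit 0), (nat_lit 0), (nat_lit 507946677943031860684468732821504), (nat_lit 1359985662611544676573043553730560), (nat_lit 739264115524485864994434164195328), (nat_lit 943903609661490433016496880877568), (nat_lit 401402999195787503058567158562816), (nat_lit 0), (nat_lit 0), (nat_lit 887837977364419747085108864090112), (nat_lit 2516730148513857020474855880916992), (nat_lit 2024957590852139162624954594230272), (nat_lit 2243109791050792370557351488389120), (nat_lit 975237464326448413404694988193792), (nat_lit 0), (nat_lit 731934159693721513838822270435328),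 (nat_lit 872636338711874890321982593695744), (nat_lit 3060599170435595227745021312630784), (nat_lit 1838716467830309790216748108087296), (nat_lit 1586414294133851657719434637737984), (nat_lit 253973338971515930342234366410752), (nat_lit 853442261453793691436024296636416), (nat_lit 1611680070910321584719711227084800), (nat_lit 3188770025903063781534282345873408), (nat_lit 1851636708434100211232817260003328), (nat_lit 313535890192669421336471147642880), (nat_lit 674991791232888705592631507288064), (nat_lit 1142145666726918542385730063171584), (nat_lit 1454103183734505981779700332101632), (nat_lit 406886827548466801158551425253376), (nat_lit 648724778099260479790210315452416), (nat_lit 664849920857613274984404549107712), (nat_lit 272666752691772492189520248176640), (nat_lit 263339394684755857721812775337984), (nat_lit 113777423361434251459957899657216), (nat_lit 0), (nat_lit 0), (nat_lit 661150535415200665646257921851392), (nat_lit 1359985662611544676573043553730560),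 (nat_lit 1159813223207166326828245083750400), (nat_lit 1037268522060615308639331793502208), (nat_lit 605646391322942296754685552361472), (nat_lit 0), (nat_lit 731934159693721513838822270435328), (nat_lit 904372657943955229941288388263936), (nat_lit 2024957590852139162624954594230272), (nat_lit 2453055057413167488804385537916928), (nat_lit 1125305513333051304442296205836288), (nat_lit 604986961073511986915772091858944), (nat_lit 1949540932878101846127509539651584), (nat_lit 4211693345530640300234697500262400), (nat_lit 1838716467830309790216748108087296), (nat_lit 1451506700410047749802325989916672), (nat_lit 297169233312946886049928549761024), (nat_lit 1533451367586362907325026483044352), (nat_lit 1023355677272357725102925206781952), (nat_lit 1851636708434100211232817260003328), (nat_lit 672244685986872127586390603988992), (nat_lit 1342936830739473204158153650864128), (nat_lit 977733647161376447625188272504832), (nat_lit 333090729632854373064723532873728),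 (nat_lit 659833631278547047872015064104960), (nat_lit 228781657724013018077053130375168), (nat_lit 0), (nat_lit 253973338971515930342234366410752), (nat_lit 845062329929922185957725408591872), (nat_lit 739264115524485864994434164195328), (nat_lit 1037268522060615308639331793502208), (nat_lit 649394577356367861319030448062464), (nat_lit 253973338971515930342234366410752), (nat_lit 670967529599244142912988130574336), (nat_lit 1591119003914437526662710772629504), (nat_lit 2243109791050792370557351488389120), (nat_lit 1125305513333051304442296205836288), (nat_lit 297169233312946886049928549761024), (nat_lit 1533451367586362907325026483044352), (nat_lit 1321773199633431236868755366608896), (nat_lit 1586414294133851657719434637737984), (nat_lit 521893800353314774439932905652224), (nat_lit 1613146622295302099958793582411776), (nat_lit 1434389616839466616499443492454400), (nat_lit 759969030803285151357046515302400), (nat_lit 727051591867252990889850166050816), (nat_lit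 324697288678183930659515224031232), (nat_lit 56356923892648744447542462251008), (nat_lit 491597501978707051550114561654784), (nat_lit 729325076689333492162108520923136), (nat_lit 943903609661490433016496880877568), (nat_lit 605646391322942296754685552361472), (nat_lit 313535890192669421336471147642880), (nat_lit 674991791232888705592631507288064), (nat_lit 1458983279945485710061582405337088), (nat_lit 975237464326448413404694988193792), (nat_lit 672244685986872127586390603988992), (nat_lit 1342936830739473204158153650864128), (nat_lit 1027809622450953613275491586801664), (nat_lit 759969030803285151357046515302400), (nat_lit 727051591867252990889850166050816), (nat_lit 388795196646809713370666756997120), (nat_lit 126084924547667951056836731338752), (nat_lit 406886827548466801158551425253376), (nat_lit 429847494433155069814515487997952), (nat_lit 401402999195787503058567158562816), (nat_lit 406886827548466801158551425253376), (nat_lit 648724778099260479790210315452416),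 (nat_lit 617681234007565723716454421889024), (nat_lit 333090729632854373064723532873728), (nat_lit 659833631278547047872015064104960), (nat_lit 324697288678183930659515224031232), (nat_lit 66949566207736474402920136179712), (nat_lit 272666752691772492189520248176640), (nat_lit 241317060633945582116555731238912), (nat_lit 272666752691772492189520248176640), (nat_lit 263339394684755857721812775337984), (nat_lit 228781657724013018077053130375168), (nat_lit 96756764800300696749791955124224), (nat_lit 113777423361434251459957899657216), (nat_lit 113777423361434251459957899657216), (nat_lit 20508482180713654728318221549568)]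


end Pool.Agent.TOPR.R6042
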