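import Pool.Agent.TOPR.R6042.Cert

set_option autoImplicit false
set_option linter.all false
set_option maxRecDepth 100000

namespace Pool.Agent.TOPR.R6042

open Helper10.PC hiding V3
open Helper80.CW.DL Pool.Agent.Helper6.TOP

def et0_0 : T ℤ := (T.h (T.h (P (nat_lit 0)) (T.h (T.h (T.h (P (nat_lit 0)) (T.h (T.h (P (nat_lit 0)) (T.h (P (nat_lit 8820198208)) (T.h (P (nat_lit 0)) (M (nat_lit 67038798435))))) (T.h (P (nat_lit 0)) (T.h (T.h (P (nat_lit 0)) (M (nat_lit 86684576735))) (P (nat_lit 0)))))) (T.h (T.h (T.h (M (nat_lit 623364047)) (T.h (P (nat_lit 0)) (T.h (M (nat_lit 7058730883)) (T.h (P (nat_lit 0)) (P (nat_lit 66068915416)))))) (T.h (P (nat_lit 0)) (T.h (T.h (M (nat_lit 27806806391)) (T.h (P (nat_lit 0)) (P (nat_lit 170201424076)))) (T.h (P (nat_lit 0)) (P (nat_lit 334271803008)))))) (T.h (T.h (P (nat_lit 0)) (T.h (T.h (P (nat_lit 0)) (P (nat_lit 10692407296))) (P (nat_lit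 0)))) (T.h (T.h (T.h (P (nat_lit 2686555984)) (T.h (P (nat_lit 0)) (M (nat_lit 37999682627)))) (T.h (P (nat_lit 0)) (M (nat_lit 248145962671)))) (T.h (P (nat_lit 0)) (P (nat_lit 52113440304))))))) (T.h (P (nat_lit 0)) (T.h (T.h (T.h (P (nat_lit 0)) (T.h (T.h (P (nat_lit 0)) (T.h (M (nat_lit 15453746447)) (T.h (P (nat_lit 0)) (P (nat_lit 73985938096))))) (T.h (P (nat_lit 0)) (T.h (T.h (P (nat_lit 0)) (P (nat_lit 73985938096))) (P (nat_lit 0)))))) (T.h (T.h (T.h (P (nat_lit 0)) (T.h (P (nat_lit 0)) (T.h (P (nat_lit 15901132604)) (T.h (P (nat_lit 0)) (M (nat_lit 190854017311)))))) (T.h (P (nat_lit 0)) (T.h (T.h (P (nat_lit 15901132604)) (T.h (P (nat_lit 0)) (M (nat_lit 756450918999)))) (T.h (P (nat_lit 0)) (M (nat_lit 190854017311)))))) (T.h (T.h (P (nat_lit 0)) (T.h (T.h (P (nat_lit 0)) (P (nat_lit 56507520608))) (P (nat_lit 0)))) (T.h (T.h (T.h (P (nat_lit 0)) (T.h (P (nat_lit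 0)) (P (nat_lit 180297283236)))) (T.h (P (nat_lit 0)) (P (nat_lit 180297283236)))) (T.h (P (nat_lit 0)) (M (nat_lit 128120551103))))))) (P (nat_lit 0)))))) (T.h (T.h (T.h (T.h (T.h (M (nat_lit 5117919)) (T.h (P (nat_lit 0)) (T.h (P (nat_lit 726148824)) (T.h (P (nat_lit 0)) (P (nat_lit 10319536484)))))) (T.h (P (nat_lit 0)) (T.h (T.h (P (nat_lit 1367738280)) (T.h (P (nat_lit 0)) (M (nat_lit 10612288415)))) (T.h (P (nat_lit 0)) (P (nat_lit 1289492968)))))) (T.h (T.h (P (nat_lit 0)) (T.h (T.h (P (nat_lit 0)) (T.h (P (nat_lit 9527827760)) (T.h (P (nat_lit 0)) (P (nat_lit 7901730288))))) (T.h (P (nat_lit 0)) (T.h (T.h (P (nat_lit 0)) (P (nat_lit 17991245520))) (P (nat_lit 0)))))) (T.h (T.h (T.h (P (nat_lit 726148824)) (T.h (P (nat_lit 0)) (M (nat_lit 49323785319)))) (T.h (P (nat_lit 0)) (M (nat_lit 10612288415)))) (T.h (T.h (P (nat_lit 0)) (T.h (T.h (P (nat_lit 0)) (P (nat_lit 7901730288)))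 (P (nat_lit 0)))) (P (nat_lit 10319536484)))))) (T.h (P (nat_lit 0)) (T.h (T.h (T.h (T.h (P (nat_lit 17912720)) (T.h (P (nat_lit 0)) (T.h (M (nat_lit 5606828555)) (T.h (P (nat_lit 0)) (M (nat_lit 59732740703)))))) (T.h (P (nat_lit 0)) (T.h (T.h (P (nat_lit 0)) (T.h (P (nat_lit 0)) (M (nat_lit 61125671459)))) (T.h (P (nat_lit 0)) (M (nat_lit 4513225387)))))) (T.h (T.h (P (nat_lit 0)) (T.h (T.h (P (nat_lit 0)) (T.h (M (nat_lit 162369575283)) (T.h (P (nat_lit 0)) (M (nat_lit 209460090111))))) (T.h (P (nat_lit 0)) (T.h (T.h (P (nat_lit 0)) (M (nat_lit 1291368098747))) (P (nat_lit 0)))))) (T.h (T.h (T.h (P (nat_lit 0)) (T.h (P (nat_lit 0)) (P (nat_lit 104262579876)))) (T.h (P (nat_lit 0)) (P (nat_lit 135411690372)))) (T.h (T.h (P (nat_lit 0)) (T.h (T.h (P (nat_lit 0)) (M (nat_lit 867435873583))) (P (nat_lit 0)))) (P (nat_lit 0)))))) (P (nat_lit 0))))) (T.h (T.h (P (nat_lit 0)) (T.h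 (T.h (T.h (P (nat_lit 0)) (T.h (T.h (P (nat_lit 0)) (T.h (M (nat_lit 11341454207)) (T.h (P (nat_lit 0)) (M (nat_lit 7856806439))))) (T.h (P (nat_lit 0)) (T.h (T.h (P (nat_lit 0)) (P (nat_lit 109293319548))) (P (nat_lit 0)))))) (T.h (T.h (T.h (P (nat_lit 733651128)) (T.h (P (nat_lit 0)) (T.h (M (nat_lit 520156839)) (T.h (P (nat_lit 0)) (P (nat_lit 6669355448)))))) (T.h (P (nat_lit 0)) (T.h (T.h (P (nat_lit 28493571036)) (T.h (P (nat_lit 0)) (P (nat_lit 539565706456)))) (T.h (P (nat_lit 0)) (M (nat_lit 564609066475)))))) (T.h (T.h (P (nat_lit 0)) (T.h (T.h (P (nat_lit 0)) (M (nat_lit 32122968975))) (P (nat_lit 0)))) (T.h (T.h (T.h (M (nat_lit 4555609995)) (T.h (P (nat_lit 0)) (P (nat_lit 14492128224)))) (T.h (P (nat_lit 0)) (P (nat_lit 266281498644)))) (T.h (P (nat_lit 0)) (M (nat_lit 59168382755))))))) (P (nat_lit 0)))) (T.h (T.h (T.h (T.h (T.h (P (nat_lit 0)) (T.h (P (nat_lit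 0)) (T.h (M (nat_lit 573209699)) (T.h (P (nat_lit 0)) (M (nat_lit 9158399571)))))) (T.h (P (nat_lit 0)) (M (nat_lit 1914833591)))) (T.h (T.h (P (nat_lit 0)) (T.h (T.h (P (nat_lit 0)) (M (nat_lit 13338958863))) (P (nat_lit 0)))) (T.h (T.h (T.h (M (nat_lit 573209699)) (T.h (P (nat_lit 0)) (P (nat_lit 69053299448)))) (P (nat_lit 0))) (T.h (P (nat_lit 0)) (M (nat_lit 9158399571)))))) (P (nat_lit 0))) (P (nat_lit 0))))))
def et0_1 : T ℤ := (T.h (T.h (P (nat_lit 0)) (T.h (P (nat_lit 0)) (T.h (P (nat_lit 0)) (T.h (P (nat_lit 0)) (T.h (T.h (T.h (T.h (M (nat_lit 5117919)) (T.h (P (nat_lit 0)) (T.h (P (nat_lit 1367738280)) (T.h (P (nat_lit 0)) (P (nat_lit 1289492968)))))) (T.h (P (nat_lit 0)) (T.h (T.h (P (nat_lit 726148824)) (T.h (P (nat_lit 0)) (M (nat_lit 10612288415)))) (T.h (P (nat_lit 0)) (P (nat_lit 10319536484)))))) (T.h (T.h (P (nat_lit 0)) (T.h (T.h (P (nat_lit 0)) (T.h (P (nat_lit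 9527827760)) (T.h (P (nat_lit 0)) (P (nat_lit 17991245520))))) (T.h (P (nat_lit 0)) (T.h (T.h (P (nat_lit 0)) (P (nat_lit 7901730288))) (P (nat_lit 0)))))) (T.h (T.h (T.h (P (nat_lit 726148824)) (T.h (P (nat_lit 0)) (M (nat_lit 10612288415)))) (T.h (P (nat_lit 0)) (M (nat_lit 49323785319)))) (T.h (T.h (P (nat_lit 0)) (T.h (T.h (P (nat_lit 0)) (P (nat_lit 7901730288))) (P (nat_lit 0)))) (P (nat_lit 10319536484)))))) (T.h (P (nat_lit 0)) (T.h (T.h (T.h (T.h (P (nat_lit 0)) (T.h (P (nat_lit 0)) (M (nat_lit 1914833591)))) (T.h (P (nat_lit 0)) (T.h (M (nat_lit 573209699)) (T.h (P (nat_lit 0)) (M (nat_lit 9158399571)))))) (T.h (T.h (P (nat_lit 0)) (T.h (T.h (P (nat_lit 0)) (M (nat_lit 13338958863))) (P (nat_lit 0)))) (T.h (T.h (M (nat_lit 573209699)) (T.h (P (nat_lit 0)) (P (nat_lit 69053299448)))) (T.h (P (nat_lit 0)) (M (nat_lit 9158399571)))))) (P (nat_lit 0))))))))) (T.h (T.h (P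 (nat_lit 0)) (T.h (P (nat_lit 0)) (T.h (P (nat_lit 0)) (T.h (T.h (T.h (P (nat_lit 0)) (T.h (T.h (P (nat_lit 0)) (T.h (P (nat_lit 8820198208)) (T.h (P (nat_lit 0)) (M (nat_lit 86684576735))))) (T.h (P (nat_lit 0)) (T.h (T.h (P (nat_lit 0)) (M (nat_lit 67038798435))) (P (nat_lit 0)))))) (T.h (T.h (T.h (M (nat_lit 623364047)) (T.h (P (nat_lit 0)) (T.h (M (nat_lit 27806806391)) (T.h (P (nat_lit 0)) (P (nat_lit 334271803008)))))) (T.h (P (nat_lit 0)) (T.h (T.h (M (nat_lit 7058730883)) (T.h (P (nat_lit 0)) (P (nat_lit 170201424076)))) (T.h (P (nat_lit 0)) (P (nat_lit 66068915416)))))) (T.h (T.h (P (nat_lit 0)) (T.h (T.h (P (nat_lit 0)) (P (nat_lit 10692407296))) (P (nat_lit 0)))) (T.h (T.h (T.h (P (nat_lit 2686555984)) (T.h (P (nat_lit 0)) (M (nat_lit 248145962671)))) (T.h (P (nat_lit 0)) (M (nat_lit 37999682627)))) (T.h (P (nat_lit 0)) (P (nat_lit 52113440304))))))) (T.h (P (nat_lit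 0)) (T.h (T.h (T.h (P (nat_lit 0)) (T.h (T.h (P (nat_lit 0)) (T.h (M (nat_lit 11341454207)) (T.h (P (nat_lit 0)) (P (nat_lit 109293319548))))) (T.h (P (nat_lit 0)) (T.h (T.h (P (nat_lit 0)) (M (nat_lit 7856806439))) (P (nat_lit 0)))))) (T.h (T.h (T.h (P (nat_lit 733651128)) (T.h (P (nat_lit 0)) (T.h (P (nat_lit 28493571036)) (T.h (P (nat_lit 0)) (M (nat_lit 564609066475)))))) (T.h (P (nat_lit 0)) (T.h (T.h (M (nat_lit 520156839)) (T.h (P (nat_lit 0)) (P (nat_lit 539565706456)))) (T.h (P (nat_lit 0)) (P (nat_lit 6669355448)))))) (T.h (T.h (P (nat_lit 0)) (T.h (T.h (P (nat_lit 0)) (M (nat_lit 32122968975))) (P (nat_lit 0)))) (T.h (T.h (T.h (M (nat_lit 4555609995)) (T.h (P (nat_lit 0)) (P (nat_lit 266281498644)))) (T.h (P (nat_lit 0)) (P (nat_lit 14492128224)))) (T.h (P (nat_lit 0)) (M (nat_lit 59168382755))))))) (P (nat_lit 0)))))))) (T.h (T.h (P (nat_lit 0)) (T.h (P (nat_lit 0))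 (T.h (T.h (T.h (T.h (P (nat_lit 24403704)) (T.h (P (nat_lit 0)) (T.h (P (nat_lit 1802195152)) (T.h (P (nat_lit 0)) (P (nat_lit 22745627132)))))) (T.h (P (nat_lit 0)) (T.h (T.h (P (nat_lit 1802195152)) (T.h (P (nat_lit 0)) (M (nat_lit 59466268215)))) (T.h (P (nat_lit 0)) (P (nat_lit 22745627132)))))) (T.h (T.h (P (nat_lit 0)) (T.h (T.h (P (nat_lit 0)) (T.h (P (nat_lit 139173921672)) (T.h (P (nat_lit 0)) (P (nat_lit 931851118684))))) (T.h (P (nat_lit 0)) (T.h (T.h (P (nat_lit 0)) (P (nat_lit 931851118684))) (P (nat_lit 0)))))) (T.h (T.h (T.h (P (nat_lit 0)) (T.h (P (nat_lit 0)) (M (nat_lit 44683962803)))) (T.h (P (nat_lit 0)) (M (nat_lit 44683962803)))) (T.h (T.h (P (nat_lit 0)) (T.h (T.h (P (nat_lit 0)) (P (nat_lit 875643301440))) (P (nat_lit 0)))) (P (nat_lit 0)))))) (T.h (P (nat_lit 0)) (T.h (T.h (T.h (T.h (P (nat_lit 17912720)) (T.h (P (nat_lit 0)) (T.h (P (nat_lit 0)) (T.h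 (P (nat_lit 0)) (M (nat_lit 4513225387)))))) (T.h (P (nat_lit 0)) (T.h (T.h (M (nat_lit 5606828555)) (T.h (P (nat_lit 0)) (M (nat_lit 61125671459)))) (T.h (P (nat_lit 0)) (M (nat_lit 59732740703)))))) (T.h (T.h (P (nat_lit 0)) (T.h (T.h (P (nat_lit 0)) (T.h (M (nat_lit 162369575283)) (T.h (P (nat_lit 0)) (M (nat_lit 1291368098747))))) (T.h (P (nat_lit 0)) (T.h (T.h (P (nat_lit 0)) (M (nat_lit 209460090111))) (P (nat_lit 0)))))) (T.h (T.h (T.h (P (nat_lit 0)) (T.h (P (nat_lit 0)) (P (nat_lit 135411690372)))) (T.h (P (nat_lit 0)) (P (nat_lit 104262579876)))) (T.h (T.h (P (nat_lit 0)) (T.h (T.h (P (nat_lit 0)) (M (nat_lit 867435873583))) (P (nat_lit 0)))) (P (nat_lit 0)))))) (P (nat_lit 0))))))) et0_0)))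
def et0_2 : T ℤ := (T.h (T.h (T.h (T.h (T.h (P (nat_lit 0)) (T.h (M (nat_lit 623364047)) (T.h (P (nat_lit 0)) (T.h (P (nat_lit 2686555984)) (T.h (P (nat_lit 0)) (P (nat_lit 52113440304))))))) (T.h (P (nat_lit 0)) (T.h (T.h (P (nat_lit 0)) (T.h (M (nat_lit 27806806391)) (T.h (P (nat_lit 0)) (M (nat_lit 248145962671))))) (T.h (P (nat_lit 0)) (T.h (T.h (P (nat_lit 0)) (P (nat_lit 334271803008))) (P (nat_lit 0))))))) (T.h (T.h (P (nat_lit 0)) (T.h (T.h (P (nat_lit 8820198208)) (T.h (P (nat_lit 0)) (P (nat_lit 10692407296)))) (T.h (P (nat_lit 0)) (M (nat_lit 86684576735))))) (T.h (T.h (T.h (P (nat_lit 0)) (T.h (M (nat_lit 7058730883)) (T.h (P (nat_lit 0)) (M (nat_lit 37999682627))))) (T.h (P (nat_lit 0)) (T.h (T.h (P (nat_lit 0)) (P (nat_lit 170201424076))) (P (nat_lit 0))))) (T.h (T.h (P (nat_lit 0)) (M (nat_lit 67038798435))) (T.h (T.h (T.h (P (nat_lit 0)) (P (nat_lit 66068915416)))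 (P (nat_lit 0))) (P (nat_lit 0))))))) (T.h (P (nat_lit 0)) (T.h (T.h (T.h (T.h (P (nat_lit 0)) (T.h (P (nat_lit 1130998680)) (T.h (P (nat_lit 0)) (T.h (P (nat_lit 16468132212)) (T.h (P (nat_lit 0)) (M (nat_lit 32539635071))))))) (T.h (P (nat_lit 0)) (T.h (T.h (P (nat_lit 0)) (T.h (P (nat_lit 156694673940)) (T.h (P (nat_lit 0)) (P (nat_lit 130039183652))))) (T.h (P (nat_lit 0)) (T.h (T.h (P (nat_lit 0)) (M (nat_lit 1466158818991))) (P (nat_lit 0))))))) (T.h (T.h (P (nat_lit 0)) (T.h (T.h (P (nat_lit 40196518348)) (T.h (P (nat_lit 0)) (P (nat_lit 110228431908)))) (T.h (P (nat_lit 0)) (P (nat_lit 241106030452))))) (T.h (T.h (T.h (P (nat_lit 0)) (T.h (P (nat_lit 1582022820)) (T.h (P (nat_lit 0)) (P (nat_lit 968129310260))))) (T.h (P (nat_lit 0)) (T.h (T.h (P (nat_lit 0)) (M (nat_lit 2926216512043))) (P (nat_lit 0))))) (T.h (T.h (P (nat_lit 0)) (P (nat_lit 206692386348))) (T.h (T.h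 (T.h (P (nat_lit 0)) (M (nat_lit 607536256487))) (P (nat_lit 0))) (P (nat_lit 0))))))) (P (nat_lit 0))))) (T.h (T.h (P (nat_lit 0)) (T.h (T.h (T.h (P (nat_lit 0)) (T.h (T.h (M (nat_lit 684593503)) (T.h (P (nat_lit 0)) (T.h (P (nat_lit 15204906612)) (T.h (P (nat_lit 0)) (M (nat_lit 267960843471)))))) (T.h (P (nat_lit 0)) (T.h (T.h (M (nat_lit 933043383)) (T.h (P (nat_lit 0)) (P (nat_lit 365860323920)))) (T.h (P (nat_lit 0)) (M (nat_lit 339251549279))))))) (T.h (T.h (T.h (P (nat_lit 0)) (T.h (P (nat_lit 49481956104)) (T.h (P (nat_lit 0)) (M (nat_lit 28776065611))))) (T.h (P (nat_lit 0)) (T.h (T.h (P (nat_lit 0)) (P (nat_lit 7056186760))) (P (nat_lit 0))))) (T.h (T.h (P (nat_lit 0)) (T.h (T.h (P (nat_lit 15204906612)) (T.h (P (nat_lit 0)) (M (nat_lit 163795617663)))) (T.h (P (nat_lit 0)) (P (nat_lit 365860323920))))) (T.h (T.h (T.h (P (nat_lit 0)) (M (nat_lit 28776065611))) (P (nat_lit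 0))) (T.h (T.h (P (nat_lit 0)) (M (nat_lit 267960843471))) (P (nat_lit 0))))))) (P (nat_lit 0)))) (T.h (T.h (T.h (T.h (T.h (P (nat_lit 0)) (T.h (P (nat_lit 733651128)) (T.h (P (nat_lit 0)) (T.h (M (nat_lit 4555609995)) (T.h (P (nat_lit 0)) (M (nat_lit 59168382755))))))) (T.h (P (nat_lit 0)) (T.h (T.h (P (nat_lit 0)) (T.h (P (nat_lit 28493571036)) (T.h (P (nat_lit 0)) (P (nat_lit 266281498644))))) (T.h (P (nat_lit 0)) (T.h (T.h (P (nat_lit 0)) (M (nat_lit 564609066475))) (P (nat_lit 0))))))) (T.h (T.h (P (nat_lit 0)) (T.h (T.h (M (nat_lit 11341454207)) (T.h (P (nat_lit 0)) (M (nat_lit 32122968975)))) (T.h (P (nat_lit 0)) (P (nat_lit 109293319548))))) (T.h (T.h (T.h (P (nat_lit 0)) (T.h (M (nat_lit 520156839)) (T.h (P (nat_lit 0)) (P (nat_lit 14492128224))))) (T.h (P (nat_lit 0)) (T.h (T.h (P (nat_lit 0)) (P (nat_lit 539565706456))) (P (nat_lit 0))))) (T.h (T.h (P (nat_lit 0)) (M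 (nat_lit 7856806439))) (T.h (T.h (T.h (P (nat_lit 0)) (P (nat_lit 6669355448))) (P (nat_lit 0))) (P (nat_lit 0))))))) (P (nat_lit 0))) (P (nat_lit 0)))))
def et0_3 : T ℤ := (T.h (T.h (P (nat_lit 0)) (T.h (P (nat_lit 0)) (T.h (T.h (T.h (T.h (P (nat_lit 0)) (T.h (P (nat_lit 0)) (T.h (P (nat_lit 0)) (T.h (P (nat_lit 0)) (T.h (P (nat_lit 0)) (P (nat_lit 58318050504))))))) (T.h (P (nat_lit 0)) (T.h (T.h (P (nat_lit 0)) (T.h (P (nat_lit 14636637848)) (T.h (P (nat_lit 0)) (M (nat_lit 1083134047143))))) (T.h (P (nat_lit 0)) (T.h (T.h (P (nat_lit 0)) (P (nat_lit 312694815376))) (P (nat_lit 0))))))) (T.h (T.h (P (nat_lit 0)) (T.h (T.h (M (nat_lit 57290391199)) (T.h (P (nat_lit 0)) (M (nat_lit 192800662775)))) (T.h (P (nat_lit 0)) (M (nat_lit 11847112391))))) (T.h (T.h (T.h (P (nat_lit 0)) (T.h (P (nat_lit 14636637848)) (T.h (P (nat_lit 0)) (M (nat_lit 1083134047143))))) (T.h (P (nat_lit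 0)) (T.h (T.h (P (nat_lit 0)) (P (nat_lit 503260189472))) (P (nat_lit 0))))) (T.h (T.h (P (nat_lit 0)) (M (nat_lit 11847112391))) (T.h (T.h (T.h (P (nat_lit 0)) (P (nat_lit 312694815376))) (P (nat_lit 0))) (P (nat_lit 0))))))) (T.h (P (nat_lit 0)) (T.h (T.h (T.h (T.h (P (nat_lit 0)) (T.h (M (nat_lit 684593503)) (T.h (P (nat_lit 0)) (T.h (M (nat_lit 933043383)) (T.h (P (nat_lit 0)) (M (nat_lit 339251549279))))))) (T.h (P (nat_lit 0)) (T.h (T.h (P (nat_lit 0)) (T.h (P (nat_lit 15204906612)) (T.h (P (nat_lit 0)) (P (nat_lit 365860323920))))) (T.h (P (nat_lit 0)) (T.h (T.h (P (nat_lit 0)) (M (nat_lit 267960843471))) (P (nat_lit 0))))))) (T.h (T.h (P (nat_lit 0)) (T.h (T.h (P (nat_lit 49481956104)) (T.h (P (nat_lit 0)) (P (nat_lit 7056186760)))) (T.h (P (nat_lit 0)) (M (nat_lit 28776065611))))) (T.h (T.h (T.h (P (nat_lit 0)) (T.h (P (nat_lit 15204906612)) (T.h (P (nat_lit 0)) (P (nat_lit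 365860323920))))) (T.h (P (nat_lit 0)) (T.h (T.h (P (nat_lit 0)) (M (nat_lit 163795617663))) (P (nat_lit 0))))) (T.h (T.h (P (nat_lit 0)) (M (nat_lit 28776065611))) (T.h (T.h (T.h (P (nat_lit 0)) (M (nat_lit 267960843471))) (P (nat_lit 0))) (P (nat_lit 0))))))) (P (nat_lit 0))))))) (T.h (T.h (P (nat_lit 0)) (T.h (T.h (T.h (P (nat_lit 0)) (T.h (T.h (P (nat_lit 0)) (T.h (P (nat_lit 0)) (T.h (P (nat_lit 14636637848)) (T.h (P (nat_lit 0)) (P (nat_lit 312694815376)))))) (T.h (P (nat_lit 0)) (T.h (T.h (P (nat_lit 0)) (T.h (P (nat_lit 0)) (M (nat_lit 1083134047143)))) (T.h (P (nat_lit 0)) (P (nat_lit 58318050504))))))) (T.h (T.h (T.h (P (nat_lit 0)) (T.h (M (nat_lit 57290391199)) (T.h (P (nat_lit 0)) (M (nat_lit 11847112391))))) (T.h (P (nat_lit 0)) (T.h (T.h (P (nat_lit 0)) (M (nat_lit 192800662775))) (P (nat_lit 0))))) (T.h (T.h (P (nat_lit 0)) (T.h (T.h (P (nat_lit 14636637848)) (T.h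 (P (nat_lit 0)) (P (nat_lit 503260189472)))) (T.h (P (nat_lit 0)) (M (nat_lit 1083134047143))))) (T.h (T.h (T.h (P (nat_lit 0)) (M (nat_lit 11847112391))) (P (nat_lit 0))) (T.h (T.h (P (nat_lit 0)) (P (nat_lit 312694815376))) (P (nat_lit 0))))))) (T.h (P (nat_lit 0)) (T.h (T.h (T.h (P (nat_lit 0)) (T.h (T.h (P (nat_lit 1130998680)) (T.h (P (nat_lit 0)) (T.h (P (nat_lit 156694673940)) (T.h (P (nat_lit 0)) (M (nat_lit 1466158818991)))))) (T.h (P (nat_lit 0)) (T.h (T.h (P (nat_lit 16468132212)) (T.h (P (nat_lit 0)) (P (nat_lit 130039183652)))) (T.h (P (nat_lit 0)) (M (nat_lit 32539635071))))))) (T.h (T.h (T.h (P (nat_lit 0)) (T.h (P (nat_lit 40196518348)) (T.h (P (nat_lit 0)) (P (nat_lit 241106030452))))) (T.h (P (nat_lit 0)) (T.h (T.h (P (nat_lit 0)) (P (nat_lit 110228431908))) (P (nat_lit 0))))) (T.h (T.h (P (nat_lit 0)) (T.h (T.h (P (nat_lit 1582022820)) (T.h (P (nat_lit 0)) (M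 (nat_lit 2926216512043)))) (T.h (P (nat_lit 0)) (P (nat_lit 968129310260))))) (T.h (T.h (T.h (P (nat_lit 0)) (P (nat_lit 206692386348))) (P (nat_lit 0))) (T.h (T.h (P (nat_lit 0)) (M (nat_lit 607536256487))) (P (nat_lit 0))))))) (P (nat_lit 0)))))) et0_2))
def et0_4 : T ℤ := (T.h (T.h (P (nat_lit 0)) (T.h (T.h (T.h (P (nat_lit 0)) (T.h (T.h (P (nat_lit 0)) (T.h (M (nat_lit 57290391199)) (T.h (P (nat_lit 0)) (M (nat_lit 11847112391))))) (T.h (P (nat_lit 0)) (T.h (T.h (P (nat_lit 0)) (M (nat_lit 11847112391))) (P (nat_lit 0)))))) (T.h (T.h (T.h (P (nat_lit 0)) (T.h (P (nat_lit 0)) (T.h (P (nat_lit 14636637848)) (T.h (P (nat_lit 0)) (P (nat_lit 312694815376)))))) (T.h (P (nat_lit 0)) (T.h (T.h (P (nat_lit 14636637848)) (T.h (P (nat_lit 0)) (P (nat_lit 503260189472)))) (T.h (P (nat_lit 0)) (P (nat_lit 312694815376)))))) (T.h (T.h (P (nat_lit 0)) (T.h (T.h (P (nat_lit 0)) (M (nat_lit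 192800662775))) (P (nat_lit 0)))) (T.h (T.h (T.h (P (nat_lit 0)) (T.h (P (nat_lit 0)) (M (nat_lit 1083134047143)))) (T.h (P (nat_lit 0)) (M (nat_lit 1083134047143)))) (T.h (P (nat_lit 0)) (P (nat_lit 58318050504))))))) (T.h (P (nat_lit 0)) (T.h (T.h (T.h (P (nat_lit 0)) (T.h (T.h (P (nat_lit 0)) (T.h (P (nat_lit 40196518348)) (T.h (P (nat_lit 0)) (P (nat_lit 241106030452))))) (T.h (P (nat_lit 0)) (T.h (T.h (P (nat_lit 0)) (P (nat_lit 206692386348))) (P (nat_lit 0)))))) (T.h (T.h (T.h (P (nat_lit 1130998680)) (T.h (P (nat_lit 0)) (T.h (P (nat_lit 156694673940)) (T.h (P (nat_lit 0)) (M (nat_lit 1466158818991)))))) (T.h (P (nat_lit 0)) (T.h (T.h (P (nat_lit 1582022820)) (T.h (P (nat_lit 0)) (M (nat_lit 2926216512043)))) (T.h (P (nat_lit 0)) (M (nat_lit 607536256487)))))) (T.h (T.h (P (nat_lit 0)) (T.h (T.h (P (nat_lit 0)) (P (nat_lit 110228431908))) (P (nat_lit 0)))) (T.h (T.h (T.h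 (P (nat_lit 16468132212)) (T.h (P (nat_lit 0)) (P (nat_lit 130039183652)))) (T.h (P (nat_lit 0)) (P (nat_lit 968129310260)))) (T.h (P (nat_lit 0)) (M (nat_lit 32539635071))))))) (P (nat_lit 0)))))) (T.h (T.h (T.h (T.h (P (nat_lit 24403704)) (T.h (P (nat_lit 0)) (T.h (T.h (P (nat_lit 1802195152)) (T.h (P (nat_lit 0)) (M (nat_lit 44683962803)))) (T.h (P (nat_lit 0)) (P (nat_lit 22745627132)))))) (T.h (T.h (P (nat_lit 0)) (T.h (T.h (P (nat_lit 0)) (T.h (P (nat_lit 139173921672)) (T.h (P (nat_lit 0)) (P (nat_lit 875643301440))))) (T.h (P (nat_lit 0)) (T.h (T.h (P (nat_lit 0)) (P (nat_lit 931851118684))) (P (nat_lit 0)))))) (T.h (T.h (T.h (P (nat_lit 1802195152)) (T.h (P (nat_lit 0)) (M (nat_lit 44683962803)))) (T.h (P (nat_lit 0)) (M (nat_lit 59466268215)))) (T.h (T.h (P (nat_lit 0)) (T.h (T.h (P (nat_lit 0)) (P (nat_lit 931851118684))) (P (nat_lit 0)))) (P (nat_lit 22745627132))))))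 (T.h (P (nat_lit 0)) (T.h (T.h (T.h (T.h (M (nat_lit 512477783)) (T.h (P (nat_lit 0)) (T.h (M (nat_lit 4891720399)) (T.h (P (nat_lit 0)) (M (nat_lit 118710880791)))))) (T.h (P (nat_lit 0)) (T.h (T.h (M (nat_lit 4891720399)) (T.h (P (nat_lit 0)) (P (nat_lit 416263877512)))) (T.h (P (nat_lit 0)) (M (nat_lit 118710880791)))))) (T.h (T.h (P (nat_lit 0)) (T.h (T.h (P (nat_lit 0)) (T.h (P (nat_lit 0)) (T.h (P (nat_lit 0)) (M (nat_lit 5675523225007))))) (T.h (P (nat_lit 0)) (T.h (T.h (P (nat_lit 0)) (M (nat_lit 5675523225007))) (P (nat_lit 0)))))) (T.h (T.h (T.h (M (nat_lit 4891720399)) (T.h (P (nat_lit 0)) (P (nat_lit 416263877512)))) (T.h (P (nat_lit 0)) (P (nat_lit 416263877512)))) (T.h (T.h (P (nat_lit 0)) (T.h (T.h (P (nat_lit 0)) (M (nat_lit 5675523225007))) (P (nat_lit 0)))) (M (nat_lit 118710880791)))))) (P (nat_lit 0))))) (T.h (T.h (P (nat_lit 0)) (T.h (T.h (T.h (P (nat_lit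 0)) (T.h (T.h (P (nat_lit 0)) (T.h (P (nat_lit 40196518348)) (T.h (P (nat_lit 0)) (P (nat_lit 206692386348))))) (T.h (P (nat_lit 0)) (T.h (T.h (P (nat_lit 0)) (P (nat_lit 241106030452))) (P (nat_lit 0)))))) (T.h (T.h (T.h (P (nat_lit 1130998680)) (T.h (P (nat_lit 0)) (T.h (P (nat_lit 1582022820)) (T.h (P (nat_lit 0)) (M (nat_lit 607536256487)))))) (T.h (P (nat_lit 0)) (T.h (T.h (P (nat_lit 156694673940)) (T.h (P (nat_lit 0)) (M (nat_lit 2926216512043)))) (T.h (P (nat_lit 0)) (M (nat_lit 1466158818991)))))) (T.h (T.h (P (nat_lit 0)) (T.h (T.h (P (nat_lit 0)) (P (nat_lit 110228431908))) (P (nat_lit 0)))) (T.h (T.h (T.h (P (nat_lit 16468132212)) (T.h (P (nat_lit 0)) (P (nat_lit 968129310260)))) (T.h (P (nat_lit 0)) (P (nat_lit 130039183652)))) (T.h (P (nat_lit 0)) (M (nat_lit 32539635071))))))) (P (nat_lit 0)))) (T.h (T.h (T.h (T.h (P (nat_lit 17912720)) (T.h (P (nat_lit 0)) (T.h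 (T.h (P (nat_lit 0)) (T.h (P (nat_lit 0)) (P (nat_lit 135411690372)))) (T.h (P (nat_lit 0)) (M (nat_lit 4513225387)))))) (T.h (T.h (P (nat_lit 0)) (T.h (T.h (P (nat_lit 0)) (T.h (M (nat_lit 162369575283)) (T.h (P (nat_lit 0)) (M (nat_lit 867435873583))))) (T.h (P (nat_lit 0)) (T.h (T.h (P (nat_lit 0)) (M (nat_lit 1291368098747))) (P (nat_lit 0)))))) (T.h (T.h (T.h (M (nat_lit 5606828555)) (T.h (P (nat_lit 0)) (P (nat_lit 104262579876)))) (T.h (P (nat_lit 0)) (M (nat_lit 61125671459)))) (T.h (T.h (P (nat_lit 0)) (T.h (T.h (P (nat_lit 0)) (M (nat_lit 209460090111))) (P (nat_lit 0)))) (M (nat_lit 59732740703)))))) (P (nat_lit 0))) (P (nat_lit 0))))))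
def et0_5 : T ℤ := (T.h (T.h (T.h (T.h (T.h (P (nat_lit 0)) (T.h (M (nat_lit 623364047)) (T.h (P (nat_lit 0)) (T.h (P (nat_lit 2686555984)) (T.h (P (nat_lit 0)) (P (nat_lit 52113440304))))))) (T.h (P (nat_lit 0)) (T.h (T.h (P (nat_lit 0)) (T.h (M (nat_lit 7058730883)) (T.h (P (nat_lit 0)) (M (nat_lit 37999682627))))) (T.h (P (nat_lit 0)) (T.h (T.h (P (nat_lit 0)) (P (nat_lit 66068915416))) (P (nat_lit 0))))))) (T.h (T.h (P (nat_lit 0)) (T.h (T.h (P (nat_lit 8820198208)) (T.h (P (nat_lit 0)) (P (nat_lit 10692407296)))) (T.h (P (nat_lit 0)) (M (nat_lit 67038798435))))) (T.h (T.h (T.h (P (nat_lit 0)) (T.h (M (nat_lit 27806806391)) (T.h (P (nat_lit 0)) (M (nat_lit 248145962671))))) (T.h (P (nat_lit 0)) (T.h (T.h (P (nat_lit 0)) (P (nat_lit 170201424076))) (P (nat_lit 0))))) (T.h (T.h (P (nat_lit 0)) (M (nat_lit 86684576735))) (T.h (T.h (T.h (P (nat_lit 0)) (P (nat_lit 334271803008)))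 (P (nat_lit 0))) (P (nat_lit 0))))))) (T.h (P (nat_lit 0)) (T.h (T.h (T.h (T.h (P (nat_lit 0)) (T.h (P (nat_lit 1130998680)) (T.h (P (nat_lit 0)) (T.h (P (nat_lit 16468132212)) (T.h (P (nat_lit 0)) (M (nat_lit 32539635071))))))) (T.h (P (nat_lit 0)) (T.h (T.h (P (nat_lit 0)) (T.h (P (nat_lit 1582022820)) (T.h (P (nat_lit 0)) (P (nat_lit 968129310260))))) (T.h (P (nat_lit 0)) (T.h (T.h (P (nat_lit 0)) (M (nat_lit 607536256487))) (P (nat_lit 0))))))) (T.h (T.h (P (nat_lit 0)) (T.h (T.h (P (nat_lit 40196518348)) (T.h (P (nat_lit 0)) (P (nat_lit 110228431908)))) (T.h (P (nat_lit 0)) (P (nat_lit 206692386348))))) (T.h (T.h (T.h (P (nat_lit 0)) (T.h (P (nat_lit 156694673940)) (T.h (P (nat_lit 0)) (P (nat_lit 130039183652))))) (T.h (P (nat_lit 0)) (T.h (T.h (P (nat_lit 0)) (M (nat_lit 2926216512043))) (P (nat_lit 0))))) (T.h (T.h (P (nat_lit 0)) (P (nat_lit 241106030452))) (T.h (T.h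 (T.h (P (nat_lit 0)) (M (nat_lit 1466158818991))) (P (nat_lit 0))) (P (nat_lit 0))))))) (P (nat_lit 0))))) (T.h (T.h (P (nat_lit 0)) (T.h (T.h (T.h (P (nat_lit 0)) (T.h (T.h (P (nat_lit 1130998680)) (T.h (P (nat_lit 0)) (T.h (P (nat_lit 1582022820)) (T.h (P (nat_lit 0)) (M (nat_lit 607536256487)))))) (T.h (P (nat_lit 0)) (T.h (T.h (P (nat_lit 16468132212)) (T.h (P (nat_lit 0)) (P (nat_lit 968129310260)))) (T.h (P (nat_lit 0)) (M (nat_lit 32539635071))))))) (T.h (T.h (T.h (P (nat_lit 0)) (T.h (P (nat_lit 40196518348)) (T.h (P (nat_lit 0)) (P (nat_lit 206692386348))))) (T.h (P (nat_lit 0)) (T.h (T.h (P (nat_lit 0)) (P (nat_lit 110228431908))) (P (nat_lit 0))))) (T.h (T.h (P (nat_lit 0)) (T.h (T.h (P (nat_lit 156694673940)) (T.h (P (nat_lit 0)) (M (nat_lit 2926216512043)))) (T.h (P (nat_lit 0)) (P (nat_lit 130039183652))))) (T.h (T.h (T.h (P (nat_lit 0)) (P (nat_lit 241106030452)))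 (P (nat_lit 0))) (T.h (T.h (P (nat_lit 0)) (M (nat_lit 1466158818991))) (P (nat_lit 0))))))) (P (nat_lit 0)))) (T.h (T.h (T.h (T.h (T.h (P (nat_lit 0)) (T.h (P (nat_lit 0)) (T.h (P (nat_lit 0)) (T.h (P (nat_lit 0)) (T.h (P (nat_lit 0)) (M (nat_lit 128120551103))))))) (T.h (P (nat_lit 0)) (T.h (T.h (P (nat_lit 0)) (T.h (P (nat_lit 15901132604)) (T.h (P (nat_lit 0)) (P (nat_lit 180297283236))))) (T.h (P (nat_lit 0)) (T.h (T.h (P (nat_lit 0)) (M (nat_lit 190854017311))) (P (nat_lit 0))))))) (T.h (T.h (P (nat_lit 0)) (T.h (T.h (M (nat_lit 15453746447)) (T.h (P (nat_lit 0)) (P (nat_lit 56507520608)))) (T.h (P (nat_lit 0)) (P (nat_lit 73985938096))))) (T.h (T.h (T.h (P (nat_lit 0)) (T.h (P (nat_lit 15901132604)) (T.h (P (nat_lit 0)) (P (nat_lit 180297283236))))) (T.h (P (nat_lit 0)) (T.h (T.h (P (nat_lit 0)) (M (nat_lit 756450918999))) (P (nat_lit 0))))) (T.h (T.h (P (nat_lit 0)) (P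 (nat_lit 73985938096))) (T.h (T.h (T.h (P (nat_lit 0)) (M (nat_lit 190854017311))) (P (nat_lit 0))) (P (nat_lit 0))))))) (P (nat_lit 0))) (P (nat_lit 0)))))
def et0_6 : T ℤ := (T.h (T.h (T.h (T.h (T.h (T.h (M (nat_lit 5117919)) (T.h (P (nat_lit 0)) (T.h (P (nat_lit 726148824)) (T.h (P (nat_lit 0)) (P (nat_lit 10319536484)))))) (T.h (P (nat_lit 0)) (T.h (T.h (P (nat_lit 726148824)) (T.h (P (nat_lit 0)) (M (nat_lit 49323785319)))) (T.h (P (nat_lit 0)) (P (nat_lit 10319536484)))))) (T.h (T.h (P (nat_lit 0)) (T.h (T.h (P (nat_lit 0)) (T.h (P (nat_lit 9527827760)) (T.h (P (nat_lit 0)) (P (nat_lit 7901730288))))) (T.h (P (nat_lit 0)) (T.h (T.h (P (nat_lit 0)) (P (nat_lit 7901730288))) (P (nat_lit 0)))))) (T.h (T.h (T.h (P (nat_lit 1367738280)) (T.h (P (nat_lit 0)) (M (nat_lit 10612288415)))) (T.h (P (nat_lit 0)) (M (nat_lit 10612288415)))) (T.h (T.h (P (nat_lit 0)) (T.h (T.h (P (nat_lit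 0)) (P (nat_lit 17991245520))) (P (nat_lit 0)))) (P (nat_lit 1289492968)))))) (T.h (P (nat_lit 0)) (T.h (T.h (T.h (T.h (P (nat_lit 17912720)) (T.h (P (nat_lit 0)) (T.h (M (nat_lit 5606828555)) (T.h (P (nat_lit 0)) (M (nat_lit 59732740703)))))) (T.h (P (nat_lit 0)) (T.h (T.h (P (nat_lit 0)) (T.h (P (nat_lit 0)) (P (nat_lit 104262579876)))) (P (nat_lit 0))))) (T.h (T.h (P (nat_lit 0)) (T.h (T.h (P (nat_lit 0)) (T.h (M (nat_lit 162369575283)) (T.h (P (nat_lit 0)) (M (nat_lit 209460090111))))) (T.h (P (nat_lit 0)) (T.h (T.h (P (nat_lit 0)) (M (nat_lit 867435873583))) (P (nat_lit 0)))))) (T.h (T.h (T.h (P (nat_lit 0)) (T.h (P (nat_lit 0)) (M (nat_lit 61125671459)))) (T.h (P (nat_lit 0)) (P (nat_lit 135411690372)))) (T.h (T.h (P (nat_lit 0)) (T.h (T.h (P (nat_lit 0)) (M (nat_lit 1291368098747))) (P (nat_lit 0)))) (M (nat_lit 4513225387)))))) (P (nat_lit 0))))) (T.h (T.h (P (nat_lit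 0)) (T.h (T.h (T.h (P (nat_lit 0)) (T.h (T.h (P (nat_lit 0)) (T.h (P (nat_lit 49481956104)) (T.h (P (nat_lit 0)) (M (nat_lit 28776065611))))) (T.h (P (nat_lit 0)) (T.h (T.h (P (nat_lit 0)) (M (nat_lit 28776065611))) (P (nat_lit 0)))))) (T.h (T.h (T.h (M (nat_lit 684593503)) (T.h (P (nat_lit 0)) (T.h (P (nat_lit 15204906612)) (T.h (P (nat_lit 0)) (M (nat_lit 267960843471)))))) (T.h (P (nat_lit 0)) (T.h (T.h (P (nat_lit 15204906612)) (T.h (P (nat_lit 0)) (M (nat_lit 163795617663)))) (T.h (P (nat_lit 0)) (M (nat_lit 267960843471)))))) (T.h (T.h (P (nat_lit 0)) (T.h (T.h (P (nat_lit 0)) (P (nat_lit 7056186760))) (P (nat_lit 0)))) (T.h (T.h (T.h (M (nat_lit 933043383)) (T.h (P (nat_lit 0)) (P (nat_lit 365860323920)))) (T.h (P (nat_lit 0)) (P (nat_lit 365860323920)))) (T.h (P (nat_lit 0)) (M (nat_lit 339251549279))))))) (P (nat_lit 0)))) (T.h (T.h (T.h (T.h (P (nat_lit 17912720)) (T.h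 (P (nat_lit 0)) (T.h (T.h (M (nat_lit 5606828555)) (T.h (P (nat_lit 0)) (P (nat_lit 104262579876)))) (T.h (P (nat_lit 0)) (M (nat_lit 59732740703)))))) (T.h (T.h (P (nat_lit 0)) (T.h (T.h (P (nat_lit 0)) (T.h (M (nat_lit 162369575283)) (T.h (P (nat_lit 0)) (M (nat_lit 867435873583))))) (T.h (P (nat_lit 0)) (T.h (T.h (P (nat_lit 0)) (M (nat_lit 209460090111))) (P (nat_lit 0)))))) (T.h (T.h (T.h (P (nat_lit 0)) (T.h (P (nat_lit 0)) (P (nat_lit 135411690372)))) (T.h (P (nat_lit 0)) (M (nat_lit 61125671459)))) (T.h (T.h (P (nat_lit 0)) (T.h (T.h (P (nat_lit 0)) (M (nat_lit 1291368098747))) (P (nat_lit 0)))) (M (nat_lit 4513225387)))))) (P (nat_lit 0))) (P (nat_lit 0))))) (T.h (T.h (T.h (P (nat_lit 0)) (T.h (T.h (T.h (P (nat_lit 0)) (T.h (T.h (P (nat_lit 733651128)) (T.h (P (nat_lit 0)) (T.h (M (nat_lit 520156839)) (T.h (P (nat_lit 0)) (P (nat_lit 6669355448)))))) (T.h (P (nat_lit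 0)) (T.h (T.h (M (nat_lit 4555609995)) (T.h (P (nat_lit 0)) (P (nat_lit 14492128224)))) (T.h (P (nat_lit 0)) (M (nat_lit 59168382755))))))) (T.h (T.h (T.h (P (nat_lit 0)) (T.h (M (nat_lit 11341454207)) (T.h (P (nat_lit 0)) (M (nat_lit 7856806439))))) (T.h (P (nat_lit 0)) (T.h (T.h (P (nat_lit 0)) (M (nat_lit 32122968975))) (P (nat_lit 0))))) (T.h (T.h (P (nat_lit 0)) (T.h (T.h (P (nat_lit 28493571036)) (T.h (P (nat_lit 0)) (P (nat_lit 539565706456)))) (T.h (P (nat_lit 0)) (P (nat_lit 266281498644))))) (T.h (T.h (T.h (P (nat_lit 0)) (P (nat_lit 109293319548))) (P (nat_lit 0))) (T.h (T.h (P (nat_lit 0)) (M (nat_lit 564609066475))) (P (nat_lit 0))))))) (P (nat_lit 0)))) (T.h (T.h (T.h (T.h (T.h (P (nat_lit 0)) (T.h (P (nat_lit 733651128)) (T.h (P (nat_lit 0)) (T.h (M (nat_lit 4555609995)) (T.h (P (nat_lit 0)) (M (nat_lit 59168382755))))))) (T.h (P (nat_lit 0)) (T.h (T.h (P (nat_lit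 0)) (T.h (M (nat_lit 520156839)) (T.h (P (nat_lit 0)) (P (nat_lit 14492128224))))) (T.h (P (nat_lit 0)) (T.h (T.h (P (nat_lit 0)) (P (nat_lit 6669355448))) (P (nat_lit 0))))))) (T.h (T.h (P (nat_lit 0)) (T.h (T.h (M (nat_lit 11341454207)) (T.h (P (nat_lit 0)) (M (nat_lit 32122968975)))) (T.h (P (nat_lit 0)) (M (nat_lit 7856806439))))) (T.h (T.h (T.h (P (nat_lit 0)) (T.h (P (nat_lit 28493571036)) (T.h (P (nat_lit 0)) (P (nat_lit 266281498644))))) (T.h (P (nat_lit 0)) (T.h (T.h (P (nat_lit 0)) (P (nat_lit 539565706456))) (P (nat_lit 0))))) (T.h (T.h (P (nat_lit 0)) (P (nat_lit 109293319548))) (T.h (T.h (T.h (P (nat_lit 0)) (M (nat_lit 564609066475))) (P (nat_lit 0))) (P (nat_lit 0))))))) (P (nat_lit 0))) (P (nat_lit 0)))) (T.h (T.h (T.h (T.h (T.h (T.h (P (nat_lit 0)) (T.h (P (nat_lit 0)) (T.h (M (nat_lit 573209699)) (T.h (P (nat_lit 0)) (M (nat_lit 9158399571)))))) (T.h (P (nat_lit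 0)) (T.h (T.h (M (nat_lit 573209699)) (T.h (P (nat_lit 0)) (P (nat_lit 69053299448)))) (T.h (P (nat_lit 0)) (M (nat_lit 9158399571)))))) (T.h (T.h (P (nat_lit 0)) (T.h (T.h (P (nat_lit 0)) (M (nat_lit 13338958863))) (P (nat_lit 0)))) (M (nat_lit 1914833591)))) (P (nat_lit 0))) (P (nat_lit 0))) (P (nat_lit 0)))))
def et0_7 : T ℤ := (T.h (T.h (T.h (P (nat_lit 0)) (T.h (P (nat_lit 0)) (T.h (P (nat_lit 0)) (T.h (T.h (T.h (P (nat_lit 0)) (T.h (T.h (M (nat_lit 623364047)) (T.h (P (nat_lit 0)) (T.h (M (nat_lit 27806806391)) (T.h (P (nat_lit 0)) (P (nat_lit 334271803008)))))) (T.h (P (nat_lit 0)) (T.h (T.h (P (nat_lit 2686555984)) (T.h (P (nat_lit 0)) (M (nat_lit 248145962671)))) (T.h (P (nat_lit 0)) (P (nat_lit 52113440304))))))) (T.h (T.h (T.h (P (nat_lit 0)) (T.h (P (nat_lit 8820198208)) (T.h (P (nat_lit 0)) (M (nat_lit 86684576735))))) (T.h (P (nat_lit 0)) (T.h (T.h (P (nat_lit 0))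 (P (nat_lit 10692407296))) (P (nat_lit 0))))) (T.h (T.h (P (nat_lit 0)) (T.h (T.h (M (nat_lit 7058730883)) (T.h (P (nat_lit 0)) (P (nat_lit 170201424076)))) (T.h (P (nat_lit 0)) (M (nat_lit 37999682627))))) (T.h (T.h (T.h (P (nat_lit 0)) (M (nat_lit 67038798435))) (P (nat_lit 0))) (T.h (T.h (P (nat_lit 0)) (P (nat_lit 66068915416))) (P (nat_lit 0))))))) (T.h (P (nat_lit 0)) (T.h (T.h (T.h (P (nat_lit 0)) (T.h (T.h (P (nat_lit 733651128)) (T.h (P (nat_lit 0)) (T.h (P (nat_lit 28493571036)) (T.h (P (nat_lit 0)) (M (nat_lit 564609066475)))))) (T.h (P (nat_lit 0)) (T.h (T.h (M (nat_lit 4555609995)) (T.h (P (nat_lit 0)) (P (nat_lit 266281498644)))) (T.h (P (nat_lit 0)) (M (nat_lit 59168382755))))))) (T.h (T.h (T.h (P (nat_lit 0)) (T.h (M (nat_lit 11341454207)) (T.h (P (nat_lit 0)) (P (nat_lit 109293319548))))) (T.h (P (nat_lit 0)) (T.h (T.h (P (nat_lit 0)) (M (nat_lit 32122968975)))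 (P (nat_lit 0))))) (T.h (T.h (P (nat_lit 0)) (T.h (T.h (M (nat_lit 520156839)) (T.h (P (nat_lit 0)) (P (nat_lit 539565706456)))) (T.h (P (nat_lit 0)) (P (nat_lit 14492128224))))) (T.h (T.h (T.h (P (nat_lit 0)) (M (nat_lit 7856806439))) (P (nat_lit 0))) (T.h (T.h (P (nat_lit 0)) (P (nat_lit 6669355448))) (P (nat_lit 0))))))) (P (nat_lit 0)))))))) et0_3) (T.h (T.h (T.h (P (nat_lit 0)) (T.h (P (nat_lit 0)) (T.h (T.h (T.h (T.h (P (nat_lit 24403704)) (T.h (P (nat_lit 0)) (T.h (P (nat_lit 1802195152)) (T.h (P (nat_lit 0)) (P (nat_lit 22745627132)))))) (T.h (P (nat_lit 0)) (T.h (T.h (P (nat_lit 0)) (T.h (P (nat_lit 0)) (M (nat_lit 44683962803)))) (P (nat_lit 0))))) (T.h (T.h (P (nat_lit 0)) (T.h (T.h (P (nat_lit 0)) (T.h (P (nat_lit 139173921672)) (T.h (P (nat_lit 0)) (P (nat_lit 931851118684))))) (T.h (P (nat_lit 0)) (T.h (T.h (P (nat_lit 0)) (P (nat_lit 875643301440))) (P (nat_lit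 0)))))) (T.h (T.h (T.h (P (nat_lit 1802195152)) (T.h (P (nat_lit 0)) (M (nat_lit 59466268215)))) (T.h (P (nat_lit 0)) (M (nat_lit 44683962803)))) (T.h (T.h (P (nat_lit 0)) (T.h (T.h (P (nat_lit 0)) (P (nat_lit 931851118684))) (P (nat_lit 0)))) (P (nat_lit 22745627132)))))) (T.h (P (nat_lit 0)) (T.h (T.h (T.h (T.h (P (nat_lit 17912720)) (T.h (P (nat_lit 0)) (T.h (P (nat_lit 0)) (T.h (P (nat_lit 0)) (M (nat_lit 4513225387)))))) (T.h (P (nat_lit 0)) (T.h (T.h (P (nat_lit 0)) (T.h (P (nat_lit 0)) (P (nat_lit 135411690372)))) (P (nat_lit 0))))) (T.h (T.h (P (nat_lit 0)) (T.h (T.h (P (nat_lit 0)) (T.h (M (nat_lit 162369575283)) (T.h (P (nat_lit 0)) (M (nat_lit 1291368098747))))) (T.h (P (nat_lit 0)) (T.h (T.h (P (nat_lit 0)) (M (nat_lit 867435873583))) (P (nat_lit 0)))))) (T.h (T.h (T.h (M (nat_lit 5606828555)) (T.h (P (nat_lit 0)) (M (nat_lit 61125671459)))) (T.h (P (nat_lit 0)) (P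 (nat_lit 104262579876)))) (T.h (T.h (P (nat_lit 0)) (T.h (T.h (P (nat_lit 0)) (M (nat_lit 209460090111))) (P (nat_lit 0)))) (M (nat_lit 59732740703)))))) (P (nat_lit 0))))))) et0_4) (T.h (T.h (T.h (P (nat_lit 0)) (T.h (T.h (T.h (P (nat_lit 0)) (T.h (T.h (M (nat_lit 623364047)) (T.h (P (nat_lit 0)) (T.h (M (nat_lit 7058730883)) (T.h (P (nat_lit 0)) (P (nat_lit 66068915416)))))) (T.h (P (nat_lit 0)) (T.h (T.h (P (nat_lit 2686555984)) (T.h (P (nat_lit 0)) (M (nat_lit 37999682627)))) (T.h (P (nat_lit 0)) (P (nat_lit 52113440304))))))) (T.h (T.h (T.h (P (nat_lit 0)) (T.h (P (nat_lit 8820198208)) (T.h (P (nat_lit 0)) (M (nat_lit 67038798435))))) (T.h (P (nat_lit 0)) (T.h (T.h (P (nat_lit 0)) (P (nat_lit 10692407296))) (P (nat_lit 0))))) (T.h (T.h (P (nat_lit 0)) (T.h (T.h (M (nat_lit 27806806391)) (T.h (P (nat_lit 0)) (P (nat_lit 170201424076)))) (T.h (P (nat_lit 0)) (M (nat_lit 248145962671)))))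 (T.h (T.h (T.h (P (nat_lit 0)) (M (nat_lit 86684576735))) (P (nat_lit 0))) (T.h (T.h (P (nat_lit 0)) (P (nat_lit 334271803008))) (P (nat_lit 0))))))) (T.h (P (nat_lit 0)) (T.h (T.h (T.h (P (nat_lit 0)) (T.h (T.h (P (nat_lit 0)) (T.h (P (nat_lit 0)) (T.h (P (nat_lit 15901132604)) (T.h (P (nat_lit 0)) (M (nat_lit 190854017311)))))) (T.h (P (nat_lit 0)) (T.h (T.h (P (nat_lit 0)) (T.h (P (nat_lit 0)) (P (nat_lit 180297283236)))) (T.h (P (nat_lit 0)) (M (nat_lit 128120551103))))))) (T.h (T.h (T.h (P (nat_lit 0)) (T.h (M (nat_lit 15453746447)) (T.h (P (nat_lit 0)) (P (nat_lit 73985938096))))) (T.h (P (nat_lit 0)) (T.h (T.h (P (nat_lit 0)) (P (nat_lit 56507520608))) (P (nat_lit 0))))) (T.h (T.h (P (nat_lit 0)) (T.h (T.h (P (nat_lit 15901132604)) (T.h (P (nat_lit 0)) (M (nat_lit 756450918999)))) (T.h (P (nat_lit 0)) (P (nat_lit 180297283236))))) (T.h (T.h (T.h (P (nat_lit 0)) (P (nat_lit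 73985938096))) (P (nat_lit 0))) (T.h (T.h (P (nat_lit 0)) (M (nat_lit 190854017311))) (P (nat_lit 0))))))) (P (nat_lit 0)))))) et0_5) et0_6)))

def t0 : T ℤ := (T.h et0_1 et0_7)

theorem h_t0 : chkT (c.G g0) t0 = true := by decide +kernel


end Pool.Agent.TOPR.R6042
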