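import Pool.Agent.TOPR.R6042.Cert

set_option autoImplicit false
set_option linter.all false
set_option maxRecDepth 100000

namespace Pool.Agent.TOPR.R6042

open Helper10.PC hiding V3
open Helper80.CW.DL Pool.Agent.Helper6.TOP

def et1_0 : T ℤ := (T.h (T.h (P (nat_lit 0)) (T.h (T.h (T.h (T.h (P (nat_lit 0)) (T.h (M (nat_lit 22119607655)) (T.h (P (nat_lit 0)) (T.h (M (nat_lit 12522183031)) (T.h (P (nat_lit 0)) (M (nat_lit 55363325331))))))) (T.h (P (nat_lit 0)) (T.h (T.h (P (nat_lit 0)) (T.h (M (nat_lit 19711784843)) (T.h (P (nat_lit 0)) (P (nat_lit 579404563324))))) (T.h (P (nat_lit 0)) (T.h (T.h (P (nat_lit 0)) (M (nat_lit 956972812611))) (P (nat_lit 0))))))) (T.h (T.h (P (nat_lit 0)) (T.h (T.h (P (nat_lit 6979114096)) (T.h (P (nat_lit 0)) (M (nat_lit 89980445939)))) (T.h (P (nat_lit 0)) (P (nat_lit 11817949084))))) (T.h (T.h (T.h (P (nat_lit 0)) (T.h (M (nat_lit 3843624651))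 (T.h (P (nat_lit 0)) (M (nat_lit 54242259935))))) (T.h (P (nat_lit 0)) (T.h (T.h (P (nat_lit 0)) (P (nat_lit 1553709328728))) (P (nat_lit 0))))) (T.h (T.h (P (nat_lit 0)) (M (nat_lit 10940108111))) (T.h (T.h (T.h (P (nat_lit 0)) (M (nat_lit 52597195063))) (P (nat_lit 0))) (P (nat_lit 0))))))) (T.h (P (nat_lit 0)) (T.h (T.h (T.h (T.h (P (nat_lit 0)) (T.h (P (nat_lit 20449257360)) (T.h (P (nat_lit 0)) (T.h (M (nat_lit 19389460383)) (T.h (P (nat_lit 0)) (M (nat_lit 29778813735))))))) (T.h (P (nat_lit 0)) (T.h (T.h (P (nat_lit 0)) (T.h (P (nat_lit 87878290360)) (T.h (P (nat_lit 0)) (M (nat_lit 980103097175))))) (T.h (P (nat_lit 0)) (T.h (T.h (P (nat_lit 0)) (M (nat_lit 33573604455))) (P (nat_lit 0))))))) (T.h (T.h (P (nat_lit 0)) (T.h (T.h (M (nat_lit 29434259063)) (T.h (P (nat_lit 0)) (M (nat_lit 460457056527)))) (T.h (P (nat_lit 0)) (M (nat_lit 97707975259))))) (T.h (T.h (T.h (P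 (nat_lit 0)) (T.h (M (nat_lit 30247740123)) (T.h (P (nat_lit 0)) (M (nat_lit 67270153411))))) (T.h (P (nat_lit 0)) (T.h (T.h (P (nat_lit 0)) (M (nat_lit 7156228656415))) (P (nat_lit 0))))) (T.h (T.h (P (nat_lit 0)) (M (nat_lit 380993022171))) (T.h (T.h (T.h (P (nat_lit 0)) (P (nat_lit 174468592956))) (P (nat_lit 0))) (P (nat_lit 0))))))) (P (nat_lit 0)))))) (T.h (T.h (T.h (T.h (P (nat_lit 0)) (T.h (T.h (P (nat_lit 0)) (T.h (P (nat_lit 0)) (T.h (M (nat_lit 592559127)) (T.h (P (nat_lit 0)) (M (nat_lit 14648283327)))))) (T.h (P (nat_lit 0)) (T.h (T.h (M (nat_lit 19862711919)) (T.h (P (nat_lit 0)) (P (nat_lit 307061251116)))) (T.h (P (nat_lit 0)) (P (nat_lit 189007622400))))))) (T.h (T.h (T.h (P (nat_lit 0)) (T.h (P (nat_lit 0)) (T.h (P (nat_lit 0)) (P (nat_lit 2865383632))))) (T.h (P (nat_lit 0)) (T.h (T.h (P (nat_lit 0)) (P (nat_lit 140037878296))) (P (nat_lit 0))))) (T.h (T.h (P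 (nat_lit 0)) (T.h (T.h (M (nat_lit 592559127)) (T.h (P (nat_lit 0)) (P (nat_lit 1317649833168)))) (T.h (P (nat_lit 0)) (P (nat_lit 307061251116))))) (T.h (T.h (T.h (P (nat_lit 0)) (P (nat_lit 2865383632))) (P (nat_lit 0))) (T.h (T.h (P (nat_lit 0)) (M (nat_lit 14648283327))) (P (nat_lit 0))))))) (T.h (P (nat_lit 0)) (T.h (T.h (T.h (P (nat_lit 0)) (T.h (T.h (P (nat_lit 0)) (T.h (P (nat_lit 0)) (T.h (M (nat_lit 3637304159)) (T.h (P (nat_lit 0)) (M (nat_lit 133510866635)))))) (T.h (P (nat_lit 0)) (T.h (T.h (P (nat_lit 69519491720)) (T.h (P (nat_lit 0)) (M (nat_lit 627550621263)))) (T.h (P (nat_lit 0)) (M (nat_lit 661526678399))))))) (T.h (T.h (P (nat_lit 0)) (T.h (P (nat_lit 0)) (T.h (T.h (P (nat_lit 0)) (M (nat_lit 490132574035))) (P (nat_lit 0))))) (T.h (T.h (P (nat_lit 0)) (T.h (P (nat_lit 7785218056)) (T.h (P (nat_lit 0)) (M (nat_lit 2051732633411))))) (T.h (T.h (T.h (P (nat_lit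 0)) (M (nat_lit 20057685423))) (P (nat_lit 0))) (T.h (T.h (P (nat_lit 0)) (P (nat_lit 236048849932))) (P (nat_lit 0))))))) (P (nat_lit 0))))) (T.h (T.h (P (nat_lit 0)) (T.h (T.h (T.h (T.h (P (nat_lit 0)) (T.h (P (nat_lit 22022011508)) (T.h (P (nat_lit 0)) (T.h (P (nat_lit 0)) (T.h (P (nat_lit 0)) (P (nat_lit 35965642440))))))) (T.h (P (nat_lit 0)) (T.h (T.h (P (nat_lit 0)) (T.h (P (nat_lit 18833537716)) (T.h (P (nat_lit 0)) (M (nat_lit 241013218095))))) (T.h (P (nat_lit 0)) (T.h (T.h (P (nat_lit 0)) (P (nat_lit 806604795220))) (P (nat_lit 0))))))) (T.h (T.h (P (nat_lit 0)) (T.h (T.h (M (nat_lit 2862947191)) (T.h (P (nat_lit 0)) (M (nat_lit 39897669139)))) (T.h (P (nat_lit 0)) (M (nat_lit 241815506351))))) (T.h (T.h (T.h (P (nat_lit 0)) (T.h (P (nat_lit 2921204272)) (T.h (P (nat_lit 0)) (P (nat_lit 99606599288))))) (T.h (P (nat_lit 0)) (T.h (T.h (P (nat_lit 0)) (P (nat_lit 308794411996)))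 (P (nat_lit 0))))) (T.h (P (nat_lit 0)) (T.h (T.h (T.h (P (nat_lit 0)) (M (nat_lit 44924611507))) (P (nat_lit 0))) (P (nat_lit 0))))))) (P (nat_lit 0)))) (T.h (T.h (T.h (P (nat_lit 0)) (T.h (P (nat_lit 0)) (T.h (T.h (P (nat_lit 0)) (T.h (T.h (P (nat_lit 0)) (T.h (P (nat_lit 0)) (M (nat_lit 1537258138695)))) (P (nat_lit 0)))) (P (nat_lit 0))))) (P (nat_lit 0))) (P (nat_lit 0))))))
def et1_1 : T ℤ := (T.h (T.h (P (nat_lit 0)) (T.h (P (nat_lit 0)) (T.h (P (nat_lit 0)) (T.h (T.h (T.h (T.h (P (nat_lit 0)) (T.h (M (nat_lit 8429336759)) (T.h (P (nat_lit 0)) (T.h (M (nat_lit 6163409947)) (T.h (P (nat_lit 0)) (P (nat_lit 102793751012))))))) (T.h (P (nat_lit 0)) (T.h (T.h (P (nat_lit 0)) (T.h (M (nat_lit 45266965603)) (T.h (P (nat_lit 0)) (P (nat_lit 770830061288))))) (T.h (P (nat_lit 0)) (T.h (T.h (P (nat_lit 0)) (P (nat_lit 244701476852))) (P (nat_lit 0))))))) (T.h (T.h (P (nat_lit 0))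 (T.h (T.h (M (nat_lit 5410940963)) (T.h (P (nat_lit 0)) (P (nat_lit 421084079500)))) (T.h (P (nat_lit 0)) (P (nat_lit 52188219152))))) (T.h (T.h (T.h (P (nat_lit 0)) (T.h (P (nat_lit 25913868220)) (T.h (P (nat_lit 0)) (P (nat_lit 236853066644))))) (T.h (P (nat_lit 0)) (T.h (T.h (P (nat_lit 0)) (P (nat_lit 830856280988))) (P (nat_lit 0))))) (T.h (T.h (P (nat_lit 0)) (P (nat_lit 179692885956))) (T.h (T.h (T.h (P (nat_lit 0)) (P (nat_lit 125446591852))) (P (nat_lit 0))) (P (nat_lit 0))))))) (T.h (P (nat_lit 0)) (T.h (T.h (T.h (T.h (P (nat_lit 0)) (T.h (P (nat_lit 0)) (T.h (P (nat_lit 0)) (T.h (P (nat_lit 69519491720)) (T.h (P (nat_lit 0)) (M (nat_lit 661526678399))))))) (T.h (P (nat_lit 0)) (T.h (T.h (P (nat_lit 0)) (T.h (M (nat_lit 3637304159)) (T.h (P (nat_lit 0)) (M (nat_lit 627550621263))))) (T.h (P (nat_lit 0)) (T.h (T.h (P (nat_lit 0)) (M (nat_lit 133510866635))) (P (nat_lit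 0))))))) (T.h (T.h (P (nat_lit 0)) (T.h (T.h (P (nat_lit 0)) (T.h (P (nat_lit 0)) (M (nat_lit 490132574035)))) (P (nat_lit 0)))) (T.h (T.h (T.h (P (nat_lit 0)) (T.h (P (nat_lit 7785218056)) (T.h (P (nat_lit 0)) (M (nat_lit 2051732633411))))) (P (nat_lit 0))) (T.h (T.h (P (nat_lit 0)) (M (nat_lit 20057685423))) (T.h (T.h (T.h (P (nat_lit 0)) (P (nat_lit 236048849932))) (P (nat_lit 0))) (P (nat_lit 0))))))) (P (nat_lit 0)))))))) (T.h (T.h (P (nat_lit 0)) (T.h (P (nat_lit 0)) (T.h (T.h (T.h (P (nat_lit 0)) (T.h (T.h (M (nat_lit 8429336759)) (T.h (P (nat_lit 0)) (T.h (M (nat_lit 45266965603)) (T.h (P (nat_lit 0)) (P (nat_lit 244701476852)))))) (T.h (P (nat_lit 0)) (T.h (T.h (M (nat_lit 6163409947)) (T.h (P (nat_lit 0)) (P (nat_lit 770830061288)))) (T.h (P (nat_lit 0)) (P (nat_lit 102793751012))))))) (T.h (T.h (T.h (P (nat_lit 0)) (T.h (M (nat_lit 5410940963)) (T.h (P (nat_lit 0))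 (P (nat_lit 52188219152))))) (T.h (P (nat_lit 0)) (T.h (T.h (P (nat_lit 0)) (P (nat_lit 421084079500))) (P (nat_lit 0))))) (T.h (T.h (P (nat_lit 0)) (T.h (T.h (P (nat_lit 25913868220)) (T.h (P (nat_lit 0)) (P (nat_lit 830856280988)))) (T.h (P (nat_lit 0)) (P (nat_lit 236853066644))))) (T.h (T.h (T.h (P (nat_lit 0)) (P (nat_lit 179692885956))) (P (nat_lit 0))) (T.h (T.h (P (nat_lit 0)) (P (nat_lit 125446591852))) (P (nat_lit 0))))))) (T.h (P (nat_lit 0)) (T.h (T.h (T.h (P (nat_lit 0)) (T.h (T.h (P (nat_lit 20449257360)) (T.h (P (nat_lit 0)) (T.h (P (nat_lit 87878290360)) (T.h (P (nat_lit 0)) (M (nat_lit 33573604455)))))) (T.h (P (nat_lit 0)) (T.h (T.h (M (nat_lit 19389460383)) (T.h (P (nat_lit 0)) (M (nat_lit 980103097175)))) (T.h (P (nat_lit 0)) (M (nat_lit 29778813735))))))) (T.h (T.h (T.h (P (nat_lit 0)) (T.h (M (nat_lit 29434259063)) (T.h (P (nat_lit 0)) (M (nat_lit 97707975259)))))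 (T.h (P (nat_lit 0)) (T.h (T.h (P (nat_lit 0)) (M (nat_lit 460457056527))) (P (nat_lit 0))))) (T.h (T.h (P (nat_lit 0)) (T.h (T.h (M (nat_lit 30247740123)) (T.h (P (nat_lit 0)) (M (nat_lit 7156228656415)))) (T.h (P (nat_lit 0)) (M (nat_lit 67270153411))))) (T.h (T.h (T.h (P (nat_lit 0)) (M (nat_lit 380993022171))) (P (nat_lit 0))) (T.h (T.h (P (nat_lit 0)) (P (nat_lit 174468592956))) (P (nat_lit 0))))))) (P (nat_lit 0))))))) et1_0))
def et1_2 : T ℤ := (T.h (T.h (P (nat_lit 0)) (T.h (T.h (T.h (T.h (P (nat_lit 1168704)) (T.h (P (nat_lit 0)) (T.h (P (nat_lit 5946593576)) (T.h (P (nat_lit 0)) (P (nat_lit 52553681776)))))) (T.h (P (nat_lit 0)) (T.h (T.h (P (nat_lit 0)) (T.h (P (nat_lit 0)) (P (nat_lit 816140970048)))) (T.h (P (nat_lit 0)) (P (nat_lit 332696436352)))))) (T.h (T.h (P (nat_lit 0)) (T.h (T.h (P (nat_lit 0)) (T.h (M (nat_lit 114877114079)) (T.h (P (nat_lit 0)) (P (nat_lit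 1560718262048))))) (T.h (P (nat_lit 0)) (T.h (T.h (P (nat_lit 0)) (P (nat_lit 432205828512))) (P (nat_lit 0)))))) (T.h (T.h (T.h (P (nat_lit 5946593576)) (T.h (P (nat_lit 0)) (M (nat_lit 268015127647)))) (T.h (P (nat_lit 0)) (P (nat_lit 816140970048)))) (T.h (T.h (P (nat_lit 0)) (T.h (T.h (P (nat_lit 0)) (P (nat_lit 1560718262048))) (P (nat_lit 0)))) (P (nat_lit 52553681776)))))) (T.h (P (nat_lit 0)) (T.h (T.h (T.h (T.h (P (nat_lit 240742992)) (T.h (P (nat_lit 0)) (P (nat_lit 29167851524)))) (T.h (P (nat_lit 0)) (T.h (T.h (P (nat_lit 29167851524)) (T.h (P (nat_lit 0)) (M (nat_lit 3636296444703)))) (P (nat_lit 0))))) (T.h (T.h (P (nat_lit 0)) (T.h (T.h (P (nat_lit 0)) (T.h (P (nat_lit 402069899280)) (T.h (P (nat_lit 0)) (M (nat_lit 2410918022939))))) (T.h (P (nat_lit 0)) (T.h (T.h (P (nat_lit 0)) (M (nat_lit 2410918022939))) (P (nat_lit 0)))))) (T.h (M (nat_lit 34209073191)) (T.h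 (T.h (P (nat_lit 0)) (T.h (T.h (P (nat_lit 0)) (M (nat_lit 6929286815303))) (P (nat_lit 0)))) (M (nat_lit 367875772431)))))) (P (nat_lit 0)))))) (T.h (T.h (T.h (T.h (P (nat_lit 0)) (T.h (T.h (P (nat_lit 0)) (T.h (P (nat_lit 6979114096)) (T.h (P (nat_lit 0)) (M (nat_lit 10940108111))))) (T.h (P (nat_lit 0)) (T.h (T.h (P (nat_lit 0)) (P (nat_lit 11817949084))) (P (nat_lit 0)))))) (T.h (T.h (T.h (M (nat_lit 22119607655)) (T.h (P (nat_lit 0)) (T.h (M (nat_lit 3843624651)) (T.h (P (nat_lit 0)) (M (nat_lit 52597195063)))))) (T.h (P (nat_lit 0)) (T.h (T.h (M (nat_lit 19711784843)) (T.h (P (nat_lit 0)) (P (nat_lit 1553709328728)))) (T.h (P (nat_lit 0)) (M (nat_lit 956972812611)))))) (T.h (T.h (P (nat_lit 0)) (T.h (T.h (P (nat_lit 0)) (M (nat_lit 89980445939))) (P (nat_lit 0)))) (T.h (T.h (T.h (M (nat_lit 12522183031)) (T.h (P (nat_lit 0)) (M (nat_lit 54242259935)))) (T.h (P (nat_lit 0))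 (P (nat_lit 579404563324)))) (T.h (P (nat_lit 0)) (M (nat_lit 55363325331))))))) (T.h (P (nat_lit 0)) (T.h (T.h (T.h (P (nat_lit 0)) (T.h (T.h (P (nat_lit 0)) (T.h (P (nat_lit 15451855720)) (T.h (P (nat_lit 0)) (M (nat_lit 689961146139))))) (T.h (P (nat_lit 0)) (T.h (T.h (P (nat_lit 0)) (M (nat_lit 1967995904531))) (P (nat_lit 0)))))) (T.h (T.h (T.h (P (nat_lit 25819355212)) (T.h (P (nat_lit 0)) (T.h (P (nat_lit 68668987268)) (T.h (P (nat_lit 0)) (M (nat_lit 389356774015)))))) (T.h (P (nat_lit 0)) (T.h (T.h (P (nat_lit 287415048536)) (T.h (P (nat_lit 0)) (P (nat_lit 6554940462840)))) (T.h (P (nat_lit 0)) (P (nat_lit 201241858160)))))) (T.h (T.h (P (nat_lit 0)) (T.h (T.h (P (nat_lit 0)) (P (nat_lit 629863121580))) (P (nat_lit 0)))) (T.h (T.h (T.h (P (nat_lit 87655281224)) (T.h (P (nat_lit 0)) (P (nat_lit 768281902752)))) (T.h (P (nat_lit 0)) (M (nat_lit 2480208439463)))) (T.h (P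 (nat_lit 0)) (P (nat_lit 301049910280))))))) (P (nat_lit 0))))) (T.h (T.h (P (nat_lit 0)) (T.h (T.h (T.h (T.h (M (nat_lit 134038351)) (T.h (P (nat_lit 0)) (T.h (M (nat_lit 5540730383)) (T.h (P (nat_lit 0)) (M (nat_lit 22832240983)))))) (T.h (P (nat_lit 0)) (T.h (T.h (M (nat_lit 12111840831)) (T.h (P (nat_lit 0)) (M (nat_lit 949002793647)))) (T.h (P (nat_lit 0)) (M (nat_lit 456743760367)))))) (T.h (T.h (P (nat_lit 0)) (T.h (T.h (P (nat_lit 0)) (T.h (P (nat_lit 0)) (T.h (P (nat_lit 0)) (M (nat_lit 813149265039))))) (T.h (P (nat_lit 0)) (T.h (T.h (P (nat_lit 0)) (M (nat_lit 746321341191))) (P (nat_lit 0)))))) (T.h (T.h (T.h (M (nat_lit 5540730383)) (T.h (P (nat_lit 0)) (M (nat_lit 15296044511)))) (T.h (P (nat_lit 0)) (M (nat_lit 949002793647)))) (T.h (T.h (P (nat_lit 0)) (T.h (T.h (P (nat_lit 0)) (M (nat_lit 813149265039))) (P (nat_lit 0)))) (M (nat_lit 22832240983)))))) (P (nat_lit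 0)))) (T.h (T.h (T.h (T.h (P (nat_lit 0)) (T.h (T.h (P (nat_lit 0)) (M (nat_lit 2862947191))) (T.h (P (nat_lit 0)) (T.h (T.h (P (nat_lit 0)) (M (nat_lit 241815506351))) (P (nat_lit 0)))))) (T.h (T.h (T.h (P (nat_lit 22022011508)) (T.h (P (nat_lit 0)) (T.h (P (nat_lit 2921204272)) (T.h (P (nat_lit 0)) (M (nat_lit 44924611507)))))) (T.h (P (nat_lit 0)) (T.h (T.h (P (nat_lit 18833537716)) (T.h (P (nat_lit 0)) (P (nat_lit 308794411996)))) (T.h (P (nat_lit 0)) (P (nat_lit 806604795220)))))) (T.h (T.h (P (nat_lit 0)) (T.h (T.h (P (nat_lit 0)) (M (nat_lit 39897669139))) (P (nat_lit 0)))) (T.h (T.h (T.h (P (nat_lit 0)) (T.h (P (nat_lit 0)) (P (nat_lit 99606599288)))) (T.h (P (nat_lit 0)) (M (nat_lit 241013218095)))) (T.h (P (nat_lit 0)) (P (nat_lit 35965642440))))))) (P (nat_lit 0))) (P (nat_lit 0))))))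
def et1_3 : T ℤ := (T.h (T.h (P (nat_lit 0)) (T.h (P (nat_lit 0)) (T.h (P (nat_lit 0)) (T.h (P (nat_lit 0)) (T.h (T.h (T.h (P (nat_lit 0)) (T.h (T.h (P (nat_lit 0)) (T.h (P (nat_lit 6979114096)) (T.h (P (nat_lit 0)) (P (nat_lit 11817949084))))) (T.h (P (nat_lit 0)) (T.h (T.h (P (nat_lit 0)) (M (nat_lit 10940108111))) (P (nat_lit 0)))))) (T.h (T.h (T.h (M (nat_lit 22119607655)) (T.h (P (nat_lit 0)) (T.h (M (nat_lit 19711784843)) (T.h (P (nat_lit 0)) (M (nat_lit 956972812611)))))) (T.h (P (nat_lit 0)) (T.h (T.h (M (nat_lit 3843624651)) (T.h (P (nat_lit 0)) (P (nat_lit 1553709328728)))) (T.h (P (nat_lit 0)) (M (nat_lit 52597195063)))))) (T.h (T.h (P (nat_lit 0)) (T.h (T.h (P (nat_lit 0)) (M (nat_lit 89980445939))) (P (nat_lit 0)))) (T.h (T.h (T.h (M (nat_lit 12522183031)) (T.h (P (nat_lit 0)) (P (nat_lit 579404563324)))) (T.h (P (nat_lit 0)) (M (nat_lit 54242259935)))) (T.h (P (nat_lit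 0)) (M (nat_lit 55363325331))))))) (T.h (P (nat_lit 0)) (T.h (T.h (T.h (P (nat_lit 0)) (T.h (T.h (P (nat_lit 0)) (T.h (M (nat_lit 2862947191)) (T.h (P (nat_lit 0)) (M (nat_lit 241815506351))))) (P (nat_lit 0)))) (T.h (T.h (T.h (P (nat_lit 22022011508)) (T.h (P (nat_lit 0)) (T.h (P (nat_lit 18833537716)) (T.h (P (nat_lit 0)) (P (nat_lit 806604795220)))))) (T.h (P (nat_lit 0)) (T.h (T.h (P (nat_lit 2921204272)) (T.h (P (nat_lit 0)) (P (nat_lit 308794411996)))) (T.h (P (nat_lit 0)) (M (nat_lit 44924611507)))))) (T.h (T.h (P (nat_lit 0)) (T.h (T.h (P (nat_lit 0)) (M (nat_lit 39897669139))) (P (nat_lit 0)))) (T.h (T.h (T.h (P (nat_lit 0)) (T.h (P (nat_lit 0)) (M (nat_lit 241013218095)))) (T.h (P (nat_lit 0)) (P (nat_lit 99606599288)))) (T.h (P (nat_lit 0)) (P (nat_lit 35965642440))))))) (P (nat_lit 0))))))))) (T.h (T.h (P (nat_lit 0)) (T.h (P (nat_lit 0)) (T.h (P (nat_lit 0)) (T.h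 (T.h (T.h (T.h (P (nat_lit 1168704)) (T.h (P (nat_lit 0)) (T.h (P (nat_lit 0)) (T.h (P (nat_lit 0)) (P (nat_lit 332696436352)))))) (T.h (P (nat_lit 0)) (T.h (T.h (P (nat_lit 5946593576)) (T.h (P (nat_lit 0)) (P (nat_lit 816140970048)))) (T.h (P (nat_lit 0)) (P (nat_lit 52553681776)))))) (T.h (T.h (P (nat_lit 0)) (T.h (T.h (P (nat_lit 0)) (T.h (M (nat_lit 114877114079)) (T.h (P (nat_lit 0)) (P (nat_lit 432205828512))))) (T.h (P (nat_lit 0)) (T.h (T.h (P (nat_lit 0)) (P (nat_lit 1560718262048))) (P (nat_lit 0)))))) (T.h (T.h (T.h (P (nat_lit 5946593576)) (T.h (P (nat_lit 0)) (P (nat_lit 816140970048)))) (T.h (P (nat_lit 0)) (M (nat_lit 268015127647)))) (T.h (T.h (P (nat_lit 0)) (T.h (T.h (P (nat_lit 0)) (P (nat_lit 1560718262048))) (P (nat_lit 0)))) (P (nat_lit 52553681776)))))) (T.h (P (nat_lit 0)) (T.h (T.h (T.h (T.h (M (nat_lit 134038351)) (T.h (P (nat_lit 0)) (T.h (M (nat_lit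 12111840831)) (T.h (P (nat_lit 0)) (M (nat_lit 456743760367)))))) (T.h (P (nat_lit 0)) (T.h (T.h (M (nat_lit 5540730383)) (T.h (P (nat_lit 0)) (M (nat_lit 949002793647)))) (T.h (P (nat_lit 0)) (M (nat_lit 22832240983)))))) (T.h (T.h (P (nat_lit 0)) (T.h (T.h (P (nat_lit 0)) (T.h (P (nat_lit 0)) (T.h (P (nat_lit 0)) (M (nat_lit 746321341191))))) (T.h (P (nat_lit 0)) (T.h (T.h (P (nat_lit 0)) (M (nat_lit 813149265039))) (P (nat_lit 0)))))) (T.h (T.h (T.h (M (nat_lit 5540730383)) (T.h (P (nat_lit 0)) (M (nat_lit 949002793647)))) (T.h (P (nat_lit 0)) (M (nat_lit 15296044511)))) (T.h (T.h (P (nat_lit 0)) (T.h (T.h (P (nat_lit 0)) (M (nat_lit 813149265039))) (P (nat_lit 0)))) (M (nat_lit 22832240983)))))) (P (nat_lit 0)))))))) (T.h (T.h (P (nat_lit 0)) (T.h (P (nat_lit 0)) (T.h (T.h (T.h (P (nat_lit 0)) (T.h (T.h (P (nat_lit 0)) (T.h (P (nat_lit 0)) (T.h (P (nat_lit 0)) (P (nat_lit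 1258086845820))))) (T.h (P (nat_lit 0)) (T.h (T.h (P (nat_lit 0)) (P (nat_lit 1258086845820))) (P (nat_lit 0)))))) (T.h (T.h (T.h (P (nat_lit 2867882400)) (T.h (P (nat_lit 0)) (T.h (M (nat_lit 182900553435)) (T.h (P (nat_lit 0)) (P (nat_lit 167803561008)))))) (T.h (P (nat_lit 0)) (T.h (T.h (M (nat_lit 182900553435)) (T.h (P (nat_lit 0)) (M (nat_lit 8195531958671)))) (T.h (P (nat_lit 0)) (P (nat_lit 167803561008)))))) (T.h (T.h (P (nat_lit 0)) (T.h (T.h (P (nat_lit 0)) (P (nat_lit 516837289904))) (P (nat_lit 0)))) (T.h (T.h (T.h (P (nat_lit 0)) (T.h (P (nat_lit 0)) (M (nat_lit 1128654963707)))) (T.h (P (nat_lit 0)) (M (nat_lit 1128654963707)))) (T.h (P (nat_lit 0)) (M (nat_lit 44187226463))))))) (T.h (P (nat_lit 0)) (T.h (T.h (T.h (P (nat_lit 0)) (T.h (T.h (P (nat_lit 0)) (T.h (P (nat_lit 15451855720)) (T.h (P (nat_lit 0)) (M (nat_lit 1967995904531))))) (T.h (P (nat_lit 0)) (T.h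 (T.h (P (nat_lit 0)) (M (nat_lit 689961146139))) (P (nat_lit 0)))))) (T.h (T.h (T.h (P (nat_lit 25819355212)) (T.h (P (nat_lit 0)) (T.h (P (nat_lit 287415048536)) (T.h (P (nat_lit 0)) (P (nat_lit 201241858160)))))) (T.h (P (nat_lit 0)) (T.h (T.h (P (nat_lit 68668987268)) (T.h (P (nat_lit 0)) (P (nat_lit 6554940462840)))) (T.h (P (nat_lit 0)) (M (nat_lit 389356774015)))))) (T.h (T.h (P (nat_lit 0)) (T.h (T.h (P (nat_lit 0)) (P (nat_lit 629863121580))) (P (nat_lit 0)))) (T.h (T.h (T.h (P (nat_lit 87655281224)) (T.h (P (nat_lit 0)) (M (nat_lit 2480208439463)))) (T.h (P (nat_lit 0)) (P (nat_lit 768281902752)))) (T.h (P (nat_lit 0)) (P (nat_lit 301049910280))))))) (P (nat_lit 0))))))) et1_2)))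
def et1_4 : T ℤ := (T.h (T.h (P (nat_lit 0)) (T.h (T.h (T.h (T.h (P (nat_lit 0)) (T.h (P (nat_lit 2867882400)) (T.h (P (nat_lit 0)) (T.h (P (nat_lit 0)) (T.h (P (nat_lit 0)) (M (nat_lit 44187226463))))))) (T.h (P (nat_lit 0)) (T.h (T.h (P (nat_lit 0)) (T.h (M (nat_lit 182900553435)) (T.h (P (nat_lit 0)) (M (nat_lit 1128654963707))))) (T.h (P (nat_lit 0)) (T.h (T.h (P (nat_lit 0)) (P (nat_lit 167803561008))) (P (nat_lit 0))))))) (T.h (T.h (P (nat_lit 0)) (T.h (T.h (P (nat_lit 0)) (T.h (P (nat_lit 0)) (P (nat_lit 516837289904)))) (T.h (P (nat_lit 0)) (P (nat_lit 1258086845820))))) (T.h (T.h (T.h (P (nat_lit 0)) (T.h (M (nat_lit 182900553435)) (T.h (P (nat_lit 0)) (M (nat_lit 1128654963707))))) (T.h (P (nat_lit 0)) (T.h (T.h (P (nat_lit 0)) (M (nat_lit 8195531958671))) (P (nat_lit 0))))) (T.h (T.h (P (nat_lit 0)) (P (nat_lit 1258086845820))) (T.h (T.h (T.h (P (nat_lit 0)) (P (nat_lit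 167803561008))) (P (nat_lit 0))) (P (nat_lit 0))))))) (T.h (P (nat_lit 0)) (T.h (T.h (T.h (T.h (P (nat_lit 0)) (T.h (M (nat_lit 14722417919)) (T.h (P (nat_lit 0)) (T.h (P (nat_lit 202624501576)) (T.h (P (nat_lit 0)) (M (nat_lit 1105784339127))))))) (T.h (P (nat_lit 0)) (T.h (T.h (P (nat_lit 0)) (T.h (P (nat_lit 378583136064)) (T.h (P (nat_lit 0)) (M (nat_lit 707950500851))))) (T.h (P (nat_lit 0)) (T.h (T.h (P (nat_lit 0)) (M (nat_lit 1590776057555))) (P (nat_lit 0))))))) (T.h (T.h (P (nat_lit 0)) (T.h (T.h (P (nat_lit 59441764704)) (T.h (P (nat_lit 0)) (M (nat_lit 4941365288495)))) (T.h (P (nat_lit 0)) (M (nat_lit 612650458027))))) (T.h (T.h (T.h (P (nat_lit 0)) (T.h (P (nat_lit 378583136064)) (T.h (P (nat_lit 0)) (M (nat_lit 707950500851))))) (T.h (P (nat_lit 0)) (T.h (T.h (P (nat_lit 0)) (P (nat_lit 3701131648592))) (P (nat_lit 0))))) (T.h (T.h (P (nat_lit 0)) (M (nat_lit 612650458027)))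 (T.h (T.h (T.h (P (nat_lit 0)) (M (nat_lit 1590776057555))) (P (nat_lit 0))) (P (nat_lit 0))))))) (P (nat_lit 0)))))) (T.h (T.h (T.h (T.h (P (nat_lit 0)) (T.h (T.h (M (nat_lit 8429336759)) (T.h (P (nat_lit 0)) (T.h (P (nat_lit 25913868220)) (T.h (P (nat_lit 0)) (P (nat_lit 125446591852)))))) (T.h (P (nat_lit 0)) (T.h (T.h (M (nat_lit 6163409947)) (T.h (P (nat_lit 0)) (P (nat_lit 236853066644)))) (T.h (P (nat_lit 0)) (P (nat_lit 102793751012))))))) (T.h (T.h (T.h (P (nat_lit 0)) (T.h (M (nat_lit 5410940963)) (T.h (P (nat_lit 0)) (P (nat_lit 179692885956))))) (T.h (P (nat_lit 0)) (T.h (T.h (P (nat_lit 0)) (P (nat_lit 421084079500))) (P (nat_lit 0))))) (T.h (T.h (P (nat_lit 0)) (T.h (T.h (M (nat_lit 45266965603)) (T.h (P (nat_lit 0)) (P (nat_lit 830856280988)))) (T.h (P (nat_lit 0)) (P (nat_lit 770830061288))))) (T.h (T.h (T.h (P (nat_lit 0)) (P (nat_lit 52188219152))) (P (nat_lit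 0))) (T.h (T.h (P (nat_lit 0)) (P (nat_lit 244701476852))) (P (nat_lit 0))))))) (T.h (P (nat_lit 0)) (T.h (T.h (T.h (P (nat_lit 0)) (T.h (T.h (M (nat_lit 14722417919)) (T.h (P (nat_lit 0)) (T.h (P (nat_lit 378583136064)) (T.h (P (nat_lit 0)) (M (nat_lit 1590776057555)))))) (T.h (P (nat_lit 0)) (T.h (T.h (P (nat_lit 202624501576)) (T.h (P (nat_lit 0)) (M (nat_lit 707950500851)))) (T.h (P (nat_lit 0)) (M (nat_lit 1105784339127))))))) (T.h (T.h (T.h (P (nat_lit 0)) (T.h (P (nat_lit 59441764704)) (T.h (P (nat_lit 0)) (M (nat_lit 612650458027))))) (T.h (P (nat_lit 0)) (T.h (T.h (P (nat_lit 0)) (M (nat_lit 4941365288495))) (P (nat_lit 0))))) (T.h (T.h (P (nat_lit 0)) (T.h (T.h (P (nat_lit 378583136064)) (T.h (P (nat_lit 0)) (P (nat_lit 3701131648592)))) (T.h (P (nat_lit 0)) (M (nat_lit 707950500851))))) (T.h (T.h (T.h (P (nat_lit 0)) (M (nat_lit 612650458027))) (P (nat_lit 0))) (T.h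 (T.h (P (nat_lit 0)) (M (nat_lit 1590776057555))) (P (nat_lit 0))))))) (P (nat_lit 0))))) (T.h (T.h (P (nat_lit 0)) (T.h (T.h (T.h (T.h (P (nat_lit 0)) (T.h (P (nat_lit 25819355212)) (T.h (P (nat_lit 0)) (T.h (P (nat_lit 87655281224)) (T.h (P (nat_lit 0)) (P (nat_lit 301049910280))))))) (T.h (P (nat_lit 0)) (T.h (T.h (P (nat_lit 0)) (T.h (P (nat_lit 287415048536)) (T.h (P (nat_lit 0)) (M (nat_lit 2480208439463))))) (T.h (P (nat_lit 0)) (T.h (T.h (P (nat_lit 0)) (P (nat_lit 201241858160))) (P (nat_lit 0))))))) (T.h (T.h (P (nat_lit 0)) (T.h (T.h (P (nat_lit 15451855720)) (T.h (P (nat_lit 0)) (P (nat_lit 629863121580)))) (T.h (P (nat_lit 0)) (M (nat_lit 1967995904531))))) (T.h (T.h (T.h (P (nat_lit 0)) (T.h (P (nat_lit 68668987268)) (T.h (P (nat_lit 0)) (P (nat_lit 768281902752))))) (T.h (P (nat_lit 0)) (T.h (T.h (P (nat_lit 0)) (P (nat_lit 6554940462840))) (P (nat_lit 0))))) (T.h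 (T.h (P (nat_lit 0)) (M (nat_lit 689961146139))) (T.h (T.h (T.h (P (nat_lit 0)) (M (nat_lit 389356774015))) (P (nat_lit 0))) (P (nat_lit 0))))))) (P (nat_lit 0)))) (T.h (T.h (T.h (T.h (P (nat_lit 0)) (T.h (T.h (P (nat_lit 0)) (T.h (P (nat_lit 0)) (T.h (P (nat_lit 7785218056)) (T.h (P (nat_lit 0)) (P (nat_lit 236048849932)))))) (T.h (P (nat_lit 0)) (T.h (T.h (P (nat_lit 69519491720)) (T.h (P (nat_lit 0)) (M (nat_lit 2051732633411)))) (T.h (P (nat_lit 0)) (M (nat_lit 661526678399))))))) (T.h (T.h (T.h (P (nat_lit 0)) (T.h (P (nat_lit 0)) (T.h (P (nat_lit 0)) (M (nat_lit 20057685423))))) (T.h (P (nat_lit 0)) (T.h (T.h (P (nat_lit 0)) (M (nat_lit 490132574035))) (P (nat_lit 0))))) (T.h (T.h (P (nat_lit 0)) (T.h (M (nat_lit 3637304159)) (T.h (P (nat_lit 0)) (M (nat_lit 627550621263))))) (T.h (P (nat_lit 0)) (T.h (T.h (P (nat_lit 0)) (M (nat_lit 133510866635))) (P (nat_lit 0)))))))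 (P (nat_lit 0))) (P (nat_lit 0))))))
def et1_5 : T ℤ := (T.h (T.h (P (nat_lit 0)) (T.h (P (nat_lit 0)) (T.h (P (nat_lit 0)) (T.h (T.h (T.h (T.h (P (nat_lit 0)) (T.h (M (nat_lit 8429336759)) (T.h (P (nat_lit 0)) (T.h (M (nat_lit 6163409947)) (T.h (P (nat_lit 0)) (P (nat_lit 102793751012))))))) (T.h (P (nat_lit 0)) (T.h (T.h (P (nat_lit 0)) (T.h (P (nat_lit 25913868220)) (T.h (P (nat_lit 0)) (P (nat_lit 236853066644))))) (T.h (P (nat_lit 0)) (T.h (T.h (P (nat_lit 0)) (P (nat_lit 125446591852))) (P (nat_lit 0))))))) (T.h (T.h (P (nat_lit 0)) (T.h (T.h (M (nat_lit 5410940963)) (T.h (P (nat_lit 0)) (P (nat_lit 421084079500)))) (T.h (P (nat_lit 0)) (P (nat_lit 179692885956))))) (T.h (T.h (T.h (P (nat_lit 0)) (T.h (M (nat_lit 45266965603)) (T.h (P (nat_lit 0)) (P (nat_lit 770830061288))))) (T.h (P (nat_lit 0)) (T.h (T.h (P (nat_lit 0)) (P (nat_lit 830856280988))) (P (nat_lit 0))))) (T.h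 (T.h (P (nat_lit 0)) (P (nat_lit 52188219152))) (T.h (T.h (T.h (P (nat_lit 0)) (P (nat_lit 244701476852))) (P (nat_lit 0))) (P (nat_lit 0))))))) (T.h (P (nat_lit 0)) (T.h (T.h (T.h (T.h (P (nat_lit 0)) (T.h (P (nat_lit 0)) (T.h (P (nat_lit 0)) (T.h (P (nat_lit 69519491720)) (T.h (P (nat_lit 0)) (M (nat_lit 661526678399))))))) (T.h (P (nat_lit 0)) (T.h (T.h (P (nat_lit 0)) (T.h (P (nat_lit 7785218056)) (T.h (P (nat_lit 0)) (M (nat_lit 2051732633411))))) (T.h (P (nat_lit 0)) (T.h (T.h (P (nat_lit 0)) (P (nat_lit 236048849932))) (P (nat_lit 0))))))) (T.h (T.h (P (nat_lit 0)) (T.h (T.h (P (nat_lit 0)) (T.h (P (nat_lit 0)) (M (nat_lit 490132574035)))) (T.h (P (nat_lit 0)) (M (nat_lit 20057685423))))) (T.h (T.h (T.h (P (nat_lit 0)) (T.h (M (nat_lit 3637304159)) (T.h (P (nat_lit 0)) (M (nat_lit 627550621263))))) (P (nat_lit 0))) (T.h (P (nat_lit 0)) (T.h (T.h (T.h (P (nat_lit 0)) (M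 (nat_lit 133510866635))) (P (nat_lit 0))) (P (nat_lit 0))))))) (P (nat_lit 0)))))))) (T.h (T.h (P (nat_lit 0)) (T.h (P (nat_lit 0)) (T.h (T.h (T.h (P (nat_lit 0)) (T.h (T.h (P (nat_lit 2867882400)) (T.h (P (nat_lit 0)) (T.h (M (nat_lit 182900553435)) (T.h (P (nat_lit 0)) (P (nat_lit 167803561008)))))) (T.h (P (nat_lit 0)) (T.h (T.h (P (nat_lit 0)) (T.h (P (nat_lit 0)) (M (nat_lit 1128654963707)))) (T.h (P (nat_lit 0)) (M (nat_lit 44187226463))))))) (T.h (T.h (T.h (P (nat_lit 0)) (T.h (P (nat_lit 0)) (T.h (P (nat_lit 0)) (P (nat_lit 1258086845820))))) (T.h (P (nat_lit 0)) (T.h (T.h (P (nat_lit 0)) (P (nat_lit 516837289904))) (P (nat_lit 0))))) (T.h (T.h (P (nat_lit 0)) (T.h (T.h (M (nat_lit 182900553435)) (T.h (P (nat_lit 0)) (M (nat_lit 8195531958671)))) (T.h (P (nat_lit 0)) (M (nat_lit 1128654963707))))) (T.h (T.h (T.h (P (nat_lit 0)) (P (nat_lit 1258086845820))) (P (nat_lit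 0))) (T.h (T.h (P (nat_lit 0)) (P (nat_lit 167803561008))) (P (nat_lit 0))))))) (T.h (P (nat_lit 0)) (T.h (T.h (T.h (P (nat_lit 0)) (T.h (T.h (P (nat_lit 25819355212)) (T.h (P (nat_lit 0)) (T.h (P (nat_lit 287415048536)) (T.h (P (nat_lit 0)) (P (nat_lit 201241858160)))))) (T.h (P (nat_lit 0)) (T.h (T.h (P (nat_lit 87655281224)) (T.h (P (nat_lit 0)) (M (nat_lit 2480208439463)))) (T.h (P (nat_lit 0)) (P (nat_lit 301049910280))))))) (T.h (T.h (T.h (P (nat_lit 0)) (T.h (P (nat_lit 15451855720)) (T.h (P (nat_lit 0)) (M (nat_lit 1967995904531))))) (T.h (P (nat_lit 0)) (T.h (T.h (P (nat_lit 0)) (P (nat_lit 629863121580))) (P (nat_lit 0))))) (T.h (T.h (P (nat_lit 0)) (T.h (T.h (P (nat_lit 68668987268)) (T.h (P (nat_lit 0)) (P (nat_lit 6554940462840)))) (T.h (P (nat_lit 0)) (P (nat_lit 768281902752))))) (T.h (T.h (T.h (P (nat_lit 0)) (M (nat_lit 689961146139))) (P (nat_lit 0))) (T.h (T.h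 (P (nat_lit 0)) (M (nat_lit 389356774015))) (P (nat_lit 0))))))) (P (nat_lit 0))))))) et1_4))
def et1_6 : T ℤ := (T.h (T.h (P (nat_lit 0)) (T.h (T.h (T.h (T.h (P (nat_lit 1168704)) (T.h (P (nat_lit 0)) (T.h (P (nat_lit 5946593576)) (T.h (P (nat_lit 0)) (P (nat_lit 52553681776)))))) (T.h (P (nat_lit 0)) (T.h (T.h (P (nat_lit 5946593576)) (T.h (P (nat_lit 0)) (M (nat_lit 268015127647)))) (T.h (P (nat_lit 0)) (P (nat_lit 52553681776)))))) (T.h (T.h (P (nat_lit 0)) (T.h (T.h (P (nat_lit 0)) (T.h (M (nat_lit 114877114079)) (T.h (P (nat_lit 0)) (P (nat_lit 1560718262048))))) (T.h (P (nat_lit 0)) (T.h (T.h (P (nat_lit 0)) (P (nat_lit 1560718262048))) (P (nat_lit 0)))))) (T.h (T.h (T.h (P (nat_lit 0)) (T.h (P (nat_lit 0)) (P (nat_lit 816140970048)))) (T.h (P (nat_lit 0)) (P (nat_lit 816140970048)))) (T.h (T.h (P (nat_lit 0)) (T.h (T.h (P (nat_lit 0)) (P (nat_lit 432205828512))) (P (nat_lit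 0)))) (P (nat_lit 332696436352)))))) (T.h (P (nat_lit 0)) (T.h (T.h (T.h (T.h (P (nat_lit 240742992)) (T.h (P (nat_lit 0)) (P (nat_lit 29167851524)))) (T.h (P (nat_lit 0)) (T.h (M (nat_lit 34209073191)) (T.h (P (nat_lit 0)) (M (nat_lit 367875772431)))))) (T.h (T.h (P (nat_lit 0)) (T.h (T.h (P (nat_lit 0)) (T.h (P (nat_lit 402069899280)) (T.h (P (nat_lit 0)) (M (nat_lit 2410918022939))))) (T.h (P (nat_lit 0)) (T.h (T.h (P (nat_lit 0)) (M (nat_lit 6929286815303))) (P (nat_lit 0)))))) (T.h (T.h (T.h (P (nat_lit 29167851524)) (T.h (P (nat_lit 0)) (M (nat_lit 3636296444703)))) (P (nat_lit 0))) (T.h (T.h (P (nat_lit 0)) (T.h (T.h (P (nat_lit 0)) (M (nat_lit 2410918022939))) (P (nat_lit 0)))) (P (nat_lit 0)))))) (P (nat_lit 0)))))) (T.h (T.h (T.h (T.h (P (nat_lit 0)) (T.h (T.h (P (nat_lit 0)) (T.h (M (nat_lit 5410940963)) (T.h (P (nat_lit 0)) (P (nat_lit 179692885956))))) (T.h (P (nat_lit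 0)) (T.h (T.h (P (nat_lit 0)) (P (nat_lit 52188219152))) (P (nat_lit 0)))))) (T.h (T.h (T.h (M (nat_lit 8429336759)) (T.h (P (nat_lit 0)) (T.h (P (nat_lit 25913868220)) (T.h (P (nat_lit 0)) (P (nat_lit 125446591852)))))) (T.h (P (nat_lit 0)) (T.h (T.h (M (nat_lit 45266965603)) (T.h (P (nat_lit 0)) (P (nat_lit 830856280988)))) (T.h (P (nat_lit 0)) (P (nat_lit 244701476852)))))) (T.h (T.h (P (nat_lit 0)) (T.h (T.h (P (nat_lit 0)) (P (nat_lit 421084079500))) (P (nat_lit 0)))) (T.h (T.h (T.h (M (nat_lit 6163409947)) (T.h (P (nat_lit 0)) (P (nat_lit 236853066644)))) (T.h (P (nat_lit 0)) (P (nat_lit 770830061288)))) (T.h (P (nat_lit 0)) (P (nat_lit 102793751012))))))) (T.h (P (nat_lit 0)) (T.h (T.h (T.h (P (nat_lit 0)) (T.h (T.h (P (nat_lit 0)) (T.h (P (nat_lit 59441764704)) (T.h (P (nat_lit 0)) (M (nat_lit 612650458027))))) (T.h (P (nat_lit 0)) (T.h (T.h (P (nat_lit 0)) (M (nat_lit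 612650458027))) (P (nat_lit 0)))))) (T.h (T.h (T.h (M (nat_lit 14722417919)) (T.h (P (nat_lit 0)) (T.h (P (nat_lit 378583136064)) (T.h (P (nat_lit 0)) (M (nat_lit 1590776057555)))))) (T.h (P (nat_lit 0)) (T.h (T.h (P (nat_lit 378583136064)) (T.h (P (nat_lit 0)) (P (nat_lit 3701131648592)))) (T.h (P (nat_lit 0)) (M (nat_lit 1590776057555)))))) (T.h (T.h (P (nat_lit 0)) (T.h (T.h (P (nat_lit 0)) (M (nat_lit 4941365288495))) (P (nat_lit 0)))) (T.h (T.h (T.h (P (nat_lit 202624501576)) (T.h (P (nat_lit 0)) (M (nat_lit 707950500851)))) (T.h (P (nat_lit 0)) (M (nat_lit 707950500851)))) (T.h (P (nat_lit 0)) (M (nat_lit 1105784339127))))))) (P (nat_lit 0))))) (T.h (T.h (P (nat_lit 0)) (T.h (T.h (T.h (T.h (P (nat_lit 240742992)) (T.h (P (nat_lit 0)) (T.h (M (nat_lit 34209073191)) (T.h (P (nat_lit 0)) (M (nat_lit 367875772431)))))) (T.h (P (nat_lit 0)) (P (nat_lit 29167851524)))) (T.h (T.h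 (P (nat_lit 0)) (T.h (T.h (P (nat_lit 0)) (T.h (P (nat_lit 402069899280)) (T.h (P (nat_lit 0)) (M (nat_lit 6929286815303))))) (T.h (P (nat_lit 0)) (T.h (T.h (P (nat_lit 0)) (M (nat_lit 2410918022939))) (P (nat_lit 0)))))) (T.h (T.h (P (nat_lit 29167851524)) (T.h (P (nat_lit 0)) (M (nat_lit 3636296444703)))) (T.h (T.h (P (nat_lit 0)) (T.h (T.h (P (nat_lit 0)) (M (nat_lit 2410918022939))) (P (nat_lit 0)))) (P (nat_lit 0)))))) (P (nat_lit 0)))) (T.h (T.h (T.h (T.h (P (nat_lit 0)) (T.h (T.h (P (nat_lit 0)) (T.h (M (nat_lit 29434259063)) (T.h (P (nat_lit 0)) (M (nat_lit 380993022171))))) (T.h (P (nat_lit 0)) (T.h (T.h (P (nat_lit 0)) (M (nat_lit 97707975259))) (P (nat_lit 0)))))) (T.h (T.h (T.h (P (nat_lit 20449257360)) (T.h (P (nat_lit 0)) (T.h (M (nat_lit 30247740123)) (T.h (P (nat_lit 0)) (P (nat_lit 174468592956)))))) (T.h (P (nat_lit 0)) (T.h (T.h (P (nat_lit 87878290360)) (T.h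 (P (nat_lit 0)) (M (nat_lit 7156228656415)))) (T.h (P (nat_lit 0)) (M (nat_lit 33573604455)))))) (T.h (T.h (P (nat_lit 0)) (T.h (T.h (P (nat_lit 0)) (M (nat_lit 460457056527))) (P (nat_lit 0)))) (T.h (T.h (T.h (M (nat_lit 19389460383)) (T.h (P (nat_lit 0)) (M (nat_lit 67270153411)))) (T.h (P (nat_lit 0)) (M (nat_lit 980103097175)))) (T.h (P (nat_lit 0)) (M (nat_lit 29778813735))))))) (P (nat_lit 0))) (P (nat_lit 0))))))
def et1_7 : T ℤ := (T.h (T.h (T.h (T.h (P (nat_lit 0)) (T.h (T.h (M (nat_lit 22119607655)) (T.h (P (nat_lit 0)) (T.h (M (nat_lit 3843624651)) (T.h (P (nat_lit 0)) (M (nat_lit 52597195063)))))) (T.h (P (nat_lit 0)) (T.h (T.h (M (nat_lit 12522183031)) (T.h (P (nat_lit 0)) (M (nat_lit 54242259935)))) (T.h (P (nat_lit 0)) (M (nat_lit 55363325331))))))) (T.h (T.h (T.h (P (nat_lit 0)) (T.h (P (nat_lit 6979114096)) (T.h (P (nat_lit 0)) (M (nat_lit 10940108111))))) (T.h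 (P (nat_lit 0)) (T.h (T.h (P (nat_lit 0)) (M (nat_lit 89980445939))) (P (nat_lit 0))))) (T.h (T.h (P (nat_lit 0)) (T.h (T.h (M (nat_lit 19711784843)) (T.h (P (nat_lit 0)) (P (nat_lit 1553709328728)))) (T.h (P (nat_lit 0)) (P (nat_lit 579404563324))))) (T.h (T.h (T.h (P (nat_lit 0)) (P (nat_lit 11817949084))) (P (nat_lit 0))) (T.h (T.h (P (nat_lit 0)) (M (nat_lit 956972812611))) (P (nat_lit 0))))))) (T.h (P (nat_lit 0)) (T.h (T.h (T.h (P (nat_lit 0)) (T.h (T.h (P (nat_lit 25819355212)) (T.h (P (nat_lit 0)) (T.h (P (nat_lit 68668987268)) (T.h (P (nat_lit 0)) (M (nat_lit 389356774015)))))) (T.h (P (nat_lit 0)) (T.h (T.h (P (nat_lit 87655281224)) (T.h (P (nat_lit 0)) (P (nat_lit 768281902752)))) (T.h (P (nat_lit 0)) (P (nat_lit 301049910280))))))) (T.h (T.h (T.h (P (nat_lit 0)) (T.h (P (nat_lit 15451855720)) (T.h (P (nat_lit 0)) (M (nat_lit 689961146139))))) (T.h (P (nat_lit 0)) (T.h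 (T.h (P (nat_lit 0)) (P (nat_lit 629863121580))) (P (nat_lit 0))))) (T.h (T.h (P (nat_lit 0)) (T.h (T.h (P (nat_lit 287415048536)) (T.h (P (nat_lit 0)) (P (nat_lit 6554940462840)))) (T.h (P (nat_lit 0)) (M (nat_lit 2480208439463))))) (T.h (T.h (T.h (P (nat_lit 0)) (M (nat_lit 1967995904531))) (P (nat_lit 0))) (T.h (T.h (P (nat_lit 0)) (P (nat_lit 201241858160))) (P (nat_lit 0))))))) (P (nat_lit 0))))) (T.h (T.h (P (nat_lit 0)) (T.h (T.h (T.h (T.h (P (nat_lit 0)) (T.h (P (nat_lit 25819355212)) (T.h (P (nat_lit 0)) (T.h (P (nat_lit 87655281224)) (T.h (P (nat_lit 0)) (P (nat_lit 301049910280))))))) (T.h (P (nat_lit 0)) (T.h (T.h (P (nat_lit 0)) (T.h (P (nat_lit 68668987268)) (T.h (P (nat_lit 0)) (P (nat_lit 768281902752))))) (T.h (P (nat_lit 0)) (T.h (T.h (P (nat_lit 0)) (M (nat_lit 389356774015))) (P (nat_lit 0))))))) (T.h (T.h (P (nat_lit 0)) (T.h (T.h (P (nat_lit 15451855720))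 (T.h (P (nat_lit 0)) (P (nat_lit 629863121580)))) (T.h (P (nat_lit 0)) (M (nat_lit 689961146139))))) (T.h (T.h (T.h (P (nat_lit 0)) (T.h (P (nat_lit 287415048536)) (T.h (P (nat_lit 0)) (M (nat_lit 2480208439463))))) (T.h (P (nat_lit 0)) (T.h (T.h (P (nat_lit 0)) (P (nat_lit 6554940462840))) (P (nat_lit 0))))) (T.h (T.h (P (nat_lit 0)) (M (nat_lit 1967995904531))) (T.h (T.h (T.h (P (nat_lit 0)) (P (nat_lit 201241858160))) (P (nat_lit 0))) (P (nat_lit 0))))))) (P (nat_lit 0)))) (T.h (T.h (T.h (T.h (P (nat_lit 0)) (T.h (T.h (P (nat_lit 20449257360)) (T.h (P (nat_lit 0)) (T.h (M (nat_lit 30247740123)) (T.h (P (nat_lit 0)) (P (nat_lit 174468592956)))))) (T.h (P (nat_lit 0)) (T.h (T.h (M (nat_lit 19389460383)) (T.h (P (nat_lit 0)) (M (nat_lit 67270153411)))) (T.h (P (nat_lit 0)) (M (nat_lit 29778813735))))))) (T.h (T.h (T.h (P (nat_lit 0)) (T.h (M (nat_lit 29434259063)) (T.h (P (nat_lit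 0)) (M (nat_lit 380993022171))))) (T.h (P (nat_lit 0)) (T.h (T.h (P (nat_lit 0)) (M (nat_lit 460457056527))) (P (nat_lit 0))))) (T.h (T.h (P (nat_lit 0)) (T.h (T.h (P (nat_lit 87878290360)) (T.h (P (nat_lit 0)) (M (nat_lit 7156228656415)))) (T.h (P (nat_lit 0)) (M (nat_lit 980103097175))))) (T.h (T.h (T.h (P (nat_lit 0)) (M (nat_lit 97707975259))) (P (nat_lit 0))) (T.h (T.h (P (nat_lit 0)) (M (nat_lit 33573604455))) (P (nat_lit 0))))))) (P (nat_lit 0))) (P (nat_lit 0)))))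
def et1_8 : T ℤ := (T.h (T.h (T.h (T.h (T.h (P (nat_lit 0)) (T.h (T.h (P (nat_lit 0)) (T.h (P (nat_lit 0)) (T.h (P (nat_lit 0)) (P (nat_lit 2865383632))))) (T.h (P (nat_lit 0)) (T.h (T.h (P (nat_lit 0)) (P (nat_lit 2865383632))) (P (nat_lit 0)))))) (T.h (T.h (T.h (P (nat_lit 0)) (T.h (P (nat_lit 0)) (T.h (M (nat_lit 592559127)) (T.h (P (nat_lit 0)) (M (nat_lit 14648283327)))))) (T.h (P (nat_lit 0)) (T.h (T.h (M (nat_lit 592559127)) (T.h (P (nat_lit 0)) (P (nat_lit 1317649833168)))) (T.h (P (nat_lit 0)) (M (nat_lit 14648283327)))))) (T.h (T.h (P (nat_lit 0)) (T.h (T.h (P (nat_lit 0)) (P (nat_lit 140037878296))) (P (nat_lit 0)))) (T.h (T.h (T.h (M (nat_lit 19862711919)) (T.h (P (nat_lit 0)) (P (nat_lit 307061251116)))) (T.h (P (nat_lit 0)) (P (nat_lit 307061251116)))) (T.h (P (nat_lit 0)) (P (nat_lit 189007622400))))))) (T.h (P (nat_lit 0)) (T.h (T.h (T.h (P (nat_lit 0)) (T.h (P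 (nat_lit 0)) (T.h (P (nat_lit 0)) (T.h (T.h (P (nat_lit 0)) (M (nat_lit 20057685423))) (P (nat_lit 0)))))) (T.h (T.h (T.h (P (nat_lit 0)) (T.h (P (nat_lit 0)) (T.h (M (nat_lit 3637304159)) (T.h (P (nat_lit 0)) (M (nat_lit 133510866635)))))) (T.h (P (nat_lit 0)) (T.h (P (nat_lit 7785218056)) (T.h (P (nat_lit 0)) (P (nat_lit 236048849932)))))) (T.h (T.h (P (nat_lit 0)) (T.h (T.h (P (nat_lit 0)) (M (nat_lit 490132574035))) (P (nat_lit 0)))) (T.h (T.h (T.h (P (nat_lit 69519491720)) (T.h (P (nat_lit 0)) (M (nat_lit 627550621263)))) (T.h (P (nat_lit 0)) (M (nat_lit 2051732633411)))) (T.h (P (nat_lit 0)) (M (nat_lit 661526678399))))))) (P (nat_lit 0))))) (T.h (T.h (P (nat_lit 0)) (T.h (T.h (T.h (T.h (M (nat_lit 134038351)) (T.h (P (nat_lit 0)) (T.h (M (nat_lit 5540730383)) (T.h (P (nat_lit 0)) (M (nat_lit 22832240983)))))) (T.h (P (nat_lit 0)) (T.h (T.h (M (nat_lit 5540730383)) (T.h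 (P (nat_lit 0)) (M (nat_lit 15296044511)))) (T.h (P (nat_lit 0)) (M (nat_lit 22832240983)))))) (T.h (T.h (P (nat_lit 0)) (T.h (T.h (P (nat_lit 0)) (T.h (P (nat_lit 0)) (T.h (P (nat_lit 0)) (M (nat_lit 813149265039))))) (T.h (P (nat_lit 0)) (T.h (T.h (P (nat_lit 0)) (M (nat_lit 813149265039))) (P (nat_lit 0)))))) (T.h (T.h (T.h (M (nat_lit 12111840831)) (T.h (P (nat_lit 0)) (M (nat_lit 949002793647)))) (T.h (P (nat_lit 0)) (M (nat_lit 949002793647)))) (T.h (T.h (P (nat_lit 0)) (T.h (T.h (P (nat_lit 0)) (M (nat_lit 746321341191))) (P (nat_lit 0)))) (M (nat_lit 456743760367)))))) (P (nat_lit 0)))) (T.h (T.h (T.h (T.h (P (nat_lit 0)) (T.h (T.h (P (nat_lit 0)) (T.h (P (nat_lit 0)) (T.h (P (nat_lit 0)) (M (nat_lit 20057685423))))) (P (nat_lit 0)))) (T.h (T.h (T.h (P (nat_lit 0)) (T.h (P (nat_lit 0)) (T.h (P (nat_lit 7785218056)) (T.h (P (nat_lit 0)) (P (nat_lit 236048849932)))))) (T.h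 (P (nat_lit 0)) (T.h (M (nat_lit 3637304159)) (T.h (P (nat_lit 0)) (M (nat_lit 133510866635)))))) (T.h (T.h (P (nat_lit 0)) (T.h (T.h (P (nat_lit 0)) (M (nat_lit 490132574035))) (P (nat_lit 0)))) (T.h (T.h (T.h (P (nat_lit 69519491720)) (T.h (P (nat_lit 0)) (M (nat_lit 2051732633411)))) (T.h (P (nat_lit 0)) (M (nat_lit 627550621263)))) (T.h (P (nat_lit 0)) (M (nat_lit 661526678399))))))) (P (nat_lit 0))) (P (nat_lit 0))))) (T.h (T.h (T.h (P (nat_lit 0)) (T.h (T.h (T.h (T.h (P (nat_lit 0)) (T.h (P (nat_lit 22022011508)) (T.h (P (nat_lit 0)) (T.h (P (nat_lit 0)) (T.h (P (nat_lit 0)) (P (nat_lit 35965642440))))))) (T.h (P (nat_lit 0)) (T.h (T.h (P (nat_lit 0)) (T.h (P (nat_lit 2921204272)) (T.h (P (nat_lit 0)) (P (nat_lit 99606599288))))) (T.h (P (nat_lit 0)) (T.h (T.h (P (nat_lit 0)) (M (nat_lit 44924611507))) (P (nat_lit 0))))))) (T.h (T.h (P (nat_lit 0)) (T.h (T.h (M (nat_lit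 2862947191)) (T.h (P (nat_lit 0)) (M (nat_lit 39897669139)))) (P (nat_lit 0)))) (T.h (T.h (T.h (P (nat_lit 0)) (T.h (P (nat_lit 18833537716)) (T.h (P (nat_lit 0)) (M (nat_lit 241013218095))))) (T.h (P (nat_lit 0)) (T.h (T.h (P (nat_lit 0)) (P (nat_lit 308794411996))) (P (nat_lit 0))))) (T.h (T.h (P (nat_lit 0)) (M (nat_lit 241815506351))) (T.h (T.h (T.h (P (nat_lit 0)) (P (nat_lit 806604795220))) (P (nat_lit 0))) (P (nat_lit 0))))))) (P (nat_lit 0)))) (T.h (T.h (T.h (T.h (P (nat_lit 0)) (T.h (T.h (P (nat_lit 22022011508)) (T.h (P (nat_lit 0)) (T.h (P (nat_lit 2921204272)) (T.h (P (nat_lit 0)) (M (nat_lit 44924611507)))))) (T.h (P (nat_lit 0)) (T.h (T.h (P (nat_lit 0)) (T.h (P (nat_lit 0)) (P (nat_lit 99606599288)))) (T.h (P (nat_lit 0)) (P (nat_lit 35965642440))))))) (T.h (T.h (T.h (P (nat_lit 0)) (M (nat_lit 2862947191))) (T.h (P (nat_lit 0)) (T.h (T.h (P (nat_lit 0)) (M (nat_lit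 39897669139))) (P (nat_lit 0))))) (T.h (T.h (P (nat_lit 0)) (T.h (T.h (P (nat_lit 18833537716)) (T.h (P (nat_lit 0)) (P (nat_lit 308794411996)))) (T.h (P (nat_lit 0)) (M (nat_lit 241013218095))))) (T.h (T.h (T.h (P (nat_lit 0)) (M (nat_lit 241815506351))) (P (nat_lit 0))) (T.h (T.h (P (nat_lit 0)) (P (nat_lit 806604795220))) (P (nat_lit 0))))))) (P (nat_lit 0))) (P (nat_lit 0)))) (T.h (T.h (T.h (T.h (P (nat_lit 0)) (T.h (T.h (P (nat_lit 0)) (T.h (P (nat_lit 0)) (T.h (T.h (P (nat_lit 0)) (T.h (P (nat_lit 0)) (M (nat_lit 1537258138695)))) (P (nat_lit 0))))) (P (nat_lit 0)))) (P (nat_lit 0))) (P (nat_lit 0))) (P (nat_lit 0)))))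
def et1_9 : T ℤ := (T.h (T.h (T.h (P (nat_lit 0)) (T.h (P (nat_lit 0)) (T.h (T.h (T.h (P (nat_lit 0)) (T.h (T.h (P (nat_lit 0)) (T.h (M (nat_lit 5410940963)) (T.h (P (nat_lit 0)) (P (nat_lit 52188219152))))) (T.h (P (nat_lit 0)) (T.h (T.h (P (nat_lit 0)) (P (nat_lit 179692885956))) (P (nat_lit 0)))))) (T.h (T.h (T.h (M (nat_lit 8429336759)) (T.h (P (nat_lit 0)) (T.h (M (nat_lit 45266965603)) (T.h (P (nat_lit 0)) (P (nat_lit 244701476852)))))) (T.h (P (nat_lit 0)) (T.h (T.h (P (nat_lit 25913868220)) (T.h (P (nat_lit 0)) (P (nat_lit 830856280988)))) (T.h (P (nat_lit 0)) (P (nat_lit 125446591852)))))) (T.h (T.h (P (nat_lit 0)) (T.h (T.h (P (nat_lit 0)) (P (nat_lit 421084079500))) (P (nat_lit 0)))) (T.h (T.h (T.h (M (nat_lit 6163409947)) (T.h (P (nat_lit 0)) (P (nat_lit 770830061288)))) (T.h (P (nat_lit 0)) (P (nat_lit 236853066644)))) (T.h (P (nat_lit 0)) (P (nat_lit 102793751012)))))))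 (T.h (P (nat_lit 0)) (T.h (T.h (T.h (P (nat_lit 0)) (T.h (T.h (P (nat_lit 0)) (T.h (M (nat_lit 29434259063)) (T.h (P (nat_lit 0)) (M (nat_lit 97707975259))))) (T.h (P (nat_lit 0)) (T.h (T.h (P (nat_lit 0)) (M (nat_lit 380993022171))) (P (nat_lit 0)))))) (T.h (T.h (T.h (P (nat_lit 20449257360)) (T.h (P (nat_lit 0)) (T.h (P (nat_lit 87878290360)) (T.h (P (nat_lit 0)) (M (nat_lit 33573604455)))))) (T.h (P (nat_lit 0)) (T.h (T.h (M (nat_lit 30247740123)) (T.h (P (nat_lit 0)) (M (nat_lit 7156228656415)))) (T.h (P (nat_lit 0)) (P (nat_lit 174468592956)))))) (T.h (T.h (P (nat_lit 0)) (T.h (T.h (P (nat_lit 0)) (M (nat_lit 460457056527))) (P (nat_lit 0)))) (T.h (T.h (T.h (M (nat_lit 19389460383)) (T.h (P (nat_lit 0)) (M (nat_lit 980103097175)))) (T.h (P (nat_lit 0)) (M (nat_lit 67270153411)))) (T.h (P (nat_lit 0)) (M (nat_lit 29778813735))))))) (P (nat_lit 0))))))) et1_6) (T.h (T.h (T.h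 (P (nat_lit 0)) (T.h (T.h (T.h (T.h (P (nat_lit 0)) (T.h (M (nat_lit 22119607655)) (T.h (P (nat_lit 0)) (T.h (M (nat_lit 12522183031)) (T.h (P (nat_lit 0)) (M (nat_lit 55363325331))))))) (T.h (P (nat_lit 0)) (T.h (T.h (P (nat_lit 0)) (T.h (M (nat_lit 3843624651)) (T.h (P (nat_lit 0)) (M (nat_lit 54242259935))))) (T.h (P (nat_lit 0)) (T.h (T.h (P (nat_lit 0)) (M (nat_lit 52597195063))) (P (nat_lit 0))))))) (T.h (T.h (P (nat_lit 0)) (T.h (T.h (P (nat_lit 6979114096)) (T.h (P (nat_lit 0)) (M (nat_lit 89980445939)))) (T.h (P (nat_lit 0)) (M (nat_lit 10940108111))))) (T.h (T.h (T.h (P (nat_lit 0)) (T.h (M (nat_lit 19711784843)) (T.h (P (nat_lit 0)) (P (nat_lit 579404563324))))) (T.h (P (nat_lit 0)) (T.h (T.h (P (nat_lit 0)) (P (nat_lit 1553709328728))) (P (nat_lit 0))))) (T.h (T.h (P (nat_lit 0)) (P (nat_lit 11817949084))) (T.h (T.h (T.h (P (nat_lit 0)) (M (nat_lit 956972812611)))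 (P (nat_lit 0))) (P (nat_lit 0))))))) (T.h (P (nat_lit 0)) (T.h (T.h (T.h (T.h (P (nat_lit 0)) (T.h (P (nat_lit 20449257360)) (T.h (P (nat_lit 0)) (T.h (M (nat_lit 19389460383)) (T.h (P (nat_lit 0)) (M (nat_lit 29778813735))))))) (T.h (P (nat_lit 0)) (T.h (T.h (P (nat_lit 0)) (T.h (M (nat_lit 30247740123)) (T.h (P (nat_lit 0)) (M (nat_lit 67270153411))))) (T.h (P (nat_lit 0)) (T.h (T.h (P (nat_lit 0)) (P (nat_lit 174468592956))) (P (nat_lit 0))))))) (T.h (T.h (P (nat_lit 0)) (T.h (T.h (M (nat_lit 29434259063)) (T.h (P (nat_lit 0)) (M (nat_lit 460457056527)))) (T.h (P (nat_lit 0)) (M (nat_lit 380993022171))))) (T.h (T.h (T.h (P (nat_lit 0)) (T.h (P (nat_lit 87878290360)) (T.h (P (nat_lit 0)) (M (nat_lit 980103097175))))) (T.h (P (nat_lit 0)) (T.h (T.h (P (nat_lit 0)) (M (nat_lit 7156228656415))) (P (nat_lit 0))))) (T.h (T.h (P (nat_lit 0)) (M (nat_lit 97707975259))) (T.h (T.h (T.h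 (P (nat_lit 0)) (M (nat_lit 33573604455))) (P (nat_lit 0))) (P (nat_lit 0))))))) (P (nat_lit 0)))))) et1_7) et1_8))

def t1 : T ℤ := (T.h (T.h (T.h (P (nat_lit 0)) (T.h (P (nat_lit 0)) (T.h (P (nat_lit 0)) (T.h (P (nat_lit 0)) (T.h (P (nat_lit 0)) (T.h (T.h (T.h (T.h (P (nat_lit 0)) (T.h (P (nat_lit 0)) (T.h (P (nat_lit 0)) (T.h (M (nat_lit 19862711919)) (T.h (P (nat_lit 0)) (P (nat_lit 189007622400))))))) (T.h (P (nat_lit 0)) (T.h (T.h (P (nat_lit 0)) (T.h (M (nat_lit 592559127)) (T.h (P (nat_lit 0)) (P (nat_lit 307061251116))))) (T.h (P (nat_lit 0)) (T.h (T.h (P (nat_lit 0)) (M (nat_lit 14648283327))) (P (nat_lit 0))))))) (T.h (T.h (P (nat_lit 0)) (T.h (T.h (P (nat_lit 0)) (T.h (P (nat_lit 0)) (P (nat_lit 140037878296)))) (T.h (P (nat_lit 0)) (P (nat_lit 2865383632))))) (T.h (T.h (T.h (P (nat_lit 0)) (T.h (M (nat_lit 592559127)) (T.h (P (nat_lit 0)) (P (nat_lit 307061251116)))))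 (T.h (P (nat_lit 0)) (T.h (T.h (P (nat_lit 0)) (P (nat_lit 1317649833168))) (P (nat_lit 0))))) (T.h (T.h (P (nat_lit 0)) (P (nat_lit 2865383632))) (T.h (T.h (T.h (P (nat_lit 0)) (M (nat_lit 14648283327))) (P (nat_lit 0))) (P (nat_lit 0))))))) (T.h (P (nat_lit 0)) (T.h (T.h (P (nat_lit 0)) (T.h (P (nat_lit 0)) (T.h (T.h (P (nat_lit 0)) (T.h (P (nat_lit 0)) (T.h (T.h (P (nat_lit 0)) (M (nat_lit 1537258138695))) (P (nat_lit 0))))) (P (nat_lit 0))))) (P (nat_lit 0)))))))))) (T.h (T.h (P (nat_lit 0)) (T.h (P (nat_lit 0)) (T.h (P (nat_lit 0)) (T.h (P (nat_lit 0)) (T.h (T.h (T.h (P (nat_lit 0)) (T.h (T.h (M (nat_lit 22119607655)) (T.h (P (nat_lit 0)) (T.h (M (nat_lit 19711784843)) (T.h (P (nat_lit 0)) (M (nat_lit 956972812611)))))) (T.h (P (nat_lit 0)) (T.h (T.h (M (nat_lit 12522183031)) (T.h (P (nat_lit 0)) (P (nat_lit 579404563324)))) (T.h (P (nat_lit 0)) (M (nat_lit 55363325331)))))))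 (T.h (T.h (T.h (P (nat_lit 0)) (T.h (P (nat_lit 6979114096)) (T.h (P (nat_lit 0)) (P (nat_lit 11817949084))))) (T.h (P (nat_lit 0)) (T.h (T.h (P (nat_lit 0)) (M (nat_lit 89980445939))) (P (nat_lit 0))))) (T.h (T.h (P (nat_lit 0)) (T.h (T.h (M (nat_lit 3843624651)) (T.h (P (nat_lit 0)) (P (nat_lit 1553709328728)))) (T.h (P (nat_lit 0)) (M (nat_lit 54242259935))))) (T.h (T.h (T.h (P (nat_lit 0)) (M (nat_lit 10940108111))) (P (nat_lit 0))) (T.h (T.h (P (nat_lit 0)) (M (nat_lit 52597195063))) (P (nat_lit 0))))))) (T.h (P (nat_lit 0)) (T.h (T.h (T.h (P (nat_lit 0)) (T.h (T.h (P (nat_lit 22022011508)) (T.h (P (nat_lit 0)) (T.h (P (nat_lit 18833537716)) (T.h (P (nat_lit 0)) (P (nat_lit 806604795220)))))) (T.h (P (nat_lit 0)) (T.h (T.h (P (nat_lit 0)) (T.h (P (nat_lit 0)) (M (nat_lit 241013218095)))) (T.h (P (nat_lit 0)) (P (nat_lit 35965642440))))))) (T.h (T.h (T.h (P (nat_lit 0)) (T.h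 (M (nat_lit 2862947191)) (T.h (P (nat_lit 0)) (M (nat_lit 241815506351))))) (T.h (P (nat_lit 0)) (T.h (T.h (P (nat_lit 0)) (M (nat_lit 39897669139))) (P (nat_lit 0))))) (T.h (T.h (P (nat_lit 0)) (T.h (T.h (P (nat_lit 2921204272)) (T.h (P (nat_lit 0)) (P (nat_lit 308794411996)))) (T.h (P (nat_lit 0)) (P (nat_lit 99606599288))))) (T.h (P (nat_lit 0)) (T.h (T.h (P (nat_lit 0)) (M (nat_lit 44924611507))) (P (nat_lit 0))))))) (P (nat_lit 0))))))))) et1_1)) (T.h et1_3 (T.h et1_5 et1_9)))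

theorem h_t1 : chkT (c.G g1) t1 = true := by decide +kernel


end Pool.Agent.TOPR.R6042
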