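import Pool.Agent.TOPR.R6042.Cert

set_option autoImplicit false
set_option linter.all false
set_option maxRecDepth 100000

namespace Pool.Agent.TOPR.R6042

open Helper10.PC hiding V3
open Helper80.CW.DL Pool.Agent.Helper6.TOP

def et2_0 : T ℤ := (T.h (T.h (P (nat_lit 0)) (T.h (P (nat_lit 0)) (T.h (T.h (T.h (T.h (P (nat_lit 0)) (T.h (P (nat_lit 0)) (T.h (M (nat_lit 5966230671)) (T.h (P (nat_lit 0)) (P (nat_lit 43059479680)))))) (T.h (P (nat_lit 0)) (T.h (T.h (M (nat_lit 9250117147)) (T.h (P (nat_lit 0)) (P (nat_lit 207478474464)))) (T.h (P (nat_lit 0)) (P (nat_lit 915073044)))))) (T.h (P (nat_lit 0)) (T.h (T.h (T.h (P (nat_lit 0)) (T.h (P (nat_lit 0)) (M (nat_lit 80046695555)))) (T.h (P (nat_lit 0)) (P (nat_lit 970254031396)))) (T.h (P (nat_lit 0)) (M (nat_lit 49069581475)))))) (T.h (P (nat_lit 0)) (T.h (T.h (T.h (T.h (P (nat_lit 5842644960)) (T.h (P (nat_lit 0)) (T.h (P (nat_lit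 4244272744)) (T.h (P (nat_lit 0)) (M (nat_lit 26066810447)))))) (T.h (P (nat_lit 0)) (T.h (T.h (P (nat_lit 4244272744)) (T.h (P (nat_lit 0)) (M (nat_lit 840088369007)))) (T.h (P (nat_lit 0)) (M (nat_lit 26066810447)))))) (T.h (T.h (P (nat_lit 0)) (T.h (T.h (P (nat_lit 0)) (M (nat_lit 263118318015))) (P (nat_lit 0)))) (T.h (T.h (T.h (M (nat_lit 8642211463)) (T.h (P (nat_lit 0)) (M (nat_lit 1051148445235)))) (T.h (P (nat_lit 0)) (M (nat_lit 1051148445235)))) (T.h (P (nat_lit 0)) (P (nat_lit 49848169416)))))) (P (nat_lit 0))))))) (T.h (T.h (P (nat_lit 0)) (T.h (T.h (T.h (P (nat_lit 0)) (T.h (T.h (P (nat_lit 0)) (T.h (P (nat_lit 1039229760)) (T.h (P (nat_lit 0)) (P (nat_lit 75485724736))))) (T.h (P (nat_lit 0)) (T.h (T.h (P (nat_lit 0)) (M (nat_lit 408203863715))) (P (nat_lit 0)))))) (T.h (T.h (T.h (P (nat_lit 0)) (T.h (P (nat_lit 0)) (P (nat_lit 69188931128)))) (T.h (P (nat_lit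 0)) (P (nat_lit 70018939148)))) (T.h (T.h (P (nat_lit 0)) (T.h (T.h (P (nat_lit 0)) (P (nat_lit 350911139328))) (P (nat_lit 0)))) (P (nat_lit 2865383632))))) (T.h (P (nat_lit 0)) (T.h (T.h (T.h (P (nat_lit 0)) (T.h (T.h (P (nat_lit 0)) (T.h (P (nat_lit 24068853200)) (T.h (P (nat_lit 0)) (M (nat_lit 356321380127))))) (T.h (P (nat_lit 0)) (T.h (T.h (P (nat_lit 0)) (M (nat_lit 198485094335))) (P (nat_lit 0)))))) (T.h (T.h (T.h (M (nat_lit 4204894151)) (T.h (P (nat_lit 0)) (M (nat_lit 65779579503)))) (T.h (P (nat_lit 0)) (M (nat_lit 111893785687)))) (T.h (T.h (P (nat_lit 0)) (T.h (T.h (P (nat_lit 0)) (M (nat_lit 2044636758975))) (P (nat_lit 0)))) (M (nat_lit 57292958227))))) (P (nat_lit 0)))))) (T.h (T.h (T.h (T.h (T.h (P (nat_lit 1080448048)) (T.h (P (nat_lit 0)) (T.h (M (nat_lit 417314895)) (T.h (P (nat_lit 0)) (M (nat_lit 3617842535)))))) (T.h (P (nat_lit 0)) (T.h (T.h (M (nat_lit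 5381010775)) (T.h (P (nat_lit 0)) (P (nat_lit 59177891756)))) (T.h (P (nat_lit 0)) (P (nat_lit 89947841304)))))) (T.h (T.h (P (nat_lit 0)) (T.h (T.h (P (nat_lit 0)) (P (nat_lit 22798668080))) (P (nat_lit 0)))) (T.h (T.h (T.h (M (nat_lit 417314895)) (T.h (P (nat_lit 0)) (P (nat_lit 134231220424)))) (T.h (P (nat_lit 0)) (P (nat_lit 59177891756)))) (T.h (P (nat_lit 0)) (M (nat_lit 3617842535)))))) (T.h (P (nat_lit 0)) (T.h (T.h (T.h (T.h (P (nat_lit 3146001644)) (T.h (P (nat_lit 0)) (T.h (M (nat_lit 519614879)) (T.h (P (nat_lit 0)) (P (nat_lit 6616763652)))))) (T.h (P (nat_lit 0)) (T.h (T.h (P (nat_lit 32484573268)) (T.h (P (nat_lit 0)) (M (nat_lit 372241645439)))) (T.h (P (nat_lit 0)) (M (nat_lit 357289799539)))))) (T.h (T.h (P (nat_lit 0)) (T.h (T.h (P (nat_lit 0)) (M (nat_lit 151437212335))) (P (nat_lit 0)))) (T.h (T.h (T.h (P (nat_lit 1529488904)) (T.h (P (nat_lit 0)) (P (nat_lit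 42688542552)))) (T.h (P (nat_lit 0)) (M (nat_lit 835200498319)))) (T.h (P (nat_lit 0)) (P (nat_lit 27303462632)))))) (P (nat_lit 0))))) (T.h (T.h (P (nat_lit 0)) (T.h (T.h (T.h (P (nat_lit 0)) (T.h (T.h (P (nat_lit 0)) (T.h (P (nat_lit 5381010776)) (T.h (P (nat_lit 0)) (M (nat_lit 68860919455))))) (T.h (P (nat_lit 0)) (T.h (T.h (P (nat_lit 0)) (P (nat_lit 460917025840))) (P (nat_lit 0)))))) (T.h (T.h (T.h (M (nat_lit 408992455)) (T.h (P (nat_lit 0)) (M (nat_lit 5699667019)))) (T.h (P (nat_lit 0)) (M (nat_lit 103635217007)))) (T.h (T.h (P (nat_lit 0)) (T.h (T.h (P (nat_lit 0)) (M (nat_lit 350989636199))) (P (nat_lit 0)))) (P (nat_lit 0))))) (P (nat_lit 0)))) (T.h (T.h (T.h (P (nat_lit 0)) (T.h (P (nat_lit 0)) (T.h (T.h (T.h (P (nat_lit 0)) (T.h (P (nat_lit 0)) (M (nat_lit 219608305527)))) (P (nat_lit 0))) (P (nat_lit 0))))) (P (nat_lit 0))) (P (nat_lit 0)))))))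
def et2_1 : T ℤ := (T.h (T.h (P (nat_lit 0)) (T.h (P (nat_lit 0)) (T.h (P (nat_lit 0)) (T.h (P (nat_lit 0)) (T.h (P (nat_lit 0)) (T.h (T.h (T.h (P (nat_lit 0)) (T.h (T.h (P (nat_lit 0)) (T.h (P (nat_lit 1039229760)) (T.h (P (nat_lit 0)) (M (nat_lit 408203863715))))) (T.h (P (nat_lit 0)) (T.h (T.h (P (nat_lit 0)) (P (nat_lit 75485724736))) (P (nat_lit 0)))))) (T.h (T.h (T.h (P (nat_lit 0)) (T.h (P (nat_lit 0)) (P (nat_lit 70018939148)))) (T.h (P (nat_lit 0)) (P (nat_lit 69188931128)))) (T.h (T.h (P (nat_lit 0)) (T.h (T.h (P (nat_lit 0)) (P (nat_lit 350911139328))) (P (nat_lit 0)))) (P (nat_lit 2865383632))))) (T.h (P (nat_lit 0)) (T.h (T.h (T.h (P (nat_lit 0)) (T.h (T.h (P (nat_lit 0)) (T.h (P (nat_lit 5381010776)) (T.h (P (nat_lit 0)) (P (nat_lit 460917025840))))) (T.h (P (nat_lit 0)) (T.h (T.h (P (nat_lit 0)) (M (nat_lit 68860919455))) (P (nat_lit 0)))))) (T.h (T.h (T.h (M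 (nat_lit 408992455)) (T.h (P (nat_lit 0)) (M (nat_lit 103635217007)))) (T.h (P (nat_lit 0)) (M (nat_lit 5699667019)))) (T.h (T.h (P (nat_lit 0)) (T.h (T.h (P (nat_lit 0)) (M (nat_lit 350989636199))) (P (nat_lit 0)))) (P (nat_lit 0))))) (P (nat_lit 0)))))))))) (T.h (T.h (P (nat_lit 0)) (T.h (P (nat_lit 0)) (T.h (P (nat_lit 0)) (T.h (P (nat_lit 0)) (T.h (T.h (T.h (T.h (P (nat_lit 0)) (T.h (P (nat_lit 0)) (T.h (M (nat_lit 9250117147)) (T.h (P (nat_lit 0)) (P (nat_lit 915073044)))))) (T.h (P (nat_lit 0)) (T.h (T.h (M (nat_lit 5966230671)) (T.h (P (nat_lit 0)) (P (nat_lit 207478474464)))) (T.h (P (nat_lit 0)) (P (nat_lit 43059479680)))))) (T.h (P (nat_lit 0)) (T.h (T.h (T.h (P (nat_lit 0)) (T.h (P (nat_lit 0)) (P (nat_lit 970254031396)))) (T.h (P (nat_lit 0)) (M (nat_lit 80046695555)))) (T.h (P (nat_lit 0)) (M (nat_lit 49069581475)))))) (T.h (P (nat_lit 0)) (T.h (T.h (T.h (T.h (P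 (nat_lit 3146001644)) (T.h (P (nat_lit 0)) (T.h (P (nat_lit 32484573268)) (T.h (P (nat_lit 0)) (M (nat_lit 357289799539)))))) (T.h (P (nat_lit 0)) (T.h (T.h (M (nat_lit 519614879)) (T.h (P (nat_lit 0)) (M (nat_lit 372241645439)))) (T.h (P (nat_lit 0)) (P (nat_lit 6616763652)))))) (T.h (T.h (P (nat_lit 0)) (T.h (T.h (P (nat_lit 0)) (M (nat_lit 151437212335))) (P (nat_lit 0)))) (T.h (T.h (T.h (P (nat_lit 1529488904)) (T.h (P (nat_lit 0)) (M (nat_lit 835200498319)))) (T.h (P (nat_lit 0)) (P (nat_lit 42688542552)))) (T.h (P (nat_lit 0)) (P (nat_lit 27303462632)))))) (P (nat_lit 0))))))))) (T.h (T.h (P (nat_lit 0)) (T.h (P (nat_lit 0)) (T.h (P (nat_lit 0)) (T.h (T.h (T.h (P (nat_lit 0)) (T.h (T.h (P (nat_lit 0)) (T.h (M (nat_lit 13215697327)) (T.h (P (nat_lit 0)) (P (nat_lit 120848481636))))) (T.h (P (nat_lit 0)) (T.h (T.h (P (nat_lit 0)) (P (nat_lit 120848481636))) (P (nat_lit 0))))))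 (T.h (T.h (T.h (M (nat_lit 776733751)) (T.h (P (nat_lit 0)) (P (nat_lit 30446304652)))) (T.h (P (nat_lit 0)) (P (nat_lit 30446304652)))) (T.h (T.h (P (nat_lit 0)) (T.h (T.h (P (nat_lit 0)) (P (nat_lit 2167433760232))) (P (nat_lit 0)))) (P (nat_lit 119795257304))))) (T.h (P (nat_lit 0)) (T.h (T.h (T.h (P (nat_lit 0)) (T.h (T.h (P (nat_lit 0)) (T.h (P (nat_lit 24068853200)) (T.h (P (nat_lit 0)) (M (nat_lit 198485094335))))) (T.h (P (nat_lit 0)) (T.h (T.h (P (nat_lit 0)) (M (nat_lit 356321380127))) (P (nat_lit 0)))))) (T.h (T.h (T.h (M (nat_lit 4204894151)) (T.h (P (nat_lit 0)) (M (nat_lit 111893785687)))) (T.h (P (nat_lit 0)) (M (nat_lit 65779579503)))) (T.h (T.h (P (nat_lit 0)) (T.h (T.h (P (nat_lit 0)) (M (nat_lit 2044636758975))) (P (nat_lit 0)))) (M (nat_lit 57292958227))))) (P (nat_lit 0)))))))) et2_0)))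
def et2_2 : T ℤ := (T.h (T.h (P (nat_lit 0)) (T.h (P (nat_lit 0)) (T.h (T.h (T.h (T.h (P (nat_lit 0)) (T.h (M (nat_lit 4245840335)) (T.h (P (nat_lit 0)) (P (nat_lit 186087372024))))) (T.h (P (nat_lit 0)) (T.h (T.h (P (nat_lit 0)) (P (nat_lit 1186134552748))) (P (nat_lit 0))))) (T.h (T.h (P (nat_lit 0)) (T.h (T.h (M (nat_lit 82513660671)) (T.h (P (nat_lit 0)) (M (nat_lit 2050778531943)))) (T.h (P (nat_lit 0)) (P (nat_lit 481381662512))))) (T.h (P (nat_lit 0)) (T.h (T.h (P (nat_lit 0)) (P (nat_lit 302473457648))) (P (nat_lit 0)))))) (T.h (P (nat_lit 0)) (T.h (T.h (T.h (T.h (P (nat_lit 0)) (T.h (P (nat_lit 6336185672)) (T.h (P (nat_lit 0)) (M (nat_lit 295100554255))))) (T.h (P (nat_lit 0)) (T.h (T.h (P (nat_lit 0)) (M (nat_lit 1400419054907))) (P (nat_lit 0))))) (T.h (T.h (P (nat_lit 0)) (T.h (T.h (P (nat_lit 68416056224)) (T.h (P (nat_lit 0)) (M (nat_lit 1205047207995)))) (T.h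 (P (nat_lit 0)) (M (nat_lit 586126489403))))) (T.h (T.h (T.h (P (nat_lit 0)) (M (nat_lit 73302277847))) (P (nat_lit 0))) (T.h (T.h (P (nat_lit 0)) (M (nat_lit 670692662567))) (P (nat_lit 0)))))) (P (nat_lit 0))))))) (T.h (T.h (P (nat_lit 0)) (T.h (T.h (T.h (P (nat_lit 0)) (T.h (T.h (M (nat_lit 4414815919)) (T.h (P (nat_lit 0)) (P (nat_lit 318090039084)))) (T.h (P (nat_lit 0)) (P (nat_lit 253388172664))))) (T.h (T.h (T.h (P (nat_lit 0)) (T.h (M (nat_lit 15374498607)) (T.h (P (nat_lit 0)) (M (nat_lit 96672941103))))) (T.h (P (nat_lit 0)) (T.h (T.h (P (nat_lit 0)) (P (nat_lit 956884485184))) (P (nat_lit 0))))) (T.h (T.h (P (nat_lit 0)) (P (nat_lit 318090039084))) (T.h (T.h (T.h (P (nat_lit 0)) (M (nat_lit 96672941103))) (P (nat_lit 0))) (P (nat_lit 0)))))) (T.h (P (nat_lit 0)) (T.h (T.h (T.h (P (nat_lit 0)) (T.h (T.h (P (nat_lit 6336185672)) (T.h (P (nat_lit 0)) (M (nat_lit 1400419054907))))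 (T.h (P (nat_lit 0)) (M (nat_lit 295100554255))))) (T.h (T.h (T.h (P (nat_lit 0)) (T.h (P (nat_lit 68416056224)) (T.h (P (nat_lit 0)) (M (nat_lit 586126489403))))) (T.h (P (nat_lit 0)) (T.h (T.h (P (nat_lit 0)) (M (nat_lit 1205047207995))) (P (nat_lit 0))))) (T.h (T.h (P (nat_lit 0)) (M (nat_lit 73302277847))) (T.h (T.h (T.h (P (nat_lit 0)) (M (nat_lit 670692662567))) (P (nat_lit 0))) (P (nat_lit 0)))))) (P (nat_lit 0)))))) (T.h (T.h (T.h (T.h (T.h (P (nat_lit 0)) (T.h (P (nat_lit 0)) (T.h (P (nat_lit 0)) (P (nat_lit 2865383632))))) (T.h (P (nat_lit 0)) (T.h (T.h (P (nat_lit 0)) (P (nat_lit 70018939148))) (P (nat_lit 0))))) (T.h (T.h (P (nat_lit 0)) (T.h (T.h (P (nat_lit 1039229760)) (T.h (P (nat_lit 0)) (P (nat_lit 350911139328)))) (T.h (P (nat_lit 0)) (M (nat_lit 408203863715))))) (T.h (T.h (T.h (P (nat_lit 0)) (P (nat_lit 69188931128))) (P (nat_lit 0))) (T.h (T.h (P (nat_lit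 0)) (P (nat_lit 75485724736))) (P (nat_lit 0)))))) (T.h (P (nat_lit 0)) (T.h (T.h (T.h (T.h (P (nat_lit 0)) (T.h (P (nat_lit 624342136)) (T.h (P (nat_lit 0)) (M (nat_lit 111612872867))))) (T.h (P (nat_lit 0)) (T.h (T.h (P (nat_lit 0)) (M (nat_lit 1184589410703))) (P (nat_lit 0))))) (T.h (T.h (P (nat_lit 0)) (T.h (T.h (P (nat_lit 84342933312)) (T.h (P (nat_lit 0)) (P (nat_lit 1524347590080)))) (T.h (P (nat_lit 0)) (M (nat_lit 577831310767))))) (T.h (T.h (T.h (P (nat_lit 0)) (P (nat_lit 77013996612))) (P (nat_lit 0))) (T.h (T.h (P (nat_lit 0)) (M (nat_lit 689910106319))) (P (nat_lit 0)))))) (P (nat_lit 0))))) (T.h (T.h (P (nat_lit 0)) (T.h (T.h (T.h (P (nat_lit 0)) (T.h (T.h (M (nat_lit 4278510863)) (T.h (P (nat_lit 0)) (M (nat_lit 276843322347)))) (T.h (P (nat_lit 0)) (M (nat_lit 330086579167))))) (T.h (T.h (T.h (P (nat_lit 0)) (T.h (P (nat_lit 1669259584)) (T.h (P (nat_lit 0))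 (M (nat_lit 113376358927))))) (T.h (P (nat_lit 0)) (T.h (T.h (P (nat_lit 0)) (M (nat_lit 143398053655))) (P (nat_lit 0))))) (T.h (T.h (P (nat_lit 0)) (M (nat_lit 276843322347))) (T.h (T.h (T.h (P (nat_lit 0)) (M (nat_lit 113376358927))) (P (nat_lit 0))) (P (nat_lit 0)))))) (P (nat_lit 0)))) (T.h (T.h (T.h (T.h (T.h (P (nat_lit 0)) (M (nat_lit 408992455))) (T.h (P (nat_lit 0)) (T.h (T.h (P (nat_lit 0)) (M (nat_lit 103635217007))) (P (nat_lit 0))))) (T.h (T.h (P (nat_lit 0)) (T.h (T.h (P (nat_lit 5381010776)) (T.h (P (nat_lit 0)) (M (nat_lit 350989636199)))) (T.h (P (nat_lit 0)) (P (nat_lit 460917025840))))) (T.h (T.h (T.h (P (nat_lit 0)) (M (nat_lit 5699667019))) (P (nat_lit 0))) (T.h (T.h (P (nat_lit 0)) (M (nat_lit 68860919455))) (P (nat_lit 0)))))) (P (nat_lit 0))) (P (nat_lit 0)))))))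
def et2_3 : T ℤ := (T.h (T.h (P (nat_lit 0)) (T.h (P (nat_lit 0)) (T.h (P (nat_lit 0)) (T.h (P (nat_lit 0)) (T.h (P (nat_lit 0)) (T.h (T.h (T.h (P (nat_lit 0)) (T.h (T.h (P (nat_lit 0)) (T.h (P (nat_lit 0)) (P (nat_lit 70018939148)))) (T.h (P (nat_lit 0)) (P (nat_lit 2865383632))))) (T.h (T.h (T.h (P (nat_lit 0)) (T.h (P (nat_lit 1039229760)) (T.h (P (nat_lit 0)) (M (nat_lit 408203863715))))) (T.h (P (nat_lit 0)) (T.h (T.h (P (nat_lit 0)) (P (nat_lit 350911139328))) (P (nat_lit 0))))) (T.h (T.h (P (nat_lit 0)) (P (nat_lit 69188931128))) (T.h (T.h (T.h (P (nat_lit 0)) (P (nat_lit 75485724736))) (P (nat_lit 0))) (P (nat_lit 0)))))) (T.h (P (nat_lit 0)) (T.h (T.h (T.h (P (nat_lit 0)) (T.h (T.h (M (nat_lit 408992455)) (T.h (P (nat_lit 0)) (M (nat_lit 103635217007)))) (P (nat_lit 0)))) (T.h (T.h (T.h (P (nat_lit 0)) (T.h (P (nat_lit 5381010776)) (T.h (P (nat_lit 0)) (P (nat_lit 460917025840)))))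 (T.h (P (nat_lit 0)) (T.h (T.h (P (nat_lit 0)) (M (nat_lit 350989636199))) (P (nat_lit 0))))) (T.h (T.h (P (nat_lit 0)) (M (nat_lit 5699667019))) (T.h (T.h (T.h (P (nat_lit 0)) (M (nat_lit 68860919455))) (P (nat_lit 0))) (P (nat_lit 0)))))) (P (nat_lit 0)))))))))) (T.h (T.h (P (nat_lit 0)) (T.h (P (nat_lit 0)) (T.h (P (nat_lit 0)) (T.h (P (nat_lit 0)) (T.h (T.h (T.h (T.h (P (nat_lit 0)) (T.h (M (nat_lit 4414815919)) (T.h (P (nat_lit 0)) (P (nat_lit 253388172664))))) (T.h (P (nat_lit 0)) (T.h (T.h (P (nat_lit 0)) (P (nat_lit 318090039084))) (P (nat_lit 0))))) (T.h (T.h (P (nat_lit 0)) (T.h (T.h (M (nat_lit 15374498607)) (T.h (P (nat_lit 0)) (P (nat_lit 956884485184)))) (T.h (P (nat_lit 0)) (M (nat_lit 96672941103))))) (T.h (T.h (T.h (P (nat_lit 0)) (P (nat_lit 318090039084))) (P (nat_lit 0))) (T.h (T.h (P (nat_lit 0)) (M (nat_lit 96672941103))) (P (nat_lit 0)))))) (T.h (P (nat_lit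 0)) (T.h (T.h (T.h (T.h (P (nat_lit 0)) (T.h (M (nat_lit 4278510863)) (T.h (P (nat_lit 0)) (M (nat_lit 330086579167))))) (T.h (P (nat_lit 0)) (T.h (T.h (P (nat_lit 0)) (M (nat_lit 276843322347))) (P (nat_lit 0))))) (T.h (T.h (P (nat_lit 0)) (T.h (T.h (P (nat_lit 1669259584)) (T.h (P (nat_lit 0)) (M (nat_lit 143398053655)))) (T.h (P (nat_lit 0)) (M (nat_lit 113376358927))))) (T.h (T.h (T.h (P (nat_lit 0)) (M (nat_lit 276843322347))) (P (nat_lit 0))) (T.h (T.h (P (nat_lit 0)) (M (nat_lit 113376358927))) (P (nat_lit 0)))))) (P (nat_lit 0))))))))) (T.h (T.h (P (nat_lit 0)) (T.h (P (nat_lit 0)) (T.h (P (nat_lit 0)) (T.h (T.h (T.h (P (nat_lit 0)) (T.h (T.h (M (nat_lit 4245840335)) (T.h (P (nat_lit 0)) (P (nat_lit 1186134552748)))) (T.h (P (nat_lit 0)) (P (nat_lit 186087372024))))) (T.h (T.h (T.h (P (nat_lit 0)) (T.h (M (nat_lit 82513660671)) (T.h (P (nat_lit 0)) (P (nat_lit 481381662512)))))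 (T.h (P (nat_lit 0)) (T.h (T.h (P (nat_lit 0)) (M (nat_lit 2050778531943))) (P (nat_lit 0))))) (T.h (P (nat_lit 0)) (T.h (T.h (T.h (P (nat_lit 0)) (P (nat_lit 302473457648))) (P (nat_lit 0))) (P (nat_lit 0)))))) (T.h (P (nat_lit 0)) (T.h (T.h (T.h (P (nat_lit 0)) (T.h (T.h (P (nat_lit 624342136)) (T.h (P (nat_lit 0)) (M (nat_lit 1184589410703)))) (T.h (P (nat_lit 0)) (M (nat_lit 111612872867))))) (T.h (T.h (T.h (P (nat_lit 0)) (T.h (P (nat_lit 84342933312)) (T.h (P (nat_lit 0)) (M (nat_lit 577831310767))))) (T.h (P (nat_lit 0)) (T.h (T.h (P (nat_lit 0)) (P (nat_lit 1524347590080))) (P (nat_lit 0))))) (T.h (T.h (P (nat_lit 0)) (P (nat_lit 77013996612))) (T.h (T.h (T.h (P (nat_lit 0)) (M (nat_lit 689910106319))) (P (nat_lit 0))) (P (nat_lit 0)))))) (P (nat_lit 0)))))))) et2_2)))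
def et2_4 : T ℤ := (T.h (T.h (P (nat_lit 0)) (T.h (P (nat_lit 0)) (T.h (T.h (T.h (T.h (P (nat_lit 4301823600)) (T.h (P (nat_lit 0)) (T.h (M (nat_lit 63357327135)) (T.h (P (nat_lit 0)) (M (nat_lit 321543556535)))))) (T.h (P (nat_lit 0)) (T.h (T.h (M (nat_lit 63357327135)) (T.h (P (nat_lit 0)) (M (nat_lit 1205560968911)))) (T.h (P (nat_lit 0)) (M (nat_lit 321543556535)))))) (T.h (T.h (P (nat_lit 0)) (T.h (T.h (P (nat_lit 0)) (P (nat_lit 1550511869712))) (P (nat_lit 0)))) (T.h (T.h (T.h (M (nat_lit 63357327135)) (T.h (P (nat_lit 0)) (M (nat_lit 1205560968911)))) (T.h (P (nat_lit 0)) (M (nat_lit 1205560968911)))) (T.h (P (nat_lit 0)) (M (nat_lit 321543556535)))))) (T.h (P (nat_lit 0)) (T.h (T.h (T.h (T.h (P (nat_lit 5273756072)) (T.h (P (nat_lit 0)) (T.h (P (nat_lit 168957657400)) (T.h (P (nat_lit 0)) (M (nat_lit 732348282759)))))) (T.h (P (nat_lit 0)) (T.h (T.h (P (nat_lit 101459709572))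 (T.h (P (nat_lit 0)) (M (nat_lit 429933765443)))) (T.h (P (nat_lit 0)) (M (nat_lit 67840468595)))))) (T.h (T.h (P (nat_lit 0)) (T.h (T.h (P (nat_lit 0)) (M (nat_lit 1051896870095))) (P (nat_lit 0)))) (T.h (T.h (T.h (P (nat_lit 101459709572)) (T.h (P (nat_lit 0)) (M (nat_lit 429933765443)))) (T.h (P (nat_lit 0)) (P (nat_lit 1187260437872)))) (T.h (P (nat_lit 0)) (M (nat_lit 67840468595)))))) (P (nat_lit 0))))))) (T.h (T.h (P (nat_lit 0)) (T.h (T.h (T.h (P (nat_lit 0)) (T.h (T.h (P (nat_lit 0)) (T.h (M (nat_lit 82513660671)) (T.h (P (nat_lit 0)) (P (nat_lit 302473457648))))) (T.h (P (nat_lit 0)) (T.h (T.h (P (nat_lit 0)) (P (nat_lit 481381662512))) (P (nat_lit 0)))))) (T.h (T.h (M (nat_lit 4245840335)) (T.h (P (nat_lit 0)) (P (nat_lit 1186134552748)))) (T.h (T.h (P (nat_lit 0)) (T.h (T.h (P (nat_lit 0)) (M (nat_lit 2050778531943))) (P (nat_lit 0)))) (P (nat_lit 186087372024)))))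 (T.h (P (nat_lit 0)) (T.h (T.h (T.h (P (nat_lit 0)) (T.h (T.h (P (nat_lit 0)) (T.h (P (nat_lit 273771777648)) (T.h (P (nat_lit 0)) (M (nat_lit 1455703322123))))) (T.h (P (nat_lit 0)) (T.h (T.h (P (nat_lit 0)) (M (nat_lit 1455703322123))) (P (nat_lit 0)))))) (T.h (T.h (T.h (P (nat_lit 7209340432)) (T.h (P (nat_lit 0)) (M (nat_lit 968473808939)))) (T.h (P (nat_lit 0)) (M (nat_lit 968473808939)))) (T.h (T.h (P (nat_lit 0)) (T.h (T.h (P (nat_lit 0)) (M (nat_lit 854761978791))) (P (nat_lit 0)))) (M (nat_lit 385257715111))))) (P (nat_lit 0)))))) (T.h (T.h (T.h (T.h (T.h (P (nat_lit 0)) (T.h (P (nat_lit 0)) (T.h (P (nat_lit 0)) (T.h (P (nat_lit 0)) (M (nat_lit 49069581475)))))) (T.h (P (nat_lit 0)) (T.h (T.h (M (nat_lit 9250117147)) (T.h (P (nat_lit 0)) (P (nat_lit 970254031396)))) (T.h (P (nat_lit 0)) (P (nat_lit 915073044)))))) (T.h (P (nat_lit 0)) (T.h (T.h (T.h (M (nat_lit 5966230671))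 (T.h (P (nat_lit 0)) (M (nat_lit 80046695555)))) (T.h (P (nat_lit 0)) (P (nat_lit 207478474464)))) (T.h (P (nat_lit 0)) (P (nat_lit 43059479680)))))) (T.h (P (nat_lit 0)) (T.h (T.h (T.h (T.h (P (nat_lit 5273756072)) (T.h (P (nat_lit 0)) (T.h (P (nat_lit 101459709572)) (T.h (P (nat_lit 0)) (M (nat_lit 67840468595)))))) (T.h (P (nat_lit 0)) (T.h (T.h (P (nat_lit 168957657400)) (T.h (P (nat_lit 0)) (M (nat_lit 429933765443)))) (T.h (P (nat_lit 0)) (M (nat_lit 732348282759)))))) (T.h (T.h (P (nat_lit 0)) (T.h (T.h (P (nat_lit 0)) (M (nat_lit 1051896870095))) (P (nat_lit 0)))) (T.h (T.h (T.h (P (nat_lit 101459709572)) (T.h (P (nat_lit 0)) (P (nat_lit 1187260437872)))) (T.h (P (nat_lit 0)) (M (nat_lit 429933765443)))) (T.h (P (nat_lit 0)) (M (nat_lit 67840468595)))))) (P (nat_lit 0))))) (T.h (T.h (P (nat_lit 0)) (T.h (T.h (T.h (P (nat_lit 0)) (T.h (T.h (P (nat_lit 0)) (T.h (P (nat_lit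 84342933312)) (T.h (P (nat_lit 0)) (M (nat_lit 689910106319))))) (T.h (P (nat_lit 0)) (T.h (T.h (P (nat_lit 0)) (M (nat_lit 577831310767))) (P (nat_lit 0)))))) (T.h (T.h (T.h (P (nat_lit 624342136)) (T.h (P (nat_lit 0)) (P (nat_lit 77013996612)))) (T.h (P (nat_lit 0)) (M (nat_lit 1184589410703)))) (T.h (T.h (P (nat_lit 0)) (T.h (T.h (P (nat_lit 0)) (P (nat_lit 1524347590080))) (P (nat_lit 0)))) (M (nat_lit 111612872867))))) (P (nat_lit 0)))) (T.h (T.h (T.h (T.h (T.h (P (nat_lit 3146001644)) (T.h (P (nat_lit 0)) (T.h (P (nat_lit 1529488904)) (T.h (P (nat_lit 0)) (P (nat_lit 27303462632)))))) (T.h (P (nat_lit 0)) (T.h (T.h (P (nat_lit 32484573268)) (T.h (P (nat_lit 0)) (M (nat_lit 835200498319)))) (T.h (P (nat_lit 0)) (M (nat_lit 357289799539)))))) (T.h (T.h (P (nat_lit 0)) (T.h (T.h (P (nat_lit 0)) (M (nat_lit 151437212335))) (P (nat_lit 0)))) (T.h (T.h (T.h (M (nat_lit 519614879))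 (T.h (P (nat_lit 0)) (P (nat_lit 42688542552)))) (T.h (P (nat_lit 0)) (M (nat_lit 372241645439)))) (T.h (P (nat_lit 0)) (P (nat_lit 6616763652)))))) (P (nat_lit 0))) (P (nat_lit 0)))))))
def et2_5 : T ℤ := (T.h (T.h (P (nat_lit 0)) (T.h (P (nat_lit 0)) (T.h (T.h (T.h (T.h (P (nat_lit 0)) (T.h (M (nat_lit 4245840335)) (T.h (P (nat_lit 0)) (P (nat_lit 186087372024))))) (P (nat_lit 0))) (T.h (T.h (P (nat_lit 0)) (T.h (T.h (M (nat_lit 82513660671)) (T.h (P (nat_lit 0)) (M (nat_lit 2050778531943)))) (T.h (P (nat_lit 0)) (P (nat_lit 302473457648))))) (T.h (T.h (T.h (P (nat_lit 0)) (P (nat_lit 1186134552748))) (P (nat_lit 0))) (T.h (T.h (P (nat_lit 0)) (P (nat_lit 481381662512))) (P (nat_lit 0)))))) (T.h (P (nat_lit 0)) (T.h (T.h (T.h (T.h (P (nat_lit 0)) (T.h (P (nat_lit 6336185672)) (T.h (P (nat_lit 0)) (M (nat_lit 295100554255))))) (T.h (P (nat_lit 0)) (T.h (T.h (P (nat_lit 0))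 (M (nat_lit 73302277847))) (P (nat_lit 0))))) (T.h (T.h (P (nat_lit 0)) (T.h (T.h (P (nat_lit 68416056224)) (T.h (P (nat_lit 0)) (M (nat_lit 1205047207995)))) (T.h (P (nat_lit 0)) (M (nat_lit 670692662567))))) (T.h (T.h (T.h (P (nat_lit 0)) (M (nat_lit 1400419054907))) (P (nat_lit 0))) (T.h (T.h (P (nat_lit 0)) (M (nat_lit 586126489403))) (P (nat_lit 0)))))) (P (nat_lit 0))))))) (T.h (T.h (P (nat_lit 0)) (T.h (T.h (T.h (P (nat_lit 0)) (T.h (M (nat_lit 4245840335)) (T.h (P (nat_lit 0)) (P (nat_lit 186087372024))))) (T.h (T.h (T.h (P (nat_lit 0)) (T.h (M (nat_lit 82513660671)) (T.h (P (nat_lit 0)) (P (nat_lit 302473457648))))) (T.h (P (nat_lit 0)) (T.h (T.h (P (nat_lit 0)) (M (nat_lit 2050778531943))) (P (nat_lit 0))))) (T.h (T.h (P (nat_lit 0)) (P (nat_lit 1186134552748))) (T.h (T.h (T.h (P (nat_lit 0)) (P (nat_lit 481381662512))) (P (nat_lit 0))) (P (nat_lit 0)))))) (T.h (P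 (nat_lit 0)) (T.h (T.h (T.h (P (nat_lit 0)) (T.h (T.h (P (nat_lit 7209340432)) (T.h (P (nat_lit 0)) (M (nat_lit 968473808939)))) (T.h (P (nat_lit 0)) (M (nat_lit 385257715111))))) (T.h (T.h (T.h (P (nat_lit 0)) (T.h (P (nat_lit 273771777648)) (T.h (P (nat_lit 0)) (M (nat_lit 1455703322123))))) (T.h (P (nat_lit 0)) (T.h (T.h (P (nat_lit 0)) (M (nat_lit 854761978791))) (P (nat_lit 0))))) (T.h (T.h (P (nat_lit 0)) (M (nat_lit 968473808939))) (T.h (T.h (T.h (P (nat_lit 0)) (M (nat_lit 1455703322123))) (P (nat_lit 0))) (P (nat_lit 0)))))) (P (nat_lit 0)))))) (T.h (T.h (T.h (T.h (T.h (P (nat_lit 0)) (T.h (M (nat_lit 776733751)) (T.h (P (nat_lit 0)) (P (nat_lit 119795257304))))) (T.h (P (nat_lit 0)) (T.h (T.h (P (nat_lit 0)) (P (nat_lit 30446304652))) (P (nat_lit 0))))) (T.h (T.h (P (nat_lit 0)) (T.h (T.h (M (nat_lit 13215697327)) (T.h (P (nat_lit 0)) (P (nat_lit 2167433760232))))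 (T.h (P (nat_lit 0)) (P (nat_lit 120848481636))))) (T.h (T.h (T.h (P (nat_lit 0)) (P (nat_lit 30446304652))) (P (nat_lit 0))) (T.h (T.h (P (nat_lit 0)) (P (nat_lit 120848481636))) (P (nat_lit 0)))))) (T.h (P (nat_lit 0)) (T.h (T.h (T.h (T.h (P (nat_lit 0)) (T.h (P (nat_lit 7209340432)) (T.h (P (nat_lit 0)) (M (nat_lit 385257715111))))) (T.h (P (nat_lit 0)) (T.h (T.h (P (nat_lit 0)) (M (nat_lit 968473808939))) (P (nat_lit 0))))) (T.h (T.h (P (nat_lit 0)) (T.h (T.h (P (nat_lit 273771777648)) (T.h (P (nat_lit 0)) (M (nat_lit 854761978791)))) (T.h (P (nat_lit 0)) (M (nat_lit 1455703322123))))) (T.h (T.h (T.h (P (nat_lit 0)) (M (nat_lit 968473808939))) (P (nat_lit 0))) (T.h (T.h (P (nat_lit 0)) (M (nat_lit 1455703322123))) (P (nat_lit 0)))))) (P (nat_lit 0))))) (T.h (T.h (P (nat_lit 0)) (T.h (T.h (T.h (P (nat_lit 0)) (T.h (T.h (P (nat_lit 6336185672)) (T.h (P (nat_lit 0)) (M (nat_lit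 73302277847)))) (T.h (P (nat_lit 0)) (M (nat_lit 295100554255))))) (T.h (T.h (T.h (P (nat_lit 0)) (T.h (P (nat_lit 68416056224)) (T.h (P (nat_lit 0)) (M (nat_lit 670692662567))))) (T.h (P (nat_lit 0)) (T.h (T.h (P (nat_lit 0)) (M (nat_lit 1205047207995))) (P (nat_lit 0))))) (T.h (T.h (P (nat_lit 0)) (M (nat_lit 1400419054907))) (T.h (T.h (T.h (P (nat_lit 0)) (M (nat_lit 586126489403))) (P (nat_lit 0))) (P (nat_lit 0)))))) (P (nat_lit 0)))) (T.h (T.h (T.h (T.h (T.h (P (nat_lit 0)) (T.h (M (nat_lit 4204894151)) (T.h (P (nat_lit 0)) (M (nat_lit 57292958227))))) (T.h (P (nat_lit 0)) (T.h (T.h (P (nat_lit 0)) (M (nat_lit 111893785687))) (P (nat_lit 0))))) (T.h (T.h (P (nat_lit 0)) (T.h (T.h (P (nat_lit 24068853200)) (T.h (P (nat_lit 0)) (M (nat_lit 2044636758975)))) (T.h (P (nat_lit 0)) (M (nat_lit 198485094335))))) (T.h (T.h (T.h (P (nat_lit 0)) (M (nat_lit 65779579503))) (P (nat_lit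 0))) (T.h (T.h (P (nat_lit 0)) (M (nat_lit 356321380127))) (P (nat_lit 0)))))) (P (nat_lit 0))) (P (nat_lit 0)))))))
def et2_6 : T ℤ := (T.h (T.h (P (nat_lit 0)) (T.h (P (nat_lit 0)) (T.h (T.h (T.h (T.h (P (nat_lit 0)) (T.h (P (nat_lit 0)) (T.h (M (nat_lit 5966230671)) (T.h (P (nat_lit 0)) (P (nat_lit 43059479680)))))) (T.h (P (nat_lit 0)) (T.h (T.h (P (nat_lit 0)) (T.h (P (nat_lit 0)) (M (nat_lit 80046695555)))) (T.h (P (nat_lit 0)) (M (nat_lit 49069581475)))))) (T.h (P (nat_lit 0)) (T.h (T.h (T.h (M (nat_lit 9250117147)) (T.h (P (nat_lit 0)) (P (nat_lit 207478474464)))) (T.h (P (nat_lit 0)) (P (nat_lit 970254031396)))) (T.h (P (nat_lit 0)) (P (nat_lit 915073044)))))) (T.h (P (nat_lit 0)) (T.h (T.h (T.h (T.h (P (nat_lit 5842644960)) (T.h (P (nat_lit 0)) (T.h (P (nat_lit 4244272744)) (T.h (P (nat_lit 0)) (M (nat_lit 26066810447)))))) (T.h (P (nat_lit 0)) (T.h (T.h (M (nat_lit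 8642211463)) (T.h (P (nat_lit 0)) (M (nat_lit 1051148445235)))) (T.h (P (nat_lit 0)) (P (nat_lit 49848169416)))))) (T.h (T.h (P (nat_lit 0)) (T.h (T.h (P (nat_lit 0)) (M (nat_lit 263118318015))) (P (nat_lit 0)))) (T.h (T.h (T.h (P (nat_lit 4244272744)) (T.h (P (nat_lit 0)) (M (nat_lit 840088369007)))) (T.h (P (nat_lit 0)) (M (nat_lit 1051148445235)))) (T.h (P (nat_lit 0)) (M (nat_lit 26066810447)))))) (P (nat_lit 0))))))) (T.h (T.h (P (nat_lit 0)) (T.h (T.h (T.h (P (nat_lit 0)) (T.h (T.h (P (nat_lit 0)) (T.h (M (nat_lit 15374498607)) (T.h (P (nat_lit 0)) (M (nat_lit 96672941103))))) (T.h (P (nat_lit 0)) (T.h (T.h (P (nat_lit 0)) (M (nat_lit 96672941103))) (P (nat_lit 0)))))) (T.h (T.h (T.h (M (nat_lit 4414815919)) (T.h (P (nat_lit 0)) (P (nat_lit 318090039084)))) (T.h (P (nat_lit 0)) (P (nat_lit 318090039084)))) (T.h (T.h (P (nat_lit 0)) (T.h (T.h (P (nat_lit 0)) (P (nat_lit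 956884485184))) (P (nat_lit 0)))) (P (nat_lit 253388172664))))) (T.h (P (nat_lit 0)) (T.h (T.h (T.h (P (nat_lit 0)) (T.h (T.h (P (nat_lit 0)) (T.h (P (nat_lit 68416056224)) (T.h (P (nat_lit 0)) (M (nat_lit 586126489403))))) (T.h (P (nat_lit 0)) (T.h (T.h (P (nat_lit 0)) (M (nat_lit 670692662567))) (P (nat_lit 0)))))) (T.h (T.h (T.h (P (nat_lit 6336185672)) (T.h (P (nat_lit 0)) (M (nat_lit 1400419054907)))) (T.h (P (nat_lit 0)) (M (nat_lit 73302277847)))) (T.h (T.h (P (nat_lit 0)) (T.h (T.h (P (nat_lit 0)) (M (nat_lit 1205047207995))) (P (nat_lit 0)))) (M (nat_lit 295100554255))))) (P (nat_lit 0)))))) (T.h (T.h (T.h (T.h (T.h (P (nat_lit 0)) (T.h (P (nat_lit 0)) (T.h (P (nat_lit 0)) (T.h (P (nat_lit 0)) (M (nat_lit 49069581475)))))) (T.h (P (nat_lit 0)) (T.h (T.h (M (nat_lit 5966230671)) (T.h (P (nat_lit 0)) (M (nat_lit 80046695555)))) (T.h (P (nat_lit 0)) (P (nat_lit 43059479680))))))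 (T.h (P (nat_lit 0)) (T.h (T.h (T.h (M (nat_lit 9250117147)) (T.h (P (nat_lit 0)) (P (nat_lit 970254031396)))) (T.h (P (nat_lit 0)) (P (nat_lit 207478474464)))) (T.h (P (nat_lit 0)) (P (nat_lit 915073044)))))) (T.h (P (nat_lit 0)) (T.h (T.h (T.h (T.h (P (nat_lit 5273756072)) (T.h (P (nat_lit 0)) (T.h (P (nat_lit 101459709572)) (T.h (P (nat_lit 0)) (M (nat_lit 67840468595)))))) (T.h (P (nat_lit 0)) (T.h (T.h (P (nat_lit 101459709572)) (T.h (P (nat_lit 0)) (P (nat_lit 1187260437872)))) (T.h (P (nat_lit 0)) (M (nat_lit 67840468595)))))) (T.h (T.h (P (nat_lit 0)) (T.h (T.h (P (nat_lit 0)) (M (nat_lit 1051896870095))) (P (nat_lit 0)))) (T.h (T.h (T.h (P (nat_lit 168957657400)) (T.h (P (nat_lit 0)) (M (nat_lit 429933765443)))) (T.h (P (nat_lit 0)) (M (nat_lit 429933765443)))) (T.h (P (nat_lit 0)) (M (nat_lit 732348282759)))))) (P (nat_lit 0))))) (T.h (T.h (P (nat_lit 0)) (T.h (T.h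 (T.h (P (nat_lit 0)) (T.h (T.h (P (nat_lit 0)) (T.h (P (nat_lit 68416056224)) (T.h (P (nat_lit 0)) (M (nat_lit 670692662567))))) (T.h (P (nat_lit 0)) (T.h (T.h (P (nat_lit 0)) (M (nat_lit 586126489403))) (P (nat_lit 0)))))) (T.h (T.h (T.h (P (nat_lit 6336185672)) (T.h (P (nat_lit 0)) (M (nat_lit 73302277847)))) (T.h (P (nat_lit 0)) (M (nat_lit 1400419054907)))) (T.h (T.h (P (nat_lit 0)) (T.h (T.h (P (nat_lit 0)) (M (nat_lit 1205047207995))) (P (nat_lit 0)))) (M (nat_lit 295100554255))))) (P (nat_lit 0)))) (T.h (T.h (T.h (T.h (T.h (P (nat_lit 5842644960)) (T.h (P (nat_lit 0)) (T.h (M (nat_lit 8642211463)) (T.h (P (nat_lit 0)) (P (nat_lit 49848169416)))))) (T.h (P (nat_lit 0)) (T.h (T.h (P (nat_lit 4244272744)) (T.h (P (nat_lit 0)) (M (nat_lit 1051148445235)))) (T.h (P (nat_lit 0)) (M (nat_lit 26066810447)))))) (T.h (T.h (P (nat_lit 0)) (T.h (T.h (P (nat_lit 0)) (M (nat_lit 263118318015)))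 (P (nat_lit 0)))) (T.h (T.h (T.h (P (nat_lit 4244272744)) (T.h (P (nat_lit 0)) (M (nat_lit 1051148445235)))) (T.h (P (nat_lit 0)) (M (nat_lit 840088369007)))) (T.h (P (nat_lit 0)) (M (nat_lit 26066810447)))))) (P (nat_lit 0))) (P (nat_lit 0)))))))
def et2_7 : T ℤ := (T.h (T.h (T.h (T.h (T.h (T.h (P (nat_lit 1080448048)) (T.h (P (nat_lit 0)) (T.h (M (nat_lit 417314895)) (T.h (P (nat_lit 0)) (M (nat_lit 3617842535)))))) (T.h (P (nat_lit 0)) (T.h (T.h (M (nat_lit 417314895)) (T.h (P (nat_lit 0)) (P (nat_lit 134231220424)))) (T.h (P (nat_lit 0)) (M (nat_lit 3617842535)))))) (T.h (T.h (P (nat_lit 0)) (T.h (T.h (P (nat_lit 0)) (P (nat_lit 22798668080))) (P (nat_lit 0)))) (T.h (T.h (T.h (M (nat_lit 5381010775)) (T.h (P (nat_lit 0)) (P (nat_lit 59177891756)))) (T.h (P (nat_lit 0)) (P (nat_lit 59177891756)))) (T.h (P (nat_lit 0)) (P (nat_lit 89947841304)))))) (T.h (P (nat_lit 0)) (T.h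 (T.h (T.h (T.h (P (nat_lit 3146001644)) (T.h (P (nat_lit 0)) (T.h (M (nat_lit 519614879)) (T.h (P (nat_lit 0)) (P (nat_lit 6616763652)))))) (T.h (P (nat_lit 0)) (T.h (T.h (P (nat_lit 1529488904)) (T.h (P (nat_lit 0)) (P (nat_lit 42688542552)))) (T.h (P (nat_lit 0)) (P (nat_lit 27303462632)))))) (T.h (T.h (P (nat_lit 0)) (T.h (T.h (P (nat_lit 0)) (M (nat_lit 151437212335))) (P (nat_lit 0)))) (T.h (T.h (T.h (P (nat_lit 32484573268)) (T.h (P (nat_lit 0)) (M (nat_lit 372241645439)))) (T.h (P (nat_lit 0)) (M (nat_lit 835200498319)))) (T.h (P (nat_lit 0)) (M (nat_lit 357289799539)))))) (P (nat_lit 0))))) (T.h (T.h (P (nat_lit 0)) (T.h (T.h (T.h (P (nat_lit 0)) (T.h (T.h (P (nat_lit 0)) (T.h (P (nat_lit 1669259584)) (T.h (P (nat_lit 0)) (M (nat_lit 113376358927))))) (T.h (P (nat_lit 0)) (T.h (T.h (P (nat_lit 0)) (M (nat_lit 113376358927))) (P (nat_lit 0)))))) (T.h (T.h (T.h (M (nat_lit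 4278510863)) (T.h (P (nat_lit 0)) (M (nat_lit 276843322347)))) (T.h (P (nat_lit 0)) (M (nat_lit 276843322347)))) (T.h (T.h (P (nat_lit 0)) (T.h (T.h (P (nat_lit 0)) (M (nat_lit 143398053655))) (P (nat_lit 0)))) (M (nat_lit 330086579167))))) (P (nat_lit 0)))) (T.h (T.h (T.h (T.h (T.h (P (nat_lit 3146001644)) (T.h (P (nat_lit 0)) (T.h (P (nat_lit 1529488904)) (T.h (P (nat_lit 0)) (P (nat_lit 27303462632)))))) (T.h (P (nat_lit 0)) (T.h (T.h (M (nat_lit 519614879)) (T.h (P (nat_lit 0)) (P (nat_lit 42688542552)))) (T.h (P (nat_lit 0)) (P (nat_lit 6616763652)))))) (T.h (T.h (P (nat_lit 0)) (T.h (T.h (P (nat_lit 0)) (M (nat_lit 151437212335))) (P (nat_lit 0)))) (T.h (T.h (T.h (P (nat_lit 32484573268)) (T.h (P (nat_lit 0)) (M (nat_lit 835200498319)))) (T.h (P (nat_lit 0)) (M (nat_lit 372241645439)))) (T.h (P (nat_lit 0)) (M (nat_lit 357289799539)))))) (P (nat_lit 0))) (P (nat_lit 0)))))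 (T.h (T.h (T.h (P (nat_lit 0)) (T.h (T.h (T.h (P (nat_lit 0)) (T.h (T.h (M (nat_lit 408992455)) (T.h (P (nat_lit 0)) (M (nat_lit 5699667019)))) (P (nat_lit 0)))) (T.h (T.h (T.h (P (nat_lit 0)) (T.h (P (nat_lit 5381010776)) (T.h (P (nat_lit 0)) (M (nat_lit 68860919455))))) (T.h (P (nat_lit 0)) (T.h (T.h (P (nat_lit 0)) (M (nat_lit 350989636199))) (P (nat_lit 0))))) (T.h (T.h (P (nat_lit 0)) (M (nat_lit 103635217007))) (T.h (T.h (T.h (P (nat_lit 0)) (P (nat_lit 460917025840))) (P (nat_lit 0))) (P (nat_lit 0)))))) (P (nat_lit 0)))) (T.h (T.h (T.h (T.h (T.h (P (nat_lit 0)) (M (nat_lit 408992455))) (T.h (P (nat_lit 0)) (T.h (T.h (P (nat_lit 0)) (M (nat_lit 5699667019))) (P (nat_lit 0))))) (T.h (T.h (P (nat_lit 0)) (T.h (T.h (P (nat_lit 5381010776)) (T.h (P (nat_lit 0)) (M (nat_lit 350989636199)))) (T.h (P (nat_lit 0)) (M (nat_lit 68860919455))))) (T.h (T.h (T.h (P (nat_lit 0)) (M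 (nat_lit 103635217007))) (P (nat_lit 0))) (T.h (T.h (P (nat_lit 0)) (P (nat_lit 460917025840))) (P (nat_lit 0)))))) (P (nat_lit 0))) (P (nat_lit 0)))) (T.h (T.h (T.h (T.h (T.h (P (nat_lit 0)) (T.h (P (nat_lit 0)) (T.h (T.h (P (nat_lit 0)) (T.h (P (nat_lit 0)) (M (nat_lit 219608305527)))) (P (nat_lit 0))))) (P (nat_lit 0))) (P (nat_lit 0))) (P (nat_lit 0))) (P (nat_lit 0)))))
def et2_8 : T ℤ := (T.h (T.h (T.h (P (nat_lit 0)) (T.h (P (nat_lit 0)) (T.h (P (nat_lit 0)) (T.h (T.h (T.h (P (nat_lit 0)) (T.h (T.h (M (nat_lit 776733751)) (T.h (P (nat_lit 0)) (P (nat_lit 30446304652)))) (T.h (P (nat_lit 0)) (P (nat_lit 119795257304))))) (T.h (T.h (T.h (P (nat_lit 0)) (T.h (M (nat_lit 13215697327)) (T.h (P (nat_lit 0)) (P (nat_lit 120848481636))))) (T.h (P (nat_lit 0)) (T.h (T.h (P (nat_lit 0)) (P (nat_lit 2167433760232))) (P (nat_lit 0))))) (T.h (T.h (P (nat_lit 0)) (P (nat_lit 30446304652)))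 (T.h (T.h (T.h (P (nat_lit 0)) (P (nat_lit 120848481636))) (P (nat_lit 0))) (P (nat_lit 0)))))) (T.h (P (nat_lit 0)) (T.h (T.h (T.h (P (nat_lit 0)) (T.h (T.h (M (nat_lit 4204894151)) (T.h (P (nat_lit 0)) (M (nat_lit 111893785687)))) (T.h (P (nat_lit 0)) (M (nat_lit 57292958227))))) (T.h (T.h (T.h (P (nat_lit 0)) (T.h (P (nat_lit 24068853200)) (T.h (P (nat_lit 0)) (M (nat_lit 198485094335))))) (T.h (P (nat_lit 0)) (T.h (T.h (P (nat_lit 0)) (M (nat_lit 2044636758975))) (P (nat_lit 0))))) (T.h (T.h (P (nat_lit 0)) (M (nat_lit 65779579503))) (T.h (T.h (T.h (P (nat_lit 0)) (M (nat_lit 356321380127))) (P (nat_lit 0))) (P (nat_lit 0)))))) (P (nat_lit 0)))))))) et2_5) (T.h et2_6 (T.h (T.h (T.h (P (nat_lit 0)) (T.h (T.h (T.h (P (nat_lit 0)) (T.h (T.h (P (nat_lit 0)) (T.h (P (nat_lit 0)) (P (nat_lit 69188931128)))) (T.h (P (nat_lit 0)) (P (nat_lit 2865383632))))) (T.h (T.h (T.h (P (nat_lit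 0)) (T.h (P (nat_lit 1039229760)) (T.h (P (nat_lit 0)) (P (nat_lit 75485724736))))) (T.h (P (nat_lit 0)) (T.h (T.h (P (nat_lit 0)) (P (nat_lit 350911139328))) (P (nat_lit 0))))) (T.h (T.h (P (nat_lit 0)) (P (nat_lit 70018939148))) (T.h (T.h (T.h (P (nat_lit 0)) (M (nat_lit 408203863715))) (P (nat_lit 0))) (P (nat_lit 0)))))) (T.h (P (nat_lit 0)) (T.h (T.h (T.h (P (nat_lit 0)) (T.h (T.h (M (nat_lit 4204894151)) (T.h (P (nat_lit 0)) (M (nat_lit 65779579503)))) (T.h (P (nat_lit 0)) (M (nat_lit 57292958227))))) (T.h (T.h (T.h (P (nat_lit 0)) (T.h (P (nat_lit 24068853200)) (T.h (P (nat_lit 0)) (M (nat_lit 356321380127))))) (T.h (P (nat_lit 0)) (T.h (T.h (P (nat_lit 0)) (M (nat_lit 2044636758975))) (P (nat_lit 0))))) (T.h (T.h (P (nat_lit 0)) (M (nat_lit 111893785687))) (T.h (T.h (T.h (P (nat_lit 0)) (M (nat_lit 198485094335))) (P (nat_lit 0))) (P (nat_lit 0)))))) (P (nat_lit 0))))))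 (T.h (T.h (T.h (T.h (T.h (P (nat_lit 0)) (T.h (P (nat_lit 0)) (T.h (P (nat_lit 0)) (P (nat_lit 2865383632))))) (T.h (P (nat_lit 0)) (T.h (T.h (P (nat_lit 0)) (P (nat_lit 69188931128))) (P (nat_lit 0))))) (T.h (T.h (P (nat_lit 0)) (T.h (T.h (P (nat_lit 1039229760)) (T.h (P (nat_lit 0)) (P (nat_lit 350911139328)))) (T.h (P (nat_lit 0)) (P (nat_lit 75485724736))))) (T.h (T.h (T.h (P (nat_lit 0)) (P (nat_lit 70018939148))) (P (nat_lit 0))) (T.h (T.h (P (nat_lit 0)) (M (nat_lit 408203863715))) (P (nat_lit 0)))))) (T.h (P (nat_lit 0)) (T.h (T.h (T.h (T.h (P (nat_lit 0)) (T.h (P (nat_lit 624342136)) (T.h (P (nat_lit 0)) (M (nat_lit 111612872867))))) (T.h (P (nat_lit 0)) (T.h (T.h (P (nat_lit 0)) (P (nat_lit 77013996612))) (P (nat_lit 0))))) (T.h (T.h (P (nat_lit 0)) (T.h (T.h (P (nat_lit 84342933312)) (T.h (P (nat_lit 0)) (P (nat_lit 1524347590080)))) (T.h (P (nat_lit 0)) (M (nat_lit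 689910106319))))) (T.h (T.h (T.h (P (nat_lit 0)) (M (nat_lit 1184589410703))) (P (nat_lit 0))) (T.h (T.h (P (nat_lit 0)) (M (nat_lit 577831310767))) (P (nat_lit 0)))))) (P (nat_lit 0))))) (T.h (T.h (P (nat_lit 0)) (T.h (T.h (T.h (P (nat_lit 0)) (T.h (T.h (P (nat_lit 624342136)) (T.h (P (nat_lit 0)) (P (nat_lit 77013996612)))) (T.h (P (nat_lit 0)) (M (nat_lit 111612872867))))) (T.h (T.h (T.h (P (nat_lit 0)) (T.h (P (nat_lit 84342933312)) (T.h (P (nat_lit 0)) (M (nat_lit 689910106319))))) (T.h (P (nat_lit 0)) (T.h (T.h (P (nat_lit 0)) (P (nat_lit 1524347590080))) (P (nat_lit 0))))) (T.h (T.h (P (nat_lit 0)) (M (nat_lit 1184589410703))) (T.h (T.h (T.h (P (nat_lit 0)) (M (nat_lit 577831310767))) (P (nat_lit 0))) (P (nat_lit 0)))))) (P (nat_lit 0)))) (T.h (T.h (T.h (T.h (T.h (P (nat_lit 0)) (T.h (M (nat_lit 4204894151)) (T.h (P (nat_lit 0)) (M (nat_lit 57292958227))))) (T.h (P (nat_lit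 0)) (T.h (T.h (P (nat_lit 0)) (M (nat_lit 65779579503))) (P (nat_lit 0))))) (T.h (T.h (P (nat_lit 0)) (T.h (T.h (P (nat_lit 24068853200)) (T.h (P (nat_lit 0)) (M (nat_lit 2044636758975)))) (T.h (P (nat_lit 0)) (M (nat_lit 356321380127))))) (T.h (T.h (T.h (P (nat_lit 0)) (M (nat_lit 111893785687))) (P (nat_lit 0))) (T.h (T.h (P (nat_lit 0)) (M (nat_lit 198485094335))) (P (nat_lit 0)))))) (P (nat_lit 0))) (P (nat_lit 0)))))) et2_7)))

def t2 : T ℤ := (T.h (T.h (T.h (P (nat_lit 0)) (T.h (P (nat_lit 0)) (T.h (P (nat_lit 0)) (T.h (P (nat_lit 0)) (T.h (P (nat_lit 0)) (T.h (P (nat_lit 0)) (T.h (T.h (T.h (T.h (P (nat_lit 1080448048)) (T.h (P (nat_lit 0)) (T.h (M (nat_lit 5381010775)) (T.h (P (nat_lit 0)) (P (nat_lit 89947841304)))))) (T.h (P (nat_lit 0)) (T.h (T.h (M (nat_lit 417314895)) (T.h (P (nat_lit 0)) (P (nat_lit 59177891756)))) (T.h (P (nat_lit 0)) (M (nat_lit 3617842535))))))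 (T.h (T.h (P (nat_lit 0)) (T.h (T.h (P (nat_lit 0)) (P (nat_lit 22798668080))) (P (nat_lit 0)))) (T.h (T.h (T.h (M (nat_lit 417314895)) (T.h (P (nat_lit 0)) (P (nat_lit 59177891756)))) (T.h (P (nat_lit 0)) (P (nat_lit 134231220424)))) (T.h (P (nat_lit 0)) (M (nat_lit 3617842535)))))) (T.h (P (nat_lit 0)) (T.h (T.h (P (nat_lit 0)) (T.h (P (nat_lit 0)) (T.h (T.h (P (nat_lit 0)) (T.h (P (nat_lit 0)) (M (nat_lit 219608305527)))) (P (nat_lit 0))))) (P (nat_lit 0))))))))))) et2_1) (T.h et2_3 (T.h (T.h (T.h (P (nat_lit 0)) (T.h (P (nat_lit 0)) (T.h (P (nat_lit 0)) (T.h (P (nat_lit 0)) (T.h (T.h (T.h (T.h (P (nat_lit 0)) (T.h (P (nat_lit 0)) (T.h (M (nat_lit 9250117147)) (T.h (P (nat_lit 0)) (P (nat_lit 915073044)))))) (T.h (P (nat_lit 0)) (T.h (T.h (P (nat_lit 0)) (T.h (P (nat_lit 0)) (P (nat_lit 970254031396)))) (T.h (P (nat_lit 0)) (M (nat_lit 49069581475)))))) (T.h (P (nat_lit 0))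 (T.h (T.h (T.h (M (nat_lit 5966230671)) (T.h (P (nat_lit 0)) (P (nat_lit 207478474464)))) (T.h (P (nat_lit 0)) (M (nat_lit 80046695555)))) (T.h (P (nat_lit 0)) (P (nat_lit 43059479680)))))) (T.h (P (nat_lit 0)) (T.h (T.h (T.h (T.h (P (nat_lit 3146001644)) (T.h (P (nat_lit 0)) (T.h (P (nat_lit 32484573268)) (T.h (P (nat_lit 0)) (M (nat_lit 357289799539)))))) (T.h (P (nat_lit 0)) (T.h (T.h (P (nat_lit 1529488904)) (T.h (P (nat_lit 0)) (M (nat_lit 835200498319)))) (T.h (P (nat_lit 0)) (P (nat_lit 27303462632)))))) (T.h (T.h (P (nat_lit 0)) (T.h (T.h (P (nat_lit 0)) (M (nat_lit 151437212335))) (P (nat_lit 0)))) (T.h (T.h (T.h (M (nat_lit 519614879)) (T.h (P (nat_lit 0)) (M (nat_lit 372241645439)))) (T.h (P (nat_lit 0)) (P (nat_lit 42688542552)))) (T.h (P (nat_lit 0)) (P (nat_lit 6616763652)))))) (P (nat_lit 0))))))))) (T.h (T.h (P (nat_lit 0)) (T.h (P (nat_lit 0)) (T.h (P (nat_lit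 0)) (T.h (T.h (T.h (P (nat_lit 0)) (T.h (T.h (P (nat_lit 0)) (T.h (M (nat_lit 82513660671)) (T.h (P (nat_lit 0)) (P (nat_lit 481381662512))))) (T.h (P (nat_lit 0)) (T.h (T.h (P (nat_lit 0)) (P (nat_lit 302473457648))) (P (nat_lit 0)))))) (T.h (T.h (T.h (M (nat_lit 4245840335)) (T.h (P (nat_lit 0)) (P (nat_lit 1186134552748)))) (P (nat_lit 0))) (T.h (T.h (P (nat_lit 0)) (T.h (T.h (P (nat_lit 0)) (M (nat_lit 2050778531943))) (P (nat_lit 0)))) (P (nat_lit 186087372024))))) (T.h (P (nat_lit 0)) (T.h (T.h (T.h (P (nat_lit 0)) (T.h (T.h (P (nat_lit 0)) (T.h (P (nat_lit 84342933312)) (T.h (P (nat_lit 0)) (M (nat_lit 577831310767))))) (T.h (P (nat_lit 0)) (T.h (T.h (P (nat_lit 0)) (M (nat_lit 689910106319))) (P (nat_lit 0)))))) (T.h (T.h (T.h (P (nat_lit 624342136)) (T.h (P (nat_lit 0)) (M (nat_lit 1184589410703)))) (T.h (P (nat_lit 0)) (P (nat_lit 77013996612)))) (T.h (T.h (P (nat_lit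 0)) (T.h (T.h (P (nat_lit 0)) (P (nat_lit 1524347590080))) (P (nat_lit 0)))) (M (nat_lit 111612872867))))) (P (nat_lit 0)))))))) et2_4)) et2_8)))

theorem h_t2 : chkT (c.G g2) t2 = true := by decide +kernel


end Pool.Agent.TOPR.R6042
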