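import Pool.Agent.TOPR.R6042.Cert

set_option autoImplicit false
set_option linter.all false
set_option maxRecDepth 100000

namespace Pool.Agent.TOPR.R6042

open Helper10.PC hiding V3
open Helper80.CW.DL Pool.Agent.Helper6.TOP

def en00_0 : T ℤ := (T.h (T.h (P (nat_lit 0)) (T.h (P (nat_lit 0)) (T.h (P (nat_lit 0)) (T.h (T.h (T.h (T.h (P (nat_lit 0)) (T.h (P (nat_lit 8245607356)) (T.h (P (nat_lit 0)) (T.h (M (nat_lit 10791200847)) (T.h (P (nat_lit 0)) (M (nat_lit 90031402267))))))) (T.h (P (nat_lit 0)) (T.h (T.h (P (nat_lit 0)) (T.h (P (nat_lit 843363524)) (T.h (P (nat_lit 0)) (M (nat_lit 367983545551))))) (T.h (P (nat_lit 0)) (T.h (T.h (P (nat_lit 0)) (M (nat_lit 230312789227))) (P (nat_lit 0))))))) (T.h (T.h (P (nat_lit 0)) (T.h (T.h (P (nat_lit 2275547704)) (T.h (P (nat_lit 0)) (P (nat_lit 236412410708)))) (T.h (P (nat_lit 0)) (M (nat_lit 28570826235))))) (T.h (T.h (T.h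 (P (nat_lit 0)) (T.h (P (nat_lit 51205701692)) (T.h (P (nat_lit 0)) (P (nat_lit 65920931564))))) (T.h (P (nat_lit 0)) (T.h (T.h (P (nat_lit 0)) (P (nat_lit 264366546328))) (P (nat_lit 0))))) (T.h (T.h (P (nat_lit 0)) (M (nat_lit 37965740479))) (T.h (T.h (T.h (P (nat_lit 0)) (M (nat_lit 102478678467))) (P (nat_lit 0))) (P (nat_lit 0))))))) (P (nat_lit 0)))))) (T.h (T.h (P (nat_lit 0)) (T.h (P (nat_lit 0)) (T.h (T.h (T.h (P (nat_lit 0)) (T.h (T.h (P (nat_lit 8245607356)) (T.h (P (nat_lit 0)) (T.h (P (nat_lit 843363524)) (T.h (P (nat_lit 0)) (M (nat_lit 230312789227)))))) (T.h (P (nat_lit 0)) (T.h (T.h (M (nat_lit 10791200847)) (T.h (P (nat_lit 0)) (M (nat_lit 367983545551)))) (T.h (P (nat_lit 0)) (M (nat_lit 90031402267))))))) (T.h (T.h (T.h (P (nat_lit 0)) (T.h (P (nat_lit 2275547704)) (T.h (P (nat_lit 0)) (M (nat_lit 28570826235))))) (T.h (P (nat_lit 0)) (T.h (T.h (P (nat_lit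 0)) (P (nat_lit 236412410708))) (P (nat_lit 0))))) (T.h (T.h (P (nat_lit 0)) (T.h (T.h (P (nat_lit 51205701692)) (T.h (P (nat_lit 0)) (P (nat_lit 264366546328)))) (T.h (P (nat_lit 0)) (P (nat_lit 65920931564))))) (T.h (T.h (T.h (P (nat_lit 0)) (M (nat_lit 37965740479))) (P (nat_lit 0))) (T.h (T.h (P (nat_lit 0)) (M (nat_lit 102478678467))) (P (nat_lit 0))))))) (P (nat_lit 0))))) (T.h (T.h (P (nat_lit 0)) (T.h (T.h (T.h (T.h (P (nat_lit 0)) (T.h (P (nat_lit 154053880)) (T.h (P (nat_lit 0)) (T.h (P (nat_lit 18213789980)) (T.h (P (nat_lit 0)) (P (nat_lit 39709224912))))))) (T.h (P (nat_lit 0)) (T.h (T.h (P (nat_lit 0)) (T.h (P (nat_lit 32840981004)) (T.h (P (nat_lit 0)) (M (nat_lit 567939450811))))) (T.h (P (nat_lit 0)) (T.h (T.h (P (nat_lit 0)) (P (nat_lit 155956927052))) (P (nat_lit 0))))))) (T.h (T.h (P (nat_lit 0)) (T.h (T.h (M (nat_lit 7811721223)) (T.h (P (nat_lit 0))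 (P (nat_lit 113379819892)))) (T.h (P (nat_lit 0)) (P (nat_lit 264811797084))))) (T.h (T.h (T.h (P (nat_lit 0)) (T.h (M (nat_lit 898596643)) (T.h (P (nat_lit 0)) (P (nat_lit 73462303768))))) (T.h (P (nat_lit 0)) (T.h (T.h (P (nat_lit 0)) (M (nat_lit 239221121295))) (P (nat_lit 0))))) (T.h (T.h (P (nat_lit 0)) (M (nat_lit 27174758927))) (T.h (T.h (T.h (P (nat_lit 0)) (M (nat_lit 12562916607))) (P (nat_lit 0))) (P (nat_lit 0))))))) (P (nat_lit 0)))) (T.h (T.h (T.h (T.h (P (nat_lit 0)) (T.h (T.h (M (nat_lit 32922291)) (T.h (P (nat_lit 0)) (T.h (P (nat_lit 5701169576)) (T.h (P (nat_lit 0)) (P (nat_lit 33721264276)))))) (T.h (P (nat_lit 0)) (T.h (T.h (P (nat_lit 13921987464)) (T.h (P (nat_lit 0)) (M (nat_lit 217411162363)))) (T.h (P (nat_lit 0)) (M (nat_lit 94503811199))))))) (T.h (T.h (T.h (P (nat_lit 0)) (T.h (P (nat_lit 148616240)) (T.h (P (nat_lit 0)) (M (nat_lit 7005991695)))))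 (T.h (P (nat_lit 0)) (T.h (T.h (P (nat_lit 0)) (M (nat_lit 224180569563))) (P (nat_lit 0))))) (T.h (T.h (P (nat_lit 0)) (T.h (P (nat_lit 2847587880)) (T.h (P (nat_lit 0)) (M (nat_lit 89650088751))))) (T.h (T.h (T.h (P (nat_lit 0)) (M (nat_lit 3811060255))) (P (nat_lit 0))) (T.h (T.h (P (nat_lit 0)) (M (nat_lit 19072980947))) (P (nat_lit 0))))))) (P (nat_lit 0))) (P (nat_lit 0))))))
def en00_1 : T ℤ := (T.h (T.h (P (nat_lit 0)) (T.h (P (nat_lit 0)) (T.h (P (nat_lit 0)) (T.h (P (nat_lit 0)) (T.h (T.h (T.h (P (nat_lit 0)) (T.h (T.h (P (nat_lit 0)) (T.h (M (nat_lit 9186522055)) (T.h (P (nat_lit 0)) (M (nat_lit 42476458167))))) (T.h (P (nat_lit 0)) (T.h (T.h (P (nat_lit 0)) (M (nat_lit 11081031615))) (P (nat_lit 0)))))) (T.h (T.h (T.h (P (nat_lit 633426648)) (T.h (P (nat_lit 0)) (P (nat_lit 35964711856)))) (T.h (P (nat_lit 0)) (T.h (T.h (P (nat_lit 0)) (T.h (P (nat_lit 0)) (M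 (nat_lit 1314488207431)))) (T.h (P (nat_lit 0)) (P (nat_lit 65160111672)))))) (T.h (T.h (P (nat_lit 0)) (T.h (T.h (P (nat_lit 0)) (P (nat_lit 89768610048))) (P (nat_lit 0)))) (T.h (T.h (T.h (P (nat_lit 15111290016)) (T.h (P (nat_lit 0)) (M (nat_lit 11465112511)))) (T.h (P (nat_lit 0)) (M (nat_lit 19220043831)))) (P (nat_lit 0)))))) (P (nat_lit 0))))))) (T.h (T.h (P (nat_lit 0)) (T.h (P (nat_lit 0)) (T.h (P (nat_lit 0)) (T.h (T.h (T.h (T.h (P (nat_lit 0)) (T.h (P (nat_lit 0)) (T.h (M (nat_lit 11656362199)) (T.h (P (nat_lit 0)) (P (nat_lit 22917981952)))))) (T.h (P (nat_lit 0)) (T.h (T.h (M (nat_lit 7402560595)) (T.h (P (nat_lit 0)) (P (nat_lit 62137007076)))) (T.h (P (nat_lit 0)) (M (nat_lit 41014485591)))))) (T.h (T.h (P (nat_lit 0)) (T.h (T.h (P (nat_lit 0)) (T.h (P (nat_lit 94968377520)) (T.h (P (nat_lit 0)) (M (nat_lit 216102914255))))) (T.h (P (nat_lit 0)) (T.h (T.h (P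 (nat_lit 0)) (M (nat_lit 754185897423))) (P (nat_lit 0)))))) (T.h (T.h (P (nat_lit 0)) (T.h (P (nat_lit 0)) (P (nat_lit 40541480604)))) (T.h (T.h (P (nat_lit 0)) (T.h (T.h (P (nat_lit 0)) (M (nat_lit 806532364623))) (P (nat_lit 0)))) (P (nat_lit 0)))))) (P (nat_lit 0)))))) (T.h (T.h (P (nat_lit 0)) (T.h (P (nat_lit 0)) (T.h (T.h (T.h (P (nat_lit 0)) (T.h (T.h (P (nat_lit 0)) (T.h (P (nat_lit 0)) (T.h (P (nat_lit 0)) (P (nat_lit 405394516072))))) (T.h (P (nat_lit 0)) (T.h (T.h (P (nat_lit 0)) (P (nat_lit 405394516072))) (P (nat_lit 0)))))) (T.h (T.h (T.h (M (nat_lit 2867882399)) (T.h (P (nat_lit 0)) (T.h (P (nat_lit 63357327136)) (T.h (P (nat_lit 0)) (P (nat_lit 211075490376)))))) (T.h (P (nat_lit 0)) (T.h (P (nat_lit 63357327136)) (T.h (P (nat_lit 0)) (P (nat_lit 211075490376)))))) (T.h (T.h (P (nat_lit 0)) (T.h (T.h (P (nat_lit 0)) (M (nat_lit 516837289903))) (P (nat_lit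 0)))) (T.h (T.h (T.h (P (nat_lit 0)) (T.h (P (nat_lit 0)) (P (nat_lit 401853656304)))) (T.h (P (nat_lit 0)) (P (nat_lit 401853656304)))) (T.h (P (nat_lit 0)) (P (nat_lit 44187226464))))))) (P (nat_lit 0))))) (T.h (T.h (P (nat_lit 0)) (T.h (T.h (T.h (T.h (P (nat_lit 0)) (T.h (P (nat_lit 0)) (T.h (M (nat_lit 7402560595)) (T.h (P (nat_lit 0)) (M (nat_lit 41014485591)))))) (T.h (P (nat_lit 0)) (T.h (T.h (M (nat_lit 11656362199)) (T.h (P (nat_lit 0)) (P (nat_lit 62137007076)))) (T.h (P (nat_lit 0)) (P (nat_lit 22917981952)))))) (T.h (T.h (P (nat_lit 0)) (T.h (T.h (P (nat_lit 0)) (T.h (P (nat_lit 94968377520)) (T.h (P (nat_lit 0)) (M (nat_lit 754185897423))))) (T.h (P (nat_lit 0)) (T.h (T.h (P (nat_lit 0)) (M (nat_lit 216102914255))) (P (nat_lit 0)))))) (T.h (T.h (T.h (P (nat_lit 0)) (T.h (P (nat_lit 0)) (P (nat_lit 40541480604)))) (P (nat_lit 0))) (T.h (T.h (P (nat_lit 0)) (T.h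 (T.h (P (nat_lit 0)) (M (nat_lit 806532364623))) (P (nat_lit 0)))) (P (nat_lit 0)))))) (P (nat_lit 0)))) (T.h (T.h (T.h (T.h (P (nat_lit 0)) (T.h (T.h (P (nat_lit 0)) (T.h (M (nat_lit 9186522055)) (T.h (P (nat_lit 0)) (M (nat_lit 11081031615))))) (T.h (P (nat_lit 0)) (T.h (T.h (P (nat_lit 0)) (M (nat_lit 42476458167))) (P (nat_lit 0)))))) (T.h (T.h (T.h (P (nat_lit 633426648)) (T.h (P (nat_lit 0)) (T.h (P (nat_lit 0)) (T.h (P (nat_lit 0)) (P (nat_lit 65160111672)))))) (T.h (P (nat_lit 0)) (T.h (T.h (P (nat_lit 35964711856)) (T.h (P (nat_lit 0)) (M (nat_lit 1314488207431)))) (P (nat_lit 0))))) (T.h (T.h (P (nat_lit 0)) (T.h (T.h (P (nat_lit 0)) (P (nat_lit 89768610048))) (P (nat_lit 0)))) (T.h (T.h (T.h (P (nat_lit 15111290016)) (T.h (P (nat_lit 0)) (M (nat_lit 19220043831)))) (T.h (P (nat_lit 0)) (M (nat_lit 11465112511)))) (P (nat_lit 0)))))) (P (nat_lit 0))) (P (nat_lit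 0)))))))
def en00_2 : T ℤ := (T.h (T.h (T.h (P (nat_lit 0)) (T.h (P (nat_lit 0)) (T.h (P (nat_lit 0)) (T.h (T.h (T.h (T.h (P (nat_lit 0)) (T.h (P (nat_lit 9867806472)) (T.h (P (nat_lit 0)) (T.h (M (nat_lit 12444131367)) (T.h (P (nat_lit 0)) (M (nat_lit 12762348743))))))) (T.h (P (nat_lit 0)) (T.h (T.h (P (nat_lit 0)) (M (nat_lit 16999568667))) (T.h (P (nat_lit 0)) (T.h (T.h (P (nat_lit 0)) (M (nat_lit 22967913383))) (P (nat_lit 0))))))) (T.h (T.h (P (nat_lit 0)) (T.h (T.h (M (nat_lit 3378080115)) (T.h (P (nat_lit 0)) (M (nat_lit 89274321511)))) (T.h (P (nat_lit 0)) (M (nat_lit 231206395451))))) (T.h (T.h (T.h (P (nat_lit 0)) (T.h (M (nat_lit 9393398291)) (T.h (P (nat_lit 0)) (M (nat_lit 402846515735))))) (T.h (P (nat_lit 0)) (T.h (T.h (P (nat_lit 0)) (M (nat_lit 1095222827315))) (P (nat_lit 0))))) (T.h (T.h (P (nat_lit 0)) (P (nat_lit 144392713316))) (T.h (T.h (T.h (P (nat_lit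 0)) (M (nat_lit 14388687623))) (P (nat_lit 0))) (P (nat_lit 0))))))) (P (nat_lit 0)))))) (T.h (T.h (P (nat_lit 0)) (T.h (P (nat_lit 0)) (T.h (T.h (T.h (P (nat_lit 0)) (T.h (M (nat_lit 14322597799)) (T.h (P (nat_lit 0)) (P (nat_lit 3255782908))))) (T.h (T.h (T.h (P (nat_lit 0)) (T.h (P (nat_lit 8087251456)) (T.h (P (nat_lit 0)) (M (nat_lit 1016244985339))))) (T.h (P (nat_lit 0)) (T.h (T.h (P (nat_lit 0)) (P (nat_lit 251630094736))) (P (nat_lit 0))))) (T.h (T.h (P (nat_lit 0)) (T.h (T.h (P (nat_lit 92005208988)) (T.h (P (nat_lit 0)) (P (nat_lit 4097765979336)))) (T.h (P (nat_lit 0)) (P (nat_lit 726801307404))))) (T.h (T.h (T.h (P (nat_lit 0)) (M (nat_lit 675972111887))) (P (nat_lit 0))) (T.h (T.h (P (nat_lit 0)) (M (nat_lit 378879051383))) (P (nat_lit 0))))))) (P (nat_lit 0))))) (T.h (T.h (P (nat_lit 0)) (T.h (T.h (T.h (T.h (P (nat_lit 0)) (T.h (M (nat_lit 14322597799)) (T.h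 (P (nat_lit 0)) (P (nat_lit 3255782908))))) (P (nat_lit 0))) (T.h (T.h (P (nat_lit 0)) (T.h (T.h (P (nat_lit 8087251456)) (T.h (P (nat_lit 0)) (P (nat_lit 251630094736)))) (T.h (P (nat_lit 0)) (M (nat_lit 1016244985339))))) (T.h (T.h (T.h (P (nat_lit 0)) (T.h (P (nat_lit 92005208988)) (T.h (P (nat_lit 0)) (P (nat_lit 726801307404))))) (T.h (P (nat_lit 0)) (T.h (T.h (P (nat_lit 0)) (P (nat_lit 4097765979336))) (P (nat_lit 0))))) (T.h (T.h (P (nat_lit 0)) (M (nat_lit 675972111887))) (T.h (T.h (T.h (P (nat_lit 0)) (M (nat_lit 378879051383))) (P (nat_lit 0))) (P (nat_lit 0))))))) (P (nat_lit 0)))) (T.h (T.h (T.h (T.h (P (nat_lit 0)) (T.h (T.h (P (nat_lit 9867806472)) (T.h (P (nat_lit 0)) (T.h (M (nat_lit 16999568667)) (T.h (P (nat_lit 0)) (M (nat_lit 22967913383)))))) (T.h (P (nat_lit 0)) (T.h (M (nat_lit 12444131367)) (T.h (P (nat_lit 0)) (M (nat_lit 12762348743))))))) (T.h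 (T.h (T.h (P (nat_lit 0)) (T.h (M (nat_lit 3378080115)) (T.h (P (nat_lit 0)) (M (nat_lit 231206395451))))) (T.h (P (nat_lit 0)) (T.h (T.h (P (nat_lit 0)) (M (nat_lit 89274321511))) (P (nat_lit 0))))) (T.h (T.h (P (nat_lit 0)) (T.h (T.h (M (nat_lit 9393398291)) (T.h (P (nat_lit 0)) (M (nat_lit 1095222827315)))) (T.h (P (nat_lit 0)) (M (nat_lit 402846515735))))) (T.h (T.h (T.h (P (nat_lit 0)) (P (nat_lit 144392713316))) (P (nat_lit 0))) (T.h (T.h (P (nat_lit 0)) (M (nat_lit 14388687623))) (P (nat_lit 0))))))) (P (nat_lit 0))) (P (nat_lit 0)))))) (T.h (T.h (T.h (P (nat_lit 0)) (T.h (P (nat_lit 0)) (T.h (T.h (T.h (P (nat_lit 0)) (T.h (T.h (P (nat_lit 0)) (P (nat_lit 23195653612))) (T.h (P (nat_lit 0)) (T.h (T.h (P (nat_lit 0)) (P (nat_lit 145940550240))) (P (nat_lit 0)))))) (T.h (P (nat_lit 0)) (T.h (T.h (P (nat_lit 0)) (T.h (T.h (P (nat_lit 0)) (P (nat_lit 526456602612))) (P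 (nat_lit 0)))) (T.h (T.h (P (nat_lit 0)) (T.h (P (nat_lit 0)) (M (nat_lit 302773998207)))) (P (nat_lit 0)))))) (P (nat_lit 0))))) (T.h (T.h (P (nat_lit 0)) (T.h (T.h (T.h (T.h (M (nat_lit 1168703)) (T.h (P (nat_lit 0)) (M (nat_lit 1059583119)))) (T.h (P (nat_lit 0)) (T.h (T.h (M (nat_lit 1059583119)) (T.h (P (nat_lit 0)) (P (nat_lit 268015127648)))) (P (nat_lit 0))))) (T.h (T.h (P (nat_lit 0)) (T.h (T.h (P (nat_lit 0)) (M (nat_lit 128533775183))) (P (nat_lit 0)))) (T.h (T.h (T.h (P (nat_lit 0)) (T.h (P (nat_lit 0)) (M (nat_lit 816140970047)))) (T.h (P (nat_lit 0)) (M (nat_lit 816140970047)))) (T.h (P (nat_lit 0)) (M (nat_lit 235499685511)))))) (P (nat_lit 0)))) (T.h (T.h (T.h (T.h (P (nat_lit 0)) (T.h (T.h (P (nat_lit 0)) (T.h (P (nat_lit 23195653612)) (T.h (P (nat_lit 0)) (P (nat_lit 145940550240))))) (P (nat_lit 0)))) (T.h (P (nat_lit 0)) (T.h (T.h (P (nat_lit 0)) (T.h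 (T.h (P (nat_lit 0)) (P (nat_lit 526456602612))) (P (nat_lit 0)))) (T.h (T.h (T.h (P (nat_lit 0)) (T.h (P (nat_lit 0)) (M (nat_lit 302773998207)))) (P (nat_lit 0))) (P (nat_lit 0)))))) (P (nat_lit 0))) (P (nat_lit 0))))) (T.h (T.h (T.h (P (nat_lit 0)) (T.h (T.h (T.h (T.h (P (nat_lit 0)) (T.h (P (nat_lit 20084258376)) (T.h (P (nat_lit 0)) (T.h (P (nat_lit 0)) (T.h (P (nat_lit 0)) (P (nat_lit 15654100420))))))) (P (nat_lit 0))) (T.h (T.h (P (nat_lit 0)) (T.h (M (nat_lit 8075222095)) (T.h (P (nat_lit 0)) (M (nat_lit 124072981335))))) (T.h (T.h (T.h (P (nat_lit 0)) (M (nat_lit 58811888603))) (P (nat_lit 0))) (T.h (T.h (P (nat_lit 0)) (P (nat_lit 311353821056))) (T.h (T.h (T.h (P (nat_lit 0)) (P (nat_lit 801015885560))) (P (nat_lit 0))) (P (nat_lit 0))))))) (P (nat_lit 0)))) (T.h (T.h (T.h (T.h (P (nat_lit 0)) (T.h (P (nat_lit 20084258376)) (T.h (P (nat_lit 0)) (T.h (P (nat_lit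 0)) (T.h (P (nat_lit 0)) (P (nat_lit 15654100420))))))) (T.h (T.h (T.h (P (nat_lit 0)) (T.h (M (nat_lit 8075222095)) (T.h (P (nat_lit 0)) (M (nat_lit 124072981335))))) (P (nat_lit 0))) (T.h (T.h (P (nat_lit 0)) (M (nat_lit 58811888603))) (T.h (T.h (T.h (P (nat_lit 0)) (P (nat_lit 311353821056))) (P (nat_lit 0))) (T.h (T.h (P (nat_lit 0)) (P (nat_lit 801015885560))) (P (nat_lit 0))))))) (P (nat_lit 0))) (P (nat_lit 0)))) (T.h (T.h (T.h (T.h (T.h (P (nat_lit 0)) (T.h (T.h (P (nat_lit 0)) (P (nat_lit 1905565552))) (P (nat_lit 0)))) (T.h (T.h (P (nat_lit 547095312)) (T.h (P (nat_lit 0)) (T.h (T.h (P (nat_lit 0)) (T.h (P (nat_lit 0)) (M (nat_lit 1317649833167)))) (P (nat_lit 0))))) (P (nat_lit 0)))) (P (nat_lit 0))) (P (nat_lit 0))) (P (nat_lit 0))))))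

def n00 : T ℤ := (T.h (T.h (T.h (P (nat_lit 0)) (T.h (P (nat_lit 0)) (T.h (P (nat_lit 0)) (T.h (P (nat_lit 0)) (T.h (P (nat_lit 0)) (T.h (T.h (T.h (T.h (P (nat_lit 0)) (T.h (M (nat_lit 32922291)) (T.h (P (nat_lit 0)) (T.h (P (nat_lit 13921987464)) (T.h (P (nat_lit 0)) (M (nat_lit 94503811199))))))) (T.h (P (nat_lit 0)) (T.h (T.h (P (nat_lit 0)) (T.h (P (nat_lit 5701169576)) (T.h (P (nat_lit 0)) (M (nat_lit 217411162363))))) (T.h (P (nat_lit 0)) (T.h (T.h (P (nat_lit 0)) (P (nat_lit 33721264276))) (P (nat_lit 0))))))) (T.h (T.h (P (nat_lit 0)) (T.h (T.h (P (nat_lit 148616240)) (T.h (P (nat_lit 0)) (M (nat_lit 224180569563)))) (T.h (P (nat_lit 0)) (M (nat_lit 7005991695))))) (T.h (T.h (T.h (P (nat_lit 0)) (T.h (P (nat_lit 2847587880)) (T.h (P (nat_lit 0)) (M (nat_lit 89650088751))))) (P (nat_lit 0))) (T.h (T.h (P (nat_lit 0)) (M (nat_lit 3811060255))) (T.h (T.h (T.h (P (nat_lit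 0)) (M (nat_lit 19072980947))) (P (nat_lit 0))) (P (nat_lit 0))))))) (P (nat_lit 0)))))))) (T.h (T.h (P (nat_lit 0)) (T.h (P (nat_lit 0)) (T.h (P (nat_lit 0)) (T.h (P (nat_lit 0)) (T.h (T.h (T.h (P (nat_lit 0)) (T.h (T.h (P (nat_lit 154053880)) (T.h (P (nat_lit 0)) (T.h (P (nat_lit 32840981004)) (T.h (P (nat_lit 0)) (P (nat_lit 155956927052)))))) (T.h (P (nat_lit 0)) (T.h (T.h (P (nat_lit 18213789980)) (T.h (P (nat_lit 0)) (M (nat_lit 567939450811)))) (T.h (P (nat_lit 0)) (P (nat_lit 39709224912))))))) (T.h (T.h (T.h (P (nat_lit 0)) (T.h (M (nat_lit 7811721223)) (T.h (P (nat_lit 0)) (P (nat_lit 264811797084))))) (T.h (P (nat_lit 0)) (T.h (T.h (P (nat_lit 0)) (P (nat_lit 113379819892))) (P (nat_lit 0))))) (T.h (T.h (P (nat_lit 0)) (T.h (T.h (M (nat_lit 898596643)) (T.h (P (nat_lit 0)) (M (nat_lit 239221121295)))) (T.h (P (nat_lit 0)) (P (nat_lit 73462303768))))) (T.h (T.h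 (T.h (P (nat_lit 0)) (M (nat_lit 27174758927))) (P (nat_lit 0))) (T.h (T.h (P (nat_lit 0)) (M (nat_lit 12562916607))) (P (nat_lit 0))))))) (P (nat_lit 0))))))) en00_0)) (T.h en00_1 en00_2))

theorem h_n00 : chkT (c.Nn 0 0) n00 = true := by decide +kernel


end Pool.Agent.TOPR.R6042
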