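import Pool.Agent.TOPR.R6042.Cert

set_option autoImplicit false
set_option linter.all false
set_option maxRecDepth 100000

namespace Pool.Agent.TOPR.R6042

open Helper10.PC hiding V3
open Helper80.CW.DL Pool.Agent.Helper6.TOP

def en02_0 : T ℤ := (T.h (T.h (P (nat_lit 0)) (T.h (P (nat_lit 0)) (T.h (P (nat_lit 0)) (T.h (P (nat_lit 0)) (T.h (T.h (T.h (T.h (M (nat_lit 154374051)) (T.h (P (nat_lit 0)) (T.h (M (nat_lit 8163330619)) (T.h (P (nat_lit 0)) (P (nat_lit 112039739516)))))) (T.h (P (nat_lit 0)) (T.h (T.h (M (nat_lit 60646363)) (T.h (P (nat_lit 0)) (M (nat_lit 356251947811)))) (T.h (P (nat_lit 0)) (P (nat_lit 28765066668)))))) (T.h (T.h (P (nat_lit 0)) (T.h (T.h (P (nat_lit 0)) (T.h (P (nat_lit 63258860912)) (T.h (P (nat_lit 0)) (M (nat_lit 266543336139))))) (T.h (P (nat_lit 0)) (T.h (T.h (P (nat_lit 0)) (P (nat_lit 4030995280))) (P (nat_lit 0)))))) (T.h (T.h (T.h (M (nat_lit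 3259543383)) (T.h (P (nat_lit 0)) (M (nat_lit 52408216655)))) (T.h (P (nat_lit 0)) (M (nat_lit 94268858931)))) (T.h (T.h (P (nat_lit 0)) (T.h (T.h (P (nat_lit 0)) (M (nat_lit 584851898879))) (P (nat_lit 0)))) (P (nat_lit 35469440808)))))) (P (nat_lit 0))))))) (T.h (T.h (P (nat_lit 0)) (T.h (P (nat_lit 0)) (T.h (P (nat_lit 0)) (T.h (T.h (T.h (P (nat_lit 0)) (T.h (T.h (P (nat_lit 0)) (T.h (M (nat_lit 6348780283)) (T.h (P (nat_lit 0)) (P (nat_lit 314405142028))))) (T.h (P (nat_lit 0)) (T.h (T.h (P (nat_lit 0)) (P (nat_lit 584827420788))) (P (nat_lit 0)))))) (T.h (T.h (T.h (P (nat_lit 8580238036)) (T.h (P (nat_lit 0)) (T.h (M (nat_lit 35945396495)) (T.h (P (nat_lit 0)) (M (nat_lit 129953309303)))))) (T.h (P (nat_lit 0)) (T.h (T.h (M (nat_lit 40436214931)) (T.h (P (nat_lit 0)) (P (nat_lit 604798770328)))) (T.h (P (nat_lit 0)) (M (nat_lit 172237918719)))))) (T.h (T.h (P (nat_lit 0)) (T.h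 (T.h (P (nat_lit 0)) (P (nat_lit 897979402416))) (P (nat_lit 0)))) (T.h (T.h (T.h (P (nat_lit 21385417572)) (T.h (P (nat_lit 0)) (P (nat_lit 127694530436)))) (T.h (P (nat_lit 0)) (P (nat_lit 145169015072)))) (T.h (P (nat_lit 0)) (P (nat_lit 13191620512))))))) (P (nat_lit 0)))))) (T.h (T.h (P (nat_lit 0)) (T.h (P (nat_lit 0)) (T.h (T.h (T.h (T.h (M (nat_lit 58395671)) (T.h (P (nat_lit 0)) (T.h (P (nat_lit 3171146476)) (T.h (P (nat_lit 0)) (P (nat_lit 50507456096)))))) (T.h (P (nat_lit 0)) (T.h (T.h (M (nat_lit 2271709151)) (T.h (P (nat_lit 0)) (M (nat_lit 479290605303)))) (T.h (P (nat_lit 0)) (P (nat_lit 114929002936)))))) (T.h (T.h (P (nat_lit 0)) (T.h (T.h (P (nat_lit 0)) (T.h (M (nat_lit 48376882591)) (T.h (P (nat_lit 0)) (P (nat_lit 97436154748))))) (T.h (P (nat_lit 0)) (T.h (T.h (P (nat_lit 0)) (P (nat_lit 392650879932))) (P (nat_lit 0)))))) (T.h (T.h (T.h (M (nat_lit 3428651543))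 (T.h (P (nat_lit 0)) (P (nat_lit 11155737408)))) (T.h (P (nat_lit 0)) (P (nat_lit 230078875848)))) (T.h (T.h (P (nat_lit 0)) (T.h (T.h (P (nat_lit 0)) (M (nat_lit 1084229605855))) (P (nat_lit 0)))) (P (nat_lit 9989063672)))))) (P (nat_lit 0))))) (T.h (T.h (P (nat_lit 0)) (T.h (T.h (T.h (P (nat_lit 0)) (T.h (T.h (P (nat_lit 0)) (T.h (P (nat_lit 7882278112)) (T.h (P (nat_lit 0)) (P (nat_lit 210218110928))))) (T.h (P (nat_lit 0)) (T.h (T.h (P (nat_lit 0)) (M (nat_lit 281039431755))) (P (nat_lit 0)))))) (T.h (T.h (T.h (P (nat_lit 154053880)) (T.h (P (nat_lit 0)) (T.h (P (nat_lit 32850906840)) (T.h (P (nat_lit 0)) (M (nat_lit 98681875967)))))) (T.h (P (nat_lit 0)) (T.h (T.h (M (nat_lit 5848073387)) (T.h (P (nat_lit 0)) (M (nat_lit 619782732687)))) (T.h (P (nat_lit 0)) (P (nat_lit 154126780964)))))) (T.h (T.h (P (nat_lit 0)) (T.h (T.h (P (nat_lit 0)) (P (nat_lit 47316400708))) (P (nat_lit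 0)))) (T.h (T.h (T.h (P (nat_lit 10941442600)) (T.h (P (nat_lit 0)) (P (nat_lit 146046811304)))) (T.h (P (nat_lit 0)) (M (nat_lit 625225736827)))) (T.h (P (nat_lit 0)) (P (nat_lit 46305035168))))))) (P (nat_lit 0)))) (T.h (T.h (T.h (T.h (T.h (P (nat_lit 83211256)) (T.h (P (nat_lit 0)) (T.h (M (nat_lit 514841715)) (T.h (P (nat_lit 0)) (M (nat_lit 4214513775)))))) (T.h (P (nat_lit 0)) (T.h (T.h (M (nat_lit 1796061175)) (T.h (P (nat_lit 0)) (P (nat_lit 63371429368)))) (T.h (P (nat_lit 0)) (P (nat_lit 23564966072)))))) (T.h (T.h (P (nat_lit 0)) (T.h (T.h (P (nat_lit 0)) (T.h (P (nat_lit 18355982272)) (T.h (P (nat_lit 0)) (M (nat_lit 116164180719))))) (T.h (P (nat_lit 0)) (T.h (T.h (P (nat_lit 0)) (M (nat_lit 106617334455))) (P (nat_lit 0)))))) (T.h (T.h (T.h (M (nat_lit 514841715)) (T.h (P (nat_lit 0)) (M (nat_lit 81610755319)))) (T.h (P (nat_lit 0)) (P (nat_lit 63371429368)))) (T.h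 (T.h (P (nat_lit 0)) (T.h (T.h (P (nat_lit 0)) (M (nat_lit 116164180719))) (P (nat_lit 0)))) (M (nat_lit 4214513775)))))) (P (nat_lit 0))) (P (nat_lit 0)))))))
def en02_1 : T ℤ := (T.h (T.h (P (nat_lit 0)) (T.h (P (nat_lit 0)) (T.h (P (nat_lit 0)) (T.h (T.h (T.h (P (nat_lit 0)) (T.h (T.h (P (nat_lit 14753917264)) (T.h (P (nat_lit 0)) (T.h (P (nat_lit 20274798800)) (T.h (P (nat_lit 0)) (P (nat_lit 371241673952)))))) (T.h (P (nat_lit 0)) (T.h (T.h (M (nat_lit 4079952115)) (T.h (P (nat_lit 0)) (M (nat_lit 1787223598311)))) (T.h (P (nat_lit 0)) (P (nat_lit 158836899648))))))) (T.h (T.h (T.h (P (nat_lit 0)) (T.h (M (nat_lit 14483092559)) (T.h (P (nat_lit 0)) (M (nat_lit 391304352655))))) (T.h (P (nat_lit 0)) (T.h (T.h (P (nat_lit 0)) (P (nat_lit 484195797912))) (P (nat_lit 0))))) (T.h (T.h (P (nat_lit 0)) (T.h (T.h (P (nat_lit 34139408848)) (T.h (P (nat_lit 0)) (P (nat_lit 1774959501040))))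 (T.h (P (nat_lit 0)) (P (nat_lit 293849215072))))) (T.h (T.h (T.h (P (nat_lit 0)) (M (nat_lit 197131756039))) (P (nat_lit 0))) (T.h (T.h (P (nat_lit 0)) (M (nat_lit 50251666431))) (P (nat_lit 0))))))) (P (nat_lit 0)))))) (T.h (T.h (P (nat_lit 0)) (T.h (P (nat_lit 0)) (T.h (T.h (T.h (T.h (P (nat_lit 0)) (T.h (M (nat_lit 17495555039)) (T.h (P (nat_lit 0)) (T.h (P (nat_lit 68157591460)) (T.h (P (nat_lit 0)) (M (nat_lit 225906980339))))))) (T.h (P (nat_lit 0)) (T.h (T.h (P (nat_lit 0)) (T.h (P (nat_lit 50490368528)) (T.h (P (nat_lit 0)) (M (nat_lit 702096980351))))) (T.h (P (nat_lit 0)) (T.h (T.h (P (nat_lit 0)) (M (nat_lit 479862877307))) (P (nat_lit 0))))))) (T.h (T.h (P (nat_lit 0)) (T.h (T.h (P (nat_lit 19286907400)) (T.h (P (nat_lit 0)) (P (nat_lit 279740330084)))) (T.h (P (nat_lit 0)) (M (nat_lit 219756661803))))) (T.h (T.h (T.h (P (nat_lit 0)) (T.h (P (nat_lit 34273022788)) (T.h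 (P (nat_lit 0)) (P (nat_lit 599616450996))))) (T.h (P (nat_lit 0)) (T.h (T.h (P (nat_lit 0)) (P (nat_lit 793099638984))) (P (nat_lit 0))))) (T.h (T.h (P (nat_lit 0)) (P (nat_lit 338972530880))) (T.h (T.h (T.h (P (nat_lit 0)) (M (nat_lit 96360545027))) (P (nat_lit 0))) (P (nat_lit 0))))))) (P (nat_lit 0))))) (T.h (T.h (P (nat_lit 0)) (T.h (T.h (T.h (P (nat_lit 0)) (T.h (T.h (M (nat_lit 1338522719)) (T.h (P (nat_lit 0)) (T.h (M (nat_lit 98931859323)) (T.h (P (nat_lit 0)) (M (nat_lit 665582935391)))))) (T.h (P (nat_lit 0)) (T.h (T.h (P (nat_lit 57892714736)) (T.h (P (nat_lit 0)) (M (nat_lit 604125227975)))) (T.h (P (nat_lit 0)) (M (nat_lit 360125609071))))))) (T.h (T.h (T.h (P (nat_lit 0)) (T.h (P (nat_lit 6921160784)) (T.h (P (nat_lit 0)) (M (nat_lit 101858549535))))) (T.h (P (nat_lit 0)) (T.h (T.h (P (nat_lit 0)) (M (nat_lit 646433335647))) (P (nat_lit 0))))) (T.h (T.h (P (nat_lit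 0)) (T.h (T.h (M (nat_lit 98931859323)) (T.h (P (nat_lit 0)) (P (nat_lit 1057466185312)))) (T.h (P (nat_lit 0)) (M (nat_lit 604125227975))))) (T.h (T.h (T.h (P (nat_lit 0)) (M (nat_lit 101858549535))) (P (nat_lit 0))) (T.h (T.h (P (nat_lit 0)) (M (nat_lit 665582935391))) (P (nat_lit 0))))))) (P (nat_lit 0)))) (T.h (T.h (T.h (T.h (T.h (P (nat_lit 0)) (T.h (P (nat_lit 154053880)) (T.h (P (nat_lit 0)) (T.h (P (nat_lit 10941442600)) (T.h (P (nat_lit 0)) (P (nat_lit 46305035168))))))) (T.h (P (nat_lit 0)) (T.h (T.h (P (nat_lit 0)) (T.h (M (nat_lit 5848073387)) (T.h (P (nat_lit 0)) (M (nat_lit 625225736827))))) (T.h (P (nat_lit 0)) (T.h (T.h (P (nat_lit 0)) (P (nat_lit 154126780964))) (P (nat_lit 0))))))) (T.h (T.h (P (nat_lit 0)) (T.h (T.h (P (nat_lit 7882278112)) (T.h (P (nat_lit 0)) (P (nat_lit 47316400708)))) (T.h (P (nat_lit 0)) (M (nat_lit 281039431755))))) (T.h (T.h (T.h (P (nat_lit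 0)) (T.h (P (nat_lit 32850906840)) (T.h (P (nat_lit 0)) (P (nat_lit 146046811304))))) (T.h (P (nat_lit 0)) (T.h (T.h (P (nat_lit 0)) (M (nat_lit 619782732687))) (P (nat_lit 0))))) (T.h (T.h (P (nat_lit 0)) (P (nat_lit 210218110928))) (T.h (T.h (T.h (P (nat_lit 0)) (M (nat_lit 98681875967))) (P (nat_lit 0))) (P (nat_lit 0))))))) (P (nat_lit 0))) (P (nat_lit 0))))))
def en02_2 : T ℤ := (T.h (T.h (T.h (P (nat_lit 0)) (T.h (P (nat_lit 0)) (T.h (T.h (T.h (T.h (P (nat_lit 0)) (T.h (P (nat_lit 10836330840)) (T.h (P (nat_lit 0)) (T.h (P (nat_lit 4276878840)) (T.h (P (nat_lit 0)) (M (nat_lit 12762348743))))))) (T.h (P (nat_lit 0)) (T.h (T.h (P (nat_lit 0)) (T.h (M (nat_lit 46788877203)) (T.h (P (nat_lit 0)) (M (nat_lit 38440087663))))) (T.h (P (nat_lit 0)) (T.h (T.h (P (nat_lit 0)) (P (nat_lit 107352309960))) (P (nat_lit 0))))))) (T.h (T.h (P (nat_lit 0)) (T.h (T.h (P (nat_lit 5987710128))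 (T.h (P (nat_lit 0)) (M (nat_lit 89274321511)))) (T.h (P (nat_lit 0)) (M (nat_lit 11872119491))))) (T.h (T.h (T.h (P (nat_lit 0)) (T.h (P (nat_lit 34509153692)) (T.h (P (nat_lit 0)) (M (nat_lit 425776740759))))) (T.h (P (nat_lit 0)) (T.h (T.h (P (nat_lit 0)) (M (nat_lit 3724199242179))) (P (nat_lit 0))))) (T.h (T.h (P (nat_lit 0)) (P (nat_lit 107874647200))) (T.h (T.h (T.h (P (nat_lit 0)) (M (nat_lit 14388687623))) (P (nat_lit 0))) (P (nat_lit 0))))))) (P (nat_lit 0))))) (T.h (T.h (P (nat_lit 0)) (T.h (T.h (T.h (P (nat_lit 0)) (T.h (T.h (P (nat_lit 14753917264)) (T.h (P (nat_lit 0)) (T.h (P (nat_lit 34139408848)) (T.h (P (nat_lit 0)) (M (nat_lit 50251666431)))))) (T.h (P (nat_lit 0)) (T.h (T.h (M (nat_lit 4079952115)) (T.h (P (nat_lit 0)) (P (nat_lit 293849215072)))) (T.h (P (nat_lit 0)) (P (nat_lit 158836899648))))))) (T.h (T.h (T.h (P (nat_lit 0)) (T.h (M (nat_lit 14483092559))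 (T.h (P (nat_lit 0)) (M (nat_lit 197131756039))))) (T.h (P (nat_lit 0)) (T.h (T.h (P (nat_lit 0)) (P (nat_lit 484195797912))) (P (nat_lit 0))))) (T.h (T.h (P (nat_lit 0)) (T.h (T.h (P (nat_lit 20274798800)) (T.h (P (nat_lit 0)) (P (nat_lit 1774959501040)))) (T.h (P (nat_lit 0)) (M (nat_lit 1787223598311))))) (T.h (T.h (T.h (P (nat_lit 0)) (M (nat_lit 391304352655))) (P (nat_lit 0))) (T.h (T.h (P (nat_lit 0)) (P (nat_lit 371241673952))) (P (nat_lit 0))))))) (P (nat_lit 0)))) (T.h (T.h (T.h (T.h (T.h (P (nat_lit 0)) (T.h (P (nat_lit 8580238036)) (T.h (P (nat_lit 0)) (T.h (P (nat_lit 21385417572)) (T.h (P (nat_lit 0)) (P (nat_lit 13191620512))))))) (T.h (P (nat_lit 0)) (T.h (T.h (P (nat_lit 0)) (T.h (M (nat_lit 40436214931)) (T.h (P (nat_lit 0)) (P (nat_lit 145169015072))))) (T.h (P (nat_lit 0)) (T.h (T.h (P (nat_lit 0)) (M (nat_lit 172237918719))) (P (nat_lit 0))))))) (T.h (T.h (P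 (nat_lit 0)) (T.h (T.h (M (nat_lit 6348780283)) (T.h (P (nat_lit 0)) (P (nat_lit 897979402416)))) (T.h (P (nat_lit 0)) (P (nat_lit 584827420788))))) (T.h (T.h (T.h (P (nat_lit 0)) (T.h (M (nat_lit 35945396495)) (T.h (P (nat_lit 0)) (P (nat_lit 127694530436))))) (T.h (P (nat_lit 0)) (T.h (T.h (P (nat_lit 0)) (P (nat_lit 604798770328))) (P (nat_lit 0))))) (T.h (T.h (P (nat_lit 0)) (P (nat_lit 314405142028))) (T.h (T.h (T.h (P (nat_lit 0)) (M (nat_lit 129953309303))) (P (nat_lit 0))) (P (nat_lit 0))))))) (P (nat_lit 0))) (P (nat_lit 0))))) (T.h (T.h (T.h (P (nat_lit 0)) (T.h (T.h (T.h (P (nat_lit 0)) (T.h (T.h (P (nat_lit 0)) (T.h (P (nat_lit 0)) (T.h (P (nat_lit 0)) (P (nat_lit 29922870016))))) (T.h (P (nat_lit 0)) (T.h (T.h (P (nat_lit 0)) (M (nat_lit 36348057887))) (P (nat_lit 0)))))) (T.h (T.h (T.h (P (nat_lit 1653130036)) (T.h (P (nat_lit 0)) (T.h (P (nat_lit 14866403160)) (T.h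 (P (nat_lit 0)) (M (nat_lit 95364904739)))))) (T.h (P (nat_lit 0)) (T.h (M (nat_lit 33128184351)) (T.h (P (nat_lit 0)) (P (nat_lit 168606321380)))))) (T.h (T.h (P (nat_lit 0)) (T.h (T.h (P (nat_lit 0)) (M (nat_lit 323107827459))) (P (nat_lit 0)))) (T.h (T.h (T.h (P (nat_lit 32631802868)) (T.h (P (nat_lit 0)) (M (nat_lit 448250443759)))) (T.h (P (nat_lit 0)) (M (nat_lit 1238442810923)))) (T.h (P (nat_lit 0)) (M (nat_lit 472519055999))))))) (P (nat_lit 0)))) (T.h (T.h (T.h (T.h (T.h (M (nat_lit 154374051)) (T.h (P (nat_lit 0)) (T.h (M (nat_lit 3259543383)) (T.h (P (nat_lit 0)) (P (nat_lit 35469440808)))))) (T.h (P (nat_lit 0)) (T.h (T.h (M (nat_lit 60646363)) (T.h (P (nat_lit 0)) (M (nat_lit 94268858931)))) (T.h (P (nat_lit 0)) (P (nat_lit 28765066668)))))) (T.h (T.h (P (nat_lit 0)) (T.h (T.h (P (nat_lit 0)) (T.h (P (nat_lit 63258860912)) (T.h (P (nat_lit 0)) (M (nat_lit 584851898879)))))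 (T.h (P (nat_lit 0)) (T.h (T.h (P (nat_lit 0)) (P (nat_lit 4030995280))) (P (nat_lit 0)))))) (T.h (T.h (T.h (M (nat_lit 8163330619)) (T.h (P (nat_lit 0)) (M (nat_lit 52408216655)))) (T.h (P (nat_lit 0)) (M (nat_lit 356251947811)))) (T.h (T.h (P (nat_lit 0)) (T.h (T.h (P (nat_lit 0)) (M (nat_lit 266543336139))) (P (nat_lit 0)))) (P (nat_lit 112039739516)))))) (P (nat_lit 0))) (P (nat_lit 0)))) (T.h (T.h (T.h (T.h (T.h (T.h (P (nat_lit 0)) (T.h (P (nat_lit 575733432)) (T.h (P (nat_lit 0)) (T.h (P (nat_lit 6355772104)) (T.h (P (nat_lit 0)) (P (nat_lit 15173593100))))))) (T.h (P (nat_lit 0)) (T.h (T.h (P (nat_lit 0)) (T.h (M (nat_lit 12636629183)) (T.h (P (nat_lit 0)) (P (nat_lit 85377085104))))) (T.h (P (nat_lit 0)) (T.h (T.h (P (nat_lit 0)) (M (nat_lit 38506809863))) (P (nat_lit 0))))))) (T.h (T.h (P (nat_lit 0)) (T.h (T.h (M (nat_lit 614187383)) (T.h (P (nat_lit 0)) (M (nat_lit 188359632535))))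 (T.h (P (nat_lit 0)) (P (nat_lit 47992553152))))) (T.h (T.h (T.h (P (nat_lit 0)) (T.h (P (nat_lit 28114926840)) (T.h (P (nat_lit 0)) (M (nat_lit 206582758367))))) (T.h (P (nat_lit 0)) (T.h (T.h (P (nat_lit 0)) (P (nat_lit 264680924568))) (P (nat_lit 0))))) (T.h (T.h (P (nat_lit 0)) (M (nat_lit 195990502799))) (T.h (T.h (T.h (P (nat_lit 0)) (M (nat_lit 109640346799))) (P (nat_lit 0))) (P (nat_lit 0))))))) (P (nat_lit 0))) (P (nat_lit 0))) (P (nat_lit 0)))))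
def en02_3 : T ℤ := (T.h (T.h (T.h (P (nat_lit 0)) (T.h (P (nat_lit 0)) (T.h (P (nat_lit 0)) (T.h (P (nat_lit 0)) (T.h (T.h (T.h (T.h (P (nat_lit 0)) (T.h (P (nat_lit 1653130036)) (T.h (P (nat_lit 0)) (T.h (P (nat_lit 32631802868)) (T.h (P (nat_lit 0)) (M (nat_lit 472519055999))))))) (T.h (P (nat_lit 0)) (T.h (T.h (P (nat_lit 0)) (T.h (M (nat_lit 33128184351)) (T.h (P (nat_lit 0)) (M (nat_lit 1238442810923))))) (T.h (P (nat_lit 0)) (T.h (T.h (P (nat_lit 0)) (P (nat_lit 168606321380))) (P (nat_lit 0))))))) (T.h (T.h (P (nat_lit 0)) (T.h (T.h (P (nat_lit 0)) (T.h (P (nat_lit 0)) (M (nat_lit 323107827459)))) (T.h (P (nat_lit 0)) (M (nat_lit 36348057887))))) (T.h (T.h (T.h (P (nat_lit 0)) (T.h (P (nat_lit 14866403160)) (T.h (P (nat_lit 0)) (M (nat_lit 448250443759))))) (P (nat_lit 0))) (T.h (T.h (P (nat_lit 0)) (P (nat_lit 29922870016))) (T.h (T.h (T.h (P (nat_lit 0)) (M (nat_lit 95364904739)))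 (P (nat_lit 0))) (P (nat_lit 0))))))) (P (nat_lit 0))))))) en02_1) (T.h (T.h (T.h (P (nat_lit 0)) (T.h (P (nat_lit 0)) (T.h (P (nat_lit 0)) (T.h (T.h (T.h (P (nat_lit 0)) (T.h (T.h (P (nat_lit 0)) (T.h (P (nat_lit 5987710128)) (T.h (P (nat_lit 0)) (P (nat_lit 107874647200))))) (T.h (P (nat_lit 0)) (T.h (T.h (P (nat_lit 0)) (M (nat_lit 11872119491))) (P (nat_lit 0)))))) (T.h (T.h (T.h (P (nat_lit 10836330840)) (T.h (P (nat_lit 0)) (T.h (P (nat_lit 34509153692)) (T.h (P (nat_lit 0)) (M (nat_lit 14388687623)))))) (T.h (P (nat_lit 0)) (T.h (T.h (M (nat_lit 46788877203)) (T.h (P (nat_lit 0)) (M (nat_lit 3724199242179)))) (T.h (P (nat_lit 0)) (P (nat_lit 107352309960)))))) (T.h (T.h (P (nat_lit 0)) (T.h (T.h (P (nat_lit 0)) (M (nat_lit 89274321511))) (P (nat_lit 0)))) (T.h (T.h (T.h (P (nat_lit 4276878840)) (T.h (P (nat_lit 0)) (M (nat_lit 425776740759)))) (T.h (P (nat_lit 0)) (M (nat_lit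 38440087663)))) (T.h (P (nat_lit 0)) (M (nat_lit 12762348743))))))) (P (nat_lit 0)))))) (T.h (T.h (P (nat_lit 0)) (T.h (P (nat_lit 0)) (T.h (T.h (T.h (T.h (P (nat_lit 0)) (T.h (P (nat_lit 0)) (T.h (P (nat_lit 4043625728)) (T.h (P (nat_lit 0)) (P (nat_lit 71604274968)))))) (T.h (P (nat_lit 0)) (T.h (T.h (M (nat_lit 8111644975)) (T.h (P (nat_lit 0)) (M (nat_lit 418064996427)))) (T.h (P (nat_lit 0)) (P (nat_lit 11825220112)))))) (T.h (T.h (P (nat_lit 0)) (T.h (T.h (P (nat_lit 0)) (T.h (P (nat_lit 172315671120)) (T.h (P (nat_lit 0)) (M (nat_lit 1533952918319))))) (T.h (P (nat_lit 0)) (T.h (T.h (P (nat_lit 0)) (M (nat_lit 2262557692271))) (P (nat_lit 0)))))) (T.h (T.h (T.h (P (nat_lit 4043625728)) (T.h (P (nat_lit 0)) (M (nat_lit 2161642053839)))) (T.h (P (nat_lit 0)) (M (nat_lit 418064996427)))) (T.h (T.h (P (nat_lit 0)) (T.h (T.h (P (nat_lit 0)) (M (nat_lit 1533952918319))) (P (nat_lit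 0)))) (P (nat_lit 71604274968)))))) (P (nat_lit 0))))) (T.h (T.h (P (nat_lit 0)) (T.h (T.h (T.h (P (nat_lit 0)) (T.h (T.h (P (nat_lit 0)) (T.h (P (nat_lit 19286907400)) (T.h (P (nat_lit 0)) (P (nat_lit 338972530880))))) (T.h (P (nat_lit 0)) (T.h (T.h (P (nat_lit 0)) (M (nat_lit 219756661803))) (P (nat_lit 0)))))) (T.h (T.h (T.h (M (nat_lit 17495555039)) (T.h (P (nat_lit 0)) (T.h (P (nat_lit 34273022788)) (T.h (P (nat_lit 0)) (M (nat_lit 96360545027)))))) (T.h (P (nat_lit 0)) (T.h (T.h (P (nat_lit 50490368528)) (T.h (P (nat_lit 0)) (P (nat_lit 793099638984)))) (T.h (P (nat_lit 0)) (M (nat_lit 479862877307)))))) (T.h (T.h (P (nat_lit 0)) (T.h (T.h (P (nat_lit 0)) (P (nat_lit 279740330084))) (P (nat_lit 0)))) (T.h (T.h (T.h (P (nat_lit 68157591460)) (T.h (P (nat_lit 0)) (P (nat_lit 599616450996)))) (T.h (P (nat_lit 0)) (M (nat_lit 702096980351)))) (T.h (P (nat_lit 0)) (M (nat_lit 225906980339)))))))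 (P (nat_lit 0)))) (T.h (T.h (T.h (T.h (T.h (M (nat_lit 58395671)) (T.h (P (nat_lit 0)) (T.h (M (nat_lit 3428651543)) (T.h (P (nat_lit 0)) (P (nat_lit 9989063672)))))) (T.h (P (nat_lit 0)) (T.h (T.h (M (nat_lit 2271709151)) (T.h (P (nat_lit 0)) (P (nat_lit 230078875848)))) (T.h (P (nat_lit 0)) (P (nat_lit 114929002936)))))) (T.h (T.h (P (nat_lit 0)) (T.h (T.h (P (nat_lit 0)) (T.h (M (nat_lit 48376882591)) (T.h (P (nat_lit 0)) (M (nat_lit 1084229605855))))) (T.h (P (nat_lit 0)) (T.h (T.h (P (nat_lit 0)) (P (nat_lit 392650879932))) (P (nat_lit 0)))))) (T.h (T.h (T.h (P (nat_lit 3171146476)) (T.h (P (nat_lit 0)) (P (nat_lit 11155737408)))) (T.h (P (nat_lit 0)) (M (nat_lit 479290605303)))) (T.h (T.h (P (nat_lit 0)) (T.h (T.h (P (nat_lit 0)) (P (nat_lit 97436154748))) (P (nat_lit 0)))) (P (nat_lit 50507456096)))))) (P (nat_lit 0))) (P (nat_lit 0)))))) en02_2))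

def n02 : T ℤ := (T.h (T.h (T.h (P (nat_lit 0)) (T.h (P (nat_lit 0)) (T.h (P (nat_lit 0)) (T.h (P (nat_lit 0)) (T.h (P (nat_lit 0)) (T.h (T.h (T.h (P (nat_lit 0)) (T.h (T.h (P (nat_lit 0)) (T.h (M (nat_lit 614187383)) (T.h (P (nat_lit 0)) (M (nat_lit 195990502799))))) (T.h (P (nat_lit 0)) (T.h (T.h (P (nat_lit 0)) (P (nat_lit 47992553152))) (P (nat_lit 0)))))) (T.h (T.h (T.h (P (nat_lit 575733432)) (T.h (P (nat_lit 0)) (T.h (P (nat_lit 28114926840)) (T.h (P (nat_lit 0)) (M (nat_lit 109640346799)))))) (T.h (P (nat_lit 0)) (T.h (T.h (M (nat_lit 12636629183)) (T.h (P (nat_lit 0)) (P (nat_lit 264680924568)))) (T.h (P (nat_lit 0)) (M (nat_lit 38506809863)))))) (T.h (T.h (P (nat_lit 0)) (T.h (T.h (P (nat_lit 0)) (M (nat_lit 188359632535))) (P (nat_lit 0)))) (T.h (T.h (T.h (P (nat_lit 6355772104)) (T.h (P (nat_lit 0)) (M (nat_lit 206582758367)))) (T.h (P (nat_lit 0)) (P (nat_lit 85377085104))))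 (T.h (P (nat_lit 0)) (P (nat_lit 15173593100))))))) (P (nat_lit 0)))))))) en02_0) en02_3)

theorem h_n02 : chkT (c.Nn 0 2 ++ c.Nn 2 0) n02 = true := by decide +kernel


end Pool.Agent.TOPR.R6042
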